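import Mathlib

/-!
# Exactness of `j` (section 4 of helper47's proof): geometry of the last coordinate

`x : Fin N → ℂ` with the sup norm, `a` the last active coordinate, `x0 a x` = `x` with the coordinate
`a` replaced by `0`. The formula (helper48): `F_t(x', ξ) = f (N (x', (1 - 2t|x'|) ξ))` if
`2t|x'| ≤ 1` and `g_{2t|x'|-1}(x'/|x'|)` otherwise. Everything is a total continuous function.
-/

set_option autoImplicit false

open Set Filter Topology Metric

namespace Pool.Agent.H.MP_5f9601_gt.U.JX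

variable {N : ℕ}

/-- `x` with coordinate `a` replaced by `0`. -/
noncomputable def x0 (a : Fin N) (x : Fin N → ℂ) : Fin N → ℂ := Function.update x a 0

/-- the factor `c = max 0 (1 - 2t|x'|)` of the last coordinate -/
noncomputable def cc (a : Fin N) (t : ℝ) (x : Fin N → ℂ) : ℝ := max 0 (1 - 2 * t * ‖x0 a x‖)

/-- `(x', c ξ)` -/
noncomputable def yy (a : Fin N) (t : ℝ) (x : Fin N → ℂ) : Fin N → ℂ :=
  Function.update x a ((cc a t x : ℂ) * x a)

/-- normalisation of a vector of norm at least `1/3` -/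
noncomputable def nn (v : Fin N → ℂ) : Fin N → ℂ := (((max ‖v‖ (1 / 3))⁻¹ : ℝ) : ℂ) • v

theorem continuous_x0 (a : Fin N) : Continuous (x0 a) := by
  unfold x0
  exact continuous_id.update a continuous_const

theorem continuous_cc (a : Fin N) : Continuous fun q : ℝ × (Fin N → ℂ) => cc a q.1 q.2 := by
  have h2 : Continuous fun q : ℝ × (Fin N → ℂ) => ‖x0 a q.2‖ :=
    ((continuous_x0 a).comp continuous_snd).norm
  unfold cc
  fun_prop

theorem continuous_yy (a : Fin N) : Continuous fun q : ℝ × (Fin N → ℂ) => yy a q.1 q.2 := by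
  unfold yy
  refine continuous_snd.update a ?_
  exact (Complex.continuous_ofReal.comp (continuous_cc a)).mul
    ((continuous_apply a).comp continuous_snd)

theorem continuous_nn : Continuous (nn (N := N)) := by
  have h : Continuous fun v : Fin N → ℂ => ((max ‖v‖ (1 / 3))⁻¹ : ℝ) := by
    refine Continuous.inv₀ (by fun_prop) ?_
    intro v
    have : (0 : ℝ) < max ‖v‖ (1 / 3) := lt_max_of_lt_right (by norm_num)
    exact this.ne'
  exact (Complex.continuous_ofReal.comp h).smul continuous_id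

theorem norm_x0_le (a : Fin N) (x : Fin N → ℂ) : ‖x0 a x‖ ≤ ‖x‖ := by
  rw [pi_norm_le_iff_of_nonneg (norm_nonneg _)]
  intro j
  unfold x0
  rcases eq_or_ne j a with rfl | h
  · simp
  · rw [Function.update_of_ne h]
    exact norm_le_pi_norm x j

theorem norm_update (a : Fin N) (x : Fin N → ℂ) (z : ℂ) :
    ‖Function.update x a z‖ = max ‖x0 a x‖ ‖z‖ := by
  apply le_antisymm
  · rw [pi_norm_le_iff_of_nonneg (le_max_of_le_left (norm_nonneg _))]
    intro j
    rcases eq_or_ne j a with rfl | h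
    · simp
    · rw [Function.update_of_ne h]
      have : ‖x j‖ ≤ ‖x0 a x‖ := by
        have h2 := norm_le_pi_norm (x0 a x) j
        unfold x0 at h2
        rwa [Function.update_of_ne h] at h2
      exact this.trans (le_max_left _ _)
  · apply max_le
    · rw [pi_norm_le_iff_of_nonneg (norm_nonneg _)]
      intro j
      unfold x0
      rcases eq_or_ne j a with rfl | h
      · simp
      · rw [Function.update_of_ne h]
        have h2 := norm_le_pi_norm (Function.update x a z) j
        rwa [Function.update_of_ne h] at h2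
    · have h2 := norm_le_pi_norm (Function.update x a z) a
      rwa [Function.update_self] at h2

theorem norm_eq_max (a : Fin N) (x : Fin N → ℂ) : ‖x‖ = max ‖x0 a x‖ ‖x a‖ := by
  have := norm_update a x (x a)
  rwa [Function.update_eq_self] at this

theorem cc_nonneg (a : Fin N) (t : ℝ) (x : Fin N → ℂ) : 0 ≤ cc a t x := le_max_left _ _

theorem norm_yy (a : Fin N) (t : ℝ) (x : Fin N → ℂ) :
    ‖yy a t x‖ = max ‖x0 a x‖ (cc a t x * ‖x a‖) := by
  unfold yy
  rw [norm_update, norm_mul, Complex.norm_real, Real.norm_of_nonneg (cc_nonneg a t x)]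

theorem third_le_norm_yy {a : Fin N} {t : ℝ} (ht0 : 0 ≤ t) (ht : t ≤ 1) {x : Fin N → ℂ}
    (hx : ‖x‖ = 1) : 1 / 3 ≤ ‖yy a t x‖ := by
  have h1 := norm_eq_max a x
  rw [norm_yy]
  rcases le_or_gt (1 / 3) ‖x0 a x‖ with h | h
  · exact h.trans (le_max_left _ _)
  · have h2 : ‖x a‖ = 1 := by
      rw [hx] at h1
      rcases max_choice ‖x0 a x‖ ‖x a‖ with h3 | h3
      · rw [h3] at h1; linarith
      · rw [h3] at h1; exact h1.symm
    have h3 : 1 - 2 * t * ‖x0 a x‖ ≤ cc a t x := le_max_right _ _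
    have h0 := norm_nonneg (x0 a x)
    refine le_trans ?_ (le_max_right _ _)
    rw [h2, mul_one]
    nlinarith

theorem norm_nn {v : Fin N → ℂ} (hv : 1 / 3 ≤ ‖v‖) : ‖nn v‖ = 1 := by
  have h0 : 0 < ‖v‖ := by linarith
  unfold nn
  rw [max_eq_left hv, norm_smul, Complex.norm_real, norm_inv, norm_norm]
  exact inv_mul_cancel₀ h0.ne'

theorem nn_of_norm_eq_one {v : Fin N → ℂ} (hv : ‖v‖ = 1) : nn v = v := by
  unfold nn
  rw [hv, max_eq_left (by norm_num)]
  simp

theorem yy_eq_x0 {a : Fin N} {t : ℝ} {x : Fin N → ℂ} (h : 1 ≤ 2 * t * ‖x0 a x‖) :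
    yy a t x = x0 a x := by
  unfold yy cc
  rw [max_eq_left (by linarith)]
  simp [x0]

theorem yy_zero (a : Fin N) (x : Fin N → ℂ) : yy a 0 x = x := by
  unfold yy cc
  simp

theorem x0_smul (a : Fin N) (s : ℂ) (x : Fin N → ℂ) : x0 a (s • x) = s • x0 a x := by
  unfold x0
  funext j
  rcases eq_or_ne j a with rfl | h
  · simp
  · simp [Function.update_of_ne h]

theorem norm_x0_smul (a : Fin N) (s : ℂ) (hs : ‖s‖ = 1) (x : Fin N → ℂ) :
    ‖x0 a (s • x)‖ = ‖x0 a x‖ := by
  rw [x0_smul, norm_smul, hs, one_mul]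

theorem cc_smul (a : Fin N) (t : ℝ) (s : ℂ) (hs : ‖s‖ = 1) (x : Fin N → ℂ) :
    cc a t (s • x) = cc a t x := by
  unfold cc
  rw [norm_x0_smul a s hs]

theorem yy_smul (a : Fin N) (t : ℝ) (s : ℂ) (hs : ‖s‖ = 1) (x : Fin N → ℂ) :
    yy a t (s • x) = s • yy a t x := by
  unfold yy
  rw [cc_smul a t s hs]
  funext j
  rcases eq_or_ne j a with rfl | h
  · simp only [Function.update_self, Pi.smul_apply, smul_eq_mul]
    ring
  · simp [Function.update_of_ne h]

theorem nn_smul (s : ℂ) (hs : ‖s‖ = 1) (v : Fin N → ℂ) : nn (s • v) = s • nn v := by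
  unfold nn
  rw [norm_smul, hs, one_mul, smul_comm]

theorem x0_apply_of_ne {a j : Fin N} (h : j ≠ a) (x : Fin N → ℂ) : x0 a x j = x j := by
  unfold x0
  rw [Function.update_of_ne h]

theorem x0_self (a : Fin N) (x : Fin N → ℂ) : x0 a x a = 0 := by
  unfold x0
  rw [Function.update_self]

theorem yy_apply_of_ne {a j : Fin N} (h : j ≠ a) (t : ℝ) (x : Fin N → ℂ) : yy a t x j = x j := by
  unfold yy
  rw [Function.update_of_ne h]

theorem nn_apply_eq_zero {j : Fin N} {v : Fin N → ℂ} (h : v j = 0) : nn v j = 0 := by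
  unfold nn
  rw [Pi.smul_apply, h, smul_zero]

end Pool.Agent.H.MP_5f9601_gt.U.JX
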