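import Pool.Agent.H.MP_5f9601_gt.U.FJO
import Pool.Agent.H.MP_5f9601_gt.U.JGeo

/-!
MP_5f9601, section 4 (helper67): function level of `j ∘ o = 0` (A2) and of the exactness at the cell
groups (A1): if `j κ` is null homotopic then `κ` is homotopic to `o u`.
-/

set_option autoImplicit false

open Set Topology ComplexConjugate Filter unitInterval

namespace MP5f.S4

/-- continuity at singular points -/
theorem sing_cont {Z X V Q : Type*} [TopologicalSpace Z] [TopologicalSpace X] [CompactSpace X]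
    [TopologicalSpace V] [TopologicalSpace Q] {F : Z × X → V} (hF : Continuous F) {z : Q → Z}
    (hz : Continuous z) {n : Q → X} {S : Set Q} (hn : ∀ q, q ∉ S → ContinuousAt n q) {e : V}
    (hS : ∀ q ∈ S, ∀ x, F (z q, x) = e) : Continuous fun q => F (z q, n q) := by
  rw [continuous_iff_continuousAt]
  intro q
  by_cases hq : q ∈ S
  · rw [ContinuousAt, hS q hq]
    intro U hU
    obtain ⟨U', hU', hUo, he⟩ := mem_nhds_iff.1 hU
    have h1 : IsOpen (F ⁻¹' U') := hUo.preimage hF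
    have h3 : ({z q} : Set Z) ×ˢ (univ : Set X) ⊆ F ⁻¹' U' := by
      rintro ⟨a, x⟩ ⟨h, -⟩
      have h' : a = z q := h
      show F (a, x) ∈ U'
      rw [h', hS q hq]
      exact he
    obtain ⟨u, v, hu, _, hsu, huv, hsub⟩ :=
      generalized_tube_lemma isCompact_singleton isCompact_univ h1 h3
    have h4 : u ∈ 𝓝 (z q) := hu.mem_nhds (hsu rfl)
    refine Filter.mem_map.2 (mem_of_superset (hz.continuousAt.preimage_mem_nhds h4) fun q' hq' => ?_)
    exact hU' (hsub (show (z q', n q') ∈ u ×ˢ v from ⟨hq', huv (mem_univ _)⟩))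
  · exact (hF.continuousAt).comp (hz.continuousAt.prodMk (hn q hq))

section mk

variable {P' V' : Type} [TopologicalSpace P'] [NormedAddCommGroup V']

/-- a continuous family of maps given by a formula -/
def Ctx.mkC (c' : Ctx P' V') {Z : Type*} [TopologicalSpace Z] (Θ : Z → P' → V')
    (hc : Continuous fun q : Z × P' => Θ q.1 q.2) (h0 : ∀ z p, Θ z p ≠ 0)
    (hb : ∀ z p, c'.P0 p → Θ z p = c'.e) (hE : ∀ z, c'.E (Θ z)) : C(Z, c'.FS) where
  toFun z := ⟨⟨Θ z, hc.comp (Continuous.prodMk_right z)⟩, h0 z, hb z, hE z⟩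
  continuous_toFun := by
    refine continuous_induced_rng.2 ?_
    exact ContinuousMap.continuous_of_continuous_uncurry
      (fun z : Z => (⟨Θ z, hc.comp (Continuous.prodMk_right z)⟩ : C(P', V'))) hc

theorem Ctx.mkC_apply (c' : Ctx P' V') {Z : Type*} [TopologicalSpace Z] (Θ : Z → P' → V')
    (hc : Continuous fun q : Z × P' => Θ q.1 q.2) (h0 : ∀ z p, Θ z p ≠ 0)
    (hb : ∀ z p, c'.P0 p → Θ z p = c'.e) (hE : ∀ z, c'.E (Θ z)) (z : Z) (p : P') :
    c'.mkC Θ hc h0 hb hE z p = Θ z p := rfl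

end mk

/-! ### geometry -/

section geo

variable {N i : ℕ}

/-- `(x, ξ)` -/
noncomputable def addC (hi : i < N) (q : D N i × ℝ) : Fin N → ℂ :=
  Function.update (q.1 : Fin N → ℂ) ⟨i, hi⟩ (q.2 : ℂ)

theorem continuous_addC (hi : i < N) : Continuous (addC hi) := by
  unfold addC
  refine Continuous.update (by fun_prop) _ ?_
  exact Complex.continuous_ofReal.comp continuous_snd

theorem D_apply_last (hi : i < N) (x : D N i) : (x : Fin N → ℂ) ⟨i, hi⟩ = 0 := x.2.2 _ le_rfl

theorem D_update (hi : i < N) (x : D N i) :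
    Function.update (x : Fin N → ℂ) ⟨i, hi⟩ 0 = (x : Fin N → ℂ) := by
  conv_lhs => rw [← D_apply_last hi x]
  exact Function.update_eq_self _ _

theorem norm_addC (hi : i < N) (q : D N i × ℝ) :
    ‖addC hi q‖ = max ‖(q.1 : Fin N → ℂ)‖ |q.2| := by
  unfold addC
  rw [Pool.Agent.H.MP_5f9601_gt.U.JX.norm_update, Pool.Agent.H.MP_5f9601_gt.U.JX.x0, D_update,
    Complex.norm_real, Real.norm_eq_abs]

theorem addC_apply_ge (hi : i < N) (q : D N i × ℝ) (j : Fin N) (hj : i + 1 ≤ (j : ℕ)) :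
    addC hi q j = 0 := by
  unfold addC
  have h : j ≠ ⟨i, hi⟩ := fun h => by
    have := congrArg Fin.val h
    simp only at this
    omega
  rw [Function.update_of_ne h]
  exact q.1.2.2 j (by omega)

/-- the pole -/
noncomputable def pole (hi : i < N) : X N (i + 1) :=
  ⟨Pi.single ⟨i, hi⟩ 1, by rw [Pi.norm_single]; simp, fun j hj => by
    have h : j ≠ ⟨i, hi⟩ := fun h => by
      have := congrArg Fin.val h
      simp only at this
      omega
    exact Pi.single_eq_of_ne h _⟩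

/-- normalisation of `(x, ξ)` -/
noncomputable def nrm (hi : i < N) (q : D N i × ℝ) : X N (i + 1) :=
  open Classical in
  if h : addC hi q = 0 then pole hi
  else ⟨((‖addC hi q‖⁻¹ : ℝ) : ℂ) • addC hi q, by
    rw [norm_smul, Complex.norm_real, norm_inv, norm_norm, inv_mul_cancel₀ (norm_ne_zero_iff.2 h)],
    fun j hj => by rw [Pi.smul_apply, addC_apply_ge hi q j hj, smul_zero]⟩

theorem nrm_coe (hi : i < N) (q : D N i × ℝ) (h : addC hi q ≠ 0) :
    (nrm hi q : Fin N → ℂ) = ((‖addC hi q‖⁻¹ : ℝ) : ℂ) • addC hi q := by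
  rw [nrm, dif_neg h]

theorem continuousAt_nrm (hi : i < N) (q : D N i × ℝ) (h : addC hi q ≠ 0) :
    ContinuousAt (nrm hi) q := by
  rw [Topology.IsInducing.subtypeVal.continuousAt_iff]
  have h1 : ContinuousAt (fun q : D N i × ℝ => ((‖addC hi q‖⁻¹ : ℝ) : ℂ) • addC hi q) q := by
    have h2 : ContinuousAt (addC hi) q := (continuous_addC hi).continuousAt
    have h4 : ContinuousAt (fun q : D N i × ℝ => ((‖addC hi q‖⁻¹ : ℝ) : ℂ)) q := by
      have h5 : ContinuousAt (fun q : D N i × ℝ => ‖addC hi q‖⁻¹) q :=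
        (h2.norm).inv₀ (norm_ne_zero_iff.2 h)
      exact ContinuousAt.comp (g := fun r : ℝ => (r : ℂ))
        (Complex.continuous_ofReal.continuousAt) h5
    exact h4.smul h2
  refine h1.congr ?_
  have h3 : ∀ᶠ q' in 𝓝 q, addC hi q' ≠ 0 :=
    (continuous_addC hi).continuousAt.eventually_ne h
  filter_upwards [h3] with q' h'
  exact (nrm_coe hi q' h').symm

theorem addC_ne_of_pos (hi : i < N) (x : D N i) {ξ : ℝ} (h : ξ ≠ 0) : addC hi (x, ξ) ≠ 0 := by
  intro h2
  have h3 := norm_addC hi (x, ξ)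
  rw [h2, norm_zero] at h3
  have h4 : 0 < |ξ| := abs_pos.2 h
  have h5 : |ξ| ≤ max ‖(x : Fin N → ℂ)‖ |ξ| := le_max_right _ _
  simp only at h3
  linarith

theorem addC_ne_of_ne (hi : i < N) (x : D N i) (ξ : ℝ) (h : (x : Fin N → ℂ) ≠ 0) :
    addC hi (x, ξ) ≠ 0 := by
  intro h2
  have h3 := norm_addC hi (x, ξ)
  rw [h2, norm_zero] at h3
  have h4 : 0 < ‖(x : Fin N → ℂ)‖ := norm_pos_iff.2 h
  have h5 : ‖(x : Fin N → ℂ)‖ ≤ max ‖(x : Fin N → ℂ)‖ |ξ| := le_max_left _ _
  simp only at h3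
  linarith

theorem norm_D_le (x : D N i) : ‖(x : Fin N → ℂ)‖ ≤ 1 := x.2.1

theorem nrm_one (hi : i < N) (x : D N i) :
    (nrm hi (x, 1) : Fin N → ℂ) = Function.update (x : Fin N → ℂ) ⟨i, hi⟩ 1 := by
  have h1 : ‖addC hi (x, 1)‖ = 1 := by
    rw [norm_addC]
    simp only [abs_one]
    exact max_eq_right (norm_D_le x)
  rw [nrm_coe hi _ (addC_ne_of_pos hi x one_ne_zero), h1]
  simp [addC]

theorem nrm_zero (hi : i < N) (x : D N i) (h : (x : Fin N → ℂ) ≠ 0) :
    nrm hi (x, 0) = inclX (Nat.le_succ i) (dirX x h) := by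
  apply Subtype.ext
  rw [nrm_coe hi _ (addC_ne_of_ne hi x 0 h)]
  have h1 : addC hi (x, 0) = (x : Fin N → ℂ) := by
    unfold addC
    simp only [Complex.ofReal_zero]
    exact D_update hi x
  rw [h1]
  rfl

/-- on the sphere `|x| = 1` the other coordinates of the normalisation are `x` -/
theorem nrm_of_norm_one (hi : i < N) (x : D N i) {ξ : ℝ} (h : ‖(x : Fin N → ℂ)‖ = 1) (hξ : |ξ| ≤ 1) :
    Function.update (nrm hi (x, ξ) : Fin N → ℂ) ⟨i, hi⟩ 0 = (x : Fin N → ℂ) := by
  have hx : (x : Fin N → ℂ) ≠ 0 := by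
    intro h2
    rw [h2, norm_zero] at h
    exact zero_ne_one h
  have h1 : ‖addC hi (x, ξ)‖ = 1 := by
    rw [norm_addC]
    simp only [h]
    exact max_eq_left hξ
  rw [nrm_coe hi _ (addC_ne_of_ne hi x ξ hx), h1]
  simp only [inv_one, Complex.ofReal_one, one_smul, addC, Function.update_idem]
  exact D_update hi x

/-- forget the last coordinate -/
noncomputable def projD (hi : i < N) (x : X N (i + 1)) : D N i :=
  ⟨Function.update (x : Fin N → ℂ) ⟨i, hi⟩ 0, by
    constructor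
    · exact (Pool.Agent.H.MP_5f9601_gt.U.JX.norm_x0_le ⟨i, hi⟩ (x : Fin N → ℂ)).trans x.2.1.le
    · intro j hj
      rcases eq_or_ne j ⟨i, hi⟩ with rfl | h
      · simp
      · rw [Function.update_of_ne h]
        refine x.2.2 j ?_
        have : (j : ℕ) ≠ i := fun h4 => h (Fin.ext h4)
        omega⟩

theorem continuous_projD (hi : i < N) : Continuous (projD (N := N) hi) :=
  Continuous.subtype_mk (continuous_subtype_val.update _ continuous_const) _

end geo

/-! ### (A2): `j ∘ o` is null homotopic -/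

section A2

variable {N i al be c rho : ℕ} (a : Fin al → ℕ) (b : Fin be → ℕ)

theorem continuous_cons_rad :
    Continuous fun q : Cu rho × unitInterval => (Fin.cons q.2 q.1 : Cu (rho + 1)) := by
  refine continuous_pi fun j => ?_
  refine Fin.cases ?_ (fun k => ?_) j
  · simp only [Fin.cons_zero]; fun_prop
  · simp only [Fin.cons_succ]; fun_prop

/-- the formula of the null homotopy of `j (o f)` -/
noncomputable def joF (hi : i < N) (f : (YC N i a b c (Cu (rho + 1))).FS) (τ : unitInterval)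
    (p : X N (i + 1) × Ball al c × Cu rho) : V be c :=
  open Classical in
  if h : (projD hi p.1 : Fin N → ℂ) ≠ 0 then
    f (dirX (projD hi p.1) h, p.2.1, Fin.cons (rad (projD hi p.1) * σ τ) p.2.2)
  else ebase be c

open unitInterval in
theorem continuous_joF (hi : i < N) :
    Continuous fun q : (unitInterval × (YC N i a b c (Cu (rho + 1))).FS) ×
      (X N (i + 1) × Ball al c × Cu rho) => joF a b hi q.1.2 q.1.1 q.2 := by
  have h1 := polar_continuous (N := N) (i := i)
    (T := (unitInterval × (YC N i a b c (Cu (rho + 1))).FS) × Ball al c × Cu rho) (Q := V be c)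
    (fun q => q.1.1.2 (q.2.1, q.1.2.1, Fin.cons (q.2.2 * σ q.1.1.1) q.1.2.2))
    (contY (by fun_prop) (Continuous.prodMk (by fun_prop) (Continuous.prodMk (by fun_prop)
      (continuous_cons_rad.comp (f := fun q : ((unitInterval ×
        (YC N i a b c (Cu (rho + 1))).FS) × Ball al c × Cu rho) ×
        X N i × unitInterval => (q.1.2.2, q.2.2 * σ q.1.1.1)) (by fun_prop))))) (ebase be c)
    (fun t y => t.1.2.base (p := (y, t.2.1, Fin.cons (0 * σ t.1.1) t.2.2))
      (Or.inr ⟨0, Or.inl (by simp)⟩))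
  exact h1.comp (f := fun q : (unitInterval × (YC N i a b c (Cu (rho + 1))).FS) ×
    (X N (i + 1) × Ball al c × Cu rho) => ((q.1, q.2.2.1, q.2.2.2), projD hi q.2.1))
    (Continuous.prodMk (by fun_prop) ((continuous_projD hi).comp (by fun_prop)))

variable {a b}

theorem joF_ne (hi : i < N) (f : (YC N i a b c (Cu (rho + 1))).FS) (τ : unitInterval)
    (p : X N (i + 1) × Ball al c × Cu rho) : joF a b hi f τ p ≠ 0 := by
  unfold joF
  split_ifs with h
  · exact f.ne _
  · exact (CC N i al be c (Cu rho)).e_ne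

theorem joF_base (hi : i < N) (f : (YC N i a b c (Cu (rho + 1))).FS) (τ : unitInterval)
    (p : X N (i + 1) × Ball al c × Cu rho) (hp : (YC N (i + 1) a b c (Cu rho)).P0 p) :
    joF a b hi f τ p = ebase be c := by
  unfold joF
  split_ifs with h
  · refine f.base ?_
    rcases hp with h1 | ⟨k, h1⟩
    · exact Or.inl h1
    · exact Or.inr ⟨k.succ, h1⟩
  · rfl

theorem projD_smul (hi : i < N) {t : ℂ} {x x' : X N (i + 1)}
    (h : (x' : Fin N → ℂ) = t • (x : Fin N → ℂ)) :
    (projD hi x' : Fin N → ℂ) = t • (projD hi x : Fin N → ℂ) := by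
  show Function.update (x' : Fin N → ℂ) ⟨i, hi⟩ 0 = t • Function.update (x : Fin N → ℂ) ⟨i, hi⟩ 0
  rw [h]
  exact Pool.Agent.H.MP_5f9601_gt.U.JX.x0_smul _ _ _

theorem norm_projD_smul (hi : i < N) {t : ℂ} (ht : ‖t‖ = 1) {x x' : X N (i + 1)}
    (h : (x' : Fin N → ℂ) = t • (x : Fin N → ℂ)) :
    ‖(projD hi x' : Fin N → ℂ)‖ = ‖(projD hi x : Fin N → ℂ)‖ := by
  rw [projD_smul hi h, norm_smul, ht, one_mul]

theorem dirX_smul {t : ℂ} (ht : ‖t‖ = 1) {x x' : D N i} (hx : (x : Fin N → ℂ) ≠ 0)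
    (hx' : (x' : Fin N → ℂ) ≠ 0) (h : (x' : Fin N → ℂ) = t • (x : Fin N → ℂ)) :
    (dirX x' hx' : Fin N → ℂ) = t • (dirX x hx : Fin N → ℂ) := by
  show ((‖(x' : Fin N → ℂ)‖⁻¹ : ℝ) : ℂ) • (x' : Fin N → ℂ) =
    t • (((‖(x : Fin N → ℂ)‖⁻¹ : ℝ) : ℂ) • (x : Fin N → ℂ))
  rw [h, norm_smul, ht, one_mul, smul_comm]

theorem joF_eqv (hi : i < N) (f : (YC N i a b c (Cu (rho + 1))).FS) (τ : unitInterval) :
    (YC N (i + 1) a b c (Cu rho)).E (joF a b hi f τ) := by
  intro t ht p p' h1 h2 h3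
  have h4 := projD_smul hi h1
  have h5 := norm_projD_smul hi ht h1
  have ht0 : t ≠ 0 := fun h => by rw [h, norm_zero] at ht; exact zero_ne_one ht
  unfold joF
  by_cases h : (projD hi p.1 : Fin N → ℂ) = 0
  · have h' : (projD hi p'.1 : Fin N → ℂ) = 0 := by rw [h4, h, smul_zero]
    rw [dif_neg (not_not.2 h), dif_neg (not_not.2 h'), rotV_ebase]
  · have h' : (projD hi p'.1 : Fin N → ℂ) ≠ 0 := by
      rw [h4]
      exact smul_ne_zero ht0 h
    rw [dif_pos h, dif_pos h']
    have h6 : rad (projD hi p'.1) = rad (projD hi p.1) := Subtype.ext h5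
    rw [h6, h3]
    exact YC_eqv f ht _ (dirX_smul ht h h' h4) h2

theorem joF_one (hi : i < N) (f : (YC N i a b c (Cu (rho + 1))).FS)
    (p : X N (i + 1) × Ball al c × Cu rho) : joF a b hi f 1 p = ebase be c := by
  unfold joF
  split_ifs with h
  · exact f.base (Or.inr ⟨0, Or.inl (by simp)⟩)
  · rfl

theorem joF_pt (hi : i < N) (τ : unitInterval) (p : X N (i + 1) × Ball al c × Cu rho) :
    joF a b hi (YC N i a b c (Cu (rho + 1))).pt τ p = ebase be c := by
  unfold joF
  split_ifs with h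
  · rfl
  · rfl

theorem joF_zero (hi : i < N) (f : (YC N i a b c (Cu (rho + 1))).FS)
    (p : X N (i + 1) × Ball al c × Cu rho) :
    joF a b hi f 0 p = (jj a b hi c (Cu rho)).toFun ((oo a b N i c rho).toFun f) p := by
  rw [jj_apply]
  unfold joF jjF
  by_cases hn : ‖(p.1 : Fin N → ℂ) ⟨i, hi⟩‖ = 1
  · rw [if_pos hn]
    have hcc : conj ((p.1 : Fin N → ℂ) ⟨i, hi⟩) * (p.1 : Fin N → ℂ) ⟨i, hi⟩ = 1 := by
      rw [mul_comm, Complex.mul_conj, Complex.normSq_eq_norm_sq, hn]; simp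
    have hcell : (cellPt hi p.1 : Fin N → ℂ) =
        conj ((p.1 : Fin N → ℂ) ⟨i, hi⟩) • (projD hi p.1 : Fin N → ℂ) := rfl
    have hc0 : conj ((p.1 : Fin N → ℂ) ⟨i, hi⟩) ≠ 0 := fun h => by
      rw [h, zero_mul] at hcc
      exact zero_ne_one hcc
    have hcn : ‖conj ((p.1 : Fin N → ℂ) ⟨i, hi⟩)‖ = 1 := by rw [RCLike.norm_conj, hn]
    by_cases h : (projD hi p.1 : Fin N → ℂ) = 0
    · have h' : (cellPt hi p.1 : Fin N → ℂ) = 0 := by rw [hcell, h, smul_zero]
      rw [dif_neg (not_not.2 h), oo_apply_zero _ _ _ _ h', rotV_ebase]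
    · have h' : (cellPt hi p.1 : Fin N → ℂ) ≠ 0 := by
        rw [hcell]
        exact smul_ne_zero hc0 h
      rw [dif_pos h, oo_apply_ne _ _ _ _ h']
      have h6 : rad (cellPt hi p.1) = rad (projD hi p.1) := by
        apply Subtype.ext
        show ‖(cellPt hi p.1 : Fin N → ℂ)‖ = ‖(projD hi p.1 : Fin N → ℂ)‖
        rw [hcell, norm_smul, hcn, one_mul]
      rw [h6, unitInterval.symm_zero, mul_one]
      refine YC_eqv f hn _ ?_ ?_
      · rw [dirX_smul hcn h h' hcell, smul_smul, mul_comm, hcc, one_smul]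
      · show (p.2.1 : W al c) = (rot a ((p.1 : Fin N → ℂ) ⟨i, hi⟩)
          (rot a (conj ((p.1 : Fin N → ℂ) ⟨i, hi⟩)) (p.2.1 : W al c).1), (p.2.1 : W al c).2)
        rw [← rot_mul, mul_comm, hcc, rot_one]
  · rw [if_neg hn]
    have h1 : ‖(projD hi p.1 : Fin N → ℂ)‖ = 1 := (norm_X_cases hi p.1).resolve_left hn
    have h2 : (projD hi p.1 : Fin N → ℂ) ≠ 0 := fun h => by
      rw [h, norm_zero] at h1
      exact zero_ne_one h1
    rw [dif_pos h2]
    refine f.base (Or.inr ⟨0, Or.inr ?_⟩)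
    rw [unitInterval.symm_zero, mul_one]
    exact Subtype.ext h1

variable (a b) in
/-- the null homotopy of `j (o f)` as a family of maps -/
noncomputable def joH (hi : i < N) (c rho : ℕ) :
    C(unitInterval × (YC N i a b c (Cu (rho + 1))).FS, (YC N (i + 1) a b c (Cu rho)).FS) :=
  (YC N (i + 1) a b c (Cu rho)).mkC (fun q => joF a b hi q.2 q.1) (continuous_joF a b hi)
    (fun q p => joF_ne hi q.2 q.1 p) (fun q p hp => joF_base hi q.2 q.1 p hp)
    (fun q => joF_eqv hi q.2 q.1)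

theorem joH_zero (hi : i < N) (f : (YC N i a b c (Cu (rho + 1))).FS) :
    joH a b hi c rho (0, f) = (jj a b hi c (Cu rho)).toFun ((oo a b N i c rho).toFun f) :=
  Ctx.FS.ext fun p => joF_zero hi f p

theorem joH_one (hi : i < N) (f : (YC N i a b c (Cu (rho + 1))).FS) :
    joH a b hi c rho (1, f) = (YC N (i + 1) a b c (Cu rho)).pt :=
  Ctx.FS.ext fun p => joF_one hi f p

theorem joH_pt (hi : i < N) (τ : unitInterval) :
    joH a b hi c rho (τ, (YC N i a b c (Cu (rho + 1))).pt) = (YC N (i + 1) a b c (Cu rho)).pt :=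
  Ctx.FS.ext fun p => joF_pt hi τ p

end A2

/-! ### (A1): exactness at the cell groups -/

section A1

variable {N i al be c rho : ℕ} {a : Fin al → ℕ} {b : Fin be → ℕ} {Z : Type*} [TopologicalSpace Z]

/-- the element `u` with `o u ~ κ` -/
noncomputable def uA (hi : i < N) (κ : C(Z, (CC N i al be c (Cu rho)).FS))
    (G : C(Z × unitInterval, (YC N (i + 1) a b c (Cu rho)).FS))
    (hG0 : ∀ z, G (z, 0) = (jj a b hi c (Cu rho)).toFun (κ z))
    (hG1 : ∀ z, G (z, 1) = (YC N (i + 1) a b c (Cu rho)).pt) :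
    C(Z, (YC N i a b c (Cu (rho + 1))).FS) :=
  (YC N i a b c (Cu (rho + 1))).mkC
    (fun z p => G (z, σ (p.2.2 0)) (inclX (Nat.le_succ i) p.1, p.2.1, Fin.tail p.2.2))
    (by
      have h1 : Continuous fun k : Cu (rho + 1) => (Fin.tail k : Cu rho) :=
        continuous_pi fun j => by simp only [Fin.tail]; fun_prop
      refine contY (F := fun q : Z × (X N i × Ball al c × Cu (rho + 1)) => G (q.1, σ (q.2.2.2 0)))
        ?_ ?_
      · refine G.continuous.comp (Continuous.prodMk (by fun_prop) ?_)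
        exact continuous_symm.comp (by fun_prop)
      · exact Continuous.prodMk ((continuous_inclX _).comp (by fun_prop))
          (Continuous.prodMk (by fun_prop) (h1.comp (by fun_prop))))
    (fun z p => Ctx.FS.ne _ _)
    (fun z p hp => by
      rcases hp with h | ⟨j, h⟩
      · exact Ctx.FS.base _ (Or.inl h)
      · revert h
        refine Fin.cases (fun h => ?_) (fun j h => ?_) j
        · rcases h with h | h
          · rw [h, unitInterval.symm_zero, hG1]; rfl
          · rw [h, unitInterval.symm_one, hG0, jj_apply]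
            refine jjF_of_norm hi _ _ ?_
            have h2 : (p.1 : Fin N → ℂ) ⟨i, hi⟩ = 0 := p.1.2.2 _ le_rfl
            show ‖Function.update (p.1 : Fin N → ℂ) ⟨i, hi⟩ 0‖ = 1
            rw [← h2, Function.update_eq_self]
            exact p.1.2.1
        · exact Ctx.FS.base _ (Or.inr ⟨j, h⟩))
    (fun z t ht p p' h1 h2 h3 => by
      show G (z, σ (p'.2.2 0)) (inclX (Nat.le_succ i) p'.1, p'.2.1, Fin.tail p'.2.2) =
        rotV b t (G (z, σ (p.2.2 0)) (inclX (Nat.le_succ i) p.1, p.2.1, Fin.tail p.2.2))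
      rw [h3]
      exact YC_eqv _ ht _ h1 h2)

/-- the formula of the homotopy from `κ` to `o u` -/
noncomputable def cF (hi : i < N) (G : C(Z × unitInterval, (YC N (i + 1) a b c (Cu rho)).FS))
    (s : unitInterval) (z : Z) (p : D N i × Ball al c × Cu rho) : V be c :=
  G (z, s * σ (rad p.1)) (nrm hi (p.1, 1 - (s : ℝ)), p.2)

theorem continuous_rad : Continuous (rad : D N i → unitInterval) :=
  Continuous.subtype_mk (by fun_prop) _

theorem continuous_cF (hi : i < N) (G : C(Z × unitInterval, (YC N (i + 1) a b c (Cu rho)).FS))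
    (hG1 : ∀ z, G (z, 1) = (YC N (i + 1) a b c (Cu rho)).pt) :
    Continuous fun q : (unitInterval × Z) × (D N i × Ball al c × Cu rho) =>
      cF hi G q.1.1 q.1.2 q.2 := by
  have hF : Continuous fun q : ((Z × unitInterval) × (Ball al c × Cu rho)) × X N (i + 1) =>
      G q.1.1 (q.2, q.1.2) :=
    contY (F := fun q : ((Z × unitInterval) × (Ball al c × Cu rho)) × X N (i + 1) => G q.1.1)
      (G.continuous.comp (by fun_prop)) (by fun_prop)
  have hz : Continuous fun q : (unitInterval × Z) × (D N i × Ball al c × Cu rho) =>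
      (((q.1.2, q.1.1 * σ (rad q.2.1)), q.2.2) : (Z × unitInterval) × (Ball al c × Cu rho)) := by
    have h1 : Continuous fun q : (unitInterval × Z) × (D N i × Ball al c × Cu rho) =>
        σ (rad q.2.1) := continuous_symm.comp (continuous_rad.comp (by fun_prop))
    exact Continuous.prodMk (Continuous.prodMk (by fun_prop) (by fun_prop)) (by fun_prop)
  refine sing_cont (F := fun q : ((Z × unitInterval) × (Ball al c × Cu rho)) × X N (i + 1) =>
      G q.1.1 (q.2, q.1.2)) hF hz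
    (n := fun q : (unitInterval × Z) × (D N i × Ball al c × Cu rho) =>
      nrm hi (q.2.1, 1 - (q.1.1 : ℝ)))
    (S := {q | addC hi (q.2.1, 1 - (q.1.1 : ℝ)) = 0}) (e := ebase be c) ?_ ?_
  · intro q hq
    have h2 : ContinuousAt (fun q : (unitInterval × Z) × (D N i × Ball al c × Cu rho) =>
      ((q.2.1, 1 - (q.1.1 : ℝ)) : D N i × ℝ)) q := by
      refine Continuous.continuousAt ?_
      fun_prop
    exact ContinuousAt.comp (g := nrm hi) (continuousAt_nrm hi _ hq) h2
  · rintro ⟨⟨s, z⟩, x, v⟩ hq y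
    have h3 : (1 - (s : ℝ)) = 0 := by
      by_contra h
      exact addC_ne_of_pos hi x h hq
    have h4 : (x : Fin N → ℂ) = 0 := by
      by_contra h
      exact addC_ne_of_ne hi x _ h hq
    have h5 : s = 1 := Subtype.ext (by simp only [Set.Icc.coe_one]; linarith)
    have h6 : rad x = 0 := Subtype.ext (by simp [rad, h4])
    show G (z, s * σ (rad x)) (y, v) = ebase be c
    rw [h5, h6, unitInterval.symm_zero, one_mul, hG1]
    rfl

/-- the homotopy from `κ` to `o u` as a family of maps -/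
noncomputable def cH (hi : i < N) (κ : C(Z, (CC N i al be c (Cu rho)).FS))
    (G : C(Z × unitInterval, (YC N (i + 1) a b c (Cu rho)).FS))
    (hG0 : ∀ z, G (z, 0) = (jj a b hi c (Cu rho)).toFun (κ z))
    (hG1 : ∀ z, G (z, 1) = (YC N (i + 1) a b c (Cu rho)).pt) :
    C(unitInterval × Z, (CC N i al be c (Cu rho)).FS) :=
  (CC N i al be c (Cu rho)).mkC (fun q p => cF hi G q.1 q.2 p) (continuous_cF hi G hG1)
    (fun q p => Ctx.FS.ne _ _)
    (fun q p hp => by
      rcases hp with h | h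
      · show G (q.2, q.1 * σ (rad p.1)) (nrm hi (p.1, 1 - (q.1 : ℝ)), p.2) = ebase be c
        have h1 : rad p.1 = 1 := Subtype.ext h
        rw [h1, unitInterval.symm_one, mul_zero, hG0, jj_apply]
        refine jjF_of_norm hi _ _ ?_
        show ‖Function.update (nrm hi (p.1, 1 - (q.1 : ℝ)) : Fin N → ℂ) ⟨i, hi⟩ 0‖ = 1
        rw [nrm_of_norm_one hi p.1 h, h]
        rw [abs_of_nonneg (sub_nonneg.2 q.1.2.2)]
        linarith [q.1.2.1]
      · exact Ctx.FS.base _ h)
    (fun q => trivial)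

theorem cH_zero (hi : i < N) (κ : C(Z, (CC N i al be c (Cu rho)).FS))
    (G : C(Z × unitInterval, (YC N (i + 1) a b c (Cu rho)).FS))
    (hG0 : ∀ z, G (z, 0) = (jj a b hi c (Cu rho)).toFun (κ z))
    (hG1 : ∀ z, G (z, 1) = (YC N (i + 1) a b c (Cu rho)).pt) (z : Z) :
    cH hi κ G hG0 hG1 (0, z) = κ z := by
  refine Ctx.FS.ext fun p => ?_
  show G (z, 0 * σ (rad p.1)) (nrm hi (p.1, 1 - ((0 : unitInterval) : ℝ)), p.2) = κ z p
  rw [zero_mul, hG0, jj_apply, Set.Icc.coe_zero, sub_zero]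
  have h1 := nrm_one hi p.1
  have h2 : (nrm hi (p.1, 1) : Fin N → ℂ) ⟨i, hi⟩ = 1 := by rw [h1, Function.update_self]
  unfold jjF
  simp only
  rw [if_pos (by rw [h2, norm_one])]
  have h3 : cellPt hi (nrm hi (p.1, 1)) = p.1 := by
    apply Subtype.ext
    show conj ((nrm hi (p.1, 1) : Fin N → ℂ) ⟨i, hi⟩) •
      Function.update (nrm hi (p.1, 1) : Fin N → ℂ) ⟨i, hi⟩ 0 = (p.1 : Fin N → ℂ)
    rw [h2, h1, map_one, one_smul, Function.update_idem, D_update]
  have h4 : rotB a (conj ((nrm hi (p.1, 1) : Fin N → ℂ) ⟨i, hi⟩)) (norm_coord_le hi _) p.2.1 =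
      p.2.1 := by
    apply Subtype.ext
    show ((rot a (conj ((nrm hi (p.1, 1) : Fin N → ℂ) ⟨i, hi⟩)) (p.2.1 : W al c).1,
      (p.2.1 : W al c).2) : W al c) = _
    rw [h2, map_one, rot_one]
  rw [h3, h4, h2, rotV_one]

theorem cH_one (hi : i < N) (κ : C(Z, (CC N i al be c (Cu rho)).FS))
    (G : C(Z × unitInterval, (YC N (i + 1) a b c (Cu rho)).FS))
    (hG0 : ∀ z, G (z, 0) = (jj a b hi c (Cu rho)).toFun (κ z))
    (hG1 : ∀ z, G (z, 1) = (YC N (i + 1) a b c (Cu rho)).pt) (z : Z) :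
    cH hi κ G hG0 hG1 (1, z) = (oo a b N i c rho).toFun (uA hi κ G hG0 hG1 z) := by
  refine Ctx.FS.ext fun p => ?_
  obtain ⟨x, v, k⟩ := p
  show G (z, 1 * σ (rad x)) (nrm hi (x, 1 - ((1 : unitInterval) : ℝ)), v, k) = _
  rw [one_mul, Set.Icc.coe_one, sub_self]
  by_cases h : (x : Fin N → ℂ) = 0
  · rw [oo_apply_zero _ _ _ _ h]
    have h1 : rad x = 0 := Subtype.ext (by simp [rad, h])
    rw [h1, unitInterval.symm_zero, hG1]
    rfl
  · rw [oo_apply_ne _ _ _ _ h, nrm_zero hi x h]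
    rfl

theorem cH_pt (hi : i < N) (κ : C(Z, (CC N i al be c (Cu rho)).FS))
    (G : C(Z × unitInterval, (YC N (i + 1) a b c (Cu rho)).FS))
    (hG0 : ∀ z, G (z, 0) = (jj a b hi c (Cu rho)).toFun (κ z))
    (hG1 : ∀ z, G (z, 1) = (YC N (i + 1) a b c (Cu rho)).pt) (z : Z)
    (hz : ∀ t, G (z, t) = (YC N (i + 1) a b c (Cu rho)).pt) (s : unitInterval) :
    cH hi κ G hG0 hG1 (s, z) = (CC N i al be c (Cu rho)).pt := by
  refine Ctx.FS.ext fun p => ?_
  show G (z, s * σ (rad p.1)) (nrm hi (p.1, 1 - (s : ℝ)), p.2) = ebase be c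
  rw [hz]
  rfl

theorem uA_pt (hi : i < N) (κ : C(Z, (CC N i al be c (Cu rho)).FS))
    (G : C(Z × unitInterval, (YC N (i + 1) a b c (Cu rho)).FS))
    (hG0 : ∀ z, G (z, 0) = (jj a b hi c (Cu rho)).toFun (κ z))
    (hG1 : ∀ z, G (z, 1) = (YC N (i + 1) a b c (Cu rho)).pt) (z : Z)
    (hz : ∀ t, G (z, t) = (YC N (i + 1) a b c (Cu rho)).pt) :
    uA hi κ G hG0 hG1 z = (YC N i a b c (Cu (rho + 1))).pt := by
  refine Ctx.FS.ext fun p => ?_
  show G (z, σ (p.2.2 0)) (inclX (Nat.le_succ i) p.1, p.2.1, Fin.tail p.2.2) = ebase be c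
  rw [hz]
  rfl

end A1

end MP5f.S4
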