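import Pool.Agent.H.MP_5f9601_gt.U.A12

/-!
MP_5f9601, section 4 (helper67): (A1), (A2) as based homotopies.
-/

set_option autoImplicit false

open Set Topology ComplexConjugate Filter unitInterval

namespace MP5f.S4

variable {N i al be : ℕ} (a : Fin al → ℕ) (b : Fin be → ℕ)

/-- **(A2)** `j ∘ o` is null homotopic -/
theorem JO_null (hi : i < N) (c rho : ℕ) :
    ContinuousMap.HomotopicRel
      ((jj a b hi c (Cu rho)).comp (oo a b N i c rho)).toFun
      (ContinuousMap.const _ (YC N (i + 1) a b c (Cu rho)).pt)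
      {(YC N i a b c (Cu (rho + 1))).pt} := by
  refine ⟨⟨⟨joH a b hi c rho, fun f => joH_zero hi f, fun f => joH_one hi f⟩, ?_⟩⟩
  intro t f hf
  rw [mem_singleton_iff] at hf
  subst hf
  show joH a b hi c rho (t, _) = _
  rw [joH_pt]
  exact ((jj a b hi c (Cu rho)).comp (oo a b N i c rho)).map_pt.symm

/-- pairs of an element of the cell space and a null homotopy of its image -/
abbrev EC (hi : i < N) (c rho : ℕ) : Type :=
  {q : (CC N i al be c (Cu rho)).FS × C(unitInterval, (YC N (i + 1) a b c (Cu rho)).FS) //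
    q.2 0 = (jj a b hi c (Cu rho)).toFun q.1 ∧ q.2 1 = (YC N (i + 1) a b c (Cu rho)).pt}

/-- the base point -/
noncomputable def EC.pt (hi : i < N) (c rho : ℕ) : EC a b hi c rho :=
  ⟨((CC N i al be c (Cu rho)).pt, ContinuousMap.const _ (YC N (i + 1) a b c (Cu rho)).pt),
    (jj a b hi c (Cu rho)).map_pt.symm, rfl⟩

/-- first projection -/
noncomputable def EC.fst (hi : i < N) (c rho : ℕ) : C(EC a b hi c rho, (CC N i al be c (Cu rho)).FS) :=
  ⟨fun z => z.1.1, by fun_prop⟩

/-- the paths -/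
noncomputable def EC.G (hi : i < N) (c rho : ℕ) :
    C(EC a b hi c rho × unitInterval, (YC N (i + 1) a b c (Cu rho)).FS) :=
  ⟨fun q => q.1.1.2 q.2, by fun_prop⟩

/-- the map `Q` -/
noncomputable def EC.Q (hi : i < N) (c rho : ℕ) :
    C(EC a b hi c rho, (YC N i a b c (Cu (rho + 1))).FS) :=
  uA hi (EC.fst a b hi c rho) (EC.G a b hi c rho) (fun z => z.2.1) (fun z => z.2.2)

theorem EC.Q_pt (hi : i < N) (c rho : ℕ) :
    EC.Q a b hi c rho (EC.pt a b hi c rho) = (YC N i a b c (Cu (rho + 1))).pt :=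
  uA_pt hi _ _ _ _ _ fun _ => rfl

/-- **(A1)** the first projection is homotopic to `o ∘ Q` -/
theorem EC.homotopic (hi : i < N) (c rho : ℕ) :
    ContinuousMap.HomotopicRel (EC.fst a b hi c rho)
      ((oo a b N i c rho).toFun.comp (EC.Q a b hi c rho)) {EC.pt a b hi c rho} := by
  refine ⟨⟨⟨cH hi (EC.fst a b hi c rho) (EC.G a b hi c rho) (fun z => z.2.1) (fun z => z.2.2),
    fun z => cH_zero hi _ _ _ _ z, fun z => cH_one hi _ _ _ _ z⟩, ?_⟩⟩
  intro t z hz
  rw [mem_singleton_iff] at hz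
  subst hz
  exact cH_pt hi (EC.fst a b hi c rho) (EC.G a b hi c rho) (fun z => z.2.1) (fun z => z.2.2)
    (EC.pt a b hi c rho) (fun _ => rfl) t

end MP5f.S4
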