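import Mathlib

/-!
MP_5f9601_gt, module Alg (helper47): the algebra of section 4 of h47_5f9601_PROOF.md.

* `Q_lemma`   : cancellation of power maps up to a power of the degree, (Q);
* `E_step`, `E_lemma` : the eigenvalue induction, (E);
* `bezout`    : the end of (U).

The index `i` is the index of `X_i` (`X_1 = T`, `X_p = S(p)`), used for `1 ≤ i ≤ n`.
-/

set_option autoImplicit false

namespace LS.Alg

/-- **(Q)**  `t : H' → H` precomposition with a product of power maps of total degree `d`,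
`o, o'` the obstructions (values in the cell groups `K`), `j, j'` the inclusions of the cell groups
`K'`. -/
theorem Q_lemma {n : ℕ} {H H' K K' : ℕ → Type*} [∀ i, AddCommGroup (H i)]
    [∀ i, AddCommGroup (H' i)] [∀ i, AddCommGroup (K i)] [∀ i, AddCommGroup (K' i)]
    (d : ℤ) (t : ∀ i, H' i →+ H i) (res : ∀ i, H (i + 1) →+ H i) (res' : ∀ i, H' (i + 1) →+ H' i)
    (o : ∀ i, H i →+ K i) (o' : ∀ i, H' i →+ K i)
    (j : ∀ i, K' i →+ H (i + 1)) (j' : ∀ i, K' i →+ H' (i + 1))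
    (h_res_t : ∀ i, 1 ≤ i → i < n → ∀ x, res i (t (i + 1) x) = t i (res' i x))
    (h_o_t : ∀ i, 1 ≤ i → i < n → ∀ x, o i (t i x) = d • o' i x)
    (h_t_j : ∀ i, 1 ≤ i → i < n → ∀ κ, t (i + 1) (j' i κ) = d • j i κ)
    (h_o_res : ∀ i, 1 ≤ i → i < n → ∀ x, o i (res i x) = 0)
    (ex_o : ∀ i, 1 ≤ i → i < n → ∀ x, o' i x = 0 → ∃ y, res' i y = x)
    (ex_j : ∀ i, 1 ≤ i → i < n → ∀ x, res i x = 0 → ∃ κ, j i κ = x)
    (base : ∀ c : H 1, ∃ c' : H' 1, t 1 c' = d • c) :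
    ∀ i, 1 ≤ i → i ≤ n → ∀ c : H i, ∃ c' : H' i, t i c' = d ^ (2 * i - 1) • c := by
  intro i hi
  induction i, hi using Nat.le_induction with
  | base =>
    intro _ c
    obtain ⟨c', hc'⟩ := base c
    exact ⟨c', by simpa using hc'⟩
  | succ i hi ih =>
    intro hn c
    have hin : i < n := hn
    obtain ⟨c', hc'⟩ := ih hin.le (res i c)
    have h1 : o' i (d • c') = 0 := by
      rw [map_zsmul, ← h_o_t i hi hin, hc', map_zsmul, h_o_res i hi hin, smul_zero]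
    obtain ⟨c'', hc''⟩ := ex_o i hi hin _ h1
    have h2 : res i (t (i + 1) c'' - d ^ (2 * i) • c) = 0 := by
      rw [map_sub, h_res_t i hi hin, hc'', map_zsmul, map_zsmul, hc', smul_smul]
      have : d * d ^ (2 * i - 1) = d ^ (2 * i) := by
        rw [← pow_succ']
        congr 1
        omega
      rw [this, sub_self]
    obtain ⟨κ, hκ⟩ := ex_j i hi hin _ h2
    refine ⟨d • c'' - j' i κ, ?_⟩
    rw [map_sub, map_zsmul, h_t_j i hi hin, hκ, ← smul_sub, sub_sub_cancel, smul_smul,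
      ← pow_succ']
    rfl

/-- **(E), one step.**  `Hp`, `Hq` are the groups with source `L^{pq}`, `L^q`; `P` is precomposition
with the power map.  `w` lives over `X_i` at level `(m, e)`, the result over `X_{i+1}` at level
`(m + 2, e + 2)`. -/
theorem E_step {Hp Hq : ℕ → ℕ → ℕ → Type*} {K K' : ℕ → ℕ → Type*}
    [∀ i m e, AddCommGroup (Hp i m e)] [∀ i m e, AddCommGroup (Hq i m e)]
    [∀ i m, AddCommGroup (K i m)] [∀ i m, AddCommGroup (K' i m)]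
    (l : ℤ) (P : ∀ i m e, Hp i m e →+ Hq i m e)
    (Sp : ∀ i m e, Hp i m e →+ Hp i (m + 1) e) (Sq : ∀ i m e, Hq i m e →+ Hq i (m + 1) e)
    (Fp : ∀ i m e, Hp i m e →+ Hp i m (e + 1)) (Fq : ∀ i m e, Hq i m e →+ Hq i m (e + 1))
    (rp : ∀ i m e, Hp i m e →+ Hp i m (e + 1)) (rq : ∀ i m e, Hq i m e →+ Hq i m (e + 1))
    (resp : ∀ i m e, Hp (i + 1) m e →+ Hp i m e) (resq : ∀ i m e, Hq (i + 1) m e →+ Hq i m e)
    (o : ∀ i m e, Hp i m e →+ K i m) (j : ∀ i m e, K' i m →+ Hq (i + 1) m e)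
    (SK : ∀ i m, K' i m →+ K' i (m + 1))
    (y : ∀ i m e, Hq i m e)
    (hPS : ∀ i m e f, P i (m + 1) e (Sp i m e f) = Sq i m e (P i m e f))
    (hPF : ∀ i m e f, P i m (e + 1) (Fp i m e f) = Fq i m e (P i m e f))
    (hPr : ∀ i m e f, P i m (e + 1) (rp i m e f) = rq i m e (P i m e f))
    (hPres : ∀ i m e f, resq i m e (P (i + 1) m e f) = P i m e (resp i m e f))
    (hSy : ∀ i m e, Sq i m e (y i m e) = y i (m + 1) e)
    (hFy : ∀ i m e, Fq i m e (y i m e) = y i m (e + 1))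
    (hry : ∀ i m e, rq i m e (y i m e) = y i m (e + 1))
    (hresy : ∀ i m e, resq i m e (y (i + 1) m e) = y i m e)
    {i : ℕ} (hi : 1 ≤ i)
    (hoF : ∀ m e f, o i m (e + 1) (Fp i m e f) = l ^ (i + 1) • o i m e f)
    (hor : ∀ m e f, o i (m + 1) (e + 1) (rp i (m + 1) e (Sp i m e f)) =
      l ^ 2 • o i (m + 1) e (Sp i m e f))
    (hjF : ∀ m e κ, Fq (i + 1) m e (j i m e κ) = l ^ (i + 1) • j i m (e + 1) κ)
    (hjr : ∀ m e κ, rq (i + 1) (m + 1) e (j i (m + 1) e (SK i m κ)) =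
      l ^ 2 • j i (m + 1) (e + 1) (SK i m κ))
    (hjS : ∀ m e κ, Sq (i + 1) m e (j i m e κ) = j i (m + 1) e (SK i m κ))
    (ex_o : ∀ m e f, o i m e f = 0 → ∃ g, resp i m e g = f)
    (ex_j : ∀ m e f, resq i m e f = 0 → ∃ κ, j i m e κ = f)
    {m e : ℕ} {N : ℤ} (w : Hp i m e) (hw : P i m e w = N • y i m e) :
    ∃ w' : Hp (i + 1) (m + 2) (e + 2),
      P (i + 1) (m + 2) (e + 2) w' = (N * (1 - l ^ (i - 1)) ^ 2) • y (i + 1) (m + 2) (e + 2) := by
  have hpow : l ^ (i - 1) * l ^ 2 = l ^ (i + 1) := by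
    rw [← pow_add]
    congr 1
    omega
  set w1 : Hp i (m + 1) (e + 1) :=
    Fp i (m + 1) e (Sp i m e w) - l ^ (i - 1) • rp i (m + 1) e (Sp i m e w) with hw1
  have h1 : o i (m + 1) (e + 1) w1 = 0 := by
    rw [hw1, map_sub, map_zsmul, hoF, hor, smul_smul, hpow, sub_self]
  obtain ⟨w2, hw2⟩ := ex_o _ _ _ h1
  have h2 : P i (m + 1) (e + 1) w1 = (N * (1 - l ^ (i - 1))) • y i (m + 1) (e + 1) := by
    rw [hw1, map_sub, map_zsmul, hPF, hPr, hPS, hw, map_zsmul, map_zsmul, map_zsmul, hSy, hFy, hry,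
      smul_smul, ← sub_smul]
    congr 1
    ring
  have h3 : resq i (m + 1) (e + 1) (P (i + 1) (m + 1) (e + 1) w2 -
      (N * (1 - l ^ (i - 1))) • y (i + 1) (m + 1) (e + 1)) = 0 := by
    rw [map_sub, map_zsmul, hPres, hw2, h2, hresy, sub_self]
  obtain ⟨κ, hκ⟩ := ex_j _ _ _ h3
  have h4 : P (i + 1) (m + 1) (e + 1) w2 =
      (N * (1 - l ^ (i - 1))) • y (i + 1) (m + 1) (e + 1) + j i (m + 1) (e + 1) κ := by
    rw [hκ]
    abel
  refine ⟨Fp (i + 1) (m + 2) (e + 1) (Sp (i + 1) (m + 1) (e + 1) w2) -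
    l ^ (i - 1) • rp (i + 1) (m + 2) (e + 1) (Sp (i + 1) (m + 1) (e + 1) w2), ?_⟩
  have e1 : P (i + 1) (m + 2) (e + 2)
      (Fp (i + 1) (m + 2) (e + 1) (Sp (i + 1) (m + 1) (e + 1) w2)) =
      (N * (1 - l ^ (i - 1))) • y (i + 1) (m + 2) (e + 2) +
        l ^ (i + 1) • j i (m + 2) (e + 2) (SK i (m + 1) κ) := by
    have a1 := hPF (i + 1) (m + 2) (e + 1) (Sp (i + 1) (m + 1) (e + 1) w2)
    rw [hPS (i + 1) (m + 1) (e + 1) w2, h4, map_add, map_zsmul, map_add, map_zsmul, hSy, hFy,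
      hjS, hjF] at a1
    exact a1
  have e2 : P (i + 1) (m + 2) (e + 2)
      (rp (i + 1) (m + 2) (e + 1) (Sp (i + 1) (m + 1) (e + 1) w2)) =
      (N * (1 - l ^ (i - 1))) • y (i + 1) (m + 2) (e + 2) +
        l ^ 2 • j i (m + 2) (e + 2) (SK i (m + 1) κ) := by
    have a1 := hPr (i + 1) (m + 2) (e + 1) (Sp (i + 1) (m + 1) (e + 1) w2)
    rw [hPS (i + 1) (m + 1) (e + 1) w2, h4, map_add, map_zsmul, map_add, map_zsmul, hSy, hry,
      hjS, hjr] at a1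
    exact a1
  rw [map_sub, map_zsmul, e1, e2, smul_add, smul_smul, smul_smul, hpow]
  have e3 : (N * (1 - l ^ (i - 1)) ^ 2) • y (i + 1) (m + 2) (e + 2) =
      (N * (1 - l ^ (i - 1))) • y (i + 1) (m + 2) (e + 2) -
        (l ^ (i - 1) * (N * (1 - l ^ (i - 1)))) • y (i + 1) (m + 2) (e + 2) := by
    rw [← sub_smul]
    congr 1
    ring
  rw [e3]
  abel

/-- **(E)**: from a solution over `X_2` at level `(m, 0)` to a solution over `X_n` at level
`(m + 2 (n - 2), 2 (n - 2))`. -/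
theorem E_lemma {Hp Hq : ℕ → ℕ → ℕ → Type*} {K K' : ℕ → ℕ → Type*}
    [∀ i m e, AddCommGroup (Hp i m e)] [∀ i m e, AddCommGroup (Hq i m e)]
    [∀ i m, AddCommGroup (K i m)] [∀ i m, AddCommGroup (K' i m)]
    (l : ℤ) (P : ∀ i m e, Hp i m e →+ Hq i m e)
    (Sp : ∀ i m e, Hp i m e →+ Hp i (m + 1) e) (Sq : ∀ i m e, Hq i m e →+ Hq i (m + 1) e)
    (Fp : ∀ i m e, Hp i m e →+ Hp i m (e + 1)) (Fq : ∀ i m e, Hq i m e →+ Hq i m (e + 1))
    (rp : ∀ i m e, Hp i m e →+ Hp i m (e + 1)) (rq : ∀ i m e, Hq i m e →+ Hq i m (e + 1))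
    (resp : ∀ i m e, Hp (i + 1) m e →+ Hp i m e) (resq : ∀ i m e, Hq (i + 1) m e →+ Hq i m e)
    (o : ∀ i m e, Hp i m e →+ K i m) (j : ∀ i m e, K' i m →+ Hq (i + 1) m e)
    (SK : ∀ i m, K' i m →+ K' i (m + 1))
    (y : ∀ i m e, Hq i m e)
    (hPS : ∀ i m e f, P i (m + 1) e (Sp i m e f) = Sq i m e (P i m e f))
    (hPF : ∀ i m e f, P i m (e + 1) (Fp i m e f) = Fq i m e (P i m e f))
    (hPr : ∀ i m e f, P i m (e + 1) (rp i m e f) = rq i m e (P i m e f))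
    (hPres : ∀ i m e f, resq i m e (P (i + 1) m e f) = P i m e (resp i m e f))
    (hSy : ∀ i m e, Sq i m e (y i m e) = y i (m + 1) e)
    (hFy : ∀ i m e, Fq i m e (y i m e) = y i m (e + 1))
    (hry : ∀ i m e, rq i m e (y i m e) = y i m (e + 1))
    (hresy : ∀ i m e, resq i m e (y (i + 1) m e) = y i m e)
    {n : ℕ}
    (hoF : ∀ i, 2 ≤ i → i < n → ∀ m e f, o i m (e + 1) (Fp i m e f) = l ^ (i + 1) • o i m e f)
    (hor : ∀ i, 2 ≤ i → i < n → ∀ m e f, o i (m + 1) (e + 1) (rp i (m + 1) e (Sp i m e f)) =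
      l ^ 2 • o i (m + 1) e (Sp i m e f))
    (hjF : ∀ i, 2 ≤ i → i < n → ∀ m e κ,
      Fq (i + 1) m e (j i m e κ) = l ^ (i + 1) • j i m (e + 1) κ)
    (hjr : ∀ i, 2 ≤ i → i < n → ∀ m e κ, rq (i + 1) (m + 1) e (j i (m + 1) e (SK i m κ)) =
      l ^ 2 • j i (m + 1) (e + 1) (SK i m κ))
    (hjS : ∀ i, 2 ≤ i → i < n → ∀ m e κ, Sq (i + 1) m e (j i m e κ) = j i (m + 1) e (SK i m κ))
    (ex_o : ∀ i, 2 ≤ i → i < n → ∀ m e f, o i m e f = 0 → ∃ g, resp i m e g = f)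
    (ex_j : ∀ i, 2 ≤ i → i < n → ∀ m e f, resq i m e f = 0 → ∃ κ, j i m e κ = f)
    {p : ℤ} (hl : ∀ i, 2 ≤ i → i < n → IsCoprime (1 - l ^ (i - 1)) p)
    {m : ℕ} (base : ∃ w : Hp 2 m 0, P 2 m 0 w = y 2 m 0) :
    ∀ i, 2 ≤ i → i ≤ n → ∃ N : ℤ, IsCoprime N p ∧
      ∃ w : Hp i (m + 2 * (i - 2)) (2 * (i - 2)),
        P i (m + 2 * (i - 2)) (2 * (i - 2)) w = N • y i (m + 2 * (i - 2)) (2 * (i - 2)) := by
  intro i hi
  induction i, hi using Nat.le_induction with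
  | base =>
    intro _
    obtain ⟨w, hw⟩ := base
    exact ⟨1, isCoprime_one_left, w, by simpa using hw⟩
  | succ i hi ih =>
    intro hn
    have hin : i < n := hn
    obtain ⟨N, hN, w, hw⟩ := ih hin.le
    have hstep := E_step l P Sp Sq Fp Fq rp rq resp resq o j SK y hPS hPF hPr hPres hSy hFy hry
      hresy (i := i) (by omega) (hoF i hi hin) (hor i hi hin) (hjF i hi hin) (hjr i hi hin)
      (hjS i hi hin) (ex_o i hi hin) (ex_j i hi hin) w hw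
    have e1 : m + 2 * (i - 2) + 2 = m + 2 * (i + 1 - 2) := by omega
    have e2 : 2 * (i - 2) + 2 = 2 * (i + 1 - 2) := by omega
    rw [e1, e2] at hstep
    obtain ⟨w', hw'⟩ := hstep
    exact ⟨N * (1 - l ^ (i - 1)) ^ 2, hN.mul_left ((hl i hi hin).pow_left), w', hw'⟩

/-- **End of (U)**: Bezout. -/
theorem bezout {A B : Type*} [AddCommGroup A] [AddCommGroup B] (P : A →+ B) (y : B) {M Q : ℤ}
    (h : IsCoprime M Q) (h1 : ∃ w, P w = M • y) (h2 : ∃ w, P w = Q • y) : ∃ w, P w = y := by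
  obtain ⟨a, b, hab⟩ := h
  obtain ⟨w1, hw1⟩ := h1
  obtain ⟨w2, hw2⟩ := h2
  refine ⟨a • w1 + b • w2, ?_⟩
  rw [map_add, map_zsmul, map_zsmul, hw1, hw2, smul_smul, smul_smul, ← add_smul, hab, one_smul]

/-- For a primitive root `l` modulo the odd prime `p`: `1 - l^(i-1)` is prime to `p` for
`2 ≤ i < p`, and `l` is prime to `p`. -/
theorem exists_root {p : ℕ} (hp : p.Prime) :
    ∃ l : ℕ, 1 ≤ l ∧ IsCoprime (l : ℤ) p ∧
      ∀ i, 2 ≤ i → i < p → IsCoprime (1 - (l : ℤ) ^ (i - 1)) p := by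
  have : Fact p.Prime := ⟨hp⟩
  obtain ⟨g, hg⟩ := IsCyclic.exists_generator (α := (ZMod p)ˣ)
  have hcard : orderOf g = p - 1 := by
    rw [orderOf_eq_card_of_forall_mem_zpowers hg, Nat.card_eq_fintype_card, ZMod.card_units]
  set l : ℕ := (g : ZMod p).val with hl
  have hlg : ((l : ℕ) : ZMod p) = g := ZMod.natCast_zmod_val _
  have hl0 : l ≠ 0 := by
    intro h
    rw [h, Nat.cast_zero] at hlg
    exact g.ne_zero hlg.symm
  have hcop : ∀ a : ℤ, (a : ZMod p) ≠ 0 → IsCoprime a p := by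
    intro a ha
    rw [isCoprime_comm, (Nat.prime_iff_prime_int.1 hp).coprime_iff_not_dvd]
    intro hd
    exact ha ((ZMod.intCast_zmod_eq_zero_iff_dvd a p).2 hd)
  refine ⟨l, by omega, hcop _ ?_, fun i hi hip => hcop _ ?_⟩
  · push_cast
    rw [hlg]
    exact g.ne_zero
  · push_cast
    rw [hlg]
    intro h
    have h1 : g ^ (i - 1) = 1 := by
      apply Units.ext
      push_cast
      exact (sub_eq_zero.1 h).symm
    have h2 := orderOf_dvd_of_pow_eq_one h1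
    rw [hcard] at h2
    have := Nat.le_of_dvd (by omega) h2
    omega

end LS.Alg
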