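import Pool.Agent.H.MP_5f9601_gt.U.Alg

/-!
MP_5f9601_gt, module Alg2 (helper47): cancellation of `r = psi_l` on the target by the cell
induction (SURJ of helper48 and INJ with the five lemma).

Indices: `i` (the base `X_i`, `i = 0` is empty), `ρ` (number of real coordinates of the source),
`c` (number of complex suspensions), `e` (twist of the target).  `C i ρ c` are the cell groups,
`o` the obstruction, `j` the inclusion of the cell groups.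
-/

set_option autoImplicit false

namespace LS.Alg

section sit

variable {G : ℕ → Type*} [∀ c, AddCommGroup (G c)]

/-- iterated suspension -/
def Sit (S : ∀ c, G c →+ G (c + 1)) (c : ℕ) : ∀ k : ℕ, G c →+ G (c + k)
  | 0 => AddMonoidHom.id _
  | k + 1 => (S (c + k)).comp (Sit S c k)

theorem Sit_comm {G' : ℕ → Type*} [∀ c, AddCommGroup (G' c)]
    (S : ∀ c, G c →+ G (c + 1)) (S' : ∀ c, G' c →+ G' (c + 1)) (f : ∀ c, G c →+ G' c)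
    (h : ∀ c x, f (c + 1) (S c x) = S' c (f c x)) (c k : ℕ) (x : G c) :
    f (c + k) (Sit S c k x) = Sit S' c k (f c x) := by
  induction k with
  | zero => rfl
  | succ k ih =>
    change f (c + k + 1) (S (c + k) (Sit S c k x)) = S' (c + k) (Sit S' c k (f c x))
    rw [h, ih]

theorem Sit_congr (S : ∀ c, G c →+ G (c + 1)) {c c' : ℕ} (h : c = c') {x : G c} {x' : G c'}
    (hx : HEq x x') : HEq (S c x) (S c' x') := by
  subst h
  rw [eq_of_heq hx]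

theorem Sit_add (S : ∀ c, G c →+ G (c + 1)) (c k k' : ℕ) (x : G c) :
    HEq (Sit S c (k + k') x) (Sit S (c + k) k' (Sit S c k x)) := by
  induction k' with
  | zero => rfl
  | succ k' ih => exact Sit_congr S (Nat.add_assoc c k k').symm ih

theorem zsmul_heq {c c' : ℕ} (h : c = c') {x : G c} {x' : G c'} (hx : HEq x x') (m : ℤ) :
    m • x = 0 ↔ m • x' = 0 := by
  subst h
  rw [eq_of_heq hx]

/-- `m • S^k' (S^k x) = 0` iff `m • S^(k+k') x = 0` -/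
theorem zsmul_Sit_add (S : ∀ c, G c →+ G (c + 1)) (c k k' : ℕ) (x : G c) (m : ℤ) :
    m • Sit S c (k + k') x = 0 ↔ m • Sit S (c + k) k' (Sit S c k x) = 0 :=
  zsmul_heq (by omega) (Sit_add S c k k' x) m

end sit

section cancel

variable {H : ℕ → ℕ → ℕ → ℕ → Type*} {C : ℕ → ℕ → ℕ → Type*}
  [∀ i ρ c e, AddCommGroup (H i ρ c e)] [∀ i ρ c, AddCommGroup (C i ρ c)]

/-- **SURJ**: `r` is surjective up to powers of `l` and suspensions. -/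
theorem surj_lemma {n : ℕ} (l : ℤ)
    (S : ∀ i ρ c e, H i ρ c e →+ H i ρ (c + 1) e) (r : ∀ i ρ c e, H i ρ c e →+ H i ρ c (e + 1))
    (R : ∀ i ρ c e, H (i + 1) ρ c e →+ H i ρ c e)
    (o : ∀ i ρ c e, H i (ρ + 1) c e →+ C i ρ c) (j : ∀ i ρ c e, C i ρ c →+ H (i + 1) ρ c e)
    (SC : ∀ i ρ c, C i ρ c →+ C i ρ (c + 1)) (rC : ∀ i ρ c, C i ρ c →+ C i ρ c)
    (hrS : ∀ i ρ c e x, r i ρ (c + 1) e (S i ρ c e x) = S i ρ c (e + 1) (r i ρ c e x))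
    (hrR : ∀ i ρ c e x, R i ρ c (e + 1) (r (i + 1) ρ c e x) = r i ρ c e (R i ρ c e x))
    (hSR : ∀ i ρ c e x, R i ρ (c + 1) e (S (i + 1) ρ c e x) = S i ρ c e (R i ρ c e x))
    (hro : ∀ i, i < n → ∀ ρ c e x, o i ρ c (e + 1) (r i (ρ + 1) c e x) = rC i ρ c (o i ρ c e x))
    (hSo : ∀ i, i < n → ∀ ρ c e x,
      o i ρ (c + 1) e (S i (ρ + 1) c e x) = SC i ρ c (o i ρ c e x))
    (hrj : ∀ i, i < n → ∀ ρ c e κ, r (i + 1) ρ c e (j i ρ c e κ) = j i ρ c (e + 1) (rC i ρ c κ))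
    (hSj : ∀ i, i < n → ∀ ρ c e κ, S (i + 1) ρ c e (j i ρ c e κ) = j i ρ (c + 1) e (SC i ρ c κ))
    (hrSC : ∀ i, i < n → ∀ ρ c κ, rC i ρ (c + 1) (SC i ρ c κ) = l ^ 2 • SC i ρ c κ)
    (h0 : ∀ ρ c e, Subsingleton (H 0 ρ c e))
    (h_o_R : ∀ i, i < n → ∀ ρ c e x, o i ρ c e (R i (ρ + 1) c e x) = 0)
    (ex_o : ∀ i, i < n → ∀ ρ c e x, o i ρ c e x = 0 → ∃ y, R i (ρ + 1) c e y = x)
    (ex_j : ∀ i, i < n → ∀ ρ c e x, R i ρ c e x = 0 → ∃ κ, j i ρ c e κ = x) :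
    ∀ i, i ≤ n → ∀ ρ c e (w : H i (ρ + 1) c (e + 1)), ∃ w' : H i (ρ + 1) (c + 2 * i) e,
      r i (ρ + 1) (c + 2 * i) e w' =
        l ^ (4 * i) • Sit (fun c => S i (ρ + 1) c (e + 1)) c (2 * i) w := by
  intro i
  induction i with
  | zero =>
    intro _ ρ c e w
    have := h0 (ρ + 1) (c + 2 * 0) (e + 1)
    exact ⟨0, Subsingleton.elim _ _⟩
  | succ i ih =>
    intro hn ρ c e w
    have hin : i < n := hn
    obtain ⟨u, hu⟩ := ih hin.le ρ c e (R i (ρ + 1) c (e + 1) w)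
    have hSR' : ∀ k, R i (ρ + 1) (c + k) (e + 1)
        (Sit (fun c => S (i + 1) (ρ + 1) c (e + 1)) c k w) =
        Sit (fun c => S i (ρ + 1) c (e + 1)) c k (R i (ρ + 1) c (e + 1) w) := fun k =>
      Sit_comm (fun c => S (i + 1) (ρ + 1) c (e + 1)) (fun c => S i (ρ + 1) c (e + 1))
        (fun c => R i (ρ + 1) c (e + 1)) (fun c x => hSR i (ρ + 1) c (e + 1) x) c k w
    -- the obstruction of `l ^ 2 • S u`
    have h1 : o i ρ (c + 2 * i + 1) e (l ^ 2 • S i (ρ + 1) (c + 2 * i) e u) = 0 := by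
      rw [map_zsmul, hSo i hin, ← hrSC i hin, ← hSo i hin, ← hro i hin, hrS, hu, map_zsmul,
        map_zsmul, ← hSR', ← hSR, h_o_R i hin, smul_zero]
    obtain ⟨v, hv⟩ := ex_o i hin _ _ _ _ h1
    have h2 : R i (ρ + 1) (c + 2 * i + 1) (e + 1) (r (i + 1) (ρ + 1) (c + 2 * i + 1) e v -
        l ^ (4 * i + 2) • Sit (fun c => S (i + 1) (ρ + 1) c (e + 1)) c (2 * i + 1) w) = 0 := by
      rw [map_sub, map_zsmul, hrR, hv, map_zsmul, hrS, hu, map_zsmul, smul_smul, ← pow_add]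
      have a1 := hSR' (2 * i + 1)
      have a2 : Sit (fun c => S i (ρ + 1) c (e + 1)) c (2 * i + 1) (R i (ρ + 1) c (e + 1) w) =
        S i (ρ + 1) (c + 2 * i) (e + 1) (Sit (fun c => S i (ρ + 1) c (e + 1)) c (2 * i)
          (R i (ρ + 1) c (e + 1) w)) := rfl
      rw [a2] at a1
      rw [add_comm 2 (4 * i)]
      exact sub_eq_zero.2 (congrArg (fun z => l ^ (4 * i + 2) • z) a1.symm)
    obtain ⟨κ, hκ⟩ := ex_j i hin _ _ _ _ h2
    refine ⟨l ^ 2 • S (i + 1) (ρ + 1) (c + 2 * i + 1) e v -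
      j i (ρ + 1) (c + 2 * i + 2) e (SC i (ρ + 1) (c + 2 * i + 1) κ), ?_⟩
    have h3 : r (i + 1) (ρ + 1) (c + 2 * i + 2) e (l ^ 2 • S (i + 1) (ρ + 1) (c + 2 * i + 1) e v -
        j i (ρ + 1) (c + 2 * i + 2) e (SC i (ρ + 1) (c + 2 * i + 1) κ)) =
        l ^ (4 * i + 4) • S (i + 1) (ρ + 1) (c + 2 * i + 1) (e + 1)
          (Sit (fun c => S (i + 1) (ρ + 1) c (e + 1)) c (2 * i + 1) w) := by
      rw [map_sub, map_zsmul, hrS, hrj i hin, hrSC i hin, map_zsmul, ← hSj i hin, hκ, map_sub,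
        map_zsmul, smul_sub, smul_smul, ← pow_add]
      have : 2 + (4 * i + 2) = 4 * i + 4 := by omega
      rw [this]
      abel
    exact h3

/-- number of suspensions of `inj_lemma` -/
def ib : ℕ → ℕ
  | 0 => 0
  | i + 1 => ib i + (2 * i + 1)

/-- exponent of `inj_lemma` -/
def ia : ℕ → ℕ
  | 0 => 0
  | i + 1 => ia i + (4 * i + 2)

/-- **INJ**: `r` is injective up to powers of `l` and suspensions. -/
theorem inj_lemma {n : ℕ} (l : ℤ)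
    (S : ∀ i ρ c e, H i ρ c e →+ H i ρ (c + 1) e) (r : ∀ i ρ c e, H i ρ c e →+ H i ρ c (e + 1))
    (R : ∀ i ρ c e, H (i + 1) ρ c e →+ H i ρ c e)
    (o : ∀ i ρ c e, H i (ρ + 1) c e →+ C i ρ c) (j : ∀ i ρ c e, C i ρ c →+ H (i + 1) ρ c e)
    (SC : ∀ i ρ c, C i ρ c →+ C i ρ (c + 1)) (rC : ∀ i ρ c, C i ρ c →+ C i ρ c)
    (hrS : ∀ i ρ c e x, r i ρ (c + 1) e (S i ρ c e x) = S i ρ c (e + 1) (r i ρ c e x))
    (hrR : ∀ i ρ c e x, R i ρ c (e + 1) (r (i + 1) ρ c e x) = r i ρ c e (R i ρ c e x))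
    (hSR : ∀ i ρ c e x, R i ρ (c + 1) e (S (i + 1) ρ c e x) = S i ρ c e (R i ρ c e x))
    (hrSC' : ∀ i, i < n → ∀ ρ c κ, rC i ρ (c + 1) (SC i ρ c κ) = SC i ρ c (rC i ρ c κ))
    (hro : ∀ i, i < n → ∀ ρ c e x, o i ρ c (e + 1) (r i (ρ + 1) c e x) = rC i ρ c (o i ρ c e x))
    (hSo : ∀ i, i < n → ∀ ρ c e x,
      o i ρ (c + 1) e (S i (ρ + 1) c e x) = SC i ρ c (o i ρ c e x))
    (hrj : ∀ i, i < n → ∀ ρ c e κ, r (i + 1) ρ c e (j i ρ c e κ) = j i ρ c (e + 1) (rC i ρ c κ))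
    (hSj : ∀ i, i < n → ∀ ρ c e κ, S (i + 1) ρ c e (j i ρ c e κ) = j i ρ (c + 1) e (SC i ρ c κ))
    (hrSC : ∀ i, i < n → ∀ ρ c κ, rC i ρ (c + 1) (SC i ρ c κ) = l ^ 2 • SC i ρ c κ)
    (h0 : ∀ ρ c e, Subsingleton (H 0 ρ c e))
    (h_o_R : ∀ i, i < n → ∀ ρ c e x, o i ρ c e (R i (ρ + 1) c e x) = 0)
    (h_j_o : ∀ i, i < n → ∀ ρ c e x, j i ρ c e (o i ρ c e x) = 0)
    (ex_o : ∀ i, i < n → ∀ ρ c e x, o i ρ c e x = 0 → ∃ y, R i (ρ + 1) c e y = x)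
    (ex_j : ∀ i, i < n → ∀ ρ c e x, R i ρ c e x = 0 → ∃ κ, j i ρ c e κ = x)
    (ex_C : ∀ i, i < n → ∀ ρ c e κ, j i ρ c e κ = 0 → ∃ u, o i ρ c e u = κ) :
    ∀ i, i ≤ n → ∀ ρ c e (z : H i (ρ + 1) c e), r i (ρ + 1) c e z = 0 →
      l ^ ia i • Sit (fun c => S i (ρ + 1) c e) c (ib i) z = 0 := by
  intro i
  induction i with
  | zero =>
    intro _ ρ c e z _
    have := h0 (ρ + 1) (c + ib 0) e
    exact Subsingleton.elim _ _
  | succ i ih =>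
    intro hn ρ c e z hz
    have hin : i < n := hn
    have h1 : r i (ρ + 1) c e (R i (ρ + 1) c e z) = 0 := by rw [← hrR, hz, map_zero]
    have h2 := ih hin.le ρ c e _ h1
    have h3 : R i (ρ + 1) (c + ib i) e
        (l ^ ia i • Sit (fun c => S (i + 1) (ρ + 1) c e) c (ib i) z) = 0 := by
      rw [map_zsmul, Sit_comm (fun c => S (i + 1) (ρ + 1) c e) (fun c => S i (ρ + 1) c e)
        (fun c => R i (ρ + 1) c e) (fun c x => hSR i (ρ + 1) c e x), h2]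
    obtain ⟨κ, hκ⟩ := ex_j i hin _ _ _ _ h3
    have h4 : j i (ρ + 1) (c + ib i) (e + 1) (rC i (ρ + 1) (c + ib i) κ) = 0 := by
      rw [← hrj i hin, hκ, map_zsmul, Sit_comm (fun c => S (i + 1) (ρ + 1) c e)
        (fun c => S (i + 1) (ρ + 1) c (e + 1))
        (fun c => r (i + 1) (ρ + 1) c e) (fun c x => hrS (i + 1) (ρ + 1) c e x), hz,
        map_zero, smul_zero]
    obtain ⟨u, hu⟩ := ex_C i hin _ _ _ _ h4
    obtain ⟨u', hu'⟩ := surj_lemma l S r R o j SC rC hrS hrR hSR hro hSo hrj hSj hrSC h0 h_o_R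
      ex_o ex_j i hin.le (ρ + 1) (c + ib i) e u
    -- the difference in the cell group
    set δ := l ^ (4 * i) • Sit (fun c => SC i (ρ + 1) c) (c + ib i) (2 * i) κ -
      o i (ρ + 1) (c + ib i + 2 * i) e u' with hδ
    have h5 : rC i (ρ + 1) (c + ib i + 2 * i) δ = 0 := by
      rw [hδ, map_sub, ← hro i hin, hu', map_zsmul, map_zsmul,
        Sit_comm (fun c => SC i (ρ + 1) c) (fun c => SC i (ρ + 1) c) (fun c => rC i (ρ + 1) c)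
          (fun c x => hrSC' i hin (ρ + 1) c x),
        Sit_comm (fun c => S i (ρ + 1 + 1) c (e + 1)) (fun c => SC i (ρ + 1) c)
          (fun c => o i (ρ + 1) c (e + 1)) (fun c x => hSo i hin (ρ + 1) c (e + 1) x), hu,
        sub_self]
    have h6 : l ^ 2 • SC i (ρ + 1) (c + ib i + 2 * i) δ = 0 := by
      rw [← hrSC i hin, hrSC' i hin, h5, map_zero]
    have h7 : l ^ 2 • j i (ρ + 1) (c + ib i + 2 * i + 1) e
        (SC i (ρ + 1) (c + ib i + 2 * i) δ) = 0 := by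
      rw [← map_zsmul, h6, map_zero]
    rw [← hSj i hin, hδ, map_sub, h_j_o i hin, sub_zero, map_zsmul,
      Sit_comm (fun c => SC i (ρ + 1) c) (fun c => S (i + 1) (ρ + 1) c e)
        (fun c => j i (ρ + 1) c e) (fun c x => (hSj i hin (ρ + 1) c e x).symm), hκ] at h7
    have h8 : l ^ ia (i + 1) • Sit (fun c => S (i + 1) (ρ + 1) c e) (c + ib i) (2 * i + 1)
        (Sit (fun c => S (i + 1) (ρ + 1) c e) c (ib i) z) = 0 := by
      rw [map_zsmul, map_zsmul, map_zsmul, smul_smul, smul_smul] at h7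
      rw [← h7]
      have : l ^ ia (i + 1) = l ^ 2 * l ^ (4 * i) * l ^ ia i := by
        rw [ia, ← pow_add, ← pow_add]
        congr 1
        omega
      rw [this]
      rfl
    exact (zsmul_Sit_add (fun c => S (i + 1) (ρ + 1) c e) c (ib i) (2 * i + 1) z _).2 h8

/-- **Cancellation of one `r`.**  `P` is a natural transformation from the groups `H` (source
`L^{pq}`) to the groups `H'` (source `L^q`). -/
theorem cancel_lemma {H' : ℕ → ℕ → ℕ → ℕ → Type*} [∀ i ρ c e, AddCommGroup (H' i ρ c e)]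
    {n : ℕ} (l : ℤ)
    (S : ∀ i ρ c e, H i ρ c e →+ H i ρ (c + 1) e) (r : ∀ i ρ c e, H i ρ c e →+ H i ρ c (e + 1))
    (R : ∀ i ρ c e, H (i + 1) ρ c e →+ H i ρ c e)
    (o : ∀ i ρ c e, H i (ρ + 1) c e →+ C i ρ c) (j : ∀ i ρ c e, C i ρ c →+ H (i + 1) ρ c e)
    (S' : ∀ i ρ c e, H' i ρ c e →+ H' i ρ (c + 1) e)
    (r' : ∀ i ρ c e, H' i ρ c e →+ H' i ρ c (e + 1))
    (R' : ∀ i ρ c e, H' (i + 1) ρ c e →+ H' i ρ c e)
    (o' : ∀ i ρ c e, H' i (ρ + 1) c e →+ C i ρ c) (j' : ∀ i ρ c e, C i ρ c →+ H' (i + 1) ρ c e)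
    (SC : ∀ i ρ c, C i ρ c →+ C i ρ (c + 1)) (rC : ∀ i ρ c, C i ρ c →+ C i ρ c)
    (P : ∀ i ρ c e, H i ρ c e →+ H' i ρ c e) (y : ∀ i ρ c e, H' i ρ c e)
    (hPS : ∀ i ρ c e f, P i ρ (c + 1) e (S i ρ c e f) = S' i ρ c e (P i ρ c e f))
    (hPr : ∀ i ρ c e f, P i ρ c (e + 1) (r i ρ c e f) = r' i ρ c e (P i ρ c e f))
    (hSy : ∀ i ρ c e, S' i ρ c e (y i ρ c e) = y i ρ (c + 1) e)
    (hry : ∀ i ρ c e, r' i ρ c e (y i ρ c e) = y i ρ c (e + 1))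
    (hrS : ∀ i ρ c e x, r i ρ (c + 1) e (S i ρ c e x) = S i ρ c (e + 1) (r i ρ c e x))
    (hrR : ∀ i ρ c e x, R i ρ c (e + 1) (r (i + 1) ρ c e x) = r i ρ c e (R i ρ c e x))
    (hSR : ∀ i ρ c e x, R i ρ (c + 1) e (S (i + 1) ρ c e x) = S i ρ c e (R i ρ c e x))
    (hrS' : ∀ i ρ c e x, r' i ρ (c + 1) e (S' i ρ c e x) = S' i ρ c (e + 1) (r' i ρ c e x))
    (hrR' : ∀ i ρ c e x, R' i ρ c (e + 1) (r' (i + 1) ρ c e x) = r' i ρ c e (R' i ρ c e x))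
    (hSR' : ∀ i ρ c e x, R' i ρ (c + 1) e (S' (i + 1) ρ c e x) = S' i ρ c e (R' i ρ c e x))
    (hrSC' : ∀ i, i < n → ∀ ρ c κ, rC i ρ (c + 1) (SC i ρ c κ) = SC i ρ c (rC i ρ c κ))
    (hro : ∀ i, i < n → ∀ ρ c e x, o i ρ c (e + 1) (r i (ρ + 1) c e x) = rC i ρ c (o i ρ c e x))
    (hSo : ∀ i, i < n → ∀ ρ c e x,
      o i ρ (c + 1) e (S i (ρ + 1) c e x) = SC i ρ c (o i ρ c e x))
    (hrj : ∀ i, i < n → ∀ ρ c e κ, r (i + 1) ρ c e (j i ρ c e κ) = j i ρ c (e + 1) (rC i ρ c κ))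
    (hSj : ∀ i, i < n → ∀ ρ c e κ, S (i + 1) ρ c e (j i ρ c e κ) = j i ρ (c + 1) e (SC i ρ c κ))
    (hro' : ∀ i, i < n → ∀ ρ c e x,
      o' i ρ c (e + 1) (r' i (ρ + 1) c e x) = rC i ρ c (o' i ρ c e x))
    (hSo' : ∀ i, i < n → ∀ ρ c e x,
      o' i ρ (c + 1) e (S' i (ρ + 1) c e x) = SC i ρ c (o' i ρ c e x))
    (hrj' : ∀ i, i < n → ∀ ρ c e κ,
      r' (i + 1) ρ c e (j' i ρ c e κ) = j' i ρ c (e + 1) (rC i ρ c κ))
    (hSj' : ∀ i, i < n → ∀ ρ c e κ,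
      S' (i + 1) ρ c e (j' i ρ c e κ) = j' i ρ (c + 1) e (SC i ρ c κ))
    (hrSC : ∀ i, i < n → ∀ ρ c κ, rC i ρ (c + 1) (SC i ρ c κ) = l ^ 2 • SC i ρ c κ)
    (h0 : ∀ ρ c e, Subsingleton (H 0 ρ c e)) (h0' : ∀ ρ c e, Subsingleton (H' 0 ρ c e))
    (h_o_R : ∀ i, i < n → ∀ ρ c e x, o i ρ c e (R i (ρ + 1) c e x) = 0)
    (ex_o : ∀ i, i < n → ∀ ρ c e x, o i ρ c e x = 0 → ∃ y, R i (ρ + 1) c e y = x)
    (ex_j : ∀ i, i < n → ∀ ρ c e x, R i ρ c e x = 0 → ∃ κ, j i ρ c e κ = x)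
    (h_o_R' : ∀ i, i < n → ∀ ρ c e x, o' i ρ c e (R' i (ρ + 1) c e x) = 0)
    (h_j_o' : ∀ i, i < n → ∀ ρ c e x, j' i ρ c e (o' i ρ c e x) = 0)
    (ex_o' : ∀ i, i < n → ∀ ρ c e x, o' i ρ c e x = 0 → ∃ y, R' i (ρ + 1) c e y = x)
    (ex_j' : ∀ i, i < n → ∀ ρ c e x, R' i ρ c e x = 0 → ∃ κ, j' i ρ c e κ = x)
    (ex_C' : ∀ i, i < n → ∀ ρ c e κ, j' i ρ c e κ = 0 → ∃ u, o' i ρ c e u = κ)
    {i : ℕ} (hi : i ≤ n) (ρ c e : ℕ) {N : ℤ} (w : H i (ρ + 1) c (e + 1))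
    (hw : P i (ρ + 1) c (e + 1) w = N • y i (ρ + 1) c (e + 1)) :
    ∃ w' : H i (ρ + 1) (c + 2 * i + ib i) e,
      P i (ρ + 1) (c + 2 * i + ib i) e w' =
        (l ^ (ia i + 4 * i) * N) • y i (ρ + 1) (c + 2 * i + ib i) e := by
  have hSy' : ∀ c e k, Sit (fun c => S' i (ρ + 1) c e) c k (y i (ρ + 1) c e) =
      y i (ρ + 1) (c + k) e := by
    intro c e k
    induction k with
    | zero => rfl
    | succ k ih =>
      change S' i (ρ + 1) (c + k) e (Sit (fun c => S' i (ρ + 1) c e) c k (y i (ρ + 1) c e)) = _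
      rw [ih, hSy]
      rfl
  obtain ⟨u, hu⟩ := surj_lemma l S r R o j SC rC hrS hrR hSR hro hSo hrj hSj hrSC h0 h_o_R
      ex_o ex_j i hi ρ c e w
  have h1 : r' i (ρ + 1) (c + 2 * i) e (P i (ρ + 1) (c + 2 * i) e u -
      (l ^ (4 * i) * N) • y i (ρ + 1) (c + 2 * i) e) = 0 := by
    rw [map_sub, map_zsmul, ← hPr, hu, map_zsmul,
      Sit_comm (fun c => S i (ρ + 1) c (e + 1)) (fun c => S' i (ρ + 1) c (e + 1))
        (fun c => P i (ρ + 1) c (e + 1)) (fun c x => hPS i (ρ + 1) c (e + 1) x), hw, map_zsmul,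
      hSy', hry, smul_smul, sub_self]
  have h2 := inj_lemma l S' r' R' o' j' SC rC hrS' hrR' hSR' hrSC' hro' hSo' hrj' hSj' hrSC h0'
    h_o_R' h_j_o' ex_o' ex_j' ex_C' i hi ρ _ _ _ h1
  refine ⟨l ^ ia i • Sit (fun c => S i (ρ + 1) c e) (c + 2 * i) (ib i) u, ?_⟩
  rw [map_sub, map_zsmul, hSy', smul_sub, sub_eq_zero, smul_smul, ← mul_assoc, ← pow_add] at h2
  rw [map_zsmul, Sit_comm (fun c => S i (ρ + 1) c e) (fun c => S' i (ρ + 1) c e)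
    (fun c => P i (ρ + 1) c e) (fun c x => hPS i (ρ + 1) c e x), h2]

end cancel

end LS.Alg
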