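import Pool.Agent.H.MP_5f9601_gt.U.Alg2

/-!
MP_5f9601_gt, module Alg3 (helper47): the final algebraic statement of section 4.

Indices: `a` (weight of the source; only the two values `ap`, `aq` are used), `i` (the base `X_i`),
`ρ` (number of real coordinates of the source), `c` (number of complex suspensions), `e` (twist of
the target).  `S` suspension, `r` postcomposition with `psi_l`, `F` precomposition with `psi_l`
(on the base and on the source coordinate), `R` restriction, `o` obstruction, `j` inclusion of the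
cell groups `C`, `P` precomposition with `psi_p`.
-/

set_option autoImplicit false

namespace LS.Alg

/-- **(Q)** starting at `i = 0`. -/
theorem Q_lemma0 {n : ℕ} {H H' K K' : ℕ → Type*} [∀ i, AddCommGroup (H i)]
    [∀ i, AddCommGroup (H' i)] [∀ i, AddCommGroup (K i)] [∀ i, AddCommGroup (K' i)]
    (d : ℤ) (t : ∀ i, H' i →+ H i) (res : ∀ i, H (i + 1) →+ H i) (res' : ∀ i, H' (i + 1) →+ H' i)
    (o : ∀ i, H i →+ K i) (o' : ∀ i, H' i →+ K i)
    (j : ∀ i, K' i →+ H (i + 1)) (j' : ∀ i, K' i →+ H' (i + 1))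
    (h_res_t : ∀ i, i < n → ∀ x, res i (t (i + 1) x) = t i (res' i x))
    (h_o_t : ∀ i, i < n → ∀ x, o i (t i x) = d • o' i x)
    (h_t_j : ∀ i, i < n → ∀ κ, t (i + 1) (j' i κ) = d • j i κ)
    (h_o_res : ∀ i, i < n → ∀ x, o i (res i x) = 0)
    (ex_o : ∀ i, i < n → ∀ x, o' i x = 0 → ∃ y, res' i y = x)
    (ex_j : ∀ i, i < n → ∀ x, res i x = 0 → ∃ κ, j i κ = x)
    (base : Subsingleton (H 0)) :
    ∀ i, i ≤ n → ∀ c : H i, ∃ c' : H' i, t i c' = d ^ (2 * i) • c := by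
  intro i
  induction i with
  | zero =>
    intro _ c
    exact ⟨0, Subsingleton.elim _ _⟩
  | succ i ih =>
    intro hn c
    have hin : i < n := hn
    obtain ⟨c', hc'⟩ := ih hin.le (res i c)
    have h1 : o' i (d • c') = 0 := by
      rw [map_zsmul, ← h_o_t i hin, hc', map_zsmul, h_o_res i hin, smul_zero]
    obtain ⟨c'', hc''⟩ := ex_o i hin _ h1
    have h2 : res i (t (i + 1) c'' - d ^ (2 * i + 1) • c) = 0 := by
      rw [map_sub, h_res_t i hin, hc'', map_zsmul, map_zsmul, hc', smul_smul, ← pow_succ',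
        sub_self]
    obtain ⟨κ, hκ⟩ := ex_j i hin _ h2
    refine ⟨d • c'' - j' i κ, ?_⟩
    rw [map_sub, map_zsmul, h_t_j i hin, hκ, ← smul_sub, sub_sub_cancel, smul_smul, ← pow_succ']
    rfl

/-- the final number of complex suspensions -/
def cfin (n c₀ : ℕ) : ℕ := c₀ + 2 * (n - 2) + 2 * (n - 2) * (2 * n + ib n)

/-- **The algebra of section 4**: all relations imply that `y` over `X_n` lies in the image of `P`,
after `cfin n c₀` complex suspensions. -/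
theorem main_alg {A : Type*} {H : A → ℕ → ℕ → ℕ → ℕ → Type*} {C : ℕ → ℕ → ℕ → Type*}
    [∀ a i ρ c e, AddCommGroup (H a i ρ c e)] [∀ i ρ c, AddCommGroup (C i ρ c)]
    {n : ℕ} (hn2 : 2 ≤ n) (l p : ℤ) (ap aq : A)
    (S : ∀ a i ρ c e, H a i ρ c e →+ H a i ρ (c + 1) e)
    (r : ∀ a i ρ c e, H a i ρ c e →+ H a i ρ c (e + 1))
    (F : ∀ a i ρ c e, H a i ρ c e →+ H a i ρ c (e + 1))
    (R : ∀ a i ρ c e, H a (i + 1) ρ c e →+ H a i ρ c e)
    (o : ∀ a i ρ c e, H a i (ρ + 1) c e →+ C i ρ c)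
    (j : ∀ a i ρ c e, C i ρ c →+ H a (i + 1) ρ c e)
    (SC : ∀ i ρ c, C i ρ c →+ C i ρ (c + 1)) (rC : ∀ i ρ c, C i ρ c →+ C i ρ c)
    (P : ∀ i ρ c e, H ap i ρ c e →+ H aq i ρ c e) (y : ∀ i ρ c e, H aq i ρ c e)
    -- naturality of `P`
    (hPS : ∀ i ρ c e f, P i ρ (c + 1) e (S ap i ρ c e f) = S aq i ρ c e (P i ρ c e f))
    (hPr : ∀ i ρ c e f, P i ρ c (e + 1) (r ap i ρ c e f) = r aq i ρ c e (P i ρ c e f))
    (hPF : ∀ i ρ c e f, P i ρ c (e + 1) (F ap i ρ c e f) = F aq i ρ c e (P i ρ c e f))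
    (hPR : ∀ i ρ c e f, R aq i ρ c e (P (i + 1) ρ c e f) = P i ρ c e (R ap i ρ c e f))
    (hoP : ∀ i, i < n → ∀ ρ c e f, o aq i ρ c e (P i (ρ + 1) c e f) = p • o ap i ρ c e f)
    (hPj : ∀ i, i < n → ∀ ρ c e κ, P (i + 1) ρ c e (j ap i ρ c e κ) = p • j aq i ρ c e κ)
    -- the class `y`
    (hSy : ∀ i ρ c e, S aq i ρ c e (y i ρ c e) = y i ρ (c + 1) e)
    (hry : ∀ i ρ c e, r aq i ρ c e (y i ρ c e) = y i ρ c (e + 1))
    (hFy : ∀ i ρ c e, F aq i ρ c e (y i ρ c e) = y i ρ c (e + 1))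
    (hRy : ∀ i ρ c e, R aq i ρ c e (y (i + 1) ρ c e) = y i ρ c e)
    -- `r`, `S`, `R` commute
    (hrS : ∀ a i ρ c e x, r a i ρ (c + 1) e (S a i ρ c e x) = S a i ρ c (e + 1) (r a i ρ c e x))
    (hrR : ∀ a i ρ c e x, R a i ρ c (e + 1) (r a (i + 1) ρ c e x) = r a i ρ c e (R a i ρ c e x))
    (hSR : ∀ a i ρ c e x, R a i ρ (c + 1) e (S a (i + 1) ρ c e x) = S a i ρ c e (R a i ρ c e x))
    (hrSC' : ∀ i, i < n → ∀ ρ c κ, rC i ρ (c + 1) (SC i ρ c κ) = SC i ρ c (rC i ρ c κ))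
    -- `r`, `S` commute with `o`, `j`
    (hro : ∀ a i, i < n → ∀ ρ c e x,
      o a i ρ c (e + 1) (r a i (ρ + 1) c e x) = rC i ρ c (o a i ρ c e x))
    (hSo : ∀ a i, i < n → ∀ ρ c e x,
      o a i ρ (c + 1) e (S a i (ρ + 1) c e x) = SC i ρ c (o a i ρ c e x))
    (hrj : ∀ a i, i < n → ∀ ρ c e κ,
      r a (i + 1) ρ c e (j a i ρ c e κ) = j a i ρ c (e + 1) (rC i ρ c κ))
    (hSj : ∀ a i, i < n → ∀ ρ c e κ,
      S a (i + 1) ρ c e (j a i ρ c e κ) = j a i ρ (c + 1) e (SC i ρ c κ))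
    -- degrees
    (hrSC : ∀ i, i < n → ∀ ρ c κ, rC i ρ (c + 1) (SC i ρ c κ) = l ^ 2 • SC i ρ c κ)
    (hoF : ∀ a i, i < n → ∀ ρ c e x,
      o a i ρ c (e + 1) (F a i (ρ + 1) c e x) = l ^ (i + 1) • o a i ρ c e x)
    (hFj : ∀ a i, i < n → ∀ ρ c e κ,
      F a (i + 1) ρ c e (j a i ρ c e κ) = l ^ (i + 1) • j a i ρ c (e + 1) κ)
    -- exactness
    (h0 : ∀ a ρ c e, Subsingleton (H a 0 ρ c e))
    (h_o_R : ∀ a i, i < n → ∀ ρ c e x, o a i ρ c e (R a i (ρ + 1) c e x) = 0)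
    (h_j_o : ∀ a i, i < n → ∀ ρ c e x, j a i ρ c e (o a i ρ c e x) = 0)
    (ex_o : ∀ a i, i < n → ∀ ρ c e x, o a i ρ c e x = 0 → ∃ y, R a i (ρ + 1) c e y = x)
    (ex_j : ∀ a i, i < n → ∀ ρ c e x, R a i ρ c e x = 0 → ∃ κ, j a i ρ c e κ = x)
    (ex_C : ∀ a i, i < n → ∀ ρ c e κ, j a i ρ c e κ = 0 → ∃ u, o a i ρ c e u = κ)
    -- arithmetic of `l`, and the base of the induction over `X_2`
    (hlp : IsCoprime l p) (hl : ∀ i, 2 ≤ i → i < n → IsCoprime (1 - l ^ (i - 1)) p)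
    {c₀ : ℕ} (base : ∃ w : H ap 2 1 c₀ 0, P 2 1 c₀ 0 w = y 2 1 c₀ 0) :
    ∃ w : H ap n 1 (cfin n c₀) 0, P n 1 (cfin n c₀) 0 w = y n 1 (cfin n c₀) 0 := by
  -- (E)
  obtain ⟨N, hN, w, hw⟩ := E_lemma (n := n) (p := p) (m := c₀) l
    (Hp := fun i c e => H ap i 1 c e) (Hq := fun i c e => H aq i 1 c e)
    (K := fun i c => C i 0 c) (K' := fun i c => C i 1 c)
    (fun i c e => P i 1 c e) (fun i c e => S ap i 1 c e) (fun i c e => S aq i 1 c e)
    (fun i c e => F ap i 1 c e) (fun i c e => F aq i 1 c e)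
    (fun i c e => r ap i 1 c e) (fun i c e => r aq i 1 c e)
    (fun i c e => R ap i 1 c e) (fun i c e => R aq i 1 c e)
    (fun i c e => o ap i 0 c e) (fun i c e => j aq i 1 c e) (fun i c => SC i 1 c)
    (fun i c e => y i 1 c e)
    (fun i c e f => hPS i 1 c e f) (fun i c e f => hPF i 1 c e f) (fun i c e f => hPr i 1 c e f)
    (fun i c e f => hPR i 1 c e f)
    (fun i c e => hSy i 1 c e) (fun i c e => hFy i 1 c e) (fun i c e => hry i 1 c e)
    (fun i c e => hRy i 1 c e)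
    (fun i _ hin c e f => hoF ap i hin 0 c e f)
    (fun i _ hin c e f => by rw [hro ap i hin, hSo ap i hin, hrSC i hin])
    (fun i _ hin c e κ => hFj aq i hin 1 c e κ)
    (fun i _ hin c e κ => by rw [hrj aq i hin, hrSC i hin, map_zsmul])
    (fun i _ hin c e κ => hSj aq i hin 1 c e κ)
    (fun i _ hin c e f hf => ex_o ap i hin 0 c e f hf)
    (fun i _ hin c e f hf => ex_j aq i hin 1 c e f hf)
    hl base n hn2 le_rfl
  -- cancellation of the twists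
  have hcan : ∀ e c (N : ℤ) (w : H ap n 1 c e), IsCoprime N p → P n 1 c e w = N • y n 1 c e →
      ∃ N' : ℤ, IsCoprime N' p ∧ ∃ w' : H ap n 1 (c + e * (2 * n + ib n)) 0,
        P n 1 (c + e * (2 * n + ib n)) 0 w' = N' • y n 1 (c + e * (2 * n + ib n)) 0 := by
    intro e
    induction e with
    | zero =>
      intro c N w hN hw
      have h1 : c + 0 * (2 * n + ib n) = c := by omega
      rw [h1]
      exact ⟨N, hN, w, hw⟩
    | succ e ih =>
      intro c N w hN hw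
      obtain ⟨w', hw'⟩ := cancel_lemma (H := H ap) (H' := H aq) (n := n) l
        (S ap) (r ap) (R ap) (o ap) (j ap) (S aq) (r aq) (R aq) (o aq) (j aq) SC rC P y
        hPS hPr hSy hry (hrS ap) (hrR ap) (hSR ap) (hrS aq) (hrR aq) (hSR aq) hrSC'
        (hro ap) (hSo ap) (hrj ap) (hSj ap) (hro aq) (hSo aq) (hrj aq) (hSj aq) hrSC
        (h0 ap) (h0 aq) (h_o_R ap) (ex_o ap) (ex_j ap) (h_o_R aq) (h_j_o aq) (ex_o aq)
        (ex_j aq) (ex_C aq) le_rfl 0 c e w hw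
      have h1 : c + (e + 1) * (2 * n + ib n) = c + 2 * n + ib n + e * (2 * n + ib n) := by ring
      rw [h1]
      exact ih _ _ w' ((hlp.pow_left).mul_left hN) hw'
  obtain ⟨N', hN', w', hw'⟩ := hcan _ _ N w hN hw
  -- (Q) for `P` and Bezout
  have hQ := Q_lemma0 (n := n) (H := fun i => H aq i 1 (cfin n c₀) 0)
    (H' := fun i => H ap i 1 (cfin n c₀) 0) (K := fun i => C i 0 (cfin n c₀))
    (K' := fun i => C i 1 (cfin n c₀)) p (fun i => P i 1 (cfin n c₀) 0)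
    (fun i => R aq i 1 (cfin n c₀) 0) (fun i => R ap i 1 (cfin n c₀) 0)
    (fun i => o aq i 0 (cfin n c₀) 0) (fun i => o ap i 0 (cfin n c₀) 0)
    (fun i => j aq i 1 (cfin n c₀) 0) (fun i => j ap i 1 (cfin n c₀) 0)
    (fun i _ x => hPR i 1 _ 0 x) (fun i hi x => hoP i hi 0 _ 0 x)
    (fun i hi κ => hPj i hi 1 _ 0 κ) (fun i hi x => h_o_R aq i hi 0 _ 0 x)
    (fun i hi x hx => ex_o ap i hi 0 _ 0 x hx) (fun i hi x hx => ex_j aq i hi 1 _ 0 x hx)
    (h0 aq 1 _ 0) n le_rfl (y n 1 (cfin n c₀) 0)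
  exact bezout (P n 1 (cfin n c₀) 0) (y n 1 (cfin n c₀) 0) (hN'.pow_right (n := 2 * n))
    ⟨w', hw'⟩ hQ

end LS.Alg
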