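import Pool.Agent.H.MP_5f9601_gt.U.YDef

/-!
MP_5f9601, section 4 (helper49): the base of the induction over `X_2`, on the level of loops.

`kloop` = the loop `(x; z, s, k) ↦ piV (![z, x_0], s, rv k s)` of maps on the cell `D N 1`.
`y_homotopic_base`: `yloop` over `X N 2` (twist `e = 0`) is homotopic to `jj (preX p kloop)`.
Homotopy: `piV (![z, τ ψ_p(x_0)], s, rv k s)`, `τ ∈ [0,1]`.
-/

set_option autoImplicit false

open Set Topology ComplexConjugate
open scoped unitInterval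

namespace MP5f.S4

section base

variable {c ρ : ℕ}

/-- a point of the ball with given second coordinate -/
noncomputable def zw (u : ℂ) (v : Ball 1 c) (k : Cu ρ) (s : Fin 2 → I) : VV 2 c :=
  (![(v : W 1 c).1 0, u], (v : W 1 c).2, rv k s)

theorem norm_pair (z : Fin 1 → ℂ) (u : ℂ) : ‖(![z 0, u] : Fin 2 → ℂ)‖ = max ‖z‖ ‖u‖ := by
  apply le_antisymm
  · rw [pi_norm_le_iff_of_nonneg (le_max_of_le_left (norm_nonneg _))]
    intro j
    fin_cases j
    · exact le_max_of_le_left (norm_le_pi_norm z 0)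
    · exact le_max_right _ _
  · refine max_le ?_ (norm_le_pi_norm (![z 0, u] : Fin 2 → ℂ) 1)
    rw [pi_norm_le_iff_of_nonneg (norm_nonneg _)]
    intro j
    rw [Subsingleton.elim j 0]
    exact norm_le_pi_norm (![z 0, u] : Fin 2 → ℂ) 0

theorem norm_zw (u : ℂ) (v : Ball 1 c) (k : Cu ρ) (s : Fin 2 → I) :
    ‖zw u v k s‖ = max (max ‖(v : W 1 c)‖ ‖u‖) ‖rv k s‖ := by
  unfold zw
  rw [Prod.norm_def, Prod.norm_def, Prod.norm_def]
  simp only
  rw [norm_pair]
  simp only [max_assoc, max_left_comm, max_comm]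

theorem norm_zw_of_u {u : ℂ} (v : Ball 1 c) (k : Cu ρ) (s : Fin 2 → I) (h : ‖u‖ = 1) :
    ‖zw u v k s‖ = 1 := by
  rw [norm_zw, h, max_eq_right (norm_ball_le v), max_eq_left (norm_rv_le k s)]

theorem norm_zw_of_ball {u : ℂ} (hu : ‖u‖ ≤ 1) {v : Ball 1 c} (k : Cu ρ) (s : Fin 2 → I)
    (h : ‖(v : W 1 c)‖ = 1) : ‖zw u v k s‖ = 1 := by
  rw [norm_zw, h, max_eq_left hu, max_eq_left (norm_rv_le k s)]

theorem norm_zw_of_rv {u : ℂ} (hu : ‖u‖ ≤ 1) (v : Ball 1 c) {k : Cu ρ} {s : Fin 2 → I}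
    (h : ‖rv k s‖ = 1) : ‖zw u v k s‖ = 1 := by
  rw [norm_zw, h, max_eq_right (max_le (norm_ball_le v) hu)]

theorem continuous_zw : Continuous (fun q : (ℂ × Ball 1 c × Cu ρ) × (Fin 2 → I) =>
    zw q.1.1 q.1.2.1 q.1.2.2 q.2) := by
  unfold zw
  refine Continuous.prodMk ?_ (Continuous.prodMk (by fun_prop) ?_)
  · refine continuous_pi fun j => ?_
    fin_cases j
    · show Continuous fun q : (ℂ × Ball 1 c × Cu ρ) × (Fin 2 → I) => (q.1.2.1 : W 1 c).1 0
      fun_prop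
    · show Continuous fun q : (ℂ × Ball 1 c × Cu ρ) × (Fin 2 → I) => q.1.1
      fun_prop
  · exact continuous_rv.comp (f := fun q : (ℂ × Ball 1 c × Cu ρ) × (Fin 2 → I) => (q.1.2.2, q.2))
      (by fun_prop)

variable {N : ℕ}

theorem norm_D_one (hN : 0 < N) (x : D N 1) : ‖(x : Fin N → ℂ) ⟨0, hN⟩‖ = ‖(x : Fin N → ℂ)‖ := by
  refine le_antisymm (norm_le_pi_norm (x : Fin N → ℂ) _) ?_
  rw [pi_norm_le_iff_of_nonneg (norm_nonneg _)]
  intro j
  rcases Nat.eq_zero_or_pos (j : ℕ) with h0 | h0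
  · rw [show j = ⟨0, hN⟩ from Fin.ext h0]
  · rw [x.2.2 j h0, norm_zero]
    exact norm_nonneg _

theorem continuous_D_coord (hN : 0 < N) : Continuous fun x : D N 1 => (x : Fin N → ℂ) ⟨0, hN⟩ :=
  (continuous_apply (A := fun _ : Fin N => ℂ) ⟨0, hN⟩).comp continuous_subtype_val

/-- the loop on the cell -/
noncomputable def kloop (N c ρ : ℕ) (hN : 0 < N) :
    GenLoop (Fin 2) (CC N 1 1 2 c (Cu ρ)).FS (CC N 1 1 2 c (Cu ρ)).pt :=
  loopOf _ (fun s p => piV (zw ((p.1 : Fin N → ℂ) ⟨0, hN⟩) p.2.1 p.2.2 s))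
    (continuous_piV.comp (continuous_zw.comp
      (f := fun q : (Fin 2 → I) × (D N 1 × Ball 1 c × Cu ρ) =>
        (((q.2.1 : Fin N → ℂ) ⟨0, hN⟩, q.2.2.1, q.2.2.2), q.1))
      (by
        have h := (continuous_D_coord hN).comp
          (f := fun q : (Fin 2 → I) × (D N 1 × Ball 1 c × Cu ρ) => q.2.1) (by fun_prop)
        exact Continuous.prodMk (Continuous.prodMk h (by fun_prop)) (by fun_prop))))
    (fun s p => piV_ne _)
    (fun s p hp => piV_unit (by
      have hu : ‖(p.1 : Fin N → ℂ) ⟨0, hN⟩‖ ≤ 1 := (norm_D_one hN p.1).trans_le p.1.2.1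
      rcases hp with h | h | h
      · exact norm_zw_of_u _ _ _ ((norm_D_one hN p.1).trans h)
      · exact norm_zw_of_ball hu _ _ h
      · exact norm_zw_of_rv hu _ (norm_rv_bd s h)))
    (fun s => trivial)
    (fun s hs p => piV_unit (norm_zw_of_rv ((norm_D_one hN p.1).trans_le p.1.2.1) _
      (norm_rv_boundary _ hs)))

theorem kloop_apply (hN : 0 < N) (s : Fin 2 → I) (p : D N 1 × Ball 1 c × Cu ρ) :
    (kloop N c ρ hN) s p = piV (zw ((p.1 : Fin N → ℂ) ⟨0, hN⟩) p.2.1 p.2.2 s) := rfl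

theorem norm_X_coord_le {i : ℕ} (x : X N i) (j : Fin N) : ‖(x : Fin N → ℂ) j‖ ≤ 1 :=
  (norm_le_pi_norm (x : Fin N → ℂ) j).trans x.2.1.le

/-- the second coordinate of the homotopy -/
noncomputable def hu (p : ℕ) (hN : 0 < N) (t : I) (x : X N (1 + 1)) : ℂ :=
  ((t : ℝ) : ℂ) * psi p ((x : Fin N → ℂ) ⟨0, hN⟩)

theorem norm_hu_le (p : ℕ) (hN : 0 < N) (t : I) (x : X N (1 + 1)) : ‖hu p hN t x‖ ≤ 1 := by
  unfold hu
  rw [norm_mul, Complex.norm_real, norm_psi, Real.norm_eq_abs, abs_of_nonneg t.2.1]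
  exact mul_le_one₀ t.2.2 (norm_nonneg _) (norm_X_coord_le x _)

theorem continuous_hu (p : ℕ) (hN : 0 < N) :
    Continuous fun q : I × X N (1 + 1) => hu p hN q.1 q.2 := by
  unfold hu
  have h1 : Continuous fun q : I × X N (1 + 1) => (((q.1 : I) : ℝ) : ℂ) :=
    Complex.continuous_ofReal.comp (by fun_prop)
  have h2 : Continuous fun x : X N (1 + 1) => (x : Fin N → ℂ) ⟨0, hN⟩ :=
    (continuous_apply (A := fun _ : Fin N => ℂ) ⟨0, hN⟩).comp continuous_subtype_val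
  exact h1.mul ((continuous_psi p).comp (h2.comp continuous_snd))

theorem zw_rot (p q l : ℕ) (t : ℂ) {v v' : Ball 1 c} (k : Cu ρ) (s : Fin 2 → I)
    {u u' : ℂ} (hu : u' = t ^ p * u)
    (h : (v' : W 1 c) = (rot (aw q) t (v : W 1 c).1, (v : W 1 c).2)) :
    zw u' v' k s = (rot (bw p q l 0) t (zw u v k s).1, (zw u v k s).2) := by
  unfold zw
  rw [h, hu]
  refine Prod.ext (funext fun j => ?_) rfl
  fin_cases j
  · show t ^ q * (v : W 1 c).1 0 = t ^ (q * l ^ 0) * (v : W 1 c).1 0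
    rw [pow_zero, mul_one]
  · show t ^ p * u = t ^ (p * l ^ 0) * u
    rw [pow_zero, mul_one]

/-- **The base of the induction.** Over `X N 2` the loop `yloop` is homotopic to the loop `jj (preX p kloop)`. -/
theorem y_homotopic_base (p q l : ℕ) (hN : 1 < N)
    (f : GenLoop (Fin 2) (YC N (1 + 1) (aw q) (bw p q l 0) c (Cu ρ)).FS
      (YC N (1 + 1) (aw q) (bw p q l 0) c (Cu ρ)).pt)
    (hf : ∀ s, f s = (jj (aw q) (bw p q l 0) hN c (Cu ρ)).toFun
      ((preX p N 1 1 2 c (Cu ρ)).toFun (kloop N c ρ (Nat.zero_lt_of_lt hN) s))) :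
    GenLoop.Homotopic (yloop N (1 + 1) p q l 0 c ρ) f := by
  have h0 : 0 < N := Nat.zero_lt_of_lt hN
  refine homotopic_of_formula (fun t s x => piV (zw (hu p h0 t x.1) x.2.1 x.2.2 s))
    ?_ (fun t s x => piV_ne _) (fun t s x hx => piV_unit ?_) ?_ (fun t s hs x => piV_unit ?_) _ _
    ?_ ?_
  · refine continuous_piV.comp (continuous_zw.comp
      (f := fun q : (I × (Fin 2 → I)) × (X N (1 + 1) × Ball 1 c × Cu ρ) =>
        ((hu p h0 q.1.1 q.2.1, q.2.2.1, q.2.2.2), q.1.2)) ?_)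
    have h := (continuous_hu p h0).comp
      (f := fun q : (I × (Fin 2 → I)) × (X N (1 + 1) × Ball 1 c × Cu ρ) => (q.1.1, q.2.1))
      (by fun_prop)
    exact Continuous.prodMk (Continuous.prodMk h (by fun_prop)) (by fun_prop)
  · rcases hx with h | h
    · exact norm_zw_of_ball (norm_hu_le _ _ _ _) _ _ h
    · exact norm_zw_of_rv (norm_hu_le _ _ _ _) _ (norm_rv_bd s h)
  · intro t s τ hτ x x' h1 h2 h3
    show piV (zw (hu p h0 t x'.1) x'.2.1 x'.2.2 s) = rotV _ τ (piV (zw (hu p h0 t x.1) x.2.1 x.2.2 s))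
    rw [rotV_piV _ hτ, h3, zw_rot p q l τ x.2.2 s (u := hu p h0 t x.1) ?_ h2]
    unfold hu
    rw [h1]
    show _ * psi p (τ * (x.1 : Fin N → ℂ) ⟨0, h0⟩) = _
    rw [psi_mul p hτ]
    ring
  · exact norm_zw_of_rv (norm_hu_le _ _ _ _) _ (norm_rv_boundary _ hs)
  · intro s x
    rw [yloop_apply]
    congr 1
    unfold yw zw hu
    refine Prod.ext (funext fun j => ?_) rfl
    fin_cases j
    · show psi (l ^ 0) ((x.2.1 : W 1 c).1 0) = (x.2.1 : W 1 c).1 0
      rw [pow_zero, psi_one]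
    · show (0 : ℂ) = ((((0 : I) : I) : ℝ) : ℂ) * _
      simp
  · intro s x
    rw [hf s]
    show jjF (aw q) (bw p q l 0) hN ((preX p N 1 1 2 c (Cu ρ)).toFun (kloop N c ρ h0 s)) x = _
    have hu1 : hu p h0 1 x.1 = psi p ((x.1 : Fin N → ℂ) ⟨0, h0⟩) := by
      unfold hu
      simp
    rw [hu1]
    unfold jjF
    split_ifs with h
    · set θ : ℂ := (x.1 : Fin N → ℂ) ⟨1, hN⟩ with hθ
      have hc : θ * conj θ = 1 := by
        rw [Complex.mul_conj, Complex.normSq_eq_norm_sq, h]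
        simp
      have hcn : ‖conj θ‖ = 1 := by rw [RCLike.norm_conj, h]
      show rotV (bw p q l 0) θ (piV (zw (psi p ((cellPt hN x.1 : Fin N → ℂ) ⟨0, h0⟩))
        (rotB (aw q) (conj θ) (norm_coord_le hN x.1) x.2.1) x.2.2 s)) = _
      rw [rotV_piV _ h]
      congr 1
      have hcell : (cellPt hN x.1 : Fin N → ℂ) ⟨0, h0⟩ = conj θ * (x.1 : Fin N → ℂ) ⟨0, h0⟩ := by
        show conj θ • Function.update (x.1 : Fin N → ℂ) ⟨1, hN⟩ 0 ⟨0, h0⟩ = _
        rw [Function.update_of_ne (by simp), smul_eq_mul]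
      rw [hcell, psi_mul p hcn]
      unfold zw
      refine Prod.ext (funext fun j => ?_) rfl
      fin_cases j
      · show θ ^ (q * l ^ 0) * ((conj θ) ^ q * (x.2.1 : W 1 c).1 0) = (x.2.1 : W 1 c).1 0
        rw [pow_zero, mul_one, ← mul_assoc, ← mul_pow, hc, one_pow, one_mul]
      · show θ ^ (p * l ^ 0) * ((conj θ) ^ p * psi p ((x.1 : Fin N → ℂ) ⟨0, h0⟩)) =
          psi p ((x.1 : Fin N → ℂ) ⟨0, h0⟩)
        rw [pow_zero, mul_one, ← mul_assoc, ← mul_pow, hc, one_pow, one_mul]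
    · rcases norm_X_cases hN x.1 with h1 | h1
      · exact absurd h1 h
      · symm
        refine piV_unit (norm_zw_of_u _ _ _ ?_)
        rw [norm_psi]
        refine le_antisymm (norm_X_coord_le x.1 _) ?_
        rw [← h1]
        rw [pi_norm_le_iff_of_nonneg (norm_nonneg _)]
        intro j
        by_cases hj : j = ⟨1, hN⟩
        · subst hj
          simp
        · rw [Function.update_of_ne hj]
          by_cases hj0 : (j : ℕ) = 0
          · rw [show j = ⟨0, h0⟩ from Fin.ext hj0]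
          · have : 1 + 1 ≤ (j : ℕ) := by
              have : (j : ℕ) ≠ 1 := fun h4 => hj (Fin.ext h4)
              omega
            rw [x.1.2.2 j this, norm_zero]
            exact norm_nonneg _

end base

end MP5f.S4
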