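import Pool.Agent.H.MP_5f9601_gt.U.DPost1

/-!
Post-composition degree lemma (helper50), part 2: the suspension coordinate and the conclusion.
-/

set_option autoImplicit false
set_option linter.unusedSectionVars false

open Set Topology

namespace MP5f.S4

open Pool.Agent.H.MP_5f9601_gt.DPost

/-! ### norm of an updated vector -/

theorem norm_update_eq {n : ℕ} (z : Fin n → ℂ) (j : Fin n) (w : ℂ) :
    ‖Function.update z j w‖ = max ‖w‖ ‖Function.update z j 0‖ := by
  refine le_antisymm ?_ (max_le ?_ ?_)
  · refine (pi_norm_le_iff_of_nonneg (le_max_of_le_left (norm_nonneg _))).2 fun i => ?_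
    by_cases hi : i = j
    · subst hi
      rw [Function.update_self]
      exact le_max_left _ _
    · rw [Function.update_of_ne hi]
      refine le_max_of_le_right ?_
      have h := norm_le_pi_norm (Function.update z j (0 : ℂ)) i
      rwa [Function.update_of_ne hi] at h
  · have h := norm_le_pi_norm (Function.update z j w) j
    rwa [Function.update_self] at h
  · refine (pi_norm_le_iff_of_nonneg (norm_nonneg _)).2 fun i => ?_
    by_cases hi : i = j
    · subst hi
      rw [Function.update_self, norm_zero]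
      exact norm_nonneg _
    · have h := norm_le_pi_norm (Function.update z j w) i
      rw [Function.update_of_ne hi] at h
      rwa [Function.update_of_ne hi]

theorem norm_update_le {n : ℕ} (z : Fin n → ℂ) (j : Fin n) {w : ℂ} (hz : ‖z‖ ≤ 1) (hw : ‖w‖ ≤ 1) :
    ‖Function.update z j w‖ ≤ 1 := by
  refine (pi_norm_le_iff_of_nonneg zero_le_one).2 fun i => ?_
  by_cases hi : i = j
  · subst hi
    rwa [Function.update_self]
  · rw [Function.update_of_ne hi]
    exact (norm_le_pi_norm z i).trans hz

/-! ### the suspension coordinate -/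

section cell

variable {N i al be c : ℕ} {K : Type} [TopologicalSpace K] [Par K]

theorem ball_norm {al c : ℕ} (v : Ball al c) : ‖(v : W al c)‖ ≤ 1 := mem_closedBall_zero_iff.1 v.2

/-- replace the `j`th suspension coordinate of a point of the ball -/
def updBall (j : Fin c) (v : Ball al c) (w : Metric.closedBall (0 : ℂ) 1) : Ball al c :=
  ⟨((v : W al c).1, Function.update (v : W al c).2 j (w : ℂ)), by
    have hv : ‖(v : W al c)‖ ≤ 1 := ball_norm v
    have hw : ‖(w : ℂ)‖ ≤ 1 := mem_closedBall_zero_iff.1 w.2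
    rw [mem_closedBall_zero_iff]
    rw [Prod.norm_def] at hv ⊢
    exact max_le ((le_max_left _ _).trans hv)
      (norm_update_le _ _ ((le_max_right _ _).trans hv) hw)⟩

/-- the same for a point of the cell -/
def updCell (j : Fin c) (p : D N i × Ball al c × K) (w : Metric.closedBall (0 : ℂ) 1) :
    D N i × Ball al c × K := (p.1, updBall j p.2.1 w, p.2.2)

theorem continuous_updCell (j : Fin c) :
    Continuous fun q : (D N i × Ball al c × K) × Metric.closedBall (0 : ℂ) 1 =>
      updCell j q.1 q.2 := by
  refine Continuous.prodMk (by fun_prop) (Continuous.prodMk (Continuous.subtype_mk ?_ _)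
    (by fun_prop))
  refine Continuous.prodMk ?_ ?_
  · exact continuous_fst.comp (continuous_subtype_val.comp (by fun_prop))
  · refine Continuous.update ?_ j (continuous_subtype_val.comp continuous_snd)
    exact continuous_snd.comp (continuous_subtype_val.comp (by fun_prop))

theorem bd_updCell (j : Fin c) (p : D N i × Ball al c × K) (w : Metric.closedBall (0 : ℂ) 1) :
    (CC N i al be c K).P0 (updCell j p w) ↔
      ‖(w : ℂ)‖ = 1 ∨ (CC N i al be c K).P0 (updCell j p ⟨0, by simp⟩) := by
  have hw : ‖(w : ℂ)‖ ≤ 1 := mem_closedBall_zero_iff.1 w.2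
  have hv : ‖(p.2.1 : W al c)‖ ≤ 1 := ball_norm p.2.1
  rw [Prod.norm_def] at hv
  have h1 : ‖((updBall j p.2.1 w : Ball al c) : W al c)‖ =
      max ‖(w : ℂ)‖ ‖((updBall j p.2.1 ⟨0, by simp⟩ : Ball al c) : W al c)‖ := by
    show ‖((p.2.1 : W al c).1, Function.update (p.2.1 : W al c).2 j (w : ℂ))‖ =
      max ‖(w : ℂ)‖ ‖((p.2.1 : W al c).1, Function.update (p.2.1 : W al c).2 j (0 : ℂ))‖
    rw [Prod.norm_def, Prod.norm_def]
    show max ‖(p.2.1 : W al c).1‖ ‖Function.update (p.2.1 : W al c).2 j (w : ℂ)‖ =
      max ‖(w : ℂ)‖ (max ‖(p.2.1 : W al c).1‖ ‖Function.update (p.2.1 : W al c).2 j (0 : ℂ)‖)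
    rw [norm_update_eq, max_left_comm]
  have h2 : ‖((updBall j p.2.1 ⟨0, by simp⟩ : Ball al c) : W al c)‖ ≤ 1 := by
    exact ball_norm _
  have h3 : ‖((updBall j p.2.1 w : Ball al c) : W al c)‖ = 1 ↔
      ‖(w : ℂ)‖ = 1 ∨ ‖((updBall j p.2.1 ⟨0, by simp⟩ : Ball al c) : W al c)‖ = 1 := by
    rw [h1]
    constructor
    · intro h
      rcases max_choice ‖(w : ℂ)‖ ‖((updBall j p.2.1 ⟨0, by simp⟩ : Ball al c) : W al c)‖ with h' | h'
      · exact Or.inl (h'.symm.trans h)
      · exact Or.inr (h'.symm.trans h)
    · rintro (h | h)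
      · rw [h]; exact max_eq_left h2
      · rw [h]; exact max_eq_right hw
  show (‖(p.1 : Fin N → ℂ)‖ = 1 ∨ ‖((updBall j p.2.1 w : Ball al c) : W al c)‖ = 1 ∨
    Par.bd p.2.2) ↔ ‖(w : ℂ)‖ = 1 ∨ (‖(p.1 : Fin N → ℂ)‖ = 1 ∨
      ‖((updBall j p.2.1 ⟨0, by simp⟩ : Ball al c) : W al c)‖ = 1 ∨ Par.bd p.2.2)
  rw [h3]
  tauto

/-- the power map on the `j`th suspension coordinate of the source -/
noncomputable def psiCell (l : ℕ) (j : Fin c) (p : D N i × Ball al c × K) : D N i × Ball al c × K :=
  updCell j p ⟨psi l ((p.2.1 : W al c).2 j), by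
    have hv : ‖(p.2.1 : W al c)‖ ≤ 1 := ball_norm p.2.1
    rw [mem_closedBall_zero_iff, norm_psi]
    exact (norm_le_pi_norm _ _).trans ((norm_snd_le _).trans hv)⟩

theorem dp_continuous_coord (j : Fin c) :
    Continuous fun p : D N i × Ball al c × K => (p.2.1 : W al c).2 j :=
  (continuous_apply j).comp (continuous_snd.comp (continuous_subtype_val.comp (by fun_prop)))

theorem continuous_psiCell (l : ℕ) (j : Fin c) :
    Continuous (psiCell l j : D N i × Ball al c × K → D N i × Ball al c × K) :=
  (continuous_updCell j).comp (continuous_id.prodMk (Continuous.subtype_mk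
    ((continuous_psi l).comp (dp_continuous_coord j)) _))

theorem updCell_self (j : Fin c) (p : D N i × Ball al c × K) (w : Metric.closedBall (0 : ℂ) 1)
    (hw : (w : ℂ) = (p.2.1 : W al c).2 j) : updCell j p w = p := by
  refine Prod.ext rfl (Prod.ext (Subtype.ext (Prod.ext rfl ?_)) rfl)
  show Function.update (p.2.1 : W al c).2 j (w : ℂ) = (p.2.1 : W al c).2
  rw [hw, Function.update_eq_self]

theorem updCell_updCell (j : Fin c) (p : D N i × Ball al c × K)
    (w w' : Metric.closedBall (0 : ℂ) 1) : updCell j (updCell j p w) w' = updCell j p w' := by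
  refine Prod.ext rfl (Prod.ext (Subtype.ext (Prod.ext rfl ?_)) rfl)
  show Function.update (Function.update (p.2.1 : W al c).2 j (w : ℂ)) j (w' : ℂ) =
    Function.update (p.2.1 : W al c).2 j (w' : ℂ)
  rw [Function.update_idem]

theorem updCell_coord (j : Fin c) (p : D N i × Ball al c × K) (w : Metric.closedBall (0 : ℂ) 1) :
    ((updCell j p w).2.1 : W al c).2 j = w := by
  show Function.update (p.2.1 : W al c).2 j (w : ℂ) j = w
  rw [Function.update_self]

/-- pre-composition with the power map on a suspension coordinate -/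
noncomputable def BMap.preS [CompactSpace K] [T2Space K] (l : ℕ) (j : Fin c) :
    BMap (CC N i al be c K) (CC N i al be c K) :=
  BMap.ofFormula (fun f p => f (psiCell l j p))
    ((CC N i al be c K).continuous_eval.comp
      (f := fun q : (CC N i al be c K).FS × (D N i × Ball al c × K) => (q.1, psiCell l j q.2))
      (continuous_fst.prodMk ((continuous_psiCell l j).comp continuous_snd)))
    (fun f p => f.ne _)
    (fun f p hp => f.base (by
      unfold psiCell
      rw [bd_updCell]
      have h := (bd_updCell (be := be) j p ⟨(p.2.1 : W al c).2 j, by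
        have hv : ‖(p.2.1 : W al c)‖ ≤ 1 := ball_norm p.2.1
        rw [mem_closedBall_zero_iff]
        exact (norm_le_pi_norm _ _).trans ((norm_snd_le _).trans hv)⟩).1 (by
          rw [updCell_self j p _ rfl]; exact hp)
      simpa [norm_psi] using h))
    (fun _ => trivial) (fun _ => rfl)

theorem preS_map [CompactSpace K] [T2Space K] (l : ℕ) (hl : 1 ≤ l) (j : Fin c)
    (x : (CC N i al be c K).A) :
    (BMap.preS (N := N) (i := i) (al := al) (be := be) (c := c) (K := K) l j).map x = l • x := by
  refine BMap.degree (CC N i al be c K) (fun _ => trivial)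
    ⟨fun p => (p.2.1 : W al c).2 j, dp_continuous_coord j⟩ (fun p => ?_)
    ⟨fun q => updCell j q.1 q.2, continuous_updCell j⟩ (fun p w => updCell_coord j p w)
    (fun p w hw => updCell_self j p w hw) (fun p w w' => updCell_updCell j p w w')
    (fun p hp => ?_) (fun p w => bd_updCell j p w) l hl _ (fun f p w hw => ?_) x
  · have hv : ‖(p.2.1 : W al c)‖ ≤ 1 := ball_norm p.2.1
    exact (norm_le_pi_norm (p.2.1 : W al c).2 j).trans ((norm_snd_le _).trans hv)
  · refine Or.inr (Or.inl (le_antisymm (ball_norm p.2.1) ?_))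
    calc (1 : ℝ) = ‖(p.2.1 : W al c).2 j‖ := hp.symm
      _ ≤ ‖(p.2.1 : W al c).2‖ := norm_le_pi_norm _ _
      _ ≤ ‖(p.2.1 : W al c)‖ := norm_snd_le _
  · show f (psiCell l j p) = f (updCell j p w)
    unfold psiCell
    congr 2
    exact Subtype.ext hw.symm

/-- post-composition with `psi l` on one complex coordinate -/
noncomputable def BMap.psCm [CompactSpace K] [T2Space K] (l : ℕ) (s : Fin be ⊕ Fin c) :
    BMap (CC N i al be c K) (CC N i al be c K) :=
  BMap.post _ (fun _ => trivial) (psC l s) (continuous_psC l s) (fun _ hu => psC_ne_zero l s hu)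
    (psC_ebase l s)

theorem psCm_indep [CompactSpace K] [T2Space K] (l : ℕ) (s s' : Fin be ⊕ Fin c) :
    (BMap.psCm (N := N) (i := i) (al := al) (K := K) l s).map = (BMap.psCm l s').map := by
  obtain ⟨H, hc, h0, h1, hz, hne⟩ := exists_Rho (continuous_psi l) (psi_eq_zero_iff' l) s' s
  refine BMap.post_congr _ (fun _ => trivial) _ _ (fun t => onS (H t)) ?_ ?_ ?_ ?_ ?_
  · exact continuous_onS' (T := fun q : ℝ × V be c => H q.1)
      (hc.comp (f := fun q : (ℝ × V be c) × (Fin be ⊕ Fin c → ℂ) => (q.1.1, q.2)) (by fun_prop))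
      continuous_snd
  · exact fun t u hu => onS_ne_zero (fun w hw => hne t w hw) hu
  · exact fun t => onS_ebase (hz t)
  · intro f p
    show psC l s (f p) = onS (H 0) (f p)
    unfold psC onS
    rw [h0]
  · intro f p
    show psC l s' (f p) = onS (H 1) (f p)
    unfold psC onS
    rw [h1]

/-- `psi l` on any complex coordinate of the values acts on suspensions as multiplication by `l`.
`hS`: `psi l` on the new coordinate `j0` of the values of `S f` is `S f` after `psi l` on the new
coordinate `j0` of the source. -/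
theorem psCm_susp [CompactSpace K] [T2Space K] {c' : ℕ}
    (SC : BMap (CC N i al be c' K) (CC N i al be c K)) (l : ℕ) (hl : 1 ≤ l) (j0 : Fin c)
    (hS : ∀ f p, psC l (Sum.inr j0) (SC.toFun f p) = SC.toFun f (psiCell l j0 p))
    (s : Fin be ⊕ Fin c) (x : (CC N i al be c' K).A) :
    (BMap.psCm l s).map (SC.map x) = l • SC.map x := by
  rw [psCm_indep l s (Sum.inr j0), ← preS_map l hl j0 (SC.map x), ← BMap.map_comp,
    ← BMap.map_comp]
  congr 2
  have h : (BMap.psCm (N := N) (i := i) (al := al) (K := K) l (Sum.inr j0)).comp SC =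
      (BMap.preS l j0).comp SC := by
    have h1 : ((BMap.psCm (N := N) (i := i) (al := al) (K := K) l (Sum.inr j0)).comp SC).toFun =
        ((BMap.preS l j0).comp SC).toFun := by
      refine ContinuousMap.ext fun f => Ctx.FS.ext fun p => ?_
      exact hS f p
    cases hx : (BMap.psCm (N := N) (i := i) (al := al) (K := K) l (Sum.inr j0)).comp SC
    cases hy : (BMap.preS (N := N) (i := i) (al := al) (be := be) (K := K) l j0).comp SC
    rw [hx, hy] at h1
    simp only at h1
    subst h1
    rfl
  rw [h]

/-- equality of based maps from equality of values -/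
theorem BMap.ext' {P V P' V' : Type} [TopologicalSpace P] [NormedAddCommGroup V]
    [TopologicalSpace P'] [NormedAddCommGroup V'] {c : Ctx P V} {c' : Ctx P' V'} {g g' : BMap c c'}
    (h : ∀ f p, g.toFun f p = g'.toFun f p) : g = g' := by
  have h1 : g.toFun = g'.toFun := ContinuousMap.ext fun f => Ctx.FS.ext fun p => h f p
  cases g
  cases g'
  simp only at h1
  subst h1
  rfl

/-- post-composition with `psi l` on the coordinates in `s` -/
noncomputable def BMap.psFm [CompactSpace K] [T2Space K] (l : ℕ) (s : Finset (Fin be)) :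
    BMap (CC N i al be c K) (CC N i al be c K) :=
  BMap.post _ (fun _ => trivial) (psF l s) (continuous_psF l s) (fun _ hu => psF_ne_zero l s hu)
    (psF_ebase l s)

theorem psFm_susp [CompactSpace K] [T2Space K] {c' : ℕ}
    (SC : BMap (CC N i al be c' K) (CC N i al be c K)) (l : ℕ) (hl : 1 ≤ l) (j0 : Fin c)
    (hS : ∀ f p, psC l (Sum.inr j0) (SC.toFun f p) = SC.toFun f (psiCell l j0 p))
    (s : Finset (Fin be)) (x : (CC N i al be c' K).A) :
    (BMap.psFm l s).map (SC.map x) = l ^ s.card • SC.map x := by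
  classical
  induction s using Finset.induction_on with
  | empty =>
    rw [Finset.card_empty, pow_zero, one_smul]
    exact BMap.map_id _ (fun f p => psF_empty l _) _
  | insert j s hj ih =>
    have h : (BMap.psFm (N := N) (i := i) (al := al) (c := c) (K := K) l (insert j s)) =
        (BMap.psCm l (Sum.inl j)).comp (BMap.psFm l s) :=
      BMap.ext' fun f p => psF_insert l hj (f p)
    rw [h, BMap.map_comp, ih, map_nsmul, psCm_susp SC l hl j0 hS, smul_smul,
      Finset.card_insert_of_notMem hj, pow_succ]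

/-- **Post-composition degree lemma**: `r S κ = l ^ be • S κ`, where `r` is post-composition with
`psi l` on the `be` weighted coordinates of the values. -/
theorem r_susp [CompactSpace K] [T2Space K] {c' : ℕ}
    (SC : BMap (CC N i al be c' K) (CC N i al be c K)) (l : ℕ) (hl : 1 ≤ l) (j0 : Fin c)
    (hS : ∀ f p, psC l (Sum.inr j0) (SC.toFun f p) = SC.toFun f (psiCell l j0 p))
    (r : BMap (CC N i al be c K) (CC N i al be c K)) (hr : ∀ f p, r.toFun f p = psV l (f p))
    (x : (CC N i al be c' K).A) : r.map (SC.map x) = l ^ be • SC.map x := by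
  have h : r = BMap.psFm l Finset.univ := BMap.ext' fun f p => by
    rw [hr]
    exact (psF_univ l _).symm
  rw [h, psFm_susp SC l hl j0 hS, Finset.card_univ, Fintype.card_fin]

end cell

/-! ### the complex suspension -/

section susp

variable {be c : ℕ}

theorem psC_susV (l : ℕ) (u : V be c) {w : ℂ} (hw : ‖w‖ ≤ 1) :
    psC l (Sum.inr 0) (susV w u) = susV (psi l w) u := by
  have h0 : 0 ≤ (1 - ‖w‖ : ℝ) * ‖u - ebase be c‖ := mul_nonneg (by linarith) (norm_nonneg _)
  refine Prod.ext (Prod.ext ?_ (Prod.ext ?_ ?_)) ?_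
  · show (fun j => Function.update (toS (susV w u)) (Sum.inr 0) (psi l (toS (susV w u) (Sum.inr 0)))
      (Sum.inl j)) = _
    funext j
    rw [Function.update_of_ne (by simp)]
    show (susV w u).1.1 j = (susV (psi l w) u).1.1 j
    simp only [susV, norm_psi]
  · show (fun j => Function.update (toS (susV w u)) (Sum.inr 0) (psi l (toS (susV w u) (Sum.inr 0)))
      (Sum.inr j)) = _
    funext j
    refine Fin.cases ?_ (fun j => ?_) j
    · rw [Function.update_self]
      show psi l (((1 - ‖w‖) * ‖u - ebase be c‖ : ℝ) * w) =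
        ((1 - ‖psi l w‖) * ‖u - ebase be c‖ : ℝ) * psi l w
      rw [psi_smul l h0, norm_psi]
    · rw [Function.update_of_ne (by simp [Fin.succ_ne_zero])]
      show (susV w u).1.2.1 j.succ = (susV (psi l w) u).1.2.1 j.succ
      simp only [susV, norm_psi, Fin.cons_succ]
  · show (1 - ‖w‖) • u.1.2.2 = (1 - ‖psi l w‖) • u.1.2.2
    rw [norm_psi]
  · show (1 - ‖w‖) * u.2 + ‖w‖ = (1 - ‖psi l w‖) * u.2 + ‖psi l w‖
    rw [norm_psi]

end susp

/-- **Post-composition degree lemma**: `r S κ = l ^ be • S κ`. -/
theorem rrC_susC (l : ℕ) (hl : 1 ≤ l) (N i al be c : ℕ) (K : Type) [TopologicalSpace K] [Par K]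
    [CompactSpace K] [T2Space K] (x : (CC N i al be c K).A) :
    (rrC l N i al be (c + 1) K).map ((susC N i al be c K).map x) =
      l ^ be • (susC N i al be c K).map x := by
  refine r_susp (susC N i al be c K) l hl 0 (fun f p => ?_) (rrC l N i al be (c + 1) K)
    (fun _ _ => rfl) x
  show psC l (Sum.inr 0) (susV (headB p.2.1) (f (p.1, tailB p.2.1, p.2.2))) =
    susV (headB (psiCell l 0 p).2.1) (f ((psiCell l 0 p).1, tailB (psiCell l 0 p).2.1, (psiCell l 0 p).2.2))
  have h1 : headB (psiCell l 0 p).2.1 = psi l (headB p.2.1) := updCell_coord 0 p _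
  have h2 : tailB (psiCell l 0 p).2.1 = tailB p.2.1 := by
    refine Subtype.ext (Prod.ext rfl ?_)
    funext j
    show Function.update (p.2.1 : W al (c + 1)).2 0 (psi l ((p.2.1 : W al (c + 1)).2 0)) j.succ =
      (p.2.1 : W al (c + 1)).2 j.succ
    rw [Function.update_of_ne (Fin.succ_ne_zero j)]
  rw [h1, h2]
  exact psC_susV l _ (norm_headB_le _)

end MP5f.S4
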