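import Pool.Agent.H.MP_5f9601_gt.U.FDef

/-!
MP_5f9601, section 4: induced homomorphisms on the second homotopy group, homotopy invariance, exactness criterion.
-/

set_option autoImplicit false

open Set Topology

namespace MP5f.S4

section top

variable {X Y Z : Type} [TopologicalSpace X] [TopologicalSpace Y] [TopologicalSpace Z]

/-- composing a loop with a based map -/
def gcomp {x : X} {y : Y} (g : C(X, Y)) (hg : g x = y) (f : GenLoop (Fin 2) X x) :
    GenLoop (Fin 2) Y y :=
  ⟨g.comp f.1, fun t ht => by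
    rw [ContinuousMap.comp_apply, f.2 t ht, hg]⟩

theorem gcomp_apply {x : X} {y : Y} (g : C(X, Y)) (hg : g x = y) (f : GenLoop (Fin 2) X x)
    (t : Fin 2 → unitInterval) : gcomp g hg f t = g (f t) := rfl

theorem gcomp_homotopic {x : X} {y : Y} (g : C(X, Y)) (hg : g x = y) {f f' : GenLoop (Fin 2) X x}
    (h : GenLoop.Homotopic f f') : GenLoop.Homotopic (gcomp g hg f) (gcomp g hg f') := by
  obtain ⟨H⟩ := h
  exact ⟨H.compContinuousMap g⟩

theorem gcomp_transAt {x : X} {y : Y} (g : C(X, Y)) (hg : g x = y) (i : Fin 2)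
    (f f' : GenLoop (Fin 2) X x) :
    gcomp g hg (GenLoop.transAt i f f') = GenLoop.transAt i (gcomp g hg f) (gcomp g hg f') := by
  apply Subtype.ext
  ext t
  show g (if (t i : ℝ) ≤ 1 / 2 then f _ else f' _) = if (t i : ℝ) ≤ 1 / 2 then _ else _
  split_ifs <;> rfl

/-- the induced map on the second homotopy group -/
noncomputable def pimap {x : X} {y : Y} (g : C(X, Y)) (hg : g x = y) :
    HomotopyGroup (Fin 2) X x →* HomotopyGroup (Fin 2) Y y :=
  MonoidHom.mk' (fun a => Quotient.map (gcomp g hg) (fun _ _ h => gcomp_homotopic g hg h) a) (by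
    intro a b
    induction a using Quotient.inductionOn with | _ a => ?_
    induction b using Quotient.inductionOn with | _ b => ?_
    have h1 := HomotopyGroup.mul_spec (i := 0) (p := a) (q := b)
    have h2 := HomotopyGroup.mul_spec (i := 0) (p := gcomp g hg a) (q := gcomp g hg b)
    have h3 := congrArg (fun u => Quotient.map (gcomp g hg) (fun _ _ h => gcomp_homotopic g hg h) u) h1
    refine h3.trans ?_
    refine Eq.trans ?_ h2.symm
    rw [← gcomp_transAt]
    rfl)

theorem pimap_mk {x : X} {y : Y} (g : C(X, Y)) (hg : g x = y) (f : GenLoop (Fin 2) X x) :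
    pimap g hg (Quotient.mk _ f : HomotopyGroup (Fin 2) X x) =
      (Quotient.mk _ (gcomp g hg f) : HomotopyGroup (Fin 2) Y y) := rfl

theorem pimap_comp {x : X} {y : Y} {z : Z} (g : C(Y, Z)) (hg : g y = z) (f : C(X, Y)) (hf : f x = y)
    (h : (g.comp f) x = z) (a : HomotopyGroup (Fin 2) X x) :
    pimap (g.comp f) h a = pimap g hg (pimap f hf a) := by
  induction a using Quotient.inductionOn with | _ a => ?_
  rfl

theorem pimap_congr {x : X} {y : Y} {g g' : C(X, Y)} (hg : g x = y) (hg' : g' x = y)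
    (h : ContinuousMap.HomotopicRel g g' {x}) (a : HomotopyGroup (Fin 2) X x) :
    pimap g hg a = pimap g' hg' a := by
  induction a using Quotient.inductionOn with | _ a => ?_
  obtain ⟨H⟩ := h
  refine Quotient.sound ?_
  refine ⟨⟨⟨⟨fun q => H (q.1, a.1 q.2), by fun_prop⟩, fun t => ?_, fun t => ?_⟩, fun t s hs => ?_⟩⟩
  · show H (0, a.1 t) = g (a.1 t)
    exact H.apply_zero _
  · show H (1, a.1 t) = g' (a.1 t)
    exact H.apply_one _
  · show H (t, a.1 s) = g (a.1 s)
    exact H.eq_fst t (by rw [a.2 s hs]; exact rfl)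

theorem pimap_const {x : X} {y : Y} {g : C(X, Y)} (hg : g x = y) (h : ∀ u, g u = y)
    (a : HomotopyGroup (Fin 2) X x) : pimap g hg a = 1 := by
  induction a using Quotient.inductionOn with | _ a => ?_
  rw [HomotopyGroup.one_def]
  refine congrArg (Quotient.mk _) (Subtype.ext (ContinuousMap.ext fun t => ?_))
  exact h _

/-- exactness from a natural lift -/
theorem exact_of_natural {x : X} {y : Y} {z : Z} (f : C(X, Y)) (hf : f x = y) (g : C(Y, Z))
    (hg : g y = z) (P : Y × C(unitInterval, Z) → Prop) (hP : ∀ q, q.2 0 = g q.1 → q.2 1 = z → P q)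
    (e : {q // P q}) (he1 : e.1.1 = y) (he2 : ∀ t, e.1.2 t = z) (Q : C({q // P q}, X)) (hQ : Q e = x)
    (fst : C({q // P q}, Y)) (hfst : ∀ q, fst q = q.1.1)
    (h : ContinuousMap.HomotopicRel fst (f.comp Q) {e}) (a : HomotopyGroup (Fin 2) Y y)
    (ha : pimap g hg a = 1) : ∃ b, pimap f hf b = a := by
  induction a using Quotient.inductionOn with | _ a => ?_
  rw [HomotopyGroup.one_def, pimap_mk] at ha
  obtain ⟨H⟩ : GenLoop.Homotopic (gcomp g hg a) GenLoop.const := Quotient.exact ha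
  have hH0 : ∀ s, H (0, s) = g (a.1 s) := fun s => H.apply_zero s
  have hH1 : ∀ s, H (1, s) = z := fun s => H.apply_one s
  have hHb : ∀ t, ∀ s ∈ Cube.boundary (Fin 2), H (t, s) = z := fun t s hs => by
    rw [H.eq_fst t hs]
    exact (gcomp g hg a).2 s hs
  let path : C(Fin 2 → unitInterval, C(unitInterval, Z)) :=
    ContinuousMap.curry ⟨fun q : (Fin 2 → unitInterval) × unitInterval => H (q.2, q.1), by fun_prop⟩
  have hpath : ∀ s t, path s t = H (t, s) := fun s t => rfl
  have hPs : ∀ s, P (a.1 s, path s) := fun s => hP _ (by rw [hpath, hH0]) (by rw [hpath, hH1])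
  let be : C(Fin 2 → unitInterval, {q // P q}) :=
    ⟨fun s => ⟨(a.1 s, path s), hPs s⟩, by fun_prop⟩
  have hbe : ∀ s ∈ Cube.boundary (Fin 2), be s = e := fun s hs => by
    refine Subtype.ext (Prod.ext ?_ (ContinuousMap.ext fun t => ?_))
    · exact (a.2 s hs).trans he1.symm
    · exact (hHb t s hs).trans (he2 t).symm
  let bl : GenLoop (Fin 2) X x := ⟨Q.comp be, fun s hs => by
    rw [ContinuousMap.comp_apply, hbe s hs, hQ]⟩
  refine ⟨Quotient.mk _ bl, ?_⟩
  rw [pimap_mk]
  refine Quotient.sound ?_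
  obtain ⟨K⟩ := h.symm
  refine ⟨⟨⟨⟨fun q => K (q.1, be q.2), by fun_prop⟩, fun t => ?_, fun t => ?_⟩, fun t s hs => ?_⟩⟩
  · show K (0, be t) = f (Q (be t))
    exact K.apply_zero _
  · show K (1, be t) = a.1 t
    rw [K.apply_one, hfst]; rfl
  · show K (t, be s) = f (Q (be s))
    exact K.eq_fst t (by rw [hbe s hs]; exact rfl)

end top

section ctx

variable {P V P' V' P'' V'' : Type} [TopologicalSpace P] [NormedAddCommGroup V]
  [TopologicalSpace P'] [NormedAddCommGroup V'] [TopologicalSpace P''] [NormedAddCommGroup V'']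

/-- the homomorphism induced by a based map -/
noncomputable def BMap.map {c : Ctx P V} {c' : Ctx P' V'} (g : BMap c c') : c.A →+ c'.A :=
  MonoidHom.toAdditive (pimap g.toFun g.map_pt)

theorem BMap.map_ofMul {c : Ctx P V} {c' : Ctx P' V'} (g : BMap c c')
    (a : HomotopyGroup (Fin 2) c.FS c.pt) :
    g.map (Additive.ofMul a) = Additive.ofMul (pimap g.toFun g.map_pt a) := rfl

theorem BMap.map_mk {c : Ctx P V} {c' : Ctx P' V'} (g : BMap c c')
    (a : GenLoop (Fin 2) c.FS c.pt) :
    g.map (Additive.ofMul (Quotient.mk _ a : HomotopyGroup (Fin 2) c.FS c.pt)) =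
      Additive.ofMul (Quotient.mk _ (gcomp g.toFun g.map_pt a) :
        HomotopyGroup (Fin 2) c'.FS c'.pt) := rfl

theorem BMap.map_comp {c : Ctx P V} {c' : Ctx P' V'} {c'' : Ctx P'' V''} (g : BMap c' c'')
    (f : BMap c c') (x : c.A) : (g.comp f).map x = g.map (f.map x) :=
  pimap_comp g.toFun g.map_pt f.toFun f.map_pt (g.comp f).map_pt x.toMul

theorem BMap.map_id {c : Ctx P V} (g : BMap c c) (h : ∀ f p, g.toFun f p = f p) (x : c.A) :
    g.map x = x := by
  have h1 : ∀ a : HomotopyGroup (Fin 2) c.FS c.pt, pimap g.toFun g.map_pt a = a := by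
    intro a
    induction a using Quotient.inductionOn with | _ a => ?_
    refine congrArg (Quotient.mk _) (Subtype.ext (ContinuousMap.ext fun t => ?_))
    exact Ctx.FS.ext (h _)
  exact h1 x.toMul

theorem BMap.map_congr' {c : Ctx P V} {c' : Ctx P' V'} (g0 g1 : BMap c c')
    (H : ContinuousMap.HomotopicRel g0.toFun g1.toFun {c.pt}) : g0.map = g1.map :=
  AddMonoidHom.ext fun x => pimap_congr g0.map_pt g1.map_pt H x.toMul

theorem BMap.map_congr {c : Ctx P V} {c' : Ctx P' V'} (g0 g1 : BMap c c')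
    (H : C(unitInterval × c.FS, c'.FS)) (h0 : ∀ f, H (0, f) = g0.toFun f)
    (h1 : ∀ f, H (1, f) = g1.toFun f) (hpt : ∀ t, H (t, c.pt) = c'.pt) : g0.map = g1.map := by
  refine BMap.map_congr' g0 g1 ⟨⟨⟨H, h0, h1⟩, fun t f hf => ?_⟩⟩
  obtain rfl : f = c.pt := hf
  show H (t, c.pt) = g0.toFun c.pt
  rw [hpt, g0.map_pt]

theorem BMap.map_zero_of {c : Ctx P V} {c' : Ctx P' V'} (g : BMap c c')
    (h : ContinuousMap.HomotopicRel g.toFun (ContinuousMap.const _ c'.pt) {c.pt}) (x : c.A) :
    g.map x = 0 := by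
  have h1 := pimap_congr g.map_pt (g' := ContinuousMap.const _ c'.pt) rfl h x.toMul
  have h2 := pimap_const (g := ContinuousMap.const c.FS c'.pt) (x := c.pt) rfl (fun _ => rfl) x.toMul
  exact congrArg Additive.ofMul (h1.trans h2)

/-- exactness from a natural lift, for maps of contexts -/
theorem BMap.exact_of_natural {c : Ctx P V} {c' : Ctx P' V'} {c'' : Ctx P'' V''} (f : BMap c c')
    (g : BMap c' c'') (R : c'.FS × C(unitInterval, c''.FS) → Prop)
    (hR : ∀ q, q.2 0 = g.toFun q.1 → q.2 1 = c''.pt → R q)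
    (e : {q // R q}) (he1 : e.1.1 = c'.pt) (he2 : ∀ t, e.1.2 t = c''.pt) (Q : C({q // R q}, c.FS))
    (hQ : Q e = c.pt) (fst : C({q // R q}, c'.FS)) (hfst : ∀ q, fst q = q.1.1)
    (h : ContinuousMap.HomotopicRel fst (f.toFun.comp Q) {e}) (x : c'.A) (hx : g.map x = 0) :
    ∃ y : c.A, f.map y = x := by
  obtain ⟨b, hb⟩ := MP5f.S4.exact_of_natural f.toFun f.map_pt g.toFun g.map_pt R hR e he1 he2 Q hQ fst
    hfst h x.toMul hx
  exact ⟨Additive.ofMul b, congrArg Additive.ofMul hb⟩

end ctx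

end MP5f.S4
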