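import Pool.Agent.H.MP_5f9601_gt.U.A12b
import Pool.Agent.H.MP_5f9601_gt.U.Pi2

/-!
MP_5f9601, section 4 (helper67): (A1) and (A2) for the induced homomorphisms.
-/

set_option autoImplicit false

open Set Topology unitInterval

namespace MP5f.S4

variable {N i al be : ℕ} (a : Fin al → ℕ) (b : Fin be → ℕ)

/-- **(A1)** exactness at the cell groups -/
theorem map_exact_C (hi : i < N) (c rho : ℕ) (x : (CC N i al be c (Cu rho)).A)
    (hx : (jj a b hi c (Cu rho)).map x = 0) :
    ∃ y : (YC N i a b c (Cu (rho + 1))).A, (oo a b N i c rho).map y = x :=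
  BMap.exact_of_natural (oo a b N i c rho) (jj a b hi c (Cu rho))
    (fun q => q.2 0 = (jj a b hi c (Cu rho)).toFun q.1 ∧
      q.2 1 = (YC N (i + 1) a b c (Cu rho)).pt)
    (fun _ h0 h1 => ⟨h0, h1⟩) (EC.pt a b hi c rho) rfl (fun _ => rfl) (EC.Q a b hi c rho)
    (EC.Q_pt a b hi c rho) (EC.fst a b hi c rho) (fun _ => rfl) (EC.homotopic a b hi c rho) x hx

/-- **(A2)** `j ∘ o = 0` -/
theorem map_jj_oo (hi : i < N) (c rho : ℕ) (x : (YC N i a b c (Cu (rho + 1))).A) :
    (jj a b hi c (Cu rho)).map ((oo a b N i c rho).map x) = 0 := by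
  rw [← BMap.map_comp]
  exact BMap.map_zero_of _ (JO_null a b hi c rho) x

end MP5f.S4
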