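import Pool.Agent.H.MP_5f9601_gt.U.FOps

/-!
MP_5f9601, section 4: the maps `jj` (maps supported on the new cell) and `oo` (obstruction).
-/

set_option autoImplicit false

open Set Topology ComplexConjugate Filter

namespace MP5f.S4

/-- the point of the sphere in direction `x` -/
noncomputable def dirX {N i : ℕ} (x : D N i) (hx : (x : Fin N → ℂ) ≠ 0) : X N i :=
  ⟨((‖(x : Fin N → ℂ)‖⁻¹ : ℝ) : ℂ) • (x : Fin N → ℂ), by
    rw [norm_smul, Complex.norm_real, norm_inv, norm_norm, inv_mul_cancel₀ (norm_ne_zero_iff.2 hx)],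
    fun k hk => by simp [x.2.2 k hk]⟩

/-- the radius as an element of the unit interval -/
noncomputable def rad {N i : ℕ} (x : D N i) : unitInterval := ⟨‖(x : Fin N → ℂ)‖, norm_nonneg _, x.2.1⟩

theorem polar_continuous {N i : ℕ} {T Q : Type*} [TopologicalSpace T] [TopologicalSpace Q]
    (F : T × X N i × unitInterval → Q) (hF : Continuous F) (q0 : Q) (h0 : ∀ t y, F (t, y, 0) = q0) :
    Continuous (fun q : T × D N i =>
      open Classical in if h : (q.2 : Fin N → ℂ) ≠ 0 then F (q.1, dirX q.2 h, rad q.2) else q0) := by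
  classical
  rw [continuous_iff_continuousAt]
  rintro ⟨t0, x0⟩
  by_cases hx : (x0 : Fin N → ℂ) ≠ 0
  · have hopen : IsOpen {q : T × D N i | (q.2 : Fin N → ℂ) ≠ 0} :=
      isOpen_ne_fun (by fun_prop) continuous_const
    refine ContinuousOn.continuousAt (s := {q : T × D N i | (q.2 : Fin N → ℂ) ≠ 0}) ?_
      (hopen.mem_nhds hx)
    rw [continuousOn_iff_continuous_domRestrict]
    have : ({q : T × D N i | (q.2 : Fin N → ℂ) ≠ 0}.domRestrict (fun q : T × D N i =>
        if h : (q.2 : Fin N → ℂ) ≠ 0 then F (q.1, dirX q.2 h, rad q.2) else q0)) =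
        fun q => F (q.1.1, dirX q.1.2 q.2, rad q.1.2) := by
      funext q
      have hq : ((q.1.2 : D N i) : Fin N → ℂ) ≠ 0 := q.2
      exact dif_pos hq
    rw [this]
    refine hF.comp (Continuous.prodMk (by fun_prop) (Continuous.prodMk ?_ ?_))
    · refine Continuous.subtype_mk ?_ _
      refine Continuous.smul (Complex.continuous_ofReal.comp ?_) (by fun_prop)
      refine Continuous.inv₀ (by fun_prop) fun q => norm_ne_zero_iff.2 q.2
    · exact Continuous.subtype_mk (by fun_prop) _
  · push Not at hx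
    have hval : (if h : ((t0, x0) : T × D N i).2 ≠ (0 : Fin N → ℂ) then
        F (t0, dirX x0 h, rad x0) else q0) = q0 := dif_neg (by simpa using hx)
    rw [ContinuousAt, hval]
    intro U hU
    obtain ⟨U', hU', hUo, hq⟩ := mem_nhds_iff.1 hU
    have hopen : IsOpen (F ⁻¹' U') := hUo.preimage hF
    -- the set of all `(t, r)` such that `F (t, y, r) ∈ U'` for all `y`
    have key : {q : T × unitInterval | ∀ y : X N i, F (q.1, y, q.2) ∈ U'} ∈ 𝓝 (t0, (0 : unitInterval)) := by
      have h1 : IsOpen {q : (T × unitInterval) × X N i | F (q.1.1, q.2, q.1.2) ∈ U'} :=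
        hUo.preimage (hF.comp (by fun_prop))
      have h2 := isCompact_univ (X := X N i)
      have h3 : ({(t0, (0 : unitInterval))} : Set (T × unitInterval)) ×ˢ (univ : Set (X N i)) ⊆
          {q : (T × unitInterval) × X N i | F (q.1.1, q.2, q.1.2) ∈ U'} := by
        rintro ⟨⟨t, r⟩, y⟩ ⟨h, -⟩
        rw [mem_singleton_iff, Prod.mk.injEq] at h
        obtain ⟨rfl, rfl⟩ := h
        show F (t, y, 0) ∈ U'
        rw [h0]
        exact hq
      obtain ⟨u, v, hu, _, hsu, huv, hsub⟩ := generalized_tube_lemma isCompact_singleton h2 h1 h3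
      refine mem_of_superset (hu.mem_nhds (hsu rfl)) fun q hq y => ?_
      exact hsub (show (q, y) ∈ u ×ˢ v from ⟨hq, huv (mem_univ y)⟩)
    have hcont : Tendsto (fun q : T × D N i => (q.1, rad q.2)) (𝓝 (t0, x0)) (𝓝 (t0, (0 : unitInterval))) := by
      have h1 : Continuous fun q : T × D N i => (q.1, rad q.2) :=
        Continuous.prodMk (by fun_prop) (Continuous.subtype_mk (by fun_prop) _)
      have h2 := h1.tendsto (t0, x0)
      have h3 : rad x0 = 0 := Subtype.ext (by simp [rad, hx])
      rwa [h3] at h2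
    refine Filter.mem_map.2 (mem_of_superset (hcont key) fun q hq' => ?_)
    show (if h : (q.2 : Fin N → ℂ) ≠ 0 then F (q.1, dirX q.2 h, rad q.2) else q0) ∈ U
    split_ifs with h
    · exact hU' (hq' _)
    · exact hU' hq

section ops

variable {N i al be c : ℕ} {a : Fin al → ℕ} {b : Fin be → ℕ}

/-- the obstruction: the parameter `0` becomes the radius -/
noncomputable def oo (a : Fin al → ℕ) (b : Fin be → ℕ) (N i c rho : ℕ) :
    BMap (YC N i a b c (Cu (rho + 1))) (CC N i al be c (Cu rho)) :=
  BMap.ofFormula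
    (fun f p => open Classical in
      if h : (p.1 : Fin N → ℂ) ≠ 0 then f (dirX p.1 h, p.2.1, Fin.cons (rad p.1) p.2.2)
      else ebase be c)
    (by
      have hcons : Continuous fun q : Cu rho × unitInterval => (Fin.cons q.2 q.1 : Cu (rho + 1)) := by
        refine continuous_pi fun j => ?_
        refine Fin.cases ?_ (fun k => ?_) j
        · simp only [Fin.cons_zero]; fun_prop
        · simp only [Fin.cons_succ]; fun_prop
      have h1 := polar_continuous (N := N) (i := i)
        (T := (YC N i a b c (Cu (rho + 1))).FS × Ball al c × Cu rho) (Q := V be c)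
        (fun q => q.1.1 (q.2.1, q.1.2.1, Fin.cons q.2.2 q.1.2.2))
        (contY (by fun_prop) (Continuous.prodMk (by fun_prop) (Continuous.prodMk (by fun_prop)
          (hcons.comp (f := fun q : ((YC N i a b c (Cu (rho + 1))).FS × Ball al c × Cu rho) ×
            X N i × unitInterval => (q.1.2.2, q.2.2)) (by fun_prop))))) (ebase be c)
        (fun t y => t.1.base (p := (y, t.2.1, Fin.cons 0 t.2.2)) (Or.inr ⟨0, Or.inl rfl⟩))
      exact h1.comp (f := fun q : (YC N i a b c (Cu (rho + 1))).FS × (D N i × Ball al c × Cu rho) =>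
        ((q.1, q.2.2.1, q.2.2.2), q.2.1)) (by fun_prop))
    (fun f p => by
      split_ifs with h
      · exact f.ne _
      · exact (YC N i a b c (Cu rho)).e_ne)
    (fun f p hp => by
      split_ifs with h
      · refine f.base ?_
        rcases hp with h1 | h1 | ⟨k, h1⟩
        · exact Or.inr ⟨0, Or.inr (Subtype.ext h1)⟩
        · exact Or.inl h1
        · exact Or.inr ⟨k.succ, h1⟩
      · rfl)
    (fun f => trivial)
    (fun p => by
      split_ifs <;> rfl)

theorem oo_apply_ne {rho : ℕ} (f : (YC N i a b c (Cu (rho + 1))).FS) (x : D N i) (v : Ball al c)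
    (k : Cu rho) (h : (x : Fin N → ℂ) ≠ 0) :
    (oo a b N i c rho).toFun f (x, v, k) = f (dirX x h, v, Fin.cons (rad x) k) := dif_pos h

theorem oo_apply_zero {rho : ℕ} (f : (YC N i a b c (Cu (rho + 1))).FS) (x : D N i) (v : Ball al c)
    (k : Cu rho) (h : (x : Fin N → ℂ) = 0) :
    (oo a b N i c rho).toFun f (x, v, k) = ebase be c :=
  dif_neg (fun h2 => h2 h)

/-- the other coordinates of a point of `X N (i+1)`, multiplied by the conjugate of the last one -/
noncomputable def cellPt (hi : i < N) (x : X N (i + 1)) : D N i :=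
  ⟨conj ((x : Fin N → ℂ) ⟨i, hi⟩) • Function.update (x : Fin N → ℂ) ⟨i, hi⟩ 0, by
    constructor
    · rw [norm_smul]
      have h1 : ‖conj ((x : Fin N → ℂ) ⟨i, hi⟩)‖ ≤ 1 := by
        rw [RCLike.norm_conj]
        exact (norm_le_pi_norm (x : Fin N → ℂ) _).trans x.2.1.le
      have h2 : ‖Function.update (x : Fin N → ℂ) ⟨i, hi⟩ 0‖ ≤ 1 := by
        rw [pi_norm_le_iff_of_nonneg zero_le_one]
        intro j
        rcases eq_or_ne j ⟨i, hi⟩ with rfl | h
        · simp
        · rw [Function.update_of_ne h]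
          exact (norm_le_pi_norm (x : Fin N → ℂ) _).trans x.2.1.le
      exact mul_le_one₀ h1 (norm_nonneg _) h2
    · intro j hj
      rcases eq_or_ne j ⟨i, hi⟩ with rfl | h
      · simp
      · have h3 : (x : Fin N → ℂ) j = 0 := by
          refine x.2.2 j ?_
          have : (j : ℕ) ≠ i := fun h4 => h (Fin.ext h4)
          omega
        simp [Function.update_of_ne h, h3]⟩

theorem norm_X_cases (hi : i < N) (x : X N (i + 1)) :
    ‖(x : Fin N → ℂ) ⟨i, hi⟩‖ = 1 ∨ ‖Function.update (x : Fin N → ℂ) ⟨i, hi⟩ 0‖ = 1 := by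
  have hle : ∀ j, ‖(x : Fin N → ℂ) j‖ ≤ 1 := fun j => (norm_le_pi_norm (x : Fin N → ℂ) _).trans x.2.1.le
  by_contra hc
  push Not at hc
  have h1 : ‖(x : Fin N → ℂ) ⟨i, hi⟩‖ < 1 := lt_of_le_of_ne (hle _) hc.1
  have h2 : ‖Function.update (x : Fin N → ℂ) ⟨i, hi⟩ 0‖ < 1 := by
    refine lt_of_le_of_ne ?_ hc.2
    rw [pi_norm_le_iff_of_nonneg zero_le_one]
    intro j
    rcases eq_or_ne j ⟨i, hi⟩ with rfl | h
    · simp
    · rw [Function.update_of_ne h]; exact hle j
  have h3 : ‖(x : Fin N → ℂ)‖ < 1 := by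
    rw [pi_norm_lt_iff one_pos]
    intro j
    rcases eq_or_ne j ⟨i, hi⟩ with rfl | h
    · exact h1
    · have := norm_le_pi_norm (Function.update (x : Fin N → ℂ) ⟨i, hi⟩ 0) j
      rw [Function.update_of_ne h] at this
      exact this.trans_lt h2
  exact h3.ne x.2.1

theorem continuous_coord (hi : i < N) :
    Continuous fun x : X N (i + 1) => (x : Fin N → ℂ) ⟨i, hi⟩ :=
  (continuous_apply (A := fun _ : Fin N => ℂ) ⟨i, hi⟩).comp continuous_subtype_val

theorem continuous_cellPt (hi : i < N) : Continuous (cellPt (N := N) hi) := by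
  refine Continuous.subtype_mk ?_ _
  refine Continuous.smul (Complex.continuous_conj.comp (continuous_coord hi)) ?_
  exact continuous_subtype_val.update _ continuous_const

theorem norm_coord_le (hi : i < N) (x : X N (i + 1)) : ‖conj ((x : Fin N → ℂ) ⟨i, hi⟩)‖ ≤ 1 := by
  rw [RCLike.norm_conj]
  exact (norm_le_pi_norm (x : Fin N → ℂ) _).trans x.2.1.le

/-- the formula of `jj` -/
noncomputable def jjF (a : Fin al → ℕ) (b : Fin be → ℕ) {K : Type} [TopologicalSpace K] [Par K]
    (hi : i < N) (f : (CC N i al be c K).FS) (p : X N (i + 1) × Ball al c × K) : V be c :=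
  open Classical in
  if ‖(p.1 : Fin N → ℂ) ⟨i, hi⟩‖ = 1 then
    rotV b ((p.1 : Fin N → ℂ) ⟨i, hi⟩)
      (f (cellPt hi p.1, rotB a (conj ((p.1 : Fin N → ℂ) ⟨i, hi⟩)) (norm_coord_le hi p.1) p.2.1, p.2.2))
  else ebase be c

variable {K : Type} [TopologicalSpace K] [Par K]

theorem jjF_of_norm (hi : i < N) (f : (CC N i al be c K).FS) (p : X N (i + 1) × Ball al c × K)
    (h : ‖Function.update (p.1 : Fin N → ℂ) ⟨i, hi⟩ 0‖ = 1) : jjF a b hi f p = ebase be c := by
  unfold jjF
  split_ifs with h1
  · rw [f.base (p := (cellPt hi p.1, _, p.2.2)), show (CC N i al be c K).e = ebase be c from rfl,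
      rotV_ebase]
    left
    show ‖conj ((p.1 : Fin N → ℂ) ⟨i, hi⟩) • Function.update (p.1 : Fin N → ℂ) ⟨i, hi⟩ 0‖ = 1
    rw [norm_smul, RCLike.norm_conj, h1, h, one_mul]
  · rfl

/-- maps supported on the new cell -/
noncomputable def jj (a : Fin al → ℕ) (b : Fin be → ℕ) {N i : ℕ} (hi : i < N) (c : ℕ) (K : Type)
    [TopologicalSpace K] [Par K] [CompactSpace K] [T2Space K] :
    BMap (CC N i al be c K) (YC N (i + 1) a b c K) :=
  BMap.ofFormula (fun f p => jjF a b hi f p)
    (by
      refine continuous_of_closed_cover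
        (A := {q : (CC N i al be c K).FS × (X N (i + 1) × Ball al c × K) |
          ‖(q.2.1 : Fin N → ℂ) ⟨i, hi⟩‖ = 1})
        (B := {q : (CC N i al be c K).FS × (X N (i + 1) × Ball al c × K) |
          ‖Function.update (q.2.1 : Fin N → ℂ) ⟨i, hi⟩ 0‖ = 1}) ?_ ?_ ?_ ?_ ?_
      · exact isClosed_eq ((continuous_coord hi).norm.comp (by fun_prop)) continuous_const
      · refine isClosed_eq (Continuous.norm ?_) continuous_const
        exact (continuous_subtype_val.comp (by fun_prop)).update _ continuous_const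
      · exact fun q => norm_X_cases hi q.2.1
      · have h1 : Continuous fun q : (CC N i al be c K).FS × (X N (i + 1) × Ball al c × K) =>
            rotV b ((q.2.1 : Fin N → ℂ) ⟨i, hi⟩)
              (q.1 (cellPt hi q.2.1, rotB a (conj ((q.2.1 : Fin N → ℂ) ⟨i, hi⟩))
                (norm_coord_le hi q.2.1) q.2.2.1, q.2.2.2)) := by
          have hq : Continuous fun q : (CC N i al be c K).FS × (X N (i + 1) × Ball al c × K) =>
              (q.2.1 : Fin N → ℂ) ⟨i, hi⟩ := (continuous_coord hi).comp (by fun_prop)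
          refine (continuous_rotV b).comp (Continuous.prodMk hq ?_)
          refine contC continuous_fst (Continuous.prodMk ((continuous_cellPt hi).comp (by fun_prop))
            (Continuous.prodMk ?_ (by fun_prop)))
          refine Continuous.subtype_mk (Continuous.prodMk ?_ (by fun_prop)) _
          exact (continuous_rot a).comp (Continuous.prodMk
            (Complex.continuous_conj.comp hq) (by fun_prop))
        refine h1.continuousOn.congr fun q hq => ?_
        exact if_pos hq
      · refine (continuous_const (y := ebase be c)).continuousOn.congr fun q hq => ?_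
        exact jjF_of_norm hi q.1 q.2 hq)
    (fun f p => by
      show jjF a b hi f p ≠ 0
      unfold jjF
      split_ifs with h
      · intro h2
        have h3 := norm_rotV b h (f (cellPt hi p.1, rotB a (conj ((p.1 : Fin N → ℂ) ⟨i, hi⟩))
          (norm_coord_le hi p.1) p.2.1, p.2.2))
        rw [h2, norm_zero] at h3
        exact f.ne _ (norm_eq_zero.1 h3.symm)
      · exact (CC N i al be c K).e_ne)
    (fun f p hp => by
      show jjF a b hi f p = ebase be c
      unfold jjF
      split_ifs with h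
      · rw [f.base, show (CC N i al be c K).e = ebase be c from rfl, rotV_ebase]
        rcases hp with h1 | h1
        · refine Or.inr (Or.inl ?_)
          show ‖((rot a (conj ((p.1 : Fin N → ℂ) ⟨i, hi⟩)) (p.2.1 : W al c).1, (p.2.1 : W al c).2) : W al c)‖ = 1
          rw [Prod.norm_def, norm_rot a (by rw [RCLike.norm_conj, h]), ← Prod.norm_def]
          exact h1
        · exact Or.inr (Or.inr h1)
      · rfl)
    (fun f t ht p p' h1 h2 h3 => by
      show jjF a b hi f p' = rotV b t (jjF a b hi f p)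
      have hx : (p'.1 : Fin N → ℂ) ⟨i, hi⟩ = t * (p.1 : Fin N → ℂ) ⟨i, hi⟩ := by
        rw [h1]; rfl
      have hn : ‖(p'.1 : Fin N → ℂ) ⟨i, hi⟩‖ = ‖(p.1 : Fin N → ℂ) ⟨i, hi⟩‖ := by
        rw [hx, norm_mul, ht, one_mul]
      have htt : conj t * t = 1 := by
        rw [mul_comm, Complex.mul_conj, Complex.normSq_eq_norm_sq, ht]; simp
      unfold jjF
      rw [hn]
      split_ifs with h
      · have e1 : cellPt hi p'.1 = cellPt hi p.1 := by
          apply Subtype.ext
          show conj ((p'.1 : Fin N → ℂ) ⟨i, hi⟩) • Function.update (p'.1 : Fin N → ℂ) ⟨i, hi⟩ 0 =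
            conj ((p.1 : Fin N → ℂ) ⟨i, hi⟩) • Function.update (p.1 : Fin N → ℂ) ⟨i, hi⟩ 0
          rw [hx, map_mul, h1]
          funext j
          rcases eq_or_ne j ⟨i, hi⟩ with rfl | hj
          · simp
          · simp only [Pi.smul_apply, Function.update_of_ne hj, smul_eq_mul]
            calc conj t * conj ((p.1 : Fin N → ℂ) ⟨i, hi⟩) * (t * (p.1 : Fin N → ℂ) j)
                = (conj t * t) * (conj ((p.1 : Fin N → ℂ) ⟨i, hi⟩) * (p.1 : Fin N → ℂ) j) := by ring
              _ = _ := by rw [htt, one_mul]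
        have e2 : rotB a (conj ((p'.1 : Fin N → ℂ) ⟨i, hi⟩)) (norm_coord_le hi p'.1) p'.2.1 =
            rotB a (conj ((p.1 : Fin N → ℂ) ⟨i, hi⟩)) (norm_coord_le hi p.1) p.2.1 := by
          apply Subtype.ext
          show ((rot a (conj ((p'.1 : Fin N → ℂ) ⟨i, hi⟩)) (p'.2.1 : W al c).1, (p'.2.1 : W al c).2) : W al c) =
            (rot a (conj ((p.1 : Fin N → ℂ) ⟨i, hi⟩)) (p.2.1 : W al c).1, (p.2.1 : W al c).2)
          rw [h2, hx, map_mul]
          simp only
          rw [← rot_mul, mul_right_comm, htt, one_mul]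
        rw [e1, e2, h3, ← rotV_mul, ← hx]
      · rw [rotV_ebase])
    (fun p => by
      show jjF a b hi (CC N i al be c K).pt p = ebase be c
      unfold jjF
      split_ifs with h
      · exact rotV_ebase b _
      · rfl)

theorem jj_apply (hi : i < N) (K : Type) [TopologicalSpace K] [Par K] [CompactSpace K] [T2Space K]
    (f : (CC N i al be c K).FS) (p : X N (i + 1) × Ball al c × K) :
    (jj a b hi c K).toFun f p = jjF a b hi f p := rfl

end ops

end MP5f.S4
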