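import Mathlib
import Pool.Agent.H.MP_5f9601_gt.U.FJO
import Pool.Agent.H.MP_5f9601_gt.U.JGeo

/-!
# Exactness of `j` (section 4 of helper47's proof), function level

`EX hi a b c K` = pairs `(f, g)`, `f` in the space `Y_{i+1}`, `g` a path in `Y_i` from the restriction
of `f` to the base point. `FF f g t` (formula of helper48) is a homotopy in `Y_{i+1}` from `f` to
`j (QQ f g)`, natural in `(f, g)`.
-/

set_option autoImplicit false

open Set Topology

namespace MP5f.S4.J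

open Pool.Agent.H.MP_5f9601_gt.U.JX

section

variable {N i al be : ℕ} {c : ℕ} {K : Type} [TopologicalSpace K] [Par K]

/-- the last coordinate index -/
abbrev lastIdx (hi : i < N) : Fin N := ⟨i, hi⟩

theorem x0_zero_of {hi : i < N} {x : Fin N → ℂ} (hx : ∀ j : Fin N, i + 1 ≤ (j : ℕ) → x j = 0)
    (j : Fin N) (hj : i ≤ (j : ℕ)) : x0 (lastIdx hi) x j = 0 := by
  rcases eq_or_ne j (lastIdx hi) with h | h
  · rw [h, x0_self]
  · rw [x0_apply_of_ne h]
    apply hx
    have : (j : ℕ) ≠ i := fun hcon => h (Fin.ext hcon)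
    omega

/-- the inclusion `X N i ⊆ X N (i+1)` with parameters -/
def incl1 (p : X N i × Ball al c × K) : X N (i + 1) × Ball al c × K :=
  (inclX (Nat.le_succ i) p.1, p.2)

theorem half_le_of {t : unitInterval} {r : ℝ} (h : 1 ≤ 2 * (t : ℝ) * r) : 1 / 2 ≤ r := by
  have h1 := t.2.1
  have h2 := t.2.2
  by_contra hcon
  push Not at hcon
  rcases le_or_gt 0 r with h3 | h3
  · nlinarith
  · nlinarith

/-- `x'/|x'|` as a point of `X N i` -/
theorem ptA_mem {hi : i < N} {x : Fin N → ℂ} (hx : x ∈ X N (i + 1)) {t : unitInterval}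
    (h : 1 ≤ 2 * (t : ℝ) * ‖x0 (lastIdx hi) x‖) : nn (x0 (lastIdx hi) x) ∈ X N i := by
  have h1 := half_le_of h
  exact ⟨norm_nn (by linarith), fun j hj => nn_apply_eq_zero (x0_zero_of (hi := hi) hx.2 j hj)⟩

/-- `N (x', c ξ)` as a point of `X N (i+1)` -/
theorem ptB_mem {hi : i < N} {x : Fin N → ℂ} (hx : x ∈ X N (i + 1)) (t : unitInterval) :
    nn (yy (lastIdx hi) t x) ∈ X N (i + 1) := by
  refine ⟨norm_nn (third_le_norm_yy t.2.1 t.2.2 hx.1), fun j hj => nn_apply_eq_zero ?_⟩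
  have hne : j ≠ lastIdx hi := by
    intro hcon
    rw [hcon] at hj
    simp only at hj
    omega
  rw [yy_apply_of_ne hne]
  exact hx.2 j hj

variable (hi : i < N) (a : Fin al → ℕ) (b : Fin be → ℕ)

/-- the homotopy -/
noncomputable def FF (f : (YC N (i + 1) a b c K).FS) (g : C(unitInterval, (YC N i a b c K).FS))
    (t : unitInterval) (p : X N (i + 1) × Ball al c × K) : V be c :=
  open Classical in
  if h : 1 ≤ 2 * (t : ℝ) * ‖x0 (lastIdx hi) (p.1 : Fin N → ℂ)‖ then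
    g (projIcc 0 1 zero_le_one (2 * (t : ℝ) * ‖x0 (lastIdx hi) (p.1 : Fin N → ℂ)‖ - 1))
      (⟨_, ptA_mem p.1.2 h⟩, p.2)
  else f (⟨_, ptB_mem (hi := hi) p.1.2 t⟩, p.2)

theorem FF_ge (f : (YC N (i + 1) a b c K).FS) (g : C(unitInterval, (YC N i a b c K).FS))
    (t : unitInterval) (p : X N (i + 1) × Ball al c × K)
    (h : 1 ≤ 2 * (t : ℝ) * ‖x0 (lastIdx hi) (p.1 : Fin N → ℂ)‖) : FF hi a b f g t p =
    g (projIcc 0 1 zero_le_one (2 * (t : ℝ) * ‖x0 (lastIdx hi) (p.1 : Fin N → ℂ)‖ - 1))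
      (⟨_, ptA_mem p.1.2 h⟩, p.2) := by
  rw [FF, dif_pos h]

theorem FF_not (f : (YC N (i + 1) a b c K).FS) (g : C(unitInterval, (YC N i a b c K).FS))
    (t : unitInterval) (p : X N (i + 1) × Ball al c × K)
    (h : ¬ 1 ≤ 2 * (t : ℝ) * ‖x0 (lastIdx hi) (p.1 : Fin N → ℂ)‖) : FF hi a b f g t p =
    f (⟨_, ptB_mem (hi := hi) p.1.2 t⟩, p.2) := by
  rw [FF, dif_neg h]

/-- on the overlap the two formulas agree -/
theorem FF_le (f : (YC N (i + 1) a b c K).FS) (g : C(unitInterval, (YC N i a b c K).FS))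
    (hg : ∀ q, g 0 q = f (incl1 q)) (t : unitInterval) (p : X N (i + 1) × Ball al c × K)
    (h : 2 * (t : ℝ) * ‖x0 (lastIdx hi) (p.1 : Fin N → ℂ)‖ ≤ 1) : FF hi a b f g t p =
    f (⟨_, ptB_mem (hi := hi) p.1.2 t⟩, p.2) := by
  by_cases h2 : 1 ≤ 2 * (t : ℝ) * ‖x0 (lastIdx hi) (p.1 : Fin N → ℂ)‖
  · rw [FF_ge hi a b f g t p h2]
    have h3 : 2 * (t : ℝ) * ‖x0 (lastIdx hi) (p.1 : Fin N → ℂ)‖ - 1 = 0 := by linarith
    have h4 : projIcc (0 : ℝ) 1 zero_le_one
        (2 * (t : ℝ) * ‖x0 (lastIdx hi) (p.1 : Fin N → ℂ)‖ - 1) = 0 := by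
      apply Subtype.ext
      rw [coe_projIcc, h3]
      simp
    rw [h4, hg]
    congr 1
    refine Prod.ext (Subtype.ext ?_) rfl
    change nn (x0 (lastIdx hi) (p.1 : Fin N → ℂ)) = nn (yy (lastIdx hi) t (p.1 : Fin N → ℂ))
    rw [yy_eq_x0 h2]
  · exact FF_not hi a b f g t p h2

theorem FF_zero (f : (YC N (i + 1) a b c K).FS) (g : C(unitInterval, (YC N i a b c K).FS))
    (p : X N (i + 1) × Ball al c × K) : FF hi a b f g 0 p = f p := by
  have h2 : ¬ 1 ≤ 2 * ((0 : unitInterval) : ℝ) * ‖x0 (lastIdx hi) (p.1 : Fin N → ℂ)‖ := by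
    simp
  rw [FF_not hi a b f g 0 p h2]
  congr 1
  refine Prod.ext (Subtype.ext ?_) rfl
  change nn (yy (lastIdx hi) ((0 : unitInterval) : ℝ) (p.1 : Fin N → ℂ)) = (p.1 : Fin N → ℂ)
  rw [show ((0 : unitInterval) : ℝ) = 0 from rfl, yy_zero, nn_of_norm_eq_one p.1.2.1]

theorem FF_one (f : (YC N (i + 1) a b c K).FS) (g : C(unitInterval, (YC N i a b c K).FS))
    (hg1 : g 1 = (YC N i a b c K).pt) (p : X N (i + 1) × Ball al c × K)
    (h : ‖x0 (lastIdx hi) (p.1 : Fin N → ℂ)‖ = 1) : FF hi a b f g 1 p = ebase be c := by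
  have h2 : 1 ≤ 2 * ((1 : unitInterval) : ℝ) * ‖x0 (lastIdx hi) (p.1 : Fin N → ℂ)‖ := by
    rw [h, show ((1 : unitInterval) : ℝ) = 1 from rfl]; norm_num
  rw [FF_ge hi a b f g 1 p h2]
  have h4 : projIcc (0 : ℝ) 1 zero_le_one
      (2 * ((1 : unitInterval) : ℝ) * ‖x0 (lastIdx hi) (p.1 : Fin N → ℂ)‖ - 1) = 1 := by
    apply Subtype.ext
    rw [coe_projIcc, h, show ((1 : unitInterval) : ℝ) = 1 from rfl]
    norm_num
  rw [h4, hg1]
  rfl

theorem FF_base (f : (YC N (i + 1) a b c K).FS) (g : C(unitInterval, (YC N i a b c K).FS))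
    (t : unitInterval) (p : X N (i + 1) × Ball al c × K)
    (h : ‖(p.2.1 : W al c)‖ = 1 ∨ Par.bd p.2.2) : FF hi a b f g t p = ebase be c := by
  by_cases h2 : 1 ≤ 2 * (t : ℝ) * ‖x0 (lastIdx hi) (p.1 : Fin N → ℂ)‖
  · rw [FF_ge hi a b f g t p h2]
    exact Ctx.FS.base _ h
  · rw [FF_not hi a b f g t p h2]
    exact f.base h

theorem FF_ne (f : (YC N (i + 1) a b c K).FS) (g : C(unitInterval, (YC N i a b c K).FS))
    (t : unitInterval) (p : X N (i + 1) × Ball al c × K) : FF hi a b f g t p ≠ 0 := by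
  by_cases h2 : 1 ≤ 2 * (t : ℝ) * ‖x0 (lastIdx hi) (p.1 : Fin N → ℂ)‖
  · rw [FF_ge hi a b f g t p h2]
    exact Ctx.FS.ne _ _
  · rw [FF_not hi a b f g t p h2]
    exact f.ne _

theorem FF_eqv (f : (YC N (i + 1) a b c K).FS) (g : C(unitInterval, (YC N i a b c K).FS))
    (t : unitInterval) : (YC N (i + 1) a b c K).E (FF hi a b f g t) := by
  intro s hs p p' hx hv hk
  have hn : ‖x0 (lastIdx hi) (p'.1 : Fin N → ℂ)‖ = ‖x0 (lastIdx hi) (p.1 : Fin N → ℂ)‖ := by
    rw [hx, norm_x0_smul _ s hs]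
  by_cases h2 : 1 ≤ 2 * (t : ℝ) * ‖x0 (lastIdx hi) (p.1 : Fin N → ℂ)‖
  · have h3 : 1 ≤ 2 * (t : ℝ) * ‖x0 (lastIdx hi) (p'.1 : Fin N → ℂ)‖ := by rwa [hn]
    rw [FF_ge hi a b f g t p h2, FF_ge hi a b f g t p' h3, hn]
    refine (g _).eqv s hs _ _ ?_ hv hk
    change nn (x0 (lastIdx hi) (p'.1 : Fin N → ℂ)) = s • nn (x0 (lastIdx hi) (p.1 : Fin N → ℂ))
    rw [hx, x0_smul, nn_smul s hs]
  · have h3 : ¬ 1 ≤ 2 * (t : ℝ) * ‖x0 (lastIdx hi) (p'.1 : Fin N → ℂ)‖ := by rwa [hn]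
    rw [FF_not hi a b f g t p h2, FF_not hi a b f g t p' h3]
    refine f.eqv s hs _ _ ?_ hv hk
    change nn (yy (lastIdx hi) t (p'.1 : Fin N → ℂ)) = s • nn (yy (lastIdx hi) t (p.1 : Fin N → ℂ))
    rw [hx, yy_smul _ _ s hs, nn_smul s hs]

theorem FF_pt (t : unitInterval) (p : X N (i + 1) × Ball al c × K) :
    FF hi a b (YC N (i + 1) a b c K).pt (ContinuousMap.const _ (YC N i a b c K).pt) t p =
      ebase be c := by
  by_cases h2 : 1 ≤ 2 * (t : ℝ) * ‖x0 (lastIdx hi) (p.1 : Fin N → ℂ)‖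
  · rw [FF_ge hi a b _ _ t p h2]
    rfl
  · rw [FF_not hi a b _ _ t p h2]
    rfl

/-- the space of pairs `(f, g)` -/
abbrev EX (N i : ℕ) {al be : ℕ} (a : Fin al → ℕ) (b : Fin be → ℕ) (c : ℕ) (K : Type)
    [TopologicalSpace K] [Par K] : Type :=
  {q : (YC N (i + 1) a b c K).FS × C(unitInterval, (YC N i a b c K).FS) //
    (∀ p, q.2 0 p = q.1 (incl1 p)) ∧ q.2 1 = (YC N i a b c K).pt}

theorem continuous_FF [CompactSpace K] [T2Space K] :
    Continuous (fun q : (EX N i a b c K × unitInterval) × (X N (i + 1) × Ball al c × K) =>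
      FF hi a b q.1.1.1.1 q.1.1.1.2 q.1.2 q.2) := by
  have hx : Continuous fun q : (EX N i a b c K × unitInterval) × (X N (i + 1) × Ball al c × K) =>
      (q.2.1 : Fin N → ℂ) := continuous_subtype_val.comp (continuous_fst.comp continuous_snd)
  have ht : Continuous fun q : (EX N i a b c K × unitInterval) × (X N (i + 1) × Ball al c × K) =>
      (q.1.2 : ℝ) := continuous_subtype_val.comp (continuous_snd.comp continuous_fst)
  have hf : Continuous fun q : (EX N i a b c K × unitInterval) × (X N (i + 1) × Ball al c × K) =>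
      q.1.1.1.1 := continuous_fst.comp (continuous_subtype_val.comp
        (continuous_fst.comp continuous_fst))
  have hg : Continuous fun q : (EX N i a b c K × unitInterval) × (X N (i + 1) × Ball al c × K) =>
      q.1.1.1.2 := continuous_snd.comp (continuous_subtype_val.comp
        (continuous_fst.comp continuous_fst))
  have h0 : Continuous fun q : (EX N i a b c K × unitInterval) × (X N (i + 1) × Ball al c × K) =>
      x0 (lastIdx hi) (q.2.1 : Fin N → ℂ) := (continuous_x0 _).comp hx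
  have hm : Continuous fun q : (EX N i a b c K × unitInterval) × (X N (i + 1) × Ball al c × K) =>
      2 * (q.1.2 : ℝ) * ‖x0 (lastIdx hi) (q.2.1 : Fin N → ℂ)‖ :=
    (continuous_const.mul ht).mul h0.norm
  refine continuous_of_closed_cover
    (A := {q : (EX N i a b c K × unitInterval) × (X N (i + 1) × Ball al c × K) |
      1 ≤ 2 * (q.1.2 : ℝ) * ‖x0 (lastIdx hi) (q.2.1 : Fin N → ℂ)‖})
    (B := {q : (EX N i a b c K × unitInterval) × (X N (i + 1) × Ball al c × K) |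
      2 * (q.1.2 : ℝ) * ‖x0 (lastIdx hi) (q.2.1 : Fin N → ℂ)‖ ≤ 1})
    (isClosed_le continuous_const hm) (isClosed_le hm continuous_const)
    (fun q => le_total 1 (2 * (q.1.2 : ℝ) * ‖x0 (lastIdx hi) (q.2.1 : Fin N → ℂ)‖)) ?_ ?_
  · rw [continuousOn_iff_continuous_domRestrict]
    have e1 : Continuous fun q : {q : (EX N i a b c K × unitInterval) ×
        (X N (i + 1) × Ball al c × K) |
          1 ≤ 2 * (q.1.2 : ℝ) * ‖x0 (lastIdx hi) (q.2.1 : Fin N → ℂ)‖} =>
        (q.1.1.1.1.2 (projIcc 0 1 zero_le_one (2 * (q.1.1.2 : ℝ) *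
          ‖x0 (lastIdx hi) (q.1.2.1 : Fin N → ℂ)‖ - 1)))
          (⟨nn (x0 (lastIdx hi) (q.1.2.1 : Fin N → ℂ)), ptA_mem q.1.2.1.2 q.2⟩, q.1.2.2) := by
      have e2 : Continuous fun r : C(unitInterval, (YC N i a b c K).FS) × unitInterval =>
          r.1 r.2 := ContinuousEval.continuous_eval
      refine ((YC N i a b c K).continuous_eval).comp (Continuous.prodMk ?_ (Continuous.prodMk
        (Continuous.subtype_mk ?_ _) ?_))
      · have e3 : Continuous fun q : {q : (EX N i a b c K × unitInterval) ×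
            (X N (i + 1) × Ball al c × K) |
            1 ≤ 2 * (q.1.2 : ℝ) * ‖x0 (lastIdx hi) (q.2.1 : Fin N → ℂ)‖} =>
            projIcc (0 : ℝ) 1 zero_le_one (2 * (q.1.1.2 : ℝ) *
              ‖x0 (lastIdx hi) (q.1.2.1 : Fin N → ℂ)‖ - 1) :=
          continuous_projIcc.comp ((hm.comp continuous_subtype_val).sub continuous_const)
        exact e2.comp ((hg.comp continuous_subtype_val).prodMk e3)
      · exact continuous_nn.comp (h0.comp continuous_subtype_val)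
      · exact (continuous_snd.comp continuous_snd).comp continuous_subtype_val
    refine e1.congr fun q => ?_
    exact (FF_ge hi a b _ _ _ _ q.2).symm
  · have e1 : Continuous fun q : (EX N i a b c K × unitInterval) ×
        (X N (i + 1) × Ball al c × K) =>
        q.1.1.1.1 (⟨nn (yy (lastIdx hi) q.1.2 (q.2.1 : Fin N → ℂ)),
          ptB_mem (hi := hi) q.2.1.2 q.1.2⟩, q.2.2) := by
      refine ((YC N (i + 1) a b c K).continuous_eval).comp (hf.prodMk (Continuous.prodMk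
        (Continuous.subtype_mk ?_ _) (continuous_snd.comp continuous_snd)))
      exact continuous_nn.comp ((continuous_yy _).comp (ht.prodMk hx))
    exact e1.continuousOn.congr fun q hq => FF_le hi a b _ _ q.1.1.2.1 _ _ hq

end

end MP5f.S4.J
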