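import Mathlib
import Pool.Agent.H.MP_5f9601_gt.U.JEx

/-!
# Exactness of `j` (section 4 of helper47's proof), the cell map `QQ`

`QQ f g (x'; v; k) = FF f g 1 ((x', 1); v; k)` lies in `C_i` and `j (QQ f g) = FF f g 1`.
-/

set_option autoImplicit false

open Set Topology

namespace MP5f.S4.J

open Pool.Agent.H.MP_5f9601_gt.U.JX

section

variable {N i al be : ℕ} {c : ℕ} {K : Type} [TopologicalSpace K] [Par K]

theorem x0_update (k : Fin N) (x : Fin N → ℂ) (z : ℂ) (hx : x k = 0) :
    x0 k (Function.update x k z) = x := by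
  unfold x0
  rw [Function.update_idem]
  rw [← hx, Function.update_eq_self]

/-- `(x', 1)` for `x'` in the cell -/
theorem upd_mem {hi : i < N} {x : Fin N → ℂ} (hx : x ∈ D N i) :
    Function.update x (lastIdx hi) 1 ∈ X N (i + 1) := by
  constructor
  · rw [Pool.Agent.H.MP_5f9601_gt.U.JX.norm_update]
    have h : x0 (lastIdx hi) x = x := by
      have := x0_update (lastIdx hi) x (x (lastIdx hi)) (hx.2 _ le_rfl)
      rwa [Function.update_eq_self] at this
    rw [h, norm_one]
    exact max_eq_right hx.1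
  · intro j hj
    have hne : j ≠ lastIdx hi := by
      intro hcon
      rw [hcon] at hj
      simp only at hj
      omega
    rw [Function.update_of_ne hne]
    exact hx.2 j (by omega)

variable (hi : i < N) (a : Fin al → ℕ) (b : Fin be → ℕ)

/-- the inclusion of the cell at `ξ = 1` -/
noncomputable def updX (p : D N i × Ball al c × K) : X N (i + 1) × Ball al c × K :=
  (⟨_, upd_mem (hi := hi) p.1.2⟩, p.2)

omit [Par K] in
theorem continuous_updX :
    Continuous (updX hi : D N i × Ball al c × K → X N (i + 1) × Ball al c × K) := by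
  refine Continuous.prodMk (Continuous.subtype_mk ?_ _) continuous_snd
  exact (continuous_subtype_val.comp continuous_fst).update _ continuous_const

/-- the cell map -/
noncomputable def QQ (f : (YC N (i + 1) a b c K).FS) (g : C(unitInterval, (YC N i a b c K).FS))
    (p : D N i × Ball al c × K) : V be c := FF hi a b f g 1 (updX hi p)

theorem QQ_base (f : (YC N (i + 1) a b c K).FS) (g : C(unitInterval, (YC N i a b c K).FS))
    (hg1 : g 1 = (YC N i a b c K).pt) (p : D N i × Ball al c × K)
    (hp : (CC N i al be c K).P0 p) : QQ hi a b f g p = ebase be c := by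
  rcases hp with hp | hp
  · apply FF_one hi a b f g hg1
    change ‖x0 (lastIdx hi) (Function.update (p.1 : Fin N → ℂ) (lastIdx hi) 1)‖ = 1
    rw [x0_update _ _ _ (p.1.2.2 _ le_rfl)]
    exact hp
  · exact FF_base hi a b f g 1 _ hp

theorem mul_conj_of_norm {t : ℂ} (ht : ‖t‖ = 1) : t * starRingEnd ℂ t = 1 := by
  rw [Complex.mul_conj, Complex.normSq_eq_norm_sq, ht]
  simp

/-- the formula for `j` on `QQ` -/
theorem FF_one_eq (f : (YC N (i + 1) a b c K).FS) (g : C(unitInterval, (YC N i a b c K).FS))
    (p : X N (i + 1) × Ball al c × K)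
    (h : ‖(p.1 : Fin N → ℂ) (lastIdx hi)‖ = 1) :
    rotV b ((p.1 : Fin N → ℂ) (lastIdx hi)) (QQ hi a b f g
      (cellPt hi p.1, rotB a (starRingEnd ℂ ((p.1 : Fin N → ℂ) ⟨i, hi⟩)) (norm_coord_le hi p.1) p.2.1,
        p.2.2)) =
      FF hi a b f g 1 p := by
  set s := (p.1 : Fin N → ℂ) (lastIdx hi) with hs
  have hc : ‖starRingEnd ℂ s‖ = 1 := by rw [RCLike.norm_conj]; exact h
  have e : QQ hi a b f g (cellPt hi p.1, rotB a (starRingEnd ℂ ((p.1 : Fin N → ℂ) ⟨i, hi⟩))
      (norm_coord_le hi p.1) p.2.1, p.2.2) =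
      rotV b (starRingEnd ℂ s) (FF hi a b f g 1 p) := by
    refine FF_eqv hi a b f g 1 (starRingEnd ℂ s) hc p (updX hi (cellPt hi p.1,
      rotB a (starRingEnd ℂ ((p.1 : Fin N → ℂ) ⟨i, hi⟩)) (norm_coord_le hi p.1) p.2.1, p.2.2)) ?_
      rfl rfl
    change Function.update (starRingEnd ℂ ((p.1 : Fin N → ℂ) (lastIdx hi)) •
      x0 (lastIdx hi) (p.1 : Fin N → ℂ)) (lastIdx hi) 1 = starRingEnd ℂ s • (p.1 : Fin N → ℂ)
    funext j
    rcases eq_or_ne j (lastIdx hi) with hj | hj
    · rw [hj, Function.update_self, Pi.smul_apply, smul_eq_mul, ← hs, mul_comm,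
        mul_conj_of_norm h]
    · rw [Function.update_of_ne hj, Pi.smul_apply, Pi.smul_apply, x0_apply_of_ne hj]
  rw [e, ← rotV_mul, mul_conj_of_norm h, rotV_one]

variable [CompactSpace K] [T2Space K]

/-- the cell map as a continuous function of the pair `(f, g)` -/
noncomputable def Qc : C(EX N i a b c K, (CC N i al be c K).FS) where
  toFun q :=
    { map := ⟨QQ hi a b q.1.1 q.1.2, by
        have h := (continuous_FF hi a b (c := c) (K := K)).comp
          (f := fun p : D N i × Ball al c × K => ((q, (1 : unitInterval)), updX hi p))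
          (Continuous.prodMk continuous_const (continuous_updX hi))
        exact h⟩
      ne' := fun p => FF_ne hi a b _ _ _ _
      base' := fun p hp => QQ_base hi a b _ _ q.2.2 p hp
      eqv' := trivial }
  continuous_toFun := by
    refine continuous_induced_rng.2 ?_
    refine ContinuousMap.continuous_of_continuous_uncurry _ ?_
    have h := (continuous_FF hi a b (c := c) (K := K)).comp
      (f := fun q : EX N i a b c K × (D N i × Ball al c × K) =>
        ((q.1, (1 : unitInterval)), updX hi q.2))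
      (Continuous.prodMk (Continuous.prodMk continuous_fst continuous_const)
        ((continuous_updX hi).comp continuous_snd))
    exact h

/-- the homotopy as a continuous function of `((f, g), t)` -/
noncomputable def Hc : C(EX N i a b c K × unitInterval, (YC N (i + 1) a b c K).FS) where
  toFun q :=
    { map := ⟨FF hi a b q.1.1.1 q.1.1.2 q.2, by
        have h := (continuous_FF hi a b (c := c) (K := K)).comp
          (f := fun p : X N (i + 1) × Ball al c × K => (q, p))
          (Continuous.prodMk continuous_const continuous_id)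
        exact h⟩
      ne' := fun p => FF_ne hi a b _ _ _ _
      base' := fun p hp => FF_base hi a b _ _ _ p hp
      eqv' := FF_eqv hi a b _ _ _ }
  continuous_toFun := by
    refine continuous_induced_rng.2 ?_
    exact ContinuousMap.continuous_of_continuous_uncurry _ (continuous_FF hi a b)

theorem Hc_apply (q : EX N i a b c K × unitInterval) (p : X N (i + 1) × Ball al c × K) :
    Hc hi a b q p = FF hi a b q.1.1.1 q.1.1.2 q.2 p := rfl

theorem Hc_zero (q : EX N i a b c K) : Hc hi a b (q, 0) = q.1.1 :=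
  Ctx.FS.ext fun p => FF_zero hi a b _ _ p

theorem Hc_one (q : EX N i a b c K) : Hc hi a b (q, 1) = (jj a b hi c K).toFun (Qc hi a b q) := by
  apply Ctx.FS.ext
  intro p
  rw [Hc_apply, jj_apply]
  by_cases h : ‖(p.1 : Fin N → ℂ) ⟨i, hi⟩‖ = 1
  · have e : jjF a b hi (Qc hi a b q) p = rotV b ((p.1 : Fin N → ℂ) ⟨i, hi⟩)
        (Qc hi a b q (cellPt hi p.1, rotB a (starRingEnd ℂ ((p.1 : Fin N → ℂ) ⟨i, hi⟩))
          (norm_coord_le hi p.1) p.2.1, p.2.2)) := if_pos h
    rw [e]
    exact (FF_one_eq hi a b q.1.1 q.1.2 p h).symm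
  · have h2 : ‖x0 (lastIdx hi) (p.1 : Fin N → ℂ)‖ = 1 := (norm_X_cases hi p.1).resolve_left h
    rw [jjF_of_norm hi _ p h2]
    exact FF_one hi a b _ _ q.2.2 p h2

/-- the base point of the space of pairs -/
noncomputable def ptE (N i : ℕ) {al be : ℕ} (a : Fin al → ℕ) (b : Fin be → ℕ) (c : ℕ) (K : Type)
    [TopologicalSpace K] [Par K] : EX N i a b c K :=
  ⟨((YC N (i + 1) a b c K).pt, ContinuousMap.const _ (YC N i a b c K).pt),
    fun _ => rfl, rfl⟩

theorem Hc_pt (t : unitInterval) :
    Hc hi a b (ptE N i a b c K, t) = (YC N (i + 1) a b c K).pt :=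
  Ctx.FS.ext fun p => FF_pt hi a b t p

theorem Qc_pt : Qc hi a b (ptE N i a b c K) = (CC N i al be c K).pt :=
  Ctx.FS.ext fun p => FF_pt hi a b 1 (updX hi p)

end

end MP5f.S4.J
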