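import Pool.Agent.H.MP_5f9601_gt.U.FPi
import Pool.Agent.H.MP_5f9601_gt.U.JEx2

/-!
MP_5f9601, section 4: exactness of `jj` (helper68).
-/

set_option autoImplicit false

open Set Topology ComplexConjugate

namespace MP5f.S4

/-- a representative of the zero class is null homotopic -/
theorem Rep.null_of_cls_eq_zero {P V : Type} [TopologicalSpace P] [NormedAddCommGroup V]
    {c : Ctx P V} (r : Rep c) (h : r.cls = 0) :
    ∃ H : C(unitInterval × (Fin 2 → unitInterval), c.FS), (∀ s, H (0, s) = r.slice s) ∧
      (∀ s, H (1, s) = c.pt) ∧ ∀ t s, (∃ i, s i = 0 ∨ s i = 1) → H (t, s) = c.pt := by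
  have h2 := HomotopyGroup.one_def (N := Fin 2) (X := c.FS) (x := c.pt)
  have h1 : Quotient.mk (GenLoop.Homotopic.setoid (Fin 2) c.pt) r.loop =
      Quotient.mk (GenLoop.Homotopic.setoid (Fin 2) c.pt) GenLoop.const := h.trans h2
  obtain ⟨H⟩ := Quotient.exact h1
  refine ⟨H.toHomotopy.toContinuousMap, fun s => H.map_zero_left s, fun s => H.map_one_left s, ?_⟩
  intro t s hs
  exact (H.eq_fst t (x := s) hs).trans (r.loop.2 s hs)

variable {N i al be c : ℕ} {K : Type} [TopologicalSpace K] [Par K] [CompactSpace K] [T2Space K]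

theorem exact_J (a : Fin al → ℕ) (b : Fin be → ℕ) (hi : i < N) (x : (YC N (i + 1) a b c K).A)
    (hx : (res a b c K (Nat.le_succ i)).hom x = 0) :
    ∃ y : (CC N i al be c K).A, (jj a b hi c K).hom y = x := by
  obtain ⟨r, rfl⟩ := exists_rep x
  -- the restricted representative
  have hrs : Continuous r.slice := r.loop.1.continuous
  set R := res (N := N) a b c K (Nat.le_succ i) with hR
  have hRs : Continuous fun s => R.toFun (r.slice s) := R.toFun.continuous.comp hrs
  let r1 : Rep (YC N i a b c K) :=
    { F := fun s p => R.toFun (r.slice s) p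
      cont := contY (hRs.comp continuous_fst) continuous_snd
      ne := fun s p => Ctx.FS.ne _ p
      base := fun s p hp => Ctx.FS.base _ hp
      eqv := fun s => Ctx.FS.eqv _
      bdry := fun s hs p => by
        have h1 : r.slice s = (YC N (i + 1) a b c K).pt := r.loop.2 s hs
        rw [h1, R.map_pt]
        rfl }
  have h1 : R.hom r.cls = r1.cls := BMap.hom_cls R r r1 fun s p => rfl
  rw [h1] at hx
  obtain ⟨H, H0, H1, Hb⟩ := r1.null_of_cls_eq_zero hx
  -- the path of the point `s`
  let g : C(Fin 2 → unitInterval, C(unitInterval, (YC N i a b c K).FS)) :=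
    (H.comp ContinuousMap.prodSwap).curry
  have hg : ∀ s t, g s t = H (t, s) := fun s t => rfl
  have hslice : ∀ s, r1.slice s = R.toFun (r.slice s) := fun s => Ctx.FS.ext fun p => rfl
  let q : (Fin 2 → unitInterval) → J.EX N i a b c K := fun s =>
    ⟨(r.slice s, g s), fun p => by
      change g s 0 p = r.slice s (J.incl1 p)
      rw [hg, H0, hslice]
      rfl, by
      change g s 1 = _
      rw [hg, H1]⟩
  have hq : Continuous q := Continuous.subtype_mk (hrs.prodMk g.continuous) _
  have hqb : ∀ s, (∃ i, s i = 0 ∨ s i = 1) → q s = J.ptE N i a b c K := by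
    intro s hs
    apply Subtype.ext
    refine Prod.ext (r.loop.2 s hs) ?_
    change g s = ContinuousMap.const _ _
    ext1 t
    rw [hg, Hb t s hs]
    rfl
  have hQ : Continuous fun s => J.Qc hi a b (q s) := (J.Qc hi a b).continuous.comp hq
  let r2 : Rep (CC N i al be c K) :=
    { F := fun s p => J.Qc hi a b (q s) p
      cont := contC (hQ.comp continuous_fst) continuous_snd
      ne := fun s p => Ctx.FS.ne _ p
      base := fun s p hp => Ctx.FS.base _ hp
      eqv := fun s => Ctx.FS.eqv _
      bdry := fun s hs p => by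
        rw [hqb s hs, J.Qc_pt]
        rfl }
  have hs2 : ∀ s, r2.slice s = J.Qc hi a b (q s) := fun s => Ctx.FS.ext fun p => rfl
  have hj : Continuous fun s => (jj a b hi c K).toFun (r2.slice s) :=
    (jj a b hi c K).toFun.continuous.comp r2.loop.1.continuous
  let r3 : Rep (YC N (i + 1) a b c K) :=
    { F := fun s p => (jj a b hi c K).toFun (r2.slice s) p
      cont := contY (hj.comp continuous_fst) continuous_snd
      ne := fun s p => Ctx.FS.ne _ p
      base := fun s p hp => Ctx.FS.base _ hp
      eqv := fun s => Ctx.FS.eqv _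
      bdry := fun s hs p => by
        have h1 : r2.slice s = (CC N i al be c K).pt := r2.loop.2 s hs
        rw [h1, (jj a b hi c K).map_pt]
        rfl }
  refine ⟨r2.cls, ?_⟩
  rw [BMap.hom_cls (jj a b hi c K) r2 r3 fun s p => rfl]
  symm
  have hH : Continuous fun w : unitInterval × (Fin 2 → unitInterval) =>
      J.Hc hi a b (q w.2, w.1) :=
    (J.Hc hi a b).continuous.comp ((hq.comp continuous_snd).prodMk continuous_fst)
  refine Rep.cls_homotopy (fun t s p => J.Hc hi a b (q s, t) p) ?_ (fun t s p => Ctx.FS.ne _ p)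
    (fun t s p hp => Ctx.FS.base _ hp) (fun t s => Ctx.FS.eqv _) ?_ ?_ ?_
  · have := contY (c := c) (K := K) (a := a) (b := b) (N := N) (i := i + 1)
      (T := unitInterval × (Fin 2 → unitInterval) × (X N (i + 1) × Ball al c × K))
      (F := fun w => J.Hc hi a b (q w.2.1, w.1)) (g := fun w => w.2.2)
      (hH.comp (f := fun w : unitInterval × (Fin 2 → unitInterval) ×
        (X N (i + 1) × Ball al c × K) => (w.1, w.2.1)) (by fun_prop)) (by fun_prop)
    exact this
  · intro t s hs p
    rw [hqb s hs, J.Hc_pt]
    rfl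
  · intro s p
    rw [J.Hc_zero]
    rfl
  · intro s p
    rw [J.Hc_one]
    rfl

end MP5f.S4
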