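import Pool.Agent.H.MP_5f9601_gt.U.OExt

/-!
MP_5f9601_gt, section 4, part O (helper23): exactness at the obstruction, function level.

A pair `(f, H)`, `f ∈ YC N i` and `H` a path in `CC N i` from `oo f` to the base point, gives an
extension `oQ (f, H) ∈ YC N (i+1)` of `f`, continuous in `(f, H)` and based.
-/

set_option autoImplicit false

open Set Topology ComplexConjugate Filter

namespace MP5f.S4

variable {N i al be c : ℕ} {a : Fin al → ℕ} {b : Fin be → ℕ}

section O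

/-- `oo` followed by a path to the base point -/
def OE (a : Fin al → ℕ) (b : Fin be → ℕ) (N i c rho : ℕ) : Type :=
  {q : (YC N i a b c (Cu (rho + 1))).FS × C(unitInterval, (CC N i al be c (Cu rho)).FS) //
    q.2 0 = (oo a b N i c rho).toFun q.1 ∧ q.2 1 = (CC N i al be c (Cu rho)).pt}

noncomputable instance (a : Fin al → ℕ) (b : Fin be → ℕ) (N i c rho : ℕ) : TopologicalSpace (OE a b N i c rho) :=
  instTopologicalSpaceSubtype

/-- the factor of the point -/
noncomputable def oPt (y : D N i) (r : unitInterval) : D N i :=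
  ⟨(((r : ℝ) * (max ‖(y : Fin N → ℂ)‖ (1 / 2))⁻¹ : ℝ) : ℂ) • (y : Fin N → ℂ), by
    constructor
    · have h0 : (0 : ℝ) < max ‖(y : Fin N → ℂ)‖ (1 / 2) := lt_max_of_lt_right (by norm_num)
      have h1 : 0 ≤ (r : ℝ) * (max ‖(y : Fin N → ℂ)‖ (1 / 2))⁻¹ :=
        mul_nonneg r.2.1 (inv_nonneg.2 h0.le)
      rw [norm_smul, Complex.norm_real, Real.norm_of_nonneg h1, mul_assoc]
      have h2 : (max ‖(y : Fin N → ℂ)‖ (1 / 2))⁻¹ * ‖(y : Fin N → ℂ)‖ ≤ 1 := by
        rw [inv_mul_le_iff₀ h0, mul_one]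
        exact le_max_left _ _
      have h3 : 0 ≤ (max ‖(y : Fin N → ℂ)‖ (1 / 2))⁻¹ * ‖(y : Fin N → ℂ)‖ :=
        mul_nonneg (inv_nonneg.2 h0.le) (norm_nonneg _)
      exact mul_le_one₀ r.2.2 h3 h2
    · intro j hj
      rw [Pi.smul_apply, y.2.2 j hj, smul_zero]⟩

/-- the time -/
noncomputable def oTm (y : D N i) (r : unitInterval) : unitInterval :=
  ⟨(r : ℝ) * min 1 (2 - 2 * ‖(y : Fin N → ℂ)‖), by
    have h1 : (0 : ℝ) ≤ min 1 (2 - 2 * ‖(y : Fin N → ℂ)‖) := by
      refine le_min zero_le_one ?_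
      have := y.2.1
      linarith
    exact ⟨mul_nonneg r.2.1 h1, mul_le_one₀ r.2.2 h1 (min_le_left _ _)⟩⟩

theorem continuous_oPt : Continuous fun q : D N i × unitInterval => oPt q.1 q.2 := by
  refine Continuous.subtype_mk ?_ _
  refine Continuous.smul (Complex.continuous_ofReal.comp ?_) (by fun_prop)
  refine Continuous.mul (by fun_prop) (Continuous.inv₀ (by fun_prop) ?_)
  intro q
  exact (lt_max_of_lt_right (by norm_num) : (0 : ℝ) < max ‖(q.1 : Fin N → ℂ)‖ (1 / 2)).ne'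

theorem continuous_oTm : Continuous fun q : D N i × unitInterval => oTm q.1 q.2 := by
  refine Continuous.subtype_mk ?_ _
  fun_prop

/-- the formula of the extension over the disc -/
noncomputable def oG {rho : ℕ} (e : OE a b N i c rho) (p : D N i × Ball al c × Cu (rho + 1)) : V be c :=
  e.1.2 (oTm p.1 (p.2.2 0)) (oPt p.1 (p.2.2 0), p.2.1, Fin.tail p.2.2)

theorem continuous_oG {rho : ℕ} : Continuous
    fun q : OE a b N i c rho × (D N i × Ball al c × Cu (rho + 1)) => oG q.1 q.2 := by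
  have h0 : Continuous fun q : OE a b N i c rho × (D N i × Ball al c × Cu (rho + 1)) =>
      ((q.2.1, q.2.2.2 0) : D N i × unitInterval) := by fun_prop
  have h1 : Continuous fun q : OE a b N i c rho × (D N i × Ball al c × Cu (rho + 1)) =>
      q.1.1.2 (oTm q.2.1 (q.2.2.2 0)) := by
    have h2 : Continuous fun q : C(unitInterval, (CC N i al be c (Cu rho)).FS) × unitInterval =>
      q.1 q.2 := ContinuousEval.continuous_eval
    refine h2.comp (f := fun q : OE a b N i c rho × (D N i × Ball al c × Cu (rho + 1)) =>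
      (q.1.1.2, oTm q.2.1 (q.2.2.2 0))) (Continuous.prodMk ?_ (continuous_oTm.comp h0))
    exact continuous_snd.comp (continuous_subtype_val.comp continuous_fst)
  refine contC h1 (Continuous.prodMk (continuous_oPt.comp h0) (Continuous.prodMk (by fun_prop) ?_))
  exact continuous_pi fun j => by simp only [Fin.tail]; fun_prop

theorem oPt_of_norm {y : D N i} (hy : ‖(y : Fin N → ℂ)‖ = 1) (r : unitInterval) :
    (oPt y r : Fin N → ℂ) = ((r : ℝ) : ℂ) • (y : Fin N → ℂ) := by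
  show (((r : ℝ) * (max ‖(y : Fin N → ℂ)‖ (1 / 2))⁻¹ : ℝ) : ℂ) • (y : Fin N → ℂ) = _
  rw [hy, max_eq_left (by norm_num), inv_one, mul_one]

theorem oTm_of_norm {y : D N i} (hy : ‖(y : Fin N → ℂ)‖ = 1) (r : unitInterval) : oTm y r = 0 := by
  apply Subtype.ext
  show (r : ℝ) * min 1 (2 - 2 * ‖(y : Fin N → ℂ)‖) = 0
  rw [hy]
  norm_num

/-- a point of norm one of the disc as a point of the sphere -/
def toX (y : D N i) (hy : ‖(y : Fin N → ℂ)‖ = 1) : X N i := ⟨y, hy, y.2.2⟩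

theorem oG_of_norm {rho : ℕ} (e : OE a b N i c rho) (p : D N i × Ball al c × Cu (rho + 1))
    (h : ‖(p.1 : Fin N → ℂ)‖ = 1) : oG e p = e.1.1 (toX p.1 h, p.2.1, p.2.2) := by
  unfold oG
  rw [oTm_of_norm h, e.2.1]
  have hy : (p.1 : Fin N → ℂ) ≠ 0 := by
    intro h0
    rw [h0, norm_zero] at h
    exact zero_ne_one h
  by_cases hr : p.2.2 0 = 0
  · rw [oo_apply_zero]
    · symm
      exact e.1.1.base (p := (toX p.1 h, p.2.1, p.2.2)) (Or.inr ⟨0, Or.inl hr⟩)
    · rw [oPt_of_norm h, hr]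
      simp
  · have hr' : ((p.2.2 0 : unitInterval) : ℝ) ≠ 0 := fun h0 => hr (Subtype.ext h0)
    have hr0 : 0 < ((p.2.2 0 : unitInterval) : ℝ) := lt_of_le_of_ne (p.2.2 0).2.1 (Ne.symm hr')
    have hne : (oPt p.1 (p.2.2 0) : Fin N → ℂ) ≠ 0 := by
      rw [oPt_of_norm h]
      exact smul_ne_zero (by exact_mod_cast hr') hy
    have hnorm : ‖(oPt p.1 (p.2.2 0) : Fin N → ℂ)‖ = (p.2.2 0 : unitInterval) := by
      rw [oPt_of_norm h, norm_smul, h, mul_one, Complex.norm_real, Real.norm_of_nonneg hr0.le]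
    rw [oo_apply_ne _ _ _ _ hne]
    have e1 : dirX (oPt p.1 (p.2.2 0)) hne = toX p.1 h := by
      apply Subtype.ext
      show ((‖(oPt p.1 (p.2.2 0) : Fin N → ℂ)‖⁻¹ : ℝ) : ℂ) • (oPt p.1 (p.2.2 0) : Fin N → ℂ) = p.1
      rw [hnorm, oPt_of_norm h, smul_smul, ← Complex.ofReal_mul, inv_mul_cancel₀ hr',
        Complex.ofReal_one, one_smul]
    have e2 : rad (oPt p.1 (p.2.2 0)) = p.2.2 0 := Subtype.ext hnorm
    rw [e1, e2]
    congr 3
    exact Fin.cons_self_tail p.2.2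

theorem bdEqv_oG {rho : ℕ} (e : OE a b N i c rho) : BdEqv a b (oG e) := by
  intro t ht p p' h h1 h2 h3
  have h' : ‖(p'.1 : Fin N → ℂ)‖ = 1 := by rw [h1, norm_smul, ht, h, one_mul]
  rw [oG_of_norm e p' h', oG_of_norm e p h]
  exact e.1.1.eqv t ht (toX p.1 h, p.2.1, p.2.2) (toX p'.1 h', p'.2.1, p'.2.2) h1 h2 h3

theorem oG_ne {rho : ℕ} (e : OE a b N i c rho) (p : D N i × Ball al c × Cu (rho + 1)) :
    oG e p ≠ 0 := Ctx.FS.ne _ _

theorem oG_base {rho : ℕ} (e : OE a b N i c rho) (p : D N i × Ball al c × Cu (rho + 1))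
    (h : ‖(p.2.1 : W al c)‖ = 1 ∨ Par.bd p.2.2) : oG e p = ebase be c := by
  unfold oG
  rcases h with h | ⟨j, hj⟩
  · exact Ctx.FS.base _ (Or.inr (Or.inl h))
  · rcases Fin.eq_zero_or_eq_succ j with rfl | ⟨j', rfl⟩
    · rcases hj with hj | hj
      · -- the parameter is zero
        have e1 : oTm p.1 (p.2.2 0) = 0 := by
          rw [hj]
          exact Subtype.ext (zero_mul _)
        rw [e1, e.2.1, oo_apply_zero]
        rw [hj]
        show (((0 : unitInterval) : ℝ) * (max ‖(p.1 : Fin N → ℂ)‖ (1 / 2))⁻¹ : ℝ) •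
          (p.1 : Fin N → ℂ) = 0
        simp
      · -- the parameter is one
        rcases le_total ‖(p.1 : Fin N → ℂ)‖ (1 / 2) with h1 | h1
        · have e1 : oTm p.1 (p.2.2 0) = 1 := by
            rw [hj]
            apply Subtype.ext
            show ((1 : unitInterval) : ℝ) * min 1 (2 - 2 * ‖(p.1 : Fin N → ℂ)‖) = 1
            rw [min_eq_left (by linarith)]
            simp
          rw [e1, e.2.2]
          rfl
        · refine Ctx.FS.base _ (Or.inl ?_)
          have h0 : (0 : ℝ) < ‖(p.1 : Fin N → ℂ)‖ := by linarith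
          show ‖(((p.2.2 0 : unitInterval) : ℝ) * (max ‖(p.1 : Fin N → ℂ)‖ (1 / 2))⁻¹ : ℝ) •
            (p.1 : Fin N → ℂ)‖ = 1
          rw [hj, max_eq_left h1, norm_smul]
          simp [h0.ne']
    · exact Ctx.FS.base _ (Or.inr (Or.inr ⟨j', hj⟩))

theorem oQ_ne {rho : ℕ} (hi : i < N) (e : OE a b N i c rho)
    (p : X N (i + 1) × Ball al c × Cu (rho + 1)) : extF a b hi (oG e) p ≠ 0 := by
  rcases extF_cases (hi := hi) (bdEqv_oG e) p with ⟨h, h1⟩ | ⟨h, h1⟩
  · rw [h1]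
    intro h2
    have h3 := norm_rotV b h (oG e (cellPt hi p.1, rotB a (conj ((p.1 : Fin N → ℂ) ⟨i, hi⟩))
      (norm_coord_le hi p.1) p.2.1, p.2.2))
    rw [h2, norm_zero] at h3
    exact oG_ne e _ (norm_eq_zero.1 h3.symm)
  · rw [h1]
    exact oG_ne e _

theorem oQ_base {rho : ℕ} (hi : i < N) (e : OE a b N i c rho)
    (p : X N (i + 1) × Ball al c × Cu (rho + 1)) (hp : ‖(p.2.1 : W al c)‖ = 1 ∨ Par.bd p.2.2) :
    extF a b hi (oG e) p = ebase be c := by
  rcases extF_cases (hi := hi) (bdEqv_oG e) p with ⟨h, h1⟩ | ⟨h, h1⟩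
  · rw [h1, oG_base, rotV_ebase]
    rcases hp with hp | hp
    · left
      show ‖((rot a (conj ((p.1 : Fin N → ℂ) ⟨i, hi⟩)) (p.2.1 : W al c).1, (p.2.1 : W al c).2) : W al c)‖ = 1
      rw [Prod.norm_def, norm_rot a (by rw [RCLike.norm_conj, h]), ← Prod.norm_def]
      exact hp
    · exact Or.inr hp
  · rw [h1]
    exact oG_base e (oUpdD hi p.1, p.2) hp

/-- the extension -/
noncomputable def oQ {rho : ℕ} (hi : i < N) : C(OE a b N i c rho, (YC N (i + 1) a b c (Cu (rho + 1))).FS) :=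
  mkFS (c := YC N (i + 1) a b c (Cu (rho + 1))) (T := OE a b N i c rho)
    (fun e p => extF a b hi (oG e) p)
    (continuous_extF hi continuous_oG bdEqv_oG) (oQ_ne hi) (oQ_base hi)
    (fun e _t ht p p' h1 h2 h3 => extF_eqv (bdEqv_oG e) ht p p' h1 h2 h3)

theorem oQ_apply {rho : ℕ} (hi : i < N) (e : OE a b N i c rho)
    (p : X N (i + 1) × Ball al c × Cu (rho + 1)) : oQ hi e p = extF a b hi (oG e) p := rfl

/-- `oQ (f, H)` extends `f`. -/
theorem res_oQ {rho : ℕ} (hi : i < N) (e : OE a b N i c rho) :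
    (res a b c (Cu (rho + 1)) (Nat.le_succ i)).toFun (oQ hi e) = e.1.1 := by
  refine Ctx.FS.ext fun p => ?_
  show extF a b hi (oG e) (inclX (Nat.le_succ i) p.1, p.2) = e.1.1 p
  have hx : (p.1 : Fin N → ℂ) ⟨i, hi⟩ = 0 := p.1.2.2 ⟨i, hi⟩ le_rfl
  have hu : (oUpdD hi (inclX (Nat.le_succ i) p.1) : Fin N → ℂ) = (p.1 : Fin N → ℂ) := by
    show Function.update (p.1 : Fin N → ℂ) ⟨i, hi⟩ 0 = (p.1 : Fin N → ℂ)
    rw [← hx, Function.update_eq_self]
  have h : ‖(oUpdD hi (inclX (Nat.le_succ i) p.1) : Fin N → ℂ)‖ = 1 := by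
    rw [hu]
    exact p.1.2.1
  have e1 := extF_of_norm (bdEqv_oG e) (inclX (Nat.le_succ i) p.1, p.2) h
  have e2 := oG_of_norm e (oUpdD hi (inclX (Nat.le_succ i) p.1), p.2) h
  have e3 : toX (oUpdD hi (inclX (Nat.le_succ i) p.1)) h = p.1 := Subtype.ext hu
  refine e1.trans (e2.trans ?_)
  show e.1.1 (toX (oUpdD hi (inclX (Nat.le_succ i) p.1)) h, p.2) = e.1.1 (p.1, p.2)
  rw [e3]

/-- the base point of `OE` -/
noncomputable def oePt (a : Fin al → ℕ) (b : Fin be → ℕ) (N i c rho : ℕ) : OE a b N i c rho :=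
  ⟨((YC N i a b c (Cu (rho + 1))).pt, ContinuousMap.const _ (CC N i al be c (Cu rho)).pt),
    (oo a b N i c rho).map_pt.symm, rfl⟩

theorem oQ_pt {rho : ℕ} (hi : i < N) :
    oQ hi (oePt a b N i c rho) = (YC N (i + 1) a b c (Cu (rho + 1))).pt := by
  refine Ctx.FS.ext fun p => ?_
  show extF a b hi (oG (oePt a b N i c rho)) p = ebase be c
  rcases extF_cases (hi := hi) (bdEqv_oG (oePt a b N i c rho)) p with ⟨h, h1⟩ | ⟨h, h1⟩
  · rw [h1]
    exact rotV_ebase b _
  · rw [h1]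
    rfl

end O

end MP5f.S4
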