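import Pool.Agent.H.MP_5f9601_gt.U.FPi
import Pool.Agent.H.MP_5f9601_gt.U.OQ

/-!
MP_5f9601, section 4: exactness of `oo` (helper23).
-/

set_option autoImplicit false

open Set Topology ComplexConjugate

namespace MP5f.S4

variable {N i al be c rho : ℕ}

/-- the projection of `OE` to the maps -/
noncomputable def oFst (a : Fin al → ℕ) (b : Fin be → ℕ) (N i c rho : ℕ) :
    C(OE a b N i c rho, (YC N i a b c (Cu (rho + 1))).FS) :=
  ⟨fun q => q.1.1, continuous_fst.comp continuous_subtype_val⟩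

theorem oFst_homotopic (hi : i < N) (a : Fin al → ℕ) (b : Fin be → ℕ) :
    ContinuousMap.HomotopicRel (oFst a b N i c rho)
      ((res a b c (Cu (rho + 1)) (Nat.le_succ i)).toFun.comp (oQ hi)) {oePt a b N i c rho} := by
  have h : (res a b c (Cu (rho + 1)) (Nat.le_succ i)).toFun.comp (oQ hi) = oFst a b N i c rho :=
    ContinuousMap.ext fun e => res_oQ hi e
  rw [h]
  exact ContinuousMap.HomotopicRel.refl _

theorem exact_O (a : Fin al → ℕ) (b : Fin be → ℕ) (hi : i < N) (x : (YC N i a b c (Cu (rho + 1))).A)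
    (hx : (oo a b N i c rho).hom x = 0) :
    ∃ y : (YC N (i + 1) a b c (Cu (rho + 1))).A,
      (res a b c (Cu (rho + 1)) (Nat.le_succ i)).hom y = x :=
  BMap.exact_of_natural (res a b c (Cu (rho + 1)) (Nat.le_succ i)) (oo a b N i c rho)
    (fun q => q.2 0 = (oo a b N i c rho).toFun q.1 ∧ q.2 1 = (CC N i al be c (Cu rho)).pt)
    (fun _ h0 h1 => ⟨h0, h1⟩) (oePt a b N i c rho) rfl (fun _ => rfl) (oQ hi) (oQ_pt hi)
    (oFst a b N i c rho) (fun _ => rfl) (oFst_homotopic hi a b) x hx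

/-- the same with `BMap.map` -/
theorem exact_O_map (a : Fin al → ℕ) (b : Fin be → ℕ) (hi : i < N)
    (x : (YC N i a b c (Cu (rho + 1))).A) (hx : (oo a b N i c rho).map x = 0) :
    ∃ y : (YC N (i + 1) a b c (Cu (rho + 1))).A,
      (res a b c (Cu (rho + 1)) (Nat.le_succ i)).map y = x :=
  exact_O a b hi x hx

end MP5f.S4
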