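import Pool.Agent.H.MP_5f9601_gt.U.FJO

/-!
MP_5f9601, section 4 (helper19): `oo ∘ res` is null homotopic (the hypothesis `h_o_R` of `main_alg`).

First the base point `x' / |x'|` is moved to the constant point `e_i` through
`(min 1 (2 - 2 t) • y, min 1 (2 t))`, then the radius is enlarged: `g (e_i; v, max |x'| s, k)`.
-/

set_option autoImplicit false

open Set Topology Filter

namespace MP5f.S4

section

variable {P V P' V' : Type} [TopologicalSpace P] [NormedAddCommGroup V]
  [TopologicalSpace P'] [NormedAddCommGroup V']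

/-- A homotopy of based maps given by a formula. -/
theorem OR_homotopicRel {c : Ctx P V} {c' : Ctx P' V'} (φ₀ φ₁ : BMap c c')
    (Θ : unitInterval → c.FS → P' → V')
    (hc : Continuous fun q : (unitInterval × c.FS) × P' => Θ q.1.1 q.1.2 q.2)
    (h0 : ∀ t f p, Θ t f p ≠ 0) (hb : ∀ t f p, c'.P0 p → Θ t f p = c'.e)
    (hE : ∀ t f, c'.E (Θ t f)) (hpt : ∀ t p, Θ t c.pt p = c'.e)
    (e0 : ∀ f p, Θ 0 f p = φ₀.toFun f p) (e1 : ∀ f p, Θ 1 f p = φ₁.toFun f p) :
    ContinuousMap.HomotopicRel φ₀.toFun φ₁.toFun {c.pt} := by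
  have hc1 : ∀ q : unitInterval × c.FS, Continuous (Θ q.1 q.2) := fun q =>
    hc.comp (Continuous.prodMk_right q)
  refine ⟨{ toFun := fun q => ⟨⟨Θ q.1 q.2, hc1 q⟩, h0 _ _, hb _ _, hE _ _⟩
            continuous_toFun := ?_
            map_zero_left := ?_
            map_one_left := ?_
            prop' := ?_ }⟩
  · refine continuous_induced_rng.2 ?_
    exact ContinuousMap.continuous_of_continuous_uncurry
      (fun q : unitInterval × c.FS => (⟨Θ q.1 q.2, hc1 q⟩ : C(P', V'))) hc
  · intro f
    exact Ctx.FS.ext (e0 f)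
  · intro f
    exact Ctx.FS.ext (e1 f)
  · intro t x hx
    rw [mem_singleton_iff] at hx
    subst hx
    rw [φ₀.map_pt]
    exact Ctx.FS.ext (hpt t)

end

section pts

variable {N i : ℕ}

/-- The point `(min 1 (2 - 2 t) • y, min 1 (2 t))` of `X N (i + 1)`. -/
noncomputable def orPt (hi : i < N) (t : unitInterval) (y : X N i) : X N (i + 1) :=
  ⟨Function.update (((min 1 (2 - 2 * (t : ℝ)) : ℝ) : ℂ) • (y : Fin N → ℂ)) ⟨i, hi⟩
    ((min 1 (2 * (t : ℝ)) : ℝ) : ℂ), by
    have h0 : (0 : ℝ) ≤ min 1 (2 - 2 * (t : ℝ)) := le_min zero_le_one (by linarith [t.2.2])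
    have h1 : (0 : ℝ) ≤ min 1 (2 * (t : ℝ)) := le_min zero_le_one (by linarith [t.2.1])
    have hy : ‖(y : Fin N → ℂ)‖ = 1 := y.2.1
    have hyi : (y : Fin N → ℂ) ⟨i, hi⟩ = 0 := y.2.2 ⟨i, hi⟩ le_rfl
    constructor
    · refine le_antisymm ?_ ?_
      · rw [pi_norm_le_iff_of_nonneg zero_le_one]
        intro j
        rcases eq_or_ne j ⟨i, hi⟩ with rfl | hj
        · rw [Function.update_self, Complex.norm_real, Real.norm_of_nonneg h1]
          exact min_le_left _ _
        · rw [Function.update_of_ne hj, Pi.smul_apply, smul_eq_mul, norm_mul, Complex.norm_real,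
            Real.norm_of_nonneg h0]
          exact mul_le_one₀ (min_le_left _ _) (norm_nonneg _)
            ((norm_le_pi_norm (y : Fin N → ℂ) j).trans hy.le)
      · rcases le_total (t : ℝ) (1 / 2) with ht | ht
        · have hu : min 1 (2 - 2 * (t : ℝ)) = 1 := min_eq_left (by linarith)
          rw [hu, Complex.ofReal_one, one_smul, ← hy]
          rw [pi_norm_le_iff_of_nonneg (norm_nonneg _)]
          intro j
          rcases eq_or_ne j ⟨i, hi⟩ with rfl | hj
          · rw [hyi, norm_zero]; exact norm_nonneg _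
          · have := norm_le_pi_norm (Function.update (y : Fin N → ℂ) ⟨i, hi⟩
              ((min ‖(y : Fin N → ℂ)‖ (2 * (t : ℝ)) : ℝ) : ℂ)) j
            rwa [Function.update_of_ne hj] at this
        · have hw : min 1 (2 * (t : ℝ)) = 1 := min_eq_left (by linarith)
          rw [hw]
          have := norm_le_pi_norm (Function.update
            (((min 1 (2 - 2 * (t : ℝ)) : ℝ) : ℂ) • (y : Fin N → ℂ)) ⟨i, hi⟩ (((1 : ℝ) : ℂ))) ⟨i, hi⟩
          rwa [Function.update_self, Complex.ofReal_one, norm_one] at this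
    · intro j hj
      have hji : j ≠ ⟨i, hi⟩ := by
        rintro rfl
        simp at hj
      rw [Function.update_of_ne hji, Pi.smul_apply, y.2.2 j (by omega), smul_zero]⟩

theorem continuous_orPt (hi : i < N) :
    Continuous fun q : unitInterval × X N i => orPt hi q.1 q.2 := by
  refine Continuous.subtype_mk ?_ _
  refine Continuous.update ?_ _ ?_
  · exact (Complex.continuous_ofReal.comp (by fun_prop)).smul (by fun_prop)
  · exact Complex.continuous_ofReal.comp (by fun_prop)

theorem orPt_zero (hi : i < N) (y : X N i) : orPt hi 0 y = inclX (Nat.le_succ i) y := by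
  apply Subtype.ext
  show Function.update (((min 1 (2 - 2 * ((0 : unitInterval) : ℝ)) : ℝ) : ℂ) • (y : Fin N → ℂ))
    ⟨i, hi⟩ ((min 1 (2 * ((0 : unitInterval) : ℝ)) : ℝ) : ℂ) = y
  have h1 : min 1 (2 - 2 * ((0 : unitInterval) : ℝ)) = 1 := by
    rw [Set.Icc.coe_zero]; norm_num
  have h2 : min 1 (2 * ((0 : unitInterval) : ℝ)) = 0 := by
    rw [Set.Icc.coe_zero]; norm_num
  rw [h1, h2, Complex.ofReal_one, one_smul, Complex.ofReal_zero,
    ← y.2.2 ⟨i, hi⟩ le_rfl, Function.update_eq_self]

/-- the point `e_i` -/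
noncomputable def orE (hi : i < N) : X N (i + 1) :=
  ⟨Pi.single ⟨i, hi⟩ 1, by
    constructor
    · rw [Pi.norm_single, norm_one]
    · intro j hj
      have hji : j ≠ ⟨i, hi⟩ := by
        rintro rfl
        simp at hj
      rw [Pi.single_eq_of_ne hji]⟩

theorem orPt_one (hi : i < N) (y : X N i) : orPt hi 1 y = orE hi := by
  apply Subtype.ext
  show Function.update (((min 1 (2 - 2 * ((1 : unitInterval) : ℝ)) : ℝ) : ℂ) • (y : Fin N → ℂ))
    ⟨i, hi⟩ ((min 1 (2 * ((1 : unitInterval) : ℝ)) : ℝ) : ℂ) = Pi.single ⟨i, hi⟩ 1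
  have h1 : min 1 (2 - 2 * ((1 : unitInterval) : ℝ)) = 0 := by
    rw [Set.Icc.coe_one]; norm_num
  have h2 : min 1 (2 * ((1 : unitInterval) : ℝ)) = 1 := by
    rw [Set.Icc.coe_one]; norm_num
  rw [h1, h2, Complex.ofReal_one, Complex.ofReal_zero, zero_smul]
  rfl

end pts

section main

variable {N i al be c : ℕ}

theorem OR_continuous_cons {rho : ℕ} :
    Continuous fun q : Cu rho × unitInterval => (Fin.cons q.2 q.1 : Cu (rho + 1)) := by
  refine continuous_pi fun j => ?_
  refine Fin.cases ?_ (fun k => ?_) j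
  · simp only [Fin.cons_zero]; fun_prop
  · simp only [Fin.cons_succ]; fun_prop

/-- the intermediate map: `g (e_i; v, |x'|, k)` -/
noncomputable def orMid (a : Fin al → ℕ) (b : Fin be → ℕ) (hi : i < N) (c rho : ℕ) :
    BMap (YC N (i + 1) a b c (Cu (rho + 1))) (CC N i al be c (Cu rho)) :=
  BMap.ofFormula (fun f p => f (orE hi, p.2.1, Fin.cons (rad p.1) p.2.2))
    (contY continuous_fst (by
      refine Continuous.prodMk continuous_const (Continuous.prodMk (by fun_prop) ?_)
      refine OR_continuous_cons.comp (Continuous.prodMk (by fun_prop) ?_)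
      exact Continuous.subtype_mk (by fun_prop) _))
    (fun f p => f.ne _)
    (fun f p hp => by
      refine f.base ?_
      rcases hp with h1 | h1 | ⟨k, h1⟩
      · exact Or.inr ⟨0, Or.inr (Subtype.ext h1)⟩
      · exact Or.inl h1
      · exact Or.inr ⟨k.succ, h1⟩)
    (fun f => trivial)
    (fun p => rfl)

/-- the constant map -/
def orConst {P V P' V' : Type} [TopologicalSpace P] [NormedAddCommGroup V]
    [TopologicalSpace P'] [NormedAddCommGroup V'] (c : Ctx P V) (c' : Ctx P' V') : BMap c c' where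
  toFun := ContinuousMap.const _ c'.pt
  map_pt := rfl

theorem OR_first (a : Fin al → ℕ) (b : Fin be → ℕ) (hi : i < N) (c rho : ℕ) :
    ContinuousMap.HomotopicRel
      ((oo a b N i c rho).comp (res a b c (Cu (rho + 1)) (Nat.le_succ i))).toFun
      (orMid a b hi c rho).toFun {(YC N (i + 1) a b c (Cu (rho + 1))).pt} := by
  classical
  refine OR_homotopicRel _ _ (fun t f p =>
    if h : (p.1 : Fin N → ℂ) ≠ 0 then
      f (orPt hi t (dirX p.1 h), p.2.1, Fin.cons (rad p.1) p.2.2) else ebase be c)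
    ?_ ?_ ?_ ?_ ?_ ?_ ?_
  · have h1 := polar_continuous (N := N) (i := i)
      (T := (unitInterval × (YC N (i + 1) a b c (Cu (rho + 1))).FS) × Ball al c × Cu rho)
      (Q := V be c)
      (fun q => q.1.1.2 (orPt hi q.1.1.1 q.2.1, q.1.2.1, Fin.cons q.2.2 q.1.2.2))
      (contY (by fun_prop) (Continuous.prodMk ((continuous_orPt hi).comp
        (f := fun q : ((unitInterval × (YC N (i + 1) a b c (Cu (rho + 1))).FS) ×
          Ball al c × Cu rho) × X N i × unitInterval => (q.1.1.1, q.2.1)) (by fun_prop))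
        (Continuous.prodMk (by fun_prop)
        (OR_continuous_cons.comp (f := fun q : ((unitInterval × (YC N (i + 1) a b c
          (Cu (rho + 1))).FS) × Ball al c × Cu rho) ×
          X N i × unitInterval => (q.1.2.2, q.2.2)) (by fun_prop))))) (ebase be c)
      (fun t y => t.1.2.base (p := (orPt hi t.1.1 y, t.2.1, Fin.cons 0 t.2.2))
        (Or.inr ⟨0, Or.inl rfl⟩))
    exact h1.comp (f := fun q : (unitInterval × (YC N (i + 1) a b c (Cu (rho + 1))).FS) ×
      (D N i × Ball al c × Cu rho) => ((q.1, q.2.2.1, q.2.2.2), q.2.1)) (by fun_prop)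
  · intro t f p
    split_ifs with h
    · exact f.ne _
    · exact (YC N i a b c (Cu rho)).e_ne
  · intro t f p hp
    split_ifs with h
    · refine f.base ?_
      rcases hp with h1 | h1 | ⟨k, h1⟩
      · exact Or.inr ⟨0, Or.inr (Subtype.ext h1)⟩
      · exact Or.inl h1
      · exact Or.inr ⟨k.succ, h1⟩
    · rfl
  · intro t f
    trivial
  · intro t p
    split_ifs <;> rfl
  · rintro f ⟨x, v, k⟩
    show _ = (oo a b N i c rho).toFun ((res a b c (Cu (rho + 1)) (Nat.le_succ i)).toFun f) (x, v, k)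
    split_ifs with h
    · rw [oo_apply_ne _ _ _ _ h, orPt_zero]
      rfl
    · rw [oo_apply_zero _ _ _ _ (not_not.1 h)]
  · rintro f ⟨x, v, k⟩
    show _ = f (orE hi, v, Fin.cons (rad x) k)
    split_ifs with h
    · rw [orPt_one]
    · have hx : (x : Fin N → ℂ) = 0 := not_not.1 h
      have hr : rad x = 0 := Subtype.ext (by simp [rad, hx])
      rw [hr]
      exact (f.base (p := (orE hi, v, Fin.cons 0 k)) (Or.inr ⟨0, Or.inl rfl⟩)).symm

theorem OR_second (a : Fin al → ℕ) (b : Fin be → ℕ) (hi : i < N) (c rho : ℕ) :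
    ContinuousMap.HomotopicRel (orMid a b hi c rho).toFun
      (orConst (YC N (i + 1) a b c (Cu (rho + 1))) (CC N i al be c (Cu rho))).toFun
      {(YC N (i + 1) a b c (Cu (rho + 1))).pt} := by
  refine OR_homotopicRel _ _ (fun t f p =>
      f (orE hi, p.2.1, Fin.cons (max (rad p.1) t) p.2.2)) ?_ ?_ ?_ ?_ ?_ ?_ ?_
  · refine contY (by fun_prop) ?_
    refine Continuous.prodMk continuous_const (Continuous.prodMk (by fun_prop) ?_)
    refine OR_continuous_cons.comp (Continuous.prodMk (by fun_prop) ?_)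
    refine Continuous.max ?_ (by fun_prop)
    exact Continuous.subtype_mk (by fun_prop) _
  · intro t f p
    exact f.ne _
  · intro t f p hp
    refine f.base ?_
    rcases hp with h1 | h1 | ⟨k, h1⟩
    · refine Or.inr ⟨0, Or.inr ?_⟩
      have : rad p.1 = 1 := Subtype.ext h1
      show max (rad p.1) t = 1
      rw [this]
      exact max_eq_left t.2.2
    · exact Or.inl h1
    · exact Or.inr ⟨k.succ, h1⟩
  · intro t f
    trivial
  · intro t p
    rfl
  · rintro f ⟨x, v, k⟩
    show f (orE hi, v, Fin.cons (max (rad x) 0) k) = f (orE hi, v, Fin.cons (rad x) k)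
    have h1 : max (rad x) 0 = rad x := max_eq_left (rad x).2.1
    rw [h1]
  · rintro f ⟨x, v, k⟩
    have h1 : max (rad x) 1 = 1 := max_eq_right (rad x).2.2
    show f (orE hi, v, Fin.cons (max (rad x) 1) k) = ebase be c
    rw [h1]
    exact f.base (p := (orE hi, v, Fin.cons 1 k)) (Or.inr ⟨0, Or.inr rfl⟩)

/-- **`oo ∘ res` is homotopic to the constant map**, through based maps. -/
theorem OR_null (a : Fin al → ℕ) (b : Fin be → ℕ) (hi : i < N) (c rho : ℕ) :
    ContinuousMap.HomotopicRel
      ((oo a b N i c rho).comp (res a b c (Cu (rho + 1)) (Nat.le_succ i))).toFun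
      (ContinuousMap.const _ (CC N i al be c (Cu rho)).pt)
      {(YC N (i + 1) a b c (Cu (rho + 1))).pt} :=
  (OR_first a b hi c rho).trans (OR_second a b hi c rho)

end main

end MP5f.S4
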