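import Pool.Agent.H.MP_5f9601_gt.U.Deg2

/-!
Degree lemma (helper50), part 3: pre-composition with `psi l` on a disc coordinate is multiplication
by `l`.
-/

set_option autoImplicit false
set_option linter.unusedSectionVars false
open Set Topology Filter

namespace MP5f.S4

variable {P V : Type} [TopologicalSpace P] [NormedAddCommGroup V]

namespace DiscCoord

variable {c : Ctx P V} (d : DiscCoord c) [LocallyCompactSpace P]

theorem map_congr_angle (τ : unitInterval → ℝ → ℝ)
    (hτ : Continuous fun q : unitInterval × ℝ => τ q.1 q.2) (n m : ℕ) (hn : ∀ t, τ t 0 = n)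
    (hm : ∀ t, τ t 1 = m) (g0 g1 : BMap d.cut d.cut)
    (e0 : ∀ f p, g0.toFun f p = d.Ph f p (τ 0 (th (d.z p))))
    (e1 : ∀ f p, g1.toFun f p = d.Ph f p (τ 1 (th (d.z p)))) : g0.map = g1.map := by
  refine BMap.map_congr_formula g0 g1 (fun t f p => d.Ph f p (τ t (th (d.z p)))) ?_
    (fun t f p => d.Ph_ne f p _) (fun t f p hp => ?_) (fun _ _ => trivial)
    (fun t p => d.Ph_pt p _) e0 e1
  · refine d.cont_angle (fun (a : unitInterval × d.cut.FS) p θ => d.Ph a.2 p (τ a.1 θ)) ?_
      (fun a p hp θ _ => d.Ph_zero' a.2 hp _) (fun a p => by rw [hn]; exact d.Ph_nat _ _ _)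
      (fun a p => by rw [hm]; exact d.Ph_nat _ _ _)
    refine d.continuous_Ph.comp
      (f := fun q : ((unitInterval × d.cut.FS) × P) × ℝ => (q.1.1.2, q.1.2, τ q.1.1.1 q.2)) ?_
    refine Continuous.prodMk (by fun_prop) (Continuous.prodMk (by fun_prop) ?_)
    exact hτ.comp (f := fun q : ((unitInterval × d.cut.FS) × P) × ℝ => (q.1.1.1, q.2)) (by fun_prop)
  · exact d.angle_base (fun p θ => d.Ph f p (τ t θ)) hp (fun h => d.Ph_zero' f h _)
      (by
        show d.Ph f p (τ t 1) = c.e
        rw [hm]; exact d.Ph_nat _ _ _) (fun h => d.Ph_P0 f h _)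

/-- the identity as a based map -/
def idB (c : Ctx P V) : BMap c c := ⟨ContinuousMap.id _, rfl⟩

theorem idB_map (c : Ctx P V) (x : c.A) : (idB c).map x = x := BMap.map_id _ (fun _ _ => rfl) x

theorem ML_map (l : ℕ) (x : d.cut.A) : (d.ML l).map x = x := by
  have h : (d.ML l).map = (idB d.cut).map := by
    refine (d.map_congr_angle (fun t θ => min 1 ((1 + t * l) * θ)) (by fun_prop) 0 1 (fun t => ?_)
      (fun t => ?_) (idB d.cut) (d.ML l) (fun f p => ?_) (fun f p => ?_)).symm
    · show min 1 ((1 + (t : ℝ) * l) * 0) = ((0 : ℕ) : ℝ)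
      rw [mul_zero, Nat.cast_zero]
      exact min_eq_right zero_le_one
    · show min 1 ((1 + (t : ℝ) * l) * 1) = ((1 : ℕ) : ℝ)
      rw [mul_one, Nat.cast_one]
      refine min_eq_left ?_
      have : 0 ≤ (t : ℝ) * l := mul_nonneg t.2.1 (Nat.cast_nonneg l)
      linarith
    · show f p = d.Ph f p (min 1 ((1 + ((0 : unitInterval) : ℝ) * l) * th (d.z p)))
      have h0 : (1 + ((0 : unitInterval) : ℝ) * l) * th (d.z p) = th (d.z p) := by simp
      rw [h0, min_eq_right (th_le_one _), d.Ph_th]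
    · show d.NN l f d.cut.pt p (th (d.z p)) =
        d.Ph f p (min 1 ((1 + ((1 : unitInterval) : ℝ) * l) * th (d.z p)))
      have h0 : (1 + ((1 : unitInterval) : ℝ) * l) * th (d.z p) = (l + 1) * th (d.z p) := by
        simp [add_comm]
      rw [h0]
      unfold NN
      split_ifs with h
      · rw [min_eq_right h]
      · rw [min_eq_left (by linarith)]
        have := d.Ph_nat f p 1
        rw [Nat.cast_one] at this
        rw [this]
        rfl
  rw [h, idB_map]

theorem MR_map (l : ℕ) : (d.MR l).map = (d.Q l).map := by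
  refine (d.map_congr_angle (fun t θ => max 0 ((l + t) * θ - t)) (by fun_prop) 0 l (fun t => ?_)
    (fun t => ?_) (d.Q l) (d.MR l) (fun f p => ?_) (fun f p => ?_)).symm
  · show max 0 (((l : ℝ) + t) * 0 - t) = ((0 : ℕ) : ℝ)
    rw [mul_zero, Nat.cast_zero]
    exact max_eq_left (by have := t.2.1; linarith)
  · show max 0 (((l : ℝ) + t) * 1 - t) = (l : ℝ)
    rw [mul_one, add_sub_cancel_right]
    exact max_eq_right (Nat.cast_nonneg l)
  · show d.Ph f p (l * th (d.z p)) =
      d.Ph f p (max 0 (((l : ℝ) + ((0 : unitInterval) : ℝ)) * th (d.z p) - ((0 : unitInterval) : ℝ)))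
    have h0 : ((l : ℝ) + ((0 : unitInterval) : ℝ)) * th (d.z p) - ((0 : unitInterval) : ℝ) =
        l * th (d.z p) := by simp
    rw [h0, max_eq_right (mul_nonneg (Nat.cast_nonneg l) (th_pos _).le)]
  · show d.NN l d.cut.pt f p (th (d.z p)) =
      d.Ph f p (max 0 (((l : ℝ) + ((1 : unitInterval) : ℝ)) * th (d.z p) - ((1 : unitInterval) : ℝ)))
    have h0 : ((l : ℝ) + ((1 : unitInterval) : ℝ)) * th (d.z p) - ((1 : unitInterval) : ℝ) =
        (l + 1) * th (d.z p) - 1 := by simp
    rw [h0]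
    unfold NN
    split_ifs with h
    · rw [max_eq_left (by linarith)]
      have := d.Ph_nat f p 0
      rw [Nat.cast_zero] at this
      rw [this]
      rfl
    · rw [max_eq_right (by linarith)]

theorem Q_zero_map (x : d.cut.A) : (d.Q 0).map x = 0 := by
  have h : d.Q 0 = ⟨ContinuousMap.const _ d.cut.pt, rfl⟩ := by
    have h1 : (d.Q 0).toFun = ContinuousMap.const _ d.cut.pt := by
      refine ContinuousMap.ext fun f => Ctx.FS.ext fun p => ?_
      show d.Ph f p (((0 : ℕ) : ℝ) * th (d.z p)) = c.e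
      rw [Nat.cast_zero, zero_mul]
      exact_mod_cast d.Ph_nat f p 0
    cases hx : d.Q 0
    rw [hx] at h1
    simp only at h1
    subst h1
    rfl
  rw [h]
  induction x using Quotient.inductionOn with | _ F => ?_
  rfl

/-- on the context `cut` the map `Q l` is multiplication by `l` -/
theorem Q_map (l : ℕ) (x : d.cut.A) : (d.Q l).map x = l • x := by
  induction l with
  | zero => rw [d.Q_zero_map, zero_smul]
  | succ l ih => rw [d.Q_succ_map, d.ML_map, d.MR_map, ih, succ_nsmul']

/-! ### comparison with the whole context -/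

/-- the inclusion -/
def incl : BMap d.cut c where
  toFun := ⟨fun f => ⟨f.map, f.ne', fun p hp => f.base' p (Or.inl hp), d.hE _⟩,
    continuous_induced_rng.2 (Ctx.FS.continuous_map d.cut)⟩
  map_pt := rfl

theorem incl_apply (f : d.cut.FS) (p : P) : d.incl.toFun f p = f p := rfl

theorem continuous_FU {A : Type*} [TopologicalSpace A] {F : A → c.FS} {q : A → P} {u : A → ℂ}
    (hF : Continuous F) (hq : Continuous q) (hu : Continuous u) :
    Continuous fun a => F a (d.U (q a) (u a)) :=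
  (Ctx.continuous_eval c).comp (f := fun a => (F a, d.U (q a) (u a)))
    (hF.prodMk (d.continuous_U.comp (hq.prodMk hu)))

theorem one_le_T {t : ℝ} (ht0 : 0 ≤ t) {w : ℂ} (hw : ‖w‖ = 1) :
    1 ≤ ‖((1 + t : ℝ) : ℂ) * w - ((t : ℝ) : ℂ)‖ := by
  have h1 : ‖((1 + t : ℝ) : ℂ) * w‖ = 1 + t := by
    rw [norm_mul, hw, mul_one, Complex.norm_real, Real.norm_eq_abs, abs_of_nonneg (by linarith)]
  have h2 : ‖((t : ℝ) : ℂ)‖ = t := by
    rw [Complex.norm_real, Real.norm_eq_abs, abs_of_nonneg ht0]
  have := norm_sub_norm_le (((1 + t : ℝ) : ℂ) * w) ((t : ℝ) : ℂ)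
  rw [h1, h2] at this
  linarith

theorem one_le_T_ray {w : ℂ} (hw : Ray w) : 1 ≤ ‖((1 + 1 : ℝ) : ℂ) * w - ((1 : ℝ) : ℂ)‖ := by
  have h1 : (((1 + 1 : ℝ) : ℂ) * w - ((1 : ℝ) : ℂ)).re = 2 * w.re - 1 := by
    simp only [Complex.sub_re, Complex.re_ofReal_mul, Complex.ofReal_re]
    ring
  have h2 := Complex.abs_re_le_norm (((1 + 1 : ℝ) : ℂ) * w - ((1 : ℝ) : ℂ))
  rw [h1] at h2
  refine le_trans ?_ h2
  rw [abs_of_neg (by linarith [hw.2])]
  linarith [hw.2]

/-- push the support off the cut -/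
noncomputable def rho : BMap c d.cut :=
  BMap.ofFormula (fun f p => f (d.U p (((1 + 1 : ℝ) : ℂ) * d.z p - ((1 : ℝ) : ℂ))))
    (d.continuous_FU continuous_fst continuous_snd
      ((continuous_const.mul (d.z.continuous.comp continuous_snd)).sub continuous_const))
    (fun f p => f.ne _)
    (fun f p hp => by
      rcases hp with hp | hp
      · exact f.base (d.P0_U hp fun h => one_le_T zero_le_one h)
      · exact f.base (d.P0_U_of_ge p (one_le_T_ray hp)))
    (fun _ => trivial) (fun _ => rfl)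

theorem incl_rho_map (x : c.A) : d.incl.map (d.rho.map x) = x := by
  rw [← BMap.map_comp]
  have h : (d.incl.comp d.rho).map = (idB c).map := by
    refine (BMap.map_congr_formula (idB c) (d.incl.comp d.rho)
      (fun t f p => f (d.U p (((1 + (t : ℝ) : ℝ) : ℂ) * d.z p - (((t : ℝ)) : ℂ)))) ?_
      (fun t f p => f.ne _) (fun t f p hp => f.base (d.P0_U hp fun h => one_le_T t.2.1 h))
      (fun t f => d.hE _) (fun _ _ => rfl) (fun f p => ?_) (fun f p => ?_)).symm
    · refine d.continuous_FU (F := fun q : (unitInterval × c.FS) × P => q.1.2)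
        (q := fun q : (unitInterval × c.FS) × P => q.2) (by fun_prop) (by fun_prop) ?_
      have h1 : Continuous fun q : (unitInterval × c.FS) × P => ((q.1.1 : ℝ) : ℂ) :=
        Complex.continuous_ofReal.comp (continuous_subtype_val.comp (by fun_prop))
      have h2 : Continuous fun q : (unitInterval × c.FS) × P => ((1 + (q.1.1 : ℝ) : ℝ) : ℂ) :=
        Complex.continuous_ofReal.comp
          (continuous_const.add (continuous_subtype_val.comp (by fun_prop)))
      exact (h2.mul (d.z.continuous.comp continuous_snd)).sub h1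
    · show f p = f (d.U p (((1 + ((0 : unitInterval) : ℝ) : ℝ) : ℂ) * d.z p -
        (((0 : unitInterval) : ℝ) : ℂ)))
      have h0 : ((1 + ((0 : unitInterval) : ℝ) : ℝ) : ℂ) * d.z p - (((0 : unitInterval) : ℝ) : ℂ) =
          d.z p := by simp
      rw [h0, d.U_self]
    · rfl
  rw [h, idB_map]

theorem Ep_mul (l : ℕ) (w : ℂ) :
    Ep ‖w‖ (l * th w) = (-1) ^ (l + 1) * psi l w := by
  rcases eq_or_ne w 0 with rfl | hw
  · simp [Ep, psi]
  · have hn : (‖w‖ : ℂ) ≠ 0 := by exact_mod_cast norm_ne_zero_iff.2 hw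
    have h1 : Complex.exp (2 * Real.pi * (th w : ℝ) * Complex.I) = -(w / (‖w‖ : ℂ)) := by
      have h2 := Ep_th w
      unfold Ep at h2
      field_simp
      rw [mul_comm]
      linear_combination -h2
    have h3 : Complex.exp (2 * Real.pi * ((l * th w : ℝ) : ℂ) * Complex.I) =
        (-(w / (‖w‖ : ℂ))) ^ l := by
      rw [← h1, ← Complex.exp_nat_mul]
      congr 1
      push_cast
      ring
    unfold Ep
    rw [h3, psi, neg_pow]
    ring

/-- the comparison of `Q l` with the power map -/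
theorem incl_Q_map (l : ℕ) (g : BMap c c)
    (hg : ∀ f p, g.toFun f p = f (d.U p (psi l (d.z p)))) (y : d.cut.A) :
    g.map (d.incl.map y) = d.incl.map ((d.Q l).map y) := by
  rw [← BMap.map_comp, ← BMap.map_comp]
  have h : (g.comp d.incl).map = (d.incl.comp (d.Q l)).map := by
    refine BMap.map_congr_formula (g.comp d.incl) (d.incl.comp (d.Q l))
      (fun t f p => d.incl.toFun f
        (d.U p (Complex.exp (((t : ℝ) * (Real.pi * (l + 1)) : ℝ) * Complex.I) * psi l (d.z p)))) ?_
      (fun t f p => f.ne _) (fun t f p hp => ?_)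
      (fun t f => d.hE _) (fun _ _ => rfl) (fun f p => ?_) (fun f p => ?_)
    · refine d.continuous_FU (F := fun q : (unitInterval × d.cut.FS) × P => d.incl.toFun q.1.2)
        (q := fun q : (unitInterval × d.cut.FS) × P => q.2)
        (d.incl.toFun.continuous.comp (by fun_prop)) (by fun_prop) ?_
      refine Continuous.mul ?_ ((continuous_psi l).comp (d.z.continuous.comp continuous_snd))
      refine Complex.continuous_exp.comp (Continuous.mul ?_ continuous_const)
      exact Complex.continuous_ofReal.comp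
        ((continuous_subtype_val.comp (by fun_prop)).mul continuous_const)
    · refine Ctx.FS.base (d.incl.toFun f) (d.P0_U_iff_of_norm ?_ hp)
      rw [norm_mul, Complex.norm_exp_ofReal_mul_I, one_mul, norm_psi]
    · show g.toFun (d.incl.toFun f) p = _
      rw [hg]
      have h0 : Complex.exp (((((0 : unitInterval) : ℝ) * (Real.pi * (l + 1)) : ℝ) : ℂ) *
          Complex.I) = 1 := by simp
      rw [h0, one_mul]
    · show f (d.U p (Ep ‖d.z p‖ (l * th (d.z p)))) = f (d.U p _)
      rw [Ep_mul]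
      have h0 : Complex.exp (((((1 : unitInterval) : ℝ) * (Real.pi * (l + 1)) : ℝ) : ℂ) *
          Complex.I) = (-1) ^ (l + 1) := by
        have h2 : (((((1 : unitInterval) : ℝ) * (Real.pi * (l + 1)) : ℝ) : ℂ) * Complex.I) =
            ((l + 1 : ℕ) : ℂ) * (Real.pi * Complex.I) := by
          push_cast
          ring
        rw [h2, Complex.exp_nat_mul, Complex.exp_pi_mul_I]
      rw [h0]
  rw [h]

theorem degree (l : ℕ) (g : BMap c c) (hg : ∀ f p, g.toFun f p = f (d.U p (psi l (d.z p))))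
    (x : c.A) : g.map x = l • x := by
  conv_lhs => rw [← d.incl_rho_map x]
  rw [d.incl_Q_map l g hg, d.Q_map, map_nsmul, d.incl_rho_map]

end DiscCoord

/-- **The disc degree lemma.** -/
theorem BMap.degree [LocallyCompactSpace P] (c : Ctx P V) (hE : ∀ f, c.E f)
    (z : C(P, ℂ)) (hz : ∀ p, ‖z p‖ ≤ 1) (upd : C(P × Metric.closedBall (0 : ℂ) 1, P))
    (h1 : ∀ p w, z (upd (p, w)) = w)
    (h2 : ∀ p, ∀ w : Metric.closedBall (0 : ℂ) 1, (w : ℂ) = z p → upd (p, w) = p)
    (h3 : ∀ p w w', upd (upd (p, w), w') = upd (p, w'))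
    (h4 : ∀ p, ‖z p‖ = 1 → c.P0 p)
    (h5 : ∀ p, ∀ w : Metric.closedBall (0 : ℂ) 1,
      c.P0 (upd (p, w)) ↔ ‖(w : ℂ)‖ = 1 ∨ c.P0 (upd (p, ⟨0, by simp⟩)))
    (l : ℕ) (_hl : 1 ≤ l) (g : BMap c c)
    (hg : ∀ f p, ∀ w : Metric.closedBall (0 : ℂ) 1, (w : ℂ) = psi l (z p) →
      g.toFun f p = f (upd (p, w)))
    (x : c.A) : g.map x = l • x := by
  refine DiscCoord.degree ⟨z, hz, upd, h1, h2, h3, h4, h5, hE⟩ l g (fun f p => ?_) x
  refine hg f p (rdisc (psi l (z p))) (rdisc_of_le ?_)
  rw [norm_psi]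
  exact hz p

end MP5f.S4
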