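import Pool.Agent.H.MP_5f9601_gt.U.FJO
import Pool.Agent.H.MP_5f9601_gt.U.Deg

/-!
MP_5f9601, section 4: the power maps of the source (helper98).

Strict commutation of `pre` and `Psi` with `oo` and `jj`, and the degrees of `preC` (`k ^ al`), `preX` (`k ^ i`) and
`PsiC` (`l ^ (i + al)`) from the disc degree lemma.  This gives the four relations `hoP`, `hPj`, `hoF`, `hFj` of `main_alg`.
-/

set_option autoImplicit false

open Set Topology ComplexConjugate

namespace MP5f.S4

/-! ### disc coordinates -/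

section coord

variable {P V : Type} [TopologicalSpace P] [NormedAddCommGroup V]

/-- a disc coordinate of the source -/
structure DiscCoordP (c : Ctx P V) where
  z : C(P, ℂ)
  hz : ∀ p, ‖z p‖ ≤ 1
  upd : C(P × Metric.closedBall (0 : ℂ) 1, P)
  h1 : ∀ p w, z (upd (p, w)) = w
  h2 : ∀ p, ∀ w : Metric.closedBall (0 : ℂ) 1, (w : ℂ) = z p → upd (p, w) = p
  h3 : ∀ p w w', upd (upd (p, w), w') = upd (p, w')
  h4 : ∀ p, ‖z p‖ = 1 → c.P0 p
  h5 : ∀ p, ∀ w : Metric.closedBall (0 : ℂ) 1,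
    c.P0 (upd (p, w)) ↔ ‖(w : ℂ)‖ = 1 ∨ c.P0 (upd (p, ⟨0, by simp⟩))

/-- the power map on a disc coordinate -/
noncomputable def DiscCoordP.pm {c : Ctx P V} (d : DiscCoordP c) (l : ℕ) (p : P) : P :=
  d.upd (p, ⟨psi l (d.z p), by rw [mem_closedBall_zero_iff, norm_psi]; exact d.hz p⟩)

theorem DiscCoordP.continuous_pm {c : Ctx P V} (d : DiscCoordP c) (l : ℕ) : Continuous (d.pm l) :=
  d.upd.continuous.comp (continuous_id.prodMk
    (Continuous.subtype_mk ((continuous_psi l).comp d.z.continuous) _))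

theorem DiscCoordP.P0_pm {c : Ctx P V} (d : DiscCoordP c) (l : ℕ) {p : P} (hp : c.P0 p) :
    c.P0 (d.pm l p) := by
  unfold DiscCoordP.pm
  rw [d.h5]
  have h := (d.h5 p ⟨d.z p, by rw [mem_closedBall_zero_iff]; exact d.hz p⟩).1
    (by rw [d.h2 p _ rfl]; exact hp)
  simpa [norm_psi] using h

variable [CompactSpace P] [T2Space P]

/-- precomposition with the power map on a disc coordinate -/
noncomputable def DiscCoordP.pre {c : Ctx P V} (d : DiscCoordP c) (hE : ∀ f, c.E f) (l : ℕ) :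
    BMap c c :=
  BMap.ofFormula (fun f p => f (d.pm l p))
    (c.continuous_eval.comp (f := fun q : c.FS × P => (q.1, d.pm l q.2))
      (continuous_fst.prodMk ((d.continuous_pm l).comp continuous_snd)))
    (fun f _ => f.ne _) (fun f _ hp => f.base (d.P0_pm l hp)) (fun _ => hE _) (fun _ => rfl)

theorem DiscCoordP.pre_apply {c : Ctx P V} (d : DiscCoordP c) (hE : ∀ f, c.E f) (l : ℕ) (f : c.FS)
    (p : P) : (d.pre hE l).toFun f p = f (d.pm l p) := rfl

theorem DiscCoordP.pre_map {c : Ctx P V} (d : DiscCoordP c) (hE : ∀ f, c.E f) {l : ℕ} (hl : 1 ≤ l)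
    (x : c.A) : (d.pre hE l).map x = l • x := by
  refine BMap.degree c hE d.z d.hz d.upd d.h1 d.h2 d.h3 d.h4 d.h5 l hl _ (fun f p w hw => ?_) x
  rw [DiscCoordP.pre_apply]
  unfold DiscCoordP.pm
  congr 3
  exact Subtype.ext hw.symm

omit [CompactSpace P] [T2Space P] in
theorem rp_ext {c c' : Ctx P V} {g g' : BMap c c'} (h : ∀ f p, g.toFun f p = g'.toFun f p) :
    g = g' := by
  have h1 : g.toFun = g'.toFun := ContinuousMap.ext fun f => Ctx.FS.ext fun p => h f p
  cases g
  cases g'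
  simp only at h1
  subst h1
  rfl

omit [CompactSpace P] [T2Space P] in
theorem rp_ext' {P' V' : Type} [TopologicalSpace P'] [NormedAddCommGroup V'] {c : Ctx P V}
    {c' : Ctx P' V'} {g g' : BMap c c'} (h : ∀ f p, g.toFun f p = g'.toFun f p) : g = g' := by
  have h1 : g.toFun = g'.toFun := ContinuousMap.ext fun f => Ctx.FS.ext fun p => h f p
  cases g
  cases g'
  simp only at h1
  subst h1
  rfl

/-- power maps on a finite family of disc coordinates -/
theorem map_family {ι : Type} [DecidableEq ι] (c : Ctx P V) (hE : ∀ f, c.E f)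
    (d : ι → DiscCoordP c) {l : ℕ} (hl : 1 ≤ l) (Θ : Finset ι → P → P) (h0 : ∀ p, Θ ∅ p = p)
    (hins : ∀ s j, j ∉ s → ∀ p, Θ (insert j s) p = (d j).pm l (Θ s p)) (S : Finset ι)
    (g : BMap c c) (hg : ∀ f p, g.toFun f p = f (Θ S p)) (x : c.A) : g.map x = l ^ S.card • x := by
  have key : ∀ s : Finset ι, ∃ G : BMap c c, (∀ f p, G.toFun f p = f (Θ s p)) ∧
      ∀ x, G.map x = l ^ s.card • x := by
    intro s
    induction s using Finset.induction_on with
    | empty =>
      refine ⟨⟨ContinuousMap.id _, rfl⟩, fun f p => by rw [h0]; rfl, fun x => ?_⟩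
      rw [Finset.card_empty, pow_zero, one_smul]
      exact BMap.map_id _ (fun f p => rfl) x
    | insert j s hj ih =>
      obtain ⟨G, h1, h2⟩ := ih
      refine ⟨G.comp ((d j).pre hE l), fun f p => ?_, fun x => ?_⟩
      · show G.toFun (((d j).pre hE l).toFun f) p = _
        rw [h1, DiscCoordP.pre_apply, hins s j hj]
      · rw [BMap.map_comp, h2, DiscCoordP.pre_map _ hE hl, Finset.card_insert_of_notMem hj, smul_smul,
          pow_succ]
  obtain ⟨G, h1, h2⟩ := key S
  have h3 : g = G := rp_ext fun f p => by rw [hg, h1]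
  rw [h3, h2]

end coord

/-! ### power maps on a finite set of coordinates -/

/-- `psi l` on the coordinates in `t` -/
noncomputable def psFin {n : ℕ} (l : ℕ) (t : Finset (Fin n)) (z : Fin n → ℂ) : Fin n → ℂ :=
  fun j => if j ∈ t then psi l (z j) else z j

theorem psFin_empty {n : ℕ} (l : ℕ) (z : Fin n → ℂ) : psFin l ∅ z = z := by
  funext j
  simp [psFin]

theorem psFin_insert {n : ℕ} (l : ℕ) {t : Finset (Fin n)} {j : Fin n} (hj : j ∉ t)
    (z : Fin n → ℂ) :
    psFin l (insert j t) z = Function.update (psFin l t z) j (psi l (psFin l t z j)) := by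
  funext k
  by_cases hk : k = j
  · subst hk
    simp [psFin, hj]
  · rw [Function.update_of_ne hk]
    simp [psFin, Finset.mem_insert, hk]

theorem norm_psFin {n : ℕ} (l : ℕ) (t : Finset (Fin n)) (z : Fin n → ℂ) : ‖psFin l t z‖ = ‖z‖ := by
  simp only [Pi.norm_def]
  congr 2
  funext j
  rw [← NNReal.coe_inj]
  show ‖psFin l t z j‖ = ‖z j‖
  unfold psFin
  split_ifs
  · exact norm_psi l _
  · rfl

theorem rp_norm_update {n : ℕ} (z : Fin n → ℂ) (j : Fin n) (w : ℂ) :
    ‖Function.update z j w‖ = max ‖w‖ ‖Function.update z j 0‖ := by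
  refine le_antisymm ?_ (max_le ?_ ?_)
  · refine (pi_norm_le_iff_of_nonneg (le_max_of_le_left (norm_nonneg _))).2 fun i => ?_
    by_cases hi : i = j
    · subst hi
      rw [Function.update_self]
      exact le_max_left _ _
    · rw [Function.update_of_ne hi]
      refine le_max_of_le_right ?_
      have h := norm_le_pi_norm (Function.update z j (0 : ℂ)) i
      rwa [Function.update_of_ne hi] at h
  · have h := norm_le_pi_norm (Function.update z j w) j
    rwa [Function.update_self] at h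
  · refine (pi_norm_le_iff_of_nonneg (norm_nonneg _)).2 fun i => ?_
    by_cases hi : i = j
    · subst hi
      rw [Function.update_self, norm_zero]
      exact norm_nonneg _
    · have h := norm_le_pi_norm (Function.update z j w) i
      rw [Function.update_of_ne hi] at h
      rwa [Function.update_of_ne hi]

theorem rp_norm_update_le {n : ℕ} (z : Fin n → ℂ) (j : Fin n) {w : ℂ} (hz : ‖z‖ ≤ 1)
    (hw : ‖w‖ ≤ 1) : ‖Function.update z j w‖ ≤ 1 := by
  refine (pi_norm_le_iff_of_nonneg zero_le_one).2 fun i => ?_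
  by_cases hi : i = j
  · subst hi
    rwa [Function.update_self]
  · rw [Function.update_of_ne hi]
    exact (norm_le_pi_norm z i).trans hz

theorem rp_ball_norm {al c : ℕ} (v : Ball al c) : ‖(v : W al c)‖ ≤ 1 := mem_closedBall_zero_iff.1 v.2

theorem rp_max_eq_one {a b : ℝ} (ha : a ≤ 1) (hb : b ≤ 1) : max a b = 1 ↔ a = 1 ∨ b = 1 := by
  constructor
  · intro h
    rcases max_choice a b with h' | h'
    · exact Or.inl (h'.symm.trans h)
    · exact Or.inr (h'.symm.trans h)
  · rintro (h | h)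
    · rw [h]; exact max_eq_left hb
    · rw [h]; exact max_eq_right ha

section cells

variable (N i al be c : ℕ) (K : Type) [TopologicalSpace K] [Par K]

/-! #### the coordinates of the ball -/

variable {al c} in
/-- replace the `j`th weighted coordinate of a point of the ball -/
def updB1 (j : Fin al) (v : Ball al c) (w : Metric.closedBall (0 : ℂ) 1) : Ball al c :=
  ⟨(Function.update (v : W al c).1 j (w : ℂ), (v : W al c).2), by
    have hv : ‖(v : W al c)‖ ≤ 1 := rp_ball_norm v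
    have hw : ‖(w : ℂ)‖ ≤ 1 := mem_closedBall_zero_iff.1 w.2
    rw [mem_closedBall_zero_iff]
    rw [Prod.norm_def] at hv ⊢
    exact max_le (rp_norm_update_le _ _ ((le_max_left _ _).trans hv) hw)
      ((le_max_right _ _).trans hv)⟩

theorem norm_updB1 (j : Fin al) (v : Ball al c) (w : Metric.closedBall (0 : ℂ) 1) :
    ‖((updB1 j v w : Ball al c) : W al c)‖ =
      max ‖(w : ℂ)‖ ‖((updB1 j v ⟨0, by simp⟩ : Ball al c) : W al c)‖ := by
  show ‖(Function.update (v : W al c).1 j (w : ℂ), (v : W al c).2)‖ =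
    max ‖(w : ℂ)‖ ‖(Function.update (v : W al c).1 j (0 : ℂ), (v : W al c).2)‖
  rw [Prod.norm_def, Prod.norm_def]
  show max ‖Function.update (v : W al c).1 j (w : ℂ)‖ ‖(v : W al c).2‖ =
    max ‖(w : ℂ)‖ (max ‖Function.update (v : W al c).1 j (0 : ℂ)‖ ‖(v : W al c).2‖)
  rw [rp_norm_update, max_assoc]

/-- the weighted coordinates of the ball as disc coordinates of the cell -/
def dcB (j : Fin al) : DiscCoordP (CC N i al be c K) where
  z := ⟨fun p => (p.2.1 : W al c).1 j,
    (continuous_apply j).comp (continuous_fst.comp (continuous_subtype_val.comp (by fun_prop)))⟩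
  hz p := (norm_le_pi_norm (p.2.1 : W al c).1 j).trans ((norm_fst_le _).trans (rp_ball_norm p.2.1))
  upd := ⟨fun q => (q.1.1, updB1 j q.1.2.1 q.2, q.1.2.2), by
    refine Continuous.prodMk (by fun_prop) (Continuous.prodMk (Continuous.subtype_mk ?_ _)
      (by fun_prop))
    refine Continuous.prodMk ?_ ?_
    · refine Continuous.update ?_ j (continuous_subtype_val.comp continuous_snd)
      exact continuous_fst.comp (continuous_subtype_val.comp (by fun_prop))
    · exact continuous_snd.comp (continuous_subtype_val.comp (by fun_prop))⟩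
  h1 p w := by
    show Function.update (p.2.1 : W al c).1 j (w : ℂ) j = w
    rw [Function.update_self]
  h2 p w hw := by
    refine Prod.ext rfl (Prod.ext (Subtype.ext (Prod.ext ?_ rfl)) rfl)
    show Function.update (p.2.1 : W al c).1 j (w : ℂ) = (p.2.1 : W al c).1
    rw [hw]
    exact Function.update_eq_self j _
  h3 p w w' := by
    refine Prod.ext rfl (Prod.ext (Subtype.ext (Prod.ext ?_ rfl)) rfl)
    show Function.update (Function.update (p.2.1 : W al c).1 j (w : ℂ)) j (w' : ℂ) =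
      Function.update (p.2.1 : W al c).1 j (w' : ℂ)
    rw [Function.update_idem]
  h4 p hp := by
    refine Or.inr (Or.inl (le_antisymm (rp_ball_norm p.2.1) ?_))
    calc (1 : ℝ) = ‖(p.2.1 : W al c).1 j‖ := hp.symm
      _ ≤ ‖(p.2.1 : W al c).1‖ := norm_le_pi_norm _ _
      _ ≤ ‖(p.2.1 : W al c)‖ := norm_fst_le _
  h5 p w := by
    have hw : ‖(w : ℂ)‖ ≤ 1 := mem_closedBall_zero_iff.1 w.2
    have h3 : ‖((updB1 j p.2.1 w : Ball al c) : W al c)‖ = 1 ↔
        ‖(w : ℂ)‖ = 1 ∨ ‖((updB1 j p.2.1 ⟨0, by simp⟩ : Ball al c) : W al c)‖ = 1 := by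
      rw [norm_updB1]
      exact rp_max_eq_one hw (rp_ball_norm _)
    show (‖(p.1 : Fin N → ℂ)‖ = 1 ∨ ‖((updB1 j p.2.1 w : Ball al c) : W al c)‖ = 1 ∨
      Par.bd p.2.2) ↔ ‖(w : ℂ)‖ = 1 ∨ (‖(p.1 : Fin N → ℂ)‖ = 1 ∨
        ‖((updB1 j p.2.1 ⟨0, by simp⟩ : Ball al c) : W al c)‖ = 1 ∨ Par.bd p.2.2)
    rw [h3]
    tauto

variable {al c} in
/-- power maps on a set of coordinates of the ball -/
noncomputable def psBs (l : ℕ) (t : Finset (Fin al)) (v : Ball al c) : Ball al c :=
  ⟨(psFin l t (v : W al c).1, (v : W al c).2), by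
    have := v.2
    rw [mem_closedBall_zero_iff] at this ⊢
    rwa [Prod.norm_def, norm_psFin, ← Prod.norm_def]⟩

variable [CompactSpace K] [T2Space K]

/-- **degree of the power maps on the ball** -/
theorem preC_map {k : ℕ} (hk : 1 ≤ k) (x : (CC N i al be c K).A) :
    (preC k N i al be c K).map x = k ^ al • x := by
  have h := map_family (CC N i al be c K) (fun _ => trivial) (dcB N i al be c K) hk
    (fun t p => (p.1, psBs k t p.2.1, p.2.2))
    (fun p => Prod.ext rfl (Prod.ext (Subtype.ext (Prod.ext (psFin_empty k _) rfl)) rfl))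
    (fun s j hj p => Prod.ext rfl (Prod.ext (Subtype.ext (Prod.ext (psFin_insert k hj _) rfl)) rfl))
    Finset.univ (preC k N i al be c K) (fun f p => ?_) x
  · rw [h, Finset.card_univ, Fintype.card_fin]
  · show f (p.1, psB k p.2.1, p.2.2) = f (p.1, psBs k Finset.univ p.2.1, p.2.2)
    congr 1
    refine Prod.ext rfl (Prod.ext (Subtype.ext (Prod.ext ?_ rfl)) rfl)
    show psv k _ = psFin k Finset.univ _
    funext j
    simp [psFin, psv]

/-! #### the coordinates of the cell -/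

omit [TopologicalSpace K] [Par K] [CompactSpace K] [T2Space K] in
theorem rp_D_norm {N i : ℕ} (x : D N i) : ‖(x : Fin N → ℂ)‖ ≤ 1 := x.2.1

variable {N i} in
/-- replace the `j`th coordinate of a point of the cell -/
def updD (j : Fin N) (hj : (j : ℕ) < i) (x : D N i) (w : Metric.closedBall (0 : ℂ) 1) : D N i :=
  ⟨Function.update (x : Fin N → ℂ) j (w : ℂ),
    rp_norm_update_le _ _ x.2.1 (mem_closedBall_zero_iff.1 w.2), fun k hk => by
      have hkj : k ≠ j := fun h => by
        rw [h] at hk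
        omega
      rw [Function.update_of_ne hkj]
      exact x.2.2 k hk⟩

theorem norm_updD (j : Fin N) (hj : (j : ℕ) < i) (x : D N i) (w : Metric.closedBall (0 : ℂ) 1) :
    ‖(updD j hj x w : Fin N → ℂ)‖ = max ‖(w : ℂ)‖ ‖(updD j hj x ⟨0, by simp⟩ : Fin N → ℂ)‖ :=
  rp_norm_update _ _ _

omit [CompactSpace K] [T2Space K] in
theorem rp_castLE_lt {N i : ℕ} (hi : i ≤ N) (j : Fin i) : (Fin.castLE hi j : ℕ) < i := j.2

/-- the coordinates of the cell as disc coordinates -/
def dcD (hi : i ≤ N) (j : Fin i) : DiscCoordP (CC N i al be c K) where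
  z := ⟨fun p => (p.1 : Fin N → ℂ) (Fin.castLE hi j),
    (continuous_apply (Fin.castLE hi j)).comp (continuous_subtype_val.comp (by fun_prop))⟩
  hz p := (norm_le_pi_norm (p.1 : Fin N → ℂ) _).trans p.1.2.1
  upd := ⟨fun q => (updD (Fin.castLE hi j) (rp_castLE_lt hi j) q.1.1 q.2, q.1.2), by
    refine Continuous.prodMk (Continuous.subtype_mk ?_ _) (by fun_prop)
    refine Continuous.update ?_ _ (continuous_subtype_val.comp continuous_snd)
    exact continuous_subtype_val.comp (by fun_prop)⟩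
  h1 p w := by
    show Function.update (p.1 : Fin N → ℂ) (Fin.castLE hi j) (w : ℂ) (Fin.castLE hi j) = w
    rw [Function.update_self]
  h2 p w hw := by
    refine Prod.ext (Subtype.ext ?_) rfl
    show Function.update (p.1 : Fin N → ℂ) (Fin.castLE hi j) (w : ℂ) = (p.1 : Fin N → ℂ)
    rw [hw]
    exact Function.update_eq_self _ _
  h3 p w w' := by
    refine Prod.ext (Subtype.ext ?_) rfl
    show Function.update (Function.update (p.1 : Fin N → ℂ) (Fin.castLE hi j) (w : ℂ))
      (Fin.castLE hi j) (w' : ℂ) = Function.update (p.1 : Fin N → ℂ) (Fin.castLE hi j) (w' : ℂ)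
    rw [Function.update_idem]
  h4 p hp := by
    refine Or.inl (le_antisymm p.1.2.1 ?_)
    calc (1 : ℝ) = ‖(p.1 : Fin N → ℂ) (Fin.castLE hi j)‖ := hp.symm
      _ ≤ ‖(p.1 : Fin N → ℂ)‖ := norm_le_pi_norm _ _
  h5 p w := by
    have hw : ‖(w : ℂ)‖ ≤ 1 := mem_closedBall_zero_iff.1 w.2
    have h3 : ‖(updD (Fin.castLE hi j) (rp_castLE_lt hi j) p.1 w : Fin N → ℂ)‖ = 1 ↔
        ‖(w : ℂ)‖ = 1 ∨
          ‖(updD (Fin.castLE hi j) (rp_castLE_lt hi j) p.1 ⟨0, by simp⟩ : Fin N → ℂ)‖ = 1 := by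
      rw [norm_updD]
      exact rp_max_eq_one hw (rp_D_norm _)
    show (‖(updD (Fin.castLE hi j) (rp_castLE_lt hi j) p.1 w : Fin N → ℂ)‖ = 1 ∨
      ‖(p.2.1 : W al c)‖ = 1 ∨ Par.bd p.2.2) ↔ ‖(w : ℂ)‖ = 1 ∨
        (‖(updD (Fin.castLE hi j) (rp_castLE_lt hi j) p.1 ⟨0, by simp⟩ : Fin N → ℂ)‖ = 1 ∨
          ‖(p.2.1 : W al c)‖ = 1 ∨ Par.bd p.2.2)
    rw [h3]
    tauto

variable {N i} in
/-- power maps on a set of coordinates of the cell -/
noncomputable def psDs (l : ℕ) (t : Finset (Fin N)) (x : D N i) : D N i :=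
  ⟨psFin l t (x : Fin N → ℂ), by rw [norm_psFin]; exact x.2.1, fun k hk => by
    unfold psFin
    split_ifs
    · rw [x.2.2 k hk, psi_zero]
    · exact x.2.2 k hk⟩

/-- **degree of the power maps on the cell** -/
theorem preX_map (hi : i ≤ N) {k : ℕ} (hk : 1 ≤ k) (x : (CC N i al be c K).A) :
    (preX k N i al be c K).map x = k ^ i • x := by
  have h := map_family (CC N i al be c K) (fun _ => trivial) (dcD N i al be c K hi) hk
    (fun t p => (psDs k (t.map (Fin.castLEEmb hi)) p.1, p.2))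
    (fun p => Prod.ext (Subtype.ext ((congrArg (fun t => psFin k t (p.1 : Fin N → ℂ))
      (Finset.map_empty (Fin.castLEEmb hi))).trans (psFin_empty k _))) rfl)
    (fun s j hj p => Prod.ext (Subtype.ext (by
      show psFin k ((insert j s).map (Fin.castLEEmb hi)) _ = Function.update _ _ _
      rw [Finset.map_insert, psFin_insert]
      · rfl
      · rw [Finset.mem_map']
        exact hj)) rfl)
    Finset.univ (preX k N i al be c K) (fun f p => ?_) x
  · rw [h, Finset.card_univ, Fintype.card_fin]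
  · show f (psD k p.1, p.2) = f (psDs k (Finset.univ.map (Fin.castLEEmb hi)) p.1, p.2)
    congr 1
    refine Prod.ext (Subtype.ext ?_) rfl
    show psv k _ = psFin k _ _
    funext j
    unfold psFin psv
    split_ifs with h
    · rfl
    · have hj : i ≤ (j : ℕ) := by
        by_contra hc
        push Not at hc
        apply h
        rw [Finset.mem_map]
        exact ⟨⟨j, hc⟩, Finset.mem_univ _, rfl⟩
      rw [p.1.2.2 j hj, psi_zero]

/-- **degree of the power maps on all coordinates** -/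
theorem PsiC_map (hi : i ≤ N) {l : ℕ} (hl : 1 ≤ l) (x : (CC N i al be c K).A) :
    (PsiC l N i al be c K).map x = l ^ (i + al) • x := by
  unfold PsiC
  rw [BMap.map_comp, preC_map N i al be c K hl, map_nsmul, preX_map N i al be c K hi hl, smul_smul,
    pow_add, mul_comm]

end cells

/-! ### strict commutation with `oo` and `jj` -/

section strict

variable {N i al be c : ℕ} {a a' : Fin al → ℕ} {b b' : Fin be → ℕ}

theorem pre_apply (k : ℕ) (b : Fin be → ℕ) (ha : ∀ j, a' j = k * a j) (c : ℕ) (K : Type)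
    [TopologicalSpace K] [Par K] [CompactSpace K] [T2Space K] (f : (YC N i a' b c K).FS)
    (p : X N i × Ball al c × K) :
    (pre k b ha c K).toFun f p = f (p.1, psB k p.2.1, p.2.2) := rfl

theorem Psi_apply (l : ℕ) (a : Fin al → ℕ) (hb : ∀ j, b' j = l * b j) (c : ℕ) (K : Type)
    [TopologicalSpace K] [Par K] [CompactSpace K] [T2Space K] (f : (YC N i a b c K).FS)
    (p : X N i × Ball al c × K) :
    (Psi l a hb c K).toFun f p = f (psX l p.1, psB l p.2.1, p.2.2) := rfl

theorem preC_apply (k : ℕ) (K : Type) [TopologicalSpace K] [Par K] [CompactSpace K] [T2Space K]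
    (f : (CC N i al be c K).FS) (p : D N i × Ball al c × K) :
    (preC k N i al be c K).toFun f p = f (p.1, psB k p.2.1, p.2.2) := rfl

theorem PsiC_apply (l : ℕ) (K : Type) [TopologicalSpace K] [Par K] [CompactSpace K] [T2Space K]
    (f : (CC N i al be c K).FS) (p : D N i × Ball al c × K) :
    (PsiC l N i al be c K).toFun f p = f (psD l p.1, psB l p.2.1, p.2.2) := rfl

/-- `oo` and the power map of the source -/
theorem oo_pre (k : ℕ) (b : Fin be → ℕ) (ha : ∀ j, a' j = k * a j) (N i c rho : ℕ) :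
    (oo a b N i c rho).comp (pre k b ha c (Cu (rho + 1))) =
      (preC k N i al be c (Cu rho)).comp (oo a' b N i c rho) := by
  refine rp_ext' fun f p => ?_
  obtain ⟨x, v, q⟩ := p
  show (oo a b N i c rho).toFun ((pre k b ha c (Cu (rho + 1))).toFun f) (x, v, q) =
    (preC k N i al be c (Cu rho)).toFun ((oo a' b N i c rho).toFun f) (x, v, q)
  rw [preC_apply]
  by_cases h : (x : Fin N → ℂ) ≠ 0
  · rw [oo_apply_ne _ _ _ _ h, oo_apply_ne _ _ _ _ h, pre_apply]
  · push Not at h
    rw [oo_apply_zero _ _ _ _ h, oo_apply_zero _ _ _ _ h]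

theorem rp_psD_ne {l : ℕ} {x : D N i} (h : (x : Fin N → ℂ) ≠ 0) : (psD l x : Fin N → ℂ) ≠ 0 := by
  rw [← norm_ne_zero_iff, norm_psD]
  exact norm_ne_zero_iff.2 h

theorem dirX_psD (l : ℕ) (x : D N i) (h : (x : Fin N → ℂ) ≠ 0) :
    dirX (psD l x) (rp_psD_ne h) = psX l (dirX x h) := by
  apply Subtype.ext
  show ((‖(psD l x : Fin N → ℂ)‖⁻¹ : ℝ) : ℂ) • psv l (x : Fin N → ℂ) =
    psv l (((‖(x : Fin N → ℂ)‖⁻¹ : ℝ) : ℂ) • (x : Fin N → ℂ))
  rw [psv_rsmul l (inv_nonneg.2 (norm_nonneg _)), norm_psD]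

theorem rad_psD (l : ℕ) (x : D N i) : rad (psD l x) = rad x := Subtype.ext (norm_psD l x)

/-- `oo` and the power maps on all coordinates -/
theorem oo_Psi (l : ℕ) (a : Fin al → ℕ) (hb : ∀ j, b' j = l * b j) (N i c rho : ℕ) :
    (oo a b' N i c rho).comp (Psi l a hb c (Cu (rho + 1))) =
      (PsiC l N i al be c (Cu rho)).comp (oo a b N i c rho) := by
  refine rp_ext' fun f p => ?_
  obtain ⟨x, v, q⟩ := p
  show (oo a b' N i c rho).toFun ((Psi l a hb c (Cu (rho + 1))).toFun f) (x, v, q) =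
    (PsiC l N i al be c (Cu rho)).toFun ((oo a b N i c rho).toFun f) (x, v, q)
  rw [PsiC_apply]
  by_cases h : (x : Fin N → ℂ) ≠ 0
  · rw [oo_apply_ne _ _ _ _ h, oo_apply_ne _ _ _ _ (rp_psD_ne h), Psi_apply, dirX_psD l x h,
      rad_psD]
  · push Not at h
    have h' : (psD l x : Fin N → ℂ) = 0 := by
      rw [← norm_eq_zero, norm_psD, norm_eq_zero]
      exact h
    rw [oo_apply_zero _ _ _ _ h, oo_apply_zero _ _ _ _ h']

theorem psB_rotB (k : ℕ) (a a' : Fin al → ℕ) (ha : ∀ j, a' j = k * a j) {t : ℂ} (ht : ‖t‖ = 1)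
    (v : Ball al c) : psB k (rotB a t ht.le v) = rotB a' t ht.le (psB k v) := by
  apply Subtype.ext
  show (psv k (rot a t (v : W al c).1), (v : W al c).2) =
    (rot a' t (psv k (v : W al c).1), (v : W al c).2)
  rw [psv_rot k a a' ha ht]

/-- `jj` and the power map of the source -/
theorem jj_pre (k : ℕ) (b : Fin be → ℕ) (ha : ∀ j, a' j = k * a j) (hi : i < N) (c : ℕ) (K : Type)
    [TopologicalSpace K] [Par K] [CompactSpace K] [T2Space K] :
    (pre k b ha c K).comp (jj a' b hi c K) = (jj a b hi c K).comp (preC k N i al be c K) := by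
  refine rp_ext' fun f p => ?_
  obtain ⟨x, v, q⟩ := p
  show (pre k b ha c K).toFun ((jj a' b hi c K).toFun f) (x, v, q) =
    (jj a b hi c K).toFun ((preC k N i al be c K).toFun f) (x, v, q)
  rw [pre_apply, jj_apply, jj_apply]
  unfold jjF
  simp only
  by_cases h : ‖(x : Fin N → ℂ) ⟨i, hi⟩‖ = 1
  · have hc : ‖conj ((x : Fin N → ℂ) ⟨i, hi⟩)‖ = 1 := by rw [RCLike.norm_conj, h]
    rw [if_pos h, if_pos h, preC_apply]
    simp only
    rw [psB_rotB k a a' ha hc]
  · rw [if_neg h, if_neg h]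

theorem cellPt_psX (l : ℕ) (hi : i < N) (x : X N (i + 1))
    (h : ‖(x : Fin N → ℂ) ⟨i, hi⟩‖ = 1) : cellPt hi (psX l x) = psD l (cellPt hi x) := by
  have hc : ‖conj ((x : Fin N → ℂ) ⟨i, hi⟩)‖ = 1 := by rw [RCLike.norm_conj, h]
  have h1 : psi l ((x : Fin N → ℂ) ⟨i, hi⟩) = ((x : Fin N → ℂ) ⟨i, hi⟩) ^ l := by
    have := psi_mul l h 1
    rw [mul_one] at this
    rw [this]
    have h2 : psi l (1 : ℂ) = 1 := by simp [psi]
    rw [h2, mul_one]
  apply Subtype.ext
  show conj (psv l (x : Fin N → ℂ) ⟨i, hi⟩) • Function.update (psv l (x : Fin N → ℂ)) ⟨i, hi⟩ 0 =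
    psv l (conj ((x : Fin N → ℂ) ⟨i, hi⟩) • Function.update (x : Fin N → ℂ) ⟨i, hi⟩ 0)
  rw [psv_smul_unit l hc]
  show conj (psi l ((x : Fin N → ℂ) ⟨i, hi⟩)) • _ = _
  rw [h1, map_pow]
  congr 1
  funext j
  by_cases hj : j = ⟨i, hi⟩
  · subst hj
    simp [psv, psi_zero]
  · rw [Function.update_of_ne hj]
    simp only [psv]
    rw [Function.update_of_ne hj]

/-- `jj` and the power maps on all coordinates -/
theorem jj_Psi (l : ℕ) (a : Fin al → ℕ) (hb : ∀ j, b' j = l * b j) (hi : i < N) (c : ℕ) (K : Type)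
    [TopologicalSpace K] [Par K] [CompactSpace K] [T2Space K] :
    (Psi l a hb c K).comp (jj a b hi c K) = (jj a b' hi c K).comp (PsiC l N i al be c K) := by
  refine rp_ext' fun f p => ?_
  obtain ⟨x, v, q⟩ := p
  show (Psi l a hb c K).toFun ((jj a b hi c K).toFun f) (x, v, q) =
    (jj a b' hi c K).toFun ((PsiC l N i al be c K).toFun f) (x, v, q)
  rw [Psi_apply, jj_apply, jj_apply]
  unfold jjF
  simp only
  have hps : ((psX l x : X N (i + 1)) : Fin N → ℂ) ⟨i, hi⟩ = psi l ((x : Fin N → ℂ) ⟨i, hi⟩) := rfl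
  have hn : ‖((psX l x : X N (i + 1)) : Fin N → ℂ) ⟨i, hi⟩‖ = ‖(x : Fin N → ℂ) ⟨i, hi⟩‖ := by
    rw [hps, norm_psi]
  rw [hn]
  by_cases h : ‖(x : Fin N → ℂ) ⟨i, hi⟩‖ = 1
  · have hc : ‖conj ((x : Fin N → ℂ) ⟨i, hi⟩)‖ = 1 := by rw [RCLike.norm_conj, h]
    have h1 : psi l ((x : Fin N → ℂ) ⟨i, hi⟩) = ((x : Fin N → ℂ) ⟨i, hi⟩) ^ l := by
      have := psi_mul l h 1
      rw [mul_one] at this
      rw [this]
      have h2 : psi l (1 : ℂ) = 1 := by simp [psi]
      rw [h2, mul_one]
    have e1 : ∀ h', rotB a (conj (((psX l x : X N (i + 1)) : Fin N → ℂ) ⟨i, hi⟩)) h' (psB l v) =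
        rotB (fun j => l * a j) (conj ((x : Fin N → ℂ) ⟨i, hi⟩)) hc.le (psB l v) := by
      intro h'
      apply Subtype.ext
      show (rot a (conj (psi l ((x : Fin N → ℂ) ⟨i, hi⟩))) (psv l (v : W al c).1), (v : W al c).2) =
        (rot (fun j => l * a j) (conj ((x : Fin N → ℂ) ⟨i, hi⟩)) (psv l (v : W al c).1),
          (v : W al c).2)
      rw [h1, map_pow, rot_pow l a (fun j => l * a j) (fun _ => rfl)]
    have e2 : ∀ u : V be c, rotV b (((psX l x : X N (i + 1)) : Fin N → ℂ) ⟨i, hi⟩) u =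
        rotV b' ((x : Fin N → ℂ) ⟨i, hi⟩) u := fun u => by rw [hps, h1, rotV_pow l b b' hb]
    rw [if_pos h, if_pos h, PsiC_apply]
    simp only
    rw [cellPt_psX l hi x h, psB_rotB l a (fun j => l * a j) (fun _ => rfl) hc, e2, e1]
  · rw [if_neg h, if_neg h]

end strict

/-! ### the four relations -/

section relations

variable {N i al be : ℕ} {a a' : Fin al → ℕ} {b b' : Fin be → ℕ}

/-- **hoP** -/
theorem oo_pre_map {k : ℕ} (hk : 1 ≤ k) (b : Fin be → ℕ) (ha : ∀ j, a' j = k * a j) (N i c rho : ℕ)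
    (x : (YC N i a' b c (Cu (rho + 1))).A) :
    (oo a b N i c rho).map ((pre k b ha c (Cu (rho + 1))).map x) =
      k ^ al • (oo a' b N i c rho).map x := by
  rw [← BMap.map_comp, oo_pre, BMap.map_comp, preC_map _ _ _ _ _ _ hk]

/-- **hPj** -/
theorem pre_jj_map {k : ℕ} (hk : 1 ≤ k) (b : Fin be → ℕ) (ha : ∀ j, a' j = k * a j) (hi : i < N)
    (c : ℕ) (K : Type) [TopologicalSpace K] [Par K] [CompactSpace K] [T2Space K]
    (x : (CC N i al be c K).A) :
    (pre k b ha c K).map ((jj a' b hi c K).map x) = k ^ al • (jj a b hi c K).map x := by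
  rw [← BMap.map_comp, jj_pre, BMap.map_comp, preC_map _ _ _ _ _ _ hk, map_nsmul]

/-- **hoF** -/
theorem oo_Psi_map {l : ℕ} (hl : 1 ≤ l) (a : Fin al → ℕ) (hb : ∀ j, b' j = l * b j) (hi : i ≤ N)
    (c rho : ℕ) (x : (YC N i a b c (Cu (rho + 1))).A) :
    (oo a b' N i c rho).map ((Psi l a hb c (Cu (rho + 1))).map x) =
      l ^ (i + al) • (oo a b N i c rho).map x := by
  rw [← BMap.map_comp, oo_Psi, BMap.map_comp, PsiC_map _ _ _ _ _ _ hi hl]

/-- **hFj** -/
theorem Psi_jj_map {l : ℕ} (hl : 1 ≤ l) (a : Fin al → ℕ) (hb : ∀ j, b' j = l * b j) (hi : i < N)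
    (c : ℕ) (K : Type) [TopologicalSpace K] [Par K] [CompactSpace K] [T2Space K]
    (x : (CC N i al be c K).A) :
    (Psi l a hb c K).map ((jj a b hi c K).map x) = l ^ (i + al) • (jj a b' hi c K).map x := by
  rw [← BMap.map_comp, jj_Psi, BMap.map_comp, PsiC_map _ _ _ _ _ _ hi.le hl, map_nsmul]

end relations

end MP5f.S4
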