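import Pool.Agent.H.MP_5f9601_gt.U.RelJ
import Pool.Agent.H.MP_5f9601_gt.U.Pi2

/-!
MP_5f9601, section 4 (helper25): strict commutations of the operations on the spheres.
-/

set_option autoImplicit false

open Set Topology ComplexConjugate

namespace MP5f.S4

section

variable {N i j al be c l k : ℕ} {a a' : Fin al → ℕ} {b b' : Fin be → ℕ} {K : Type}
  [TopologicalSpace K] [Par K] [CompactSpace K] [T2Space K]

theorem norm_headB (v : Ball al (c + 1)) : ‖headB v‖ ≤ 1 := norm_headB_le v

theorem psB_tailB (k : ℕ) (v : Ball al (c + 1)) : psB k (tailB v) = tailB (psB k v) := rfl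

theorem psB_headB (k : ℕ) (v : Ball al (c + 1)) : headB (psB k v) = headB v := rfl

theorem s_pre_sus (ha : ∀ j, a' j = k * a j) :
    (pre (N := N) (i := i) k b ha (c + 1) K).comp (sus a' b c K) =
      (sus a b c K).comp (pre k b ha c K) :=
  BMap.ext_fun fun _ => Ctx.FS.ext fun _ => rfl

theorem s_pre_rr (ha : ∀ j, a' j = k * a j) (hb : ∀ j, b' j = l * b j) :
    (pre (N := N) (i := i) k b' ha c K).comp (rr l a' hb c K) =
      (rr l a hb c K).comp (pre k b ha c K) :=
  BMap.ext_fun fun _ => Ctx.FS.ext fun _ => rfl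

theorem psB_comm (k l : ℕ) (v : Ball al c) : psB l (psB k v) = psB k (psB l v) := by
  apply Subtype.ext
  show (psv l (psv k (v : W al c).1), (v : W al c).2) = (psv k (psv l (v : W al c).1), (v : W al c).2)
  rw [psv_psv, psv_psv, mul_comm]

theorem s_pre_Psi (ha : ∀ j, a' j = k * a j) (hb : ∀ j, b' j = l * b j) :
    (pre (N := N) (i := i) k b' ha c K).comp (Psi l a' hb c K) =
      (Psi l a hb c K).comp (pre k b ha c K) := by
  refine BMap.ext_fun fun f => Ctx.FS.ext fun x => ?_
  show f (psX l x.1, psB l (psB k x.2.1), x.2.2) = f (psX l x.1, psB k (psB l x.2.1), x.2.2)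
  rw [psB_comm]

theorem s_res_pre (ha : ∀ j, a' j = k * a j) (h : i ≤ j) :
    (res (N := N) a b c K h).comp (pre k b ha c K) = (pre k b ha c K).comp (res a' b c K h) :=
  BMap.ext_fun fun _ => Ctx.FS.ext fun _ => rfl

theorem s_rr_sus (hb : ∀ j, b' j = l * b j) :
    (rr (N := N) (i := i) l a hb (c + 1) K).comp (sus a b c K) =
      (sus a b' c K).comp (rr l a hb c K) := by
  refine BMap.ext_fun fun f => Ctx.FS.ext fun x => ?_
  exact (susV_psV l (norm_headB_le _) _).symm

theorem s_res_rr (hb : ∀ j, b' j = l * b j) (h : i ≤ j) :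
    (res (N := N) a b' c K h).comp (rr l a hb c K) = (rr l a hb c K).comp (res a b c K h) :=
  BMap.ext_fun fun _ => Ctx.FS.ext fun _ => rfl

theorem s_res_sus (h : i ≤ j) :
    (res (N := N) a b (c + 1) K h).comp (sus a b c K) = (sus a b c K).comp (res a b c K h) :=
  BMap.ext_fun fun _ => Ctx.FS.ext fun _ => rfl

theorem s_rrC_susC :
    (rrC l N i al be (c + 1) K).comp (susC N i al be c K) =
      (susC N i al be c K).comp (rrC l N i al be c K) := by
  refine BMap.ext_fun fun f => Ctx.FS.ext fun x => ?_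
  exact (susV_psV l (norm_headB_le _) _).symm

end

end MP5f.S4
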