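import Pool.Agent.H.MP_5f9601_gt.U.AsmDefs
import Pool.Agent.H.MP_5f9601_gt.U.OR
import Pool.Agent.H.MP_5f9601_gt.U.ExCMap
import Pool.Agent.H.MP_5f9601_gt.U.FExJ
import Pool.Agent.H.MP_5f9601_gt.U.BaseX2
import Pool.Agent.H.MP_5f9601_gt.U.RelS
import Pool.Agent.H.MP_5f9601_gt.U.RelP
import Pool.Agent.H.MP_5f9601_gt.U.FExO
import Pool.Agent.H.MP_5f9601_gt.U.DPost2

/-!
MP_5f9601, section 4 (helper25): `LS.Alg.main_alg` applied to the groups of maps.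
-/

set_option autoImplicit false

open Set Topology

namespace MP5f.S4

section

variable (p q l : ℕ)

/-! ### strict commutations -/

theorem g_hPS (i ρ c e : ℕ) (f : HH p q l (aw (p * q)) i ρ c e) :
    mP p q l i ρ (c + 1) e (mS p q l _ i ρ c e f) = mS p q l _ i ρ c e (mP p q l i ρ c e f) := by
  unfold mP mS
  rw [← BMap.map_comp, ← BMap.map_comp, s_pre_sus]

theorem g_hPr (i ρ c e : ℕ) (f : HH p q l (aw (p * q)) i ρ c e) :
    mP p q l i ρ c (e + 1) (mr p q l _ i ρ c e f) = mr p q l _ i ρ c e (mP p q l i ρ c e f) := by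
  unfold mP mr
  rw [← BMap.map_comp, ← BMap.map_comp, s_pre_rr]

theorem g_hPF (i ρ c e : ℕ) (f : HH p q l (aw (p * q)) i ρ c e) :
    mP p q l i ρ c (e + 1) (mF p q l _ i ρ c e f) = mF p q l _ i ρ c e (mP p q l i ρ c e f) := by
  unfold mP mF
  rw [← BMap.map_comp, ← BMap.map_comp, s_pre_Psi]

theorem g_hPR (i ρ c e : ℕ) (f : HH p q l (aw (p * q)) (i + 1) ρ c e) :
    mR p q l _ i ρ c e (mP p q l (i + 1) ρ c e f) = mP p q l i ρ c e (mR p q l _ i ρ c e f) := by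
  unfold mP mR
  rw [← BMap.map_comp, ← BMap.map_comp, s_res_pre]

theorem g_hrS (a : Fin 1 → ℕ) (i ρ c e : ℕ) (x : HH p q l a i ρ c e) :
    mr p q l a i ρ (c + 1) e (mS p q l a i ρ c e x) =
      mS p q l a i ρ c (e + 1) (mr p q l a i ρ c e x) := by
  unfold mr mS
  rw [← BMap.map_comp, ← BMap.map_comp, s_rr_sus]

theorem g_hrR (a : Fin 1 → ℕ) (i ρ c e : ℕ) (x : HH p q l a (i + 1) ρ c e) :
    mR p q l a i ρ c (e + 1) (mr p q l a (i + 1) ρ c e x) =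
      mr p q l a i ρ c e (mR p q l a i ρ c e x) := by
  unfold mr mR
  rw [← BMap.map_comp, ← BMap.map_comp, s_res_rr]

theorem g_hSR (a : Fin 1 → ℕ) (i ρ c e : ℕ) (x : HH p q l a (i + 1) ρ c e) :
    mR p q l a i ρ (c + 1) e (mS p q l a (i + 1) ρ c e x) =
      mS p q l a i ρ c e (mR p q l a i ρ c e x) := by
  unfold mS mR
  rw [← BMap.map_comp, ← BMap.map_comp, s_res_sus]

theorem g_hrSC' (i ρ c : ℕ) (κ : CG p i ρ c) :
    mrC p l i ρ (c + 1) (mSC p i ρ c κ) = mSC p i ρ c (mrC p l i ρ c κ) := by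
  unfold mSC mrC
  rw [← BMap.map_comp, ← BMap.map_comp, s_rrC_susC]

theorem g_hro (a : Fin 1 → ℕ) (i ρ c e : ℕ) (x : HH p q l a i (ρ + 1) c e) :
    mo p q l a i ρ c (e + 1) (mr p q l a i (ρ + 1) c e x) =
      mrC p l i ρ c (mo p q l a i ρ c e x) := by
  have h := oo_rr (l := l) a (bw_succ p q l e) p i c ρ
  unfold mo mr mrC
  rw [← BMap.map_comp, ← BMap.map_comp]
  exact congrArg (fun g => BMap.map g x) h

theorem g_hSo (a : Fin 1 → ℕ) (i ρ c e : ℕ) (x : HH p q l a i (ρ + 1) c e) :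
    mo p q l a i ρ (c + 1) e (mS p q l a i (ρ + 1) c e x) =
      mSC p i ρ c (mo p q l a i ρ c e x) := by
  have h := oo_sus a (bw p q l e) p i c ρ
  unfold mo mS mSC
  rw [← BMap.map_comp, ← BMap.map_comp]
  exact congrArg (fun g => BMap.map g x) h

theorem g_hrj (a : Fin 1 → ℕ) (i : ℕ) (hi : i < p) (ρ c e : ℕ) (κ : CG p i ρ c) :
    mr p q l a (i + 1) ρ c e (mj p q l a i ρ c e κ) =
      mj p q l a i ρ c (e + 1) (mrC p l i ρ c κ) := by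
  have h := jj_rr (l := l) a (bw_succ p q l e) hi c (Cu ρ)
  rw [mj_eq _ _ _ _ _ _ _ _ hi, mj_eq _ _ _ _ _ _ _ _ hi]
  unfold mr mrC
  rw [← BMap.map_comp, ← BMap.map_comp]
  exact congrArg (fun g => BMap.map g κ) h

theorem g_hSj (a : Fin 1 → ℕ) (i : ℕ) (hi : i < p) (ρ c e : ℕ) (κ : CG p i ρ c) :
    mS p q l a (i + 1) ρ c e (mj p q l a i ρ c e κ) =
      mj p q l a i ρ (c + 1) e (mSC p i ρ c κ) := by
  have h := jj_sus a (bw p q l e) hi c (Cu ρ)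
  rw [mj_eq _ _ _ _ _ _ _ _ hi, mj_eq _ _ _ _ _ _ _ _ hi]
  unfold mS mSC
  rw [← BMap.map_comp, ← BMap.map_comp]
  exact congrArg (fun g => BMap.map g κ) h

/-! ### the class `y` -/

theorem g_hSy (i ρ c e : ℕ) : mS p q l _ i ρ c e (yy p q l i ρ c e) = yy p q l i ρ (c + 1) e := by
  unfold mS yy
  rw [BMap.map_cls]
  exact Ctx.cls_eq (sus_yloop p i p q l e c ρ _ fun _ => rfl)

theorem g_hry (i ρ c e : ℕ) : mr p q l _ i ρ c e (yy p q l i ρ c e) = yy p q l i ρ c (e + 1) := by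
  unfold mr yy
  exact BMap.map_cls' _ _ _ fun s => rr_yloop (bw_succ p q l e) s

theorem g_hFy (i ρ c e : ℕ) : mF p q l _ i ρ c e (yy p q l i ρ c e) = yy p q l i ρ c (e + 1) := by
  unfold mF yy
  exact BMap.map_cls' _ _ _ fun s => Psi_yloop (bw_succ p q l e) s

theorem g_hRy (i ρ c e : ℕ) : mR p q l _ i ρ c e (yy p q l (i + 1) ρ c e) = yy p q l i ρ c e := by
  unfold mR yy
  exact BMap.map_cls' _ _ _ fun s => res_yloop (Nat.le_succ i) s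

/-! ### degrees -/

theorem g_hoP (hp : 1 ≤ p) (i ρ c e : ℕ) (f : HH p q l (aw (p * q)) i (ρ + 1) c e) :
    mo p q l _ i ρ c e (mP p q l i (ρ + 1) c e f) = (p : ℤ) • mo p q l _ i ρ c e f := by
  have h := oo_pre_map hp (bw p q l e) (ap_eq p q) p i c ρ f
  rw [pow_one] at h
  rw [natCast_zsmul]
  exact h

theorem g_hPj (i : ℕ) (hi : i < p) (ρ c e : ℕ) (κ : CG p i ρ c) :
    mP p q l (i + 1) ρ c e (mj p q l _ i ρ c e κ) = (p : ℤ) • mj p q l _ i ρ c e κ := by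
  have h := pre_jj_map (show 1 ≤ p by omega) (bw p q l e) (ap_eq p q) hi c (Cu ρ) κ
  rw [pow_one] at h
  rw [natCast_zsmul, mj_eq _ _ _ _ _ _ _ _ hi, mj_eq _ _ _ _ _ _ _ _ hi]
  exact h

theorem g_hrSC (hl : 1 ≤ l) (i ρ c : ℕ) (κ : CG p i ρ c) :
    mrC p l i ρ (c + 1) (mSC p i ρ c κ) = (l : ℤ) ^ 2 • mSC p i ρ c κ := by
  rw [← Nat.cast_pow, natCast_zsmul]
  exact rrC_susC l hl p i 1 2 c (Cu ρ) κ

theorem g_hoF (hl : 1 ≤ l) (a : Fin 1 → ℕ) (i : ℕ) (hi : i < p) (ρ c e : ℕ)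
    (x : HH p q l a i (ρ + 1) c e) :
    mo p q l a i ρ c (e + 1) (mF p q l a i (ρ + 1) c e x) =
      (l : ℤ) ^ (i + 1) • mo p q l a i ρ c e x := by
  rw [← Nat.cast_pow, natCast_zsmul]
  exact oo_Psi_map hl a (bw_succ p q l e) hi.le c ρ x

theorem g_hFj (hl : 1 ≤ l) (a : Fin 1 → ℕ) (i : ℕ) (hi : i < p) (ρ c e : ℕ) (κ : CG p i ρ c) :
    mF p q l a (i + 1) ρ c e (mj p q l a i ρ c e κ) =
      (l : ℤ) ^ (i + 1) • mj p q l a i ρ c (e + 1) κ := by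
  rw [← Nat.cast_pow, natCast_zsmul, mj_eq _ _ _ _ _ _ _ _ hi, mj_eq _ _ _ _ _ _ _ _ hi]
  exact Psi_jj_map hl a (bw_succ p q l e) hi c (Cu ρ) κ

/-! ### exactness -/

theorem g_h0 (a : Fin 1 → ℕ) (ρ c e : ℕ) : Subsingleton (HH p q l a 0 ρ c e) :=
  YC_zero_subsingleton p a _ c _

theorem g_h_o_R (a : Fin 1 → ℕ) (i : ℕ) (hi : i < p) (ρ c e : ℕ)
    (x : HH p q l a (i + 1) (ρ + 1) c e) :
    mo p q l a i ρ c e (mR p q l a i (ρ + 1) c e x) = 0 := by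
  unfold mo mR
  rw [← BMap.map_comp]
  exact BMap.map_zero_of _ (OR_null a (bw p q l e) hi c ρ) x

theorem g_h_j_o (a : Fin 1 → ℕ) (i : ℕ) (hi : i < p) (ρ c e : ℕ)
    (x : HH p q l a i (ρ + 1) c e) :
    mj p q l a i ρ c e (mo p q l a i ρ c e x) = 0 := by
  rw [mj_eq _ _ _ _ _ _ _ _ hi]
  exact map_jj_oo a (bw p q l e) hi c ρ x

theorem g_ex_o (a : Fin 1 → ℕ) (i : ℕ) (hi : i < p) (ρ c e : ℕ)
    (x : HH p q l a i (ρ + 1) c e) (hx : mo p q l a i ρ c e x = 0) :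
    ∃ y, mR p q l a i (ρ + 1) c e y = x :=
  exact_O_map a (bw p q l e) hi x hx

theorem g_ex_j (a : Fin 1 → ℕ) (i : ℕ) (hi : i < p) (ρ c e : ℕ)
    (x : HH p q l a (i + 1) ρ c e) (hx : mR p q l a i ρ c e x = 0) :
    ∃ κ, mj p q l a i ρ c e κ = x := by
  rw [mj_eq _ _ _ _ _ _ _ _ hi]
  exact exact_J a (bw p q l e) hi x hx

theorem g_ex_C (a : Fin 1 → ℕ) (i : ℕ) (hi : i < p) (ρ c e : ℕ)
    (κ : CG p i ρ c) (hκ : mj p q l a i ρ c e κ = 0) :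
    ∃ u, mo p q l a i ρ c e u = κ := by
  rw [mj_eq _ _ _ _ _ _ _ _ hi] at hκ
  exact map_exact_C a (bw p q l e) hi c ρ κ hκ

theorem g_preX (c : ℕ) (κ : CG p 1 1 c) (hp : 1 < p) :
    (preX p p 1 1 2 c (Cu 1)).map κ = (p : ℤ) • κ := by
  have h := preX_map (N := p) (i := 1) 1 2 c (Cu 1) hp.le hp.le κ
  rw [pow_one] at h
  rw [natCast_zsmul]
  exact h

/-- the base of the induction over `X_2` -/
theorem g_base (hp : 1 < p) (c₀ : ℕ) : ∃ w : HH p q l (aw (p * q)) 2 1 c₀ 0,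
    mP p q l 2 1 c₀ 0 w = yy p q l 2 1 c₀ 0 := by
  let κ : CG p 1 1 c₀ := (CC p 1 1 2 c₀ (Cu 1)).cls (kloop p c₀ 1 (by omega))
  refine ⟨mj p q l (aw (p * q)) 1 1 c₀ 0 κ, ?_⟩
  have h1 := g_hPj p q l 1 hp 1 c₀ 0 κ
  refine h1.trans ?_
  rw [← map_zsmul, ← g_preX p c₀ κ hp, mj_eq _ _ _ _ _ _ _ _ hp]
  symm
  exact Ctx.cls_eq (y_homotopic_base p q l hp _ fun s => rfl)

end

/-- **Section 4, the group statement.** -/
theorem section4 {p : ℕ} (hp : p.Prime) (q : ℕ) {l : ℕ}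
    (hl : 1 ≤ l) (hlp : IsCoprime (l : ℤ) p)
    (hli : ∀ i, 2 ≤ i → i < p → IsCoprime (1 - (l : ℤ) ^ (i - 1)) p) :
    ∃ w : HH p q l (aw (p * q)) p 1 (LS.Alg.cfin p 0) 0,
      mP p q l p 1 (LS.Alg.cfin p 0) 0 w = yy p q l p 1 (LS.Alg.cfin p 0) 0 :=
  LS.Alg.main_alg (A := Fin 1 → ℕ) (H := HH p q l) (C := CG p) hp.two_le (l : ℤ) (p : ℤ) (aw (p * q)) (aw q)
    (mS p q l) (mr p q l) (mF p q l) (mR p q l) (mo p q l) (mj p q l) (mSC p) (mrC p l) (mP p q l)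
    (yy p q l)
    (g_hPS p q l) (g_hPr p q l) (g_hPF p q l) (g_hPR p q l)
    (fun i _ ρ c e f => g_hoP p q l hp.one_le i ρ c e f) (g_hPj p q l)
    (g_hSy p q l) (g_hry p q l) (g_hFy p q l) (g_hRy p q l)
    (g_hrS p q l) (g_hrR p q l) (g_hSR p q l)
    (fun i _ ρ c κ => g_hrSC' p l i ρ c κ)
    (fun a i _ ρ c e x => g_hro p q l a i ρ c e x)
    (fun a i _ ρ c e x => g_hSo p q l a i ρ c e x)
    (g_hrj p q l) (g_hSj p q l)
    (fun i _ ρ c κ => g_hrSC p l hl i ρ c κ) (g_hoF p q l hl) (g_hFj p q l hl)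
    (g_h0 p q l) (g_h_o_R p q l) (g_h_j_o p q l) (g_ex_o p q l) (g_ex_j p q l) (g_ex_C p q l)
    hlp hli (g_base p q l hp.one_lt 0)

end MP5f.S4
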