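import Pool.Agent.H.MP_5f9601_gt.U.FDef

/-!
MP_5f9601, section 4, hypothesis `h0` of `LS.Alg.main_alg` (helper25): the groups over the empty base vanish.
-/

set_option autoImplicit false

open Set Topology

namespace MP5f.S4

theorem genLoop_subsingleton {N : Type*} {X : Type*} [TopologicalSpace X] [Subsingleton X] (x : X) :
    Subsingleton (GenLoop N X x) :=
  ⟨fun f g => GenLoop.ext f g fun _ => Subsingleton.elim _ _⟩

theorem homotopyGroup_subsingleton {N : Type*} {X : Type*} [TopologicalSpace X] [Subsingleton X]
    (x : X) : Subsingleton (HomotopyGroup N X x) := by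
  have := genLoop_subsingleton (N := N) x
  unfold HomotopyGroup
  exact Quotient.instSubsingletonQuotient _

theorem Ctx.A_subsingleton {P V : Type} [TopologicalSpace P] [NormedAddCommGroup V] [IsEmpty P]
    (c : Ctx P V) : Subsingleton c.A := by
  have h : Subsingleton c.FS := ⟨fun f g => Ctx.FS.ext fun p => isEmptyElim p⟩
  have h2 := homotopyGroup_subsingleton (N := Fin 2) c.pt
  exact h2

theorem X_zero_isEmpty (N : ℕ) : IsEmpty (X N 0) := by
  refine ⟨fun x => ?_⟩
  have h : (x : Fin N → ℂ) = 0 := funext fun j => x.2.2 j (Nat.zero_le _)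
  have h2 := x.2.1
  rw [h, norm_zero] at h2
  exact zero_ne_one h2

/-- **h0**: everything over the empty base vanishes. -/
theorem YC_zero_subsingleton (N : ℕ) {al be : ℕ} (a : Fin al → ℕ) (b : Fin be → ℕ) (c : ℕ)
    (K : Type) [TopologicalSpace K] [Par K] : Subsingleton (YC N 0 a b c K).A := by
  have := X_zero_isEmpty N
  exact Ctx.A_subsingleton _

end MP5f.S4
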