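import Pool.Agent.H.MP_5f9601_gt.U.FJO

/-!
MP_5f9601, section 4: the operations `oo` and `jj` commute strictly with suspension and with the power maps on
the values (helper3).
-/

set_option autoImplicit false

open Set Topology ComplexConjugate

namespace MP5f.S4

theorem BMap.ext_fun {P V P' V' : Type} [TopologicalSpace P] [NormedAddCommGroup V]
    [TopologicalSpace P'] [NormedAddCommGroup V'] {c : Ctx P V} {c' : Ctx P' V'} {f g : BMap c c'}
    (h : ∀ x, f.toFun x = g.toFun x) : f = g := by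
  obtain ⟨f, hf⟩ := f
  obtain ⟨g, hg⟩ := g
  have : f = g := ContinuousMap.ext h
  subst this
  rfl

section

variable {N i al be c : ℕ} {a : Fin al → ℕ} {b b' : Fin be → ℕ}

theorem sus_apply {K : Type} [TopologicalSpace K] [Par K] [CompactSpace K] [T2Space K]
    (f : (YC N i a b c K).FS) (p : X N i × Ball al (c + 1) × K) :
    (sus a b c K).toFun f p = susV (headB p.2.1) (f (p.1, tailB p.2.1, p.2.2)) := rfl

theorem susC_apply {K : Type} [TopologicalSpace K] [Par K] [CompactSpace K] [T2Space K]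
    (f : (CC N i al be c K).FS) (p : D N i × Ball al (c + 1) × K) :
    (susC N i al be c K).toFun f p = susV (headB p.2.1) (f (p.1, tailB p.2.1, p.2.2)) := rfl

theorem rr_apply (l : ℕ) (hb : ∀ j, b' j = l * b j) {K : Type} [TopologicalSpace K] [Par K]
    [CompactSpace K] [T2Space K] (f : (YC N i a b c K).FS) (p : X N i × Ball al c × K) :
    (rr l a hb c K).toFun f p = psV l (f p) := rfl

theorem rrC_apply (l : ℕ) {K : Type} [TopologicalSpace K] [Par K] [CompactSpace K] [T2Space K]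
    (f : (CC N i al be c K).FS) (p : D N i × Ball al c × K) :
    (rrC l N i al be c K).toFun f p = psV l (f p) := rfl

/-- `oo` and suspension -/
theorem oo_sus_fun (a : Fin al → ℕ) (b : Fin be → ℕ) (N i c rho : ℕ) (f : (YC N i a b c (Cu (rho + 1))).FS) :
    (oo a b N i (c + 1) rho).toFun ((sus a b c (Cu (rho + 1))).toFun f) =
      (susC N i al be c (Cu rho)).toFun ((oo a b N i c rho).toFun f) := by
  refine Ctx.FS.ext fun p => ?_
  obtain ⟨x, v, k⟩ := p
  rw [susC_apply]
  by_cases h : (x : Fin N → ℂ) ≠ 0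
  · rw [oo_apply_ne _ _ _ _ h, oo_apply_ne _ _ _ _ h, sus_apply]
  · push Not at h
    rw [oo_apply_zero _ _ _ _ h, oo_apply_zero _ _ _ _ h, susV_ebase]

/-- `oo` and the power map on the values -/
theorem oo_rr_fun (a : Fin al → ℕ) (l : ℕ) (hb : ∀ j, b' j = l * b j) (N i c rho : ℕ)
    (f : (YC N i a b c (Cu (rho + 1))).FS) :
    (oo a b' N i c rho).toFun ((rr l a hb c (Cu (rho + 1))).toFun f) =
      (rrC l N i al be c (Cu rho)).toFun ((oo a b N i c rho).toFun f) := by
  refine Ctx.FS.ext fun p => ?_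
  obtain ⟨x, v, k⟩ := p
  rw [rrC_apply]
  by_cases h : (x : Fin N → ℂ) ≠ 0
  · rw [oo_apply_ne _ _ _ _ h, oo_apply_ne _ _ _ _ h, rr_apply]
  · push Not at h
    rw [oo_apply_zero _ _ _ _ h, oo_apply_zero _ _ _ _ h, psV_ebase]

theorem tailB_rotB (a : Fin al → ℕ) (t : ℂ) (ht : ‖t‖ ≤ 1) (v : Ball al (c + 1)) :
    tailB (rotB a t ht v) = rotB a t ht (tailB v) := rfl

theorem headB_rotB (a : Fin al → ℕ) (t : ℂ) (ht : ‖t‖ ≤ 1) (v : Ball al (c + 1)) :
    headB (rotB a t ht v) = headB v := rfl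

/-- `jj` and suspension -/
theorem jj_sus_fun (a : Fin al → ℕ) (b : Fin be → ℕ) (hi : i < N) (c : ℕ) (K : Type) [TopologicalSpace K]
    [Par K] [CompactSpace K] [T2Space K] (f : (CC N i al be c K).FS) :
    (sus a b c K).toFun ((jj a b hi c K).toFun f) =
      (jj a b hi (c + 1) K).toFun ((susC N i al be c K).toFun f) := by
  refine Ctx.FS.ext fun p => ?_
  obtain ⟨x, v, k⟩ := p
  rw [sus_apply, jj_apply, jj_apply]
  unfold jjF
  simp only
  by_cases h : ‖(x : Fin N → ℂ) ⟨i, hi⟩‖ = 1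
  · rw [if_pos h, if_pos h, susV_rotV b h, susC_apply]
    rfl
  · rw [if_neg h, if_neg h, susV_ebase]

/-- `jj` and the power map on the values -/
theorem jj_rr_fun (a : Fin al → ℕ) (l : ℕ) (hb : ∀ j, b' j = l * b j) (hi : i < N) (c : ℕ) (K : Type)
    [TopologicalSpace K] [Par K] [CompactSpace K] [T2Space K] (f : (CC N i al be c K).FS) :
    (rr l a hb c K).toFun ((jj a b hi c K).toFun f) =
      (jj a b' hi c K).toFun ((rrC l N i al be c K).toFun f) := by
  refine Ctx.FS.ext fun p => ?_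
  obtain ⟨x, v, k⟩ := p
  rw [rr_apply, jj_apply, jj_apply]
  unfold jjF
  simp only
  by_cases h : ‖(x : Fin N → ℂ) ⟨i, hi⟩‖ = 1
  · rw [if_pos h, if_pos h, psV_rotV l b b' hb h, rrC_apply]
  · rw [if_neg h, if_neg h, psV_ebase]

/-- the same as equalities of based maps -/
theorem oo_sus (a : Fin al → ℕ) (b : Fin be → ℕ) (N i c rho : ℕ) :
    (oo a b N i (c + 1) rho).comp (sus a b c (Cu (rho + 1))) =
      (susC N i al be c (Cu rho)).comp (oo a b N i c rho) :=
  BMap.ext_fun (oo_sus_fun a b N i c rho)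

theorem oo_rr (a : Fin al → ℕ) (l : ℕ) (hb : ∀ j, b' j = l * b j) (N i c rho : ℕ) :
    (oo a b' N i c rho).comp (rr l a hb c (Cu (rho + 1))) =
      (rrC l N i al be c (Cu rho)).comp (oo a b N i c rho) :=
  BMap.ext_fun (oo_rr_fun a l hb N i c rho)

theorem jj_sus (a : Fin al → ℕ) (b : Fin be → ℕ) (hi : i < N) (c : ℕ) (K : Type) [TopologicalSpace K]
    [Par K] [CompactSpace K] [T2Space K] :
    (sus a b c K).comp (jj a b hi c K) = (jj a b hi (c + 1) K).comp (susC N i al be c K) :=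
  BMap.ext_fun (jj_sus_fun a b hi c K)

theorem jj_rr (a : Fin al → ℕ) (l : ℕ) (hb : ∀ j, b' j = l * b j) (hi : i < N) (c : ℕ) (K : Type)
    [TopologicalSpace K] [Par K] [CompactSpace K] [T2Space K] :
    (rr l a hb c K).comp (jj a b hi c K) = (jj a b' hi c K).comp (rrC l N i al be c K) :=
  BMap.ext_fun (jj_rr_fun a l hb hi c K)

end

end MP5f.S4
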