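import Pool.Agent.H.MP_5f9601_gt.U.YDef

/-!
MP_5f9601, section 4: the relations of the class `y` with `rr`, `Psi`, `res` (strict equalities of loops) and with the
suspension `sus` (straight line homotopy).
-/

set_option autoImplicit false

open Set Topology
open scoped unitInterval

namespace MP5f.S4

theorem bw_succ (p q l e : ℕ) (j : Fin 2) : bw p q l (e + 1) j = l * bw p q l e j := by
  fin_cases j
  · show q * l ^ (e + 1) = l * (q * l ^ e)
    ring
  · show p * l ^ (e + 1) = l * (p * l ^ e)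
    ring

section strict

variable {N i j p q l e c ρ : ℕ}

theorem rr_yloop (hb : ∀ j, bw p q l (e + 1) j = l * bw p q l e j) (s : Fin 2 → I) :
    (rr (N := N) (i := i) l (aw q) hb c (Cu ρ)).toFun (yloop N i p q l e c ρ s) =
      yloop N i p q l (e + 1) c ρ s := by
  refine Ctx.FS.ext fun x => ?_
  show psV l (piV (yw l e x.2.1 x.2.2 s)) = piV (yw l (e + 1) x.2.1 x.2.2 s)
  rw [psV_piV l (norm_yw_le l e _ _ s)]
  congr 1
  refine Prod.ext (funext fun j => ?_) rfl
  fin_cases j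
  · show psi l (psi (l ^ e) ((x.2.1 : W 1 c).1 0)) = psi (l ^ (e + 1)) ((x.2.1 : W 1 c).1 0)
    rw [psi_psi, ← pow_succ']
  · show psi l 0 = 0
    exact psi_zero l

theorem Psi_yloop (hb : ∀ j, bw p q l (e + 1) j = l * bw p q l e j) (s : Fin 2 → I) :
    (Psi (N := N) (i := i) l (aw q) hb c (Cu ρ)).toFun (yloop N i p q l e c ρ s) =
      yloop N i p q l (e + 1) c ρ s := by
  refine Ctx.FS.ext fun x => ?_
  show piV (yw l e (psB l x.2.1) x.2.2 s) = piV (yw l (e + 1) x.2.1 x.2.2 s)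
  congr 1
  refine Prod.ext (funext fun j => ?_) rfl
  fin_cases j
  · show psi (l ^ e) (psi l ((x.2.1 : W 1 c).1 0)) = psi (l ^ (e + 1)) ((x.2.1 : W 1 c).1 0)
    rw [psi_psi, ← pow_succ]
  · rfl

theorem res_yloop (h : i ≤ j) (s : Fin 2 → I) :
    (res (N := N) (aw q) (bw p q l e) c (Cu ρ) h).toFun (yloop N j p q l e c ρ s) =
      yloop N i p q l e c ρ s :=
  Ctx.FS.ext fun _ => rfl

end strict

/-! ### suspension -/

section line

variable {be c : ℕ}

/-- forget the first suspension coordinate -/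
def tw (w : VV be (c + 1)) : VV be c := (w.1, Fin.tail w.2.1, w.2.2)

theorem norm_tw (w : VV be (c + 1)) : ‖w‖ = max ‖w.2.1 0‖ ‖tw w‖ := by
  unfold tw
  rw [Prod.norm_def, Prod.norm_def, Prod.norm_def, Prod.norm_def, norm_eq_max_tail]
  simp only
  rw [max_assoc, max_left_comm]

theorem norm_tw_le (w : VV be (c + 1)) : ‖tw w‖ ≤ ‖w‖ := by
  rw [norm_tw w]
  exact le_max_right _ _

theorem norm_hd_le (w : VV be (c + 1)) : ‖w.2.1 0‖ ≤ ‖w‖ := by
  rw [norm_tw w]
  exact le_max_left _ _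

/-- the straight line between the suspension of `piV` and `piV` -/
noncomputable def lineV (τ : ℝ) (w : VV be (c + 1)) : V be (c + 1) :=
  (1 - τ) • susV (w.2.1 0) (piV (tw w)) + τ • piV w

theorem sus_piV_unit {w : VV be (c + 1)} (h : ‖w‖ = 1) :
    susV (w.2.1 0) (piV (tw w)) = ebase be (c + 1) := by
  rw [norm_tw w] at h
  rcases max_choice ‖w.2.1 0‖ ‖tw w‖ with h1 | h1
  · rw [h1] at h
    exact susV_unit h _
  · rw [h1] at h
    rw [piV_unit h]
    exact susV_ebase _

theorem lineV_unit (τ : ℝ) {w : VV be (c + 1)} (h : ‖w‖ = 1) : lineV τ w = ebase be (c + 1) := by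
  unfold lineV
  rw [sus_piV_unit h, piV_unit h, ← add_smul, sub_add_cancel, one_smul]

theorem lineV_ne {τ : ℝ} (h0 : 0 ≤ τ) (h1 : τ ≤ 1) {w : VV be (c + 1)} (hw : ‖w‖ ≤ 1) :
    lineV τ w ≠ 0 := by
  rcases hw.eq_or_lt with hw | hw
  · rw [lineV_unit τ hw]
    intro h
    exact one_ne_zero (congrArg Prod.snd h)
  · intro h
    have hs : ‖w.2.1 0‖ < 1 := (norm_hd_le w).trans_lt hw
    have ht : ‖tw w‖ < 1 := (norm_tw_le w).trans_lt hw
    have hpos : ∀ A B : ℝ, 0 < A → 0 < B → 0 < (1 - τ) * A + τ * B := by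
      intro A B hA hB
      rcases h0.eq_or_lt with h2 | h2
      · rw [← h2]
        simpa using hA
      · have h3 : 0 ≤ (1 - τ) * A := mul_nonneg (by linarith) hA.le
        have h4 : 0 < τ * B := mul_pos h2 hB
        linarith
    have hA : 0 < (1 - ‖w.2.1 0‖) * (1 - ‖tw w‖) := mul_pos (by linarith) (by linarith)
    have hB : 0 < 1 - ‖w‖ := by linarith
    have hC := hpos _ _ hA hB
    have hne : 0 < ‖piV (tw w) - ebase be c‖ := by
      rw [norm_pos_iff]
      intro h2
      have h3 : 2 * ‖tw w‖ - 1 = 1 := congrArg Prod.snd (sub_eq_zero.1 h2)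
      linarith
    have hD := hpos _ _ (mul_pos (by linarith : 0 < 1 - ‖w.2.1 0‖) hne) hB
    have hCC : (((1 - τ) * ((1 - ‖w.2.1 0‖) * (1 - ‖tw w‖)) + τ * (1 - ‖w‖) : ℝ) : ℂ) ≠ 0 := by
      exact_mod_cast hC.ne'
    have hDD : (((1 - τ) * ((1 - ‖w.2.1 0‖) * ‖piV (tw w) - ebase be c‖) +
        τ * (1 - ‖w‖) : ℝ) : ℂ) ≠ 0 := by
      exact_mod_cast hD.ne'
    -- the first components
    have e1 : w.1 = 0 := by
      funext j
      have h2 : (lineV τ w).1.1 j = 0 := congrFun (congrArg (fun u : V be (c + 1) => u.1.1) h) j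
      have h3 : (((1 - τ) * ((1 - ‖w.2.1 0‖) * (1 - ‖tw w‖)) + τ * (1 - ‖w‖) : ℝ) : ℂ) * w.1 j
          = 0 := by
        rw [← h2]
        simp only [lineV, susV, piV, tw, Prod.fst_add, Prod.smul_fst, Pi.add_apply, Pi.smul_apply,
          smul_eq_mul, Complex.real_smul]
        push_cast
        ring
      exact (mul_eq_zero.1 h3).resolve_left hCC
    have e2 : w.2.1 0 = 0 := by
      have h2 := congrFun (congrArg (fun u : V be (c + 1) => u.1.2.1) h) 0
      have h3 : (((1 - τ) * ((1 - ‖w.2.1 0‖) * ‖piV (tw w) - ebase be c‖) +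
          τ * (1 - ‖w‖) : ℝ) : ℂ) * w.2.1 0 = 0 := by
        have h4 : (lineV τ w).1.2.1 0 = 0 := h2
        rw [← h4]
        simp only [lineV, susV, Prod.fst_add, Prod.snd_add, Prod.smul_fst, Prod.smul_snd,
          Pi.add_apply, Pi.smul_apply, Fin.cons_zero, Complex.real_smul]
        simp only [piV, Prod.smul_fst, Prod.smul_snd, Pi.smul_apply, Complex.real_smul]
        push_cast
        ring
      exact (mul_eq_zero.1 h3).resolve_left hDD
    have e3 : Fin.tail w.2.1 = 0 := by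
      funext j
      have h2 : (lineV τ w).1.2.1 j.succ = 0 :=
        congrFun (congrArg (fun u : V be (c + 1) => u.1.2.1) h) j.succ
      have h3 : (((1 - τ) * ((1 - ‖w.2.1 0‖) * (1 - ‖tw w‖)) + τ * (1 - ‖w‖) : ℝ) : ℂ) *
          w.2.1 j.succ = 0 := by
        rw [← h2]
        simp only [lineV, susV, piV, tw, Prod.fst_add, Prod.snd_add, Prod.smul_fst, Prod.smul_snd,
          Pi.add_apply, Pi.smul_apply, Fin.cons_succ, Complex.real_smul, smul_eq_mul, Fin.tail]
        push_cast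
        ring
      exact (mul_eq_zero.1 h3).resolve_left hCC
    have e4 : w.2.2 = 0 := by
      funext j
      have h2 : (lineV τ w).1.2.2 j = 0 :=
        congrFun (congrArg (fun u : V be (c + 1) => u.1.2.2) h) j
      have h3 : ((1 - τ) * ((1 - ‖w.2.1 0‖) * (1 - ‖tw w‖)) + τ * (1 - ‖w‖)) * w.2.2 j = 0 := by
        rw [← h2]
        simp only [lineV, susV, piV, tw, Prod.fst_add, Prod.snd_add, Prod.smul_fst, Prod.smul_snd,
          Pi.add_apply, Pi.smul_apply, smul_eq_mul]
        ring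
      exact (mul_eq_zero.1 h3).resolve_left hC.ne'
    have e5 : tw w = 0 := by
      unfold tw
      rw [e1, e3, e4]
      rfl
    have e6 : ‖w‖ = 0 := by
      rw [norm_tw w, e2, e5, norm_zero, norm_zero, max_self]
    have h2 : (lineV τ w).2 = 0 := congrArg Prod.snd h
    simp only [lineV, susV, piV, Prod.snd_add, Prod.smul_snd, smul_eq_mul, e2, e5, e6,
      norm_zero] at h2
    linarith

theorem continuous_tw : Continuous (tw : VV be (c + 1) → VV be c) := by
  unfold tw
  refine Continuous.prodMk (by fun_prop) (Continuous.prodMk ?_ (by fun_prop))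
  exact continuous_pi fun j => by simp only [Fin.tail]; fun_prop

theorem continuous_lineV : Continuous (fun q : ℝ × VV be (c + 1) => lineV q.1 q.2) := by
  unfold lineV
  have h1 : Continuous fun q : ℝ × VV be (c + 1) => 1 - q.1 := by fun_prop
  have h2 : Continuous fun q : ℝ × VV be (c + 1) => q.1 := continuous_fst
  refine Continuous.add (h1.smul ?_) (h2.smul ?_)
  · exact continuous_susV.comp (Continuous.prodMk (by fun_prop)
      (continuous_piV.comp (continuous_tw.comp continuous_snd)))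
  · exact continuous_piV.comp continuous_snd

theorem rotV_add (b : Fin be → ℕ) (t : ℂ) (u v : V be c) :
    rotV b t (u + v) = rotV b t u + rotV b t v := by
  refine Prod.ext (Prod.ext (funext fun j => ?_) rfl) rfl
  exact mul_add _ _ _

theorem rotV_rsmul (b : Fin be → ℕ) (t : ℂ) (r : ℝ) (u : V be c) :
    rotV b t (r • u) = r • rotV b t u := by
  refine Prod.ext (Prod.ext (funext fun j => ?_) rfl) rfl
  show t ^ b j * ((r : ℂ) * u.1.1 j) = (r : ℂ) * (t ^ b j * u.1.1 j)
  ring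

theorem rotV_lineV (b : Fin be → ℕ) {t : ℂ} (ht : ‖t‖ = 1) (τ : ℝ) (w : VV be (c + 1)) :
    rotV b t (lineV τ w) = lineV τ (rot b t w.1, w.2) := by
  unfold lineV
  rw [rotV_add, rotV_rsmul, rotV_rsmul, ← susV_rotV b ht, rotV_piV b ht, rotV_piV b ht]
  rfl

end line

section sus

variable {c ρ : ℕ}

theorem tw_yw (l e : ℕ) (v : Ball 1 (c + 1)) (k : Cu ρ) (s : Fin 2 → I) :
    tw (yw l e v k s) = yw l e (tailB v) k s := rfl

theorem hd_yw (l e : ℕ) (v : Ball 1 (c + 1)) (k : Cu ρ) (s : Fin 2 → I) :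
    (yw l e v k s).2.1 0 = headB v := rfl

/-- the suspension of `y` is `y` -/
theorem sus_yloop (N i p q l e c ρ : ℕ)
    (f : GenLoop (Fin 2) (YC N i (aw q) (bw p q l e) (c + 1) (Cu ρ)).FS
      (YC N i (aw q) (bw p q l e) (c + 1) (Cu ρ)).pt)
    (hf : ∀ s, f s = (sus (aw q) (bw p q l e) c (Cu ρ)).toFun (yloop N i p q l e c ρ s)) :
    GenLoop.Homotopic f (yloop N i p q l e (c + 1) ρ) := by
  refine homotopic_of_formula
    (fun τ s x => lineV (τ : ℝ) (yw l e x.2.1 x.2.2 s)) ?_ ?_ ?_ ?_ ?_ _ _ ?_ ?_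
  · refine continuous_lineV.comp (Continuous.prodMk (by fun_prop) ?_)
    exact (continuous_yw l e).comp
      (f := fun q : (I × (Fin 2 → I)) × (X N i × Ball 1 (c + 1) × Cu ρ) =>
        ((q.2.2.1, q.2.2.2), q.1.2)) (by fun_prop)
  · exact fun τ s x => lineV_ne τ.2.1 τ.2.2 (norm_yw_le l e _ _ s)
  · intro τ s x hx
    refine lineV_unit _ ?_
    rcases hx with h | h
    · exact norm_yw_of_ball l e _ _ h
    · exact norm_yw_of_rv l e _ (norm_rv_bd s h)
  · intro τ s t ht p' p'' _ h2 h3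
    show lineV (τ : ℝ) (yw l e p''.2.1 p''.2.2 s) =
      rotV _ t (lineV (τ : ℝ) (yw l e p'.2.1 p'.2.2 s))
    rw [rotV_lineV _ ht, h3, yw_rot p q l e ht _ s h2]
  · exact fun τ s hs x => lineV_unit _ (norm_yw_of_rv l e _ (norm_rv_boundary _ hs))
  · intro s x
    rw [hf]
    show susV (headB x.2.1) (piV (yw l e (tailB x.2.1) x.2.2 s)) =
      lineV (((0 : I) : ℝ)) (yw l e x.2.1 x.2.2 s)
    unfold lineV
    rw [tw_yw, hd_yw, Set.Icc.coe_zero, sub_zero, one_smul, zero_smul, add_zero]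
  · intro s x
    show piV (yw l e x.2.1 x.2.2 s) = lineV (((1 : I) : ℝ)) (yw l e x.2.1 x.2.2 s)
    unfold lineV
    rw [Set.Icc.coe_one, sub_self, zero_smul, one_smul, zero_add]

end sus

end MP5f.S4
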