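import Pool.Agent.H.MP_5f9601_gt.U.Alg3
import Pool.Agent.H.MP_5f9601_gt.U.RelJ
import Pool.Agent.H.MP_5f9601_gt.U.H0
import Pool.Agent.H.MP_5f9601_gt.U.YRel
import Pool.Agent.H.MP_5f9601_gt.U.Pi2

/-!
MP_5f9601, section 4 (helper25): the groups and homomorphisms to which `LS.Alg.main_alg` is applied.

`HH p q l a i ρ c e`: maps over `X p i` with source weights `a` (`ap = aw (p * q)`, `aq = aw q`), `ρ` real parameters, `c` complex
suspensions and target weights `bw p q l e = ![q * l ^ e, p * l ^ e]`.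
-/

set_option autoImplicit false

open Set Topology

namespace MP5f.S4

section classes

variable {P V P' V' : Type} [TopologicalSpace P] [NormedAddCommGroup V]
  [TopologicalSpace P'] [NormedAddCommGroup V']

/-- the class of a loop -/
def Ctx.cls (c : Ctx P V) (f : GenLoop (Fin 2) c.FS c.pt) : c.A :=
  Additive.ofMul (Quotient.mk _ f : HomotopyGroup (Fin 2) c.FS c.pt)

theorem Ctx.cls_eq {c : Ctx P V} {f g : GenLoop (Fin 2) c.FS c.pt} (h : GenLoop.Homotopic f g) :
    c.cls f = c.cls g := congrArg Additive.ofMul (Quotient.sound h)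

theorem BMap.map_cls {c : Ctx P V} {c' : Ctx P' V'} (g : BMap c c')
    (f : GenLoop (Fin 2) c.FS c.pt) :
    g.map (c.cls f) = c'.cls (gcomp g.toFun g.map_pt f) := rfl

theorem BMap.map_cls' {c : Ctx P V} {c' : Ctx P' V'} (g : BMap c c')
    (f : GenLoop (Fin 2) c.FS c.pt) (f' : GenLoop (Fin 2) c'.FS c'.pt)
    (h : ∀ s, g.toFun (f s) = f' s) : g.map (c.cls f) = c'.cls f' := by
  rw [BMap.map_cls]
  exact congrArg c'.cls (Subtype.ext (ContinuousMap.ext h))

end classes

section

variable (p q l : ℕ)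

theorem ap_eq (j : Fin 1) : aw (p * q) j = p * aw q j := by
  fin_cases j; rfl

/-- the groups of maps over the spheres -/
abbrev HH (a : Fin 1 → ℕ) (i ρ c e : ℕ) : Type := (YC p i a (bw p q l e) c (Cu ρ)).A

/-- the groups of maps on the cells -/
abbrev CG (i ρ c : ℕ) : Type := (CC p i 1 2 c (Cu ρ)).A

/-- suspension -/
noncomputable def mS (a : Fin 1 → ℕ) (i ρ c e : ℕ) : HH p q l a i ρ c e →+ HH p q l a i ρ (c + 1) e :=
  (sus a (bw p q l e) c (Cu ρ)).map

/-- postcomposition with the power map -/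
noncomputable def mr (a : Fin 1 → ℕ) (i ρ c e : ℕ) : HH p q l a i ρ c e →+ HH p q l a i ρ c (e + 1) :=
  (rr l a (bw_succ p q l e) c (Cu ρ)).map

/-- precomposition with the power map on all coordinates -/
noncomputable def mF (a : Fin 1 → ℕ) (i ρ c e : ℕ) : HH p q l a i ρ c e →+ HH p q l a i ρ c (e + 1) :=
  (Psi l a (bw_succ p q l e) c (Cu ρ)).map

/-- restriction -/
noncomputable def mR (a : Fin 1 → ℕ) (i ρ c e : ℕ) : HH p q l a (i + 1) ρ c e →+ HH p q l a i ρ c e :=
  (res a (bw p q l e) c (Cu ρ) (Nat.le_succ i)).map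

/-- obstruction -/
noncomputable def mo (a : Fin 1 → ℕ) (i ρ c e : ℕ) : HH p q l a i (ρ + 1) c e →+ CG p i ρ c :=
  (oo a (bw p q l e) p i c ρ).map

/-- classes supported on the new cell -/
noncomputable def mj (a : Fin 1 → ℕ) (i ρ c e : ℕ) : CG p i ρ c →+ HH p q l a (i + 1) ρ c e :=
  if h : i < p then (jj a (bw p q l e) h c (Cu ρ)).map else 0

theorem mj_eq (a : Fin 1 → ℕ) (i ρ c e : ℕ) (h : i < p) :
    mj p q l a i ρ c e = (jj a (bw p q l e) h c (Cu ρ)).map := dif_pos h

/-- suspension on the cells -/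
noncomputable def mSC (i ρ c : ℕ) : CG p i ρ c →+ CG p i ρ (c + 1) := (susC p i 1 2 c (Cu ρ)).map

/-- power map on the values, on the cells -/
noncomputable def mrC (i ρ c : ℕ) : CG p i ρ c →+ CG p i ρ c := (rrC l p i 1 2 c (Cu ρ)).map

/-- precomposition with the `p`-th power map on the source coordinate -/
noncomputable def mP (i ρ c e : ℕ) : HH p q l (aw (p * q)) i ρ c e →+ HH p q l (aw q) i ρ c e :=
  (pre p (bw p q l e) (ap_eq p q) c (Cu ρ)).map

/-- the class `y` -/
noncomputable def yy (i ρ c e : ℕ) : HH p q l (aw q) i ρ c e :=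
  (YC p i (aw q) (bw p q l e) c (Cu ρ)).cls (yloop p i p q l e c ρ)

end

end MP5f.S4
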