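import Pool.Agent.H.MP_5f9601_gt.U.B2

/-!
# S13261, helper47's proof, section 3: the block for `V = EuclideanSpace ℂ (Fin n)`
-/

set_option autoImplicit false

open Set Filter Topology Metric

namespace Pool.Agent.H.MP_5f9601_gt.U

section

variable {V V' : Type} [NormedAddCommGroup V] [NormedSpace ℂ V] [NormedAddCommGroup V']
  [NormedSpace ℂ V']

/-- conjugation of a value -/
def conjv (e : V ≃L[ℂ] V') (r : (V × ℂ) × ℂ) : (V' × ℂ) × ℂ := ((e r.1.1, r.1.2), r.2)

/-- conjugation of an argument -/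
def conja (e : V ≃L[ℂ] V') (v : V' × ℂ) : V × ℂ := (e.symm v.1, v.2)

theorem conja_ne (e : V ≃L[ℂ] V') (v : V' × ℂ) (hv : v ≠ 0) : conja e v ≠ 0 := by
  intro h
  have h1 : e.symm v.1 = 0 := congrArg Prod.fst h
  have h2 : v.2 = 0 := congrArg Prod.snd h
  have h3 : v.1 = 0 := by simpa using h1
  exact hv (Prod.ext h3 h2)

theorem conjv_ne (e : V ≃L[ℂ] V') (r : (V × ℂ) × ℂ) (hr : r ≠ 0) : conjv e r ≠ 0 := by
  intro h
  have h1 : e r.1.1 = 0 := congrArg (fun z : (V' × ℂ) × ℂ => z.1.1) h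
  have h2 : r.1.2 = 0 := congrArg (fun z : (V' × ℂ) × ℂ => z.1.2) h
  have h4 : r.2 = 0 := congrArg (fun z : (V' × ℂ) × ℂ => z.2) h
  have h3 : r.1.1 = 0 := by simpa using h1
  exact hr (Prod.ext (Prod.ext h3 h2) h4)

theorem conjv_cont (e : V ≃L[ℂ] V') : Continuous (conjv e) := by
  unfold conjv
  exact Continuous.prodMk (Continuous.prodMk (e.continuous.comp (continuous_fst.comp
    continuous_fst)) (continuous_snd.comp continuous_fst)) continuous_snd

theorem conja_cont (e : V ≃L[ℂ] V') : Continuous (conja e) := by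
  unfold conja
  exact Continuous.prodMk (e.symm.continuous.comp continuous_fst) continuous_snd

theorem conja_act (e : V ≃L[ℂ] V') (p w : ℕ) (t : ℂ) (v : V' × ℂ) :
    conja e (act p w t v) = act p w t (conja e v) := by
  unfold conja act
  simp

theorem conjv_act (e : V ≃L[ℂ] V') (p w : ℕ) (t : ℂ) (r : (V × ℂ) × ℂ) :
    conjv e (act p w t r.1, t ^ p * r.2) = (act p w t (conjv e r).1, t ^ p * (conjv e r).2) := by
  unfold conjv act
  simp

theorem conjv_iota (e : V ≃L[ℂ] V') (v : V' × ℂ) : conjv e (conja e v, 0) = (v, 0) := by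
  unfold conjv conja
  simp

theorem conja_PP (e : V ≃L[ℂ] V') (p : ℕ) (v : V' × ℂ) :
    conja e (PP p v) = PP p (conja e v) := rfl

theorem conjv_PP (e : V ≃L[ℂ] V') (p : ℕ) (r : (V × ℂ) × ℂ) :
    conjv e (PP p r.1, r.2) = (PP p (conjv e r).1, (conjv e r).2) := rfl

/-- Transport of a block along a linear equivalence. -/
noncomputable def Block.congr {p q : ℕ} (e : V ≃L[ℂ] V') (b : Block p q V) : Block p q V' where
  W y v := conjv e (b.W y (conja e v))
  g s y v := conjv e (b.g s y (conja e v))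
  g' s y v := conjv e (b.g' s y (conja e v))
  kap u s y v := conjv e (b.kap u s y (conja e v))
  W_cont := (conjv_cont e).comp (Continuous.comp (g := fun x : Y p × (V × ℂ) => b.W x.1 x.2)
    (f := fun x : Y p × (V' × ℂ) => (x.1, conja e x.2)) b.W_cont
    (continuous_fst.prodMk ((conja_cont e).comp continuous_snd)))
  g_cont := (conjv_cont e).comp (Continuous.comp
    (g := fun x : ℝ × Y p × (V × ℂ) => b.g x.1 x.2.1 x.2.2)
    (f := fun x : ℝ × Y p × (V' × ℂ) => (x.1, x.2.1, conja e x.2.2)) b.g_cont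
    (continuous_fst.prodMk (continuous_snd.fst.prodMk ((conja_cont e).comp continuous_snd.snd))))
  g'_cont := (conjv_cont e).comp (Continuous.comp
    (g := fun x : ℝ × Y p × (V × ℂ) => b.g' x.1 x.2.1 x.2.2)
    (f := fun x : ℝ × Y p × (V' × ℂ) => (x.1, x.2.1, conja e x.2.2)) b.g'_cont
    (continuous_fst.prodMk (continuous_snd.fst.prodMk ((conja_cont e).comp continuous_snd.snd))))
  kap_cont := (conjv_cont e).comp (Continuous.comp
    (g := fun x : ℝ × ℝ × Y p × (V × ℂ) => b.kap x.1 x.2.1 x.2.2.1 x.2.2.2)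
    (f := fun x : ℝ × ℝ × Y p × (V' × ℂ) => (x.1, x.2.1, x.2.2.1, conja e x.2.2.2)) b.kap_cont
    (continuous_fst.prodMk (continuous_snd.fst.prodMk (continuous_snd.snd.fst.prodMk
      ((conja_cont e).comp continuous_snd.snd.snd)))))
  W_ne y v hv := conjv_ne e _ (b.W_ne y _ (conja_ne e v hv))
  g_ne s hs y v hv := conjv_ne e _ (b.g_ne s hs y _ (conja_ne e v hv))
  g'_ne s hs y v hv := conjv_ne e _ (b.g'_ne s hs y _ (conja_ne e v hv))
  kap_ne u hu s hs y v hv := conjv_ne e _ (b.kap_ne u hu s hs y _ (conja_ne e v hv))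
  W_eqv t ht y y' hy v := by
    rw [conja_act, b.W_eqv t ht y y' hy, conjv_act]
  g_eqv t ht y y' hy s hs v := by
    rw [conja_act, b.g_eqv t ht y y' hy s hs, conjv_act]
  g'_eqv t ht y y' hy s hs v := by
    rw [conja_act, b.g'_eqv t ht y y' hy s hs, conjv_act]
  kap_eqv t ht y y' hy u hu s hs v := by
    rw [conja_act, b.kap_eqv t ht y y' hy u hu s hs, conjv_act]
  g_zero y v := by rw [b.g_zero, conjv_iota]
  g'_zero y v := by rw [b.g'_zero, conjv_iota]
  g_one y v := by rw [b.g_one, conja_PP]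
  g'_one y v := by rw [b.g'_one, conjv_PP]
  kap_zero s hs y v := by rw [b.kap_zero s hs, conjv_PP]
  kap_one s hs y v := by rw [b.kap_one s hs, conja_PP]
  kap_left u hu y v := by
    rw [b.kap_left u hu]
    have h := conjv_iota e (PP p v)
    rw [conja_PP] at h
    exact h
  kap_right u hu y v := by
    rw [b.kap_right u hu, ← conja_PP, conjv_PP]

end

theorem finrank_Vp (M p : ℕ) : Module.finrank ℂ (Vp M p) = M * p + p := by
  rw [Module.finrank_prod, Module.finrank_pi_fintype]
  simp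

/-- **B2.** -/
theorem block_of_preBlock {p M q : ℕ} (b : PreBlock p M q) :
    Nonempty (Block p q (EuclideanSpace ℂ (Fin (M * p + p)))) := by
  have h : Module.finrank ℂ (Vp M p) =
      Module.finrank ℂ (EuclideanSpace ℂ (Fin (M * p + p))) := by
    rw [finrank_Vp, finrank_euclideanSpace, Fintype.card_fin]
  exact ⟨Block.congr (ContinuousLinearEquiv.ofFinrankEq h) b.toBlock⟩

end Pool.Agent.H.MP_5f9601_gt.U
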