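import Pool.Agent.H.MP_5f9601_gt.U.B1
import Pool.Agent.H.MP_5f9601_gt.U.B2E

/-!
# S13261, section 3: plain filler ⇒ block (helper19, helper50, helper67)
-/

set_option autoImplicit false

namespace Pool.Agent.H.MP_5f9601_gt.U

/-- **Section 3**: a plain filler gives the block of section 1, for odd `p`. -/
theorem block_of_plainFiller {p M q : ℕ} (hp : Odd p) (h : Nonempty (PlainFiller p M q)) :
    Nonempty (Block p q (EuclideanSpace ℂ (Fin (M * p + p)))) := by
  obtain ⟨B⟩ := preBlock_of_plainFiller hp h
  exact block_of_preBlock B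

end Pool.Agent.H.MP_5f9601_gt.U
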