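import Pool.Agent.H.MP_5f9601_gt.U.NOn

/-!
MP_5f9601_gt, module Defs (helper47): weighted lines, norm preserving power maps, and the two
interface statements `Block` (section 1 of h47_5f9601_PROOF.md) and `PlainFiller` (section 3/4).

All parameters of paths and 2-homotopies run through ALL of `ℝ` (the producer precomposes with
clamping to `[0,1]`), and all bases are the nonzero vectors `{y | y ≠ 0}` of `Blk p = C^p`
(the producer extends from the unit sphere by homogeneity of degree zero), so that the user never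
has to prove membership of a parameter in an interval and never has to normalise.
-/

set_option autoImplicit false

open Set Topology

namespace LS

/-- The line with weight `w`: the circle acts by `t • z = t ^ w * z`. -/
def Lw (_w : ℕ) : Type := ℂ

namespace Lw

variable {w : ℕ}

noncomputable instance : NormedAddCommGroup (Lw w) := inferInstanceAs (NormedAddCommGroup ℂ)

noncomputable instance : NormedSpace ℝ (Lw w) := inferInstanceAs (NormedSpace ℝ ℂ)

instance : FiniteDimensional ℝ (Lw w) := inferInstanceAs (FiniteDimensional ℝ ℂ)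

instance : ProperSpace (Lw w) := inferInstanceAs (ProperSpace ℂ)

/-- the underlying complex number -/
def toC (z : Lw w) : ℂ := z

/-- a complex number as an element of the line -/
def ofC (z : ℂ) : Lw w := z

@[simp] theorem toC_ofC (z : ℂ) : toC (ofC z : Lw w) = z := rfl

@[simp] theorem ofC_toC (z : Lw w) : (ofC (toC z) : Lw w) = z := rfl

@[simp] theorem toC_zero : toC (0 : Lw w) = 0 := rfl

@[simp] theorem ofC_zero : (ofC 0 : Lw w) = 0 := rfl

@[simp] theorem toC_add (a b : Lw w) : toC (a + b) = toC a + toC b := rfl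

@[simp] theorem ofC_add (a b : ℂ) : (ofC (a + b) : Lw w) = ofC a + ofC b := rfl

@[simp] theorem norm_toC (z : Lw w) : ‖toC z‖ = ‖z‖ := rfl

@[simp] theorem norm_ofC (z : ℂ) : ‖(ofC z : Lw w)‖ = ‖z‖ := rfl

theorem toC_eq_zero (z : Lw w) : toC z = 0 ↔ z = 0 := Iff.rfl

theorem ofC_eq_zero (z : ℂ) : (ofC z : Lw w) = 0 ↔ z = 0 := Iff.rfl

theorem toC_injective : Function.Injective (toC (w := w)) := fun _ _ h => h

theorem continuous_toC : Continuous (toC (w := w)) := continuous_id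

theorem continuous_ofC : Continuous (ofC (w := w)) := continuous_id

noncomputable instance : MulAction Circle (Lw w) where
  smul t z := ofC ((t : ℂ) ^ w * toC z)
  one_smul z := by
    change ofC (((1 : Circle) : ℂ) ^ w * toC z) = z
    simp
  mul_smul s t z := by
    change ofC (((s * t : Circle) : ℂ) ^ w * toC z) = ofC ((s : ℂ) ^ w * toC (ofC ((t : ℂ) ^ w * toC z) : Lw w))
    rw [Circle.coe_mul, mul_pow, mul_assoc, toC_ofC]

theorem smul_def (t : Circle) (z : Lw w) : t • z = ofC ((t : ℂ) ^ w * toC z) := rfl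

@[simp] theorem toC_smul (t : Circle) (z : Lw w) : toC (t • z) = (t : ℂ) ^ w * toC z := rfl

@[simp] theorem smul_zero' (t : Circle) : t • (0 : Lw w) = 0 := by
  rw [smul_def, toC_zero, mul_zero, ofC_zero]

theorem norm_smul' (t : Circle) (z : Lw w) : ‖t • z‖ = ‖z‖ := by
  rw [← norm_toC, toC_smul, norm_mul, norm_pow, Circle.norm_coe, one_pow, one_mul, norm_toC]

end Lw

/-- The norm preserving power map `z ↦ ‖z‖ (z / ‖z‖) ^ l`. -/
noncomputable def psi (l : ℤ) (z : ℂ) : ℂ := (‖z‖ : ℂ) * (z / (‖z‖ : ℂ)) ^ l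

@[simp] theorem psi_zero (l : ℤ) : psi l 0 = 0 := by simp [psi]

theorem norm_psi (l : ℤ) (z : ℂ) : ‖psi l z‖ = ‖z‖ := by
  rcases eq_or_ne z 0 with rfl | h
  · simp
  · have h0 : ‖z‖ ≠ 0 := norm_ne_zero_iff.2 h
    unfold psi
    rw [norm_mul, norm_zpow, norm_div, Complex.norm_real, norm_norm, div_self h0, one_zpow, mul_one]

theorem psi_eq_zero_iff (l : ℤ) (z : ℂ) : psi l z = 0 ↔ z = 0 := by
  rw [← norm_eq_zero, norm_psi, norm_eq_zero]

theorem psi_mul (l : ℤ) {c : ℂ} (hc : ‖c‖ = 1) (z : ℂ) : psi l (c * z) = c ^ l * psi l z := by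
  unfold psi
  rw [norm_mul, hc, one_mul, mul_div_assoc, mul_zpow]
  ring

theorem psi_real_mul (l : ℤ) {r : ℝ} (hr : 0 ≤ r) (z : ℂ) :
    psi l ((r : ℂ) * z) = (r : ℂ) * psi l z := by
  rcases hr.eq_or_lt with rfl | hr
  · simp
  · unfold psi
    have h0 : (r : ℂ) ≠ 0 := by exact_mod_cast hr.ne'
    rw [norm_mul, Complex.norm_real, Real.norm_of_nonneg hr.le, Complex.ofReal_mul,
      mul_div_mul_left _ _ h0, mul_assoc]

theorem psi_psi (l m : ℤ) (z : ℂ) : psi l (psi m z) = psi (l * m) z := by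
  rcases eq_or_ne z 0 with rfl | h
  · simp
  · have h0 : (‖z‖ : ℂ) ≠ 0 := by exact_mod_cast norm_ne_zero_iff.2 h
    have h1 : psi l (psi m z) = (‖z‖ : ℂ) * (psi m z / (‖z‖ : ℂ)) ^ l := by
      rw [← norm_psi m z]; rfl
    rw [h1]
    unfold psi
    rw [mul_div_cancel_left₀ _ h0, ← zpow_mul, mul_comm m l]

theorem psi_one (z : ℂ) : psi 1 z = z := by
  rcases eq_or_ne z 0 with rfl | h
  · simp
  · have h0 : (‖z‖ : ℂ) ≠ 0 := by exact_mod_cast norm_ne_zero_iff.2 h
    unfold psi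
    rw [zpow_one, mul_div_cancel₀ _ h0]

theorem continuous_psi (l : ℤ) : Continuous (psi l) := by
  rw [continuous_iff_continuousAt]
  intro z
  rcases eq_or_ne z 0 with rfl | h
  · rw [ContinuousAt, psi_zero, tendsto_zero_iff_norm_tendsto_zero]
    have : (fun z => ‖psi l z‖) = fun z : ℂ => ‖z‖ := funext (norm_psi l)
    rw [this]
    have := (continuous_norm (E := ℂ)).tendsto 0
    simpa using this
  · have h0 : (‖z‖ : ℂ) ≠ 0 := by exact_mod_cast norm_ne_zero_iff.2 h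
    unfold psi
    refine ContinuousAt.mul (by fun_prop) (ContinuousAt.zpow₀ ?_ _ (Or.inl (div_ne_zero h h0)))
    exact ContinuousAt.div (by fun_prop) (by fun_prop) h0

/-- `psi l` as a map `L^a → L^b` (`b = l a`). -/
noncomputable def psiL (l : ℕ) {a b : ℕ} (z : Lw a) : Lw b := Lw.ofC (psi l (Lw.toC z))

theorem psiL_eq_zero_iff (l : ℕ) {a b : ℕ} (z : Lw a) : (psiL l z : Lw b) = 0 ↔ z = 0 := by
  unfold psiL
  rw [Lw.ofC_eq_zero, psi_eq_zero_iff, Lw.toC_eq_zero]

@[simp] theorem psiL_zero (l : ℕ) {a b : ℕ} : (psiL l (0 : Lw a) : Lw b) = 0 :=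
  (psiL_eq_zero_iff l _).2 rfl

theorem norm_psiL (l : ℕ) {a b : ℕ} (z : Lw a) : ‖(psiL l z : Lw b)‖ = ‖z‖ := by
  unfold psiL
  rw [Lw.norm_ofC, norm_psi, Lw.norm_toC]

theorem continuous_psiL (l : ℕ) {a b : ℕ} : Continuous (psiL l : Lw a → Lw b) :=
  Lw.continuous_ofC.comp ((continuous_psi l).comp Lw.continuous_toC)

/-- Equivariance of `psiL l : L^a → L^(l a)`. -/
theorem psiL_smul {a b l : ℕ} (hb : b = l * a) (t : Circle) (z : Lw a) :
    (psiL l (t • z) : Lw b) = t • (psiL l z : Lw b) := by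
  subst hb
  apply Lw.toC_injective
  have h1 : ‖(t : ℂ) ^ a‖ = 1 := by rw [norm_pow, Circle.norm_coe, one_pow]
  have h2 : ((t : ℂ) ^ a) ^ (l : ℤ) = (t : ℂ) ^ (l * a) := by
    rw [zpow_natCast, ← pow_mul, mul_comm]
  change psi l ((t : ℂ) ^ a * Lw.toC z) = (t : ℂ) ^ (l * a) * psi l (Lw.toC z)
  rw [psi_mul _ h1, h2]

/-- The block `C^p` of weight one. -/
abbrev Blk (p : ℕ) : Type := Fin p → Lw 1

/-- `A_q = V + L^q`, `V = n L^p`. -/
abbrev AV (n p q : ℕ) : Type := (Fin n → Lw p) × Lw q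

/-- `P = 1_V + psi_p : V + L^q → V + L^q'` (`q' = p q`). -/
noncomputable def PV {n p q q' : ℕ} (v : AV n p q) : AV n p q' := (v.1, psiL p v.2)

/-- the action on `ℝ × Z` -/
def actI {Z : Type*} [SMul Circle Z] (t : Circle) (w : ℝ × Z) : ℝ × Z := (w.1, t • w.2)

/-- the action on `ℝ × ℝ × Z` -/
def actII {Z : Type*} [SMul Circle Z] (t : Circle) (w : ℝ × ℝ × Z) : ℝ × ℝ × Z :=
  (w.1, w.2.1, t • w.2.2)

/-- **The coherent block** (section 1), with `q' = p q`. -/
def Block (p n q q' : ℕ) : Prop :=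
  ∃ (W : Blk p → AV n p q' → AV n p q × Lw p)
    (g : ℝ → Blk p → AV n p q → AV n p q × Lw p)
    (g' : ℝ → Blk p → AV n p q' → AV n p q' × Lw p)
    (κ : ℝ → ℝ → Blk p → AV n p q → AV n p q' × Lw p),
    NOn (fun t y => t • y) {y : Blk p | y ≠ 0} W ∧
    NOn actI {w : ℝ × Blk p | w.2 ≠ 0} (fun w => g w.1 w.2) ∧
    NOn actI {w : ℝ × Blk p | w.2 ≠ 0} (fun w => g' w.1 w.2) ∧
    NOn actII {w : ℝ × ℝ × Blk p | w.2.2 ≠ 0} (fun w => κ w.1 w.2.1 w.2.2) ∧
    ∀ y : Blk p, y ≠ 0 →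
      (∀ v, g 0 y v = (v, 0)) ∧
      (∀ v, g 1 y v = W y (PV v)) ∧
      (∀ v, g' 0 y v = (v, 0)) ∧
      (∀ v, g' 1 y v = (PV (W y v).1, (W y v).2)) ∧
      (∀ s v, κ 0 s y v = (PV (g s y v).1, (g s y v).2)) ∧
      (∀ s v, κ 1 s y v = g' s y (PV v)) ∧
      (∀ u v, κ u 0 y v = (PV v, 0)) ∧
      (∀ u v, κ u 1 y v = (PV (W y (PV v)).1, (W y (PV v)).2))

/-- **The plain filler** (output of section 4, input of section 3), with `q' = p q`; `U = C^p` with
trivial action. -/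
def PlainFiller (p q q' : ℕ) : Prop :=
  ∃ (W : Blk p → (Fin p → Lw 0) × Lw q' → ((Fin p → Lw 0) × Lw q) × Lw p)
    (g : ℝ → Blk p → (Fin p → Lw 0) × Lw q → ((Fin p → Lw 0) × Lw q) × Lw p),
    NOn (fun t y => t • y) {y : Blk p | y ≠ 0} W ∧
    NOn actI {w : ℝ × Blk p | w.2 ≠ 0} (fun w => g w.1 w.2) ∧
    ∀ y : Blk p, y ≠ 0 →
      (∀ v, g 0 y v = (v, 0)) ∧ (∀ v, g 1 y v = W y (v.1, psiL p v.2))

end LS
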