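import Pool.Agent.H.MP_5f9601_gt.U.K
import Pool.Agent.H.MP_5f9601_gt.U.Defs

/-!
The 2-homotopy between `(psi_p, psi_p) ∘ R(e)` and `R(e^p) ∘ (psi_p, psi_p)`, `p = 2m+1`
(helper47's proof, section 3): `K` for the plain powers plus the straight line from `psi_p` to `z^p`.
-/

set_option autoImplicit false
set_option linter.dupNamespace false

namespace Pool.Agent.H.MP_5f9601_gt.K

open Complex LS

/-- coordinatewise `psi` -/
noncomputable def psi2 (p : ℤ) (z : ℂ × ℂ) : ℂ × ℂ := (psi p z.1, psi p z.2)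

lemma continuous_psi2 (p : ℤ) : Continuous (psi2 p) := by
  have := continuous_psi p
  unfold psi2
  fun_prop

lemma psi_pow (m : ℕ) (z : ℂ) (hz : z ≠ 0) :
    z ^ (2 * m + 1) = ((‖z‖ ^ (2 * m) : ℝ) : ℂ) * psi ((2 * m + 1 : ℕ) : ℤ) z := by
  have h0 : (‖z‖ : ℂ) ≠ 0 := by exact_mod_cast norm_ne_zero_iff.2 hz
  unfold psi
  rw [zpow_natCast, div_pow]
  push_cast
  field_simp
  ring

lemma line_ne_zero (m : ℕ) (σ : ℝ) (h0 : 0 ≤ σ) (h1 : σ ≤ 1) (z : ℂ) (hz : z ≠ 0) :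
    (1 - (σ : ℂ)) * psi ((2 * m + 1 : ℕ) : ℤ) z + σ * z ^ (2 * m + 1) ≠ 0 := by
  rw [psi_pow m z hz]
  have e : (1 - (σ : ℂ)) * psi ((2 * m + 1 : ℕ) : ℤ) z +
      σ * (((‖z‖ ^ (2 * m) : ℝ) : ℂ) * psi ((2 * m + 1 : ℕ) : ℤ) z) =
      (((1 - σ) + σ * ‖z‖ ^ (2 * m) : ℝ) : ℂ) * psi ((2 * m + 1 : ℕ) : ℤ) z := by
    push_cast
    ring
  rw [e]
  refine mul_ne_zero ?_ (fun h => hz ((psi_eq_zero_iff _ _).1 h))
  have hpos : 0 < (1 - σ) + σ * ‖z‖ ^ (2 * m) := by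
    have hz' : 0 < ‖z‖ ^ (2 * m) := by positivity
    rcases eq_or_lt_of_le h0 with h | h
    · rw [← h]; norm_num
    · have : 0 < σ * ‖z‖ ^ (2 * m) := by positivity
      linarith
  exact_mod_cast hpos.ne'

/-- the collar parameter of the straight line -/
noncomputable def c2 (t : ℝ) : ℝ := cl (min (6 * t) (6 - 6 * t))

/-- the parameter of the straight line -/
noncomputable def sg (u t : ℝ) : ℝ := min (c2 t) (cl (min (3 * u) (3 - 3 * u)))

lemma sg_nonneg (u t : ℝ) : 0 ≤ sg u t := le_min (cl_nonneg _) (cl_nonneg _)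
lemma sg_le (u t : ℝ) : sg u t ≤ 1 := (min_le_left _ _).trans (cl_le _)

/-- the `psi`-part -/
noncomputable def MM (m : ℕ) (r : ℝ) (e : ℂ) (z : ℂ × ℂ) : ℂ × ℂ :=
  ((1 - r) * (psi2 ((2 * m + 1 : ℕ) : ℤ) (R e z)).1 +
      r * (R (e ^ (2 * m + 1)) (psi2 ((2 * m + 1 : ℕ) : ℤ) z)).1,
   (1 - r) * (psi2 ((2 * m + 1 : ℕ) : ℤ) (R e z)).2 +
      r * (R (e ^ (2 * m + 1)) (psi2 ((2 * m + 1 : ℕ) : ℤ) z)).2)

/-- **the 2-homotopy** -/
noncomputable def K2 (m : ℕ) (u t : ℝ) (z : ℂ × ℂ) : ℂ × ℂ :=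
  ((1 - (sg u t : ℂ)) * (MM m (cl (3 * u - 1)) (ee t) z).1 + (sg u t : ℂ) * (K m (cl (3 * u - 1)) t z).1,
   (1 - (sg u t : ℂ)) * (MM m (cl (3 * u - 1)) (ee t) z).2 + (sg u t : ℂ) * (K m (cl (3 * u - 1)) t z).2)

lemma continuous_K2 (m : ℕ) : Continuous fun q : ℝ × ℝ × (ℂ × ℂ) => K2 m q.1 q.2.1 q.2.2 := by
  have h1 := continuous_cl
  have h2 := continuous_ee
  have h3 := continuous_psi ((2 * m + 1 : ℕ) : ℤ)
  have h4 : Continuous fun q : ℝ × ℝ × (ℂ × ℂ) => K m (cl (3 * q.1 - 1)) q.2.1 q.2.2 :=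
    (continuous_K m).comp (f := fun q : ℝ × ℝ × (ℂ × ℂ) => (cl (3 * q.1 - 1), q.2.1, q.2.2))
      (by fun_prop)
  have h5 : Continuous fun q : ℝ × ℝ × (ℂ × ℂ) => sg q.1 q.2.1 := by
    unfold sg c2
    fun_prop
  have h6 : Continuous fun q : ℝ × ℝ × (ℂ × ℂ) =>
      MM m (cl (3 * q.1 - 1)) (ee q.2.1) q.2.2 := by
    unfold MM psi2 R
    fun_prop
  have hs : Continuous fun q : ℝ × ℝ × (ℂ × ℂ) => ((sg q.1 q.2.1 : ℝ) : ℂ) :=
    Complex.continuous_ofReal.comp h5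
  exact (((continuous_const.sub hs).mul h6.fst).add (hs.mul h4.fst)).prodMk
    (((continuous_const.sub hs).mul h6.snd).add (hs.mul h4.snd))

lemma R_smul (e c : ℂ) (z : ℂ × ℂ) : R e (c * z.1, c * z.2) = (c * (R e z).1, c * (R e z).2) := by
  unfold R
  ext
  · simp only; ring
  · simp only; ring

lemma K2_smul (m : ℕ) (u t : ℝ) (z : ℂ × ℂ) (c : ℂ) (hc : ‖c‖ = 1) :
    K2 m u t (c * z.1, c * z.2) = (c ^ (2 * m + 1) * (K2 m u t z).1, c ^ (2 * m + 1) * (K2 m u t z).2) := by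
  have hp : ∀ w : ℂ, psi ((2 * m + 1 : ℕ) : ℤ) (c * w) = c ^ (2 * m + 1) * psi ((2 * m + 1 : ℕ) : ℤ) w := by
    intro w
    rw [psi_mul _ hc, zpow_natCast]
  have hM : MM m (cl (3 * u - 1)) (ee t) (c * z.1, c * z.2) =
      (c ^ (2 * m + 1) * (MM m (cl (3 * u - 1)) (ee t) z).1,
        c ^ (2 * m + 1) * (MM m (cl (3 * u - 1)) (ee t) z).2) := by
    unfold MM
    rw [R_smul]
    have e1 : psi2 ((2 * m + 1 : ℕ) : ℤ) (c * z.1, c * z.2) =
        (c ^ (2 * m + 1) * (psi2 ((2 * m + 1 : ℕ) : ℤ) z).1,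
          c ^ (2 * m + 1) * (psi2 ((2 * m + 1 : ℕ) : ℤ) z).2) := by
      unfold psi2
      simp only [hp]
    rw [e1, R_smul]
    have e2 : psi2 ((2 * m + 1 : ℕ) : ℤ) (c * (R (ee t) z).1, c * (R (ee t) z).2) =
        (c ^ (2 * m + 1) * (psi2 ((2 * m + 1 : ℕ) : ℤ) (R (ee t) z)).1,
          c ^ (2 * m + 1) * (psi2 ((2 * m + 1 : ℕ) : ℤ) (R (ee t) z)).2) := by
      unfold psi2
      simp only [hp]
    rw [e2]
    ext
    · simp only; ring
    · simp only; ring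
  unfold K2
  rw [hM, K_smul]
  ext
  · simp only; ring
  · simp only; ring

/-- `R e` is injective for `e ≠ 0` -/
lemma R_eq_zero {e : ℂ} (he : e ≠ 0) (z : ℂ × ℂ) (h : R e z = 0) : z = 0 := by
  unfold R at h
  rw [Prod.mk_eq_zero] at h
  obtain ⟨h1, h2⟩ := h
  have h3 : z.1 + z.2 = 0 := by linear_combination h1 + h2
  have h4 : e * (z.1 - z.2) = 0 := by linear_combination h1 - h2
  have h5 := (mul_eq_zero.mp h4).resolve_left he
  ext
  · have : (2 : ℂ) * z.1 = 0 := by linear_combination h3 + h5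
    simpa using this
  · have : (2 : ℂ) * z.2 = 0 := by linear_combination h3 - h5
    simpa using this

/-- the straight line family vanishes only at zero -/
lemma line2 (m : ℕ) (σ : ℝ) (h0 : 0 ≤ σ) (h1 : σ ≤ 1) (z : ℂ × ℂ)
    (h : ((1 - (σ : ℂ)) * (psi2 ((2 * m + 1 : ℕ) : ℤ) z).1 + (σ : ℂ) * (Q (2 * m + 1) z).1,
      (1 - (σ : ℂ)) * (psi2 ((2 * m + 1 : ℕ) : ℤ) z).2 + (σ : ℂ) * (Q (2 * m + 1) z).2) = (0 : ℂ × ℂ)) :
    z = 0 := by
  rw [Prod.mk_eq_zero] at h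
  ext
  · by_contra hc
    exact line_ne_zero m σ h0 h1 z.1 hc h.1
  · by_contra hc
    exact line_ne_zero m σ h0 h1 z.2 hc h.2

lemma MM_pm (m : ℕ) (r : ℝ) (e : ℂ) (he : e = 1 ∨ e = -1) (z : ℂ × ℂ) :
    MM m r e z = psi2 ((2 * m + 1 : ℕ) : ℤ) (R e z) := by
  have h1 : R (e ^ (2 * m + 1)) (psi2 ((2 * m + 1 : ℕ) : ℤ) z) = psi2 ((2 * m + 1 : ℕ) : ℤ) (R e z) := by
    rcases he with rfl | rfl
    · rw [one_pow, R_one, R_one]
    · rw [Odd.neg_one_pow ⟨m, rfl⟩, R_neg_one, R_neg_one]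
      rfl
  unfold MM
  rw [h1]
  ext
  · simp only; ring
  · simp only; ring

lemma K2_eq_zero_iff (m : ℕ) (u t : ℝ) (z : ℂ × ℂ) : K2 m u t z = 0 ↔ z = 0 := by
  constructor
  · intro h
    have he : ee t ≠ 0 := by
      intro h0
      have := norm_ee t
      rw [h0] at this
      simp at this
    unfold K2 at h
    rcases le_or_gt u (1 / 3) with h1 | h1
    · -- r = 0
      have hr : cl (3 * u - 1) = 0 := cl_of_le (by linarith)
      rw [hr, K_left] at h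
      have hM : MM m 0 (ee t) z = psi2 ((2 * m + 1 : ℕ) : ℤ) (R (ee t) z) := by
        unfold MM
        ext
        · simp only [ofReal_zero]; ring
        · simp only [ofReal_zero]; ring
      rw [hM] at h
      exact R_eq_zero he z (line2 m _ (sg_nonneg u t) (sg_le u t) _ h)
    rcases le_or_gt (2 / 3) u with h2 | h2
    · -- r = 1
      have hr : cl (3 * u - 1) = 1 := cl_of_ge (by linarith)
      rw [hr, K_right] at h
      have hM : MM m 1 (ee t) z = R (ee t ^ (2 * m + 1)) (psi2 ((2 * m + 1 : ℕ) : ℤ) z) := by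
        unfold MM
        ext
        · simp only [ofReal_one]; ring
        · simp only [ofReal_one]; ring
      rw [hM] at h
      have h3 : R (ee t ^ (2 * m + 1))
          ((1 - (sg u t : ℂ)) * (psi2 ((2 * m + 1 : ℕ) : ℤ) z).1 + (sg u t : ℂ) * (Q (2 * m + 1) z).1,
            (1 - (sg u t : ℂ)) * (psi2 ((2 * m + 1 : ℕ) : ℤ) z).2 + (sg u t : ℂ) * (Q (2 * m + 1) z).2) =
          0 := by
        rw [← h]
        unfold R
        ext
        · simp only; ring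
        · simp only; ring
      exact line2 m _ (sg_nonneg u t) (sg_le u t) _ (R_eq_zero (pow_ne_zero _ he) _ h3)
    -- middle part
    have hcl : cl (min (3 * u) (3 - 3 * u)) = 1 := cl_of_ge (le_min (by linarith) (by linarith))
    have hsg : sg u t = c2 t := by
      unfold sg
      rw [hcl]
      exact min_eq_left (cl_le _)
    rcases le_or_gt t (1 / 6) with h3 | h3
    · rw [K_low m _ t h3, MM_pm m _ _ (Or.inl (ee_of_le (by linarith))), ee_of_le (by linarith),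
        R_one] at h
      exact line2 m _ (sg_nonneg u t) (sg_le u t) _ h
    rcases le_or_gt (5 / 6) t with h4 | h4
    · rw [K_high m _ t h4, MM_pm m _ _ (Or.inr (ee_of_ge (by linarith))), ee_of_ge (by linarith),
        R_neg_one] at h
      have h5 := line2 m _ (sg_nonneg u t) (sg_le u t) z.swap h
      rw [← Prod.swap_swap z, h5]
      rfl
    · have hc2 : c2 t = 1 := cl_of_ge (le_min (by linarith) (by linarith))
      rw [hsg, hc2] at h
      simp only [ofReal_one, sub_self, zero_mul, one_mul, zero_add] at h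
      exact (K_eq_zero_iff m _ _ _).1 h
  · rintro rfl
    have hK : K m (cl (3 * u - 1)) t 0 = 0 := (K_eq_zero_iff m _ _ _).2 rfl
    have hR : ∀ e : ℂ, R e 0 = 0 := by
      intro e
      unfold R
      ext <;> simp
    have hp : psi2 ((2 * m + 1 : ℕ) : ℤ) 0 = 0 := by
      unfold psi2
      simp
    have hM : MM m (cl (3 * u - 1)) (ee t) 0 = 0 := by
      unfold MM
      rw [hR, hp, hR]
      ext <;> simp
    unfold K2
    rw [hK, hM]
    ext <;> simp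

lemma K2_left (m : ℕ) (t : ℝ) (z : ℂ × ℂ) :
    K2 m 0 t z = psi2 ((2 * m + 1 : ℕ) : ℤ) (R (ee t) z) := by
  have hr : cl (3 * 0 - 1) = 0 := cl_of_le (by norm_num)
  have hs : sg 0 t = 0 := by
    unfold sg
    rw [cl_of_le (x := min (3 * 0) (3 - 3 * 0)) (by norm_num)]
    exact min_eq_right (cl_nonneg _)
  unfold K2 MM
  rw [hr, hs]
  ext
  · simp only [ofReal_zero]; ring
  · simp only [ofReal_zero]; ring

lemma K2_right (m : ℕ) (t : ℝ) (z : ℂ × ℂ) :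
    K2 m 1 t z = R (ee t ^ (2 * m + 1)) (psi2 ((2 * m + 1 : ℕ) : ℤ) z) := by
  have hr : cl (3 * 1 - 1) = 1 := cl_of_ge (by norm_num)
  have hs : sg 1 t = 0 := by
    unfold sg
    rw [cl_of_le (x := min (3 * 1) (3 - 3 * 1)) (by norm_num)]
    exact min_eq_right (cl_nonneg _)
  unfold K2 MM
  rw [hr, hs]
  ext
  · simp only [ofReal_zero, ofReal_one]; ring
  · simp only [ofReal_zero, ofReal_one]; ring

lemma sg_zero (u : ℝ) : sg u 0 = 0 := by
  unfold sg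
  have : c2 0 = 0 := cl_of_le (by norm_num)
  rw [this]
  exact min_eq_left (cl_nonneg _)

lemma sg_one (u : ℝ) : sg u 1 = 0 := by
  unfold sg
  have : c2 1 = 0 := cl_of_le (by norm_num)
  rw [this]
  exact min_eq_left (cl_nonneg _)

lemma K2_bot (m : ℕ) (u : ℝ) (z : ℂ × ℂ) : K2 m u 0 z = psi2 ((2 * m + 1 : ℕ) : ℤ) z := by
  unfold K2
  rw [sg_zero, MM_pm m _ _ (Or.inl ee_zero), ee_zero, R_one]
  ext
  · simp only [ofReal_zero]; ring
  · simp only [ofReal_zero]; ring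

lemma K2_top (m : ℕ) (u : ℝ) (z : ℂ × ℂ) : K2 m u 1 z = (psi2 ((2 * m + 1 : ℕ) : ℤ) z).swap := by
  unfold K2
  rw [sg_one, MM_pm m _ _ (Or.inr ee_one), ee_one, R_neg_one]
  ext
  · simp only [ofReal_zero]
    change _ = (psi2 ((2 * m + 1 : ℕ) : ℤ) z).2
    unfold psi2
    simp
  · simp only [ofReal_zero]
    change _ = (psi2 ((2 * m + 1 : ℕ) : ℤ) z).1
    unfold psi2
    simp

/-- **the summary for (B)** -/
theorem exists_K2 (m : ℕ) : ∃ K' : ℝ → ℝ → ℂ × ℂ → ℂ × ℂ,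
    (Continuous fun q : ℝ × ℝ × (ℂ × ℂ) => K' q.1 q.2.1 q.2.2) ∧
    (∀ u t z, K' u t z = 0 ↔ z = 0) ∧
    (∀ u t (z : ℂ × ℂ) (c : ℂ), ‖c‖ = 1 →
      K' u t (c * z.1, c * z.2) = (c ^ (2 * m + 1) * (K' u t z).1, c ^ (2 * m + 1) * (K' u t z).2)) ∧
    (∀ t z, K' 0 t z = psi2 ((2 * m + 1 : ℕ) : ℤ) (R (ee t) z)) ∧
    (∀ t z, K' 1 t z = R (ee t ^ (2 * m + 1)) (psi2 ((2 * m + 1 : ℕ) : ℤ) z)) ∧
    (∀ u z, K' u 0 z = psi2 ((2 * m + 1 : ℕ) : ℤ) z) ∧
    (∀ u z, K' u 1 z = (psi2 ((2 * m + 1 : ℕ) : ℤ) z).swap) :=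
  ⟨K2 m, continuous_K2 m, K2_eq_zero_iff m, fun u t z c hc => K2_smul m u t z c hc, K2_left m,
    K2_right m, K2_bot m, K2_top m⟩

end Pool.Agent.H.MP_5f9601_gt.K
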