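import Pool.Agent.H.MP_5f9601_gt.U.B2Def
import Pool.Agent.H.MP_5f9601_gt.U.K2

/-!
# S13261, section 3 (helper19): plain filler ⇒ pre-block

`W = (W0 + 1) σ`, `σ (u, z₁, w₂) = (u, w₂, z₁)`; `g`: first `g0 + 1`, then `(W0 + 1)(P₁ + 1) R(e(t))`;
`g'`: first `g0 + 1`, then `(W0 + 1) R(e(t)^p) (P₁ + 1)`; `kap`: first `g0 + P₂`, then `(W0 + 1) K2`.
-/

set_option autoImplicit false

open Set Filter Topology Metric

namespace Pool.Agent.H.MP_5f9601_gt.U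

open Pool.Agent.H.MP_5f9601_gt.K

/-- the action of the circle on `U + L^w` (weight zero on `U = ℂ^M`) -/
def act0 {M : ℕ} (w : ℕ) (t : ℂ) (v : S M) : S M := (v.1, t ^ w * v.2)

/-- **The plain filler** (output of section 4): `W0 : U + L^{pq} → U + L^q + L^p` and a path `g0`
from the inclusion `U + L^q → U + L^q + L^p` to `W0 P` (`U = ℂ^M` of weight zero, base `S(pL)`).
The parameter of `g0` is only used in `[0,1]`. -/
structure PlainFiller (p M q : ℕ) where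
  W0 : Y p → S M → S M × ℂ
  g0 : ℝ → Y p → S M → S M × ℂ
  W0_cont : Continuous fun x : Y p × S M => W0 x.1 x.2
  g0_cont : Continuous fun x : ℝ × Y p × S M => g0 x.1 x.2.1 x.2.2
  W0_iff : ∀ y v, W0 y v = 0 ↔ v = 0
  g0_iff : ∀ s ∈ Icc (0 : ℝ) 1, ∀ y v, g0 s y v = 0 ↔ v = 0
  W0_eqv : ∀ t : ℂ, ‖t‖ = 1 → ∀ y y' : Y p,
    (y' : EuclideanSpace ℂ (Fin p)) = t • (y : EuclideanSpace ℂ (Fin p)) → ∀ v,
      W0 y' (act0 (p * q) t v) = (act0 q t (W0 y v).1, t ^ p * (W0 y v).2)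
  g0_eqv : ∀ t : ℂ, ‖t‖ = 1 → ∀ y y' : Y p,
    (y' : EuclideanSpace ℂ (Fin p)) = t • (y : EuclideanSpace ℂ (Fin p)) →
      ∀ s ∈ Icc (0 : ℝ) 1, ∀ v,
        g0 s y' (act0 q t v) = (act0 q t (g0 s y v).1, t ^ p * (g0 s y v).2)
  g0_left : ∀ y v, g0 0 y v = (v, 0)
  g0_right : ∀ y v, g0 1 y v = W0 y (v.1, psi p v.2)

namespace B1

/-- add a coordinate to the target -/
def mix {M : ℕ} (r : S M × ℂ) (z : ℂ) : (S M × ℂ) × ℂ := ((r.1, z), r.2)

lemma mix_eq_zero {M : ℕ} (r : S M × ℂ) (z : ℂ) : mix r z = 0 ↔ r = 0 ∧ z = 0 := by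
  obtain ⟨r1, r2⟩ := r
  simp only [mix, Prod.mk_eq_zero]
  tauto

lemma mix_eqv {M : ℕ} (p q w : ℕ) (t : ℂ) (r : S M × ℂ) (z : ℂ) :
    mix (act0 q t r.1, t ^ p * r.2) (t ^ w * z) =
      (actS M q w t (mix r z).1, t ^ p * (mix r z).2) := rfl

lemma continuous_mix {M : ℕ} : Continuous fun x : (S M × ℂ) × ℂ => mix x.1 x.2 := by
  unfold mix
  fun_prop

lemma psi_eq_LS (l : ℤ) (z : ℂ) : LS.psi l z = psi l z := rfl

/-- gluing two halves -/
lemma glue_cont {X Z : Type*} [TopologicalSpace X] [TopologicalSpace Z] {a b : ℝ → X → Z}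
    (ha : Continuous fun x : ℝ × X => a x.1 x.2) (hb : Continuous fun x : ℝ × X => b x.1 x.2)
    (h : ∀ x, a (1 / 2) x = b (1 / 2) x) :
    Continuous fun x : ℝ × X => if x.1 ≤ 1 / 2 then a x.1 x.2 else b x.1 x.2 := by
  refine Continuous.if_le ha hb continuous_fst continuous_const ?_
  rintro ⟨s, x⟩ hs
  simp only at hs
  subst hs
  exact h x

variable {p M q : ℕ} (F : PlainFiller p M q)

/-- the common first half -/
noncomputable def half (s : ℝ) (y : Y p) (v : S M) (z : ℂ) : (S M × ℂ) × ℂ :=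
  mix (F.g0 (cl (2 * s)) y v) z

/-- `(W0 + 1)` applied to `(u, a, b)` -/
noncomputable def Wp (y : Y p) (u : (Fin M → ℂ)) (ab : ℂ × ℂ) : (S M × ℂ) × ℂ :=
  mix (F.W0 y (u, ab.1)) ab.2

lemma continuous_half :
    Continuous fun x : ℝ × Y p × S M × ℂ => half F x.1 x.2.1 x.2.2.1 x.2.2.2 := by
  unfold half
  have h1 : Continuous fun x : ℝ × Y p × S M × ℂ => F.g0 (cl (2 * x.1)) x.2.1 x.2.2.1 := by
    have hc := continuous_cl
    exact F.g0_cont.comp (f := fun x : ℝ × Y p × S M × ℂ => (cl (2 * x.1), x.2.1, x.2.2.1))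
      (by fun_prop)
  exact continuous_mix.comp (h1.prodMk (by fun_prop))

lemma continuous_Wp : Continuous fun x : Y p × (Fin M → ℂ) × (ℂ × ℂ) => Wp F x.1 x.2.1 x.2.2 := by
  unfold Wp
  have h1 : Continuous fun x : Y p × (Fin M → ℂ) × (ℂ × ℂ) => F.W0 x.1 (x.2.1, x.2.2.1) :=
    F.W0_cont.comp (f := fun x : Y p × (Fin M → ℂ) × (ℂ × ℂ) => (x.1, (x.2.1, x.2.2.1))) (by fun_prop)
  exact continuous_mix.comp (h1.prodMk (by fun_prop))

lemma half_iff (s : ℝ) (y : Y p) (v : S M) (z : ℂ) : half F s y v z = 0 ↔ v = 0 ∧ z = 0 := by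
  unfold half
  rw [mix_eq_zero, F.g0_iff _ ⟨cl_nonneg _, cl_le _⟩]

lemma Wp_iff (y : Y p) (u : (Fin M → ℂ)) (ab : ℂ × ℂ) : Wp F y u ab = 0 ↔ u = 0 ∧ ab = 0 := by
  unfold Wp
  rw [mix_eq_zero, F.W0_iff, Prod.mk_eq_zero, Prod.ext_iff (x := ab)]
  simp only [Prod.fst_zero, Prod.snd_zero]
  tauto

lemma half_eqv (w : ℕ) (t : ℂ) (ht : ‖t‖ = 1) (y y' : Y p)
    (hy : (y' : EuclideanSpace ℂ (Fin p)) = t • (y : EuclideanSpace ℂ (Fin p)))
    (s : ℝ) (v : S M) (z : ℂ) :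
    half F s y' (act0 q t v) (t ^ w * z) =
      (actS M q w t (half F s y v z).1, t ^ p * (half F s y v z).2) := by
  unfold half
  rw [F.g0_eqv t ht y y' hy _ ⟨cl_nonneg _, cl_le _⟩, mix_eqv]

lemma Wp_eqv (w : ℕ) (t : ℂ) (ht : ‖t‖ = 1) (y y' : Y p)
    (hy : (y' : EuclideanSpace ℂ (Fin p)) = t • (y : EuclideanSpace ℂ (Fin p)))
    (u : (Fin M → ℂ)) (a b : ℂ) :
    Wp F y' u (t ^ (p * q) * a, t ^ w * b) =
      (actS M q w t (Wp F y u (a, b)).1, t ^ p * (Wp F y u (a, b)).2) := by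
  unfold Wp
  have h := F.W0_eqv t ht y y' hy (u, a)
  simp only [act0] at h
  simp only
  rw [h]
  rfl

lemma half_zero (y : Y p) (v : S M) (z : ℂ) : half F 0 y v z = ((v, z), 0) := by
  unfold half
  rw [cl_of_le (by norm_num), F.g0_left]
  rfl

lemma half_half (y : Y p) (v : S M) (z : ℂ) :
    half F (1 / 2) y v z = Wp F y v.1 (psi p v.2, z) := by
  unfold half Wp
  rw [cl_of_ge (by norm_num), F.g0_right]

end B1

open B1

/-- `W = (W0 + 1) σ` -/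
noncomputable def pbW {p M q : ℕ} (F : PlainFiller p M q) (y : Y p) (v : S M × ℂ) :
    (S M × ℂ) × ℂ := Wp F y v.1.1 (v.2, v.1.2)

/-- `g` -/
noncomputable def pbg {p M q : ℕ} (F : PlainFiller p M q) (s : ℝ) (y : Y p) (v : S M × ℂ) :
    (S M × ℂ) × ℂ :=
  if s ≤ 1 / 2 then half F s y v.1 v.2
  else Wp F y v.1.1 (psi p (R (ee (2 * s - 1)) (v.1.2, v.2)).1, (R (ee (2 * s - 1)) (v.1.2, v.2)).2)

/-- `g'` -/
noncomputable def pbg' {p M q : ℕ} (F : PlainFiller p M q) (s : ℝ) (y : Y p) (v : S M × ℂ) :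
    (S M × ℂ) × ℂ :=
  if s ≤ 1 / 2 then half F s y v.1 v.2
  else Wp F y v.1.1 (R (ee (2 * s - 1) ^ p) (psi p v.1.2, v.2))

/-- `kap` (for `p = 2 m + 1`) -/
noncomputable def pbkap {m M q : ℕ} (F : PlainFiller (2 * m + 1) M q) (u s : ℝ) (y : Y (2 * m + 1))
    (v : S M × ℂ) : (S M × ℂ) × ℂ :=
  if s ≤ 1 / 2 then half F s y v.1 (psi ((2 * m + 1 : ℕ) : ℤ) v.2)
  else Wp F y v.1.1 (K2 m u (2 * s - 1) (v.1.2, v.2))

section

variable {m M q : ℕ} (F : PlainFiller (2 * m + 1) M q)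

lemma continuous_psiN (l : ℤ) : Continuous (psi l) := LS.continuous_psi l

lemma psiN_iff (l : ℤ) (z : ℂ) : psi l z = 0 ↔ z = 0 := LS.psi_eq_zero_iff l z

lemma psiN_mul (n : ℕ) {c : ℂ} (hc : ‖c‖ = 1) (z : ℂ) : psi n (c * z) = c ^ n * psi n z := by
  have := LS.psi_mul (n : ℤ) hc z
  rw [zpow_natCast] at this
  exact this

lemma psiN_zero (l : ℤ) : psi l 0 = 0 := LS.psi_zero l

lemma continuous_pbW {p M q : ℕ} (F : PlainFiller p M q) :
    Continuous fun x : Y p × (S M × ℂ) => pbW F x.1 x.2 := by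
  unfold pbW
  exact (continuous_Wp F).comp
    (f := fun x : Y p × (S M × ℂ) => (x.1, x.2.1.1, (x.2.2, x.2.1.2))) (by fun_prop)

lemma continuous_R : Continuous fun x : ℂ × (ℂ × ℂ) => R x.1 x.2 := by
  unfold R
  fun_prop

lemma ee_sub_half : ee (2 * (1 / 2) - 1) = 1 := by
  have : (2 * (1 / 2) - 1 : ℝ) = 0 := by norm_num
  rw [this, ee_zero]

lemma continuous_pbg : Continuous fun x : ℝ × Y (2 * m + 1) × (S M × ℂ) =>
    pbg F x.1 x.2.1 x.2.2 := by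
  have hR := continuous_R
  have he := continuous_ee
  have hp := continuous_psiN ((2 * m + 1 : ℕ) : ℤ)
  have h := glue_cont (X := Y (2 * m + 1) × (S M × ℂ))
    (a := fun s x => half F s x.1 x.2.1 x.2.2)
    (b := fun s x => Wp F x.1 x.2.1.1
      (psi ((2 * m + 1 : ℕ) : ℤ) (R (ee (2 * s - 1)) (x.2.1.2, x.2.2)).1,
        (R (ee (2 * s - 1)) (x.2.1.2, x.2.2)).2)) ?_ ?_ ?_
  · exact h
  · exact continuous_half F
  · have h2 : Continuous fun x : ℝ × Y (2 * m + 1) × (S M × ℂ) =>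
        R (ee (2 * x.1 - 1)) (x.2.2.1.2, x.2.2.2) :=
      hR.comp (f := fun x : ℝ × Y (2 * m + 1) × (S M × ℂ) =>
        (ee (2 * x.1 - 1), (x.2.2.1.2, x.2.2.2))) (by fun_prop)
    exact (continuous_Wp F).comp
      (f := fun x : ℝ × Y (2 * m + 1) × (S M × ℂ) => (x.2.1, x.2.2.1.1,
        (psi ((2 * m + 1 : ℕ) : ℤ) (R (ee (2 * x.1 - 1)) (x.2.2.1.2, x.2.2.2)).1,
        (R (ee (2 * x.1 - 1)) (x.2.2.1.2, x.2.2.2)).2))) (by fun_prop)
  · intro x
    rw [half_half, ee_sub_half, R_one]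

lemma continuous_pbg' : Continuous fun x : ℝ × Y (2 * m + 1) × (S M × ℂ) =>
    pbg' F x.1 x.2.1 x.2.2 := by
  have hR := continuous_R
  have he := continuous_ee
  have hp := continuous_psiN ((2 * m + 1 : ℕ) : ℤ)
  have h := glue_cont (X := Y (2 * m + 1) × (S M × ℂ))
    (a := fun s x => half F s x.1 x.2.1 x.2.2)
    (b := fun s x => Wp F x.1 x.2.1.1
      (R (ee (2 * s - 1) ^ (2 * m + 1)) (psi ((2 * m + 1 : ℕ) : ℤ) x.2.1.2, x.2.2))) ?_ ?_ ?_
  · exact h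
  · exact continuous_half F
  · have h2 : Continuous fun x : ℝ × Y (2 * m + 1) × (S M × ℂ) =>
        R (ee (2 * x.1 - 1) ^ (2 * m + 1)) (psi ((2 * m + 1 : ℕ) : ℤ) x.2.2.1.2, x.2.2.2) :=
      hR.comp (f := fun x : ℝ × Y (2 * m + 1) × (S M × ℂ) =>
        (ee (2 * x.1 - 1) ^ (2 * m + 1), (psi ((2 * m + 1 : ℕ) : ℤ) x.2.2.1.2, x.2.2.2)))
        (by fun_prop)
    exact (continuous_Wp F).comp
      (f := fun x : ℝ × Y (2 * m + 1) × (S M × ℂ) => (x.2.1, x.2.2.1.1,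
        R (ee (2 * x.1 - 1) ^ (2 * m + 1)) (psi ((2 * m + 1 : ℕ) : ℤ) x.2.2.1.2, x.2.2.2)))
      (by fun_prop)
  · intro x
    rw [half_half, ee_sub_half, one_pow, R_one]

lemma continuous_pbkap : Continuous fun x : ℝ × ℝ × Y (2 * m + 1) × (S M × ℂ) =>
    pbkap F x.1 x.2.1 x.2.2.1 x.2.2.2 := by
  have hK := continuous_K2 m
  have hp := continuous_psiN ((2 * m + 1 : ℕ) : ℤ)
  have h := glue_cont (X := ℝ × Y (2 * m + 1) × (S M × ℂ))
    (a := fun s x => half F s x.2.1 x.2.2.1 (psi ((2 * m + 1 : ℕ) : ℤ) x.2.2.2))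
    (b := fun s x => Wp F x.2.1 x.2.2.1.1 (K2 m x.1 (2 * s - 1) (x.2.2.1.2, x.2.2.2))) ?_ ?_ ?_
  · exact h.comp (f := fun x : ℝ × ℝ × Y (2 * m + 1) × (S M × ℂ) =>
      (x.2.1, (x.1, x.2.2.1, x.2.2.2))) (by fun_prop)
  · exact (continuous_half F).comp
      (f := fun x : ℝ × ℝ × Y (2 * m + 1) × (S M × ℂ) =>
        (x.1, x.2.2.1, x.2.2.2.1, psi ((2 * m + 1 : ℕ) : ℤ) x.2.2.2.2)) (by fun_prop)
  · have h2 : Continuous fun x : ℝ × ℝ × Y (2 * m + 1) × (S M × ℂ) =>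
        K2 m x.2.1 (2 * x.1 - 1) (x.2.2.2.1.2, x.2.2.2.2) :=
      hK.comp (f := fun x : ℝ × ℝ × Y (2 * m + 1) × (S M × ℂ) =>
        (x.2.1, 2 * x.1 - 1, (x.2.2.2.1.2, x.2.2.2.2))) (by fun_prop)
    exact (continuous_Wp F).comp
      (f := fun x : ℝ × ℝ × Y (2 * m + 1) × (S M × ℂ) => (x.2.2.1, x.2.2.2.1.1,
        K2 m x.2.1 (2 * x.1 - 1) (x.2.2.2.1.2, x.2.2.2.2))) (by fun_prop)
  · intro x
    have : (2 * (1 / 2) - 1 : ℝ) = 0 := by norm_num
    rw [half_half, this, K2_bot]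
    rfl

lemma ee_ne (t : ℝ) : ee t ≠ 0 := by
  intro h
  have := norm_ee t
  rw [h, norm_zero] at this
  exact zero_ne_one this

lemma R_iff {e : ℂ} (he : e ≠ 0) (z : ℂ × ℂ) : R e z = 0 ↔ z = 0 := by
  constructor
  · exact R_eq_zero he z
  · rintro rfl
    simp [R]

lemma pbW_iff {p M q : ℕ} (F : PlainFiller p M q) (y : Y p) (v : S M × ℂ) :
    pbW F y v = 0 ↔ v = 0 := by
  obtain ⟨⟨u, z1⟩, z2⟩ := v
  unfold pbW
  rw [Wp_iff]
  simp only [Prod.mk_eq_zero]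
  tauto

lemma pbg_iff (s : ℝ) (y : Y (2 * m + 1)) (v : S M × ℂ) :
    pbg F s y v = 0 ↔ v = 0 := by
  obtain ⟨⟨u, z1⟩, z2⟩ := v
  unfold pbg
  split_ifs
  · rw [half_iff]
    simp only [Prod.mk_eq_zero]
  · rw [Wp_iff]
    have h := R_iff (ee_ne (2 * s - 1)) (z1, z2)
    rw [Prod.ext_iff] at h
    simp only [Prod.mk_eq_zero, psiN_iff, Prod.fst_zero, Prod.snd_zero] at h ⊢
    rw [h]
    tauto

lemma pbg'_iff (s : ℝ) (y : Y (2 * m + 1)) (v : S M × ℂ) :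
    pbg' F s y v = 0 ↔ v = 0 := by
  obtain ⟨⟨u, z1⟩, z2⟩ := v
  unfold pbg'
  split_ifs
  · rw [half_iff]
    simp only [Prod.mk_eq_zero]
  · rw [Wp_iff, R_iff (pow_ne_zero _ (ee_ne (2 * s - 1)))]
    simp only [Prod.mk_eq_zero, psiN_iff]
    tauto

lemma pbkap_iff (u s : ℝ) (y : Y (2 * m + 1)) (v : S M × ℂ) :
    pbkap F u s y v = 0 ↔ v = 0 := by
  obtain ⟨⟨w, z1⟩, z2⟩ := v
  unfold pbkap
  split_ifs
  · rw [half_iff]
    simp only [Prod.mk_eq_zero, psiN_iff]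
  · rw [Wp_iff, K2_eq_zero_iff]
    simp only [Prod.mk_eq_zero]
    tauto

lemma pbW_eqv {p M q : ℕ} (F : PlainFiller p M q) (t : ℂ) (ht : ‖t‖ = 1) (y y' : Y p)
    (hy : (y' : EuclideanSpace ℂ (Fin p)) = t • (y : EuclideanSpace ℂ (Fin p)))
    (v : S M × ℂ) :
    pbW F y' (actS M q (p * q) t v) = (actS M q q t (pbW F y v).1, t ^ p * (pbW F y v).2) :=
  Wp_eqv F q t ht y y' hy v.1.1 v.2 v.1.2

lemma norm_tpow {t : ℂ} (ht : ‖t‖ = 1) (n : ℕ) : ‖t ^ n‖ = 1 := by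
  rw [norm_pow, ht, one_pow]

lemma pbg_eqv (t : ℂ) (ht : ‖t‖ = 1) (y y' : Y (2 * m + 1))
    (hy : (y' : EuclideanSpace ℂ (Fin (2 * m + 1))) =
      t • (y : EuclideanSpace ℂ (Fin (2 * m + 1)))) (s : ℝ)
    (v : S M × ℂ) :
    pbg F s y' (actS M q q t v) =
      (actS M q q t (pbg F s y v).1, t ^ (2 * m + 1) * (pbg F s y v).2) := by
  unfold pbg
  split_ifs
  · exact half_eqv F q t ht y y' hy s v.1 v.2
  · have h := R_smul (ee (2 * s - 1)) (t ^ q) (v.1.2, v.2)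
    simp only at h
    have h2 := psiN_mul (2 * m + 1) (norm_tpow ht q) (R (ee (2 * s - 1)) (v.1.2, v.2)).1
    have h3 : (t ^ q) ^ (2 * m + 1) = t ^ ((2 * m + 1) * q) := by
      rw [← pow_mul, mul_comm]
    rw [h3] at h2
    simp only [actS]
    rw [h]
    simp only
    rw [h2]
    exact Wp_eqv F q t ht y y' hy v.1.1 _ _

lemma pbg'_eqv (t : ℂ) (ht : ‖t‖ = 1) (y y' : Y (2 * m + 1))
    (hy : (y' : EuclideanSpace ℂ (Fin (2 * m + 1))) =
      t • (y : EuclideanSpace ℂ (Fin (2 * m + 1)))) (s : ℝ)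
    (v : S M × ℂ) :
    pbg' F s y' (actS M q ((2 * m + 1) * q) t v) =
      (actS M q ((2 * m + 1) * q) t (pbg' F s y v).1, t ^ (2 * m + 1) * (pbg' F s y v).2) := by
  unfold pbg'
  split_ifs
  · exact half_eqv F ((2 * m + 1) * q) t ht y y' hy s v.1 v.2
  · have h2 := psiN_mul (2 * m + 1) (norm_tpow ht q) v.1.2
    have h3 : (t ^ q) ^ (2 * m + 1) = t ^ ((2 * m + 1) * q) := by
      rw [← pow_mul, mul_comm]
    rw [h3] at h2
    have h := R_smul (ee (2 * s - 1) ^ (2 * m + 1)) (t ^ ((2 * m + 1) * q))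
      (psi ((2 * m + 1 : ℕ) : ℤ) v.1.2, v.2)
    simp only at h
    simp only [actS]
    rw [h2, h]
    exact Wp_eqv F ((2 * m + 1) * q) t ht y y' hy v.1.1 _ _

lemma pbkap_eqv (t : ℂ) (ht : ‖t‖ = 1) (y y' : Y (2 * m + 1))
    (hy : (y' : EuclideanSpace ℂ (Fin (2 * m + 1))) =
      t • (y : EuclideanSpace ℂ (Fin (2 * m + 1)))) (u s : ℝ)
    (v : S M × ℂ) :
    pbkap F u s y' (actS M q q t v) =
      (actS M q ((2 * m + 1) * q) t (pbkap F u s y v).1,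
        t ^ (2 * m + 1) * (pbkap F u s y v).2) := by
  have h3 : (t ^ q) ^ (2 * m + 1) = t ^ ((2 * m + 1) * q) := by
    rw [← pow_mul, mul_comm]
  unfold pbkap
  split_ifs
  · have h2 := psiN_mul (2 * m + 1) (norm_tpow ht q) v.2
    rw [h3] at h2
    simp only [actS]
    rw [h2]
    exact half_eqv F ((2 * m + 1) * q) t ht y y' hy s v.1 _
  · have h := K2_smul m u (2 * s - 1) (v.1.2, v.2) (t ^ q) (norm_tpow ht q)
    simp only at h
    rw [h3] at h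
    simp only [actS]
    rw [h]
    exact Wp_eqv F ((2 * m + 1) * q) t ht y y' hy v.1.1 _ _

end

/-- **Plain filler ⇒ pre-block.** -/
noncomputable def PlainFiller.preBlock {m M q : ℕ} (F : PlainFiller (2 * m + 1) M q) :
    PreBlock (2 * m + 1) M q where
  W := pbW F
  g := pbg F
  g' := pbg' F
  kap := pbkap F
  W_cont := continuous_pbW F
  g_cont := continuous_pbg F
  g'_cont := continuous_pbg' F
  kap_cont := continuous_pbkap F
  W_ne y v h h' := h ((pbW_iff F y v).1 h')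
  g_ne s _ y v h h' := h ((pbg_iff F s y v).1 h')
  g'_ne s _ y v h h' := h ((pbg'_iff F s y v).1 h')
  kap_ne u _ s _ y v h h' := h ((pbkap_iff F u s y v).1 h')
  W_eqv := pbW_eqv F
  g_eqv t ht y y' hy s _ v := pbg_eqv F t ht y y' hy s v
  g'_eqv t ht y y' hy s _ v := pbg'_eqv F t ht y y' hy s v
  kap_eqv t ht y y' hy u _ s _ v := pbkap_eqv F t ht y y' hy u s v
  g_zero y v := by
    unfold pbg
    rw [if_pos (by norm_num), half_zero]
  g'_zero y v := by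
    unfold pbg'
    rw [if_pos (by norm_num), half_zero]
  g_one y v := by
    unfold pbg pbW
    rw [if_neg (by norm_num)]
    have : (2 * 1 - 1 : ℝ) = 1 := by norm_num
    rw [this, ee_one, R_neg_one]
    rfl
  g'_one y v := by
    unfold pbg' pbW
    rw [if_neg (by norm_num)]
    have : (2 * 1 - 1 : ℝ) = 1 := by norm_num
    rw [this, ee_one, Odd.neg_one_pow ⟨m, rfl⟩, R_neg_one]
    rfl
  kap_zero s _ y v := by
    unfold pbkap pbg
    split_ifs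
    · rfl
    · rw [K2_left]
      rfl
  kap_one s _ y v := by
    unfold pbkap pbg'
    split_ifs
    · rfl
    · rw [K2_right]
      rfl
  kap_left u _ y v := by
    unfold pbkap
    rw [if_pos (by norm_num), half_zero]
    rfl
  kap_right u _ y v := by
    unfold pbkap pbW
    rw [if_neg (by norm_num)]
    have : (2 * 1 - 1 : ℝ) = 1 := by norm_num
    rw [this, K2_top]
    rfl

/-- Plain filler ⇒ pre-block, for odd `p`. -/
theorem preBlock_of_plainFiller {p M q : ℕ} (hp : Odd p) (h : Nonempty (PlainFiller p M q)) :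
    Nonempty (PreBlock p M q) := by
  obtain ⟨m, rfl⟩ := hp
  obtain ⟨F⟩ := h
  exact ⟨F.preBlock⟩

end Pool.Agent.H.MP_5f9601_gt.U
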