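import Pool.Agent.H.MP_5f9601_gt.U.B2Def

/-!
# S13261, helper47's proof, section 3: transport of the block along the isometries `J_x`
-/

set_option autoImplicit false

open Set Filter Topology Metric

namespace Pool.Agent.H.MP_5f9601_gt.U

open Complex

theorem psi_zero' (w : ℤ) : psi w 0 = 0 := by simp [psi]

theorem norm_psi' (w : ℤ) (x : ℂ) : ‖psi w x‖ = ‖x‖ := by
  by_cases hx : x = 0
  · subst hx; simp [psi]
  · have h : ‖x‖ ≠ 0 := norm_ne_zero_iff.mpr hx
    have h1 : ‖x / (‖x‖ : ℂ)‖ = 1 := by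
      rw [norm_div, norm_real, norm_norm, div_self h]
    rw [psi, norm_mul, norm_zpow, h1, one_zpow, mul_one, norm_real, norm_norm]

theorem psi_smul' (w : ℤ) (t x : ℂ) (ht : ‖t‖ = 1) : psi w (t * x) = t ^ w * psi w x := by
  unfold psi
  rw [norm_mul, ht, one_mul, mul_div_assoc, mul_zpow]
  ring

theorem continuous_psi' (w : ℤ) : Continuous (psi w) := by
  rw [continuous_iff_continuousAt]
  intro x
  by_cases hx : x = 0
  · subst hx
    rw [ContinuousAt, psi_zero']
    rw [tendsto_zero_iff_norm_tendsto_zero]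
    have : (fun x : ℂ => ‖psi w x‖) = fun x : ℂ => ‖x‖ := by
      funext x; exact norm_psi' w x
    rw [this]
    have h := (continuous_norm : Continuous (fun x : ℂ => ‖x‖)).tendsto 0
    simpa using h
  · have h : (‖x‖ : ℂ) ≠ 0 := by
      simpa using hx
    have h2 : x / (‖x‖ : ℂ) ≠ 0 := div_ne_zero hx h
    have hc : ContinuousAt (fun x : ℂ => (‖x‖ : ℂ)) x :=
      (continuous_ofReal.comp continuous_norm).continuousAt
    exact hc.mul ((continuousAt_id.div hc h).zpow₀ w (Or.inl h2))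

/-- The model of `n C` with `n = p (M + 1)`. -/
abbrev Vp (M p : ℕ) : Type := (Fin M → Fin p → ℂ) × (Fin p → ℂ)

/-- The isometry from the passive part. -/
noncomputable def JJ (M p q : ℕ) (x : Y p) (s : S M) : Vp M p :=
  (fun a i => psi p (x.1 i) * s.1 a, fun i => psi ((p : ℤ) - q) (x.1 i) * s.2)

/-- The adjoint of the isometry. -/
noncomputable def JS (M p q : ℕ) (x : Y p) (v : Vp M p) : S M :=
  (fun a => ∑ i, (starRingEnd ℂ) (psi p (x.1 i)) * v.1 a i,
    ∑ i, (starRingEnd ℂ) (psi ((p : ℤ) - q) (x.1 i)) * v.2 i)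

theorem sum_psi (p : ℕ) (w : ℤ) (x : Y p) :
    ∑ i, (starRingEnd ℂ) (psi w (x.1 i)) * psi w (x.1 i) = 1 := by
  have h1 : ∀ i, (starRingEnd ℂ) (psi w (x.1 i)) * psi w (x.1 i) = ((‖x.1 i‖ ^ 2 : ℝ) : ℂ) := by
    intro i
    rw [mul_comm, mul_conj, normSq_eq_norm_sq, norm_psi']
  have h2 : ‖x.1‖ = 1 := by
    have h := x.2
    simp only [mem_sphere_iff_norm, sub_zero] at h
    exact h
  have h3 : ∑ i, ‖x.1 i‖ ^ 2 = 1 := by
    have := EuclideanSpace.norm_sq_eq x.1
    rw [h2] at this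
    rw [← this]; norm_num
  simp_rw [h1]
  rw [← ofReal_sum, h3, ofReal_one]

theorem JS_JJ (M p q : ℕ) (x : Y p) (s : S M) : JS M p q x (JJ M p q x s) = s := by
  apply Prod.ext
  · funext a
    show ∑ i, (starRingEnd ℂ) (psi p (x.1 i)) * (psi p (x.1 i) * s.1 a) = s.1 a
    simp_rw [← mul_assoc]
    rw [← Finset.sum_mul, sum_psi, one_mul]
  · show ∑ i, (starRingEnd ℂ) (psi ((p : ℤ) - q) (x.1 i)) * (psi ((p : ℤ) - q) (x.1 i) * s.2) = s.2
    simp_rw [← mul_assoc]
    rw [← Finset.sum_mul, sum_psi, one_mul]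

theorem JJ_zero (M p q : ℕ) (x : Y p) : JJ M p q x 0 = 0 := by
  apply Prod.ext
  · funext a i
    simp [JJ]
  · funext i
    simp [JJ]

theorem JS_add (M p q : ℕ) (x : Y p) (v v' : Vp M p) :
    JS M p q x (v + v') = JS M p q x v + JS M p q x v' := by
  apply Prod.ext
  · funext a
    simp [JS, mul_add, Finset.sum_add_distrib]
  · simp [JS, mul_add, Finset.sum_add_distrib]

theorem JS_sub (M p q : ℕ) (x : Y p) (v v' : Vp M p) :
    JS M p q x (v - v') = JS M p q x v - JS M p q x v' := by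
  apply Prod.ext
  · funext a
    simp [JS, mul_sub, Finset.sum_sub_distrib]
  · simp [JS, mul_sub, Finset.sum_sub_distrib]

theorem JS_zero (M p q : ℕ) (x : Y p) : JS M p q x 0 = 0 := by
  apply Prod.ext
  · funext a
    simp [JS]
  · simp [JS]

/-- Action of weight `(0, q)` on the passive part. -/
def actP (M p q : ℕ) (t : ℂ) (s : S M) : S M := (s.1, t ^ q * s.2)

theorem JJ_act (M p q : ℕ) (x x' : Y p) (t : ℂ) (ht : ‖t‖ = 1) (hx : x'.1 = t • x.1) (s : S M) :
    JJ M p q x' (actP M p q t s) = t ^ p • JJ M p q x s := by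
  have ht0 : t ≠ 0 := by
    intro h; rw [h, norm_zero] at ht; exact zero_ne_one ht
  have hi : ∀ i, x'.1 i = t * x.1 i := by
    intro i; rw [hx]; rfl
  apply Prod.ext
  · funext a i
    show psi p (x'.1 i) * s.1 a = t ^ p • (psi p (x.1 i) * s.1 a)
    rw [hi, psi_smul' _ _ _ ht, zpow_natCast, smul_eq_mul]
    ring
  · funext i
    show psi ((p : ℤ) - q) (x'.1 i) * (t ^ q * s.2) = t ^ p • (psi ((p : ℤ) - q) (x.1 i) * s.2)
    rw [hi, psi_smul' _ _ _ ht, smul_eq_mul]
    have h : t ^ ((p : ℤ) - q) * t ^ q = t ^ p := by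
      rw [← zpow_natCast t q, ← zpow_add₀ ht0, sub_add_cancel, zpow_natCast]
    calc t ^ ((p : ℤ) - q) * psi ((p : ℤ) - q) (x.1 i) * (t ^ q * s.2)
        = (t ^ ((p : ℤ) - q) * t ^ q) * (psi ((p : ℤ) - q) (x.1 i) * s.2) := by ring
      _ = _ := by rw [h]

theorem JS_act (M p q : ℕ) (x x' : Y p) (t : ℂ) (ht : ‖t‖ = 1) (hx : x'.1 = t • x.1) (v : Vp M p) :
    JS M p q x' (t ^ p • v) = actP M p q t (JS M p q x v) := by
  have ht0 : t ≠ 0 := by
    intro h; rw [h, norm_zero] at ht; exact zero_ne_one ht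
  have hi : ∀ i, x'.1 i = t * x.1 i := by
    intro i; rw [hx]; rfl
  have hc : (starRingEnd ℂ) t = t⁻¹ := by
    rw [eq_comm, inv_eq_iff_eq_inv, eq_comm, inv_eq_of_mul_eq_one_left]
    rw [mul_conj, normSq_eq_norm_sq, ht]; norm_num
  apply Prod.ext
  · funext a
    show ∑ i, (starRingEnd ℂ) (psi p (x'.1 i)) * (t ^ p • v.1 a i) =
      ∑ i, (starRingEnd ℂ) (psi p (x.1 i)) * v.1 a i
    refine Finset.sum_congr rfl fun i _ => ?_
    rw [hi, psi_smul' _ _ _ ht, zpow_natCast, smul_eq_mul, map_mul, map_pow, hc]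
    have h : (t⁻¹) ^ p * t ^ p = 1 := by
      rw [← mul_pow, inv_mul_cancel₀ ht0, one_pow]
    calc (t⁻¹) ^ p * (starRingEnd ℂ) (psi p (x.1 i)) * (t ^ p * v.1 a i)
        = ((t⁻¹) ^ p * t ^ p) * ((starRingEnd ℂ) (psi p (x.1 i)) * v.1 a i) := by ring
      _ = _ := by rw [h, one_mul]
  · show ∑ i, (starRingEnd ℂ) (psi ((p : ℤ) - q) (x'.1 i)) * (t ^ p • v.2 i) =
      t ^ q * ∑ i, (starRingEnd ℂ) (psi ((p : ℤ) - q) (x.1 i)) * v.2 i
    rw [Finset.mul_sum]
    refine Finset.sum_congr rfl fun i _ => ?_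
    rw [hi, psi_smul' _ _ _ ht, smul_eq_mul, map_mul, map_zpow₀, hc]
    have h : (t⁻¹) ^ ((p : ℤ) - q) * t ^ p = t ^ q := by
      rw [inv_zpow', ← zpow_natCast t p, ← zpow_add₀ ht0, ← zpow_natCast t q]
      congr 1
      ring
    calc (t⁻¹) ^ ((p : ℤ) - q) * (starRingEnd ℂ) (psi ((p : ℤ) - q) (x.1 i)) * (t ^ p * v.2 i)
        = ((t⁻¹) ^ ((p : ℤ) - q) * t ^ p) * ((starRingEnd ℂ) (psi ((p : ℤ) - q) (x.1 i)) * v.2 i) := by
          ring
      _ = _ := by rw [h]

theorem continuous_JJ (M p q : ℕ) : Continuous fun z : Y p × S M => JJ M p q z.1 z.2 := by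
  have h1 : ∀ (w : ℤ) (i : Fin p), Continuous fun z : Y p × S M => psi w (z.1.1 i) := by
    intro w i
    exact (continuous_psi' w).comp ((EuclideanSpace.proj (𝕜 := ℂ) i).continuous.comp
      (continuous_subtype_val.comp continuous_fst))
  refine Continuous.prodMk ?_ ?_
  · refine continuous_pi fun a => continuous_pi fun i => (h1 _ i).mul ?_
    exact (continuous_apply a).comp (continuous_fst.comp continuous_snd)
  · refine continuous_pi fun i => (h1 _ i).mul ?_
    exact continuous_snd.comp continuous_snd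

theorem continuous_JS (M p q : ℕ) : Continuous fun z : Y p × Vp M p => JS M p q z.1 z.2 := by
  have h1 : ∀ (w : ℤ) (i : Fin p), Continuous fun z : Y p × Vp M p =>
      (starRingEnd ℂ) (psi w (z.1.1 i)) := by
    intro w i
    exact continuous_conj.comp ((continuous_psi' w).comp
      ((EuclideanSpace.proj (𝕜 := ℂ) i).continuous.comp
      (continuous_subtype_val.comp continuous_fst)))
  refine Continuous.prodMk ?_ ?_
  · refine continuous_pi fun a => continuous_finsetSum _ fun i _ => (h1 _ i).mul ?_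
    exact (continuous_apply i).comp ((continuous_apply a).comp
      (continuous_fst.comp continuous_snd))
  · refine continuous_finsetSum _ fun i _ => (h1 _ i).mul ?_
    exact (continuous_apply i).comp (continuous_snd.comp continuous_snd)

theorem Continuous.JJ' {Z : Type} [TopologicalSpace Z] (M p q : ℕ) {a : Z → Y p} {b : Z → S M}
    (ha : Continuous a) (hb : Continuous b) : Continuous fun z => JJ M p q (a z) (b z) :=
  Continuous.comp (g := fun z : Y p × S M => JJ M p q z.1 z.2) (f := fun z => (a z, b z))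
    (continuous_JJ M p q) (ha.prodMk hb)

theorem Continuous.JS' {Z : Type} [TopologicalSpace Z] (M p q : ℕ) {a : Z → Y p} {b : Z → Vp M p}
    (ha : Continuous a) (hb : Continuous b) : Continuous fun z => JS M p q (a z) (b z) :=
  Continuous.comp (g := fun z : Y p × Vp M p => JS M p q z.1 z.2) (f := fun z => (a z, b z))
    (continuous_JS M p q) (ha.prodMk hb)

/-- Transport of a value along the isometry. -/
noncomputable def trv (M p q : ℕ) (x : Y p) (v : Vp M p) (r : (S M × ℂ) × ℂ) : (Vp M p × ℂ) × ℂ :=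
  ((v - JJ M p q x (JS M p q x v) + JJ M p q x r.1.1, r.1.2), r.2)

/-- Transport of a map along the isometry. -/
noncomputable def trp (M p q : ℕ) (f : Y p → S M × ℂ → (S M × ℂ) × ℂ) (x : Y p)
    (v : Vp M p × ℂ) : (Vp M p × ℂ) × ℂ :=
  trv M p q x v.1 (f x (JS M p q x v.1, v.2))

theorem trp_ne_zero (M p q : ℕ) (f : Y p → S M × ℂ → (S M × ℂ) × ℂ) (x : Y p)
    (hf : ∀ v, v ≠ 0 → f x v ≠ 0) (v : Vp M p × ℂ)
    (hv : v ≠ 0) : trp M p q f x v ≠ 0 := by
  intro h
  have h1 : v.1 - JJ M p q x (JS M p q x v.1) + JJ M p q x (f x (JS M p q x v.1, v.2)).1.1 = 0 :=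
    congrArg (fun z : (Vp M p × ℂ) × ℂ => z.1.1) h
  have h2 : (f x (JS M p q x v.1, v.2)).1.2 = 0 :=
    congrArg (fun z : (Vp M p × ℂ) × ℂ => z.1.2) h
  have h3 : (f x (JS M p q x v.1, v.2)).2 = 0 :=
    congrArg (fun z : (Vp M p × ℂ) × ℂ => z.2) h
  have h4 : (f x (JS M p q x v.1, v.2)).1.1 = 0 := by
    have h5 := congrArg (JS M p q x) h1
    rw [JS_add, JS_sub, JS_JJ, JS_JJ, sub_self, zero_add, JS_zero] at h5
    exact h5
  have h6 : f x (JS M p q x v.1, v.2) = 0 := Prod.ext (Prod.ext h4 h2) h3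
  have h7 : ((JS M p q x v.1, v.2) : S M × ℂ) = 0 := by
    by_contra h8
    exact hf _ h8 h6
  have h8 : JS M p q x v.1 = 0 := congrArg Prod.fst h7
  have h9 : v.2 = 0 := congrArg Prod.snd h7
  rw [h4, h8, JJ_zero, sub_zero, add_zero] at h1
  exact hv (Prod.ext h1 h9)

theorem continuous_trp {Z : Type} [TopologicalSpace Z] (M p q : ℕ)
    (f : Z → Y p → S M × ℂ → (S M × ℂ) × ℂ)
    (hf : Continuous fun z : Z × Y p × (S M × ℂ) => f z.1 z.2.1 z.2.2) :
    Continuous fun z : Z × Y p × (Vp M p × ℂ) => trp M p q (f z.1) z.2.1 z.2.2 := by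
  have hx : Continuous fun z : Z × Y p × (Vp M p × ℂ) => z.2.1 := by fun_prop
  have hv : Continuous fun z : Z × Y p × (Vp M p × ℂ) => z.2.2.1 := by fun_prop
  have he : Continuous fun z : Z × Y p × (Vp M p × ℂ) => z.2.2.2 := by fun_prop
  have hJS : Continuous fun z : Z × Y p × (Vp M p × ℂ) => JS M p q z.2.1 z.2.2.1 :=
    Continuous.JS' M p q hx hv
  have hF : Continuous fun z : Z × Y p × (Vp M p × ℂ) =>
      f z.1 z.2.1 (JS M p q z.2.1 z.2.2.1, z.2.2.2) :=
    Continuous.comp (g := fun z : Z × Y p × (S M × ℂ) => f z.1 z.2.1 z.2.2)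
      (f := fun z : Z × Y p × (Vp M p × ℂ) => (z.1, z.2.1, (JS M p q z.2.1 z.2.2.1, z.2.2.2)))
      hf (continuous_fst.prodMk (hx.prodMk (hJS.prodMk he)))
  have hJ1 : Continuous fun z : Z × Y p × (Vp M p × ℂ) =>
      JJ M p q z.2.1 (JS M p q z.2.1 z.2.2.1) := Continuous.JJ' M p q hx hJS
  have h11 : Continuous fun z : Z × Y p × (Vp M p × ℂ) =>
      (f z.1 z.2.1 (JS M p q z.2.1 z.2.2.1, z.2.2.2)).1.1 := hF.fst.fst
  have hJ2 : Continuous fun z : Z × Y p × (Vp M p × ℂ) =>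
      JJ M p q z.2.1 (f z.1 z.2.1 (JS M p q z.2.1 z.2.2.1, z.2.2.2)).1.1 :=
    Continuous.JJ' M p q hx h11
  unfold trp trv
  exact Continuous.prodMk (Continuous.prodMk ((hv.sub hJ1).add hJ2) hF.fst.snd) hF.snd

theorem trv_act (M p q w' : ℕ) (t : ℂ) (ht : ‖t‖ = 1) (x x' : Y p) (hx : x'.1 = t • x.1)
    (v : Vp M p) (r : (S M × ℂ) × ℂ) :
    trv M p q x' (t ^ p • v) (actS M q w' t r.1, t ^ p * r.2) =
      (act p w' t (trv M p q x v r).1, t ^ p * (trv M p q x v r).2) := by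
  have h2 : JS M p q x' (t ^ p • v) = actP M p q t (JS M p q x v) := JS_act M p q x x' t ht hx v
  have h3 : JJ M p q x' (actP M p q t (JS M p q x v)) = t ^ p • JJ M p q x (JS M p q x v) :=
    JJ_act M p q x x' t ht hx _
  have h4 : JJ M p q x' (actP M p q t r.1.1) = t ^ p • JJ M p q x r.1.1 :=
    JJ_act M p q x x' t ht hx _
  have h5 : t ^ p • v - JJ M p q x' (JS M p q x' (t ^ p • v)) + JJ M p q x' (actP M p q t r.1.1) =
      t ^ p • (v - JJ M p q x (JS M p q x v) + JJ M p q x r.1.1) := by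
    rw [h2, h3, h4, ← smul_sub, ← smul_add]
  exact Prod.ext (Prod.ext h5 rfl) rfl

theorem trp_act (M p q w w' : ℕ) (f f' : Y p → S M × ℂ → (S M × ℂ) × ℂ) (t : ℂ) (ht : ‖t‖ = 1)
    (x x' : Y p) (hx : x'.1 = t • x.1)
    (hf : ∀ s : S M × ℂ, f' x' (actS M q w t s) = (actS M q w' t (f x s).1, t ^ p * (f x s).2))
    (v : Vp M p × ℂ) :
    trp M p q f' x' (act p w t v) = (act p w' t (trp M p q f x v).1, t ^ p * (trp M p q f x v).2) := by
  have h2 : JS M p q x' (t ^ p • v.1) = actP M p q t (JS M p q x v.1) := JS_act M p q x x' t ht hx v.1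
  have h3 : ((JS M p q x' (act p w t v).1, (act p w t v).2) : S M × ℂ) =
      actS M q w t (JS M p q x v.1, v.2) := Prod.ext h2 rfl
  have h4 := trv_act M p q w' t ht x x' hx v.1 (f x (JS M p q x v.1, v.2))
  rw [← hf, ← h3] at h4
  exact h4

theorem trp_iota (M p q : ℕ) (f : Y p → S M × ℂ → (S M × ℂ) × ℂ) (x : Y p)
    (hf : ∀ s, f x s = (s, 0)) (v : Vp M p × ℂ) :
    trp M p q f x v = (v, 0) := by
  unfold trp trv
  rw [hf]
  exact Prod.ext (Prod.ext (sub_add_cancel _ _) rfl) rfl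

theorem trp_P (M p q : ℕ) (f f' : Y p → S M × ℂ → (S M × ℂ) × ℂ) (x : Y p)
    (hf : ∀ s, f x s = f' x (PS p s)) (v : Vp M p × ℂ) :
    trp M p q f x v = trp M p q f' x (PP p v) := by
  unfold trp
  rw [hf]
  rfl

theorem P_trp (M p q : ℕ) (f f' : Y p → S M × ℂ → (S M × ℂ) × ℂ) (x : Y p)
    (hf : ∀ s, f' x s = (PS p (f x s).1, (f x s).2)) (v : Vp M p × ℂ) :
    trp M p q f' x v = (PP p (trp M p q f x v).1, (trp M p q f x v).2) := by
  unfold trp
  rw [hf]
  rfl

/-- The transport of the block. -/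
noncomputable def PreBlock.toBlock {M p q : ℕ} (b : PreBlock p M q) : Block p q (Vp M p) where
  W := trp M p q b.W
  g s := trp M p q (b.g s)
  g' s := trp M p q (b.g' s)
  kap u s := trp M p q (b.kap u s)
  W_cont := by
    have h := continuous_trp (Z := Unit) M p q (fun _ => b.W)
      (b.W_cont.comp (continuous_snd : Continuous fun z : Unit × (Y p × (S M × ℂ)) => z.2))
    exact h.comp (Continuous.prodMk continuous_const continuous_id :
      Continuous fun z : Y p × (Vp M p × ℂ) => (((), z) : Unit × (Y p × (Vp M p × ℂ))))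
  g_cont := continuous_trp M p q b.g b.g_cont
  g'_cont := continuous_trp M p q b.g' b.g'_cont
  kap_cont := by
    have h := continuous_trp (Z := ℝ × ℝ) M p q (fun z => b.kap z.1 z.2)
      (b.kap_cont.comp (by fun_prop :
        Continuous fun z : (ℝ × ℝ) × Y p × (S M × ℂ) => (z.1.1, z.1.2, z.2.1, z.2.2)))
    exact h.comp (by fun_prop :
      Continuous fun z : ℝ × ℝ × Y p × (Vp M p × ℂ) => ((z.1, z.2.1), z.2.2.1, z.2.2.2))
  W_ne y := trp_ne_zero M p q b.W y (b.W_ne y)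
  g_ne s hs y := trp_ne_zero M p q (b.g s) y (b.g_ne s hs y)
  g'_ne s hs y := trp_ne_zero M p q (b.g' s) y (b.g'_ne s hs y)
  kap_ne u hu s hs y := trp_ne_zero M p q (b.kap u s) y (b.kap_ne u hu s hs y)
  W_eqv t ht y y' hy v := trp_act M p q (p * q) q b.W b.W t ht y y' hy (b.W_eqv t ht y y' hy) v
  g_eqv t ht y y' hy s hs v :=
    trp_act M p q q q (b.g s) (b.g s) t ht y y' hy (b.g_eqv t ht y y' hy s hs) v
  g'_eqv t ht y y' hy s hs v :=
    trp_act M p q (p * q) (p * q) (b.g' s) (b.g' s) t ht y y' hy (b.g'_eqv t ht y y' hy s hs) v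
  kap_eqv t ht y y' hy u hu s hs v :=
    trp_act M p q q (p * q) (b.kap u s) (b.kap u s) t ht y y' hy
      (b.kap_eqv t ht y y' hy u hu s hs) v
  g_zero y v := trp_iota M p q (b.g 0) y (b.g_zero y) v
  g'_zero y v := trp_iota M p q (b.g' 0) y (b.g'_zero y) v
  g_one y v := trp_P M p q (b.g 1) b.W y (b.g_one y) v
  g'_one y v := P_trp M p q b.W (b.g' 1) y (b.g'_one y) v
  kap_zero s hs y v := P_trp M p q (b.g s) (b.kap 0 s) y (b.kap_zero s hs y) v
  kap_one s hs y v := trp_P M p q (b.kap 1 s) (b.g' s) y (b.kap_one s hs y) v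
  kap_left u hu y v := by
    have h1 : trp M p q (fun _ s => (s, 0)) y v = (v, 0) :=
      trp_iota M p q (fun _ s => (s, 0)) y (fun _ => rfl) v
    have h2 := P_trp M p q (fun _ s => (s, 0)) (b.kap u 0) y (b.kap_left u hu y) v
    rw [h1] at h2
    exact h2
  kap_right u hu y v := by
    have h1 := P_trp M p q (fun y s => b.W y (PS p s)) (b.kap u 1) y (b.kap_right u hu y) v
    have h2 : trp M p q (fun y s => b.W y (PS p s)) y v = trp M p q b.W y (PP p v) :=
      trp_P M p q (fun y s => b.W y (PS p s)) b.W y (fun _ => rfl) v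
    rw [h2] at h1
    exact h1

end Pool.Agent.H.MP_5f9601_gt.U
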