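import Pool.Agent.H.MP_5f9601_gt.U.RDef

/-!
# S13261, helper47's proof, section 3: interface between B1 (helper19) and B2 (helper67)

`S M = (Fin M → ℂ) × ℂ` is the passive part `U + A1` (weights `0` and `q`),
`PreBlock p M q` has the fields of `Block p q V` with `V` replaced by `S M`.
-/

set_option autoImplicit false

open Set Filter Topology Metric

namespace Pool.Agent.H.MP_5f9601_gt.U

/-- the passive part `U + A1` -/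
abbrev S (M : ℕ) := (Fin M → ℂ) × ℂ

/-- the action of the circle on `U + A1 + L^w`, `A1 = L^q` -/
def actS (M q w : ℕ) (t : ℂ) (v : S M × ℂ) : S M × ℂ := ((v.1.1, t ^ q * v.1.2), t ^ w * v.2)

/-- `P2 = 1 + psi_p` on the last coordinate -/
noncomputable def PS {M : ℕ} (p : ℕ) (v : S M × ℂ) : S M × ℂ := (v.1, psi p v.2)

/-- The block on `U + A1 + A2`: the fields of `Block` with `V` replaced by `S M`. -/
structure PreBlock (p M q : ℕ) where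
  W : Y p → S M × ℂ → (S M × ℂ) × ℂ
  g : ℝ → Y p → S M × ℂ → (S M × ℂ) × ℂ
  g' : ℝ → Y p → S M × ℂ → (S M × ℂ) × ℂ
  kap : ℝ → ℝ → Y p → S M × ℂ → (S M × ℂ) × ℂ
  W_cont : Continuous fun x : Y p × (S M × ℂ) => W x.1 x.2
  g_cont : Continuous fun x : ℝ × Y p × (S M × ℂ) => g x.1 x.2.1 x.2.2
  g'_cont : Continuous fun x : ℝ × Y p × (S M × ℂ) => g' x.1 x.2.1 x.2.2
  kap_cont : Continuous fun x : ℝ × ℝ × Y p × (S M × ℂ) => kap x.1 x.2.1 x.2.2.1 x.2.2.2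
  W_ne : ∀ y v, v ≠ 0 → W y v ≠ 0
  g_ne : ∀ s ∈ Icc (0 : ℝ) 1, ∀ y v, v ≠ 0 → g s y v ≠ 0
  g'_ne : ∀ s ∈ Icc (0 : ℝ) 1, ∀ y v, v ≠ 0 → g' s y v ≠ 0
  kap_ne : ∀ u ∈ Icc (0 : ℝ) 1, ∀ s ∈ Icc (0 : ℝ) 1, ∀ y v, v ≠ 0 → kap u s y v ≠ 0
  W_eqv : ∀ t : ℂ, ‖t‖ = 1 → ∀ y y' : Y p,
    (y' : EuclideanSpace ℂ (Fin p)) = t • (y : EuclideanSpace ℂ (Fin p)) → ∀ v,
      W y' (actS M q (p * q) t v) = (actS M q q t (W y v).1, t ^ p * (W y v).2)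
  g_eqv : ∀ t : ℂ, ‖t‖ = 1 → ∀ y y' : Y p,
    (y' : EuclideanSpace ℂ (Fin p)) = t • (y : EuclideanSpace ℂ (Fin p)) →
      ∀ s ∈ Icc (0 : ℝ) 1, ∀ v,
        g s y' (actS M q q t v) = (actS M q q t (g s y v).1, t ^ p * (g s y v).2)
  g'_eqv : ∀ t : ℂ, ‖t‖ = 1 → ∀ y y' : Y p,
    (y' : EuclideanSpace ℂ (Fin p)) = t • (y : EuclideanSpace ℂ (Fin p)) →
      ∀ s ∈ Icc (0 : ℝ) 1, ∀ v,
        g' s y' (actS M q (p * q) t v) = (actS M q (p * q) t (g' s y v).1, t ^ p * (g' s y v).2)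
  kap_eqv : ∀ t : ℂ, ‖t‖ = 1 → ∀ y y' : Y p,
    (y' : EuclideanSpace ℂ (Fin p)) = t • (y : EuclideanSpace ℂ (Fin p)) →
      ∀ u ∈ Icc (0 : ℝ) 1, ∀ s ∈ Icc (0 : ℝ) 1, ∀ v,
        kap u s y' (actS M q q t v) = (actS M q (p * q) t (kap u s y v).1, t ^ p * (kap u s y v).2)
  g_zero : ∀ y v, g 0 y v = (v, 0)
  g'_zero : ∀ y v, g' 0 y v = (v, 0)
  g_one : ∀ y v, g 1 y v = W y (PS p v)
  g'_one : ∀ y v, g' 1 y v = (PS p (W y v).1, (W y v).2)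
  kap_zero : ∀ s ∈ Icc (0 : ℝ) 1, ∀ y v, kap 0 s y v = (PS p (g s y v).1, (g s y v).2)
  kap_one : ∀ s ∈ Icc (0 : ℝ) 1, ∀ y v, kap 1 s y v = g' s y (PS p v)
  kap_left : ∀ u ∈ Icc (0 : ℝ) 1, ∀ y v, kap u 0 y v = (PS p v, 0)
  kap_right : ∀ u ∈ Icc (0 : ℝ) 1, ∀ y v, kap u 1 y v = (PS p (W y (PS p v)).1, (W y (PS p v)).2)

end Pool.Agent.H.MP_5f9601_gt.U
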