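import Mathlib

/-!
Geometry for the post-composition degree lemma (helper50): `ψ` on coordinate `b` of `ι → ℂ` is homotopic
to `ψ` on coordinate `c` through maps which vanish only at `0`
(conjugation with the path of unitary matrices from `1` to the swap of the two coordinates).
`ψ : ℂ → ℂ` is arbitrary, continuous, with `ψ z = 0 ↔ z = 0`.
-/

set_option autoImplicit false

namespace Pool.Agent.H.MP_5f9601_gt.DPost

variable {ι : Type*} [DecidableEq ι]

/-- `ψ` on coordinate `b` -/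
def psiAt (ψ : ℂ → ℂ) (b : ι) (v : ι → ℂ) : ι → ℂ := Function.update v b (ψ (v b))

/-- the unitary matrix with eigenvalue `e` on `1_b - 1_c` and `1` on the orthogonal complement -/
noncomputable def rotL (b c : ι) (e : ℂ) (v : ι → ℂ) : ι → ℂ :=
  v + ((e - 1) / 2 * (v b - v c)) • ((Pi.single b 1 : ι → ℂ) - Pi.single c 1)

lemma rotL_diff {b c : ι} (h : b ≠ c) (e : ℂ) (v : ι → ℂ) :
    rotL b c e v b - rotL b c e v c = e * (v b - v c) := by
  simp only [rotL, Pi.add_apply, Pi.smul_apply, Pi.sub_apply, Pi.single_eq_same,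
    Pi.single_eq_of_ne h, Pi.single_eq_of_ne h.symm, smul_eq_mul]
  ring

lemma rotL_rotL {b c : ι} (h : b ≠ c) (e e' : ℂ) (v : ι → ℂ) :
    rotL b c e' (rotL b c e v) = rotL b c (e' * e) v := by
  have hd := rotL_diff h e v
  unfold rotL at hd ⊢
  rw [hd, add_assoc, ← add_smul]
  congr 2
  ring

lemma rotL_one (b c : ι) (v : ι → ℂ) : rotL b c 1 v = v := by simp [rotL]

lemma rotL_zero (b c : ι) (e : ℂ) : rotL b c e 0 = 0 := by simp [rotL]

lemma rotL_ne_zero {b c : ι} (h : b ≠ c) {e : ℂ} (he : e ≠ 0) {v : ι → ℂ} (hv : v ≠ 0) :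
    rotL b c e v ≠ 0 := by
  intro h0
  apply hv
  have := rotL_rotL h e e⁻¹ v
  rw [h0, rotL_zero, inv_mul_cancel₀ he, rotL_one] at this
  exact this.symm

lemma rotL_neg_one_left {b c : ι} (h : b ≠ c) (v : ι → ℂ) : rotL b c (-1) v b = v c := by
  simp only [rotL, Pi.add_apply, Pi.smul_apply, Pi.sub_apply, Pi.single_eq_same,
    Pi.single_eq_of_ne h, smul_eq_mul]
  ring

lemma rotL_neg_one_right {b c : ι} (h : b ≠ c) (v : ι → ℂ) : rotL b c (-1) v c = v b := by
  simp only [rotL, Pi.add_apply, Pi.smul_apply, Pi.sub_apply, Pi.single_eq_same,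
    Pi.single_eq_of_ne h.symm, smul_eq_mul]
  ring

lemma rotL_other {b c i : ι} (hb : i ≠ b) (hc : i ≠ c) (e : ℂ) (v : ι → ℂ) :
    rotL b c e v i = v i := by
  simp [rotL, hb, hc]

lemma psiAt_ne_zero {ψ : ℂ → ℂ} (hψ : ∀ z, ψ z = 0 → z = 0) (b : ι) {v : ι → ℂ} (hv : v ≠ 0) :
    psiAt ψ b v ≠ 0 := by
  intro h0
  apply hv
  funext i
  by_cases hi : i = b
  · subst hi
    have := congrFun h0 i
    simp only [psiAt, Function.update_self, Pi.zero_apply] at this
    exact hψ _ this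
  · have := congrFun h0 i
    simpa [psiAt, hi] using this

lemma psiAt_zero {ψ : ℂ → ℂ} (hψ0 : ψ 0 = 0) (b : ι) : psiAt ψ b 0 = 0 := by
  unfold psiAt
  rw [Pi.zero_apply, hψ0]
  exact Function.update_eq_self b (0 : ι → ℂ)

lemma continuous_psiAt {ψ : ℂ → ℂ} (hc : Continuous ψ) (b : ι) : Continuous (psiAt ψ b) :=
  continuous_id.update b (hc.comp (continuous_apply b))

lemma continuous_rotL (b c : ι) : Continuous fun q : ℂ × (ι → ℂ) => rotL b c q.1 q.2 := by
  unfold rotL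
  fun_prop

/-- conjugation with the swap turns `ψ` on coordinate `c` into `ψ` on coordinate `b` -/
lemma swap_psiAt {b c : ι} (h : b ≠ c) (ψ : ℂ → ℂ) (v : ι → ℂ) :
    rotL b c (-1) (psiAt ψ c (rotL b c (-1) v)) = psiAt ψ b v := by
  funext i
  by_cases hb : i = b
  · subst hb
    rw [rotL_neg_one_left h]
    simp only [psiAt, Function.update_self]
    rw [rotL_neg_one_right h]
  · by_cases hc : i = c
    · subst hc
      rw [rotL_neg_one_right h]
      simp only [psiAt]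
      rw [Function.update_of_ne h, Function.update_of_ne hb, rotL_neg_one_left h]
    · rw [rotL_other hb hc]
      simp only [psiAt]
      rw [Function.update_of_ne hc, Function.update_of_ne hb, rotL_other hb hc]

/-- `exp (i π t)` -/
noncomputable def et (t : ℝ) : ℂ := Complex.exp ((Real.pi * t : ℝ) * Complex.I)

lemma et_zero : et 0 = 1 := by simp [et]

lemma et_one : et 1 = -1 := by simp [et]

lemma et_ne_zero (t : ℝ) : et t ≠ 0 := Complex.exp_ne_zero _

lemma continuous_et : Continuous et := by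
  unfold et
  fun_prop

/-- the homotopy from `ψ` on coordinate `c` to `ψ` on coordinate `b` -/
noncomputable def Rho (ψ : ℂ → ℂ) (b c : ι) (t : ℝ) (v : ι → ℂ) : ι → ℂ :=
  rotL b c (et t)⁻¹ (psiAt ψ c (rotL b c (et t) v))

lemma Rho_zero (ψ : ℂ → ℂ) (b c : ι) (v : ι → ℂ) : Rho ψ b c 0 v = psiAt ψ c v := by
  unfold Rho
  rw [et_zero, inv_one, rotL_one, rotL_one]

lemma Rho_one {b c : ι} (h : b ≠ c) (ψ : ℂ → ℂ) (v : ι → ℂ) : Rho ψ b c 1 v = psiAt ψ b v := by
  unfold Rho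
  rw [et_one]
  have : ((-1 : ℂ))⁻¹ = -1 := by norm_num
  rw [this]
  exact swap_psiAt h ψ v

lemma Rho_apply_zero {ψ : ℂ → ℂ} (hψ0 : ψ 0 = 0) (b c : ι) (t : ℝ) : Rho ψ b c t 0 = 0 := by
  unfold Rho
  rw [rotL_zero, psiAt_zero hψ0, rotL_zero]

lemma Rho_ne_zero {ψ : ℂ → ℂ} (hψ : ∀ z, ψ z = 0 → z = 0) {b c : ι} (h : b ≠ c) (t : ℝ)
    {v : ι → ℂ} (hv : v ≠ 0) : Rho ψ b c t v ≠ 0 :=
  rotL_ne_zero h (inv_ne_zero (et_ne_zero t))
    (psiAt_ne_zero hψ c (rotL_ne_zero h (et_ne_zero t) hv))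

lemma continuous_Rho {ψ : ℂ → ℂ} (hc : Continuous ψ) (b c : ι) :
    Continuous fun q : ℝ × (ι → ℂ) => Rho ψ b c q.1 q.2 := by
  unfold Rho
  have h1 : Continuous fun q : ℝ × (ι → ℂ) => rotL b c (et q.1) q.2 :=
    (continuous_rotL b c).comp ((continuous_et.comp continuous_fst).prodMk continuous_snd)
  have h2 : Continuous fun q : ℝ × (ι → ℂ) => psiAt ψ c (rotL b c (et q.1) q.2) :=
    (continuous_psiAt hc c).comp h1
  have h3 : Continuous fun q : ℝ × (ι → ℂ) => (et q.1)⁻¹ :=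
    (continuous_et.comp continuous_fst).inv₀ fun q => et_ne_zero _
  exact (continuous_rotL b c).comp (h3.prodMk h2)

/-- `b = c` included: a homotopy from `ψ` on `c` to `ψ` on `b`. -/
theorem exists_Rho {ψ : ℂ → ℂ} (hc : Continuous ψ) (hψ : ∀ z, ψ z = 0 ↔ z = 0) (b c : ι) :
    ∃ H : ℝ → (ι → ℂ) → (ι → ℂ),
      (Continuous fun q : ℝ × (ι → ℂ) => H q.1 q.2) ∧
      (∀ v, H 0 v = psiAt ψ c v) ∧ (∀ v, H 1 v = psiAt ψ b v) ∧ (∀ t, H t 0 = 0) ∧
      ∀ t v, v ≠ 0 → H t v ≠ 0 := by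
  by_cases h : b = c
  · subst h
    refine ⟨fun _ => psiAt ψ b, (continuous_psiAt hc b).comp continuous_snd, fun v => rfl,
      fun v => rfl, fun t => psiAt_zero ((hψ 0).2 rfl) b, fun t v hv => psiAt_ne_zero (fun z => (hψ z).1) b hv⟩
  · exact ⟨Rho ψ b c, continuous_Rho hc b c, Rho_zero ψ b c, Rho_one h ψ,
      Rho_apply_zero ((hψ 0).2 rfl) b c, fun t v hv => Rho_ne_zero (fun z => (hψ z).1) h t hv⟩

end Pool.Agent.H.MP_5f9601_gt.DPost
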