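import Pool.Agent.H.MP_5f9601_gt.U.FDef

/-!
MP_5f9601, section 4: the operations (based continuous maps between the spaces of maps).

`res` restriction, `pre` power map on the ball coordinates of the source, `Psi` power maps on all source coordinates, `rr` power
maps on the values, `sus` complex suspension (new coordinate at the front), `oo` the radius becomes the last parameter,
`jj` maps supported on the cell.  The versions on the cells `CC` have the suffix `C`; `preX` = power map on the coordinates of the cell.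
-/

set_option autoImplicit false

open Set Topology ComplexConjugate

namespace MP5f.S4

theorem continuous_of_closed_cover {P Q : Type*} [TopologicalSpace P] [TopologicalSpace Q]
    {A B : Set P} (hA : IsClosed A) (hB : IsClosed B) (h : ∀ x, x ∈ A ∨ x ∈ B) {f : P → Q}
    (hfA : ContinuousOn f A) (hfB : ContinuousOn f B) : Continuous f := by
  have h2 : A ∪ B = univ := eq_univ_of_forall h
  rw [← continuousOn_univ, ← h2]
  exact hfA.union_of_isClosed hfB hA hB

theorem ebase_fst (be c : ℕ) : (ebase be c).1 = 0 := rfl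
theorem ebase_snd (be c : ℕ) : (ebase be c).2 = 1 := rfl

/-! ### points -/

theorem X_mono {N i j : ℕ} (h : i ≤ j) {x : Fin N → ℂ} (hx : x ∈ X N i) : x ∈ X N j :=
  ⟨hx.1, fun k hk => hx.2 k (h.trans hk)⟩

/-- inclusion -/
def inclX {N i j : ℕ} (h : i ≤ j) (x : X N i) : X N j := ⟨x, X_mono h x.2⟩

theorem continuous_inclX {N i j : ℕ} (h : i ≤ j) : Continuous (inclX (N := N) h) :=
  continuous_subtype_val.subtype_mk _

/-- power maps on the spheres -/
noncomputable def psX {N i : ℕ} (l : ℕ) (x : X N i) : X N i :=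
  ⟨psv l x, by rw [norm_psv]; exact x.2.1, fun k hk => by simp [psv, x.2.2 k hk, psi_zero]⟩

/-- power maps on the balls -/
noncomputable def psD {N i : ℕ} (l : ℕ) (x : D N i) : D N i :=
  ⟨psv l x, by rw [norm_psv]; exact x.2.1, fun k hk => by simp [psv, x.2.2 k hk, psi_zero]⟩

theorem norm_psD {N i : ℕ} (l : ℕ) (x : D N i) : ‖(psD l x : Fin N → ℂ)‖ = ‖(x : Fin N → ℂ)‖ :=
  norm_psv l _

/-- power maps on the first coordinates of the ball of the source -/
noncomputable def psB {al c : ℕ} (l : ℕ) (v : Ball al c) : Ball al c :=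
  ⟨(psv l (v : W al c).1, (v : W al c).2), by
    have := v.2
    rw [mem_closedBall_zero_iff] at this ⊢
    rwa [Prod.norm_def, norm_psv, ← Prod.norm_def]⟩

theorem norm_psB {al c : ℕ} (l : ℕ) (v : Ball al c) : ‖(psB l v : W al c)‖ = ‖(v : W al c)‖ := by
  rw [psB, Prod.norm_def, norm_psv, ← Prod.norm_def]

theorem continuous_psX {N i : ℕ} (l : ℕ) : Continuous (psX l : X N i → X N i) :=
  ((continuous_psv l).comp continuous_subtype_val).subtype_mk _

theorem continuous_psD {N i : ℕ} (l : ℕ) : Continuous (psD l : D N i → D N i) :=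
  ((continuous_psv l).comp continuous_subtype_val).subtype_mk _

theorem continuous_psB {al c : ℕ} (l : ℕ) : Continuous (psB l : Ball al c → Ball al c) := by
  refine Continuous.subtype_mk (Continuous.prodMk ?_ (by fun_prop)) _
  exact (continuous_psv l).comp (by fun_prop)

theorem norm_tail_le {c : ℕ} (s : Fin (c + 1) → ℂ) : ‖Fin.tail s‖ ≤ ‖s‖ := by
  rw [pi_norm_le_iff_of_nonneg (norm_nonneg _)]
  exact fun i => norm_le_pi_norm s i.succ

theorem norm_eq_max_tail {c : ℕ} (s : Fin (c + 1) → ℂ) : ‖s‖ = max ‖s 0‖ ‖Fin.tail s‖ := by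
  refine le_antisymm ?_ (max_le (norm_le_pi_norm s 0) (norm_tail_le s))
  rw [pi_norm_le_iff_of_nonneg (le_max_of_le_left (norm_nonneg _))]
  intro i
  refine Fin.cases ?_ (fun j => ?_) i
  · exact le_max_left _ _
  · exact (norm_le_pi_norm (Fin.tail s) j).trans (le_max_right _ _)

/-- drop the first suspension coordinate -/
def tailB {al c : ℕ} (v : Ball al (c + 1)) : Ball al c :=
  ⟨((v : W al (c + 1)).1, Fin.tail (v : W al (c + 1)).2), by
    have := v.2
    rw [mem_closedBall_zero_iff, Prod.norm_def] at this ⊢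
    exact (max_le_max le_rfl (norm_tail_le _)).trans this⟩

/-- the first suspension coordinate -/
def headB {al c : ℕ} (v : Ball al (c + 1)) : ℂ := (v : W al (c + 1)).2 0

theorem continuous_tailB {al c : ℕ} : Continuous (tailB : Ball al (c + 1) → Ball al c) := by
  refine Continuous.subtype_mk (Continuous.prodMk (by fun_prop) ?_) _
  exact continuous_pi fun j => by simp only [Fin.tail]; fun_prop

theorem continuous_headB {al c : ℕ} : Continuous (headB : Ball al (c + 1) → ℂ) := by
  unfold headB
  fun_prop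

theorem norm_headB_le {al c : ℕ} (v : Ball al (c + 1)) : ‖headB v‖ ≤ 1 := by
  have := v.2
  rw [mem_closedBall_zero_iff] at this
  exact (norm_le_pi_norm (v : W al (c + 1)).2 0).trans ((norm_snd_le _).trans this)

theorem norm_one_cases {al c : ℕ} {v : Ball al (c + 1)} (h : ‖(v : W al (c + 1))‖ = 1) :
    ‖headB v‖ = 1 ∨ ‖(tailB v : W al c)‖ = 1 := by
  rw [Prod.norm_def, norm_eq_max_tail] at h
  simp only [tailB, headB, Prod.norm_def]
  rcases le_total ‖(v : W al (c + 1)).2 0‖ ‖Fin.tail (v : W al (c + 1)).2‖ with h1 | h1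
  · right; rwa [max_eq_right h1] at h
  · rw [max_eq_left h1] at h
    rcases le_total ‖(v : W al (c + 1)).1‖ ‖(v : W al (c + 1)).2 0‖ with h2 | h2
    · left; rwa [max_eq_right h2] at h
    · right
      rw [max_eq_left h2] at h
      rw [h]
      exact max_eq_left ((h1.trans h2).trans h.le)

/-- rotation of the ball of the source by a number of absolute value `≤ 1` -/
def rotB {al c : ℕ} (a : Fin al → ℕ) (t : ℂ) (ht : ‖t‖ ≤ 1) (v : Ball al c) : Ball al c :=
  ⟨(rot a t (v : W al c).1, (v : W al c).2), by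
    have h := v.2
    rw [mem_closedBall_zero_iff, Prod.norm_def] at h ⊢
    refine (max_le_max ?_ le_rfl).trans h
    rw [pi_norm_le_iff_of_nonneg (norm_nonneg _)]
    intro i
    show ‖t ^ a i * (v : W al c).1 i‖ ≤ _
    rw [norm_mul, norm_pow]
    calc ‖t‖ ^ a i * ‖(v : W al c).1 i‖ ≤ 1 * ‖(v : W al c).1 i‖ :=
          mul_le_mul_of_nonneg_right (pow_le_one₀ (norm_nonneg _) ht) (norm_nonneg _)
      _ = ‖(v : W al c).1 i‖ := one_mul _
      _ ≤ _ := norm_le_pi_norm _ i⟩

/-! ### suspension of values -/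

/-- suspension of values -/
noncomputable def susV {be c : ℕ} (s : ℂ) (u : V be c) : V be (c + 1) :=
  ((((1 - ‖s‖ : ℝ) : ℂ) • u.1.1,
    (Fin.cons (((1 - ‖s‖) * ‖u - ebase be c‖ : ℝ) * s) (((1 - ‖s‖ : ℝ) : ℂ) • u.1.2.1) : Fin (c + 1) → ℂ),
    (1 - ‖s‖) • u.1.2.2),
    (1 - ‖s‖) * u.2 + ‖s‖)

theorem susV_ebase {be c : ℕ} (s : ℂ) : susV s (ebase be c) = ebase be (c + 1) := by
  refine Prod.ext (Prod.ext ?_ (Prod.ext ?_ ?_)) ?_
  · simp [susV, ebase]
  · funext j
    refine Fin.cases ?_ (fun k => ?_) j <;> simp [susV, ebase]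
  · simp [susV, ebase]
  · simp [susV, ebase]

theorem susV_unit {be c : ℕ} {s : ℂ} (hs : ‖s‖ = 1) (u : V be c) : susV s u = ebase be (c + 1) := by
  refine Prod.ext (Prod.ext ?_ (Prod.ext ?_ ?_)) ?_
  · simp [susV, ebase, hs]
  · funext j
    refine Fin.cases ?_ (fun k => ?_) j <;> simp [susV, ebase, hs]
  · simp [susV, ebase, hs]
  · simp [susV, ebase, hs]

theorem susV_ne {be c : ℕ} {s : ℂ} (hs : ‖s‖ ≤ 1) {u : V be c} (hu : u ≠ 0) : susV s u ≠ 0 := by
  intro h
  rcases hs.eq_or_lt with h1 | h1
  · rw [susV_unit h1] at h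
    exact one_ne_zero (congrArg Prod.snd h)
  have hpos : 0 < 1 - ‖s‖ := by linarith
  have hposC : ((1 - ‖s‖ : ℝ) : ℂ) ≠ 0 := by exact_mod_cast hpos.ne'
  have h2 : ((1 - ‖s‖ : ℝ) : ℂ) • u.1.1 = 0 := congrArg (fun w : V be (c + 1) => w.1.1) h
  have h3 := congrArg (fun w : V be (c + 1) => w.1.2.1) h
  have h4 : (1 - ‖s‖) * u.2 + ‖s‖ = 0 := congrArg (fun w : V be (c + 1) => w.2) h
  have h5 : (((1 - ‖s‖) * ‖u - ebase be c‖ : ℝ) : ℂ) * s = 0 := by simpa [susV] using congrFun h3 0
  have h6 : u.1.2.1 = 0 := by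
    funext k
    have h7 : ((1 - ‖s‖ : ℝ) : ℂ) * u.1.2.1 k = 0 := by simpa [susV] using congrFun h3 k.succ
    exact (mul_eq_zero.1 h7).resolve_left hposC
  have h7 : u.1.1 = 0 := (smul_eq_zero.1 h2).resolve_left hposC
  have h7' : u.1.2.2 = 0 := by
    have : (1 - ‖s‖) • u.1.2.2 = 0 := congrArg (fun w : V be (c + 1) => w.1.2.2) h
    exact (smul_eq_zero.1 this).resolve_left hpos.ne'
  have h8 : u.2 ≤ 0 := by
    by_contra hc
    push Not at hc
    have : 0 < (1 - ‖s‖) * u.2 := mul_pos hpos hc
    have := norm_nonneg s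
    linarith
  have h9 : u - ebase be c ≠ 0 := by
    intro hc
    have := congrArg Prod.snd (sub_eq_zero.1 hc)
    rw [ebase_snd] at this
    linarith
  have h10 : s = 0 := by
    rcases mul_eq_zero.1 h5 with h | h
    · exfalso
      have h' : (1 - ‖s‖) * ‖u - ebase be c‖ = 0 := by exact_mod_cast h
      exact h9 (norm_eq_zero.1 ((mul_eq_zero.1 h').resolve_left hpos.ne'))
    · exact h
  rw [h10] at h4
  simp at h4
  exact hu (Prod.ext (Prod.ext h7 (Prod.ext h6 h7')) h4)

theorem continuous_susV {be c : ℕ} : Continuous (fun q : ℂ × V be c => susV q.1 q.2) := by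
  have h1 : Continuous fun q : ℂ × V be c => ((1 - ‖q.1‖ : ℝ) : ℂ) :=
    Complex.continuous_ofReal.comp (by fun_prop)
  have h2 : Continuous fun q : ℂ × V be c => (((1 - ‖q.1‖) * ‖q.2 - ebase be c‖ : ℝ) : ℂ) :=
    Complex.continuous_ofReal.comp (by fun_prop)
  refine Continuous.prodMk (Continuous.prodMk ?_ (Continuous.prodMk ?_ (by fun_prop))) (by fun_prop)
  · exact h1.smul (by fun_prop)
  · refine continuous_pi fun j => ?_
    refine Fin.cases ?_ (fun k => ?_) j
    · simp only [Fin.cons_zero]; exact h2.mul (by fun_prop)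
    · simp only [Fin.cons_succ, Pi.smul_apply, smul_eq_mul]; exact h1.mul (by fun_prop)

theorem susV_rotV {be c : ℕ} (b : Fin be → ℕ) {t : ℂ} (ht : ‖t‖ = 1) (s : ℂ) (u : V be c) :
    susV s (rotV b t u) = rotV b t (susV s u) := by
  have h : ‖rotV b t u - ebase be c‖ = ‖u - ebase be c‖ := by
    have : rotV b t u - ebase be c = rotV b t (u - ebase be c) := by
      refine Prod.ext (Prod.ext (funext fun j => ?_) rfl) rfl
      simp [rotV, ebase, rot]
    rw [this, norm_rotV b ht]
  simp only [susV, h]
  refine Prod.ext (Prod.ext (funext fun j => ?_) rfl) rfl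
  simp only [rotV, rot, Pi.smul_apply, smul_eq_mul]
  ring

theorem susV_psV {be c : ℕ} (l : ℕ) {s : ℂ} (hs : ‖s‖ ≤ 1) (u : V be c) :
    susV s (psV l u) = psV l (susV s u) := by
  have h : ‖psV l u - ebase be c‖ = ‖u - ebase be c‖ := by
    simp only [Prod.norm_def, psV, ebase, Prod.fst_sub, Prod.snd_sub, sub_zero, norm_psv]
  simp only [susV, h]
  refine Prod.ext (Prod.ext ?_ rfl) rfl
  exact (psv_rsmul l (by linarith) u.1.1).symm

/-! ### compactness -/

theorem isClosed_X (N i : ℕ) : IsClosed (X N i) := by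
  have h : X N i = {x | ‖x‖ = 1} ∩ ⋂ j : Fin N, {x | i ≤ (j : ℕ) → x j = 0} := by
    ext x; simp [X]
  rw [h]
  refine (isClosed_eq (by fun_prop) (by fun_prop)).inter (isClosed_iInter fun j => ?_)
  by_cases hj : i ≤ (j : ℕ)
  · simpa [hj] using isClosed_eq (continuous_apply j) (continuous_const (y := (0 : ℂ)))
  · simp [hj]

theorem isClosed_D (N i : ℕ) : IsClosed (D N i) := by
  have h : D N i = {x | ‖x‖ ≤ 1} ∩ ⋂ j : Fin N, {x | i ≤ (j : ℕ) → x j = 0} := by
    ext x; simp [D]
  rw [h]
  refine (isClosed_le (by fun_prop) (by fun_prop)).inter (isClosed_iInter fun j => ?_)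
  by_cases hj : i ≤ (j : ℕ)
  · simpa [hj] using isClosed_eq (continuous_apply j) (continuous_const (y := (0 : ℂ)))
  · simp [hj]

instance (N i : ℕ) : CompactSpace (X N i) := by
  rw [← isCompact_iff_compactSpace]
  refine (isCompact_closedBall (0 : Fin N → ℂ) 1).of_isClosed_subset (isClosed_X N i) ?_
  intro x hx
  rw [mem_closedBall_zero_iff]
  exact hx.1.le

instance (N i : ℕ) : CompactSpace (D N i) := by
  rw [← isCompact_iff_compactSpace]
  refine (isCompact_closedBall (0 : Fin N → ℂ) 1).of_isClosed_subset (isClosed_D N i) ?_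
  intro x hx
  rw [mem_closedBall_zero_iff]
  exact hx.1

instance (al c : ℕ) : CompactSpace (Ball al c) := by
  rw [← isCompact_iff_compactSpace]
  exact isCompact_closedBall (0 : W al c) 1

/-! ### the operations -/

section ops

variable {N i j al be c : ℕ} {a a' : Fin al → ℕ} {b b' : Fin be → ℕ} {K : Type}
  [TopologicalSpace K] [Par K] [CompactSpace K] [T2Space K]

theorem contY {T : Type*} [TopologicalSpace T] {F : T → (YC N i a b c K).FS}
    {g : T → X N i × Ball al c × K} (hF : Continuous F) (hg : Continuous g) :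
    Continuous fun t => F t (g t) :=
  (Ctx.continuous_eval (YC N i a b c K)).comp (hF.prodMk hg)

theorem contC {T : Type*} [TopologicalSpace T] {F : T → (CC N i al be c K).FS}
    {g : T → D N i × Ball al c × K} (hF : Continuous F) (hg : Continuous g) :
    Continuous fun t => F t (g t) :=
  (Ctx.continuous_eval (CC N i al be c K)).comp (hF.prodMk hg)

omit [CompactSpace K] [T2Space K] in
theorem YC_eqv (f : (YC N i a b c K).FS) {t : ℂ} (ht : ‖t‖ = 1) {x x' : X N i} {v v' : Ball al c}
    (k : K) (hx : (x' : Fin N → ℂ) = t • (x : Fin N → ℂ))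
    (hv : (v' : W al c) = (rot a t (v : W al c).1, (v : W al c).2)) :
    f (x', v', k) = rotV b t (f (x, v, k)) := f.eqv t ht (x, v, k) (x', v', k) hx hv rfl

/-- restriction to fewer coordinates -/
noncomputable def res (a : Fin al → ℕ) (b : Fin be → ℕ) (c : ℕ) (K : Type) [TopologicalSpace K]
    [Par K] [CompactSpace K] [T2Space K] (h : i ≤ j) :
    BMap (YC N j a b c K) (YC N i a b c K) :=
  BMap.ofFormula (fun f p => f (inclX h p.1, p.2))
    (contY continuous_fst (Continuous.prodMk
      ((continuous_inclX h).comp (by fun_prop)) (by fun_prop)))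
    (fun f p => f.ne _)
    (fun f p hp => f.base (p := (inclX h p.1, p.2)) hp)
    (fun f t ht p p' h1 h2 h3 => f.eqv t ht (inclX h p.1, p.2) (inclX h p'.1, p'.2) h1 h2 h3)
    (fun p => rfl)

/-- power map on the ball coordinates of the source -/
noncomputable def pre (k : ℕ) (b : Fin be → ℕ) (ha : ∀ j, a' j = k * a j) (c : ℕ) (K : Type)
    [TopologicalSpace K] [Par K] [CompactSpace K] [T2Space K] :
    BMap (YC N i a' b c K) (YC N i a b c K) :=
  BMap.ofFormula (fun f p => f (p.1, psB k p.2.1, p.2.2))
    (contY continuous_fst (Continuous.prodMk (by fun_prop) (Continuous.prodMk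
      ((continuous_psB k).comp (by fun_prop)) (by fun_prop))))
    (fun f p => f.ne _)
    (fun f p hp => f.base (p := (p.1, psB k p.2.1, p.2.2))
      (hp.imp (fun h => (norm_psB k p.2.1).trans h) id))
    (fun f t ht p p' h1 h2 h3 => f.eqv t ht (p.1, psB k p.2.1, p.2.2) (p'.1, psB k p'.2.1, p'.2.2) h1 (by
      simp only [psB, h2, psv_rot k a a' ha ht]) h3)
    (fun p => rfl)

/-- power maps on all coordinates of the source -/
noncomputable def Psi (l : ℕ) (a : Fin al → ℕ) (hb : ∀ j, b' j = l * b j) (c : ℕ) (K : Type)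
    [TopologicalSpace K] [Par K] [CompactSpace K] [T2Space K] :
    BMap (YC N i a b c K) (YC N i a b' c K) :=
  BMap.ofFormula (fun f p => f (psX l p.1, psB l p.2.1, p.2.2))
    (contY continuous_fst (Continuous.prodMk ((continuous_psX l).comp (by fun_prop))
      (Continuous.prodMk ((continuous_psB l).comp (by fun_prop)) (by fun_prop))))
    (fun f p => f.ne _)
    (fun f p hp => f.base (p := (psX l p.1, psB l p.2.1, p.2.2))
      (hp.imp (fun h => (norm_psB l p.2.1).trans h) id))
    (fun f t ht p p' h1 h2 h3 => by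
      have ht' : ‖t ^ l‖ = 1 := by rw [norm_pow, ht, one_pow]
      show f (psX l p'.1, psB l p'.2.1, p'.2.2) = rotV b' t (f (psX l p.1, psB l p.2.1, p.2.2))
      rw [f.eqv (t ^ l) ht' (psX l p.1, psB l p.2.1, p.2.2) (psX l p'.1, psB l p'.2.1, p'.2.2)
        (by simp only [psX, h1, psv_smul_unit l ht])
        (by simp only [psB, h2, psv_rot l a (fun j => l * a j) (fun _ => rfl) ht,
              rot_pow l a (fun j => l * a j) (fun _ => rfl)]) h3]
      exact rotV_pow l b b' hb t _)
    (fun p => rfl)

/-- power maps on the values -/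
noncomputable def rr (l : ℕ) (a : Fin al → ℕ) (hb : ∀ j, b' j = l * b j) (c : ℕ) (K : Type)
    [TopologicalSpace K] [Par K] [CompactSpace K] [T2Space K] :
    BMap (YC N i a b c K) (YC N i a b' c K) :=
  BMap.ofFormula (fun f p => psV l (f p))
    ((continuous_psV l).comp (contY continuous_fst continuous_snd))
    (fun f p h => f.ne p (by rw [← norm_eq_zero, ← norm_psV l, h, norm_zero]))
    (fun f p hp => by
      show psV l (f p) = _
      rw [f.base hp]; exact psV_ebase l)
    (fun f t ht p p' h1 h2 h3 => by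
      show psV l (f p') = rotV b' t (psV l (f p))
      rw [f.eqv t ht p p' h1 h2 h3]; exact psV_rotV l b b' hb ht _)
    (fun p => psV_ebase l)

/-- suspension -/
noncomputable def sus (a : Fin al → ℕ) (b : Fin be → ℕ) (c : ℕ) (K : Type)
    [TopologicalSpace K] [Par K] [CompactSpace K] [T2Space K] :
    BMap (YC N i a b c K) (YC N i a b (c + 1) K) :=
  BMap.ofFormula (fun f p => susV (headB p.2.1) (f (p.1, tailB p.2.1, p.2.2)))
    (continuous_susV.comp (Continuous.prodMk (continuous_headB.comp (by fun_prop))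
      (contY continuous_fst (Continuous.prodMk (by fun_prop) (Continuous.prodMk
        (continuous_tailB.comp (by fun_prop)) (by fun_prop))))))
    (fun f p => susV_ne (norm_headB_le p.2.1) (f.ne _))
    (fun f p hp => by
      rcases hp with h | h
      · rcases norm_one_cases h with h | h
        · exact susV_unit h _
        · rw [f.base (p := (p.1, tailB p.2.1, p.2.2)) (Or.inl h)]; exact susV_ebase _
      · rw [f.base (p := (p.1, tailB p.2.1, p.2.2)) (Or.inr h)]; exact susV_ebase _)
    (fun f t ht p p' h1 h2 h3 => by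
      show susV _ (f (p'.1, tailB p'.2.1, p'.2.2)) = rotV b t (susV _ (f (p.1, tailB p.2.1, p.2.2)))
      rw [f.eqv t ht (p.1, tailB p.2.1, p.2.2) (p'.1, tailB p'.2.1, p'.2.2) h1
        (by simp only [tailB, h2]) h3, susV_rotV b ht]
      simp only [headB, h2])
    (fun p => susV_ebase _)

/-! the same on the cells -/

/-- power map on the ball coordinates of the source -/
noncomputable def preC (k N i al be c : ℕ) (K : Type)
    [TopologicalSpace K] [Par K] [CompactSpace K] [T2Space K] :
    BMap (CC N i al be c K) (CC N i al be c K) :=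
  BMap.ofFormula (fun f p => f (p.1, psB k p.2.1, p.2.2))
    (contC continuous_fst (Continuous.prodMk (by fun_prop) (Continuous.prodMk
      ((continuous_psB k).comp (by fun_prop)) (by fun_prop))))
    (fun f p => f.ne _)
    (fun f p hp => f.base (p := (p.1, psB k p.2.1, p.2.2))
      (hp.imp id (Or.imp (fun h => (norm_psB k p.2.1).trans h) id)))
    (fun f => trivial)
    (fun p => rfl)

/-- power map on the coordinates of the cell -/
noncomputable def preX (k N i al be c : ℕ) (K : Type)
    [TopologicalSpace K] [Par K] [CompactSpace K] [T2Space K] :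
    BMap (CC N i al be c K) (CC N i al be c K) :=
  BMap.ofFormula (fun f p => f (psD k p.1, p.2))
    (contC continuous_fst (Continuous.prodMk ((continuous_psD k).comp (by fun_prop)) (by fun_prop)))
    (fun f p => f.ne _)
    (fun f p hp => f.base (p := (psD k p.1, p.2)) (hp.imp (fun h => (norm_psD k p.1).trans h) id))
    (fun f => trivial)
    (fun p => rfl)

/-- power maps on all coordinates of the source -/
noncomputable def PsiC (l N i al be c : ℕ) (K : Type)
    [TopologicalSpace K] [Par K] [CompactSpace K] [T2Space K] :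
    BMap (CC N i al be c K) (CC N i al be c K) :=
  (preX l N i al be c K).comp (preC l N i al be c K)

/-- power maps on the values -/
noncomputable def rrC (l N i al be c : ℕ) (K : Type)
    [TopologicalSpace K] [Par K] [CompactSpace K] [T2Space K] :
    BMap (CC N i al be c K) (CC N i al be c K) :=
  BMap.ofFormula (fun f p => psV l (f p))
    ((continuous_psV l).comp (contC continuous_fst continuous_snd))
    (fun f p h => f.ne p (by rw [← norm_eq_zero, ← norm_psV l, h, norm_zero]))
    (fun f p hp => by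
      show psV l (f p) = _
      rw [f.base hp]; exact psV_ebase l)
    (fun f => trivial)
    (fun p => psV_ebase l)

/-- suspension -/
noncomputable def susC (N i al be c : ℕ) (K : Type)
    [TopologicalSpace K] [Par K] [CompactSpace K] [T2Space K] :
    BMap (CC N i al be c K) (CC N i al be (c + 1) K) :=
  BMap.ofFormula (fun f p => susV (headB p.2.1) (f (p.1, tailB p.2.1, p.2.2)))
    (continuous_susV.comp (Continuous.prodMk (continuous_headB.comp (by fun_prop))
      (contC continuous_fst (Continuous.prodMk (by fun_prop) (Continuous.prodMk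
        (continuous_tailB.comp (by fun_prop)) (by fun_prop))))))
    (fun f p => susV_ne (norm_headB_le p.2.1) (f.ne _))
    (fun f p hp => by
      rcases hp with h | h | h
      · rw [f.base (p := (p.1, tailB p.2.1, p.2.2)) (Or.inl h)]; exact susV_ebase _
      · rcases norm_one_cases h with h | h
        · exact susV_unit h _
        · rw [f.base (p := (p.1, tailB p.2.1, p.2.2)) (Or.inr (Or.inl h))]; exact susV_ebase _
      · rw [f.base (p := (p.1, tailB p.2.1, p.2.2)) (Or.inr (Or.inr h))]; exact susV_ebase _)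
    (fun f => trivial)
    (fun p => susV_ebase _)

end ops

end MP5f.S4
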