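import Pool.Agent.H.MP_5f9601_gt.U.Deg
import Pool.Agent.H.MP_5f9601_gt.U.FOps
import Pool.Agent.H.MP_5f9601_gt.U.DPostGeo

/-!
Post-composition degree lemma (helper50): `r S κ = l ^ be • S κ`.
-/

set_option autoImplicit false

open Set Topology

namespace MP5f.S4

open Pool.Agent.H.MP_5f9601_gt.DPost

section geo

variable {be c : ℕ}

/-- all complex coordinates of a value -/
def toS (u : V be c) : Fin be ⊕ Fin c → ℂ := Sum.elim u.1.1 u.1.2.1

/-- replace the complex coordinates of a value -/
def ofS (u : V be c) (w : Fin be ⊕ Fin c → ℂ) : V be c :=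
  ((fun j => w (Sum.inl j), fun j => w (Sum.inr j), u.1.2.2), u.2)

/-- a map of the complex coordinates, applied to a value -/
def onS (T : (Fin be ⊕ Fin c → ℂ) → (Fin be ⊕ Fin c → ℂ)) (u : V be c) : V be c :=
  ofS u (T (toS u))

theorem toS_eq_zero {u : V be c} (h1 : toS u = 0) (h2 : u.1.2.2 = 0) (h3 : u.2 = 0) : u = 0 := by
  refine Prod.ext (Prod.ext ?_ (Prod.ext ?_ h2)) h3
  · funext j
    exact congrFun h1 (Sum.inl j)
  · funext j
    exact congrFun h1 (Sum.inr j)

theorem onS_ne_zero {T : (Fin be ⊕ Fin c → ℂ) → (Fin be ⊕ Fin c → ℂ)} (hT : ∀ w, w ≠ 0 → T w ≠ 0)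
    {u : V be c} (hu : u ≠ 0) : onS T u ≠ 0 := by
  intro h
  apply hu
  have h1 : T (toS u) = 0 := by
    funext s
    rcases s with j | j
    · exact congrFun (congrArg (fun v : V be c => v.1.1) h) j
    · exact congrFun (congrArg (fun v : V be c => v.1.2.1) h) j
  have h2 : toS u = 0 := by
    by_contra h0
    exact hT _ h0 h1
  exact toS_eq_zero h2 (congrArg (fun v : V be c => v.1.2.2) h) (congrArg (fun v : V be c => v.2) h)

theorem toS_ebase : toS (ebase be c) = 0 := by
  funext s
  rcases s with j | j <;> rfl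

theorem onS_ebase {T : (Fin be ⊕ Fin c → ℂ) → (Fin be ⊕ Fin c → ℂ)} (hT : T 0 = 0) :
    onS T (ebase be c) = ebase be c := by
  unfold onS
  rw [toS_ebase, hT]
  rfl

theorem continuous_toS : Continuous (toS : V be c → Fin be ⊕ Fin c → ℂ) := by
  refine continuous_pi fun s => ?_
  rcases s with j | j
  · show Continuous fun u : V be c => u.1.1 j
    fun_prop
  · show Continuous fun u : V be c => u.1.2.1 j
    fun_prop

theorem continuous_onS' {Z : Type} [TopologicalSpace Z]
    {T : Z → (Fin be ⊕ Fin c → ℂ) → (Fin be ⊕ Fin c → ℂ)}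
    (hT : Continuous fun q : Z × (Fin be ⊕ Fin c → ℂ) => T q.1 q.2) {a : Z → V be c}
    (ha : Continuous a) : Continuous fun z => onS (T z) (a z) := by
  have h1 : Continuous fun z => T z (toS (a z)) :=
    hT.comp (continuous_id.prodMk (continuous_toS.comp ha))
  refine Continuous.prodMk (Continuous.prodMk ?_ (Continuous.prodMk ?_ (by fun_prop))) (by fun_prop)
  · exact continuous_pi fun j => (continuous_apply _).comp h1
  · exact continuous_pi fun j => (continuous_apply _).comp h1

/-- `psi l` on one complex coordinate of a value -/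
noncomputable def psC (l : ℕ) (s : Fin be ⊕ Fin c) (u : V be c) : V be c := onS (psiAt (psi l) s) u

theorem psi_eq_zero_iff' (l : ℕ) (z : ℂ) : psi l z = 0 ↔ z = 0 := by
  rw [← norm_eq_zero, norm_psi, norm_eq_zero]

theorem psC_ne_zero (l : ℕ) (s : Fin be ⊕ Fin c) {u : V be c} (hu : u ≠ 0) : psC l s u ≠ 0 :=
  onS_ne_zero (fun _ hw => psiAt_ne_zero (fun z => (psi_eq_zero_iff' l z).1) s hw) hu

theorem psC_ebase (l : ℕ) (s : Fin be ⊕ Fin c) : psC l s (ebase be c) = ebase be c :=
  onS_ebase (psiAt_zero (psi_zero l) s)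

theorem continuous_psC (l : ℕ) (s : Fin be ⊕ Fin c) : Continuous (psC l s : V be c → V be c) := by
  have h : Continuous fun q : V be c × (Fin be ⊕ Fin c → ℂ) => psiAt (psi l) s q.2 :=
    (continuous_psiAt (continuous_psi l) s).comp continuous_snd
  exact continuous_onS' (T := fun _ => psiAt (psi l) s) h continuous_id

/-- `psi l` on the coordinates `j ∈ s` -/
noncomputable def psF (l : ℕ) (s : Finset (Fin be)) (u : V be c) : V be c :=
  ((fun j => if j ∈ s then psi l (u.1.1 j) else u.1.1 j, u.1.2), u.2)

theorem psF_empty (l : ℕ) (u : V be c) : psF l ∅ u = u := by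
  simp [psF]

theorem psF_univ (l : ℕ) (u : V be c) : psF l Finset.univ u = psV l u := by
  simp only [psF, Finset.mem_univ, if_true]
  rfl

theorem psF_insert (l : ℕ) {s : Finset (Fin be)} {j : Fin be} (hj : j ∉ s) (u : V be c) :
    psF l (insert j s) u = psC l (Sum.inl j) (psF l s u) := by
  refine Prod.ext (Prod.ext ?_ (Prod.ext ?_ rfl)) rfl
  · funext i
    show (if i ∈ insert j s then psi l (u.1.1 i) else u.1.1 i) =
      Function.update (toS (psF l s u)) (Sum.inl j) (psi l (toS (psF l s u) (Sum.inl j))) (Sum.inl i)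
    by_cases hi : i = j
    · subst hi
      rw [Function.update_self, if_pos (Finset.mem_insert_self _ _)]
      show _ = psi l (if i ∈ s then psi l (u.1.1 i) else u.1.1 i)
      rw [if_neg hj]
    · rw [Function.update_of_ne (by simpa using hi)]
      show _ = (if i ∈ s then psi l (u.1.1 i) else u.1.1 i)
      simp [Finset.mem_insert, hi]
  · funext i
    show _ = Function.update (toS (psF l s u)) (Sum.inl j) (psi l (toS (psF l s u) (Sum.inl j)))
      (Sum.inr i)
    rw [Function.update_of_ne (by simp)]
    rfl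

theorem psF_ne_zero (l : ℕ) (s : Finset (Fin be)) {u : V be c} (hu : u ≠ 0) : psF l s u ≠ 0 := by
  classical
  induction s using Finset.induction_on with
  | empty => rwa [psF_empty]
  | insert j s hj ih => rw [psF_insert l hj]; exact psC_ne_zero l _ ih

theorem psF_ebase (l : ℕ) (s : Finset (Fin be)) : psF l s (ebase be c) = ebase be c := by
  classical
  induction s using Finset.induction_on with
  | empty => rw [psF_empty]
  | insert j s hj ih => rw [psF_insert l hj, ih, psC_ebase]

theorem continuous_psF (l : ℕ) (s : Finset (Fin be)) : Continuous (psF l s : V be c → V be c) := by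
  classical
  induction s using Finset.induction_on with
  | empty => exact (continuous_id).congr fun u => (psF_empty l u).symm
  | insert j s hj ih =>
    exact ((continuous_psC l _).comp ih).congr fun u => (psF_insert l hj u).symm

end geo

section post

variable {P V P' V' V'' : Type} [TopologicalSpace P] [NormedAddCommGroup V]
  [TopologicalSpace P'] [NormedAddCommGroup V'] [NormedAddCommGroup V'']

/-- post-composition with a map of the values (no equivariance) -/
def BMap.post [LocallyCompactSpace P] (c : Ctx P V) (hE : ∀ f, c.E f) (T : V → V)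
    (hT : Continuous T) (h0 : ∀ u, u ≠ 0 → T u ≠ 0) (he : T c.e = c.e) : BMap c c :=
  BMap.ofFormula (fun f p => T (f p)) (hT.comp (c.continuous_eval)) (fun f p => h0 _ (f.ne p))
    (fun f p hp => by rw [f.base hp, he]) (fun f => hE _) (fun p => by rw [c.pt_apply, he])

theorem BMap.post_apply [LocallyCompactSpace P] (c : Ctx P V) (hE : ∀ f, c.E f) (T : V → V)
    (hT : Continuous T) (h0 : ∀ u, u ≠ 0 → T u ≠ 0) (he : T c.e = c.e) (f : c.FS) (p : P) :
    (BMap.post c hE T hT h0 he).toFun f p = T (f p) := rfl

/-- homotopic maps of the values induce the same map -/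
theorem BMap.post_congr [LocallyCompactSpace P] (c : Ctx P V) (hE : ∀ f, c.E f) (g0 g1 : BMap c c)
    (H : ℝ → V → V) (hH : Continuous fun q : ℝ × V => H q.1 q.2)
    (hne : ∀ t u, u ≠ 0 → H t u ≠ 0) (he : ∀ t, H t c.e = c.e)
    (h0 : ∀ f p, g0.toFun f p = H 0 (f p)) (h1 : ∀ f p, g1.toFun f p = H 1 (f p)) :
    g0.map = g1.map := by
  have hcont : Continuous fun q : (unitInterval × c.FS) × P => H q.1.1 (q.1.2 q.2) := by
    have h2 : Continuous fun q : (unitInterval × c.FS) × P => q.1.2 q.2 :=
      c.continuous_eval.comp (f := fun q : (unitInterval × c.FS) × P => (q.1.2, q.2)) (by fun_prop)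
    exact hH.comp (f := fun q : (unitInterval × c.FS) × P => ((q.1.1 : ℝ), q.1.2 q.2))
      ((continuous_subtype_val.comp (continuous_fst.comp continuous_fst)).prodMk h2)
  refine BMap.map_congr g0 g1
    ⟨fun q => ⟨⟨fun p => H q.1 (q.2 p), hcont.comp (Continuous.prodMk_right q)⟩,
      fun p => hne _ _ (q.2.ne p), fun p hp => by
        show H q.1 (q.2 p) = c.e
        rw [q.2.base hp, he], hE _⟩, ?_⟩ ?_ ?_ ?_
  · refine continuous_induced_rng.2 ?_
    exact ContinuousMap.continuous_of_continuous_uncurry
      (fun q : unitInterval × c.FS =>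
        (⟨fun p => H q.1 (q.2 p), hcont.comp (Continuous.prodMk_right q)⟩ : C(P, V))) hcont
  · intro f
    exact Ctx.FS.ext fun p => by
      rw [h0]
      rfl
  · intro f
    exact Ctx.FS.ext fun p => by
      rw [h1]
      rfl
  · intro t
    exact Ctx.FS.ext fun p => he t

end post

end MP5f.S4
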