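import Pool.Agent.H.MP_5f9601_gt.U.PiAdd

/-!
Degree lemma (helper50), part 1: homotopies from formulas, the polar coordinate, the context `cut`.
-/

set_option autoImplicit false
set_option linter.unusedSectionVars false
open Set Topology Filter

namespace MP5f.S4

section formula

variable {P V P' V' : Type} [TopologicalSpace P] [NormedAddCommGroup V]
  [TopologicalSpace P'] [NormedAddCommGroup V']

/-- two based maps joined by a homotopy given by a jointly continuous formula -/
theorem BMap.map_congr_formula {c : Ctx P V} {c' : Ctx P' V'} (g0 g1 : BMap c c')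
    (Θ : unitInterval → c.FS → P' → V')
    (hc : Continuous fun q : (unitInterval × c.FS) × P' => Θ q.1.1 q.1.2 q.2)
    (h0 : ∀ t f p, Θ t f p ≠ 0) (hb : ∀ t f p, c'.P0 p → Θ t f p = c'.e)
    (hE : ∀ t f, c'.E (Θ t f)) (hpt : ∀ t p, Θ t c.pt p = c'.e)
    (e0 : ∀ f p, g0.toFun f p = Θ 0 f p) (e1 : ∀ f p, g1.toFun f p = Θ 1 f p) :
    g0.map = g1.map := by
  refine BMap.map_congr g0 g1
    ⟨fun q => ⟨⟨Θ q.1 q.2, hc.comp (Continuous.prodMk_right q)⟩, h0 q.1 q.2, hb q.1 q.2,
      hE q.1 q.2⟩, ?_⟩ ?_ ?_ ?_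
  · refine continuous_induced_rng.2 ?_
    exact ContinuousMap.continuous_of_continuous_uncurry
      (fun q : unitInterval × c.FS => (⟨Θ q.1 q.2, hc.comp (Continuous.prodMk_right q)⟩ : C(P', V'))) hc
  · intro f
    exact Ctx.FS.ext fun p => (e0 f p).symm
  · intro f
    exact Ctx.FS.ext fun p => (e1 f p).symm
  · intro t
    exact Ctx.FS.ext fun p => hpt t p

end formula

/-! ### polar coordinates with the cut along the negative real axis -/

/-- the cut -/
def Ray (w : ℂ) : Prop := w.im = 0 ∧ w.re ≤ 0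

/-- the angle, in `(0, 1]` -/
noncomputable def th (w : ℂ) : ℝ := (Complex.arg w + Real.pi) / (2 * Real.pi)

/-- the point with radius `r` and angle `θ` -/
noncomputable def Ep (r θ : ℝ) : ℂ := -((r : ℂ) * Complex.exp (2 * Real.pi * θ * Complex.I))

theorem th_pos (w : ℂ) : 0 < th w :=
  div_pos (by linarith [Complex.neg_pi_lt_arg w]) (by positivity)

theorem th_le_one (w : ℂ) : th w ≤ 1 := by
  unfold th
  rw [div_le_one (by positivity)]
  linarith [Complex.arg_le_pi w]

theorem th_of_ray {w : ℂ} (h : Ray w) (hw : w ≠ 0) : th w = 1 := by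
  have h1 : Complex.arg w = Real.pi := by
    rw [Complex.arg_eq_pi_iff]
    refine ⟨lt_of_le_of_ne h.2 fun h2 => hw (Complex.ext h2 h.1), h.1⟩
  unfold th
  rw [h1]
  field_simp
  ring

theorem Ep_th (w : ℂ) : Ep ‖w‖ (th w) = w := by
  have h1 : (2 * Real.pi * (th w : ℝ) : ℂ) = Complex.arg w + Real.pi := by
    have : (2 * Real.pi * th w : ℝ) = Complex.arg w + Real.pi := by
      unfold th
      field_simp
    exact_mod_cast congrArg (fun x : ℝ => (x : ℂ)) this
  unfold Ep
  rw [h1, add_mul, Complex.exp_add, Complex.exp_pi_mul_I]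
  have := Complex.norm_mul_exp_arg_mul_I w
  rw [mul_neg_one, mul_neg, neg_neg]
  exact this

theorem norm_Ep (r θ : ℝ) : ‖Ep r θ‖ = |r| := by
  unfold Ep
  have h : (2 * Real.pi * θ * Complex.I : ℂ) = ((2 * Real.pi * θ : ℝ) : ℂ) * Complex.I := by
    push_cast; ring
  rw [norm_neg, norm_mul, h, Complex.norm_exp_ofReal_mul_I, mul_one, Complex.norm_real,
    Real.norm_eq_abs]

theorem Ep_add_one (r θ : ℝ) : Ep r (θ + 1) = Ep r θ := by
  unfold Ep
  have h : (2 * Real.pi * ((θ + 1 : ℝ) : ℂ) * Complex.I : ℂ) =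
      2 * Real.pi * θ * Complex.I + 2 * Real.pi * Complex.I := by
    push_cast; ring
  rw [h, Complex.exp_add, Complex.exp_two_pi_mul_I, mul_one]

theorem Ep_nat (r : ℝ) (n : ℕ) : Ep r n = -(r : ℂ) := by
  induction n with
  | zero => simp [Ep]
  | succ n ih =>
    have : ((n + 1 : ℕ) : ℝ) = (n : ℝ) + 1 := by push_cast; rfl
    rw [this, Ep_add_one, ih]

theorem ray_Ep_nat {r : ℝ} (hr : 0 ≤ r) (n : ℕ) : Ray (Ep r n) := by
  rw [Ep_nat]
  exact ⟨by simp, by simpa using hr⟩

theorem continuous_Ep : Continuous fun q : ℝ × ℝ => Ep q.1 q.2 := by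
  unfold Ep
  refine Continuous.neg (Continuous.mul (Complex.continuous_ofReal.comp continuous_fst) ?_)
  refine Complex.continuous_exp.comp ?_
  have h : Continuous fun q : ℝ × ℝ => ((q.2 : ℝ) : ℂ) :=
    Complex.continuous_ofReal.comp continuous_snd
  fun_prop

theorem continuousAt_th {w : ℂ} (h : ¬ Ray w) : ContinuousAt th w := by
  have h1 : w ∈ Complex.slitPlane := by
    rw [Complex.mem_slitPlane_iff]
    by_contra h2
    push Not at h2
    exact h ⟨h2.2, h2.1⟩
  unfold th
  exact ((Complex.continuousAt_arg h1).add continuousAt_const).div_const _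

/-- continuity of a function of the angle -/
theorem continuous_polar {A B : Type*} [TopologicalSpace A] [TopologicalSpace B]
    (g : A × ℝ → B) (hg : Continuous g) (z : A → ℂ) (hz : Continuous z)
    (h0 : ∀ a, z a = 0 → ∀ θ ∈ Icc (0 : ℝ) 1, g (a, θ) = g (a, 0))
    (h1 : ∀ a, Ray (z a) → g (a, 0) = g (a, 1)) : Continuous fun a => g (a, th (z a)) := by
  rw [continuous_iff_continuousAt]
  intro a
  by_cases hr : Ray (z a)
  · by_cases hz0 : z a = 0
    · -- the angle is arbitrary: tube lemma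
      have hth : th (z a) ∈ Icc (0 : ℝ) 1 := ⟨(th_pos _).le, th_le_one _⟩
      rw [ContinuousAt, h0 a hz0 _ hth]
      intro U hU
      obtain ⟨O, hOU, hO, hmem⟩ := mem_nhds_iff.1 hU
      have hopen : IsOpen (g ⁻¹' O) := hO.preimage hg
      have hsub : ({a} : Set A) ×ˢ Icc (0 : ℝ) 1 ⊆ g ⁻¹' O := by
        rintro ⟨b, θ⟩ ⟨hb, hθ⟩
        obtain rfl : b = a := hb
        show g (b, θ) ∈ O
        rw [h0 b hz0 θ hθ]
        exact hmem
      obtain ⟨N, M, hN, hM, haN, hIM, hNM⟩ :=
        generalized_tube_lemma (isCompact_singleton (x := a)) (isCompact_Icc (a := (0 : ℝ)) (b := 1))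
          hopen hsub
      refine mem_map.2 (mem_of_superset (hN.mem_nhds (haN rfl)) fun b hb => hOU ?_)
      exact hNM (Set.mk_mem_prod hb (hIM ⟨(th_pos _).le, th_le_one _⟩))
    · have hre : (z a).re < 0 := lt_of_le_of_ne hr.2 fun h2 => hz0 (Complex.ext h2 hr.1)
      have hth1 : th (z a) = 1 := th_of_ray hr hz0
      have hA : Tendsto th (𝓝[{w : ℂ | w.im < 0}] (z a)) (𝓝 0) := by
        have := Complex.tendsto_arg_nhdsWithin_im_neg_of_re_neg_of_im_zero hre hr.1
        have h2 : Tendsto th (𝓝[{w : ℂ | w.im < 0}] (z a))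
            (𝓝 ((-Real.pi + Real.pi) / (2 * Real.pi))) := (this.add_const _).div_const _
        simpa using h2
      have hB : Tendsto th (𝓝[{w : ℂ | 0 ≤ w.im}] (z a)) (𝓝 1) := by
        have := Complex.tendsto_arg_nhdsWithin_im_nonneg_of_re_neg_of_im_zero hre hr.1
        have h2 : Tendsto th (𝓝[{w : ℂ | 0 ≤ w.im}] (z a))
            (𝓝 ((Real.pi + Real.pi) / (2 * Real.pi))) := (this.add_const _).div_const _
        have h3 : (Real.pi + Real.pi) / (2 * Real.pi) = 1 := by
          have := Real.pi_ne_zero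
          field_simp
          ring
        rwa [h3] at h2
      rw [ContinuousAt, hth1]
      have hzA : Tendsto z (𝓝[z ⁻¹' {w : ℂ | w.im < 0}] a) (𝓝[{w : ℂ | w.im < 0}] (z a)) :=
        tendsto_nhdsWithin_of_tendsto_nhds_of_eventually_within _
          (hz.continuousAt.mono_left nhdsWithin_le_nhds) (eventually_mem_nhdsWithin)
      have hzB : Tendsto z (𝓝[z ⁻¹' {w : ℂ | 0 ≤ w.im}] a) (𝓝[{w : ℂ | 0 ≤ w.im}] (z a)) :=
        tendsto_nhdsWithin_of_tendsto_nhds_of_eventually_within _
          (hz.continuousAt.mono_left nhdsWithin_le_nhds) (eventually_mem_nhdsWithin)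
      have e1 : Tendsto (fun b => g (b, th (z b))) (𝓝[z ⁻¹' {w : ℂ | w.im < 0}] a)
          (𝓝 (g (a, 0))) := by
        refine (hg.tendsto (a, 0)).comp ?_
        rw [nhds_prod_eq]
        exact (tendsto_id.mono_left nhdsWithin_le_nhds).prodMk (hA.comp hzA)
      have e2 : Tendsto (fun b => g (b, th (z b))) (𝓝[z ⁻¹' {w : ℂ | 0 ≤ w.im}] a)
          (𝓝 (g (a, 1))) := by
        refine (hg.tendsto (a, 1)).comp ?_
        rw [nhds_prod_eq]
        exact (tendsto_id.mono_left nhdsWithin_le_nhds).prodMk (hB.comp hzB)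
      rw [h1 a hr] at e1
      have e3 := e1.sup e2
      rw [← nhdsWithin_union] at e3
      have e4 : z ⁻¹' {w : ℂ | w.im < 0} ∪ z ⁻¹' {w : ℂ | 0 ≤ w.im} = univ := by
        ext b
        simp [lt_or_ge]
      rwa [e4, nhdsWithin_univ] at e3
  · exact hg.continuousAt.comp (f := fun b => (b, th (z b)))
      (continuousAt_id.prodMk ((continuousAt_th hr).comp hz.continuousAt))

end MP5f.S4
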