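import Pool.Agent.H.MP_5f9601_gt.U.Deg1

/-!
Degree lemma (helper50), part 2: pre-composition with the power map on a disc coordinate.
-/

set_option autoImplicit false
set_option linter.unusedSectionVars false
open Set Topology Filter

namespace MP5f.S4

/-- the retraction of the plane onto the closed disc -/
noncomputable def rdisc (u : ℂ) : Metric.closedBall (0 : ℂ) 1 :=
  ⟨((max 1 ‖u‖ : ℝ) : ℂ)⁻¹ * u, by
    rw [mem_closedBall_zero_iff, norm_mul, norm_inv, Complex.norm_real, Real.norm_eq_abs,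
      abs_of_pos (lt_max_of_lt_left one_pos), inv_mul_le_iff₀ (lt_max_of_lt_left one_pos), mul_one]
    exact le_max_right _ _⟩

theorem rdisc_of_le {u : ℂ} (h : ‖u‖ ≤ 1) : ((rdisc u : Metric.closedBall (0 : ℂ) 1) : ℂ) = u := by
  show ((max 1 ‖u‖ : ℝ) : ℂ)⁻¹ * u = u
  rw [max_eq_left h]
  simp

theorem norm_rdisc_of_ge {u : ℂ} (h : 1 ≤ ‖u‖) :
    ‖((rdisc u : Metric.closedBall (0 : ℂ) 1) : ℂ)‖ = 1 := by
  show ‖((max 1 ‖u‖ : ℝ) : ℂ)⁻¹ * u‖ = 1
  rw [max_eq_right h, norm_mul, norm_inv, Complex.norm_real, norm_norm]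
  exact inv_mul_cancel₀ (by linarith)

theorem continuous_rdisc : Continuous rdisc := by
  refine Continuous.subtype_mk ?_ _
  have h : Continuous fun u : ℂ => ((max 1 ‖u‖ : ℝ) : ℂ) :=
    Complex.continuous_ofReal.comp (by fun_prop)
  refine (h.inv₀ fun u => ?_).mul continuous_id
  have : (0 : ℝ) < max 1 ‖u‖ := lt_max_of_lt_left one_pos
  exact_mod_cast this.ne'

section disc

variable {P V : Type} [TopologicalSpace P] [NormedAddCommGroup V]

/-- a disc coordinate of a context -/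
structure DiscCoord (c : Ctx P V) where
  z : C(P, ℂ)
  hz : ∀ p, ‖z p‖ ≤ 1
  upd : C(P × Metric.closedBall (0 : ℂ) 1, P)
  h1 : ∀ p w, z (upd (p, w)) = w
  h2 : ∀ p, ∀ w : Metric.closedBall (0 : ℂ) 1, (w : ℂ) = z p → upd (p, w) = p
  h3 : ∀ p w w', upd (upd (p, w), w') = upd (p, w')
  h4 : ∀ p, ‖z p‖ = 1 → c.P0 p
  h5 : ∀ p, ∀ w : Metric.closedBall (0 : ℂ) 1,
    c.P0 (upd (p, w)) ↔ ‖(w : ℂ)‖ = 1 ∨ c.P0 (upd (p, ⟨0, by simp⟩))
  hE : ∀ f, c.E f

variable {c : Ctx P V} (d : DiscCoord c)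

namespace DiscCoord

/-- replace the disc coordinate by (the projection of) `u` -/
noncomputable def U (p : P) (u : ℂ) : P := d.upd (p, rdisc u)

theorem continuous_U : Continuous fun q : P × ℂ => d.U q.1 q.2 :=
  d.upd.continuous.comp (continuous_fst.prodMk (continuous_rdisc.comp continuous_snd))

theorem U_self (p : P) : d.U p (d.z p) = p := d.h2 p _ (rdisc_of_le (d.hz p))

theorem U_U (p : P) (u u' : ℂ) : d.U (d.U p u) u' = d.U p u' := d.h3 p _ _

theorem z_U (p : P) {u : ℂ} (hu : ‖u‖ ≤ 1) : d.z (d.U p u) = u := by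
  unfold U
  rw [d.h1, rdisc_of_le hu]

theorem P0_U_of_ge (p : P) {u : ℂ} (hu : 1 ≤ ‖u‖) : c.P0 (d.U p u) :=
  (d.h5 p _).2 (Or.inl (norm_rdisc_of_ge hu))

theorem P0_U {p : P} (hp : c.P0 p) {u : ℂ} (hu : ‖d.z p‖ = 1 → 1 ≤ ‖u‖) : c.P0 (d.U p u) := by
  have h := (d.h5 p (rdisc (d.z p))).1 (by
    have := d.U_self p
    unfold U at this
    rwa [this])
  rcases h with h | h
  · rw [rdisc_of_le (d.hz p)] at h
    exact d.P0_U_of_ge p (hu h)
  · exact (d.h5 p _).2 (Or.inr h)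

theorem P0_U_iff_of_norm {p : P} {u : ℂ} (hu : ‖u‖ = ‖d.z p‖) : c.P0 p → c.P0 (d.U p u) :=
  fun hp => d.P0_U hp fun h => by rw [hu, h]

/-- the maps which are also equal to the base point on the cut -/
def cut : Ctx P V where
  P0 p := c.P0 p ∨ Ray (d.z p)
  e := c.e
  e_ne := c.e_ne
  E _ := True
  E_e := trivial

variable [LocallyCompactSpace P]

/-- the value at radius `|z|` and angle `θ` -/
noncomputable def Ph (f : d.cut.FS) (p : P) (θ : ℝ) : V := f (d.U p (Ep ‖d.z p‖ θ))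

theorem continuous_Ph : Continuous fun q : d.cut.FS × P × ℝ => d.Ph q.1 q.2.1 q.2.2 := by
  refine (Ctx.continuous_eval d.cut).comp
    (f := fun q : d.cut.FS × P × ℝ => (q.1, d.U q.2.1 (Ep ‖d.z q.2.1‖ q.2.2))) ?_
  refine continuous_fst.prodMk ?_
  refine d.continuous_U.comp (f := fun q : d.cut.FS × P × ℝ => (q.2.1, Ep ‖d.z q.2.1‖ q.2.2)) ?_
  refine (continuous_fst.comp continuous_snd).prodMk ?_
  exact continuous_Ep.comp (f := fun q : d.cut.FS × P × ℝ => (‖d.z q.2.1‖, q.2.2))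
    ((continuous_norm.comp (d.z.continuous.comp (continuous_fst.comp continuous_snd))).prodMk
      (continuous_snd.comp continuous_snd))

theorem Ph_ne (f : d.cut.FS) (p : P) (θ : ℝ) : d.Ph f p θ ≠ 0 := f.ne _

theorem norm_Ep_z (p : P) (θ : ℝ) : ‖Ep ‖d.z p‖ θ‖ = ‖d.z p‖ := by
  rw [norm_Ep, abs_of_nonneg (norm_nonneg _)]

theorem Ph_P0 (f : d.cut.FS) {p : P} (hp : c.P0 p) (θ : ℝ) : d.Ph f p θ = c.e :=
  f.base (Or.inl (d.P0_U_iff_of_norm (d.norm_Ep_z p θ) hp))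

theorem Ph_nat (f : d.cut.FS) (p : P) (n : ℕ) : d.Ph f p n = c.e := by
  refine f.base (Or.inr ?_)
  rw [d.z_U p (by rw [d.norm_Ep_z]; exact d.hz p)]
  exact ray_Ep_nat (norm_nonneg _) n

theorem Ph_zero' (f : d.cut.FS) {p : P} (hp : d.z p = 0) (θ : ℝ) : d.Ph f p θ = c.e := by
  refine f.base (Or.inr ?_)
  rw [d.z_U p (by rw [d.norm_Ep_z]; exact d.hz p), hp, norm_zero]
  have : Ep 0 θ = 0 := by simp [Ep]
  rw [this]
  exact ⟨rfl, le_rfl⟩

theorem Ph_th (f : d.cut.FS) (p : P) : d.Ph f p (th (d.z p)) = f p := by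
  unfold Ph
  rw [Ep_th, d.U_self]

theorem Ph_sub_one (f : d.cut.FS) (p : P) (θ : ℝ) : d.Ph f p (θ - 1) = d.Ph f p θ := by
  unfold Ph
  have := Ep_add_one ‖d.z p‖ (θ - 1)
  rw [sub_add_cancel] at this
  rw [this]

theorem Ph_pt (p : P) (θ : ℝ) : d.Ph d.cut.pt p θ = c.e := rfl

/-- the general construction: a function `N a p θ` of the angle, equal to `e` for integral end points -/
theorem cont_angle {A : Type*} [TopologicalSpace A] (N : A → P → ℝ → V)
    (hN : Continuous fun q : (A × P) × ℝ => N q.1.1 q.1.2 q.2)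
    (h0 : ∀ a p, d.z p = 0 → ∀ θ ∈ Icc (0 : ℝ) 1, N a p θ = c.e)
    (hl : ∀ a p, N a p 0 = c.e) (hr : ∀ a p, N a p 1 = c.e) :
    Continuous fun q : A × P => N q.1 q.2 (th (d.z q.2)) := by
  refine continuous_polar (fun q : (A × P) × ℝ => N q.1.1 q.1.2 q.2) hN (fun q => d.z q.2)
    (d.z.continuous.comp continuous_snd) ?_ ?_
  · intro q hq θ hθ
    rw [h0 q.1 q.2 hq θ hθ, h0 q.1 q.2 hq 0 ⟨le_rfl, zero_le_one⟩]
  · intro q _
    show N q.1 q.2 0 = N q.1 q.2 1
    rw [hl, hr]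

theorem angle_base (N : P → ℝ → V) {p : P} (hp : d.cut.P0 p) (h0 : d.z p = 0 → N p (th (d.z p)) = c.e)
    (hr : N p 1 = c.e) (hP : c.P0 p → N p (th (d.z p)) = c.e) : N p (th (d.z p)) = c.e := by
  rcases hp with hp | hp
  · exact hP hp
  · by_cases h : d.z p = 0
    · exact h0 h
    · rw [th_of_ray hp h, hr]

/-- `f ↦ Φ(f, l θ)` -/
noncomputable def Q (l : ℕ) : BMap d.cut d.cut :=
  BMap.ofFormula (fun f p => d.Ph f p (l * th (d.z p)))
    (d.cont_angle (fun f p θ => d.Ph f p (l * θ))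
      (d.continuous_Ph.comp
        (f := fun q : (d.cut.FS × P) × ℝ => (q.1.1, q.1.2, (l : ℝ) * q.2)) (by fun_prop))
      (fun f p hp θ _ => d.Ph_zero' f hp _)
      (fun f p => by rw [mul_zero]; exact_mod_cast d.Ph_nat f p 0)
      (fun f p => by rw [mul_one]; exact d.Ph_nat f p l))
    (fun f p => d.Ph_ne f p _)
    (fun f p hp => d.angle_base (fun p θ => d.Ph f p (l * θ)) hp (fun h => d.Ph_zero' f h _)
      (by
        show d.Ph f p (l * 1) = c.e
        rw [mul_one]; exact d.Ph_nat f p l) (fun h => d.Ph_P0 f h _))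
    (fun _ => trivial) (fun p => d.Ph_pt p _)

theorem Q_apply (l : ℕ) (f : d.cut.FS) (p : P) : (d.Q l).toFun f p = d.Ph f p (l * th (d.z p)) := rfl

/-- the integrand of the binary operation -/
noncomputable def NN (l : ℕ) (f g : d.cut.FS) (p : P) (θ : ℝ) : V :=
  if ((l : ℝ) + 1) * θ ≤ 1 then d.Ph f p ((l + 1) * θ) else d.Ph g p ((l + 1) * θ - 1)

theorem continuous_NN (l : ℕ) :
    Continuous fun q : ((d.cut.FS × d.cut.FS) × P) × ℝ => d.NN l q.1.1.1 q.1.1.2 q.1.2 q.2 := by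
  unfold NN
  refine Continuous.if_le ?_ ?_ (by fun_prop) continuous_const ?_
  · exact d.continuous_Ph.comp
      (f := fun q : ((d.cut.FS × d.cut.FS) × P) × ℝ => (q.1.1.1, q.1.2, ((l : ℝ) + 1) * q.2))
      (by fun_prop)
  · exact d.continuous_Ph.comp
      (f := fun q : ((d.cut.FS × d.cut.FS) × P) × ℝ => (q.1.1.2, q.1.2, ((l : ℝ) + 1) * q.2 - 1))
      (by fun_prop)
  · intro q hq
    rw [hq]
    have h1 := d.Ph_nat q.1.1.1 q.1.2 1
    have h2 := d.Ph_nat q.1.1.2 q.1.2 0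
    rw [Nat.cast_one] at h1
    rw [Nat.cast_zero] at h2
    rw [h1, sub_self, h2]

theorem NN_zero' (l : ℕ) (f g : d.cut.FS) {p : P} (hp : d.z p = 0) (θ : ℝ) :
    d.NN l f g p θ = c.e := by
  unfold NN
  split_ifs
  · exact d.Ph_zero' f hp _
  · exact d.Ph_zero' g hp _

theorem NN_P0 (l : ℕ) (f g : d.cut.FS) {p : P} (hp : c.P0 p) (θ : ℝ) : d.NN l f g p θ = c.e := by
  unfold NN
  split_ifs
  · exact d.Ph_P0 f hp _
  · exact d.Ph_P0 g hp _

theorem NN_left (l : ℕ) (f g : d.cut.FS) (p : P) : d.NN l f g p 0 = c.e := by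
  unfold NN
  rw [mul_zero, if_pos zero_le_one]
  exact_mod_cast d.Ph_nat f p 0

theorem NN_right (l : ℕ) (f g : d.cut.FS) (p : P) : d.NN l f g p 1 = c.e := by
  unfold NN
  rw [mul_one]
  split_ifs with h
  · have := d.Ph_nat f p (l + 1)
    push_cast at this
    exact this
  · rw [add_sub_cancel_right]
    exact d.Ph_nat g p l

/-- the binary operation: `f` on the sector `(l+1) θ ≤ 1`, `g` (`l` times) on the rest -/
noncomputable def M (l : ℕ) : C(d.cut.FS × d.cut.FS, d.cut.FS) where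
  toFun q := ⟨⟨fun p => d.NN l q.1 q.2 p (th (d.z p)),
      (d.cont_angle (fun (q : d.cut.FS × d.cut.FS) p θ => d.NN l q.1 q.2 p θ) (d.continuous_NN l)
        (fun q p hp θ _ => d.NN_zero' l q.1 q.2 hp θ) (fun q p => d.NN_left l q.1 q.2 p)
        (fun q p => d.NN_right l q.1 q.2 p)).comp (Continuous.prodMk_right q)⟩,
    fun p => by
      show d.NN l q.1 q.2 p _ ≠ 0
      unfold NN
      split_ifs
      · exact d.Ph_ne _ _ _
      · exact d.Ph_ne _ _ _,
    fun p hp => d.angle_base (fun p θ => d.NN l q.1 q.2 p θ) hp (fun h => d.NN_zero' l _ _ h _)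
      (d.NN_right l _ _ p) (fun h => d.NN_P0 l _ _ h _), trivial⟩
  continuous_toFun := by
    have hc := d.cont_angle (fun (q : d.cut.FS × d.cut.FS) p θ => d.NN l q.1 q.2 p θ)
      (d.continuous_NN l) (fun q p hp θ _ => d.NN_zero' l q.1 q.2 hp θ)
      (fun q p => d.NN_left l q.1 q.2 p) (fun q p => d.NN_right l q.1 q.2 p)
    refine continuous_induced_rng.2 ?_
    exact ContinuousMap.continuous_of_continuous_uncurry
      (fun q : d.cut.FS × d.cut.FS => (⟨fun p => d.NN l q.1 q.2 p (th (d.z p)),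
        hc.comp (Continuous.prodMk_right q)⟩ : C(P, V))) hc

theorem M_apply (l : ℕ) (f g : d.cut.FS) (p : P) :
    d.M l (f, g) p = d.NN l f g p (th (d.z p)) := rfl

theorem M_pt (l : ℕ) : d.M l (d.cut.pt, d.cut.pt) = d.cut.pt := by
  refine Ctx.FS.ext fun p => ?_
  rw [M_apply]
  unfold NN
  split_ifs <;> rfl

theorem M_diag (l : ℕ) (f : d.cut.FS) : d.M l (f, f) = (d.Q (l + 1)).toFun f := by
  refine Ctx.FS.ext fun p => ?_
  rw [M_apply, Q_apply]
  unfold NN
  push_cast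
  split_ifs
  · rfl
  · exact d.Ph_sub_one f p _

/-- `f ↦ M(f, *)` -/
noncomputable def ML (l : ℕ) : BMap d.cut d.cut :=
  ⟨(d.M l).comp ((ContinuousMap.id _).prodMk (ContinuousMap.const _ d.cut.pt)), d.M_pt l⟩

/-- `g ↦ M(*, g)` -/
noncomputable def MR (l : ℕ) : BMap d.cut d.cut :=
  ⟨(d.M l).comp ((ContinuousMap.const _ d.cut.pt).prodMk (ContinuousMap.id _)), d.M_pt l⟩

theorem Q_succ_map (l : ℕ) (x : d.cut.A) :
    (d.Q (l + 1)).map x = (d.ML l).map x + (d.MR l).map x := by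
  induction x using Quotient.inductionOn with | _ F => ?_
  have h := gbin_class (d.M l) (d.M_pt l) F F
  have e1 : gcls (gbin (d.M l) (d.M_pt l) F F) =
      (d.Q (l + 1)).map (gcls F) := by
    refine congrArg gcls (GenLoop.ext _ _ fun t => ?_)
    exact d.M_diag l (F t)
  have e2 : gcls (gbin (d.M l) (d.M_pt l) F GenLoop.const) = (d.ML l).map (gcls F) := rfl
  have e3 : gcls (gbin (d.M l) (d.M_pt l) GenLoop.const F) = (d.MR l).map (gcls F) := rfl
  rw [e1, e2, e3] at h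
  exact h

end DiscCoord

end disc

end MP5f.S4
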