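import Mathlib

/-!
MP_5f9601, section 4 (helper67): exactness from a natural null homotopy, on the level of loops,
for arbitrary based spaces and all dimensions.
-/

set_option autoImplicit false

open Set Topology unitInterval

namespace MP5f.S4

variable {Y1 Y2 Y3 : Type*} [TopologicalSpace Y1] [TopologicalSpace Y2] [TopologicalSpace Y3]
  {M : Type*}

/-- pairs of a point and a path from its image to the base point -/
abbrev PE (r : C(Y2, Y3)) (y3 : Y3) : Type _ :=
  {q : Y2 × C(unitInterval, Y3) // q.2 0 = r q.1 ∧ q.2 1 = y3}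

/-- the base point -/
def PE.pt {r : C(Y2, Y3)} {y2 : Y2} {y3 : Y3} (hr : r y2 = y3) : PE r y3 :=
  ⟨(y2, ContinuousMap.const _ y3), hr.symm, rfl⟩

/-- first projection -/
def PE.fst (r : C(Y2, Y3)) (y3 : Y3) : C(PE r y3, Y2) := ⟨fun z => z.1.1, by fun_prop⟩

/-- **exactness from a natural formula** -/
theorem exact_genLoop {y1 : Y1} {y2 : Y2} {y3 : Y3} (i : C(Y1, Y2)) (r : C(Y2, Y3))
    (hr : r y2 = y3) (Q : C(PE r y3, Y1)) (hQ : Q (PE.pt hr) = y1)
    (hH : ContinuousMap.HomotopicRel (PE.fst r y3) (i.comp Q) {PE.pt hr})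
    (p : GenLoop M Y2 y2)
    (hp : ContinuousMap.HomotopicRel (r.comp p.1) (ContinuousMap.const _ y3) (Cube.boundary M)) :
    ∃ q : GenLoop M Y1 y1, ContinuousMap.HomotopicRel p.1 (i.comp q.1) (Cube.boundary M) := by
  obtain ⟨H⟩ := hp
  obtain ⟨G⟩ := hH
  -- the lift to `PE`
  let g : C(M → unitInterval, C(unitInterval, Y3)) :=
    (H.toHomotopy.toContinuousMap.comp ContinuousMap.prodSwap).curry
  have hg : ∀ s t, g s t = H (t, s) := fun s t => rfl
  let L : C(M → unitInterval, PE r y3) :=
    ⟨fun s => ⟨(p.1 s, g s), by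
        show g s 0 = _
        rw [hg]; exact H.map_zero_left s, by
        show g s 1 = _
        rw [hg]; exact H.map_one_left s⟩,
      Continuous.subtype_mk (p.1.continuous.prodMk g.continuous) _⟩
  have hL : ∀ s ∈ Cube.boundary M, L s = PE.pt hr := by
    intro s hs
    apply Subtype.ext
    refine Prod.ext (p.2 s hs) ?_
    change g s = ContinuousMap.const _ _
    ext1 t
    rw [hg, H.eq_fst t hs]
    show r (p.1 s) = y3
    rw [show p.1 s = y2 from p.2 s hs, hr]
  refine ⟨⟨Q.comp L, fun s hs => ?_⟩, ?_⟩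
  · show Q (L s) = y1
    rw [hL s hs, hQ]
  · have h1 : p.1 = (PE.fst r y3).comp L := by ext s; rfl
    have h2 : ContinuousMap.HomotopicRel ((PE.fst r y3).comp L) ((i.comp Q).comp L)
        (Cube.boundary M) := by
      refine ⟨⟨⟨⟨fun w => G (w.1, L w.2), by fun_prop⟩, fun s => ?_, fun s => ?_⟩, ?_⟩⟩
      · exact G.map_zero_left (L s)
      · exact G.map_one_left (L s)
      · intro t s hs
        show G (t, L s) = PE.fst r y3 (L s)
        refine G.eq_fst t ?_
        rw [hL s hs]
        rfl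
    rw [h1]
    exact h2

end MP5f.S4
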