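import Pool.Agent.H.MP_5f9601_gt.U.FExJ

/-!
MP_5f9601, section 4 (helper68): exactness of `jj` for the induced homomorphisms.
-/

set_option autoImplicit false

open Set Topology

namespace MP5f.S4

variable {N i al be : ℕ} (a : Fin al → ℕ) (b : Fin be → ℕ)

/-- exactness at `YC N (i + 1)`: a class whose restriction is trivial comes from the cell group -/
theorem map_exact_J (hi : i < N) (c : ℕ) (K : Type) [TopologicalSpace K] [Par K] [CompactSpace K]
    [T2Space K] (x : (YC N (i + 1) a b c K).A) (hx : (res a b c K (Nat.le_succ i)).map x = 0) :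
    ∃ y : (CC N i al be c K).A, (jj a b hi c K).map y = x :=
  exact_J a b hi x hx

end MP5f.S4
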