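import Mathlib

/-!
MP_5f9601, section 4 of helper47's proof (the plain filler): definitions.

* `psi l z = |z| (z/|z|)^l`, `rot w t z = (t^(w i) z_i)_i`.
* `W al c = (Fin al → ℂ) × (Fin c → ℂ)` with the sup norm, `Ball al c` its closed unit ball (the second factor = suspension
  coordinates, weight 0).
* `V be c = ((Fin be → ℂ) × (Fin c → ℂ) × (Fin 3 → ℝ)) × ℝ` the space of values, base point `ebase = (0, 1)`.
* `Par K`: a parameter space with boundary condition `Par.bd`; we use `K = Cu rho` (`rho` real coordinates in `[0,1]`).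
* `Ctx P V`: conditions on maps `P → V`; `Ctx.FS` the space of continuous maps `P → V` which vanish nowhere, are equal to `e`
  where `P0` holds and satisfy `E`.  `Ctx.A` = the second homotopy group of this space (additive).
* `YC N i a b c K`: maps `X N i × Ball al c × K → V be c`, equal to `e` for `|v| = 1` or `bd k`, equivariant for the circle.
* `CC N i al be c K`: maps `D N i × Ball al c × K → V be c`, equal to `e` for `|x| = 1` or `|v| = 1` or `bd k`.
-/

set_option autoImplicit false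

open Set Topology

namespace MP5f.S4

/-- the power map -/
noncomputable def psi (l : ℕ) (z : ℂ) : ℂ := (‖z‖ : ℂ) * (z / (‖z‖ : ℂ)) ^ l

/-- the power map on every coordinate -/
noncomputable def psv {n : ℕ} (l : ℕ) (z : Fin n → ℂ) : Fin n → ℂ := fun i => psi l (z i)

/-- the weighted rotation -/
def rot {n : ℕ} (w : Fin n → ℕ) (t : ℂ) (z : Fin n → ℂ) : Fin n → ℂ := fun i => t ^ (w i) * z i

/-! ### the power maps -/

theorem norm_psi (l : ℕ) (z : ℂ) : ‖psi l z‖ = ‖z‖ := by
  rcases eq_or_ne z 0 with rfl | hz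
  · simp [psi]
  · have h : ‖z‖ ≠ 0 := norm_ne_zero_iff.2 hz
    rw [psi, norm_mul, norm_pow, norm_div, Complex.norm_real, norm_norm, div_self h, one_pow, mul_one]

theorem psi_zero (l : ℕ) : psi l 0 = 0 := by simp [psi]

theorem psi_one (z : ℂ) : psi 1 z = z := by
  rcases eq_or_ne z 0 with rfl | hz
  · simp [psi]
  · have h : (‖z‖ : ℂ) ≠ 0 := by exact_mod_cast norm_ne_zero_iff.2 hz
    rw [psi, pow_one]
    field_simp

theorem psi_mul (l : ℕ) {t : ℂ} (ht : ‖t‖ = 1) (z : ℂ) : psi l (t * z) = t ^ l * psi l z := by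
  rw [psi, psi, norm_mul, ht, one_mul, mul_div_assoc, mul_pow]
  ring

theorem psi_smul (l : ℕ) {r : ℝ} (hr : 0 ≤ r) (z : ℂ) : psi l ((r : ℂ) * z) = (r : ℂ) * psi l z := by
  rcases hr.eq_or_lt with rfl | hr
  · simp [psi]
  · have h : (r : ℂ) ≠ 0 := by exact_mod_cast hr.ne'
    rw [psi, psi, norm_mul, Complex.norm_real, Real.norm_eq_abs, abs_of_pos hr]
    push_cast
    rw [mul_div_mul_left _ _ h]
    ring

theorem psi_psi (l m : ℕ) (z : ℂ) : psi l (psi m z) = psi (l * m) z := by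
  rcases eq_or_ne z 0 with rfl | hz
  · simp [psi]
  · have h : (‖z‖ : ℂ) ≠ 0 := by exact_mod_cast norm_ne_zero_iff.2 hz
    have h1 : psi m z / (‖z‖ : ℂ) = (z / (‖z‖ : ℂ)) ^ m := by
      rw [psi, mul_div_cancel_left₀ _ h]
    rw [psi, norm_psi, h1, psi, ← pow_mul, mul_comm m l]

theorem continuous_psi (l : ℕ) : Continuous (psi l) := by
  rw [continuous_iff_continuousAt]
  intro z
  rcases eq_or_ne z 0 with rfl | hz
  · rw [ContinuousAt, psi_zero]
    refine squeeze_zero_norm (fun z => (norm_psi l z).le) ?_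
    simpa using (continuous_norm (E := ℂ)).tendsto 0
  · have h : (‖z‖ : ℂ) ≠ 0 := by exact_mod_cast norm_ne_zero_iff.2 hz
    have hn : ContinuousAt (fun z : ℂ => (‖z‖ : ℂ)) z :=
      (Complex.continuous_ofReal.comp continuous_norm).continuousAt
    exact hn.mul ((continuousAt_id.div hn h).pow l)

theorem continuous_psv {n : ℕ} (l : ℕ) : Continuous (psv l : (Fin n → ℂ) → Fin n → ℂ) :=
  continuous_pi fun i => (continuous_psi l).comp (continuous_apply i)

theorem norm_psv {n : ℕ} (l : ℕ) (z : Fin n → ℂ) : ‖psv l z‖ = ‖z‖ := by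
  simp only [Pi.norm_def, psv]
  congr 2
  ext i
  simpa [← NNReal.coe_inj] using norm_psi l (z i)

theorem psv_rot {n : ℕ} (l : ℕ) (w w' : Fin n → ℕ) (h : ∀ i, w' i = l * w i) {t : ℂ} (ht : ‖t‖ = 1)
    (z : Fin n → ℂ) : psv l (rot w t z) = rot w' t (psv l z) := by
  ext i
  simp only [psv, rot]
  rw [psi_mul l (by rw [norm_pow, ht, one_pow]), h i, ← pow_mul, mul_comm (w i) l]

theorem psv_smul_unit {n : ℕ} (l : ℕ) {t : ℂ} (ht : ‖t‖ = 1) (z : Fin n → ℂ) :
    psv l (t • z) = t ^ l • psv l z := by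
  ext i
  simp only [psv, Pi.smul_apply, smul_eq_mul]
  exact psi_mul l ht _

theorem psv_rsmul {n : ℕ} (l : ℕ) {r : ℝ} (hr : 0 ≤ r) (z : Fin n → ℂ) :
    psv l ((r : ℂ) • z) = (r : ℂ) • psv l z := by
  ext i
  simp only [psv, Pi.smul_apply, smul_eq_mul]
  exact psi_smul l hr _

theorem psv_psv {n : ℕ} (l m : ℕ) (z : Fin n → ℂ) : psv l (psv m z) = psv (l * m) z :=
  funext fun _ => psi_psi l m _

theorem psv_zero {n : ℕ} (l : ℕ) : psv l (0 : Fin n → ℂ) = 0 := funext fun _ => psi_zero l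

theorem norm_rot {n : ℕ} (w : Fin n → ℕ) {t : ℂ} (ht : ‖t‖ = 1) (z : Fin n → ℂ) :
    ‖rot w t z‖ = ‖z‖ := by
  simp only [Pi.norm_def, rot]
  congr 2
  ext i
  simp [ht]

theorem rot_mul {n : ℕ} (w : Fin n → ℕ) (s t : ℂ) (z : Fin n → ℂ) :
    rot w (s * t) z = rot w s (rot w t z) := by
  ext i
  simp only [rot]
  rw [mul_pow, mul_assoc]

theorem rot_one {n : ℕ} (w : Fin n → ℕ) (z : Fin n → ℂ) : rot w 1 z = z := by
  ext i
  simp [rot]

theorem rot_pow {n : ℕ} (l : ℕ) (w w' : Fin n → ℕ) (h : ∀ i, w' i = l * w i) (t : ℂ)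
    (z : Fin n → ℂ) : rot w (t ^ l) z = rot w' t z := by
  ext i
  simp only [rot]
  rw [h i, pow_mul]

theorem continuous_rot {n : ℕ} (w : Fin n → ℕ) :
    Continuous (fun q : ℂ × (Fin n → ℂ) => rot w q.1 q.2) := by
  refine continuous_pi fun i => ?_
  simp only [rot]
  fun_prop

/-- the parameter space -/
abbrev W (al c : ℕ) : Type := (Fin al → ℂ) × (Fin c → ℂ)

/-- the source ball -/
abbrev Ball (al c : ℕ) : Type := Metric.closedBall (0 : W al c) 1

/-- the space of values -/
abbrev V (be c : ℕ) : Type := ((Fin be → ℂ) × (Fin c → ℂ) × (Fin 3 → ℝ)) × ℝ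

/-- a space of further parameters with a boundary -/
class Par (K : Type) [TopologicalSpace K] where
  bd : K → Prop

/-- `rho` real parameters in the unit interval -/
abbrev Cu (rho : ℕ) : Type := Fin rho → unitInterval

instance (rho : ℕ) : Par (Cu rho) := ⟨fun k => ∃ i, k i = 0 ∨ k i = 1⟩

/-- the base point of the space of values -/
def ebase (be c : ℕ) : V be c := (0, 1)

/-- rotation of the values -/
def rotV {be c : ℕ} (b : Fin be → ℕ) (t : ℂ) (u : V be c) : V be c := ((rot b t u.1.1, u.1.2), u.2)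

/-- power map on the values -/
noncomputable def psV {be c : ℕ} (l : ℕ) (u : V be c) : V be c := ((psv l u.1.1, u.1.2), u.2)

/-- the sup norm sphere of the first `i` coordinates -/
def X (N i : ℕ) : Set (Fin N → ℂ) := {x | ‖x‖ = 1 ∧ ∀ j : Fin N, i ≤ (j : ℕ) → x j = 0}

/-- the sup norm ball of the first `i` coordinates -/
def D (N i : ℕ) : Set (Fin N → ℂ) := {x | ‖x‖ ≤ 1 ∧ ∀ j : Fin N, i ≤ (j : ℕ) → x j = 0}

theorem rotV_mul {be c : ℕ} (b : Fin be → ℕ) (s t : ℂ) (u : V be c) :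
    rotV b (s * t) u = rotV b s (rotV b t u) := by
  simp only [rotV, rot_mul]

theorem rotV_one {be c : ℕ} (b : Fin be → ℕ) (u : V be c) : rotV b 1 u = u := by
  simp only [rotV, rot_one]

theorem rotV_pow {be c : ℕ} (l : ℕ) (b b' : Fin be → ℕ) (h : ∀ i, b' i = l * b i) (t : ℂ)
    (u : V be c) : rotV b (t ^ l) u = rotV b' t u := by
  simp only [rotV, rot_pow l b b' h]

theorem norm_rotV {be c : ℕ} (b : Fin be → ℕ) {t : ℂ} (ht : ‖t‖ = 1) (u : V be c) :
    ‖rotV b t u‖ = ‖u‖ := by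
  simp only [rotV, Prod.norm_def, norm_rot b ht]

theorem continuous_rotV {be c : ℕ} (b : Fin be → ℕ) :
    Continuous (fun q : ℂ × V be c => rotV b q.1 q.2) := by
  have := continuous_rot b
  simp only [rotV]
  refine Continuous.prodMk (Continuous.prodMk ?_ (by fun_prop)) (by fun_prop)
  exact this.comp (f := fun q : ℂ × V be c => (q.1, q.2.1.1)) (by fun_prop)

theorem rotV_ebase {be c : ℕ} (b : Fin be → ℕ) (t : ℂ) : rotV b t (ebase be c) = ebase be c := by
  refine Prod.ext (Prod.ext (funext fun j => ?_) rfl) rfl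
  simp [rotV, ebase, rot]

theorem norm_psV {be c : ℕ} (l : ℕ) (u : V be c) : ‖psV l u‖ = ‖u‖ := by
  simp only [psV, Prod.norm_def, norm_psv]

theorem psV_ebase {be c : ℕ} (l : ℕ) : psV l (ebase be c) = ebase be c := by
  simp [psV, ebase, psv_zero]

theorem psV_rotV {be c : ℕ} (l : ℕ) (b b' : Fin be → ℕ) (h : ∀ i, b' i = l * b i) {t : ℂ}
    (ht : ‖t‖ = 1) (u : V be c) : psV l (rotV b t u) = rotV b' t (psV l u) := by
  simp only [psV, rotV, psv_rot l b b' h ht]

theorem continuous_psV {be c : ℕ} (l : ℕ) : Continuous (psV l : V be c → V be c) := by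
  show Continuous fun u : V be c => ((psv l u.1.1, u.1.2), u.2)
  refine Continuous.prodMk (Continuous.prodMk ?_ (by fun_prop)) (by fun_prop)
  exact (continuous_psv l).comp (by fun_prop)

/-! ### spaces of maps -/

/-- conditions for maps -/
structure Ctx (P V : Type) [TopologicalSpace P] [NormedAddCommGroup V] where
  P0 : P → Prop
  e : V
  e_ne : e ≠ 0
  E : (P → V) → Prop
  E_e : E (fun _ => e)

/-- the space of maps -/
structure Ctx.FS {P V : Type} [TopologicalSpace P] [NormedAddCommGroup V] (c : Ctx P V) where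
  /-- the underlying map -/
  map : C(P, V)
  ne' : ∀ p, map p ≠ 0
  base' : ∀ p, c.P0 p → map p = c.e
  eqv' : c.E map

section FS

variable {P V P' V' P'' V'' : Type} [TopologicalSpace P] [NormedAddCommGroup V]
  [TopologicalSpace P'] [NormedAddCommGroup V'] [TopologicalSpace P''] [NormedAddCommGroup V'']

instance (c : Ctx P V) : TopologicalSpace c.FS :=
  TopologicalSpace.induced (fun f : c.FS => f.map) inferInstance

instance (c : Ctx P V) : CoeFun c.FS (fun _ => P → V) := ⟨fun f => f.map⟩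

theorem Ctx.FS.continuous_map (c : Ctx P V) : Continuous (fun f : c.FS => f.map) :=
  continuous_induced_dom

theorem Ctx.FS.ne {c : Ctx P V} (f : c.FS) (p : P) : f p ≠ 0 := f.ne' p

theorem Ctx.FS.base {c : Ctx P V} (f : c.FS) {p : P} (hp : c.P0 p) : f p = c.e := f.base' p hp

theorem Ctx.FS.eqv {c : Ctx P V} (f : c.FS) : c.E f := f.eqv'

theorem Ctx.FS.ext {c : Ctx P V} {f g : c.FS} (h : ∀ p, f p = g p) : f = g := by
  obtain ⟨f, _, _, _⟩ := f
  obtain ⟨g, _, _, _⟩ := g
  have : f = g := ContinuousMap.ext h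
  subst this
  rfl

/-- the base point -/
def Ctx.pt (c : Ctx P V) : c.FS :=
  ⟨ContinuousMap.const P c.e, fun _ => c.e_ne, fun _ _ => rfl, c.E_e⟩

theorem Ctx.pt_apply (c : Ctx P V) (p : P) : c.pt p = c.e := rfl

/-- the group of homotopy classes of double loops of maps -/
abbrev Ctx.A (c : Ctx P V) : Type := Additive (HomotopyGroup (Fin 2) c.FS c.pt)

/-- evaluation is continuous -/
theorem Ctx.continuous_eval (c : Ctx P V) [LocallyCompactSpace P] :
    Continuous (fun q : c.FS × P => q.1 q.2) := by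
  have h : Continuous (fun q : C(P, V) × P => q.1 q.2) := ContinuousEval.continuous_eval
  exact h.comp ((Ctx.FS.continuous_map c).prodMap continuous_id)

/-- based continuous maps between spaces of maps -/
structure BMap (c : Ctx P V) (c' : Ctx P' V') where
  toFun : C(c.FS, c'.FS)
  map_pt : toFun c.pt = c'.pt

/-- a based map given by a formula `Θ f p` which is jointly continuous -/
def BMap.ofFormula {c : Ctx P V} {c' : Ctx P' V'} (Θ : c.FS → P' → V')
    (hc : Continuous (fun q : c.FS × P' => Θ q.1 q.2))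
    (h0 : ∀ f p, Θ f p ≠ 0) (hb : ∀ f p, c'.P0 p → Θ f p = c'.e) (hE : ∀ f, c'.E (Θ f))
    (hpt : ∀ p, Θ c.pt p = c'.e) : BMap c c' where
  toFun :=
    { toFun := fun f => ⟨⟨Θ f, hc.comp (Continuous.prodMk_right f)⟩, h0 f, hb f, hE f⟩
      continuous_toFun := by
        refine continuous_induced_rng.2 ?_
        exact ContinuousMap.continuous_of_continuous_uncurry
          (fun f : c.FS => (⟨Θ f, hc.comp (Continuous.prodMk_right f)⟩ : C(P', V'))) hc }
  map_pt := Ctx.FS.ext hpt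

theorem BMap.ofFormula_apply {c : Ctx P V} {c' : Ctx P' V'} (Θ : c.FS → P' → V')
    (hc : Continuous (fun q : c.FS × P' => Θ q.1 q.2))
    (h0 : ∀ f p, Θ f p ≠ 0) (hb : ∀ f p, c'.P0 p → Θ f p = c'.e) (hE : ∀ f, c'.E (Θ f))
    (hpt : ∀ p, Θ c.pt p = c'.e) (f : c.FS) (p : P') :
    (BMap.ofFormula Θ hc h0 hb hE hpt).toFun f p = Θ f p := rfl

/-- composition -/
def BMap.comp {c : Ctx P V} {c' : Ctx P' V'} {c'' : Ctx P'' V''} (g : BMap c' c'')
    (f : BMap c c') : BMap c c'' := ⟨g.toFun.comp f.toFun, by simp [f.map_pt, g.map_pt]⟩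

end FS

/-! ### the two families of spaces -/

/-- `T`-maps on `X N i × Ball al c × K` -/
def YC (N i : ℕ) {al be : ℕ} (a : Fin al → ℕ) (b : Fin be → ℕ) (c : ℕ) (K : Type)
    [TopologicalSpace K] [Par K] : Ctx (X N i × Ball al c × K) (V be c) where
  P0 p := ‖(p.2.1 : W al c)‖ = 1 ∨ Par.bd p.2.2
  e := ebase be c
  e_ne := fun h => one_ne_zero (congrArg Prod.snd h)
  E f := ∀ t : ℂ, ‖t‖ = 1 → ∀ p p' : X N i × Ball al c × K,
    (p'.1 : Fin N → ℂ) = t • (p.1 : Fin N → ℂ) →
    (p'.2.1 : W al c) = (rot a t (p.2.1 : W al c).1, (p.2.1 : W al c).2) → p'.2.2 = p.2.2 →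
    f p' = rotV b t (f p)
  E_e := by
    intro t _ p p' _ _ _
    refine Prod.ext (Prod.ext (funext fun j => ?_) rfl) rfl
    simp [rotV, ebase, rot]

/-- maps on the cells `D N i × Ball al c × K` -/
def CC (N i al be c : ℕ) (K : Type) [TopologicalSpace K] [Par K] :
    Ctx (D N i × Ball al c × K) (V be c) where
  P0 p := ‖(p.1 : Fin N → ℂ)‖ = 1 ∨ ‖(p.2.1 : W al c)‖ = 1 ∨ Par.bd p.2.2
  e := ebase be c
  e_ne := fun h => one_ne_zero (congrArg Prod.snd h)
  E _ := True
  E_e := trivial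

end MP5f.S4
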