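import Pool.Agent.H.MP_5f9601_gt.U.A12b
import Pool.Agent.H.MP_5f9601_gt.U.ExGL

/-!
MP_5f9601, section 4 (helper67): (A1) and (A2) on the level of loops.
-/

set_option autoImplicit false

open Set Topology unitInterval

namespace MP5f.S4

variable {N i al be : ℕ} (a : Fin al → ℕ) (b : Fin be → ℕ) {M : Type*}

/-- **(A1)** on the level of loops -/
theorem exact_C_genLoop (hi : i < N) (c rho : ℕ)
    (p : GenLoop M (CC N i al be c (Cu rho)).FS (CC N i al be c (Cu rho)).pt)
    (hp : ContinuousMap.HomotopicRel ((jj a b hi c (Cu rho)).toFun.comp p.1)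
      (ContinuousMap.const _ (YC N (i + 1) a b c (Cu rho)).pt) (Cube.boundary M)) :
    ∃ q : GenLoop M (YC N i a b c (Cu (rho + 1))).FS (YC N i a b c (Cu (rho + 1))).pt,
      ContinuousMap.HomotopicRel p.1 ((oo a b N i c rho).toFun.comp q.1) (Cube.boundary M) :=
  exact_genLoop (oo a b N i c rho).toFun (jj a b hi c (Cu rho)).toFun
    (jj a b hi c (Cu rho)).map_pt (EC.Q a b hi c rho) (EC.Q_pt a b hi c rho)
    (EC.homotopic a b hi c rho) p hp

/-- **(A2)** on the level of loops -/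
theorem jj_oo_genLoop (hi : i < N) (c rho : ℕ)
    (p : GenLoop M (YC N i a b c (Cu (rho + 1))).FS (YC N i a b c (Cu (rho + 1))).pt) :
    ContinuousMap.HomotopicRel
      ((jj a b hi c (Cu rho)).toFun.comp ((oo a b N i c rho).toFun.comp p.1))
      (ContinuousMap.const _ (YC N (i + 1) a b c (Cu rho)).pt) (Cube.boundary M) := by
  obtain ⟨G⟩ := JO_null a b hi c rho
  refine ⟨⟨⟨⟨fun w => G (w.1, p.1 w.2), by fun_prop⟩, fun s => ?_, fun s => ?_⟩, ?_⟩⟩
  · exact G.map_zero_left (p.1 s)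
  · exact G.map_one_left (p.1 s)
  · intro t s hs
    show G (t, p.1 s) = (jj a b hi c (Cu rho)).toFun ((oo a b N i c rho).toFun (p.1 s))
    refine G.eq_fst t ?_
    exact p.2 s hs

end MP5f.S4
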