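import Pool.Agent.H.MP_5f9601_gt.U.Pi2

/-!
MP_5f9601, section 4: induced homomorphisms and representatives of classes.
-/

set_option autoImplicit false

open Set Topology

namespace MP5f.S4

section

variable {P V P' V' P'' V'' P3 V3 : Type} [TopologicalSpace P] [NormedAddCommGroup V]
  [TopologicalSpace P'] [NormedAddCommGroup V'] [TopologicalSpace P''] [NormedAddCommGroup V'']
  [TopologicalSpace P3] [NormedAddCommGroup V3]

/-- the homomorphism induced by a based map -/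
noncomputable def BMap.hom {c : Ctx P V} {c' : Ctx P' V'} (g : BMap c c') : c.A →+ c'.A := g.map

theorem BMap.hom_comp {c : Ctx P V} {c' : Ctx P' V'} {c'' : Ctx P'' V''} (g : BMap c' c'')
    (f : BMap c c') (x : c.A) : (g.comp f).hom x = g.hom (f.hom x) :=
  BMap.map_comp g f x

theorem BMap.hom_ext {c : Ctx P V} {c' : Ctx P' V'} {g g' : BMap c c'}
    (h : ∀ f p, g.toFun f p = g'.toFun f p) : g.hom = g'.hom := by
  obtain ⟨g, hg⟩ := g
  obtain ⟨g', hg'⟩ := g'
  have : g = g' := ContinuousMap.ext fun f => Ctx.FS.ext (h f)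
  subst this
  rfl

/-- strict commutation -/
theorem BMap.hom_comm {c : Ctx P V} {c1 : Ctx P' V'} {c2 : Ctx P'' V''} {c3 : Ctx P3 V3}
    (g1 : BMap c1 c3) (f1 : BMap c c1) (g2 : BMap c2 c3) (f2 : BMap c c2)
    (h : ∀ f p, g1.toFun (f1.toFun f) p = g2.toFun (f2.toFun f) p) (x : c.A) :
    g1.hom (f1.hom x) = g2.hom (f2.hom x) := by
  rw [← BMap.hom_comp, ← BMap.hom_comp, BMap.hom_ext (g := g1.comp f1) (g' := g2.comp f2) h]

/-- a based homotopy -/
theorem BMap.hom_homotopy {c : Ctx P V} {c' : Ctx P' V'} {g g' : BMap c c'}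
    (H : unitInterval → c.FS → P' → V')
    (hc : Continuous (fun q : unitInterval × c.FS × P' => H q.1 q.2.1 q.2.2))
    (h0 : ∀ t f p, H t f p ≠ 0) (hb : ∀ t f p, c'.P0 p → H t f p = c'.e) (hE : ∀ t f, c'.E (H t f))
    (hpt : ∀ t p, H t c.pt p = c'.e) (hl : ∀ f p, H 0 f p = g.toFun f p)
    (hr : ∀ f p, H 1 f p = g'.toFun f p) : g.hom = g'.hom := by
  refine BMap.map_congr g g'
    ⟨fun q => ⟨⟨H q.1 q.2, hc.comp (by fun_prop : Continuous fun p : P' => (q.1, q.2, p))⟩,
      h0 q.1 q.2, hb q.1 q.2, hE q.1 q.2⟩, ?_⟩ ?_ ?_ ?_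
  · refine continuous_induced_rng.2 ?_
    refine ContinuousMap.continuous_of_continuous_uncurry
      (fun q : unitInterval × c.FS => (⟨H q.1 q.2,
        hc.comp (by fun_prop : Continuous fun p : P' => (q.1, q.2, p))⟩ : C(P', V'))) ?_
    exact hc.comp (by fun_prop : Continuous fun q : (unitInterval × c.FS) × P' =>
      (q.1.1, q.1.2, q.2))
  · exact fun f => Ctx.FS.ext (hl f)
  · exact fun f => Ctx.FS.ext (hr f)
  · exact fun t => Ctx.FS.ext (hpt t)

/-- a representative of a class, depending on the two loop coordinates `s` -/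
structure Rep (c : Ctx P V) where
  F : (Fin 2 → unitInterval) → P → V
  cont : Continuous (fun q : (Fin 2 → unitInterval) × P => F q.1 q.2)
  ne : ∀ s p, F s p ≠ 0
  base : ∀ s p, c.P0 p → F s p = c.e
  eqv : ∀ s, c.E (F s)
  bdry : ∀ s, (∃ i, s i = 0 ∨ s i = 1) → ∀ p, F s p = c.e

/-- the maps of the representative -/
def Rep.slice {c : Ctx P V} (r : Rep c) (s : Fin 2 → unitInterval) : c.FS :=
  ⟨⟨r.F s, r.cont.comp (Continuous.prodMk_right s)⟩, r.ne s, r.base s, r.eqv s⟩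

/-- the loop -/
def Rep.loop {c : Ctx P V} (r : Rep c) : GenLoop (Fin 2) c.FS c.pt :=
  ⟨⟨r.slice, continuous_induced_rng.2 (ContinuousMap.continuous_of_continuous_uncurry
    (fun s => (⟨r.F s, r.cont.comp (Continuous.prodMk_right s)⟩ : C(P, V))) r.cont)⟩,
    fun s hs => Ctx.FS.ext (r.bdry s hs)⟩

/-- the class -/
noncomputable def Rep.cls {c : Ctx P V} (r : Rep c) : c.A :=
  Additive.ofMul (Quotient.mk _ r.loop)

theorem exists_rep [LocallyCompactSpace P] {c : Ctx P V} (x : c.A) : ∃ r : Rep c, r.cls = x := by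
  obtain ⟨a, ha⟩ : ∃ a : GenLoop (Fin 2) c.FS c.pt,
      Additive.ofMul (Quotient.mk _ a : HomotopyGroup (Fin 2) c.FS c.pt) = x := by
    obtain ⟨a, ha⟩ := Quotient.exists_rep (Additive.toMul x)
    exact ⟨a, ha⟩
  refine ⟨⟨fun s p => a.1 s p, ?_, fun s => (a.1 s).ne, fun s p hp => (a.1 s).base hp,
    fun s => (a.1 s).eqv, fun s hs p => ?_⟩, ?_⟩
  · exact (c.continuous_eval).comp (by fun_prop : Continuous
      fun q : (Fin 2 → unitInterval) × P => (a.1 q.1, q.2))
  · rw [a.2 s hs]; rfl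
  · rw [← ha]
    rfl

theorem Rep.cls_congr {c : Ctx P V} {r r' : Rep c} (h : ∀ s p, r.F s p = r'.F s p) :
    r.cls = r'.cls := by
  obtain ⟨F, _, _, _, _, _⟩ := r
  obtain ⟨F', _, _, _, _, _⟩ := r'
  have : F = F' := funext fun s => funext fun p => h s p
  subst this
  rfl

/-- homotopic representatives -/
theorem Rep.cls_homotopy {c : Ctx P V} {r r' : Rep c}
    (H : unitInterval → (Fin 2 → unitInterval) → P → V)
    (hc : Continuous (fun q : unitInterval × (Fin 2 → unitInterval) × P => H q.1 q.2.1 q.2.2))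
    (h0 : ∀ t s p, H t s p ≠ 0) (hb : ∀ t s p, c.P0 p → H t s p = c.e) (hE : ∀ t s, c.E (H t s))
    (hbd : ∀ t s, (∃ i, s i = 0 ∨ s i = 1) → ∀ p, H t s p = c.e)
    (hl : ∀ s p, H 0 s p = r.F s p) (hr : ∀ s p, H 1 s p = r'.F s p) : r.cls = r'.cls := by
  refine congrArg Additive.ofMul (Quotient.sound ?_)
  refine ⟨⟨⟨⟨fun q => ⟨⟨H q.1 q.2, hc.comp (by fun_prop : Continuous fun p : P => (q.1, q.2, p))⟩,
      h0 q.1 q.2, hb q.1 q.2, hE q.1 q.2⟩, ?_⟩, fun s => Ctx.FS.ext (hl s),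
      fun s => Ctx.FS.ext (hr s)⟩, fun t s hs => Ctx.FS.ext fun p => ?_⟩⟩
  · refine continuous_induced_rng.2 ?_
    refine ContinuousMap.continuous_of_continuous_uncurry
      (fun q : unitInterval × (Fin 2 → unitInterval) => (⟨H q.1 q.2,
        hc.comp (by fun_prop : Continuous fun p : P => (q.1, q.2, p))⟩ : C(P, V))) ?_
    exact hc.comp (by fun_prop : Continuous fun q : (unitInterval × (Fin 2 → unitInterval)) × P =>
      (q.1.1, q.1.2, q.2))
  · exact (hbd t s hs p).trans (r.bdry s hs p).symm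

/-- the image of a class -/
theorem BMap.hom_cls {c : Ctx P V} {c' : Ctx P' V'} (g : BMap c c') (r : Rep c) (r' : Rep c')
    (h : ∀ s p, r'.F s p = g.toFun (r.slice s) p) : g.hom r.cls = r'.cls := by
  refine congrArg Additive.ofMul (congrArg (Quotient.mk _) (Subtype.ext (ContinuousMap.ext
    fun s => Ctx.FS.ext fun p => ?_)))
  exact (h s p).symm

end

end MP5f.S4
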