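import Pool.Agent.H.MP_5f9601_gt.U.R6
import Pool.Agent.H.MP_5f9601_gt.U.B

/-!
MP_5f9601, final assembly (helper25): the frozen statement from the plain fillers.
-/

set_option autoImplicit false

open Metric Set Topology

namespace Pool.Agent.H.MP_5f9601_gt.U

/-- the frozen statement from the plain fillers -/
theorem main_of_fillers (H : ∀ p : ℕ, p.Prime → p ≠ 2 → ∃ M : ℕ, ∀ k : ℕ, 1 ≤ k →
    Nonempty (PlainFiller p M (p ^ k))) :
  ∀ p : ℕ, p.Prime → p ≠ 2 →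
  ∃ (n k : ℕ → ℕ)
    (f : ∀ i : ℕ, C(↥(Metric.sphere (0 : EuclideanSpace ℂ (Fin (n (i+1)))) 1),
                     ↥(Metric.sphere (0 : EuclideanSpace ℂ (Fin (n i))) 1)))
    (q : ∀ i : ℕ,
      C(Quot (fun x y : ↥(Metric.sphere (0 : EuclideanSpace ℂ (Fin (n (i+1)))) 1) =>
            ∃ j : ℕ, (y : EuclideanSpace ℂ (Fin (n (i+1)))) =
              Complex.exp (2 * (Real.pi : ℂ) * Complex.I / ((p ^ k (i+1) : ℕ) : ℂ)) ^ j •
                (x : EuclideanSpace ℂ (Fin (n (i+1))))),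
        Quot (fun x y : ↥(Metric.sphere (0 : EuclideanSpace ℂ (Fin (n i))) 1) =>
            ∃ j : ℕ, (y : EuclideanSpace ℂ (Fin (n i))) =
              Complex.exp (2 * (Real.pi : ℂ) * Complex.I / ((p ^ k i : ℕ) : ℂ)) ^ j •
                (x : EuclideanSpace ℂ (Fin (n i))))))
    (g : ∀ i j : ℕ, C(↥(Metric.sphere (0 : EuclideanSpace ℂ (Fin (n (i+j)))) 1),
                       ↥(Metric.sphere (0 : EuclideanSpace ℂ (Fin (n i))) 1))),
    Filter.Tendsto k Filter.atTop Filter.atTop ∧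
    (∀ i, p ^ (k i - k 0) < n i) ∧
    (∀ i x, q i (Quot.mk _ x) = Quot.mk _ (f i x)) ∧
    (∀ i x (δ : Path (q i x) (q i x)), ∃ γ : Path x x,
        (γ.map (q i).continuous).Homotopic δ) ∧
    (∀ i, g i 0 = ContinuousMap.id _) ∧
    (∀ i j, g i (j+1) = (g i j).comp (f (i+j))) ∧
    (∀ i, ∃ j, ∃ y, (g i j).Homotopic (ContinuousMap.const _ y)) :=
  main_of_blocks fun p hp hp2 => by
    obtain ⟨M, hM⟩ := H p hp hp2
    exact ⟨M * p + p, fun k hk => block_of_plainFiller (hp.odd_of_ne_two hp2) (hM k hk)⟩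

end Pool.Agent.H.MP_5f9601_gt.U
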