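import Mathlib

/-!
The 2-homotopy `K` between `(z₁^p, z₂^p) ∘ R(e)` and `R(e^p) ∘ (z₁^p, z₂^p)` (helper47's proof, section 3).
-/

set_option autoImplicit false

set_option linter.dupNamespace false

namespace Pool.Agent.H.MP_5f9601_gt.K

open Complex

/-- `(x + y)^(2m+1) = x a(x²,y²) + y b(x²,y²)` -/
noncomputable def ab : ℕ → ℂ → ℂ → ℂ × ℂ
  | 0, _, _ => (1, 1)
  | m + 1, X, Y =>
      ((X + Y) * (ab m X Y).1 + 2 * Y * (ab m X Y).2, (X + Y) * (ab m X Y).2 + 2 * X * (ab m X Y).1)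

lemma ab_id (m : ℕ) (x y : ℂ) :
    (x + y) ^ (2 * m + 1) = x * (ab m (x ^ 2) (y ^ 2)).1 + y * (ab m (x ^ 2) (y ^ 2)).2 := by
  induction m with
  | zero => simp [ab]
  | succ m ih =>
    have : 2 * (m + 1) + 1 = (2 * m + 1) + 2 := by ring
    rw [this, pow_add, ih]
    simp only [ab]
    ring

lemma ab_id' (m : ℕ) (x y : ℂ) :
    (x - y) ^ (2 * m + 1) = x * (ab m (x ^ 2) (y ^ 2)).1 - y * (ab m (x ^ 2) (y ^ 2)).2 := by
  have h := ab_id m x (-y)
  rw [neg_sq] at h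
  rw [sub_eq_add_neg, h]
  ring

lemma ab_zero_right (m : ℕ) (X : ℂ) : (ab m X 0).1 = X ^ m := by
  induction m with
  | zero => simp [ab]
  | succ m ih => simp only [ab]; rw [ih]; ring

lemma ab_zero_left (m : ℕ) (Y : ℂ) : (ab m 0 Y).2 = Y ^ m := by
  induction m with
  | zero => simp [ab]
  | succ m ih => simp only [ab]; rw [ih]; ring

lemma ab_hom (m : ℕ) (c X Y : ℂ) :
    (ab m (c * X) (c * Y)).1 = c ^ m * (ab m X Y).1 ∧
      (ab m (c * X) (c * Y)).2 = c ^ m * (ab m X Y).2 := by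
  induction m with
  | zero => simp [ab]
  | succ m ih =>
    simp only [ab]
    rw [ih.1, ih.2]
    constructor <;> ring

lemma continuous_ab (m : ℕ) : Continuous fun q : ℂ × ℂ => ab m q.1 q.2 := by
  induction m with
  | zero => exact continuous_const
  | succ m ih =>
    simp only [ab]
    fun_prop

/-- norm-equality implies purely imaginary quotient -/
lemma re_zero_of_norm_eq {x y : ℂ} (hx : x ≠ 0) (h : ‖x + y‖ = ‖x - y‖) : (y / x).re = 0 := by
  have h1 : ‖1 + y / x‖ = ‖1 - y / x‖ := by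
    have e1 : 1 + y / x = (x + y) / x := by field_simp
    have e2 : 1 - y / x = (x - y) / x := by field_simp
    rw [e1, e2, norm_div, norm_div, h]
  have h2 : ‖1 + y / x‖ ^ 2 = ‖1 - y / x‖ ^ 2 := by rw [h1]
  rw [← Complex.normSq_eq_norm_sq, ← Complex.normSq_eq_norm_sq, Complex.normSq_apply,
    Complex.normSq_apply] at h2
  simp only [Complex.add_re, Complex.one_re, Complex.add_im, Complex.one_im, Complex.sub_re,
    Complex.sub_im] at h2
  nlinarith

lemma norm_eq_of_pow_eq {m : ℕ} {a b : ℂ} (h : a ^ (2 * m + 1) = b ^ (2 * m + 1)) : ‖a‖ = ‖b‖ := by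
  have h1 : ‖a‖ ^ (2 * m + 1) = ‖b‖ ^ (2 * m + 1) := by rw [← norm_pow, ← norm_pow, h]
  exact (pow_left_inj₀ (norm_nonneg _) (norm_nonneg _) (by omega)).mp h1

/-- the scaling factor -/
noncomputable def mu (s : ℝ) : ℂ := ((1 - s : ℝ) : ℂ) * Complex.exp ((Real.pi * s : ℝ) * I)

lemma nonvanishing (m : ℕ) (X Y : ℂ) (hX : X ≠ 0) (hY : Y ≠ 0) (s : ℝ) (hs0 : 0 ≤ s) (hs1 : s ≤ 1)
    (hb : (ab m X Y).2 = 0) (ha : (ab m X (mu s * Y)).1 = 0) : False := by
  obtain ⟨x, hx⟩ := IsAlgClosed.exists_pow_nat_eq X (n := 2) (by norm_num)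
  obtain ⟨y, hy⟩ := IsAlgClosed.exists_pow_nat_eq Y (n := 2) (by norm_num)
  obtain ⟨y', hy'⟩ := IsAlgClosed.exists_pow_nat_eq (mu s * Y) (n := 2) (by norm_num)
  have hx0 : x ≠ 0 := by
    rintro rfl
    apply hX
    rw [← hx]
    simp
  have hy0 : y ≠ 0 := by
    rintro rfl
    apply hY
    rw [← hy]
    simp
  -- first relation
  have r1 : (x + y) ^ (2 * m + 1) = (x - y) ^ (2 * m + 1) := by
    rw [ab_id, ab_id', hx, hy, hb]
    ring
  have i1 := re_zero_of_norm_eq hx0 (norm_eq_of_pow_eq r1)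
  -- second relation
  have r2 : (x + y') ^ (2 * m + 1) = (-(x - y')) ^ (2 * m + 1) := by
    rw [Odd.neg_pow ⟨m, rfl⟩, ab_id, ab_id', hx, hy', ha]
    ring
  have n2 : ‖x + y'‖ = ‖x - y'‖ := by
    rw [norm_eq_of_pow_eq r2, norm_neg]
  have i2 := re_zero_of_norm_eq hx0 n2
  have hy'0 : y' ≠ 0 := by
    rintro rfl
    have h0 : mu s * Y = 0 := by rw [← hy']; simp
    rw [h0, ab_zero_right] at ha
    exact pow_ne_zero m hX ha
  set η := y / x with hη
  set η' := y' / x with hη'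
  have e1 : η = (η.im : ℂ) * I := by
    apply Complex.ext <;> simp [i1]
  have e2 : η' = (η'.im : ℂ) * I := by
    apply Complex.ext <;> simp [i2]
  have hηne : η ≠ 0 := div_ne_zero hy0 hx0
  have hη'ne : η' ≠ 0 := div_ne_zero hy'0 hx0
  have t1 : η.im ≠ 0 := by
    intro h
    rw [h] at e1
    exact hηne (by rw [e1]; simp)
  have t2 : η'.im ≠ 0 := by
    intro h
    rw [h] at e2
    exact hη'ne (by rw [e2]; simp)
  have hrel : η' ^ 2 = mu s * η ^ 2 := by
    rw [hη, hη', div_pow, div_pow, hy', hy]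
    ring
  have hsq1 : η ^ 2 = -((η.im ^ 2 : ℝ) : ℂ) := by
    conv_lhs => rw [e1]
    rw [mul_pow, I_sq]
    push_cast
    ring
  have hsq2 : η' ^ 2 = -((η'.im ^ 2 : ℝ) : ℂ) := by
    conv_lhs => rw [e2]
    rw [mul_pow, I_sq]
    push_cast
    ring
  rw [hsq1, hsq2] at hrel
  have hmu : mu s * ((η.im ^ 2 : ℝ) : ℂ) = ((η'.im ^ 2 : ℝ) : ℂ) := by
    linear_combination hrel
  have him : (mu s).im = 0 := by
    have h1 := congrArg Complex.im hmu
    rw [Complex.im_mul_ofReal, Complex.ofReal_im] at h1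
    rcases mul_eq_zero.mp h1 with h | h
    · exact h
    · exact absurd h (pow_ne_zero 2 t1)
  have hre : 0 < (mu s).re := by
    have h1 := congrArg Complex.re hmu
    rw [Complex.re_mul_ofReal, Complex.ofReal_re] at h1
    have h2 : 0 < η'.im ^ 2 := by positivity
    have h3 : 0 < η.im ^ 2 := by positivity
    rw [← h1] at h2
    by_contra hc
    push Not at hc
    nlinarith
  have hmure : (mu s).re = (1 - s) * Real.cos (Real.pi * s) := by
    unfold mu
    rw [Complex.re_ofReal_mul, Complex.exp_ofReal_mul_I_re]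
  have hmuim : (mu s).im = (1 - s) * Real.sin (Real.pi * s) := by
    unfold mu
    rw [Complex.im_ofReal_mul, Complex.exp_ofReal_mul_I_im]
  rw [hmure] at hre
  rw [hmuim] at him
  have hs1' : s < 1 := by
    rcases lt_or_eq_of_le hs1 with h | h
    · exact h
    · rw [h] at hre; simp at hre
  have hsin : Real.sin (Real.pi * s) = 0 := by
    rcases mul_eq_zero.mp him with h | h
    · linarith
    · exact h
  have hs : s = 0 := by
    by_contra hne
    have hpos : 0 < s := lt_of_le_of_ne hs0 (Ne.symm hne)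
    have := Real.sin_pos_of_pos_of_lt_pi (x := Real.pi * s) (by positivity)
      (by nlinarith [Real.pi_pos])
    linarith
  have hmu1 : mu s = 1 := by
    rw [hs]
    simp [mu]
  rw [hmu1, one_mul] at ha
  have z1 : (x + y) ^ (2 * m + 1) = 0 := by rw [ab_id, hx, hy, hb, ha]; ring
  have z2 : (x - y) ^ (2 * m + 1) = 0 := by rw [ab_id', hx, hy, hb, ha]; ring
  have z1' := pow_eq_zero_iff (by omega) |>.mp z1
  have z2' := pow_eq_zero_iff (by omega) |>.mp z2
  apply hx0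
  have : (2 : ℂ) * x = 0 := by linear_combination z1' + z2'
  simpa using this

/-- rotation in the plane of the two coordinates: `R 1 = id`, `R (-1) = swap` -/
noncomputable def R (e : ℂ) (z : ℂ × ℂ) : ℂ × ℂ :=
  (((1 + e) * z.1 + (1 - e) * z.2) / 2, ((1 - e) * z.1 + (1 + e) * z.2) / 2)

/-- coordinatewise power -/
noncomputable def Q (p : ℕ) (z : ℂ × ℂ) : ℂ × ℂ := (z.1 ^ p, z.2 ^ p)

/-- the family (before clamping): `U = z₁+z₂`, `V = z₁-z₂` -/
noncomputable def GU (m : ℕ) (s r : ℝ) (e : ℂ) (U V : ℂ) : ℂ :=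
  U * ((1 - r) * (ab m (U ^ 2) (mu s * (e ^ 2 * V ^ 2))).1 + r * (ab m (U ^ 2) (mu s * V ^ 2)).1)

noncomputable def GV (m : ℕ) (r : ℝ) (e : ℂ) (U V : ℂ) : ℂ :=
  e * V * ((1 - r) * (ab m (U ^ 2) (e ^ 2 * V ^ 2)).2 + r * (e ^ (2 * m) * (ab m (U ^ 2) (V ^ 2)).2))

noncomputable def G (m : ℕ) (s r : ℝ) (e : ℂ) (z : ℂ × ℂ) : ℂ × ℂ :=
  (((2 : ℂ) ^ (2 * m))⁻¹ * ((GU m s r e (z.1 + z.2) (z.1 - z.2) + GV m r e (z.1 + z.2) (z.1 - z.2)) / 2),
   ((2 : ℂ) ^ (2 * m))⁻¹ * ((GU m s r e (z.1 + z.2) (z.1 - z.2) - GV m r e (z.1 + z.2) (z.1 - z.2)) / 2))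

lemma continuous_mu : Continuous mu := by
  unfold mu
  fun_prop

lemma continuous_G (m : ℕ) :
    Continuous fun q : ℝ × ℝ × ℂ × (ℂ × ℂ) => G m q.1 q.2.1 q.2.2.1 q.2.2.2 := by
  have hmu := continuous_mu
  have hab := continuous_ab m
  have h1 : Continuous fun q : ℝ × ℝ × ℂ × (ℂ × ℂ) =>
      GU m q.1 q.2.1 q.2.2.1 (q.2.2.2.1 + q.2.2.2.2) (q.2.2.2.1 - q.2.2.2.2) := by
    unfold GU
    have a1 : Continuous fun q : ℝ × ℝ × ℂ × (ℂ × ℂ) =>
        ab m ((q.2.2.2.1 + q.2.2.2.2) ^ 2) (mu q.1 * (q.2.2.1 ^ 2 * (q.2.2.2.1 - q.2.2.2.2) ^ 2)) :=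
      hab.comp (g := fun q : ℂ × ℂ => ab m q.1 q.2) (f := fun q : ℝ × ℝ × ℂ × (ℂ × ℂ) =>
        ((q.2.2.2.1 + q.2.2.2.2) ^ 2, mu q.1 * (q.2.2.1 ^ 2 * (q.2.2.2.1 - q.2.2.2.2) ^ 2)))
        (by fun_prop)
    have a2 : Continuous fun q : ℝ × ℝ × ℂ × (ℂ × ℂ) =>
        ab m ((q.2.2.2.1 + q.2.2.2.2) ^ 2) (mu q.1 * (q.2.2.2.1 - q.2.2.2.2) ^ 2) :=
      hab.comp (g := fun q : ℂ × ℂ => ab m q.1 q.2) (f := fun q : ℝ × ℝ × ℂ × (ℂ × ℂ) =>
        ((q.2.2.2.1 + q.2.2.2.2) ^ 2, mu q.1 * (q.2.2.2.1 - q.2.2.2.2) ^ 2))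
        (by fun_prop)
    fun_prop
  have h2 : Continuous fun q : ℝ × ℝ × ℂ × (ℂ × ℂ) =>
      GV m q.2.1 q.2.2.1 (q.2.2.2.1 + q.2.2.2.2) (q.2.2.2.1 - q.2.2.2.2) := by
    unfold GV
    have a1 : Continuous fun q : ℝ × ℝ × ℂ × (ℂ × ℂ) =>
        ab m ((q.2.2.2.1 + q.2.2.2.2) ^ 2) (q.2.2.1 ^ 2 * (q.2.2.2.1 - q.2.2.2.2) ^ 2) :=
      hab.comp (g := fun q : ℂ × ℂ => ab m q.1 q.2) (f := fun q : ℝ × ℝ × ℂ × (ℂ × ℂ) =>
        ((q.2.2.2.1 + q.2.2.2.2) ^ 2, q.2.2.1 ^ 2 * (q.2.2.2.1 - q.2.2.2.2) ^ 2))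
        (by fun_prop)
    have a2 : Continuous fun q : ℝ × ℝ × ℂ × (ℂ × ℂ) =>
        ab m ((q.2.2.2.1 + q.2.2.2.2) ^ 2) ((q.2.2.2.1 - q.2.2.2.2) ^ 2) :=
      hab.comp (g := fun q : ℂ × ℂ => ab m q.1 q.2) (f := fun q : ℝ × ℝ × ℂ × (ℂ × ℂ) =>
        ((q.2.2.2.1 + q.2.2.2.2) ^ 2, (q.2.2.2.1 - q.2.2.2.2) ^ 2))
        (by fun_prop)
    fun_prop
  unfold G
  fun_prop

lemma G_smul (m : ℕ) (s r : ℝ) (e c : ℂ) (z : ℂ × ℂ) :
    G m s r e (c * z.1, c * z.2) = (c ^ (2 * m + 1) * (G m s r e z).1, c ^ (2 * m + 1) * (G m s r e z).2) := by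
  have hU : GU m s r e (c * z.1 + c * z.2) (c * z.1 - c * z.2) =
      c ^ (2 * m + 1) * GU m s r e (z.1 + z.2) (z.1 - z.2) := by
    unfold GU
    have e1 : (c * z.1 + c * z.2) ^ 2 = c ^ 2 * (z.1 + z.2) ^ 2 := by ring
    have e2 : mu s * (e ^ 2 * (c * z.1 - c * z.2) ^ 2) = c ^ 2 * (mu s * (e ^ 2 * (z.1 - z.2) ^ 2)) := by
      ring
    have e3 : mu s * (c * z.1 - c * z.2) ^ 2 = c ^ 2 * (mu s * (z.1 - z.2) ^ 2) := by ring
    rw [e1, e2, e3, (ab_hom m _ _ _).1, (ab_hom m _ _ _).1]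
    ring
  have hV : GV m r e (c * z.1 + c * z.2) (c * z.1 - c * z.2) =
      c ^ (2 * m + 1) * GV m r e (z.1 + z.2) (z.1 - z.2) := by
    unfold GV
    have e1 : (c * z.1 + c * z.2) ^ 2 = c ^ 2 * (z.1 + z.2) ^ 2 := by ring
    have e2 : e ^ 2 * (c * z.1 - c * z.2) ^ 2 = c ^ 2 * (e ^ 2 * (z.1 - z.2) ^ 2) := by
      ring
    have e3 : (c * z.1 - c * z.2) ^ 2 = c ^ 2 * (z.1 - z.2) ^ 2 := by ring
    rw [e1, e2, e3, (ab_hom m _ _ _).2, (ab_hom m _ _ _).2]
    ring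
  unfold G
  simp only
  rw [hU, hV]
  ext <;> simp <;> ring

lemma G_eq_zero_iff (m : ℕ) (s r : ℝ) (e : ℂ) (z : ℂ × ℂ) :
    G m s r e z = 0 ↔ GU m s r e (z.1 + z.2) (z.1 - z.2) = 0 ∧ GV m r e (z.1 + z.2) (z.1 - z.2) = 0 := by
  unfold G
  rw [Prod.mk_eq_zero]
  have h2 : ((2 : ℂ) ^ (2 * m))⁻¹ ≠ 0 := inv_ne_zero (pow_ne_zero _ two_ne_zero)
  constructor
  · rintro ⟨h3, h4⟩
    have h5 := (mul_eq_zero.mp h3).resolve_left h2
    have h6 := (mul_eq_zero.mp h4).resolve_left h2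
    constructor
    · linear_combination h5 + h6
    · linear_combination h5 - h6
  · rintro ⟨h3, h4⟩
    rw [h3, h4]
    simp

/-- the family has no zero except `0` in the three allowed cases -/
lemma G_ne_zero (m : ℕ) (s r : ℝ) (hs0 : 0 ≤ s) (hs1 : s ≤ 1) (e : ℂ) (he : ‖e‖ = 1)
    (hcase : r = 0 ∨ r = 1 ∨ s = 1 ∨ e ^ 2 = 1) (z : ℂ × ℂ) (h : G m s r e z = 0) : z = 0 := by
  rw [G_eq_zero_iff] at h
  obtain ⟨hU, hV⟩ := h
  set U := z.1 + z.2 with hUdef
  set V := z.1 - z.2 with hVdef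
  have he0 : e ≠ 0 := by
    rintro rfl
    simp at he
  have key : U = 0 ∧ V = 0 := by
    -- the second coordinate forces V = 0 when U = 0
    have hVU : U = 0 → V = 0 := by
      intro hU0
      by_contra hV0
      unfold GV at hV
      rw [hU0] at hV
      simp only [ne_eq, OfNat.ofNat_ne_zero, not_false_eq_true, zero_pow] at hV
      rw [ab_zero_left, ab_zero_left] at hV
      have h1 : e * V * ((1 - (r : ℂ)) * (e ^ 2 * V ^ 2) ^ m + r * (e ^ (2 * m) * (V ^ 2) ^ m)) =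
          (e * V) ^ (2 * m + 1) := by ring_nf
      rw [h1] at hV
      have h2 := (pow_eq_zero_iff (by omega)).mp hV
      rcases mul_eq_zero.mp h2 with h | h
      · exact he0 h
      · exact hV0 h
    -- reduction to two shapes
    have reduce : ∀ (w : ℂ), w ≠ 0 → U ≠ 0 → V ≠ 0 → (ab m (U ^ 2) (mu s * (w * V ^ 2))).1 = 0 →
        (ab m (U ^ 2) (w * V ^ 2)).2 = 0 → False := by
      intro w hw hU0 hV0 ha hb
      exact nonvanishing m (U ^ 2) (w * V ^ 2) (pow_ne_zero 2 hU0)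
        (mul_ne_zero hw (pow_ne_zero 2 hV0)) s hs0 hs1 hb ha
    have hU0 : U = 0 := by
      by_contra hU0
      by_cases hV0 : V = 0
      · unfold GU at hU
        rw [hV0] at hU
        simp only [ne_eq, OfNat.ofNat_ne_zero, not_false_eq_true, zero_pow, mul_zero] at hU
        rw [ab_zero_right] at hU
        have h1 : U * ((1 - (r : ℂ)) * (U ^ 2) ^ m + r * (U ^ 2) ^ m) = U ^ (2 * m + 1) := by ring_nf
        rw [h1] at hU
        exact hU0 ((pow_eq_zero_iff (by omega)).mp hU)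
      · -- U, V ≠ 0
        have hU' := (mul_eq_zero.mp hU).resolve_left hU0
        have hV' := (mul_eq_zero.mp hV).resolve_left (mul_ne_zero he0 hV0)
        rcases hcase with hr | hr | hs | he2
        · rw [hr] at hU' hV'
          simp only [ofReal_zero, sub_zero, one_mul, zero_mul, add_zero] at hU' hV'
          exact reduce (e ^ 2) (pow_ne_zero 2 he0) hU0 hV0 hU' hV'
        · rw [hr] at hU' hV'
          simp only [ofReal_one, sub_self, zero_mul, one_mul, zero_add] at hU' hV'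
          have hV'' := (mul_eq_zero.mp hV').resolve_left (pow_ne_zero _ he0)
          exact reduce 1 one_ne_zero hU0 hV0 (by rw [one_mul]; exact hU') (by rw [one_mul]; exact hV'')
        · have hmu : mu s = 0 := by rw [hs]; simp [mu]
          rw [hmu] at hU'
          simp only [zero_mul] at hU'
          rw [ab_zero_right] at hU'
          have h1 : (1 - (r : ℂ)) * (U ^ 2) ^ m + r * (U ^ 2) ^ m = (U ^ 2) ^ m := by ring
          rw [h1] at hU'
          exact pow_ne_zero m (pow_ne_zero 2 hU0) hU'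
        · rw [he2] at hU' hV'
          have he2m : e ^ (2 * m) = 1 := by rw [pow_mul, he2, one_pow]
          rw [he2m] at hV'
          simp only [one_mul] at hU' hV'
          have h1 : (1 - (r : ℂ)) * (ab m (U ^ 2) (mu s * V ^ 2)).1 + r * (ab m (U ^ 2) (mu s * V ^ 2)).1 =
              (ab m (U ^ 2) (mu s * V ^ 2)).1 := by ring
          have h2 : (1 - (r : ℂ)) * (ab m (U ^ 2) (V ^ 2)).2 + r * (ab m (U ^ 2) (V ^ 2)).2 =
              (ab m (U ^ 2) (V ^ 2)).2 := by ring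
          rw [h1] at hU'
          rw [h2] at hV'
          exact reduce 1 one_ne_zero hU0 hV0 (by rw [one_mul]; exact hU') (by rw [one_mul]; exact hV')
    exact ⟨hU0, hVU hU0⟩
  obtain ⟨k1, k2⟩ := key
  rw [hUdef] at k1
  rw [hVdef] at k2
  ext
  · have : (2 : ℂ) * z.1 = 0 := by linear_combination k1 + k2
    simpa using this
  · have : (2 : ℂ) * z.2 = 0 := by linear_combination k1 - k2
    simpa using this

/-- clamp to `[0,1]` -/
noncomputable def cl (x : ℝ) : ℝ := max 0 (min 1 x)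

lemma cl_nonneg (x : ℝ) : 0 ≤ cl x := le_max_left _ _
lemma cl_le (x : ℝ) : cl x ≤ 1 := max_le zero_le_one (min_le_left _ _)
lemma cl_of_le {x : ℝ} (h : x ≤ 0) : cl x = 0 := by
  unfold cl
  rw [min_eq_right (by linarith), max_eq_left h]
lemma cl_of_ge {x : ℝ} (h : 1 ≤ x) : cl x = 1 := by
  unfold cl
  rw [min_eq_left h, max_eq_right zero_le_one]
lemma continuous_cl : Continuous cl := by unfold cl; fun_prop

/-- the rotation parameter with constant collars -/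
noncomputable def ee (t : ℝ) : ℂ := Complex.exp ((Real.pi * cl (3 * t - 1) : ℝ) * I)

lemma norm_ee (t : ℝ) : ‖ee t‖ = 1 := by
  unfold ee
  exact Complex.norm_exp_ofReal_mul_I _

lemma continuous_ee : Continuous ee := by
  have := continuous_cl
  unfold ee
  fun_prop

lemma ee_zero : ee 0 = 1 := by
  unfold ee
  rw [cl_of_le (by norm_num)]
  simp

lemma ee_one : ee 1 = -1 := by
  unfold ee
  rw [cl_of_ge (by norm_num)]
  simp

/-- the collar parameter -/
noncomputable def cc (t : ℝ) : ℝ := cl (min (6 * t - 1) (5 - 6 * t))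

lemma ee_sq_of_cc (t : ℝ) : cc t = 1 ∨ ee t ^ 2 = 1 := by
  rcases le_or_gt (1 / 3) t with h1 | h1
  · rcases le_or_gt t (2 / 3) with h2 | h2
    · left
      unfold cc
      exact cl_of_ge (le_min (by linarith) (by linarith))
    · right
      unfold ee
      rw [cl_of_ge (by linarith)]
      simp
  · right
    unfold ee
    rw [cl_of_le (by linarith)]
    simp

/-- the 2-homotopy -/
noncomputable def K (m : ℕ) (u t : ℝ) (z : ℂ × ℂ) : ℂ × ℂ :=
  G m (min (cc t) (cl (min (3 * u) (3 - 3 * u)))) (cl (3 * u - 1)) (ee t) z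

lemma continuous_K (m : ℕ) : Continuous fun q : ℝ × ℝ × (ℂ × ℂ) => K m q.1 q.2.1 q.2.2 := by
  have h1 := continuous_cl
  have h2 := continuous_ee
  have h3 : Continuous cc := by unfold cc; fun_prop
  unfold K
  exact (continuous_G m).comp (f := fun q : ℝ × ℝ × (ℂ × ℂ) =>
    (min (cc q.2.1) (cl (min (3 * q.1) (3 - 3 * q.1))), cl (3 * q.1 - 1), ee q.2.1, q.2.2))
    (by fun_prop)

lemma K_smul (m : ℕ) (u t : ℝ) (z : ℂ × ℂ) (c : ℂ) :
    K m u t (c * z.1, c * z.2) = (c ^ (2 * m + 1) * (K m u t z).1, c ^ (2 * m + 1) * (K m u t z).2) :=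
  G_smul m _ _ _ c z

lemma K_eq_zero_iff (m : ℕ) (u t : ℝ) (z : ℂ × ℂ) : K m u t z = 0 ↔ z = 0 := by
  constructor
  · intro h
    refine G_ne_zero m _ _ (le_min (cl_nonneg _) (cl_nonneg _)) ((min_le_left _ _).trans (cl_le _)) _
      (norm_ee t) ?_ z h
    rcases le_or_gt u (1 / 3) with h1 | h1
    · left
      exact cl_of_le (by linarith)
    rcases le_or_gt (2 / 3) u with h2 | h2
    · right; left
      exact cl_of_ge (by linarith)
    rcases ee_sq_of_cc t with h3 | h3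
    · right; right; left
      have h4 : cl (min (3 * u) (3 - 3 * u)) = 1 := cl_of_ge (le_min (by linarith) (by linarith))
      change min (cc t) _ = 1
      rw [h3, h4, min_self]
    · right; right; right
      exact h3
  · rintro rfl
    have h := K_smul m u t (0, 0) 0
    simp only [mul_zero, ne_eq, Nat.add_eq_zero_iff, one_ne_zero, and_false,
      not_false_eq_true, zero_pow, zero_mul] at h
    exact h

/-- the value at `s = 0` -/
lemma mu_zero : mu 0 = 1 := by simp [mu]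

lemma two_pow_inv (m : ℕ) : ((2 : ℂ) ^ (2 * m))⁻¹ * 2 ^ (2 * m + 1) = 2 := by
  rw [pow_succ, ← mul_assoc, inv_mul_cancel₀ (pow_ne_zero _ two_ne_zero), one_mul]

lemma K_left (m : ℕ) (t : ℝ) (z : ℂ × ℂ) : K m 0 t z = Q (2 * m + 1) (R (ee t) z) := by
  have hs : min (cc t) (cl (min (3 * 0) (3 - 3 * 0))) = 0 := by
    rw [cl_of_le (x := min (3 * 0) (3 - 3 * 0)) (by norm_num)]
    exact min_eq_right (cl_nonneg _)
  have hr : cl (3 * 0 - 1) = 0 := cl_of_le (by norm_num)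
  unfold K
  rw [hs, hr]
  set e := ee t with he
  set U := z.1 + z.2 with hU
  set V := z.1 - z.2 with hV
  have i1 := ab_id m U (e * V)
  have i2 := ab_id' m U (e * V)
  rw [mul_pow] at i1 i2
  have c1 : U + e * V = 2 * (R e z).1 := by
    rw [hU, hV]; unfold R; ring
  have c2 : U - e * V = 2 * (R e z).2 := by
    rw [hU, hV]; unfold R; ring
  rw [c1, mul_pow] at i1
  rw [c2, mul_pow] at i2
  have h2 := two_pow_inv m
  unfold G GU GV Q
  rw [mu_zero, ← hU, ← hV]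
  simp only [one_mul, ofReal_zero, sub_zero, zero_mul, add_zero]
  ext
  · simp only
    linear_combination (-(1 / 2) * ((2 : ℂ) ^ (2 * m))⁻¹) * i1 + (1 / 2) * (R e z).1 ^ (2 * m + 1) * h2
  · simp only
    linear_combination (-(1 / 2) * ((2 : ℂ) ^ (2 * m))⁻¹) * i2 + (1 / 2) * (R e z).2 ^ (2 * m + 1) * h2

lemma G_zero_one (m : ℕ) (r : ℝ) (hr : r = 1) (e : ℂ) (z : ℂ × ℂ) :
    G m 0 r e z = R (e ^ (2 * m + 1)) (Q (2 * m + 1) z) := by
  subst hr
  set U := z.1 + z.2 with hU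
  set V := z.1 - z.2 with hV
  have i1 := ab_id m U V
  have i2 := ab_id' m U V
  have c1 : U + V = 2 * z.1 := by rw [hU, hV]; ring
  have c2 : U - V = 2 * z.2 := by rw [hU, hV]; ring
  rw [c1, mul_pow] at i1
  rw [c2, mul_pow] at i2
  have h2 := two_pow_inv m
  unfold G GU GV Q R
  rw [mu_zero, ← hU, ← hV]
  simp only [one_mul, ofReal_one, sub_self, zero_mul, zero_add]
  set a := (ab m (U ^ 2) (V ^ 2)).1 with ha
  set b := (ab m (U ^ 2) (V ^ 2)).2 with hb
  have ha' : U * a = (2 ^ (2 * m + 1) * z.1 ^ (2 * m + 1) + 2 ^ (2 * m + 1) * z.2 ^ (2 * m + 1)) / 2 := by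
    linear_combination (-1 / 2) * i1 - (1 / 2) * i2
  have hb' : V * b = (2 ^ (2 * m + 1) * z.1 ^ (2 * m + 1) - 2 ^ (2 * m + 1) * z.2 ^ (2 * m + 1)) / 2 := by
    linear_combination (-1 / 2) * i1 + (1 / 2) * i2
  have hb'' : e * V * (e ^ (2 * m) * b) = e ^ (2 * m + 1) * (V * b) := by ring
  rw [hb'', ha', hb']
  ext
  · simp only
    linear_combination (((1 + e ^ (2 * m + 1)) * z.1 ^ (2 * m + 1) +
      (1 - e ^ (2 * m + 1)) * z.2 ^ (2 * m + 1)) / 4) * h2
  · simp only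
    linear_combination (((1 - e ^ (2 * m + 1)) * z.1 ^ (2 * m + 1) +
      (1 + e ^ (2 * m + 1)) * z.2 ^ (2 * m + 1)) / 4) * h2

lemma G_indep (m : ℕ) (s r : ℝ) (e : ℂ) (he : e ^ 2 = 1) (z : ℂ × ℂ) : G m s r e z = G m s 1 e z := by
  have he2m : e ^ (2 * m) = 1 := by rw [pow_mul, he, one_pow]
  have h1 : GU m s r e (z.1 + z.2) (z.1 - z.2) = GU m s 1 e (z.1 + z.2) (z.1 - z.2) := by
    unfold GU
    rw [he]
    push_cast
    ring_nf
  have h2 : GV m r e (z.1 + z.2) (z.1 - z.2) = GV m 1 e (z.1 + z.2) (z.1 - z.2) := by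
    unfold GV
    rw [he, he2m]
    simp only [one_mul]
    push_cast
    ring
  unfold G
  rw [h1, h2]

lemma K_right (m : ℕ) (t : ℝ) (z : ℂ × ℂ) :
    K m 1 t z = R (ee t ^ (2 * m + 1)) (Q (2 * m + 1) z) := by
  have hs : min (cc t) (cl (min (3 * 1) (3 - 3 * 1))) = 0 := by
    rw [cl_of_le (x := min (3 * 1) (3 - 3 * 1)) (by norm_num)]
    exact min_eq_right (cl_nonneg _)
  unfold K
  rw [hs]
  exact G_zero_one m _ (cl_of_ge (by norm_num)) _ z

lemma R_one (z : ℂ × ℂ) : R 1 z = z := by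
  unfold R
  ext
  · simp only; ring
  · simp only; ring

lemma R_neg_one (z : ℂ × ℂ) : R (-1) z = z.swap := by
  unfold R
  ext
  · simp; ring
  · simp; ring

lemma ee_of_le {t : ℝ} (ht : t ≤ 1 / 3) : ee t = 1 := by
  unfold ee
  rw [cl_of_le (by linarith)]
  simp

lemma ee_of_ge {t : ℝ} (ht : 2 / 3 ≤ t) : ee t = -1 := by
  unfold ee
  rw [cl_of_ge (by linarith)]
  simp

lemma K_low (m : ℕ) (u t : ℝ) (ht : t ≤ 1 / 6) (z : ℂ × ℂ) : K m u t z = Q (2 * m + 1) z := by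
  have hs : min (cc t) (cl (min (3 * u) (3 - 3 * u))) = 0 := by
    have : cc t = 0 := cl_of_le ((min_le_left _ _).trans (by linarith))
    rw [this]
    exact min_eq_left (cl_nonneg _)
  unfold K
  rw [hs, ee_of_le (by linarith), G_indep m _ _ _ (by norm_num), G_zero_one m 1 rfl, one_pow, R_one]

lemma K_bot (m : ℕ) (u : ℝ) (z : ℂ × ℂ) : K m u 0 z = Q (2 * m + 1) z :=
  K_low m u 0 (by norm_num) z

lemma K_high (m : ℕ) (u t : ℝ) (ht : 5 / 6 ≤ t) (z : ℂ × ℂ) :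
    K m u t z = (Q (2 * m + 1) z).swap := by
  have hs : min (cc t) (cl (min (3 * u) (3 - 3 * u))) = 0 := by
    have : cc t = 0 := cl_of_le ((min_le_right _ _).trans (by linarith))
    rw [this]
    exact min_eq_left (cl_nonneg _)
  unfold K
  rw [hs, ee_of_ge (by linarith), G_indep m _ _ _ (by norm_num), G_zero_one m 1 rfl,
    Odd.neg_one_pow ⟨m, rfl⟩, R_neg_one]

lemma K_top (m : ℕ) (u : ℝ) (z : ℂ × ℂ) : K m u 1 z = (Q (2 * m + 1) z).swap :=
  K_high m u 1 (by norm_num) z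

end Pool.Agent.H.MP_5f9601_gt.K
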