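import Mathlib

/-!
# S13261, part (N): the hat construction

A family `f x : closed unit ball of V → G \ 0` that is constant `= e` on the unit sphere is the same
as a positively homogeneous family `V × ℝ → G` vanishing only at zero:
`hat e f x (v, τ) = ‖(v,τ)‖ • f x (2 v / (‖v‖ - τ))` for `τ ≤ -‖v‖`, `= ‖(v,τ)‖ • e` otherwise.
-/

set_option autoImplicit false
set_option linter.unusedSectionVars false

open Set Filter Topology Metric

namespace Pool.Agent.H.MP_5f9601_gt.U.N

variable {X V G : Type*} [NormedAddCommGroup V] [NormedSpace ℝ V]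
  [NormedAddCommGroup G] [NormedSpace ℝ G]

/-- the point of the ball that belongs to `(v, τ)` with `τ ≤ -‖v‖` -/
noncomputable def ub (w : V × ℝ) : V := (2 / (‖w.1‖ - w.2)) • w.1

theorem ub_norm_le {w : V × ℝ} (h : w.2 ≤ -‖w.1‖) : ‖ub w‖ ≤ 1 := by
  have h1 : 0 ≤ ‖w.1‖ := norm_nonneg _
  rw [ub, norm_smul, Real.norm_of_nonneg (div_nonneg zero_le_two (by linarith)), div_mul_eq_mul_div]
  apply div_le_one_of_le₀ <;> linarith

theorem ub_norm_eq {w : V × ℝ} (h : w.2 = -‖w.1‖) (hw : w ≠ 0) : ‖ub w‖ = 1 := by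
  have h1 : 0 ≤ ‖w.1‖ := norm_nonneg _
  have h2 : ‖w.1‖ ≠ 0 := by
    intro h3
    apply hw
    rw [h3, neg_zero] at h
    exact Prod.ext (norm_eq_zero.mp h3) h
  rw [ub, norm_smul, Real.norm_of_nonneg (div_nonneg zero_le_two (by linarith)), h]
  field_simp
  norm_num

/-- the hat construction -/
noncomputable def hat (e : G) (f : X → V → G) (x : X) (w : V × ℝ) : G :=
  ‖w‖ • (if w.2 ≤ -‖w.1‖ then f x (ub w) else e)

theorem hat_eq_zero_iff {e : G} {f : X → V → G} {x : X} (he0 : e ≠ 0)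
    (hf0 : ∀ v, ‖v‖ ≤ 1 → f x v ≠ 0) (w : V × ℝ) : hat e f x w = 0 ↔ w = 0 := by
  unfold hat
  constructor
  · intro h
    rcases smul_eq_zero.mp h with h1 | h1
    · exact norm_eq_zero.mp h1
    · exfalso
      split_ifs at h1 with h2
      · exact hf0 _ (ub_norm_le h2) h1
      · exact he0 h1
  · rintro rfl
    rw [norm_zero, zero_smul]

theorem hat_of_le {e : G} {f : X → V → G} {x : X} {w : V × ℝ} (h : w.2 ≤ -‖w.1‖) :
    hat e f x w = ‖w‖ • f x (ub w) := by
  unfold hat
  rw [if_pos h]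

theorem hat_of_ge {e : G} {f : X → V → G} {x : X} (he : ∀ v, ‖v‖ = 1 → f x v = e) {w : V × ℝ}
    (h : -‖w.1‖ ≤ w.2) : hat e f x w = ‖w‖ • e := by
  unfold hat
  split_ifs with h1
  · by_cases hw : w = 0
    · rw [hw, norm_zero, zero_smul, zero_smul]
    · rw [he _ (ub_norm_eq (le_antisymm h1 h) hw)]
  · rfl

/-- Functoriality: compatibility with norm preserving positively homogeneous maps. -/
theorem hat_comp {X' V' G' : Type*} [NormedAddCommGroup V'] [NormedSpace ℝ V']
    [NormedAddCommGroup G'] [NormedSpace ℝ G']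
    {e : G} {e' : G'} {f : X → V → G} {f' : X' → V' → G'} {x : X} {x' : X'}
    {α : V → V'} {L : G → G'} (hα : ∀ v, ‖α v‖ = ‖v‖) (hαr : ∀ r : ℝ, 0 ≤ r → ∀ v, α (r • v) = r • α v)
    (hLr : ∀ r : ℝ, 0 ≤ r → ∀ g, L (r • g) = r • L g) (hLe : L e = e')
    (h : ∀ v, ‖v‖ ≤ 1 → f' x' (α v) = L (f x v)) (w : V × ℝ) :
    hat e' f' x' (α w.1, w.2) = L (hat e f x w) := by
  have h1 : ‖((α w.1, w.2) : V' × ℝ)‖ = ‖w‖ := by
    rw [Prod.norm_def, Prod.norm_def, hα]
  unfold hat
  rw [h1, hα, hLr _ (norm_nonneg _)]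
  congr 1
  split_ifs with h2
  · rw [← h _ (ub_norm_le h2)]
    congr 1
    have h3 : 0 ≤ ‖w.1‖ := norm_nonneg _
    rw [ub, ub, hα, hαr _ (div_nonneg zero_le_two (by linarith))]
  · exact hLe.symm

/-- Gluing over two closed sets covering the space. -/
theorem continuous_glue {X Z : Type*} [TopologicalSpace X] [TopologicalSpace Z] {f : X → Z}
    {C1 C2 : Set X} (h1 : IsClosed C1) (h2 : IsClosed C2) (hc : C1 ∪ C2 = univ)
    (hf1 : ContinuousOn f C1) (hf2 : ContinuousOn f C2) : Continuous f := by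
  rw [← continuousOn_univ, ← hc]
  exact hf1.union_of_isClosed hf2 h1 h2

/-- Joint continuity of the hat. -/
theorem continuous_hat [TopologicalSpace X] [ProperSpace V] {e : G} {f : X → V → G}
    (hf : ContinuousOn (fun z : X × V => f z.1 z.2) {z | ‖z.2‖ ≤ 1})
    (he : ∀ x v, ‖v‖ = 1 → f x v = e) :
    Continuous (fun z : X × (V × ℝ) => hat e f z.1 z.2) := by
  apply continuous_glue (C1 := {z : X × (V × ℝ) | z.2.2 ≤ -‖z.2.1‖})
    (C2 := {z : X × (V × ℝ) | -‖z.2.1‖ ≤ z.2.2}) (isClosed_le (by fun_prop) (by fun_prop))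
    (isClosed_le (by fun_prop) (by fun_prop))
  · ext z
    simp only [mem_union, mem_ofPred_eq, mem_univ, iff_true]
    exact le_total _ _
  · have h1 : EqOn (fun z : X × (V × ℝ) => hat e f z.1 z.2)
        (fun z => ‖z.2‖ • f z.1 (ub z.2)) {z : X × (V × ℝ) | z.2.2 ≤ -‖z.2.1‖} := fun z hz =>
      hat_of_le hz
    refine ContinuousOn.congr ?_ h1
    rintro ⟨x0, v0, τ0⟩ hz0
    have hz0' : τ0 ≤ -‖v0‖ := hz0
    by_cases hd : ‖v0‖ - τ0 = 0
    · -- the centre
      have hv0 : v0 = 0 := by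
        have : ‖v0‖ ≤ 0 := by linarith
        exact norm_le_zero_iff.mp this
      have hτ0 : τ0 = 0 := by
        rw [hv0, norm_zero] at hd
        linarith
      subst hv0 hτ0
      -- local boundedness
      have hc : Continuous (fun z : X × closedBall (0 : V) 1 => f z.1 (z.2 : V)) := by
        have h2 : Continuous (fun z : X × closedBall (0 : V) 1 => ((z.1, (z.2 : V)) : X × V)) := by
          fun_prop
        have h3 := hf.comp_continuous h2 (fun z => by
          have := z.2.2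
          rwa [mem_closedBall_zero_iff] at this)
        exact h3
      obtain ⟨M, hM⟩ : ∃ M : ℝ, ∀ v : closedBall (0 : V) 1, ‖f x0 (v : V)‖ < M := by
        have h4 : Continuous (fun v : closedBall (0 : V) 1 => ‖f x0 (v : V)‖) :=
          (hc.comp (by fun_prop : Continuous (fun v : closedBall (0 : V) 1 => (x0, v)))).norm
        obtain ⟨M, hM⟩ := (isCompact_range h4).bddAbove
        exact ⟨M + 1, fun v => by have := hM ⟨v, rfl⟩; linarith⟩
      have hev : ∀ᶠ x in 𝓝 x0, ∀ v ∈ (univ : Set (closedBall (0 : V) 1)), ‖f x (v : V)‖ < M := by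
        apply isCompact_univ.eventually_forall_of_forall_eventually
        intro v _
        exact (hc.norm.tendsto (x0, v)).eventually_lt_const (hM v)
      rw [ContinuousWithinAt]
      have h5 : ‖((x0, ((0 : V), (0 : ℝ))) : X × (V × ℝ)).2‖ •
          f ((x0, ((0 : V), (0 : ℝ))) : X × (V × ℝ)).1 (ub ((x0, ((0 : V), (0 : ℝ))) : X × (V × ℝ)).2)
          = 0 := by
        have : ‖((x0, ((0 : V), (0 : ℝ))) : X × (V × ℝ)).2‖ = 0 := by simp
        rw [this, zero_smul]
      rw [h5]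
      have h6 : Tendsto (fun z : X × (V × ℝ) => ‖z.2‖ * M)
          (𝓝[{z : X × (V × ℝ) | z.2.2 ≤ -‖z.2.1‖}] (x0, ((0 : V), (0 : ℝ)))) (𝓝 0) := by
        have h7 : Continuous (fun z : X × (V × ℝ) => ‖z.2‖ * M) := by fun_prop
        have h8 := h7.tendsto (x0, ((0 : V), (0 : ℝ)))
        simp only [Prod.mk_zero_zero, norm_zero, zero_mul] at h8
        exact h8.mono_left nhdsWithin_le_nhds
      apply squeeze_zero_norm' _ h6
      have hev2 : ∀ᶠ z : X × (V × ℝ) in 𝓝[{z : X × (V × ℝ) | z.2.2 ≤ -‖z.2.1‖}]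
          (x0, ((0 : V), (0 : ℝ))), ∀ v : closedBall (0 : V) 1, ‖f z.1 (v : V)‖ < M := by
        have h9 : Tendsto (fun z : X × (V × ℝ) => z.1)
            (𝓝[{z : X × (V × ℝ) | z.2.2 ≤ -‖z.2.1‖}] (x0, ((0 : V), (0 : ℝ)))) (𝓝 x0) :=
          (continuous_fst.tendsto _).mono_left nhdsWithin_le_nhds
        filter_upwards [h9.eventually hev] with z hz v
        exact hz v (mem_univ _)
      filter_upwards [hev2, self_mem_nhdsWithin] with z hz1 hz2
      rw [norm_smul, norm_norm]
      have hz3 : ‖ub z.2‖ ≤ 1 := ub_norm_le hz2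
      exact mul_le_mul_of_nonneg_left
        (hz1 ⟨ub z.2, by rwa [mem_closedBall_zero_iff]⟩).le (norm_nonneg _)
    · -- away from the centre
      have h2 : ContinuousWithinAt (fun z : X × (V × ℝ) => ((z.1, ub z.2) : X × V))
          {z : X × (V × ℝ) | z.2.2 ≤ -‖z.2.1‖} (x0, (v0, τ0)) := by
        apply ContinuousWithinAt.prodMk continuous_fst.continuousWithinAt
        apply ContinuousAt.continuousWithinAt
        unfold ub
        apply ContinuousAt.smul
        · apply ContinuousAt.div (by fun_prop) (by fun_prop)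
          exact hd
        · fun_prop
      have h3 : ContinuousWithinAt (fun z : X × (V × ℝ) => f z.1 (ub z.2))
          {z : X × (V × ℝ) | z.2.2 ≤ -‖z.2.1‖} (x0, (v0, τ0)) :=
        ContinuousWithinAt.comp (g := fun z : X × V => f z.1 z.2)
          (f := fun z : X × (V × ℝ) => ((z.1, ub z.2) : X × V))
          (t := {z : X × V | ‖z.2‖ ≤ 1}) (hf (x0, ub (v0, τ0)) (ub_norm_le hz0')) h2
          (fun z hz => ub_norm_le hz)
      exact ContinuousWithinAt.smul (by fun_prop) h3
  · have h1 : EqOn (fun z : X × (V × ℝ) => hat e f z.1 z.2)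
        (fun z => ‖z.2‖ • e) {z : X × (V × ℝ) | -‖z.2.1‖ ≤ z.2.2} := fun z hz =>
      hat_of_ge (he z.1) hz
    refine ContinuousOn.congr ?_ h1
    fun_prop

/-- The representative of the inclusion on the ball: `v ↦ (1-‖v‖) J v + (2‖v‖-1) e`. -/
noncomputable def pib (e : G) (J : V → G) (v : V) : G := (1 - ‖v‖) • J v + (2 * ‖v‖ - 1) • e

/-- The straight line from the inclusion `(v,τ) ↦ J v + τ e` to the hat of `pib` vanishes only at
zero. -/
theorem line_ne_zero {e : G} {J : V → G} (hJr : ∀ r : ℝ, 0 ≤ r → ∀ v, J (r • v) = r • J v)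
    (hJ : ∀ v (τ : ℝ), J v + τ • e = 0 → v = 0 ∧ τ = 0) (x : X) {t : ℝ} (ht0 : 0 ≤ t)
    (ht1 : t ≤ 1) (w : V × ℝ)
    (h : (1 - t) • (J w.1 + w.2 • e) + t • hat e (fun _ : X => pib e J) x w = 0) : w = 0 := by
  have hJ0 : J 0 = 0 := by
    have := hJr 0 le_rfl 0
    rwa [zero_smul, zero_smul] at this
  have he1 : ∀ v : V, ‖v‖ = 1 → pib e J v = e := by
    intro v hv
    rw [pib, hv]
    norm_num
  by_contra hw
  have hwn : 0 < ‖w‖ := norm_pos_iff.mpr hw
  have hv0 : 0 ≤ ‖w.1‖ := norm_nonneg _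
  -- both summands are combinations `a J v + b e`
  have key : ∀ a b : ℝ, 0 ≤ a → (a • J w.1 + b • e = 0) → (a • w.1 = 0 ∧ b = 0) := by
    intro a b ha h1
    have := hJ (a • w.1) b (by rw [hJr a ha]; exact h1)
    exact this
  rcases le_total w.2 (-‖w.1‖) with h1 | h1
  · rw [hat_of_le h1, pib] at h
    set r : ℝ := 2 / (‖w.1‖ - w.2) with hr
    have hr0 : 0 ≤ r := div_nonneg zero_le_two (by linarith)
    have hub : ub w = r • w.1 := rfl
    have hubn : ‖ub w‖ ≤ 1 := ub_norm_le h1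
    rw [hub, hJr r hr0, ← hub] at h
    have h2 : ((1 - t) + t * ‖w‖ * (1 - ‖ub w‖) * r) • J w.1
        + ((1 - t) * w.2 + t * ‖w‖ * (2 * ‖ub w‖ - 1)) • e = 0 := by
      rw [← h]
      module
    have hc0 : 0 ≤ t * ‖w‖ * (1 - ‖ub w‖) * r := by
      have : 0 ≤ 1 - ‖ub w‖ := by linarith
      positivity
    obtain ⟨h3, h4⟩ := key _ _ (by linarith) h2
    by_cases hv : w.1 = 0
    · have hub0 : ub w = 0 := by rw [hub, hv, smul_zero]
      rw [hub0, norm_zero] at h4
      have h5 : w.2 < 0 := by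
        rcases lt_or_eq_of_le h1 with h6 | h6
        · rw [hv, norm_zero, neg_zero] at h6
          exact h6
        · exfalso
          apply hw
          rw [hv, norm_zero, neg_zero] at h6
          exact Prod.ext hv h6
      have h6 : t * ‖w‖ * (2 * 0 - 1) = -(t * ‖w‖) := by ring
      rw [h6] at h4
      rcases eq_or_lt_of_le ht1 with h7 | h7
      · rw [h7] at h4
        simp only [sub_self, zero_mul, one_mul, zero_add] at h4
        linarith
      · have h8 : (1 - t) * w.2 < 0 := mul_neg_of_pos_of_neg (by linarith) h5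
        have h9 : 0 ≤ t * ‖w‖ := by positivity
        linarith
    · have h5 : (1 - t) + t * ‖w‖ * (1 - ‖ub w‖) * r = 0 := (smul_eq_zero.mp h3).resolve_right hv
      have h6 : t = 1 := by linarith
      have h7 : t * ‖w‖ * (1 - ‖ub w‖) * r = 0 := by linarith
      have hvn : 0 < ‖w.1‖ := norm_pos_iff.mpr hv
      have hrp : 0 < r := div_pos two_pos (by linarith)
      have h8 : 1 - ‖ub w‖ = 0 := by
        rw [h6, one_mul] at h7
        have h9 := (mul_eq_zero.mp h7).resolve_right hrp.ne'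
        exact (mul_eq_zero.mp h9).resolve_left hwn.ne'
      have h9 : ‖ub w‖ = 1 := by linarith
      rw [h6, h9] at h4
      norm_num at h4
      exact hw h4
  · rw [hat_of_ge (f := fun _ : X => pib e J) (fun v hv => he1 v hv) h1] at h
    have h2 : (1 - t) • J w.1 + ((1 - t) * w.2 + t * ‖w‖) • e = 0 := by
      rw [← h]
      module
    obtain ⟨h3, h4⟩ := key _ _ (by linarith) h2
    by_cases hv : w.1 = 0
    · rw [hv, norm_zero, neg_zero] at h1
      have h5 : w.2 ≠ 0 := fun h6 => hw (Prod.ext hv h6)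
      have h6 : 0 < w.2 := lt_of_le_of_ne h1 (Ne.symm h5)
      have h7 : 0 ≤ (1 - t) * w.2 := mul_nonneg (by linarith) h6.le
      have h8 : 0 ≤ t * ‖w‖ := by positivity
      have h9 : t * ‖w‖ = 0 := by linarith
      have h10 : t = 0 := (mul_eq_zero.mp h9).resolve_right hwn.ne'
      rw [h10] at h4
      simp only [sub_zero, one_mul, zero_mul, add_zero] at h4
      exact h5 h4
    · have h5 : 1 - t = 0 := (smul_eq_zero.mp h3).resolve_right hv
      rw [h5, zero_mul, zero_add] at h4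
      have h6 : t = 1 := by linarith
      rw [h6, one_mul] at h4
      exact hwn.ne' h4

end Pool.Agent.H.MP_5f9601_gt.U.N
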