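import Pool.Agent.H.MP_5f9601_gt.U.FJO

/-!
MP_5f9601, section 4: loops given by formulas, homotopies given by formulas, and the class `y`.

* `loopOf`, `homotopic_of_formula`: generic for every `Ctx`.
* `piV w = ((1 - |w|) w, 2 |w| - 1)`: the standard map of the unit ball to the values (`e` on the unit sphere, never `0`).
* `yloop`: the loop `(s0,s1) ↦ piV (![psi (l^e) z, 0], s, ![2 k0 - 1, 2 s0 - 1, 2 s1 - 1])`.
-/

set_option autoImplicit false

open Set Topology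
open scoped unitInterval

namespace MP5f.S4

/-! ### loops and homotopies given by formulas -/

section loops

variable {P V : Type} [TopologicalSpace P] [NormedAddCommGroup V]

/-- a double loop given by a jointly continuous formula -/
def loopOf (c : Ctx P V) (Θ : (Fin 2 → I) → P → V)
    (hc : Continuous (fun q : (Fin 2 → I) × P => Θ q.1 q.2))
    (h0 : ∀ s p, Θ s p ≠ 0) (hb : ∀ s p, c.P0 p → Θ s p = c.e) (hE : ∀ s, c.E (Θ s))
    (hbd : ∀ s ∈ Cube.boundary (Fin 2), ∀ p, Θ s p = c.e) : GenLoop (Fin 2) c.FS c.pt :=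
  ⟨{ toFun := fun s => ⟨⟨Θ s, hc.comp (Continuous.prodMk_right s)⟩, h0 s, hb s, hE s⟩
     continuous_toFun := by
       refine continuous_induced_rng.2 ?_
       exact ContinuousMap.continuous_of_continuous_uncurry
         (fun s : Fin 2 → I => (⟨Θ s, hc.comp (Continuous.prodMk_right s)⟩ : C(P, V))) hc },
    fun s hs => Ctx.FS.ext (hbd s hs)⟩

theorem loopOf_apply (c : Ctx P V) (Θ : (Fin 2 → I) → P → V)
    (hc : Continuous (fun q : (Fin 2 → I) × P => Θ q.1 q.2))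
    (h0 : ∀ s p, Θ s p ≠ 0) (hb : ∀ s p, c.P0 p → Θ s p = c.e) (hE : ∀ s, c.E (Θ s))
    (hbd : ∀ s ∈ Cube.boundary (Fin 2), ∀ p, Θ s p = c.e) (s : Fin 2 → I) (p : P) :
    (loopOf c Θ hc h0 hb hE hbd) s p = Θ s p := rfl

/-- a homotopy of double loops given by a jointly continuous formula -/
theorem homotopic_of_formula {c : Ctx P V} (Θ : I → (Fin 2 → I) → P → V)
    (hc : Continuous (fun q : (I × (Fin 2 → I)) × P => Θ q.1.1 q.1.2 q.2))
    (h0 : ∀ t s p, Θ t s p ≠ 0) (hb : ∀ t s p, c.P0 p → Θ t s p = c.e) (hE : ∀ t s, c.E (Θ t s))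
    (hbd : ∀ t, ∀ s ∈ Cube.boundary (Fin 2), ∀ p, Θ t s p = c.e)
    (f g : GenLoop (Fin 2) c.FS c.pt) (hf : ∀ s p, f s p = Θ 0 s p)
    (hg : ∀ s p, g s p = Θ 1 s p) : GenLoop.Homotopic f g := by
  have hct : ∀ q : I × (Fin 2 → I), Continuous (Θ q.1 q.2) :=
    fun q => hc.comp (Continuous.prodMk_right q)
  refine ⟨{ toFun := fun q => ⟨⟨Θ q.1 q.2, hct q⟩, h0 q.1 q.2, hb q.1 q.2, hE q.1 q.2⟩
            continuous_toFun := ?_
            map_zero_left := fun s => Ctx.FS.ext fun p => (hf s p).symm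
            map_one_left := fun s => Ctx.FS.ext fun p => (hg s p).symm
            prop' := ?_ }⟩
  · refine continuous_induced_rng.2 ?_
    exact ContinuousMap.continuous_of_continuous_uncurry
      (fun q : I × (Fin 2 → I) => (⟨Θ q.1 q.2, hct q⟩ : C(P, V))) hc
  · intro t s hs
    refine Ctx.FS.ext fun p => ?_
    show Θ t s p = f s p
    rw [hf, hbd t s hs, hbd 0 s hs]

theorem genLoop_ext {c : Ctx P V} {f g : GenLoop (Fin 2) c.FS c.pt}
    (h : ∀ s p, f s p = g s p) : f = g :=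
  Subtype.ext (ContinuousMap.ext fun s => Ctx.FS.ext (h s))

end loops

/-! ### the standard map of the ball -/

section piV

variable {be c : ℕ}

/-- the unit ball of this space is the source of `piV` -/
abbrev VV (be c : ℕ) : Type := (Fin be → ℂ) × (Fin c → ℂ) × (Fin 3 → ℝ)

/-- the standard map of the ball to the values -/
noncomputable def piV (w : VV be c) : V be c := ((1 - ‖w‖) • w, 2 * ‖w‖ - 1)

theorem continuous_piV : Continuous (piV : VV be c → V be c) := by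
  unfold piV
  fun_prop

theorem piV_ne (w : VV be c) : piV w ≠ 0 := by
  intro h
  have h1 : (1 - ‖w‖) • w = 0 := congrArg Prod.fst h
  have h2 : 2 * ‖w‖ - 1 = 0 := congrArg Prod.snd h
  rcases smul_eq_zero.1 h1 with h3 | h3
  · linarith
  · rw [h3, norm_zero] at h2
    norm_num at h2

theorem piV_unit {w : VV be c} (h : ‖w‖ = 1) : piV w = ebase be c := by
  unfold piV ebase
  rw [h, sub_self, zero_smul]
  norm_num

theorem norm_rotw (b : Fin be → ℕ) {t : ℂ} (ht : ‖t‖ = 1) (w : VV be c) :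
    ‖((rot b t w.1, w.2) : VV be c)‖ = ‖w‖ := by
  rw [Prod.norm_def, norm_rot b ht, ← Prod.norm_def]

theorem rotV_piV (b : Fin be → ℕ) {t : ℂ} (ht : ‖t‖ = 1) (w : VV be c) :
    rotV b t (piV w) = piV (rot b t w.1, w.2) := by
  unfold piV rotV
  rw [norm_rotw b ht]
  refine Prod.ext (Prod.ext (funext fun j => ?_) rfl) rfl
  show t ^ b j * ((1 - ‖w‖) • w).1 j = ((1 - ‖w‖) • ((rot b t w.1, w.2) : VV be c)).1 j
  simp only [Prod.smul_fst, Pi.smul_apply, Complex.real_smul, rot]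
  ring

theorem norm_psw (l : ℕ) (w : VV be c) : ‖((psv l w.1, w.2) : VV be c)‖ = ‖w‖ := by
  rw [Prod.norm_def, norm_psv, ← Prod.norm_def]

theorem psV_piV (l : ℕ) {w : VV be c} (hw : ‖w‖ ≤ 1) :
    psV l (piV w) = piV (psv l w.1, w.2) := by
  unfold piV psV
  rw [norm_psw]
  refine Prod.ext (Prod.ext ?_ rfl) rfl
  have h := psv_rsmul l (r := 1 - ‖w‖) (by linarith) w.1
  have h1 : ((1 - ‖w‖) • w).1 = (((1 - ‖w‖ : ℝ) : ℂ)) • w.1 := by
    funext j
    simp only [Prod.smul_fst, Pi.smul_apply, Complex.real_smul, smul_eq_mul]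
  have h2 : ((1 - ‖w‖) • ((psv l w.1, w.2) : VV be c)).1 = (((1 - ‖w‖ : ℝ) : ℂ)) • psv l w.1 := by
    funext j
    simp only [Prod.smul_fst, Pi.smul_apply, Complex.real_smul, smul_eq_mul]
  rw [h1, h2]
  exact h

end piV

/-! ### the class `y` -/

section y

/-- the real parameter if there is exactly one, and `0` otherwise -/
noncomputable def k0 {ρ : ℕ} (k : Cu ρ) : ℝ := if h : ρ = 1 then (k ⟨0, by omega⟩ : ℝ) else 0

theorem continuous_k0 {ρ : ℕ} : Continuous (k0 : Cu ρ → ℝ) := by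
  unfold k0
  split_ifs
  · fun_prop
  · fun_prop

theorem k0_one (k : Cu 1) : k0 k = (k 0 : ℝ) := by
  unfold k0
  rw [dif_pos rfl]
  rfl

theorem k0_of_ne {ρ : ℕ} (h : ρ ≠ 1) (k : Cu ρ) : k0 k = 0 := by
  unfold k0
  rw [dif_neg h]

theorem k0_nonneg {ρ : ℕ} (k : Cu ρ) : 0 ≤ k0 k := by
  unfold k0
  split_ifs
  · exact (k _).2.1
  · exact le_rfl

theorem k0_le_one {ρ : ℕ} (k : Cu ρ) : k0 k ≤ 1 := by
  unfold k0
  split_ifs
  · exact (k _).2.2
  · exact zero_le_one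

theorem k0_bd {ρ : ℕ} {k : Cu ρ} (h : Par.bd k) : k0 k = 0 ∨ k0 k = 1 := by
  unfold k0
  split_ifs with h1
  · subst h1
    obtain ⟨i, hi⟩ := h
    have h2 : i = ⟨0, by omega⟩ := Subsingleton.elim _ _
    rw [h2] at hi
    rcases hi with hi | hi
    · left
      rw [hi]
      rfl
    · right
      rw [hi]
      rfl
  · exact Or.inl rfl

/-- the three real coordinates, rescaled to `[-1,1]` -/
noncomputable def rv {ρ : ℕ} (k : Cu ρ) (s : Fin 2 → I) : Fin 3 → ℝ :=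
  ![2 * k0 k - 1, 2 * (s 0 : ℝ) - 1, 2 * (s 1 : ℝ) - 1]

theorem continuous_rv {ρ : ℕ} : Continuous (fun q : Cu ρ × (Fin 2 → I) => rv q.1 q.2) := by
  refine continuous_pi fun j => ?_
  have h := (continuous_k0 (ρ := ρ)).comp (continuous_fst (X := Cu ρ) (Y := Fin 2 → I))
  fin_cases j
  · exact (continuous_const.mul h).sub continuous_const
  · show Continuous fun q : Cu ρ × (Fin 2 → I) => 2 * ((q.2 0 : I) : ℝ) - 1
    fun_prop
  · show Continuous fun q : Cu ρ × (Fin 2 → I) => 2 * ((q.2 1 : I) : ℝ) - 1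
    fun_prop

theorem abs_resc_le {r : ℝ} (h0 : 0 ≤ r) (h1 : r ≤ 1) : |2 * r - 1| ≤ 1 := by
  rw [abs_le]
  constructor <;> linarith

theorem norm_rv_le {ρ : ℕ} (k : Cu ρ) (s : Fin 2 → I) : ‖rv k s‖ ≤ 1 := by
  rw [pi_norm_le_iff_of_nonneg zero_le_one]
  intro j
  rw [Real.norm_eq_abs]
  fin_cases j
  · exact abs_resc_le (k0_nonneg k) (k0_le_one k)
  · exact abs_resc_le (s 0).2.1 (s 0).2.2
  · exact abs_resc_le (s 1).2.1 (s 1).2.2

theorem norm_rv_eq {ρ : ℕ} {k : Cu ρ} {s : Fin 2 → I} {j : Fin 3} (h : |rv k s j| = 1) :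
    ‖rv k s‖ = 1 := by
  refine le_antisymm (norm_rv_le k s) ?_
  rw [← h, ← Real.norm_eq_abs]
  exact norm_le_pi_norm (rv k s) j

theorem norm_rv_bd {ρ : ℕ} {k : Cu ρ} (s : Fin 2 → I) (h : Par.bd k) : ‖rv k s‖ = 1 := by
  apply norm_rv_eq (j := 0)
  show |2 * k0 k - 1| = 1
  rcases k0_bd h with h | h <;> rw [h] <;> norm_num

theorem norm_rv_of_ne {ρ : ℕ} (hρ : ρ ≠ 1) (k : Cu ρ) (s : Fin 2 → I) : ‖rv k s‖ = 1 := by
  apply norm_rv_eq (j := 0)
  show |2 * k0 k - 1| = 1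
  rw [k0_of_ne hρ]
  norm_num

theorem norm_rv_boundary {ρ : ℕ} (k : Cu ρ) {s : Fin 2 → I} (hs : s ∈ Cube.boundary (Fin 2)) :
    ‖rv k s‖ = 1 := by
  obtain ⟨i, hi⟩ := hs
  have h2 : |2 * (s i : ℝ) - 1| = 1 := by
    rcases hi with hi | hi
    · rw [hi]
      norm_num
    · rw [hi]
      norm_num
  fin_cases i
  · exact norm_rv_eq (j := 1) h2
  · exact norm_rv_eq (j := 2) h2

/-- the weights of the source -/
def aw (q : ℕ) : Fin 1 → ℕ := ![q]

/-- the weights of the values -/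
def bw (p q l e : ℕ) : Fin 2 → ℕ := ![q * l ^ e, p * l ^ e]

/-- the point of the ball -/
noncomputable def yw {c ρ : ℕ} (l e : ℕ) (v : Ball 1 c) (k : Cu ρ) (s : Fin 2 → I) : VV 2 c :=
  (![psi (l ^ e) ((v : W 1 c).1 0), 0], (v : W 1 c).2, rv k s)

variable {c ρ : ℕ}

theorem norm_psi_zero (m : ℕ) (z : Fin 1 → ℂ) : ‖(![psi m (z 0), 0] : Fin 2 → ℂ)‖ = ‖z‖ := by
  apply le_antisymm
  · rw [pi_norm_le_iff_of_nonneg (norm_nonneg _)]
    intro j
    fin_cases j
    · show ‖psi m (z 0)‖ ≤ ‖z‖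
      rw [norm_psi]
      exact norm_le_pi_norm z 0
    · show ‖(0 : ℂ)‖ ≤ ‖z‖
      rw [norm_zero]
      exact norm_nonneg _
  · rw [pi_norm_le_iff_of_nonneg (norm_nonneg _)]
    intro j
    rw [Subsingleton.elim j 0, ← norm_psi m (z 0)]
    exact norm_le_pi_norm (![psi m (z 0), 0] : Fin 2 → ℂ) 0

theorem norm_yw (l e : ℕ) (v : Ball 1 c) (k : Cu ρ) (s : Fin 2 → I) :
    ‖yw l e v k s‖ = max ‖(v : W 1 c)‖ ‖rv k s‖ := by
  unfold yw
  rw [Prod.norm_def, Prod.norm_def, Prod.norm_def]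
  simp only
  rw [norm_psi_zero, max_assoc]

theorem norm_ball_le {al : ℕ} (v : Ball al c) : ‖(v : W al c)‖ ≤ 1 := mem_closedBall_zero_iff.1 v.2

theorem norm_yw_le (l e : ℕ) (v : Ball 1 c) (k : Cu ρ) (s : Fin 2 → I) : ‖yw l e v k s‖ ≤ 1 := by
  rw [norm_yw]
  exact max_le (norm_ball_le v) (norm_rv_le k s)

theorem norm_yw_of_rv (l e : ℕ) (v : Ball 1 c) {k : Cu ρ} {s : Fin 2 → I} (h : ‖rv k s‖ = 1) :
    ‖yw l e v k s‖ = 1 := by
  rw [norm_yw, h]
  exact max_eq_right (norm_ball_le v)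

theorem norm_yw_of_ball (l e : ℕ) {v : Ball 1 c} (k : Cu ρ) (s : Fin 2 → I)
    (h : ‖(v : W 1 c)‖ = 1) : ‖yw l e v k s‖ = 1 := by
  rw [norm_yw, h]
  exact max_eq_left (norm_rv_le k s)

theorem continuous_yw (l e : ℕ) :
    Continuous (fun q : (Ball 1 c × Cu ρ) × (Fin 2 → I) => yw l e q.1.1 q.1.2 q.2) := by
  unfold yw
  refine Continuous.prodMk ?_ (Continuous.prodMk (by fun_prop) ?_)
  · refine continuous_pi fun j => ?_
    fin_cases j
    · show Continuous fun q : (Ball 1 c × Cu ρ) × (Fin 2 → I) =>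
        psi (l ^ e) ((q.1.1 : W 1 c).1 0)
      exact (continuous_psi _).comp (by fun_prop)
    · exact continuous_const
  · exact continuous_rv.comp (f := fun q : (Ball 1 c × Cu ρ) × (Fin 2 → I) => (q.1.2, q.2))
      (by fun_prop)

theorem yw_rot (p q l e : ℕ) {t : ℂ} (ht : ‖t‖ = 1) {v v' : Ball 1 c} (k : Cu ρ) (s : Fin 2 → I)
    (h : (v' : W 1 c) = (rot (aw q) t (v : W 1 c).1, (v : W 1 c).2)) :
    yw l e v' k s = (rot (bw p q l e) t (yw l e v k s).1, (yw l e v k s).2) := by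
  unfold yw
  rw [h]
  refine Prod.ext (funext fun j => ?_) rfl
  fin_cases j
  · show psi (l ^ e) (t ^ q * (v : W 1 c).1 0) = t ^ (q * l ^ e) * psi (l ^ e) ((v : W 1 c).1 0)
    rw [psi_mul _ (by rw [norm_pow, ht, one_pow]), pow_mul]
  · show (0 : ℂ) = t ^ (p * l ^ e) * 0
    rw [mul_zero]

/-- the loop which represents `y` -/
noncomputable def yloop (N i p q l e c ρ : ℕ) :
    GenLoop (Fin 2) (YC N i (aw q) (bw p q l e) c (Cu ρ)).FS
      (YC N i (aw q) (bw p q l e) c (Cu ρ)).pt :=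
  loopOf _ (fun s p => piV (yw l e p.2.1 p.2.2 s))
    (continuous_piV.comp ((continuous_yw l e).comp
      (f := fun q : (Fin 2 → I) × (X N i × Ball 1 c × Cu ρ) => ((q.2.2.1, q.2.2.2), q.1))
      (by fun_prop)))
    (fun s p => piV_ne _)
    (fun s p hp => piV_unit (by
      rcases hp with h | h
      · exact norm_yw_of_ball l e _ _ h
      · exact norm_yw_of_rv l e _ (norm_rv_bd s h)))
    (fun s t ht p' p'' _ h2 h3 => by
      show piV (yw l e p''.2.1 p''.2.2 s) = rotV _ t (piV (yw l e p'.2.1 p'.2.2 s))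
      rw [rotV_piV _ ht, h3, yw_rot p q l e ht _ s h2])
    (fun s hs p => piV_unit (norm_yw_of_rv l e _ (norm_rv_boundary _ hs)))

theorem yloop_apply (N i p q l e c ρ : ℕ) (s : Fin 2 → I) (x : X N i × Ball 1 c × Cu ρ) :
    (yloop N i p q l e c ρ) s x = piV (yw l e x.2.1 x.2.2 s) := rfl

end y

end MP5f.S4
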