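import Mathlib
import Pool.Agent.H.MP_5f9601_gt.U.YDef
import Pool.Agent.H.MP_5f9601_gt.U.NHat

/-!
# S13261, part (N): double loops of maps as families over the ball, and their hats
-/

set_option autoImplicit false
set_option linter.unusedSectionVars false

open Set Filter Topology Metric MP5f.S4
open scoped unitInterval

namespace Pool.Agent.H.MP_5f9601_gt.U.N

/-- the space of all source parameters: `(z, s)` and three real coordinates -/
abbrev Vs (c : ℕ) : Type := W 1 c × (Fin 3 → ℝ)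

/-- radial retraction to the unit ball -/
noncomputable def ret {al c : ℕ} (w : W al c) : Ball al c :=
  ⟨(max 1 ‖w‖)⁻¹ • w, by
    rw [mem_closedBall_zero_iff, norm_smul, norm_inv,
      Real.norm_of_nonneg (zero_le_one.trans (le_max_left _ _)), inv_mul_eq_div]
    exact div_le_one_of_le₀ (le_max_right _ _) (zero_le_one.trans (le_max_left _ _))⟩

theorem continuous_ret {al c : ℕ} : Continuous (ret : W al c → Ball al c) := by
  apply Continuous.subtype_mk
  have h1 : Continuous (fun w : W al c => (max 1 ‖w‖)⁻¹) := by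
    apply Continuous.inv₀ (by fun_prop)
    intro w
    exact (lt_of_lt_of_le one_pos (le_max_left _ _)).ne'
  exact h1.smul continuous_id

theorem ret_coe {al c : ℕ} {w : W al c} (h : ‖w‖ ≤ 1) : ((ret w : Ball al c) : W al c) = w := by
  show (max 1 ‖w‖)⁻¹ • w = w
  rw [max_eq_left h, inv_one, one_smul]

/-- `[-1,1] → [0,1]` -/
noncomputable def uI (r : ℝ) : I := projIcc 0 1 zero_le_one ((r + 1) / 2)

theorem continuous_uI : Continuous uI := continuous_projIcc.comp (by fun_prop)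

theorem uI_coe {r : ℝ} (h : |r| ≤ 1) : ((uI r : I) : ℝ) = (r + 1) / 2 := by
  rw [abs_le] at h
  have h1 : (r + 1) / 2 ∈ Icc (0 : ℝ) 1 := ⟨by linarith [h.1], by linarith [h.2]⟩
  rw [uI, projIcc_of_mem _ h1]

theorem uI_one : uI 1 = 1 := by
  apply Subtype.ext
  rw [uI_coe (by norm_num)]
  norm_num

theorem uI_neg_one : uI (-1) = 0 := by
  apply Subtype.ext
  rw [uI_coe (by norm_num)]
  norm_num

/-- the loop coordinates -/
noncomputable def th {c : ℕ} (v : Vs c) : Fin 2 → I := fun i => uI (v.2 (Fin.succ i))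

/-- the radius coordinate -/
noncomputable def rho {c : ℕ} (v : Vs c) : Cu 1 := fun _ => uI (v.2 0)

theorem continuous_th {c : ℕ} : Continuous (th : Vs c → Fin 2 → I) :=
  continuous_pi fun i => continuous_uI.comp (by fun_prop)

theorem continuous_rho {c : ℕ} : Continuous (rho : Vs c → Cu 1) :=
  continuous_pi fun _ => continuous_uI.comp (by fun_prop)

/-- A double loop of maps as a family over the ball of `Vs c`. -/
noncomputable def fam {T G : Type*} {N c : ℕ}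
    (Φ : T → (Fin 2 → I) → (X N N × Ball 1 c × Cu 1) → G) (b : T × X N N) (v : Vs c) : G :=
  Φ b.1 (th v) (b.2, ret v.1, rho v)

theorem continuous_fam {T G : Type*} [TopologicalSpace T] [TopologicalSpace G] {N c : ℕ}
    {Φ : T → (Fin 2 → I) → (X N N × Ball 1 c × Cu 1) → G}
    (hΦ : Continuous (fun z : T × (Fin 2 → I) × (X N N × Ball 1 c × Cu 1) => Φ z.1 z.2.1 z.2.2)) :
    Continuous (fun z : (T × X N N) × Vs c => fam Φ z.1 z.2) := by
  unfold fam
  have h1 := @continuous_th c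
  have h2 := @continuous_rho c
  have h3 := @continuous_ret 1 c
  exact hΦ.comp (f := fun z : (T × X N N) × Vs c =>
    (z.1.1, th z.2, (z.1.2, ret z.2.1, rho z.2))) (by fun_prop)

theorem exists_abs_eq_one {r : Fin 3 → ℝ} (h : ‖r‖ = 1) : ∃ i, r i = 1 ∨ r i = -1 := by
  by_contra h2
  push Not at h2
  have h3 : ‖r‖ < 1 := by
    rw [pi_norm_lt_iff one_pos]
    intro i
    have h4 : ‖r i‖ ≤ 1 := h ▸ norm_le_pi_norm r i
    rw [Real.norm_eq_abs] at h4 ⊢
    rcases lt_or_eq_of_le h4 with h5 | h5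
    · exact h5
    · exfalso
      rcases (abs_eq zero_le_one).mp h5 with h6 | h6
      · exact (h2 i).1 h6
      · exact (h2 i).2 h6
  rw [h] at h3
  exact lt_irrefl _ h3

theorem uI_of_eq {r : ℝ} (h : r = 1 ∨ r = -1) : uI r = 0 ∨ uI r = 1 := by
  rcases h with rfl | rfl
  · exact Or.inr uI_one
  · exact Or.inl uI_neg_one

/-- the family is constant on the unit sphere -/
theorem fam_eq {T G : Type*} {N c : ℕ} {e : G}
    {Φ : T → (Fin 2 → I) → (X N N × Ball 1 c × Cu 1) → G}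
    (h1 : ∀ t θ q, θ ∈ Cube.boundary (Fin 2) → Φ t θ q = e)
    (h2 : ∀ t θ q, ‖(q.2.1 : W 1 c)‖ = 1 → Φ t θ q = e)
    (h3 : ∀ t θ q, Par.bd q.2.2 → Φ t θ q = e)
    (b : T × X N N) (v : Vs c) (hv : ‖v‖ = 1) : fam Φ b v = e := by
  have h4 : ‖v.1‖ = 1 ∨ ‖v.2‖ = 1 := by
    rw [Prod.norm_def] at hv
    rcases max_choice ‖v.1‖ ‖v.2‖ with h | h
    · left; rw [← h, hv]
    · right; rw [← h, hv]
  unfold fam
  rcases h4 with h4 | h4
  · apply h2
    rw [ret_coe h4.le, h4]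
  · obtain ⟨i, hi⟩ := exists_abs_eq_one h4
    refine Fin.cases (fun hi => ?_) (fun j hi => ?_) i hi
    · apply h3
      exact ⟨0, uI_of_eq hi⟩
    · apply h1
      exact ⟨j, uI_of_eq hi⟩

/-- `(z,s), r ↦ ((αz, s), r)` -/
def onz {c : ℕ} (α : (Fin 1 → ℂ) → (Fin 1 → ℂ)) (v : Vs c) : Vs c := ((α v.1.1, v.1.2), v.2)

theorem norm_onz {c : ℕ} {α : (Fin 1 → ℂ) → (Fin 1 → ℂ)} (hα : ∀ z, ‖α z‖ = ‖z‖) (v : Vs c) :
    ‖onz α v‖ = ‖v‖ := by
  simp only [onz, Prod.norm_def, hα]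

theorem onz_smul {c : ℕ} {α : (Fin 1 → ℂ) → (Fin 1 → ℂ)}
    (hα : ∀ r : ℝ, 0 ≤ r → ∀ z, α (r • z) = r • α z) (r : ℝ) (hr : 0 ≤ r) (v : Vs c) :
    onz α (r • v) = r • onz α v := by
  simp only [onz, Prod.smul_fst, Prod.smul_snd, Prod.smul_mk, hα r hr]

theorem fst_norm_le {c : ℕ} {v : Vs c} (h : ‖v‖ ≤ 1) : ‖v.1‖ ≤ 1 :=
  (le_max_left _ _).trans (by rwa [Prod.norm_def] at h)

theorem snd_norm_le {c : ℕ} {v : Vs c} (h : ‖v‖ ≤ 1) : ‖v.2‖ ≤ 1 :=
  (le_max_right _ _).trans (by rwa [Prod.norm_def] at h)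

/-- Hats and maps of the first coordinate. -/
theorem hat_fam {T T' G : Type*} [NormedAddCommGroup G] [NormedSpace ℝ G] {N c : ℕ}
    {e : G} {Φ : T → (Fin 2 → I) → (X N N × Ball 1 c × Cu 1) → G}
    {Φ' : T' → (Fin 2 → I) → (X N N × Ball 1 c × Cu 1) → G}
    {α : (Fin 1 → ℂ) → (Fin 1 → ℂ)} (hα : ∀ z, ‖α z‖ = ‖z‖)
    (hαr : ∀ r : ℝ, 0 ≤ r → ∀ z, α (r • z) = r • α z)
    {L : G → G} (hLr : ∀ r : ℝ, 0 ≤ r → ∀ g, L (r • g) = r • L g) (hLe : L e = e)
    {t : T} {t' : T'} {x x' : X N N}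
    (h : ∀ θ (w w' : Ball 1 c) ρ, (w' : W 1 c) = (α (w : W 1 c).1, (w : W 1 c).2) →
      Φ' t' θ (x', w', ρ) = L (Φ t θ (x, w, ρ))) (w : Vs c × ℝ) :
    hat e (fam Φ') (t', x') (onz α w.1, w.2) = L (hat e (fam Φ) (t, x) w) := by
  apply hat_comp (norm_onz hα) (fun r hr v => onz_smul hαr r hr v) hLr hLe
  intro v hv
  unfold fam
  apply h
  have h1 : ‖(onz α v).1‖ ≤ 1 := fst_norm_le (by rwa [norm_onz hα])
  rw [ret_coe h1, ret_coe (fst_norm_le hv)]
  rfl

end Pool.Agent.H.MP_5f9601_gt.U.N
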