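import Mathlib
import Pool.Agent.H.MP_5f9601_gt.U.NFam
import Pool.Agent.H.MP_5f9601_gt.U.B1

/-!
# S13261, part (N): from a solution `w0 ψ_p = y` (as maps and homotopies) to the plain filler
-/

set_option autoImplicit false
set_option linter.unusedSectionVars false

open Set Filter Topology Metric
open scoped unitInterval

namespace Pool.Agent.H.MP_5f9601_gt.U.N

open MP5f.S4 (W Ball V X Cu Par ebase rotV rot psv piV yw rv)

variable {c : ℕ}

/-! ### linear identifications -/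

theorem finrank_eq (c : ℕ) : Module.finrank ℝ (Fin (c + 2) → ℂ) =
    Module.finrank ℝ (((Fin c → ℂ) × (Fin 3 → ℝ)) × ℝ) := by
  rw [Module.finrank_pi_fintype, Module.finrank_prod, Module.finrank_prod,
    Module.finrank_pi_fintype, Module.finrank_pi_fintype]
  simp only [Complex.finrank_real_complex, Finset.sum_const, Finset.card_univ, Fintype.card_fin,
    Module.finrank_self, smul_eq_mul]
  ring

/-- `ℂ^{c+2} = ℂ^c × ℝ^3 × ℝ` -/
noncomputable def lam (c : ℕ) : (Fin (c + 2) → ℂ) ≃L[ℝ] ((Fin c → ℂ) × (Fin 3 → ℝ)) × ℝ :=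
  ContinuousLinearEquiv.ofFinrankEq (finrank_eq c)

/-- the source identification -/
noncomputable def src (v : S (c + 2)) : Vs c × ℝ :=
  ((((fun _ => v.2), (lam c v.1).1.1), (lam c v.1).1.2), (lam c v.1).2)

/-- the target identification -/
noncomputable def tgt (u : V 2 c) : S (c + 2) × ℂ :=
  (((lam c).symm ((u.1.2.1, u.1.2.2), u.2), u.1.1 0), u.1.1 1)

/-- the inclusion -/
def Jm (v : Vs c) : V 2 c := ((![v.1.1 0, 0], v.1.2, v.2), 0)

theorem continuous_src : Continuous (src : S (c + 2) → Vs c × ℝ) := by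
  unfold src
  have h : Continuous (lam c) := (lam c).continuous
  fun_prop

theorem continuous_tgt : Continuous (tgt : V 2 c → S (c + 2) × ℂ) := by
  unfold tgt
  have h : Continuous (lam c).symm := (lam c).symm.continuous
  fun_prop

theorem src_eq_zero_iff (v : S (c + 2)) : src v = 0 ↔ v = 0 := by
  constructor
  · intro h
    have h1 : (((fun _ => v.2 : Fin 1 → ℂ), (lam c v.1).1.1), (lam c v.1).1.2) = (0 : Vs c) :=
      congrArg Prod.fst h
    have h2 : (lam c v.1).2 = 0 := congrArg Prod.snd h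
    have h3 : (lam c v.1).1.2 = 0 := congrArg Prod.snd h1
    have h4 : ((fun _ => v.2 : Fin 1 → ℂ), (lam c v.1).1.1) = (0 : W 1 c) := congrArg Prod.fst h1
    have h5 : (lam c v.1).1.1 = 0 := congrArg Prod.snd h4
    have h6 : (fun _ => v.2 : Fin 1 → ℂ) = 0 := congrArg Prod.fst h4
    have h7 : v.2 = 0 := congrFun h6 0
    have h8 : lam c v.1 = 0 := Prod.ext (Prod.ext h5 h3) h2
    have h9 : v.1 = 0 := (lam c).map_eq_zero_iff.mp h8
    exact Prod.ext h9 h7
  · rintro rfl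
    unfold src
    simp only [Prod.fst_zero, Prod.snd_zero, map_zero]
    rfl

theorem tgt_eq_zero_iff (u : V 2 c) : tgt u = 0 ↔ u = 0 := by
  constructor
  · intro h
    have h1 : ((lam c).symm ((u.1.2.1, u.1.2.2), u.2), u.1.1 0) = (0 : S (c + 2)) :=
      congrArg Prod.fst h
    have h2 : u.1.1 1 = 0 := congrArg Prod.snd h
    have h3 : u.1.1 0 = 0 := congrArg Prod.snd h1
    have h4 : (lam c).symm ((u.1.2.1, u.1.2.2), u.2) = 0 := congrArg Prod.fst h1
    have h5 : ((u.1.2.1, u.1.2.2), u.2) = (0 : ((Fin c → ℂ) × (Fin 3 → ℝ)) × ℝ) :=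
      (lam c).symm.map_eq_zero_iff.mp h4
    have h6 : u.2 = 0 := congrArg Prod.snd h5
    have h7 : (u.1.2.1, u.1.2.2) = (0 : (Fin c → ℂ) × (Fin 3 → ℝ)) := congrArg Prod.fst h5
    have h8 : u.1.1 = 0 := by
      funext i
      fin_cases i
      · exact h3
      · exact h2
    exact Prod.ext (Prod.ext h8 (Prod.ext (congrArg Prod.fst h7) (congrArg Prod.snd h7))) h6
  · rintro rfl
    unfold tgt
    have : (((((0 : V 2 c).1.2.1, (0 : V 2 c).1.2.2), (0 : V 2 c).2)) :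
        ((Fin c → ℂ) × (Fin 3 → ℝ)) × ℝ) = 0 := rfl
    rw [this, map_zero]
    rfl

theorem tgt_incl (v : S (c + 2)) : tgt (Jm (src v).1 + (src v).2 • ebase 2 c) = (v, 0) := by
  have h1 : Jm (src v).1 + (src v).2 • ebase 2 c
      = ((![v.2, 0], (lam c v.1).1.1, (lam c v.1).1.2), (lam c v.1).2) := by
    refine Prod.ext (Prod.ext ?_ (Prod.ext ?_ ?_)) ?_
    · simp [Jm, src, ebase]
    · simp [Jm, src, ebase]
    · simp [Jm, src, ebase]
    · simp [Jm, src, ebase]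
  rw [h1]
  unfold tgt
  simp only
  have h2 : (((lam c v.1).1.1, (lam c v.1).1.2), (lam c v.1).2) = lam c v.1 := rfl
  rw [h2, ContinuousLinearEquiv.symm_apply_apply]
  rfl

theorem tgt_rotV (q p : ℕ) (t : ℂ) (u : V 2 c) :
    tgt (rotV ![q, p] t u) = (act0 q t (tgt u).1, t ^ p * (tgt u).2) := by
  refine Prod.ext (Prod.ext ?_ ?_) ?_
  · rfl
  · show t ^ ((![q, p] : Fin 2 → ℕ) 0) * u.1.1 0 = t ^ q * u.1.1 0
    rfl
  · show t ^ ((![q, p] : Fin 2 → ℕ) 1) * u.1.1 1 = t ^ p * u.1.1 1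
    rfl

theorem src_act0 (w : ℕ) (t : ℂ) (v : S (c + 2)) :
    src (act0 w t v) = (onz (rot ![w] t) (src v).1, (src v).2) := by
  refine Prod.ext (Prod.ext (Prod.ext ?_ ?_) ?_) ?_
  · funext i
    fin_cases i
    rfl
  · rfl
  · rfl
  · rfl

theorem src_psi (p : ℕ) (v : S (c + 2)) :
    src (v.1, psi p v.2) = (onz (psv p) (src v).1, (src v).2) := by
  refine Prod.ext (Prod.ext (Prod.ext ?_ ?_) ?_) ?_
  · funext i
    show psi p v.2 = MP5f.S4.psi p v.2
    rw [psi, MP5f.S4.psi, zpow_natCast]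
  · rfl
  · rfl
  · rfl

theorem ebase_ne (c : ℕ) : ebase 2 c ≠ 0 := fun h => one_ne_zero (congrArg Prod.snd h)

theorem Jm_smul (r : ℝ) (v : Vs c) : Jm (r • v) = r • Jm v := by
  refine Prod.ext (Prod.ext ?_ ?_) ?_
  · funext i
    fin_cases i
    · rfl
    · simp [Jm]
  · rfl
  · simp [Jm]

theorem continuous_Jm : Continuous (Jm : Vs c → V 2 c) := by
  unfold Jm
  fun_prop

theorem Jm_inj (v : Vs c) (τ : ℝ) (h : Jm v + τ • ebase 2 c = 0) : v = 0 ∧ τ = 0 := by
  have h1 : (Jm v + τ • ebase 2 c).1.1 0 = 0 := by rw [h]; rfl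
  have h2 : (Jm v + τ • ebase 2 c).1.2 = 0 := by rw [h]; rfl
  have h3 : (Jm v + τ • ebase 2 c).2 = 0 := by rw [h]; rfl
  simp only [Jm, ebase, Prod.smul_mk, smul_zero, Prod.mk_add_mk, add_zero, zero_add,
    Matrix.cons_val_zero, smul_eq_mul, mul_one] at h1 h2 h3
  have h4 : v.1.1 0 = 0 := h1
  have h5 : v.1.2 = 0 := congrArg Prod.fst h2
  have h6 : v.2 = 0 := congrArg Prod.snd h2
  have h7 : v.1.1 = 0 := by
    funext i
    fin_cases i
    exact h4
  exact ⟨Prod.ext (Prod.ext h7 h5) h6, h3⟩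

/-! ### the point of `X p p` belonging to a point of the Euclidean sphere -/

theorem ofLp_ne {p : ℕ} (y : Y p) : (WithLp.ofLp (y : EuclideanSpace ℂ (Fin p))) ≠ 0 := by
  intro h
  have h1 : (y : EuclideanSpace ℂ (Fin p)) = 0 := by
    ext i
    exact congrFun h i
  have h2 := mem_sphere_zero_iff_norm.mp y.2
  rw [h1, norm_zero] at h2
  exact zero_ne_one h2

/-- normalisation with respect to the sup norm -/
noncomputable def xof {p : ℕ} (y : Y p) : X p p :=
  ⟨‖WithLp.ofLp (y : EuclideanSpace ℂ (Fin p))‖⁻¹ • WithLp.ofLp (y : EuclideanSpace ℂ (Fin p)), by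
    constructor
    · rw [norm_smul, norm_inv, norm_norm, inv_mul_cancel₀ (norm_ne_zero_iff.mpr (ofLp_ne y))]
    · intro j hj
      exact absurd j.2 (by omega)⟩

theorem continuous_xof {p : ℕ} : Continuous (xof : Y p → X p p) := by
  apply Continuous.subtype_mk
  have h1 : Continuous (fun y : Y p => WithLp.ofLp (y : EuclideanSpace ℂ (Fin p))) :=
    (PiLp.continuous_ofLp 2 _).comp continuous_subtype_val
  exact (h1.norm.inv₀ (fun y => norm_ne_zero_iff.mpr (ofLp_ne y))).smul h1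

theorem xof_smul {p : ℕ} {t : ℂ} (ht : ‖t‖ = 1) {y y' : Y p}
    (h : (y' : EuclideanSpace ℂ (Fin p)) = t • (y : EuclideanSpace ℂ (Fin p))) :
    (xof y' : Fin p → ℂ) = t • (xof y : Fin p → ℂ) := by
  show ‖WithLp.ofLp (y' : EuclideanSpace ℂ (Fin p))‖⁻¹ • WithLp.ofLp (y' : EuclideanSpace ℂ (Fin p))
    = t • (‖WithLp.ofLp (y : EuclideanSpace ℂ (Fin p))‖⁻¹ •
      WithLp.ofLp (y : EuclideanSpace ℂ (Fin p)))
  rw [h, WithLp.ofLp_smul, norm_smul, ht, one_mul, smul_comm]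

/-! ### families -/

/-- Families of double loops of equivariant maps. -/
structure IsFam {T : Type*} [TopologicalSpace T] (p c a : ℕ) (b : Fin 2 → ℕ)
    (Φ : T → (Fin 2 → I) → (X p p × Ball 1 c × Cu 1) → V 2 c) : Prop where
  cont : Continuous (fun z : T × (Fin 2 → I) × (X p p × Ball 1 c × Cu 1) => Φ z.1 z.2.1 z.2.2)
  ne : ∀ τ θ x, Φ τ θ x ≠ 0
  bd1 : ∀ τ θ x, θ ∈ Cube.boundary (Fin 2) → Φ τ θ x = ebase 2 c
  bd2 : ∀ τ θ x, ‖(x.2.1 : W 1 c)‖ = 1 → Φ τ θ x = ebase 2 c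
  bd3 : ∀ τ θ x, Par.bd x.2.2 → Φ τ θ x = ebase 2 c
  eqv : ∀ τ θ (t : ℂ), ‖t‖ = 1 → ∀ (x x' : X p p) (w w' : Ball 1 c) (ρ : Cu 1),
    (x' : Fin p → ℂ) = t • (x : Fin p → ℂ) →
    (w' : W 1 c) = (rot ![a] t (w : W 1 c).1, (w : W 1 c).2) →
    Φ τ θ (x', w', ρ) = rotV b t (Φ τ θ (x, w, ρ))

theorem rotV_smul (b : Fin 2 → ℕ) (t : ℂ) (r : ℝ) (u : V 2 c) :
    rotV b t (r • u) = r • rotV b t u := by
  refine Prod.ext (Prod.ext ?_ ?_) ?_
  · funext i
    show t ^ b i * (r • u.1.1 i) = r • (t ^ b i * u.1.1 i)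
    rw [mul_smul_comm]
  · rfl
  · rfl

theorem rotV_add (b : Fin 2 → ℕ) (t : ℂ) (u u' : V 2 c) :
    rotV b t (u + u') = rotV b t u + rotV b t u' := by
  refine Prod.ext (Prod.ext ?_ ?_) ?_
  · funext i
    show t ^ b i * (u.1.1 i + u'.1.1 i) = t ^ b i * u.1.1 i + t ^ b i * u'.1.1 i
    rw [mul_add]
  · rfl
  · rfl

theorem rot_rsmul {n : ℕ} (a : Fin n → ℕ) (t : ℂ) (r : ℝ) (z : Fin n → ℂ) :
    rot a t (r • z) = r • rot a t z := by
  funext i
  show t ^ a i * (r • z i) = r • (t ^ a i * z i)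
  rw [mul_smul_comm]

/-- the hat of a family of maps -/
theorem IsFam.hat_cont {T : Type*} [TopologicalSpace T] {p c a : ℕ} {b : Fin 2 → ℕ}
    {Φ : T → (Fin 2 → I) → (X p p × Ball 1 c × Cu 1) → V 2 c} (h : IsFam p c a b Φ) :
    Continuous (fun z : (T × X p p) × (Vs c × ℝ) => hat (ebase 2 c) (fam Φ) z.1 z.2) :=
  continuous_hat (continuous_fam h.cont).continuousOn
    (fun b v hv => fam_eq h.bd1 h.bd2 h.bd3 b v hv)

theorem IsFam.hat_zero {T : Type*} [TopologicalSpace T] {p c a : ℕ} {b : Fin 2 → ℕ}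
    {Φ : T → (Fin 2 → I) → (X p p × Ball 1 c × Cu 1) → V 2 c} (h : IsFam p c a b Φ)
    (x : T × X p p) (w : Vs c × ℝ) : hat (ebase 2 c) (fam Φ) x w = 0 ↔ w = 0 := by
  apply hat_eq_zero_iff (ebase_ne c)
  intro v _
  exact h.ne x.1 (th v) (x.2, ret v.1, rho v)

theorem IsFam.hat_equi {T : Type*} [TopologicalSpace T] {p c a : ℕ} {b : Fin 2 → ℕ}
    {Φ : T → (Fin 2 → I) → (X p p × Ball 1 c × Cu 1) → V 2 c} (h : IsFam p c a b Φ)
    (τ : T) {t : ℂ} (ht : ‖t‖ = 1) {x x' : X p p} (hx : (x' : Fin p → ℂ) = t • (x : Fin p → ℂ))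
    (w : Vs c × ℝ) :
    hat (ebase 2 c) (fam Φ) (τ, x') (onz (rot ![a] t) w.1, w.2)
      = rotV b t (hat (ebase 2 c) (fam Φ) (τ, x) w) := by
  apply hat_fam (α := rot ![a] t) (fun z => MP5f.S4.norm_rot _ ht z)
    (fun r _ z => rot_rsmul _ _ _ _) (fun r _ g => rotV_smul _ _ _ _)
    (MP5f.S4.rotV_ebase _ _)
  intro θ w w' ρ hw
  exact h.eqv τ θ t ht x x' w w' ρ hx hw

theorem hat_congr {X X' V G : Type*} [NormedAddCommGroup V] [NormedSpace ℝ V]
    [NormedAddCommGroup G] [NormedSpace ℝ G] {e : G} {f : X → V → G} {f' : X' → V → G} {x : X}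
    {x' : X'} (h : ∀ v, ‖v‖ ≤ 1 → f' x' v = f x v) (w : V × ℝ) :
    hat e f' x' w = hat e f x w :=
  hat_comp (α := id) (L := id) (fun _ => rfl) (fun _ _ _ => rfl) (fun _ _ _ => rfl) rfl h w

theorem norm_Jm (w : W 1 c) (r : Fin 3 → ℝ) :
    ‖((![w.1 0, 0], w.2, r) : MP5f.S4.VV 2 c)‖ = ‖((w, r) : Vs c)‖ := by
  have h := MP5f.S4.norm_psi_zero 1 w.1
  rw [MP5f.S4.psi_one] at h
  rw [Prod.norm_def, Prod.norm_def, Prod.norm_def, Prod.norm_def]
  simp only
  rw [h, max_assoc]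

theorem piV_yw (l : ℕ) (w : Ball 1 c) (k : Cu 1) (θ : Fin 2 → I) :
    piV (yw l 0 w k θ) = pib (ebase 2 c) Jm ((w : W 1 c), rv k θ) := by
  have h1 : yw l 0 w k θ = (![(w : W 1 c).1 0, 0], (w : W 1 c).2, rv k θ) := by
    unfold yw
    rw [pow_zero, MP5f.S4.psi_one]
  rw [h1]
  unfold piV pib
  rw [norm_Jm]
  refine Prod.ext ?_ ?_
  · simp [Jm, ebase]
  · simp [Jm, ebase]

theorem fam_yrep {T : Type*} {N : ℕ} (l : ℕ) (b : T × X N N) (v : Vs c) (hv : ‖v‖ ≤ 1) :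
    fam (fun _ θ (x : X N N × Ball 1 c × Cu 1) => piV (yw l 0 x.2.1 x.2.2 θ)) b v
      = pib (ebase 2 c) Jm v := by
  have h1 : ∀ i, |v.2 i| ≤ 1 := fun i => (norm_le_pi_norm v.2 i).trans (snd_norm_le hv)
  have h2 : rv (rho v) (th v) = v.2 := by
    funext i
    fin_cases i
    · show 2 * MP5f.S4.k0 (rho v) - 1 = v.2 0
      rw [MP5f.S4.k0_one]
      show 2 * (uI (v.2 0) : ℝ) - 1 = v.2 0
      rw [uI_coe (h1 0)]; ring
    · show 2 * (uI (v.2 1) : ℝ) - 1 = v.2 1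
      rw [uI_coe (h1 1)]; ring
    · show 2 * (uI (v.2 2) : ℝ) - 1 = v.2 2
      rw [uI_coe (h1 2)]; ring
  have h3 : ((ret v.1 : Ball 1 c) : W 1 c) = v.1 := ret_coe (fst_norm_le hv)
  show piV (yw l 0 (ret v.1) (rho v) (th v)) = _
  rw [piV_yw, h2, h3]

theorem pib_cont : Continuous (pib (ebase 2 c) (Jm : Vs c → V 2 c)) := by
  unfold pib
  have := @continuous_Jm c
  fun_prop

theorem pib_one (v : Vs c) (hv : ‖v‖ = 1) : pib (ebase 2 c) Jm v = ebase 2 c := by
  rw [pib, hv]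
  norm_num

/-- the hat of `pib` -/
noncomputable def hpib (w : Vs c × ℝ) : V 2 c :=
  hat (ebase 2 c) (fun _ : Unit => pib (ebase 2 c) Jm) () w

theorem hpib_cont : Continuous (hpib : Vs c × ℝ → V 2 c) := by
  have h : Continuous (fun z : Unit × (Vs c × ℝ) =>
      hat (ebase 2 c) (fun _ : Unit => pib (ebase 2 c) (Jm : Vs c → V 2 c)) z.1 z.2) :=
    continuous_hat (X := Unit) (f := fun _ => pib (ebase 2 c) Jm)
      (pib_cont.comp continuous_snd).continuousOn (fun _ v hv => pib_one v hv)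
  have h2 : Continuous (fun w : Vs c × ℝ => (((), w) : Unit × (Vs c × ℝ))) := by fun_prop
  have h3 := h.comp h2
  exact h3

theorem Jm_rot (q p : ℕ) (t : ℂ) (v : Vs c) :
    Jm (onz (rot ![q] t) v) = rotV ![q, p] t (Jm v) := by
  refine Prod.ext (Prod.ext ?_ ?_) ?_
  · funext i
    fin_cases i
    · rfl
    · show (0 : ℂ) = t ^ _ * 0
      rw [mul_zero]
  · rfl
  · rfl

theorem hpib_equi (q p : ℕ) {t : ℂ} (ht : ‖t‖ = 1) (w : Vs c × ℝ) :
    hpib (onz (rot ![q] t) w.1, w.2) = rotV ![q, p] t (hpib w) := by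
  unfold hpib
  apply hat_comp (fun v => norm_onz (fun z => MP5f.S4.norm_rot _ ht z) v)
    (fun r hr v => onz_smul (fun r _ z => rot_rsmul _ _ _ _) r hr v)
    (fun r _ g => rotV_smul _ _ _ _) (MP5f.S4.rotV_ebase _ _)
  intro v _
  rw [pib, pib, norm_onz (fun z => MP5f.S4.norm_rot _ ht z), rotV_add, rotV_smul, rotV_smul,
    MP5f.S4.rotV_ebase, Jm_rot q p]

theorem hpib_zero : hpib (0 : Vs c × ℝ) = 0 := by
  unfold hpib hat
  rw [norm_zero, zero_smul]

theorem hpib_line {t : ℝ} (ht0 : 0 ≤ t) (ht1 : t ≤ 1) (w : Vs c × ℝ)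
    (h : (1 - t) • (Jm w.1 + w.2 • ebase 2 c) + t • hpib w = 0) : w = 0 :=
  line_ne_zero (e := ebase 2 c) (J := Jm) (fun r _ v => Jm_smul r v)
    (fun v τ hv => Jm_inj v τ hv) () ht0 ht1 w h

/-- **(N)** -/
theorem plainFiller_of_maps {p q : ℕ}
    {Φ : Unit → (Fin 2 → I) → (X p p × Ball 1 c × Cu 1) → V 2 c}
    {H : I → (Fin 2 → I) → (X p p × Ball 1 c × Cu 1) → V 2 c}
    (hΦ : IsFam p c (p * q) ![q, p] Φ) (hH : IsFam p c q ![q, p] H)
    (l : ℕ) (h0 : ∀ θ x, H 0 θ x = piV (yw l 0 x.2.1 x.2.2 θ))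
    (h1 : ∀ θ x (w w' : Ball 1 c) ρ, (w' : W 1 c) = (psv p (w : W 1 c).1, (w : W 1 c).2) →
      H 1 θ (x, w, ρ) = Φ () θ (x, w', ρ)) :
    Nonempty (PlainFiller p (c + 2) q) := by
  have hJe : ∀ (t : ℂ) (w : Vs c × ℝ),
      Jm (onz (rot ![q] t) w.1) + w.2 • ebase 2 c = rotV ![q, p] t (Jm w.1 + w.2 • ebase 2 c) := by
    intro t w
    rw [rotV_add, rotV_smul, MP5f.S4.rotV_ebase, Jm_rot q p]
  -- the value of the homotopy at time zero
  have hstart : ∀ (x : X p p) (w : Vs c × ℝ),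
      hat (ebase 2 c) (fam H) (0, x) w = hpib w := by
    intro x w
    apply hat_congr
    intro v hv
    rw [← fam_yrep l ((0 : I), x) v hv]
    exact h0 _ _
  have hend : ∀ (x : X p p) (w : Vs c × ℝ),
      hat (ebase 2 c) (fam H) (1, x) w
        = hat (ebase 2 c) (fam Φ) ((), x) (onz (psv p) w.1, w.2) := by
    intro x w
    symm
    refine hat_fam (α := psv p) (L := id) (fun z => MP5f.S4.norm_psv p z) ?_
      (fun _ _ _ => rfl) rfl (t := (1 : I)) (Φ := H) ?_ w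
    · intro r hr z
      have := MP5f.S4.psv_rsmul p hr z
      have e1 : ∀ z : Fin 1 → ℂ, (r : ℂ) • z = r • z := fun z => by
        funext i; simp
      rw [e1, e1] at this
      exact this
    · intro θ w w' ρ hw
      exact (h1 θ x w w' ρ hw).symm
  have hc1 := hΦ.hat_cont
  have hc2 := hH.hat_cont
  have hxc := @continuous_xof p
  have hsc := @continuous_src c
  have htc := @continuous_tgt c
  have hJc := @continuous_Jm c
  -- the homotopy
  let s1 : ℝ → ℝ := fun s => 2 * s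
  let g1 : ℝ → Y p → S (c + 2) → S (c + 2) × ℂ := fun s _ v =>
    tgt ((1 - 2 * s) • (Jm (src v).1 + (src v).2 • ebase 2 c)
      + (2 * s) • hpib (src v))
  let g2 : ℝ → Y p → S (c + 2) → S (c + 2) × ℂ := fun s y v =>
    tgt (hat (ebase 2 c) (fam H) (projIcc 0 1 zero_le_one (2 * s - 1), xof y) (src v))
  have hg1 : Continuous (fun z : ℝ × Y p × S (c + 2) => g1 z.1 z.2.1 z.2.2) := by
    apply htc.comp
    have e1 : Continuous (fun z : ℝ × Y p × S (c + 2) => src z.2.2) := hsc.comp (by fun_prop)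
    have a1 : Continuous (fun z : ℝ × Y p × S (c + 2) => 1 - 2 * z.1) := by fun_prop
    have a2 : Continuous (fun z : ℝ × Y p × S (c + 2) => 2 * z.1) := by fun_prop
    have a3 := (hJc.comp e1.fst).add (e1.snd.smul (continuous_const (y := ebase 2 c)))
    have a4 := (a1.smul a3).add (a2.smul (hpib_cont.comp e1))
    exact a4
  have hg2 : Continuous (fun z : ℝ × Y p × S (c + 2) => g2 z.1 z.2.1 z.2.2) := by
    apply htc.comp
    have e1 : Continuous (fun z : ℝ × Y p × S (c + 2) => src z.2.2) := hsc.comp (by fun_prop)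
    have e2 : Continuous (fun z : ℝ × Y p × S (c + 2) =>
        (projIcc (0 : ℝ) 1 zero_le_one (2 * z.1 - 1))) := continuous_projIcc.comp (by fun_prop)
    have e3 : Continuous (fun z : ℝ × Y p × S (c + 2) => xof z.2.1) := hxc.comp (by fun_prop)
    have e4 := hc2.comp ((e2.prodMk e3).prodMk e1)
    exact e4
  refine ⟨{
    W0 := fun y v => tgt (hat (ebase 2 c) (fam Φ) ((), xof y) (src v))
    g0 := fun s y v => if s ≤ 1 / 2 then g1 s y v else g2 s y v
    W0_cont := ?_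
    g0_cont := ?_
    W0_iff := ?_
    g0_iff := ?_
    W0_eqv := ?_
    g0_eqv := ?_
    g0_left := ?_
    g0_right := ?_ }⟩
  · apply htc.comp
    have e4 : Continuous (fun z : Y p × S (c + 2) => (((), xof z.1), src z.2)) := by fun_prop
    have e5 := hc1.comp e4
    exact e5
  · apply Continuous.if_le hg1 hg2 (by fun_prop) continuous_const
    intro z hz
    show g1 z.1 z.2.1 z.2.2 = g2 z.1 z.2.1 z.2.2
    have e1 : projIcc (0 : ℝ) 1 zero_le_one (2 * z.1 - 1) = 0 := by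
      rw [hz]
      norm_num
    simp only [g1, g2]
    rw [e1, hstart, hz]
    norm_num
  · intro y v
    rw [tgt_eq_zero_iff, hΦ.hat_zero, src_eq_zero_iff]
  · intro s hs y v
    split_ifs with h
    · simp only [g1]
      rw [tgt_eq_zero_iff]
      constructor
      · intro h2
        have h3 := hpib_line (t := 2 * s) (by linarith [hs.1]) (by linarith) (src v) h2
        exact (src_eq_zero_iff v).mp h3
      · rintro rfl
        rw [(src_eq_zero_iff (0 : S (c + 2))).mpr rfl]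
        have e1 : Jm (0 : Vs c × ℝ).1 + (0 : Vs c × ℝ).2 • ebase 2 c = 0 := by
          have := Jm_smul 0 (0 : Vs c)
          rw [zero_smul, zero_smul] at this
          show Jm 0 + (0 : ℝ) • ebase 2 c = 0
          rw [this, zero_smul, add_zero]
        rw [e1, smul_zero, zero_add, hpib_zero, smul_zero]
    · simp only [g2]
      rw [tgt_eq_zero_iff, hH.hat_zero, src_eq_zero_iff]
  · intro t ht y y' hy v
    rw [← tgt_rotV, src_act0, hΦ.hat_equi () ht (xof_smul ht hy)]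
  · intro t ht y y' hy s _ v
    split_ifs with h
    · simp only [g1]
      rw [← tgt_rotV, src_act0]
      congr 1
      rw [hpib_equi q p ht, hJe, ← rotV_smul, ← rotV_smul, ← rotV_add]
    · simp only [g2]
      rw [← tgt_rotV, src_act0, hH.hat_equi _ ht (xof_smul ht hy)]
  · intro y v
    rw [if_pos (by norm_num)]
    simp only [g1]
    rw [mul_zero, sub_zero, one_smul, zero_smul, add_zero, tgt_incl]
  · intro y v
    rw [if_neg (by norm_num)]
    simp only [g2]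
    have e1 : projIcc (0 : ℝ) 1 zero_le_one (2 * 1 - 1) = 1 := by
      norm_num
    rw [e1, hend, src_psi]

end Pool.Agent.H.MP_5f9601_gt.U.N
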