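import Mathlib
import Pool.Agent.H.MP_5f9601_gt.U.NPF

/-!
# S13261, part (N): `w ψ_p ≃ y` as double loops of maps gives the plain filler
-/

set_option autoImplicit false

open Set Filter Topology Metric
open scoped unitInterval

namespace Pool.Agent.H.MP_5f9601_gt.U.N

open MP5f.S4

variable {p q c l : ℕ}

theorem bw_zero (p q l : ℕ) : bw p q l 0 = ![q, p] := by
  unfold bw
  rw [pow_zero, mul_one, mul_one]

/-- A continuous family of elements of `YC` with constant value on the boundary of the square. -/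
theorem isFam_of_map {T : Type*} [TopologicalSpace T] {a : ℕ} {b : Fin 2 → ℕ}
    (F : T → (Fin 2 → I) → (YC p p ![a] b c (Cu 1)).FS)
    (hF : Continuous (fun z : T × (Fin 2 → I) => F z.1 z.2))
    (hb : ∀ τ θ, θ ∈ Cube.boundary (Fin 2) → F τ θ = (YC p p ![a] b c (Cu 1)).pt) :
    IsFam p c a b (fun τ θ x => F τ θ x) where
  cont := by
    have h1 : Continuous (fun z : T × (Fin 2 → I) × (X p p × Ball 1 c × Cu 1) =>
        (F z.1 z.2.1, z.2.2)) := by
      apply Continuous.prodMk _ (by fun_prop)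
      exact hF.comp (f := fun z : T × (Fin 2 → I) × (X p p × Ball 1 c × Cu 1) => (z.1, z.2.1))
        (by fun_prop)
    have h2 := (Ctx.continuous_eval (YC p p ![a] b c (Cu 1))).comp h1
    exact h2
  ne := fun τ θ x => (F τ θ).ne x
  bd1 := by
    intro τ θ x hθ
    rw [hb τ θ hθ]
    rfl
  bd2 := fun τ θ x hx => (F τ θ).base (Or.inl hx)
  bd3 := fun τ θ x hx => (F τ θ).base (Or.inr hx)
  eqv := by
    intro τ θ t ht x x' w w' ρ hx hw
    exact (F τ θ).eqv t ht (x, w, ρ) (x', w', ρ) hx hw rfl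

theorem IsFam.congr_b {T : Type*} [TopologicalSpace T] {a : ℕ} {b b' : Fin 2 → ℕ} (h : b = b')
    {Φ : T → (Fin 2 → I) → (X p p × Ball 1 c × Cu 1) → V 2 c} (hΦ : IsFam p c a b Φ) :
    IsFam p c a b' Φ := h ▸ hΦ

/-- **(N)** for loops. -/
theorem plainFiller_of_loops
    (w : GenLoop (Fin 2) (YC p p (aw (p * q)) (bw p q l 0) c (Cu 1)).FS
      (YC p p (aw (p * q)) (bw p q l 0) c (Cu 1)).pt)
    (w' : GenLoop (Fin 2) (YC p p (aw q) (bw p q l 0) c (Cu 1)).FS
      (YC p p (aw q) (bw p q l 0) c (Cu 1)).pt)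
    (hw : ∀ s x, w' s x = w s (x.1, psB p x.2.1, x.2.2))
    (H : GenLoop.Homotopic (yloop p p p q l 0 c 1) w') :
    Nonempty (PlainFiller p (c + 2) q) := by
  obtain ⟨F⟩ := H
  have h1 : IsFam p c (p * q) (bw p q l 0) (fun (_ : Unit) θ x => w θ x) :=
    isFam_of_map (fun (_ : Unit) θ => w θ) (w.1.continuous.comp continuous_snd)
      (fun _ θ hθ => w.2 θ hθ)
  have h2 : IsFam p c q (bw p q l 0) (fun (t : I) θ x => F (t, θ) x) :=
    isFam_of_map (fun (t : I) θ => F (t, θ)) F.continuous (fun t θ hθ => by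
      rw [F.eq_fst t hθ]
      exact (yloop p p p q l 0 c 1).2 θ hθ)
  have h1' := IsFam.congr_b (bw_zero p q l) h1
  have h2' := IsFam.congr_b (bw_zero p q l) h2
  refine plainFiller_of_maps h1' h2' l ?_ ?_
  · intro θ x
    have e1 : F (0, θ) = (yloop p p p q l 0 c 1) θ := F.apply_zero θ
    rw [e1, yloop_apply]
  · intro θ x v v' ρ hv
    have e1 : F (1, θ) = w' θ := F.apply_one θ
    rw [e1, hw]
    have e2 : psB p v = v' := Subtype.ext hv.symm
    rw [e2]

end Pool.Agent.H.MP_5f9601_gt.U.N
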