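import Pool.Agent.H.MP_5f9601_gt.U.Pi2
import Pool.Agent.H.MP_5f9601_gt.U.YRel
import Pool.Agent.H.MP_5f9601_gt.U.N

/-!
# S13261, part (N), group level: `P w = y` gives the plain filler
-/

set_option autoImplicit false

open Set Filter Topology Metric
open scoped unitInterval

namespace Pool.Agent.H.MP_5f9601_gt.U.N

open MP5f.S4

theorem exists_rep {P V : Type} [TopologicalSpace P] [NormedAddCommGroup V] (C : Ctx P V)
    (w : C.A) : ∃ f : GenLoop (Fin 2) C.FS C.pt,
      w = Additive.ofMul (Quotient.mk _ f : HomotopyGroup (Fin 2) C.FS C.pt) := by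
  obtain ⟨f, hf⟩ := Quotient.exists_rep (Additive.toMul w)
  exact ⟨f, (congrArg Additive.ofMul hf).symm⟩

theorem homotopic_of_eq {P V : Type} [TopologicalSpace P] [NormedAddCommGroup V] (C : Ctx P V)
    {f g : GenLoop (Fin 2) C.FS C.pt}
    (h : (Additive.ofMul (Quotient.mk _ f : HomotopyGroup (Fin 2) C.FS C.pt) : C.A)
      = Additive.ofMul (Quotient.mk _ g : HomotopyGroup (Fin 2) C.FS C.pt)) :
    GenLoop.Homotopic f g :=
  Quotient.exact (congrArg Additive.toMul h)

/-- **(N)**: if the class `w` satisfies `P w = [y]` then there is a plain filler. -/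
theorem plainFiller_of_class {p q c l : ℕ}
    (ha : ∀ j, (aw (p * q)) j = p * (aw q) j)
    (w : (YC p p (aw (p * q)) (bw p q l 0) c (Cu 1)).A)
    (hw : (pre p (bw p q l 0) ha c (Cu 1)).map w
      = Additive.ofMul (Quotient.mk _ (yloop p p p q l 0 c 1) : HomotopyGroup (Fin 2)
        (YC p p (aw q) (bw p q l 0) c (Cu 1)).FS (YC p p (aw q) (bw p q l 0) c (Cu 1)).pt)) :
    Nonempty (PlainFiller p (c + 2) q) := by
  obtain ⟨f, rfl⟩ := exists_rep _ w
  have h2 := homotopic_of_eq _ ((BMap.map_mk _ f).symm.trans hw)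
  exact plainFiller_of_loops f _ (fun s x => rfl) h2.symm

end Pool.Agent.H.MP_5f9601_gt.U.N
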