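import Mathlib

/-!
MP_5f9601_gt, module NOn (helper47).
Circle-equivariant families of maps vanishing only at zero (section 0 of the note h47_5f9601_PROOF.md).
`NOn act S F`: over the set `S` of the base `Z` (with the action `act` of the circle) the family `F z : A → B`
is jointly continuous, equivariant, and `F z a = 0` iff `a = 0`.
-/

open Set Topology

namespace LS

/-- Equivariant families over `S` that vanish exactly at zero. -/
structure NOn {Z A B : Type*} [TopologicalSpace Z] [TopologicalSpace A] [TopologicalSpace B]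
    [Zero A] [Zero B] [SMul Circle A] [SMul Circle B]
    (act : Circle → Z → Z) (S : Set Z) (F : Z → A → B) : Prop where
  cont : ContinuousOn (fun w : Z × A => F w.1 w.2) (S ×ˢ univ)
  equi : ∀ z ∈ S, ∀ (t : Circle) (a : A), F (act t z) (t • a) = t • F z a
  zero : ∀ z ∈ S, ∀ a, F z a = 0 ↔ a = 0

variable {Z Z' A B E C : Type*} [TopologicalSpace Z] [TopologicalSpace Z'] [TopologicalSpace A]
  [TopologicalSpace B] [TopologicalSpace E] [TopologicalSpace C]
  [Zero A] [Zero B] [Zero E] [Zero C] [SMul Circle A] [SMul Circle B] [SMul Circle E]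
  [SMul Circle C] {act : Circle → Z → Z} {act' : Circle → Z' → Z'} {S S' T : Set Z}

theorem NOn.mono {F : Z → A → B} (h : NOn act S F) (hTS : T ⊆ S) : NOn act T F :=
  ⟨h.cont.mono (prod_mono hTS subset_rfl), fun z hz => h.equi z (hTS hz),
    fun z hz => h.zero z (hTS hz)⟩

theorem NOn.congr {F G : Z → A → B} (h : NOn act S F) (hS : ∀ t, ∀ z ∈ S, act t z ∈ S)
    (hFG : ∀ z ∈ S, ∀ a, G z a = F z a) : NOn act S G := by
  refine ⟨h.cont.congr ?_, ?_, ?_⟩
  · rintro ⟨z, a⟩ ⟨hz, -⟩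
    exact hFG z hz a
  · intro z hz t a
    rw [hFG _ (hS t z hz), hFG z hz, h.equi z hz]
  · intro z hz a
    rw [hFG z hz, h.zero z hz]

theorem NOn.pull {R : Set Z'} {F : Z → A → B} (h : NOn act S F) {φ : Z' → Z}
    (hc : ContinuousOn φ R) (hm : ∀ z ∈ R, φ z ∈ S)
    (he : ∀ z ∈ R, ∀ t, φ (act' t z) = act t (φ z)) :
    NOn act' R (fun z a => F (φ z) a) := by
  refine ⟨?_, ?_, ?_⟩
  · have h1 : ContinuousOn (fun w : Z' × A => (φ w.1, w.2)) (R ×ˢ univ) := by
      refine ContinuousOn.prodMk ?_ continuousOn_snd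
      exact hc.comp continuousOn_fst (fun w hw => hw.1)
    exact h.cont.comp h1 (fun w hw => ⟨hm _ hw.1, mem_univ _⟩)
  · intro z hz t a
    show F (φ (act' t z)) (t • a) = t • F (φ z) a
    rw [he z hz t, h.equi _ (hm z hz)]
  · intro z hz a
    exact h.zero _ (hm z hz) a

theorem NOn.comp {F : Z → A → B} {G : Z → B → E} (hG : NOn act S G) (hF : NOn act S F) :
    NOn act S (fun z a => G z (F z a)) := by
  refine ⟨?_, ?_, ?_⟩
  · have h1 : ContinuousOn (fun w : Z × A => (w.1, F w.1 w.2)) (S ×ˢ univ) :=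
      ContinuousOn.prodMk continuousOn_fst hF.cont
    exact hG.cont.comp h1 (fun w hw => ⟨hw.1, mem_univ _⟩)
  · intro z hz t a
    show G (act t z) (F (act t z) (t • a)) = _
    rw [hF.equi z hz, hG.equi z hz]
  · intro z hz a
    show G z (F z a) = 0 ↔ _
    rw [hG.zero z hz, hF.zero z hz]

/-- `F + 1` on `A × C`. -/
theorem NOn.plus {F : Z → A → B} (hF : NOn act S F) :
    NOn act S (fun z (w : A × C) => (F z w.1, w.2)) := by
  refine ⟨?_, ?_, ?_⟩
  · refine ContinuousOn.prodMk ?_ (continuousOn_snd.snd)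
    have h1 : ContinuousOn (fun w : Z × (A × C) => (w.1, w.2.1)) (S ×ˢ univ) :=
      ContinuousOn.prodMk continuousOn_fst (continuousOn_snd.fst)
    exact hF.cont.comp h1 (fun w hw => ⟨hw.1, mem_univ _⟩)
  · rintro z hz t ⟨a, c⟩
    show (F (act t z) (t • a), t • c) = (t • F z a, t • c)
    rw [hF.equi z hz]
  · rintro z hz ⟨a, c⟩
    show (F z a, c) = (0, 0) ↔ (a, c) = (0, 0)
    rw [Prod.mk.injEq, Prod.mk.injEq, hF.zero z hz]

/-- A fixed equivariant map with trivial zero set. -/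
theorem NOn.const {f : A → B} (hc : Continuous f) (he : ∀ (t : Circle) a, f (t • a) = t • f a)
    (hz : ∀ a, f a = 0 ↔ a = 0) : NOn act S (fun _ a => f a) :=
  ⟨(hc.comp continuous_snd).continuousOn, fun _ _ t a => he t a, fun _ _ a => hz a⟩

/-- Gluing along two closed sets. -/
theorem NOn.glue {S₁ S₂ : Set Z} {F F₁ F₂ : Z → A → B} (h₁ : NOn act (S ∩ S₁) F₁)
    (h₂ : NOn act (S ∩ S₂) F₂) (hc₁ : IsClosed S₁) (hc₂ : IsClosed S₂) (hS : S ⊆ S₁ ∪ S₂)
    (a₁ : ∀ t, ∀ z ∈ S ∩ S₁, act t z ∈ S ∩ S₁) (a₂ : ∀ t, ∀ z ∈ S ∩ S₂, act t z ∈ S ∩ S₂)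
    (e₁ : ∀ z ∈ S ∩ S₁, ∀ a, F z a = F₁ z a) (e₂ : ∀ z ∈ S ∩ S₂, ∀ a, F z a = F₂ z a) :
    NOn act S F := by
  have k₁ : NOn act (S ∩ S₁) F := h₁.congr a₁ e₁
  have k₂ : NOn act (S ∩ S₂) F := h₂.congr a₂ e₂
  refine ⟨?_, ?_, ?_⟩
  · rintro ⟨z, a⟩ ⟨hz, -⟩
    have hcov : (S ×ˢ (univ : Set A)) = ((S ∩ S₁) ×ˢ (univ : Set A)) ∪ ((S ∩ S₂) ×ˢ univ) := by
      ext ⟨z', a'⟩
      simp only [mem_prod, mem_univ, and_true, mem_union, mem_inter_iff]
      constructor
      · intro h
        rcases hS h with h' | h'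
        · exact Or.inl ⟨h, h'⟩
        · exact Or.inr ⟨h, h'⟩
      · rintro (h | h)
        · exact h.1
        · exact h.1
    rw [hcov]
    refine ContinuousWithinAt.union ?_ ?_
    · by_cases h : z ∈ S₁
      · exact k₁.cont (z, a) ⟨⟨hz, h⟩, mem_univ _⟩
      · refine continuousWithinAt_of_notMem_closure ?_
        intro hcl
        have : (z, a) ∈ closure (S₁ ×ˢ (univ : Set A)) :=
          closure_mono (prod_mono inter_subset_right subset_rfl) hcl
        rw [closure_prod_eq, hc₁.closure_eq] at this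
        exact h this.1
    · by_cases h : z ∈ S₂
      · exact k₂.cont (z, a) ⟨⟨hz, h⟩, mem_univ _⟩
      · refine continuousWithinAt_of_notMem_closure ?_
        intro hcl
        have : (z, a) ∈ closure (S₂ ×ˢ (univ : Set A)) :=
          closure_mono (prod_mono inter_subset_right subset_rfl) hcl
        rw [closure_prod_eq, hc₂.closure_eq] at this
        exact h this.1
  · intro z hz t a
    rcases hS hz with h | h
    · exact k₁.equi z ⟨hz, h⟩ t a
    · exact k₂.equi z ⟨hz, h⟩ t a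
  · intro z hz a
    rcases hS hz with h | h
    · exact k₁.zero z ⟨hz, h⟩ a
    · exact k₂.zero z ⟨hz, h⟩ a

end LS
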