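import Pool.Agent.H.MP_5f9601_gt.U.FJO

/-!
MP_5f9601_gt, section 4, part O (helper23): equivariant extension of a map of the disc `D N i` to `X N (i+1)`.
-/

set_option autoImplicit false

open Set Topology ComplexConjugate Filter

namespace MP5f.S4

variable {N i al be c : ℕ} {a : Fin al → ℕ} {b : Fin be → ℕ}

section ext

/-- the first `i` coordinates of a point of `X N (i+1)` -/
noncomputable def oUpdD (hi : i < N) (x : X N (i + 1)) : D N i :=
  ⟨Function.update (x : Fin N → ℂ) ⟨i, hi⟩ 0, by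
    constructor
    · rw [pi_norm_le_iff_of_nonneg zero_le_one]
      intro j
      rcases eq_or_ne j ⟨i, hi⟩ with rfl | h
      · simp
      · rw [Function.update_of_ne h]
        exact (norm_le_pi_norm (x : Fin N → ℂ) _).trans x.2.1.le
    · intro j hj
      rcases eq_or_ne j ⟨i, hi⟩ with rfl | h
      · simp
      · rw [Function.update_of_ne h]
        refine x.2.2 j ?_
        have : (j : ℕ) ≠ i := fun h4 => h (Fin.ext h4)
        omega⟩

theorem continuous_oUpdD (hi : i < N) : Continuous (oUpdD (N := N) hi) :=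
  Continuous.subtype_mk (continuous_subtype_val.update _ continuous_const) _

theorem coe_cellPt (hi : i < N) (x : X N (i + 1)) :
    (cellPt hi x : Fin N → ℂ) = conj ((x : Fin N → ℂ) ⟨i, hi⟩) • (oUpdD hi x : Fin N → ℂ) := rfl

/-- Extension of a map of the disc to the sphere by equivariance. -/
noncomputable def extF (a : Fin al → ℕ) (b : Fin be → ℕ) {K : Type} (hi : i < N)
    (g : D N i × Ball al c × K → V be c) (p : X N (i + 1) × Ball al c × K) : V be c :=
  open Classical in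
  if ‖(p.1 : Fin N → ℂ) ⟨i, hi⟩‖ = 1 then
    rotV b ((p.1 : Fin N → ℂ) ⟨i, hi⟩)
      (g (cellPt hi p.1, rotB a (conj ((p.1 : Fin N → ℂ) ⟨i, hi⟩)) (norm_coord_le hi p.1) p.2.1, p.2.2))
  else g (oUpdD hi p.1, p.2)

/-- Equivariance of the boundary values. -/
def BdEqv (a : Fin al → ℕ) (b : Fin be → ℕ) {K : Type} (g : D N i × Ball al c × K → V be c) : Prop :=
  ∀ t : ℂ, ‖t‖ = 1 → ∀ p p' : D N i × Ball al c × K, ‖(p.1 : Fin N → ℂ)‖ = 1 →
    (p'.1 : Fin N → ℂ) = t • (p.1 : Fin N → ℂ) →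
    (p'.2.1 : W al c) = (rot a t (p.2.1 : W al c).1, (p.2.1 : W al c).2) → p'.2.2 = p.2.2 →
    g p' = rotV b t (g p)

theorem conj_mul_self_of_norm {t : ℂ} (ht : ‖t‖ = 1) : conj t * t = 1 := by
  rw [mul_comm, Complex.mul_conj, Complex.normSq_eq_norm_sq, ht]
  simp

theorem rotB_conj {t : ℂ} (ht : ‖t‖ = 1) (ht' : ‖conj t‖ ≤ 1) (v : Ball al c) :
    (v : W al c) = (rot a t (rotB a (conj t) ht' v : W al c).1, (rotB a (conj t) ht' v : W al c).2) := by
  show (v : W al c) = (rot a t (rot a (conj t) (v : W al c).1), (v : W al c).2)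
  rw [← rot_mul, mul_comm, conj_mul_self_of_norm ht, rot_one]

theorem extF_of_norm {K : Type} {hi : i < N} {g : D N i × Ball al c × K → V be c}
    (hg : BdEqv a b g) (p : X N (i + 1) × Ball al c × K)
    (h : ‖(oUpdD hi p.1 : Fin N → ℂ)‖ = 1) : extF a b hi g p = g (oUpdD hi p.1, p.2) := by
  unfold extF
  split_ifs with h1
  · symm
    refine hg _ h1 _ _ ?_ ?_ ?_ rfl
    · rw [coe_cellPt, norm_smul, RCLike.norm_conj, h1, h, one_mul]
    · rw [coe_cellPt, smul_smul, mul_comm, conj_mul_self_of_norm h1, one_smul]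
    · exact rotB_conj h1 (norm_coord_le hi p.1) p.2.1
  · rfl

theorem extF_cases {K : Type} {hi : i < N} {g : D N i × Ball al c × K → V be c}
    (hg : BdEqv a b g) (p : X N (i + 1) × Ball al c × K) :
    (‖(p.1 : Fin N → ℂ) ⟨i, hi⟩‖ = 1 ∧ extF a b hi g p = rotV b ((p.1 : Fin N → ℂ) ⟨i, hi⟩)
      (g (cellPt hi p.1, rotB a (conj ((p.1 : Fin N → ℂ) ⟨i, hi⟩)) (norm_coord_le hi p.1) p.2.1,
        p.2.2))) ∨
    (‖(oUpdD hi p.1 : Fin N → ℂ)‖ = 1 ∧ extF a b hi g p = g (oUpdD hi p.1, p.2)) := by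
  rcases norm_X_cases hi p.1 with h | h
  · exact Or.inl ⟨h, if_pos h⟩
  · exact Or.inr ⟨h, extF_of_norm hg p h⟩

theorem continuous_extF {K T : Type} [TopologicalSpace K] [TopologicalSpace T] (hi : i < N)
    {g : T → D N i × Ball al c × K → V be c}
    (hc : Continuous fun q : T × (D N i × Ball al c × K) => g q.1 q.2) (hg : ∀ t, BdEqv a b (g t)) :
    Continuous fun q : T × (X N (i + 1) × Ball al c × K) => extF a b hi (g q.1) q.2 := by
  refine continuous_of_closed_cover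
    (A := {q : T × (X N (i + 1) × Ball al c × K) | ‖(q.2.1 : Fin N → ℂ) ⟨i, hi⟩‖ = 1})
    (B := {q : T × (X N (i + 1) × Ball al c × K) | ‖(oUpdD hi q.2.1 : Fin N → ℂ)‖ = 1})
    ?_ ?_ ?_ ?_ ?_
  · exact isClosed_eq ((continuous_coord hi).norm.comp (by fun_prop)) continuous_const
  · refine isClosed_eq ?_ continuous_const
    exact (continuous_subtype_val.comp ((continuous_oUpdD hi).comp (by fun_prop))).norm
  · exact fun q => norm_X_cases hi q.2.1
  · have h1 : Continuous fun q : T × (X N (i + 1) × Ball al c × K) =>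
        rotV b ((q.2.1 : Fin N → ℂ) ⟨i, hi⟩)
          (g q.1 (cellPt hi q.2.1, rotB a (conj ((q.2.1 : Fin N → ℂ) ⟨i, hi⟩))
            (norm_coord_le hi q.2.1) q.2.2.1, q.2.2.2)) := by
      have hq : Continuous fun q : T × (X N (i + 1) × Ball al c × K) =>
          (q.2.1 : Fin N → ℂ) ⟨i, hi⟩ := (continuous_coord hi).comp (by fun_prop)
      refine (continuous_rotV b).comp (Continuous.prodMk hq ?_)
      refine hc.comp (f := fun q : T × (X N (i + 1) × Ball al c × K) => (q.1, ((cellPt hi q.2.1,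
        rotB a (conj ((q.2.1 : Fin N → ℂ) ⟨i, hi⟩)) (norm_coord_le hi q.2.1) q.2.2.1, q.2.2.2) :
          D N i × Ball al c × K))) ?_
      refine Continuous.prodMk continuous_fst (Continuous.prodMk
        ((continuous_cellPt hi).comp (by fun_prop)) (Continuous.prodMk ?_ (by fun_prop)))
      refine Continuous.subtype_mk (Continuous.prodMk ?_ (by fun_prop)) _
      exact (continuous_rot a).comp (Continuous.prodMk
        (Complex.continuous_conj.comp hq) (by fun_prop))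
    refine h1.continuousOn.congr fun q hq => ?_
    exact if_pos hq
  · have h1 : Continuous fun q : T × (X N (i + 1) × Ball al c × K) =>
        g q.1 (oUpdD hi q.2.1, q.2.2) :=
      hc.comp (f := fun q : T × (X N (i + 1) × Ball al c × K) => (q.1, ((oUpdD hi q.2.1, q.2.2) :
        D N i × Ball al c × K))) (Continuous.prodMk continuous_fst (Continuous.prodMk
        ((continuous_oUpdD hi).comp (by fun_prop)) (by fun_prop)))
    refine h1.continuousOn.congr fun q hq => ?_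
    exact extF_of_norm (hg q.1) q.2 hq

theorem extF_eqv {K : Type} {hi : i < N} {g : D N i × Ball al c × K → V be c}
    (hg : BdEqv a b g) {t : ℂ} (ht : ‖t‖ = 1) (p p' : X N (i + 1) × Ball al c × K)
    (h1 : (p'.1 : Fin N → ℂ) = t • (p.1 : Fin N → ℂ))
    (h2 : (p'.2.1 : W al c) = (rot a t (p.2.1 : W al c).1, (p.2.1 : W al c).2))
    (h3 : p'.2.2 = p.2.2) : extF a b hi g p' = rotV b t (extF a b hi g p) := by
  have hx : (p'.1 : Fin N → ℂ) ⟨i, hi⟩ = t * (p.1 : Fin N → ℂ) ⟨i, hi⟩ := by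
    rw [h1]; rfl
  have hn : ‖(p'.1 : Fin N → ℂ) ⟨i, hi⟩‖ = ‖(p.1 : Fin N → ℂ) ⟨i, hi⟩‖ := by
    rw [hx, norm_mul, ht, one_mul]
  have htt := conj_mul_self_of_norm ht
  have hu : (oUpdD hi p'.1 : Fin N → ℂ) = t • (oUpdD hi p.1 : Fin N → ℂ) := by
    show Function.update (p'.1 : Fin N → ℂ) ⟨i, hi⟩ 0 =
      t • Function.update (p.1 : Fin N → ℂ) ⟨i, hi⟩ 0
    rw [h1]
    funext j
    rcases eq_or_ne j ⟨i, hi⟩ with rfl | hj
    · simp
    · simp only [Pi.smul_apply, Function.update_of_ne hj]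
  rcases norm_X_cases hi p.1 with h | h
  · have h' : ‖(p'.1 : Fin N → ℂ) ⟨i, hi⟩‖ = 1 := hn.trans h
    have e1 : cellPt hi p'.1 = cellPt hi p.1 := by
      apply Subtype.ext
      rw [coe_cellPt, coe_cellPt, hu, hx, map_mul, smul_smul, mul_right_comm, htt, one_mul]
    have e2 : rotB a (conj ((p'.1 : Fin N → ℂ) ⟨i, hi⟩)) (norm_coord_le hi p'.1) p'.2.1 =
        rotB a (conj ((p.1 : Fin N → ℂ) ⟨i, hi⟩)) (norm_coord_le hi p.1) p.2.1 := by
      apply Subtype.ext
      show ((rot a (conj ((p'.1 : Fin N → ℂ) ⟨i, hi⟩)) (p'.2.1 : W al c).1, (p'.2.1 : W al c).2) : W al c) =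
        (rot a (conj ((p.1 : Fin N → ℂ) ⟨i, hi⟩)) (p.2.1 : W al c).1, (p.2.1 : W al c).2)
      rw [h2, hx, map_mul]
      simp only
      rw [← rot_mul, mul_right_comm, htt, one_mul]
    have e3 : extF a b hi g p' = rotV b ((p'.1 : Fin N → ℂ) ⟨i, hi⟩)
      (g (cellPt hi p'.1, rotB a (conj ((p'.1 : Fin N → ℂ) ⟨i, hi⟩)) (norm_coord_le hi p'.1) p'.2.1,
        p'.2.2)) := if_pos h'
    have e4 : extF a b hi g p = rotV b ((p.1 : Fin N → ℂ) ⟨i, hi⟩)
      (g (cellPt hi p.1, rotB a (conj ((p.1 : Fin N → ℂ) ⟨i, hi⟩)) (norm_coord_le hi p.1) p.2.1,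
        p.2.2)) := if_pos h
    rw [e3, e4, e1, e2, h3, ← rotV_mul, ← hx]
  · have h0 : ‖(oUpdD hi p.1 : Fin N → ℂ)‖ = 1 := h
    have h' : ‖(oUpdD hi p'.1 : Fin N → ℂ)‖ = 1 := by rw [hu, norm_smul, ht, h0, one_mul]
    rw [extF_of_norm hg p' h', extF_of_norm hg p h0]
    exact hg t ht (oUpdD hi p.1, p.2) (oUpdD hi p'.1, p'.2) h0 hu h2 h3

end ext

/-- a continuous map into a space of maps, given by a formula -/
noncomputable def mkFS {T P V : Type} [TopologicalSpace T] [TopologicalSpace P] [NormedAddCommGroup V]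
    {c : Ctx P V} (Θ : T → P → V) (hc : Continuous fun q : T × P => Θ q.1 q.2)
    (h0 : ∀ f p, Θ f p ≠ 0) (hb : ∀ f p, c.P0 p → Θ f p = c.e) (hE : ∀ f, c.E (Θ f)) :
    C(T, c.FS) where
  toFun f := ⟨⟨Θ f, hc.comp (Continuous.prodMk_right f)⟩, h0 f, hb f, hE f⟩
  continuous_toFun := by
    refine continuous_induced_rng.2 ?_
    exact ContinuousMap.continuous_of_continuous_uncurry
      (fun f : T => (⟨Θ f, hc.comp (Continuous.prodMk_right f)⟩ : C(P, V))) hc

theorem mkFS_apply {T P V : Type} [TopologicalSpace T] [TopologicalSpace P] [NormedAddCommGroup V]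
    {c : Ctx P V} (Θ : T → P → V) (hc : Continuous fun q : T × P => Θ q.1 q.2)
    (h0 : ∀ f p, Θ f p ≠ 0) (hb : ∀ f p, c.P0 p → Θ f p = c.e) (hE : ∀ f, c.E (Θ f)) (f : T)
    (p : P) : mkFS Θ hc h0 hb hE f p = Θ f p := rfl

end MP5f.S4
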