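import Pool.Agent.H.MP_5f9601_gt.U.OR
import Pool.Agent.H.MP_5f9601_gt.U.Pi2

/-!
MP_5f9601, section 4 (helper19): `h_o_R` for the induced homomorphisms.
-/

set_option autoImplicit false

open Set Topology

namespace MP5f.S4

variable {N i al be : ℕ} (a : Fin al → ℕ) (b : Fin be → ℕ)

/-- `o ∘ R = 0` -/
theorem map_oo_res (hi : i < N) (c rho : ℕ) (x : (YC N (i + 1) a b c (Cu (rho + 1))).A) :
    (oo a b N i c rho).map ((res a b c (Cu (rho + 1)) (Nat.le_succ i)).map x) = 0 := by
  rw [← BMap.map_comp]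
  exact BMap.map_zero_of _ (OR_null a b hi c rho) x

end MP5f.S4
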