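import Pool.Agent.H.MP_5f9601_gt.U.Pi2

/-!
Additivity of a binary operation on second homotopy groups (helper50).
-/

set_option autoImplicit false
open Set Topology unitInterval
open scoped Topology.Homotopy

namespace MP5f.S4

/-! ### additivity -/

section add

variable {Y : Type} [TopologicalSpace Y] {y : Y}

/-- a binary operation applied to two loops -/
def gbin (M : C(Y × Y, Y)) (hM : M (y, y) = y) (F G : GenLoop (Fin 2) Y y) :
    GenLoop (Fin 2) Y y :=
  ⟨M.comp (F.1.prodMk G.1), fun t ht => by
    show M (F t, G t) = y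
    rw [GenLoop.boundary F t ht, GenLoop.boundary G t ht, hM]⟩

/-- `min(1, (1+τ)s)` -/
noncomputable def cA (τ s : I) : I := projIcc 0 1 zero_le_one ((1 + (τ : ℝ)) * s)

/-- `max(0, (1+τ)s - τ)` -/
noncomputable def cB (τ s : I) : I := projIcc 0 1 zero_le_one ((1 + (τ : ℝ)) * s - τ)

theorem continuous_cA : Continuous fun q : I × I => cA q.1 q.2 :=
  continuous_projIcc.comp (by fun_prop)

theorem continuous_cB : Continuous fun q : I × I => cB q.1 q.2 :=
  continuous_projIcc.comp (by fun_prop)

theorem cA_zero (s : I) : cA 0 s = s := by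
  unfold cA
  have : ((1 : ℝ) + ((0 : I) : ℝ)) * s = s := by simp
  rw [this]
  exact projIcc_val zero_le_one s

theorem cB_zero (s : I) : cB 0 s = s := by
  unfold cB
  have : ((1 : ℝ) + ((0 : I) : ℝ)) * s - ((0 : I) : ℝ) = s := by simp
  rw [this]
  exact projIcc_val zero_le_one s

theorem cA_left (τ : I) : cA τ 0 = 0 := by
  unfold cA
  have : ((1 : ℝ) + (τ : ℝ)) * ((0 : I) : ℝ) = 0 := by simp
  rw [this]
  exact projIcc_of_le_left _ le_rfl

theorem cB_left (τ : I) : cB τ 0 = 0 := by
  unfold cB
  have : ((1 : ℝ) + (τ : ℝ)) * ((0 : I) : ℝ) - τ ≤ 0 := by simpa using τ.2.1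
  exact projIcc_of_le_left _ this

theorem cA_right (τ : I) : cA τ 1 = 1 := by
  unfold cA
  have : 1 ≤ ((1 : ℝ) + (τ : ℝ)) * ((1 : I) : ℝ) := by simpa using τ.2.1
  exact projIcc_of_right_le _ this

theorem cB_right (τ : I) : cB τ 1 = 1 := by
  unfold cB
  have : 1 ≤ ((1 : ℝ) + (τ : ℝ)) * ((1 : I) : ℝ) - τ := by simp
  exact projIcc_of_right_le _ this

theorem gbin_homotopic (M : C(Y × Y, Y)) (hM : M (y, y) = y) (F G : GenLoop (Fin 2) Y y) :
    GenLoop.Homotopic (gbin M hM F G)
      (GenLoop.transAt 0 (gbin M hM F GenLoop.const) (gbin M hM GenLoop.const G)) := by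
  have hc : Continuous fun q : I × (Fin 2 → I) =>
      M (F (Function.update q.2 0 (cA q.1 (q.2 0))), G (Function.update q.2 0 (cB q.1 (q.2 0)))) := by
    refine M.continuous.comp (Continuous.prodMk ?_ ?_)
    · exact F.1.continuous.comp (continuous_snd.update 0
        (continuous_cA.comp (continuous_fst.prodMk ((continuous_apply 0).comp continuous_snd))))
    · exact G.1.continuous.comp (continuous_snd.update 0
        (continuous_cB.comp (continuous_fst.prodMk ((continuous_apply 0).comp continuous_snd))))
  refine ⟨⟨⟨⟨fun q => M (F (Function.update q.2 0 (cA q.1 (q.2 0))),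
      G (Function.update q.2 0 (cB q.1 (q.2 0)))), hc⟩, fun t => ?_, fun t => ?_⟩, ?_⟩⟩
  · show M (F (Function.update t 0 (cA 0 (t 0))), G (Function.update t 0 (cB 0 (t 0)))) = M (F t, G t)
    rw [cA_zero, cB_zero, Function.update_eq_self]
  · show M (F (Function.update t 0 (cA 1 (t 0))), G (Function.update t 0 (cB 1 (t 0)))) =
      (GenLoop.transAt 0 (gbin M hM F GenLoop.const) (gbin M hM GenLoop.const G)) t
    simp only [GenLoop.transAt, GenLoop.coe_copy]
    have e1 : ((1 : ℝ) + ((1 : I) : ℝ)) = 2 := by norm_num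
    split_ifs with h
    · have h2 : cB 1 (t 0) = 0 := by
        unfold cB
        rw [e1]
        refine projIcc_of_le_left _ ?_
        have : ((1 : I) : ℝ) = 1 := rfl
        rw [this]
        linarith
      have h3 : cA 1 (t 0) = projIcc 0 1 zero_le_one (2 * (t 0 : ℝ)) := by
        unfold cA
        rw [e1]
      rw [h2, h3]
      show M (_, _) = M (_, y)
      have h4 : G (Function.update t 0 0) = y :=
        GenLoop.boundary G _ ⟨0, Or.inl (Function.update_self _ _ _)⟩
      rw [h4]
      rfl
    · have h2 : cA 1 (t 0) = 1 := by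
        unfold cA
        rw [e1]
        refine projIcc_of_right_le _ ?_
        linarith
      have h3 : cB 1 (t 0) = projIcc 0 1 zero_le_one (2 * (t 0 : ℝ) - 1) := by
        unfold cB
        rw [e1]
        rfl
      rw [h2, h3]
      show M (_, _) = M (y, _)
      have h4 : F (Function.update t 0 1) = y :=
        GenLoop.boundary F _ ⟨0, Or.inr (Function.update_self _ _ _)⟩
      rw [h4]
      rfl
  · intro s t ht
    show M (F (Function.update t 0 (cA s (t 0))), G (Function.update t 0 (cB s (t 0)))) = M (F t, G t)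
    have hF : F (Function.update t 0 (cA s (t 0))) = y := by
      refine GenLoop.boundary F _ ?_
      obtain ⟨j, hj⟩ := ht
      by_cases h : j = 0
      · subst h
        refine ⟨0, ?_⟩
        rw [Function.update_self]
        rcases hj with h | h
        · left; rw [h, cA_left]
        · right; rw [h, cA_right]
      · exact ⟨j, by rwa [Function.update_of_ne h]⟩
    have hG : G (Function.update t 0 (cB s (t 0))) = y := by
      refine GenLoop.boundary G _ ?_
      obtain ⟨j, hj⟩ := ht
      by_cases h : j = 0
      · subst h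
        refine ⟨0, ?_⟩
        rw [Function.update_self]
        rcases hj with h | h
        · left; rw [h, cB_left]
        · right; rw [h, cB_right]
      · exact ⟨j, by rwa [Function.update_of_ne h]⟩
    rw [hF, hG, GenLoop.boundary F t ht, GenLoop.boundary G t ht]

/-- the class of a loop -/
def gcls (p : GenLoop (Fin 2) Y y) : Additive (HomotopyGroup (Fin 2) Y y) :=
  Additive.ofMul (Quotient.mk (GenLoop.Homotopic.setoid (Fin 2) y) p : HomotopyGroup (Fin 2) Y y)

/-- the class of `M(F, G)` is the sum of the classes of `M(F, *)` and `M(*, G)` -/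
theorem gbin_class (M : C(Y × Y, Y)) (hM : M (y, y) = y) (F G : GenLoop (Fin 2) Y y) :
    gcls (gbin M hM F G) =
      gcls (gbin M hM F GenLoop.const) + gcls (gbin M hM GenLoop.const G) := by
  have h1 : gcls (gbin M hM F G) =
      gcls (GenLoop.transAt 0 (gbin M hM F GenLoop.const) (gbin M hM GenLoop.const G)) :=
    Quotient.sound (gbin_homotopic M hM F G)
  have h2 : gcls (gbin M hM GenLoop.const G) + gcls (gbin M hM F GenLoop.const) =
      gcls (GenLoop.transAt 0 (gbin M hM F GenLoop.const) (gbin M hM GenLoop.const G)) :=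
    HomotopyGroup.mul_spec (i := (0 : Fin 2)) (p := gbin M hM GenLoop.const G)
      (q := gbin M hM F GenLoop.const)
  rw [h1, ← h2, add_comm]

end add

end MP5f.S4
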