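import Pool.Agent.H.MP_5f9601_gt.U.RDef

/-!
# S13261 (R), part 1: base spaces, gluing, the polar lemma
-/

set_option autoImplicit false

open Set Filter Topology Metric

namespace Pool.Agent.H.MP_5f9601_gt.U

/-- gluing along a continuous function -/
theorem glue {α β : Type*} [TopologicalSpace α] [TopologicalSpace β] {f : α → β} {S : Set α}
    {c : α → ℝ} (hc : ContinuousOn c S) (h1 : ContinuousOn f (S ∩ {x | c x ≤ 0}))
    (h2 : ContinuousOn f (S ∩ {x | 0 ≤ c x})) : ContinuousOn f S := by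
  intro x hx
  rcases lt_trichotomy (c x) 0 with h | h | h
  · refine (h1 x ⟨hx, h.le⟩).mono_of_mem_nhdsWithin ?_
    have := (hc x hx).eventually (gt_mem_nhds h)
    filter_upwards [this, self_mem_nhdsWithin] with z hz hzS
    exact ⟨hzS, hz.le⟩
  · have e : S = (S ∩ {x | c x ≤ 0}) ∪ (S ∩ {x | 0 ≤ c x}) := by
      ext z
      constructor
      · intro hz
        rcases le_total (c z) 0 with h' | h'
        · exact Or.inl ⟨hz, h'⟩
        · exact Or.inr ⟨hz, h'⟩
      · rintro (hz | hz)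
        · exact hz.1
        · exact hz.1
    rw [e]
    exact (h1 x ⟨hx, h.le⟩).union (h2 x ⟨hx, h.ge⟩)
  · refine (h2 x ⟨hx, h.le⟩).mono_of_mem_nhdsWithin ?_
    have := (hc x hx).eventually (lt_mem_nhds h)
    filter_upwards [this, self_mem_nhdsWithin] with z hz hzS
    exact ⟨hzS, hz.le⟩

/-- nonzero vectors supported in the first `a` coordinates -/
def XX (a : ℕ) : Set (ℕ → ℂ) := {x | x ≠ 0 ∧ ∀ i, a ≤ i → x i = 0}

theorem XX_zero : XX 0 = ∅ := by
  ext x
  constructor
  · rintro ⟨h1, h2⟩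
    exact h1 (funext fun i => h2 i (Nat.zero_le i))
  · intro h
    exact h.elim

theorem XX_mono {a a' : ℕ} (h : a ≤ a') : XX a ⊆ XX a' :=
  fun _ hx => ⟨hx.1, fun i hi => hx.2 i (h.trans hi)⟩

theorem XX_smul {a : ℕ} {x : ℕ → ℂ} (hx : x ∈ XX a) {t : ℂ} (ht : ‖t‖ = 1) : t • x ∈ XX a := by
  have ht0 : t ≠ 0 := by
    intro h
    rw [h, norm_zero] at ht
    exact zero_ne_one ht
  refine ⟨smul_ne_zero ht0 hx.1, fun i hi => ?_⟩
  show t * x i = 0
  rw [hx.2 i hi, mul_zero]

/-- the first `a` coordinates -/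
def tr (a : ℕ) (x : ℕ → ℂ) : ℕ → ℂ := fun i => if i < a then x i else 0

/-- the coordinates `a, ..., a+p-1` -/
noncomputable def xi (a p : ℕ) (x : ℕ → ℂ) : EuclideanSpace ℂ (Fin p) :=
  WithLp.toLp 2 fun i => x (a + i)

theorem xi_apply (a p : ℕ) (x : ℕ → ℂ) (i : Fin p) : xi a p x i = x (a + i) := rfl

/-- the rest (coordinates `≥ a`) -/
def rs (a : ℕ) (x : ℕ → ℂ) : ℕ → ℂ := fun i => if i < a then 0 else x i

/-- size of the first part -/
noncomputable def n1 (a : ℕ) (x : ℕ → ℂ) : ℝ := ∑ i ∈ Finset.range a, ‖x i‖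

/-- size of the second part -/
noncomputable def n2 (a p : ℕ) (x : ℕ → ℂ) : ℝ := ‖xi a p x‖

theorem tr_add_rs (a : ℕ) (x : ℕ → ℂ) : tr a x + rs a x = x := by
  funext i
  show (if i < a then x i else 0) + (if i < a then 0 else x i) = x i
  split_ifs <;> simp

theorem continuous_tr (a : ℕ) : Continuous (tr a) := by
  refine continuous_pi fun i => ?_
  by_cases h : i < a
  · simpa [tr, h] using continuous_apply (A := fun _ : ℕ => ℂ) i
  · simpa [tr, h] using continuous_const

theorem continuous_rs (a : ℕ) : Continuous (rs a) := by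
  refine continuous_pi fun i => ?_
  by_cases h : i < a
  · simpa [rs, h] using continuous_const
  · simpa [rs, h] using continuous_apply (A := fun _ : ℕ => ℂ) i

theorem continuous_xi (a p : ℕ) : Continuous (xi a p) :=
  (PiLp.continuous_toLp 2 _).comp (continuous_pi fun i => continuous_apply _)

theorem continuous_n1 (a : ℕ) : Continuous (n1 a) :=
  continuous_finsetSum _ fun i _ => (continuous_apply (A := fun _ : ℕ => ℂ) i).norm

theorem continuous_n2 (a p : ℕ) : Continuous (n2 a p) := (continuous_xi a p).norm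

theorem n1_nonneg (a : ℕ) (x : ℕ → ℂ) : 0 ≤ n1 a x := Finset.sum_nonneg fun _ _ => norm_nonneg _

theorem n2_nonneg (a p : ℕ) (x : ℕ → ℂ) : 0 ≤ n2 a p x := norm_nonneg _

theorem tr_smul (a : ℕ) (t : ℂ) (x : ℕ → ℂ) : tr a (t • x) = t • tr a x := by
  funext i
  show (if i < a then t * x i else 0) = t * (if i < a then x i else 0)
  split_ifs <;> simp

theorem rs_smul (a : ℕ) (t : ℂ) (x : ℕ → ℂ) : rs a (t • x) = t • rs a x := by
  funext i
  show (if i < a then 0 else t * x i) = t * (if i < a then 0 else x i)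
  split_ifs <;> simp

theorem xi_smul (a p : ℕ) (t : ℂ) (x : ℕ → ℂ) : xi a p (t • x) = t • xi a p x := by
  ext i
  rfl

theorem n1_smul (a : ℕ) {t : ℂ} (ht : ‖t‖ = 1) (x : ℕ → ℂ) : n1 a (t • x) = n1 a x := by
  refine Finset.sum_congr rfl fun i _ => ?_
  show ‖t * x i‖ = ‖x i‖
  rw [norm_mul, ht, one_mul]

theorem n2_smul (a p : ℕ) {t : ℂ} (ht : ‖t‖ = 1) (x : ℕ → ℂ) : n2 a p (t • x) = n2 a p x := by
  rw [n2, xi_smul, norm_smul, ht, one_mul, n2]

theorem n1_eq_zero {a : ℕ} {x : ℕ → ℂ} (h : n1 a x = 0) : tr a x = 0 := by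
  funext i
  show (if i < a then x i else 0) = 0
  split_ifs with hi
  · have := (Finset.sum_eq_zero_iff_of_nonneg (fun i _ => norm_nonneg (x i))).1 h i
      (Finset.mem_range.2 hi)
    exact norm_eq_zero.1 this
  · rfl

theorem n2_eq_zero {a p : ℕ} {x : ℕ → ℂ} (hx : ∀ i, a + p ≤ i → x i = 0) (h : n2 a p x = 0) :
    rs a x = 0 := by
  have h1 : xi a p x = 0 := norm_eq_zero.1 h
  funext i
  show (if i < a then 0 else x i) = 0
  split_ifs with hi
  · rfl
  · by_cases hi2 : i < a + p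
    · have h2 : xi a p x ⟨i - a, by omega⟩ = 0 := by rw [h1]; rfl
      rw [xi_apply] at h2
      have e : a + (i - a) = i := by omega
      simp only [e] at h2
      exact h2
    · exact hx i (by omega)

theorem n1_pos_of {a p : ℕ} {x : ℕ → ℂ} (hx : x ∈ XX (a + p)) (h : n2 a p x ≤ n1 a x) :
    0 < n1 a x := by
  rcases (n1_nonneg a x).lt_or_eq with h1 | h1
  · exact h1
  · exfalso
    have h2 : n2 a p x = 0 := le_antisymm (h.trans h1.symm.le) (n2_nonneg a p x)
    apply hx.1
    rw [← tr_add_rs a x, n1_eq_zero h1.symm, n2_eq_zero hx.2 h2, add_zero]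

theorem n2_pos_of {a p : ℕ} {x : ℕ → ℂ} (hx : x ∈ XX (a + p)) (h : n1 a x ≤ 2 * n2 a p x) :
    0 < n2 a p x := by
  rcases (n2_nonneg a p x).lt_or_eq with h1 | h1
  · exact h1
  · exfalso
    have h2 : n1 a x = 0 := by
      have := n1_nonneg a x
      rw [← h1] at h
      linarith
    apply hx.1
    rw [← tr_add_rs a x, n1_eq_zero h2, n2_eq_zero hx.2 h1.symm, add_zero]

theorem tr_mem {a : ℕ} {x : ℕ → ℂ} (h : 0 < n1 a x) : tr a x ∈ XX a := by
  refine ⟨fun h0 => ?_, fun i hi => ?_⟩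
  · have : n1 a x = 0 := by
      refine Finset.sum_eq_zero fun i hi => ?_
      have h1 := congrFun h0 i
      have h2 : (if i < a then x i else 0) = 0 := h1
      rw [if_pos (Finset.mem_range.1 hi)] at h2
      rw [h2, norm_zero]
    exact absurd this h.ne'
  · show (if i < a then x i else 0) = 0
    rw [if_neg (by omega)]

theorem tr_eq_self {a : ℕ} {x : ℕ → ℂ} (hx : x ∈ XX a) : tr a x = x := by
  funext i
  show (if i < a then x i else 0) = x i
  split_ifs with h
  · rfl
  · exact (hx.2 i (by omega)).symm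

theorem xi_eq_zero {a p : ℕ} {x : ℕ → ℂ} (hx : x ∈ XX a) : xi a p x = 0 := by
  ext i
  exact hx.2 _ (by omega)

section polar

variable {p : ℕ} [NeZero p]

/-- a point of the sphere -/
noncomputable def y0 (p : ℕ) [NeZero p] : Y p :=
  ⟨EuclideanSpace.single (0 : Fin p) 1, by simp⟩

open Classical in
/-- normalisation -/
noncomputable def nrm (z : EuclideanSpace ℂ (Fin p)) : Y p :=
  if h : z = 0 then y0 p else ⟨(‖z‖⁻¹ : ℝ) • z, by
    rw [mem_sphere_zero_iff_norm, norm_smul, norm_inv, norm_norm,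
      inv_mul_cancel₀ (norm_ne_zero_iff.2 h)]⟩

theorem nrm_coe {z : EuclideanSpace ℂ (Fin p)} (h : z ≠ 0) :
    (nrm z : EuclideanSpace ℂ (Fin p)) = (‖z‖⁻¹ : ℝ) • z := by
  rw [nrm, dif_neg h]

theorem nrm_smul {z : EuclideanSpace ℂ (Fin p)} (h : z ≠ 0) {t : ℂ} (ht : ‖t‖ = 1) :
    (nrm (t • z) : EuclideanSpace ℂ (Fin p)) = t • (nrm z : EuclideanSpace ℂ (Fin p)) := by
  have ht0 : t ≠ 0 := by
    intro h
    rw [h, norm_zero] at ht
    exact zero_ne_one ht
  rw [nrm_coe h, nrm_coe (smul_ne_zero ht0 h), norm_smul, ht, one_mul, smul_comm]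

theorem continuousAt_nrm {z : EuclideanSpace ℂ (Fin p)} (h : z ≠ 0) :
    ContinuousAt (nrm : EuclideanSpace ℂ (Fin p) → Y p) z := by
  rw [Topology.IsInducing.subtypeVal.continuousAt_iff]
  have h1 : ContinuousAt (fun z : EuclideanSpace ℂ (Fin p) => (‖z‖⁻¹ : ℝ) • z) z :=
    (continuousAt_id.norm.inv₀ (norm_ne_zero_iff.2 h)).smul continuousAt_id
  refine h1.congr ?_
  filter_upwards [isOpen_ne.mem_nhds h] with w hw
  exact (nrm_coe hw).symm

/-- polar coordinates: a family over the sphere which is constant over `K0` gives a continuous function -/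
theorem polar {Z B : Type*} [TopologicalSpace Z] [TopologicalSpace B] {G : Z → Y p → B}
    (hG : Continuous fun q : Z × Y p => G q.1 q.2) {K0 : Set Z}
    (hK : ∀ z ∈ K0, ∀ y y', G z y = G z y') :
    ContinuousOn (fun q : Z × EuclideanSpace ℂ (Fin p) => G q.1 (nrm q.2))
      {q | q.2 ≠ 0 ∨ q.1 ∈ K0} := by
  rintro ⟨z, w⟩ hq
  by_cases hw : w = 0
  · have hz : z ∈ K0 := by
      rcases hq with h | h
      · exact absurd hw h
      · exact h
    refine ContinuousAt.continuousWithinAt ?_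
    rw [ContinuousAt, tendsto_def]
    intro N hN
    have h1 : ∀ y ∈ (univ : Set (Y p)), ∀ᶠ r : Z × Y p in 𝓝 (z, y), G r.1 r.2 ∈ N := by
      intro y _
      have h2 : G z y = G z (nrm w) := hK z hz _ _
      have h3 : N ∈ 𝓝 (G z y) := by
        rw [h2]
        exact hN
      exact (hG.tendsto (z, y)).eventually h3
    have h4 := (isCompact_univ (X := Y p)).eventually_forall_of_forall_eventually
      (x₀ := z) (P := fun z y => G z y ∈ N) h1
    have h5 : ∀ᶠ q : Z × EuclideanSpace ℂ (Fin p) in 𝓝 (z, w), ∀ y ∈ (univ : Set (Y p)), G q.1 y ∈ N :=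
      (continuous_fst.tendsto (z, w)).eventually h4
    filter_upwards [h5] with q hq'
    exact hq' _ (mem_univ _)
  · have h1 : ContinuousAt (fun q : Z × EuclideanSpace ℂ (Fin p) => (q.1, (nrm q.2 : Y p))) (z, w) :=
      continuousAt_fst.prodMk (ContinuousAt.comp (f := Prod.snd) (continuousAt_nrm hw) continuousAt_snd)
    exact (ContinuousAt.comp (f := fun q : Z × EuclideanSpace ℂ (Fin p) => (q.1, (nrm q.2 : Y p)))
      (hG.continuousAt) h1).continuousWithinAt

end polar

end Pool.Agent.H.MP_5f9601_gt.U
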