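import Pool.Agent.H.MP_5f9601_gt.U.R1

/-!
# S13261 (R), part 2: families, pieces, gluing and concatenation
-/

set_option autoImplicit false

open Set Filter Topology Metric

namespace Pool.Agent.H.MP_5f9601_gt.U

variable {p : ℕ} {V : Type} [NormedAddCommGroup V] [NormedSpace ℂ V]

/-- adding a coordinate: `(D + 1) G` -/
def TT (b : ℕ) (D : V × ℂ → V × (ℕ → ℂ)) (G : (V × ℂ) × ℂ) : V × (ℕ → ℂ) :=
  ((D G.1).1, (D G.1).2 + Pi.single (b + 1) G.2)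

theorem TT_iota (b : ℕ) (D : V × ℂ → V × (ℕ → ℂ)) (v : V × ℂ) : TT b D (v, 0) = D v := by
  simp [TT]

theorem TT_ne {b : ℕ} {D : V × ℂ → V × (ℕ → ℂ)} (h1 : ∀ v, v ≠ 0 → D v ≠ 0)
    (h2 : ∀ v, (D v).2 (b + 1) = 0) {G : (V × ℂ) × ℂ} (hG : G ≠ 0) : TT b D G ≠ 0 := by
  intro h
  have e1 : (D G.1).1 = 0 := congrArg Prod.fst h
  have e2 : (D G.1).2 + Pi.single (b + 1) G.2 = 0 := congrArg Prod.snd h
  have e3 := congrFun e2 (b + 1)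
  rw [Pi.add_apply, h2, Pi.single_eq_same, zero_add] at e3
  have e4 : G.2 = 0 := e3
  rw [e4, Pi.single_zero, add_zero] at e2
  have e5 : D G.1 = 0 := Prod.ext e1 e2
  have e6 : G.1 = 0 := by
    by_contra h0
    exact h1 _ h0 e5
  exact hG (Prod.ext e6 e4)

theorem TT_supp {b : ℕ} {D : V × ℂ → V × (ℕ → ℂ)} (h : ∀ v i, b < i → (D v).2 i = 0)
    (G : (V × ℂ) × ℂ) {i : ℕ} (hi : b + 1 < i) : (TT b D G).2 i = 0 := by
  show (D G.1).2 i + (Pi.single (b + 1) G.2 : ℕ → ℂ) i = 0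
  rw [h _ _ (by omega), Pi.single_eq_of_ne (by omega), add_zero]

theorem TT_eqv {b w : ℕ} {D D' : V × ℂ → V × (ℕ → ℂ)} {t : ℂ}
    (h : ∀ v, D' (act p w t v) = t ^ p • D v) (G : (V × ℂ) × ℂ) :
    TT b D' (act p w t G.1, t ^ p * G.2) = t ^ p • TT b D G := by
  refine Prod.ext ?_ ?_
  · show (D' (act p w t G.1)).1 = t ^ p • (D G.1).1
    rw [h]
    rfl
  · show (D' (act p w t G.1)).2 + Pi.single (b + 1) (t ^ p * G.2) =
      t ^ p • ((D G.1).2 + Pi.single (b + 1) G.2)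
    rw [h, smul_add]
    congr 1
    funext i
    by_cases hi : i = b + 1
    · subst hi
      simp
    · simp [Pi.single_eq_of_ne hi]

/-- a family of maps over the part `S` of (parameter) × (base) -/
structure PieceOn (p w b : ℕ) (S : Set (ℝ × (ℕ → ℂ)))
    (F : ℝ → (ℕ → ℂ) → V × ℂ → V × (ℕ → ℂ)) : Prop where
  cont : ContinuousOn (fun q : ℝ × (ℕ → ℂ) × (V × ℂ) => F q.1 q.2.1 q.2.2)
    {q | (q.1, q.2.1) ∈ S}
  ne : ∀ u x, (u, x) ∈ S → ∀ v, v ≠ 0 → F u x v ≠ 0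
  supp : ∀ u x, (u, x) ∈ S → ∀ v i, b < i → (F u x v).2 i = 0
  eqv : ∀ t : ℂ, ‖t‖ = 1 → ∀ u x, (u, x) ∈ S → ∀ v,
    F u (t • x) (act p w t v) = t ^ p • F u x v

/-- a family over `[0,1] × (ℂ^a ∖ 0)` -/
abbrev Fam (p a w b : ℕ) (F : ℝ → (ℕ → ℂ) → V × ℂ → V × (ℕ → ℂ)) : Prop :=
  PieceOn p w b (Icc 0 1 ×ˢ XX a) F

theorem PieceOn.congr {w b : ℕ} {S : Set (ℝ × (ℕ → ℂ))}
    {F F' : ℝ → (ℕ → ℂ) → V × ℂ → V × (ℕ → ℂ)} (h : PieceOn p w b S F)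
    (hS : ∀ t : ℂ, ‖t‖ = 1 → ∀ u x, (u, x) ∈ S → (u, t • x) ∈ S)
    (e : ∀ u x, (u, x) ∈ S → ∀ v, F' u x v = F u x v) : PieceOn p w b S F' where
  cont := h.cont.congr fun q hq => e q.1 q.2.1 hq q.2.2
  ne u x hx v hv := by
    rw [e u x hx]
    exact h.ne u x hx v hv
  supp u x hx v i hi := by
    rw [e u x hx]
    exact h.supp u x hx v i hi
  eqv t ht u x hx v := by
    rw [e u x hx, e u (t • x) (hS t ht u x hx)]
    exact h.eqv t ht u x hx v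

/-- gluing two pieces -/
theorem PieceOn.glue {w b : ℕ} {S : Set (ℝ × (ℕ → ℂ))}
    {F F1 F2 : ℝ → (ℕ → ℂ) → V × ℂ → V × (ℕ → ℂ)} {c : ℝ × (ℕ → ℂ) → ℝ}
    (hc : ContinuousOn c S)
    (hcinv : ∀ t : ℂ, ‖t‖ = 1 → ∀ u x, (u, x) ∈ S → c (u, t • x) = c (u, x))
    (hS : ∀ t : ℂ, ‖t‖ = 1 → ∀ u x, (u, x) ∈ S → (u, t • x) ∈ S)
    (h1 : PieceOn p w b (S ∩ {q | c q ≤ 0}) F1) (h2 : PieceOn p w b (S ∩ {q | 0 ≤ c q}) F2)
    (e1 : ∀ u x, (u, x) ∈ S → c (u, x) ≤ 0 → ∀ v, F u x v = F1 u x v)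
    (e2 : ∀ u x, (u, x) ∈ S → 0 ≤ c (u, x) → ∀ v, F u x v = F2 u x v) : PieceOn p w b S F where
  cont := by
    have hpr : Continuous fun q : ℝ × (ℕ → ℂ) × (V × ℂ) => (q.1, q.2.1) := by fun_prop
    refine U.glue (c := fun q : ℝ × (ℕ → ℂ) × (V × ℂ) => c (q.1, q.2.1)) ?_ ?_ ?_
    · exact hc.comp hpr.continuousOn fun q hq => hq
    · refine (h1.cont.mono ?_).congr ?_
      · rintro q ⟨hq1, hq2⟩
        exact ⟨hq1, hq2⟩
      · rintro q ⟨hq1, hq2⟩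
        exact e1 _ _ hq1 hq2 _
    · refine (h2.cont.mono ?_).congr ?_
      · rintro q ⟨hq1, hq2⟩
        exact ⟨hq1, hq2⟩
      · rintro q ⟨hq1, hq2⟩
        exact e2 _ _ hq1 hq2 _
  ne u x hx v hv := by
    rcases le_total (c (u, x)) 0 with h | h
    · rw [e1 u x hx h]
      exact h1.ne u x ⟨hx, h⟩ v hv
    · rw [e2 u x hx h]
      exact h2.ne u x ⟨hx, h⟩ v hv
  supp u x hx v i hi := by
    rcases le_total (c (u, x)) 0 with h | h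
    · rw [e1 u x hx h]
      exact h1.supp u x ⟨hx, h⟩ v i hi
    · rw [e2 u x hx h]
      exact h2.supp u x ⟨hx, h⟩ v i hi
  eqv t ht u x hx v := by
    have hc' := hcinv t ht u x hx
    rcases le_total (c (u, x)) 0 with h | h
    · rw [e1 u x hx h, e1 u (t • x) (hS t ht u x hx) (by rw [hc']; exact h)]
      exact h1.eqv t ht u x ⟨hx, h⟩ v
    · rw [e2 u x hx h, e2 u (t • x) (hS t ht u x hx) (by rw [hc']; exact h)]
      exact h2.eqv t ht u x ⟨hx, h⟩ v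

theorem Fam_inv (a : ℕ) (t : ℂ) (ht : ‖t‖ = 1) (u : ℝ) (x : ℕ → ℂ)
    (h : (u, x) ∈ Icc (0 : ℝ) 1 ×ˢ XX a) : (u, t • x) ∈ Icc (0 : ℝ) 1 ×ˢ XX a :=
  ⟨h.1, XX_smul h.2 ht⟩

/-- reparametrisation -/
theorem PieceOn.repar {w b : ℕ} {S S' : Set (ℝ × (ℕ → ℂ))}
    {F : ℝ → (ℕ → ℂ) → V × ℂ → V × (ℕ → ℂ)} (h : PieceOn p w b S F) {r : ℝ → ℝ}
    (hr : Continuous r) (hS : ∀ u x, (u, x) ∈ S' → (r u, x) ∈ S) :
    PieceOn p w b S' (fun u => F (r u)) where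
  cont := by
    have hpr : Continuous fun q : ℝ × (ℕ → ℂ) × (V × ℂ) => (r q.1, q.2.1, q.2.2) := by fun_prop
    exact h.cont.comp hpr.continuousOn fun q hq => hS _ _ hq
  ne u x hx v hv := h.ne _ _ (hS u x hx) v hv
  supp u x hx v i hi := h.supp _ _ (hS u x hx) v i hi
  eqv t ht u x hx v := h.eqv t ht _ _ (hS u x hx) v

/-- concatenation -/
theorem Fam.trans {a w b : ℕ} {F G : ℝ → (ℕ → ℂ) → V × ℂ → V × (ℕ → ℂ)} (hF : Fam p a w b F)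
    (hG : Fam p a w b G) (h : ∀ x ∈ XX a, ∀ v, F 1 x v = G 0 x v) :
    Fam p a w b (fun u => if u ≤ 1 / 2 then F (2 * u) else G (2 * u - 1)) := by
  refine PieceOn.glue (c := fun q => q.1 - 1 / 2) (F1 := fun u => F (2 * u))
    (F2 := fun u => G (2 * u - 1)) ?_ ?_ (Fam_inv a) ?_ ?_ ?_ ?_
  · fun_prop
  · intro t _ u x _
    rfl
  · refine hF.repar (r := fun u => 2 * u) (by fun_prop) ?_
    rintro u x ⟨⟨hu, hx⟩, hc⟩
    have hc' : u - 1 / 2 ≤ 0 := hc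
    have hu' : 0 ≤ u := hu.1
    exact ⟨⟨by linarith, by linarith⟩, hx⟩
  · refine hG.repar (r := fun u => 2 * u - 1) (by fun_prop) ?_
    rintro u x ⟨⟨hu, hx⟩, hc⟩
    have hc' : 0 ≤ u - 1 / 2 := hc
    have hu' : u ≤ 1 := hu.2
    exact ⟨⟨by linarith, by linarith⟩, hx⟩
  · intro u x _ hc v
    have hc' : u - 1 / 2 ≤ 0 := hc
    rw [if_pos (by linarith)]
  · intro u x hx hc v
    have hc' : 0 ≤ u - 1 / 2 := hc
    by_cases h2 : u ≤ 1 / 2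
    · rw [if_pos h2]
      have e : u = 1 / 2 := le_antisymm h2 (by linarith)
      subst e
      norm_num
      exact h x hx.2 v
    · rw [if_neg h2]

section piece

variable [NeZero p]

/-- the basic formula -/
noncomputable def EE (a b : ℕ) (D : ℝ → (ℕ → ℂ) → V × ℂ → V × (ℕ → ℂ))
    (G : ℝ → ℝ → Y p → V × ℂ → (V × ℂ) × ℂ) (r : ℝ × (ℕ → ℂ) → ℝ) (z : ℝ × (ℕ → ℂ) → (ℕ → ℂ))
    (al : ℝ × (ℕ → ℂ) → ℝ) (u : ℝ) (x : ℕ → ℂ) (v : V × ℂ) : V × (ℕ → ℂ) :=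
  TT b (D (r (u, x)) (z (u, x))) (G u (al (u, x)) (nrm (xi a p x)) v)

theorem piece {a a0 w w' b : ℕ} {S : Set (ℝ × (ℕ → ℂ))}
    {D : ℝ → (ℕ → ℂ) → V × ℂ → V × (ℕ → ℂ)} (hD : Fam p a0 w' b D)
    {G : ℝ → ℝ → Y p → V × ℂ → (V × ℂ) × ℂ}
    (hG : Continuous fun q : ℝ × ℝ × Y p × (V × ℂ) => G q.1 q.2.1 q.2.2.1 q.2.2.2)
    (hGne : ∀ u ∈ Icc (0 : ℝ) 1, ∀ s ∈ Icc (0 : ℝ) 1, ∀ y v, v ≠ 0 → G u s y v ≠ 0)
    (hGeq : ∀ t : ℂ, ‖t‖ = 1 → ∀ y y' : Y p,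
      (y' : EuclideanSpace ℂ (Fin p)) = t • (y : EuclideanSpace ℂ (Fin p)) →
        ∀ u ∈ Icc (0 : ℝ) 1, ∀ s ∈ Icc (0 : ℝ) 1, ∀ v,
          G u s y' (act p w t v) = (act p w' t (G u s y v).1, t ^ p * (G u s y v).2))
    {r : ℝ × (ℕ → ℂ) → ℝ} (hr : ContinuousOn r S) (hr1 : ∀ q ∈ S, r q ∈ Icc (0 : ℝ) 1)
    (hr2 : ∀ t : ℂ, ‖t‖ = 1 → ∀ u x, (u, x) ∈ S → r (u, t • x) = r (u, x))
    {z : ℝ × (ℕ → ℂ) → (ℕ → ℂ)} (hz : ContinuousOn z S) (hz1 : ∀ q ∈ S, z q ∈ XX a0)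
    (hz2 : ∀ t : ℂ, ‖t‖ = 1 → ∀ u x, (u, x) ∈ S → z (u, t • x) = t • z (u, x))
    {al : ℝ × (ℕ → ℂ) → ℝ} (hal : ContinuousOn al S) (hal1 : ∀ q ∈ S, al q ∈ Icc (0 : ℝ) 1)
    (hal2 : ∀ t : ℂ, ‖t‖ = 1 → ∀ u x, (u, x) ∈ S → al (u, t • x) = al (u, x))
    (hu : ∀ q ∈ S, q.1 ∈ Icc (0 : ℝ) 1)
    (h0 : ∀ q ∈ S, xi a p q.2 ≠ 0 ∨ ∀ y y' v, G q.1 (al q) y v = G q.1 (al q) y' v) :
    PieceOn p w (b + 1) S (EE a b D G r z al) where
  cont := by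
    have hpr : Continuous fun q : ℝ × (ℕ → ℂ) × (V × ℂ) => (q.1, q.2.1) := by fun_prop
    have hS : MapsTo (fun q : ℝ × (ℕ → ℂ) × (V × ℂ) => (q.1, q.2.1))
      {q | (q.1, q.2.1) ∈ S} S := fun q hq => hq
    -- the G part
    have hG' : ContinuousOn (fun q : ℝ × (ℕ → ℂ) × (V × ℂ) =>
        G q.1 (al (q.1, q.2.1)) (nrm (xi a p q.2.1)) q.2.2) {q | (q.1, q.2.1) ∈ S} := by
      have hp := polar (p := p) (Z := ℝ × ℝ × (V × ℂ)) (B := (V × ℂ) × ℂ)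
        (G := fun c y => G c.1 c.2.1 y c.2.2)
        (K0 := {c | ∀ y y', G c.1 c.2.1 y c.2.2 = G c.1 c.2.1 y' c.2.2})
        (hG.comp (by fun_prop : Continuous fun q : (ℝ × ℝ × (V × ℂ)) × Y p =>
          (q.1.1, q.1.2.1, q.2, q.1.2.2))) (fun z hz y y' => hz y y')
      have hm : ContinuousOn (fun q : ℝ × (ℕ → ℂ) × (V × ℂ) =>
          ((q.1, al (q.1, q.2.1), q.2.2), xi a p q.2.1)) {q | (q.1, q.2.1) ∈ S} := by
        refine ContinuousOn.prodMk (ContinuousOn.prodMk continuousOn_fst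
          (ContinuousOn.prodMk (hal.comp hpr.continuousOn hS) ?_)) ?_
        · exact (continuous_snd.comp continuous_snd).continuousOn
        · exact ((continuous_xi a p).comp (continuous_fst.comp continuous_snd)).continuousOn
      refine hp.comp hm ?_
      rintro q hq
      rcases h0 _ hq with h | h
      · exact Or.inl h
      · exact Or.inr fun y y' => h y y' _
    have hD' : ContinuousOn (fun q : ℝ × (ℕ → ℂ) × (V × ℂ) =>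
        D (r (q.1, q.2.1)) (z (q.1, q.2.1)) (G q.1 (al (q.1, q.2.1)) (nrm (xi a p q.2.1)) q.2.2).1)
        {q | (q.1, q.2.1) ∈ S} := by
      have hm : ContinuousOn (fun q : ℝ × (ℕ → ℂ) × (V × ℂ) =>
          ((r (q.1, q.2.1), z (q.1, q.2.1),
            (G q.1 (al (q.1, q.2.1)) (nrm (xi a p q.2.1)) q.2.2).1) : ℝ × (ℕ → ℂ) × (V × ℂ)))
          {q | (q.1, q.2.1) ∈ S} :=
        (hr.comp hpr.continuousOn hS).prodMk ((hz.comp hpr.continuousOn hS).prodMk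
          (continuous_fst.comp_continuousOn hG'))
      refine hD.cont.comp hm ?_
      rintro q hq
      exact ⟨hr1 _ hq, hz1 _ hq⟩
    refine ContinuousOn.prodMk (continuous_fst.comp_continuousOn hD') ?_
    refine ContinuousOn.add (continuous_snd.comp_continuousOn hD') ?_
    have hsing : Continuous fun c : ℂ => (Pi.single (b + 1) c : ℕ → ℂ) :=
      continuous_single (A := fun _ : ℕ => ℂ) (b + 1)
    exact hsing.comp_continuousOn (continuous_snd.comp_continuousOn hG')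
  ne u x hx v hv := by
    refine TT_ne (fun v hv => hD.ne _ _ ⟨hr1 _ hx, hz1 _ hx⟩ v hv)
      (fun v => hD.supp _ _ ⟨hr1 _ hx, hz1 _ hx⟩ v _ (by omega)) ?_
    exact hGne _ (hu _ hx) _ (hal1 _ hx) _ _ hv
  supp u x hx v i hi :=
    TT_supp (fun v i hi => hD.supp _ _ ⟨hr1 _ hx, hz1 _ hx⟩ v _ hi) _ hi
  eqv t ht u x hx v := by
    unfold EE
    rw [hr2 t ht u x hx, hz2 t ht u x hx, hal2 t ht u x hx]
    have hy : ∃ y' : Y p, (y' : EuclideanSpace ℂ (Fin p)) =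
        t • ((nrm (xi a p x) : Y p) : EuclideanSpace ℂ (Fin p)) ∧
        ∀ v, G u (al (u, x)) (nrm (xi a p (t • x))) v = G u (al (u, x)) y' v := by
      refine ⟨⟨t • ((nrm (xi a p x) : Y p) : EuclideanSpace ℂ (Fin p)), ?_⟩, rfl, ?_⟩
      · rw [mem_sphere_zero_iff_norm, norm_smul, ht, one_mul]
        exact mem_sphere_zero_iff_norm.1 (nrm (xi a p x)).2
      · intro v
        rcases h0 _ hx with h | h
        · congr 1
          apply Subtype.ext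
          rw [xi_smul]
          exact nrm_smul h ht
        · exact h _ _ _
    obtain ⟨y', hy1, hy2⟩ := hy
    rw [hy2, hGeq t ht _ _ hy1 _ (hu _ hx) _ (hal1 _ hx)]
    exact TT_eqv (fun v => hD.eqv t ht _ _ ⟨hr1 _ hx, hz1 _ hx⟩ v) _

end piece

end Pool.Agent.H.MP_5f9601_gt.U
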