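import Pool.Agent.H.MP_5f9601_gt.U.R2

/-!
# S13261 (R), part 3: the recursion step
-/

set_option autoImplicit false

open Set Filter Topology Metric

namespace Pool.Agent.H.MP_5f9601_gt.U

variable {p : ℕ} [NeZero p] {V : Type} [NormedAddCommGroup V] [NormedSpace ℂ V]

section aux

/-- the whole parameter set -/
def SS (a p : ℕ) : Set (ℝ × (ℕ → ℂ)) := Icc (0 : ℝ) 1 ×ˢ XX (a + p)

/-- `|x2| - |x1|` -/
noncomputable def c1 (a p : ℕ) (q : ℝ × (ℕ → ℂ)) : ℝ := n2 a p q.2 - n1 a q.2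

/-- `2|x2| - |x1|` -/
noncomputable def c2 (a p : ℕ) (q : ℝ × (ℕ → ℂ)) : ℝ := 2 * n2 a p q.2 - n1 a q.2

/-- the part `|x2| ≤ |x1|` -/
def SL (a p : ℕ) : Set (ℝ × (ℕ → ℂ)) := SS a p ∩ {q | c1 a p q ≤ 0}

/-- the part `|x1| ≤ |x2|` -/
def SR (a p : ℕ) : Set (ℝ × (ℕ → ℂ)) := SS a p ∩ {q | 0 ≤ c1 a p q}

/-- `s = |x2| / |x1|` -/
noncomputable def sv (a p : ℕ) (q : ℝ × (ℕ → ℂ)) : ℝ := n2 a p q.2 / n1 a q.2

/-- `|x1| / |x2|` -/
noncomputable def sw (a p : ℕ) (q : ℝ × (ℕ → ℂ)) : ℝ := n1 a q.2 / n2 a p q.2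

/-- `x1 + c x2` -/
def zc (a : ℕ) (c : ℝ × (ℕ → ℂ) → ℝ) (q : ℝ × (ℕ → ℂ)) : ℕ → ℂ := tr a q.2 + (c q : ℂ) • rs a q.2

end aux

variable {a : ℕ}

omit [NeZero p] in
theorem SS_inv (t : ℂ) (ht : ‖t‖ = 1) (u : ℝ) (x : ℕ → ℂ) (h : (u, x) ∈ SS a p) :
    (u, t • x) ∈ SS a p := ⟨h.1, XX_smul h.2 ht⟩

omit [NeZero p] in
theorem c1_inv (t : ℂ) (ht : ‖t‖ = 1) (u : ℝ) (x : ℕ → ℂ) : c1 a p (u, t • x) = c1 a p (u, x) := by
  simp only [c1, n1_smul a ht, n2_smul a p ht]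

omit [NeZero p] in
theorem c2_inv (t : ℂ) (ht : ‖t‖ = 1) (u : ℝ) (x : ℕ → ℂ) : c2 a p (u, t • x) = c2 a p (u, x) := by
  simp only [c2, n1_smul a ht, n2_smul a p ht]

omit [NeZero p] in
theorem sv_inv (t : ℂ) (ht : ‖t‖ = 1) (u : ℝ) (x : ℕ → ℂ) : sv a p (u, t • x) = sv a p (u, x) := by
  simp only [sv, n1_smul a ht, n2_smul a p ht]

omit [NeZero p] in
theorem sw_inv (t : ℂ) (ht : ‖t‖ = 1) (u : ℝ) (x : ℕ → ℂ) : sw a p (u, t • x) = sw a p (u, x) := by
  simp only [sw, n1_smul a ht, n2_smul a p ht]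

omit [NeZero p] in
theorem SL_inv (t : ℂ) (ht : ‖t‖ = 1) (u : ℝ) (x : ℕ → ℂ) (h : (u, x) ∈ SL a p) :
    (u, t • x) ∈ SL a p :=
  ⟨SS_inv t ht u x h.1, by
    show c1 a p (u, t • x) ≤ 0
    rw [c1_inv t ht]
    exact h.2⟩

omit [NeZero p] in
theorem zc_inv {c : ℝ × (ℕ → ℂ) → ℝ} (t : ℂ) (u : ℝ) (x : ℕ → ℂ)
    (h : c (u, t • x) = c (u, x)) : zc a c (u, t • x) = t • zc a c (u, x) := by
  simp only [zc, h, tr_smul, rs_smul, smul_add]
  rw [smul_comm]

omit [NeZero p] in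
theorem continuous_c1 : Continuous (c1 a p) :=
  ((continuous_n2 a p).comp continuous_snd).sub ((continuous_n1 a).comp continuous_snd)

omit [NeZero p] in
theorem continuous_c2 : Continuous (c2 a p) :=
  (continuous_const.mul ((continuous_n2 a p).comp continuous_snd)).sub
    ((continuous_n1 a).comp continuous_snd)

omit [NeZero p] in
theorem SL_le {q : ℝ × (ℕ → ℂ)} (h : q ∈ SL a p) : n2 a p q.2 ≤ n1 a q.2 := by
  have : n2 a p q.2 - n1 a q.2 ≤ 0 := h.2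
  linarith

omit [NeZero p] in
theorem SR_le {q : ℝ × (ℕ → ℂ)} (h : q ∈ SR a p) : n1 a q.2 ≤ n2 a p q.2 := by
  have : 0 ≤ n2 a p q.2 - n1 a q.2 := h.2
  linarith

omit [NeZero p] in
theorem SL_pos {q : ℝ × (ℕ → ℂ)} (h : q ∈ SL a p) : 0 < n1 a q.2 := n1_pos_of h.1.2 (SL_le h)

omit [NeZero p] in
theorem SR_pos {q : ℝ × (ℕ → ℂ)} (h : q ∈ SR a p) : 0 < n2 a p q.2 :=
  n2_pos_of h.1.2 (by linarith [SR_le h, n2_nonneg a p q.2])

omit [NeZero p] in
theorem sv_cont : ContinuousOn (sv a p) (SL a p) :=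
  ContinuousOn.div ((continuous_n2 a p).comp continuous_snd).continuousOn
    ((continuous_n1 a).comp continuous_snd).continuousOn fun _ hq => (SL_pos hq).ne'

omit [NeZero p] in
theorem sw_cont : ContinuousOn (sw a p) (SR a p) :=
  ContinuousOn.div ((continuous_n1 a).comp continuous_snd).continuousOn
    ((continuous_n2 a p).comp continuous_snd).continuousOn fun _ hq => (SR_pos hq).ne'

omit [NeZero p] in
theorem sv_mem {q : ℝ × (ℕ → ℂ)} (h : q ∈ SL a p) : sv a p q ∈ Icc (0 : ℝ) 1 :=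
  ⟨div_nonneg (n2_nonneg _ _ _) (n1_nonneg _ _), (div_le_one (SL_pos h)).2 (SL_le h)⟩

omit [NeZero p] in
theorem sw_mem {q : ℝ × (ℕ → ℂ)} (h : q ∈ SR a p) : sw a p q ∈ Icc (0 : ℝ) 1 :=
  ⟨div_nonneg (n1_nonneg _ _) (n2_nonneg _ _ _), (div_le_one (SR_pos h)).2 (SR_le h)⟩

omit [NeZero p] in
theorem zc_cont {c : ℝ × (ℕ → ℂ) → ℝ} {S : Set (ℝ × (ℕ → ℂ))} (hc : ContinuousOn c S) :
    ContinuousOn (zc a c) S := by
  refine ContinuousOn.add ((continuous_tr a).comp continuous_snd).continuousOn ?_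
  exact (Complex.continuous_ofReal.comp_continuousOn hc).smul
    ((continuous_rs a).comp continuous_snd).continuousOn

omit [NeZero p] in
/-- `x1 + c x2` is a nonzero vector if `x1 ≠ 0` or `c ≠ 0` -/
theorem zc_mem {c : ℝ × (ℕ → ℂ) → ℝ} {q : ℝ × (ℕ → ℂ)} (h : q ∈ SS a p)
    (hc : 0 < n1 a q.2 ∨ c q ≠ 0) : zc a c q ∈ XX (a + p) := by
  have hx := h.2
  refine ⟨fun h0 => ?_, fun i hi => ?_⟩
  · have h1 : tr a q.2 = 0 := by
      funext i
      show (if i < a then q.2 i else 0) = 0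
      split_ifs with hi
      · have h2 := congrFun h0 i
        have h3 : (if i < a then q.2 i else 0) + (c q : ℂ) * (if i < a then 0 else q.2 i) = 0 := h2
        rw [if_pos hi, if_pos hi, mul_zero, add_zero] at h3
        exact h3
      · rfl
    rcases hc with hc | hc
    · have := tr_mem hc
      exact this.1 h1
    · have h2 : rs a q.2 = 0 := by
        have h3 : tr a q.2 + (c q : ℂ) • rs a q.2 = 0 := h0
        rw [h1, zero_add] at h3
        rcases smul_eq_zero.1 h3 with h4 | h4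
        · exact absurd (Complex.ofReal_eq_zero.1 h4) hc
        · exact h4
      apply hx.1
      rw [← tr_add_rs a q.2, h1, h2, add_zero]
  · show (if i < a then q.2 i else 0) + (c q : ℂ) * (if i < a then 0 else q.2 i) = 0
    rw [if_neg (by omega), if_neg (by omega), hx.2 i hi, mul_zero, add_zero]

omit [NeZero p] in
theorem zc_zero {c : ℝ × (ℕ → ℂ) → ℝ} {q : ℝ × (ℕ → ℂ)} (h : c q = 0) :
    zc a c q = tr a q.2 := by
  simp [zc, h]

omit [NeZero p] in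
theorem zc_one {c : ℝ × (ℕ → ℂ) → ℝ} {q : ℝ × (ℕ → ℂ)} (h : c q = 1) :
    zc a c q = q.2 := by
  simp [zc, h, tr_add_rs]

omit [NeZero p] in
theorem xi_ne {q : ℝ × (ℕ → ℂ)} (h : 0 < n2 a p q.2) : xi a p q.2 ≠ 0 := norm_pos_iff.1 h

omit [NeZero p] in
theorem sv_zero {q : ℝ × (ℕ → ℂ)} (h : xi a p q.2 = 0) : sv a p q = 0 := by
  simp [sv, n2, h]

variable {q b : ℕ} (B : Block p q V) (D0 D1 : (ℕ → ℂ) → V × ℂ → V × (ℕ → ℂ))
  (h : ℝ → (ℕ → ℂ) → V × ℂ → V × (ℕ → ℂ))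

/-! ### The new map -/

variable (a b) in
/-- piece A -/
noncomputable def DA : ℝ → (ℕ → ℂ) → V × ℂ → V × (ℕ → ℂ) :=
  EE (p := p) a b (fun _ => D1) (fun _ s y v => B.g' s y v) (fun _ => 0) (fun x => tr a x.2)
    (fun x => 2 * sv a p x)

variable (a b) in
/-- piece B -/
noncomputable def DB : ℝ → (ℕ → ℂ) → V × ℂ → V × (ℕ → ℂ) :=
  EE (p := p) a b h (fun _ _ y v => B.W y v) (fun x => 2 - 2 * sv a p x) (fun x => tr a x.2)
    (fun _ => 0)

variable (a b) in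
/-- piece C -/
noncomputable def DC : ℝ → (ℕ → ℂ) → V × ℂ → V × (ℕ → ℂ) :=
  EE (p := p) a b (fun _ => D0) (fun _ _ y v => B.W y v) (fun _ => 0)
    (zc a fun x => 1 - sw a p x) (fun _ => 0)

variable (a b) in
open Classical in
/-- pieces A and B -/
noncomputable def DAB (u : ℝ) (x : ℕ → ℂ) (v : V × ℂ) : V × (ℕ → ℂ) :=
  if c2 a p (u, x) ≤ 0 then DA a b B D1 u x v else DB a b B h u x v

variable (a b) in
open Classical in
/-- the new map -/
noncomputable def Dn (u : ℝ) (x : ℕ → ℂ) (v : V × ℂ) : V × (ℕ → ℂ) :=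
  if c1 a p (u, x) ≤ 0 then DAB a b B D1 h u x v else DC a b B D0 u x v

variable {B D0 D1 h}

omit [NeZero p] in
theorem sv_half {x : ℝ × (ℕ → ℂ)} (hx : x ∈ SL a p) (h2 : c2 a p x ≤ 0) : 2 * sv a p x ≤ 1 := by
  have h3 : 2 * n2 a p x.2 - n1 a x.2 ≤ 0 := h2
  have h4 : sv a p x * n1 a x.2 = n2 a p x.2 := div_mul_cancel₀ _ (SL_pos hx).ne'
  have h5 := SL_pos hx
  by_contra h6
  push Not at h6
  nlinarith

omit [NeZero p] in
theorem sv_half' {x : ℝ × (ℕ → ℂ)} (hx : x ∈ SL a p) (h2 : 0 ≤ c2 a p x) : 1 ≤ 2 * sv a p x := by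
  have h3 : 0 ≤ 2 * n2 a p x.2 - n1 a x.2 := h2
  have h4 : sv a p x * n1 a x.2 = n2 a p x.2 := div_mul_cancel₀ _ (SL_pos hx).ne'
  have h5 := SL_pos hx
  by_contra h6
  push Not at h6
  nlinarith

omit [NeZero p] in
theorem n2_pos_of_c2 {x : ℝ × (ℕ → ℂ)} (hx : x ∈ SL a p) (h2 : 0 ≤ c2 a p x) : 0 < n2 a p x.2 := by
  have h3 : 0 ≤ 2 * n2 a p x.2 - n1 a x.2 := h2
  have h5 := SL_pos hx
  linarith

theorem DA_piece (hD1 : Fam p a (p * q) b (fun _ => D1)) :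
    PieceOn p (p * q) (b + 1) (SL a p ∩ {x | c2 a p x ≤ 0}) (DA a b B D1) := by
  refine piece hD1 (w := p * q) (w' := p * q) ?_ ?_ ?_ ?_ ?_ ?_ ?_ ?_ ?_ ?_ ?_ ?_ ?_ ?_
  · exact B.g'_cont.comp (by fun_prop : Continuous fun x : ℝ × ℝ × Y p × (V × ℂ) =>
      (x.2.1, x.2.2.1, x.2.2.2))
  · intro u _ s hs y v hv
    exact B.g'_ne s hs y v hv
  · intro t ht y y' hy u _ s hs v
    exact B.g'_eqv t ht y y' hy s hs v
  · exact continuousOn_const
  · intro _ _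
    exact ⟨le_rfl, zero_le_one⟩
  · intro _ _ _ _ _
    rfl
  · exact ((continuous_tr a).comp continuous_snd).continuousOn
  · intro x hx
    exact tr_mem (SL_pos hx.1)
  · intro t _ u x _
    exact tr_smul a t x
  · exact (continuousOn_const.mul sv_cont).mono inter_subset_left
  · intro x hx
    exact ⟨by linarith [(sv_mem hx.1).1], sv_half hx.1 hx.2⟩
  · intro t ht u x _
    simp only [sv_inv t ht]
  · intro x hx
    exact hx.1.1.1
  · intro x hx
    by_cases h0 : xi a p x.2 = 0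
    · refine Or.inr fun y y' v => ?_
      simp only [sv_zero h0, mul_zero, B.g'_zero]
    · exact Or.inl h0

theorem DB_piece (hh : Fam p a q b h) :
    PieceOn p (p * q) (b + 1) (SL a p ∩ {x | 0 ≤ c2 a p x}) (DB a b B h) := by
  refine piece hh (w := p * q) (w' := q) ?_ ?_ ?_ ?_ ?_ ?_ ?_ ?_ ?_ ?_ ?_ ?_ ?_ ?_
  · exact B.W_cont.comp (by fun_prop : Continuous fun x : ℝ × ℝ × Y p × (V × ℂ) =>
      (x.2.2.1, x.2.2.2))
  · intro u _ s _ y v hv
    exact B.W_ne y v hv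
  · intro t ht y y' hy u _ s _ v
    exact B.W_eqv t ht y y' hy v
  · exact (continuousOn_const.sub (continuousOn_const.mul sv_cont)).mono inter_subset_left
  · intro x hx
    exact ⟨by linarith [(sv_mem hx.1).2], by linarith [sv_half' hx.1 hx.2]⟩
  · intro t ht u x _
    simp only [sv_inv t ht]
  · exact ((continuous_tr a).comp continuous_snd).continuousOn
  · intro x hx
    exact tr_mem (SL_pos hx.1)
  · intro t _ u x _
    exact tr_smul a t x
  · exact continuousOn_const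
  · intro _ _
    exact ⟨le_rfl, zero_le_one⟩
  · intro _ _ _ _ _
    rfl
  · intro x hx
    exact hx.1.1.1
  · intro x hx
    exact Or.inl (xi_ne (n2_pos_of_c2 hx.1 hx.2))

theorem zC_mem {x : ℝ × (ℕ → ℂ)} (hx : x ∈ SR a p) : zc a (fun x => 1 - sw a p x) x ∈ XX (a + p) := by
  refine zc_mem hx.1 ?_
  rcases (n1_nonneg a x.2).lt_or_eq with h1 | h1
  · exact Or.inl h1
  · right
    simp [sw, ← h1]

theorem DC_piece (hD0 : Fam p (a + p) q b (fun _ => D0)) :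
    PieceOn p (p * q) (b + 1) (SR a p) (DC a b B D0) := by
  refine piece hD0 (w := p * q) (w' := q) ?_ ?_ ?_ ?_ ?_ ?_ ?_ ?_ ?_ ?_ ?_ ?_ ?_ ?_
  · exact B.W_cont.comp (by fun_prop : Continuous fun x : ℝ × ℝ × Y p × (V × ℂ) =>
      (x.2.2.1, x.2.2.2))
  · intro u _ s _ y v hv
    exact B.W_ne y v hv
  · intro t ht y y' hy u _ s _ v
    exact B.W_eqv t ht y y' hy v
  · exact continuousOn_const
  · intro _ _
    exact ⟨le_rfl, zero_le_one⟩
  · intro _ _ _ _ _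
    rfl
  · exact zc_cont (continuousOn_const.sub sw_cont)
  · intro x hx
    exact zC_mem hx
  · intro t ht u x _
    exact zc_inv t u x (by simp only [sw_inv t ht])
  · exact continuousOn_const
  · intro _ _
    exact ⟨le_rfl, zero_le_one⟩
  · intro _ _ _ _ _
    rfl
  · intro x hx
    exact hx.1.1
  · intro x hx
    exact Or.inl (xi_ne (SR_pos hx))

theorem DAB_piece (hD1 : Fam p a (p * q) b (fun _ => D1)) (hh : Fam p a q b h)
    (e1 : ∀ x ∈ XX a, ∀ v, h 1 x v = D1 x (PP p v)) :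
    PieceOn p (p * q) (b + 1) (SL a p) (DAB a b B D1 h) := by
  refine PieceOn.glue (c := c2 a p) continuous_c2.continuousOn (fun t ht u x _ => c2_inv t ht u x)
    SL_inv (DA_piece (B := B) hD1) (DB_piece (B := B) hh) ?_ ?_
  · intro u x _ hc v
    rw [DAB, if_pos hc]
  · intro u x hx hc v
    rw [DAB]
    split_ifs with hc'
    · have hs : 2 * sv a p (u, x) = 1 := le_antisymm (sv_half hx hc') (sv_half' hx hc)
      have hs2 : 2 - 2 * sv a p (u, x) = 1 := by rw [hs]; norm_num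
      show TT b (D1 (tr a x)) (B.g' (2 * sv a p (u, x)) (nrm (xi a p x)) v) =
        TT b (h (2 - 2 * sv a p (u, x)) (tr a x)) (B.W (nrm (xi a p x)) v)
      rw [hs2, hs, B.g'_one]
      show ((D1 (tr a x) (PP p _)).1, (D1 (tr a x) (PP p _)).2 + _) =
        ((h 1 (tr a x) _).1, (h 1 (tr a x) _).2 + _)
      rw [e1 _ (tr_mem (SL_pos (q := (u, x)) hx))]
    · rfl

theorem Dn_fam (hD0 : Fam p (a + p) q b (fun _ => D0)) (hD1 : Fam p a (p * q) b (fun _ => D1))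
    (hh : Fam p a q b h) (e0 : ∀ x ∈ XX a, ∀ v, h 0 x v = D0 x v)
    (e1 : ∀ x ∈ XX a, ∀ v, h 1 x v = D1 x (PP p v)) :
    Fam p (a + p) (p * q) (b + 1) (Dn a b B D0 D1 h) := by
  refine PieceOn.glue (c := c1 a p) continuous_c1.continuousOn (fun t ht u x _ => c1_inv t ht u x)
    SS_inv (DAB_piece (B := B) hD1 hh e1) (DC_piece (B := B) hD0) ?_ ?_
  · intro u x _ hc v
    rw [Dn, if_pos hc]
  · intro u x hx hc v
    rw [Dn]
    split_ifs with hc'
    · have hL : (u, x) ∈ SL a p := ⟨hx, hc'⟩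
      have hR : (u, x) ∈ SR a p := ⟨hx, hc⟩
      have hn' : n1 a x ≤ n2 a p x := SR_le (q := (u, x)) hR
      have hn'' : n2 a p x ≤ n1 a x := SL_le (q := (u, x)) hL
      have hn : n1 a x = n2 a p x := le_antisymm hn' hn''
      have hp1 : 0 < n1 a x := SL_pos (q := (u, x)) hL
      have hp2 : n2 a p x ≠ 0 := by
        rw [← hn]
        exact hp1.ne'
      have hs : sv a p (u, x) = 1 := by
        show n2 a p x / n1 a x = 1
        rw [hn]
        exact div_self hp2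
      have hw : sw a p (u, x) = 1 := by
        show n1 a x / n2 a p x = 1
        rw [hn]
        exact div_self hp2
      have h2 : ¬ c2 a p (u, x) ≤ 0 := by
        show ¬ 2 * n2 a p x - n1 a x ≤ 0
        rw [← hn]
        linarith
      rw [DAB, if_neg h2]
      show TT b (h (2 - 2 * sv a p (u, x)) (tr a x)) (B.W (nrm (xi a p x)) v) =
        TT b (D0 (zc a (fun x => 1 - sw a p x) (u, x))) (B.W (nrm (xi a p x)) v)
      rw [hs, zc_zero (c := fun x => 1 - sw a p x) (q := (u, x)) (by rw [hw, sub_self])]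
      norm_num
      show ((h 0 (tr a x) _).1, (h 0 (tr a x) _).2 + _) =
        ((D0 (tr a x) _).1, (D0 (tr a x) _).2 + _)
      rw [e0 _ (tr_mem (SL_pos (q := (u, x)) hL))]
    · rfl

theorem Dn_old {u : ℝ} (hu : u ∈ Icc (0 : ℝ) 1) {x : ℕ → ℂ} (hx : x ∈ XX a) (v : V × ℂ) :
    Dn a b B D0 D1 h u x v = D1 x v := by
  have hxi : xi a p x = 0 := xi_eq_zero hx
  have hn2 : n2 a p x = 0 := by rw [n2, hxi, norm_zero]
  have hS : (u, x) ∈ SS a p := ⟨hu, XX_mono (by omega) hx⟩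
  have h1 : c1 a p (u, x) ≤ 0 := by
    show n2 a p x - n1 a x ≤ 0
    rw [hn2]
    linarith [n1_nonneg a x]
  have h2 : c2 a p (u, x) ≤ 0 := by
    show 2 * n2 a p x - n1 a x ≤ 0
    rw [hn2]
    linarith [n1_nonneg a x]
  rw [Dn, if_pos h1, DAB, if_pos h2]
  show TT b (D1 (tr a x)) (B.g' (2 * sv a p (u, x)) (nrm (xi a p x)) v) = D1 x v
  rw [sv_zero (q := (u, x)) hxi, mul_zero, B.g'_zero, TT_iota, tr_eq_self hx]

end Pool.Agent.H.MP_5f9601_gt.U
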