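import Pool.Agent.H.MP_5f9601_gt.U.R3

/-!
# S13261 (R), part 4: the homotopy of the recursion step
-/

set_option autoImplicit false

open Set Filter Topology Metric

namespace Pool.Agent.H.MP_5f9601_gt.U

variable {p : ℕ} [NeZero p] {V : Type} [NormedAddCommGroup V] [NormedSpace ℂ V]

variable {a q b : ℕ}

omit [NeZero p] in
theorem mid {u : ℝ} {x : ℕ → ℂ} (hL : (u, x) ∈ SL a p) (hR : (u, x) ∈ SR a p) :
    sv a p (u, x) = 1 ∧ sw a p (u, x) = 1 ∧ ¬ c2 a p (u, x) ≤ 0 := by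
  have hn' : n1 a x ≤ n2 a p x := SR_le (q := (u, x)) hR
  have hn'' : n2 a p x ≤ n1 a x := SL_le (q := (u, x)) hL
  have hn : n1 a x = n2 a p x := le_antisymm hn' hn''
  have hp1 : 0 < n1 a x := SL_pos (q := (u, x)) hL
  have hp2 : n2 a p x ≠ 0 := by
    rw [← hn]
    exact hp1.ne'
  refine ⟨?_, ?_, ?_⟩
  · show n2 a p x / n1 a x = 1
    rw [hn]
    exact div_self hp2
  · show n1 a x / n2 a p x = 1
    rw [hn]
    exact div_self hp2
  · show ¬ 2 * n2 a p x - n1 a x ≤ 0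
    rw [← hn]
    linarith

variable (B : Block p q V) (D0 D1 : (ℕ → ℂ) → V × ℂ → V × (ℕ → ℂ))
  (h : ℝ → (ℕ → ℂ) → V × ℂ → V × (ℕ → ℂ))

/-! ### First homotopy -/

variable (a b) in
/-- first homotopy, left part -/
noncomputable def H1L : ℝ → (ℕ → ℂ) → V × ℂ → V × (ℕ → ℂ) :=
  EE (p := p) a b (fun _ => D0) (fun _ s y v => B.g s y v) (fun _ => 0)
    (zc a fun x => 1 - x.1) (fun x => x.1 * sv a p x)

variable (a b) in
/-- first homotopy, right part -/
noncomputable def H1R : ℝ → (ℕ → ℂ) → V × ℂ → V × (ℕ → ℂ) :=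
  EE (p := p) a b (fun _ => D0) (fun _ s y v => B.g s y v) (fun _ => 0)
    (zc a fun x => 1 - x.1 * sw a p x) (fun x => x.1)

variable (a b) in
open Classical in
/-- first homotopy -/
noncomputable def H1 (u : ℝ) (x : ℕ → ℂ) (v : V × ℂ) : V × (ℕ → ℂ) :=
  if c1 a p (u, x) ≤ 0 then H1L a b B D0 u x v else H1R a b B D0 u x v

variable (a b) in
/-- second homotopy, left part -/
noncomputable def H2L : ℝ → (ℕ → ℂ) → V × ℂ → V × (ℕ → ℂ) :=
  EE (p := p) a b h (fun _ s y v => B.g s y v) (fun x => x.1 * min 1 (2 - 2 * sv a p x))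
    (fun x => tr a x.2) (fun x => (1 - x.1) * sv a p x + x.1 * min 1 (2 * sv a p x))

variable (a b) in
/-- second and third homotopy, right part -/
noncomputable def H2R : ℝ → (ℕ → ℂ) → V × ℂ → V × (ℕ → ℂ) :=
  EE (p := p) a b (fun _ => D0) (fun _ s y v => B.g s y v) (fun _ => 0)
    (zc a fun x => 1 - sw a p x) (fun _ => 1)

variable (a b) in
open Classical in
/-- second homotopy -/
noncomputable def H2 (u : ℝ) (x : ℕ → ℂ) (v : V × ℂ) : V × (ℕ → ℂ) :=
  if c1 a p (u, x) ≤ 0 then H2L a b B h u x v else H2R a b B D0 u x v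

variable (a b) in
/-- third homotopy, piece A -/
noncomputable def H3A : ℝ → (ℕ → ℂ) → V × ℂ → V × (ℕ → ℂ) :=
  EE (p := p) a b (fun _ => D1) (fun u s y v => B.kap u s y v) (fun _ => 0)
    (fun x => tr a x.2) (fun x => 2 * sv a p x)

variable (a b) in
/-- third homotopy, piece B -/
noncomputable def H3B : ℝ → (ℕ → ℂ) → V × ℂ → V × (ℕ → ℂ) :=
  EE (p := p) a b h (fun _ s y v => B.g s y v) (fun x => 2 - 2 * sv a p x)
    (fun x => tr a x.2) (fun _ => 1)

variable (a b) in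
open Classical in
/-- third homotopy, pieces A and B -/
noncomputable def H3L (u : ℝ) (x : ℕ → ℂ) (v : V × ℂ) : V × (ℕ → ℂ) :=
  if c2 a p (u, x) ≤ 0 then H3A a b B D1 u x v else H3B a b B h u x v

variable (a b) in
open Classical in
/-- third homotopy -/
noncomputable def H3 (u : ℝ) (x : ℕ → ℂ) (v : V × ℂ) : V × (ℕ → ℂ) :=
  if c1 a p (u, x) ≤ 0 then H3L a b B D1 h u x v else H2R a b B D0 u x v

variable {B D0 D1 h}

theorem g_cont' : Continuous fun x : ℝ × ℝ × Y p × (V × ℂ) => B.g x.2.1 x.2.2.1 x.2.2.2 :=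
  B.g_cont.comp (by fun_prop : Continuous fun x : ℝ × ℝ × Y p × (V × ℂ) =>
      (x.2.1, x.2.2.1, x.2.2.2))

theorem H1L_piece (hD0 : Fam p (a + p) q b (fun _ => D0)) :
    PieceOn p q (b + 1) (SL a p) (H1L a b B D0) := by
  refine piece hD0 (w := q) (w' := q) ?_ ?_ ?_ ?_ ?_ ?_ ?_ ?_ ?_ ?_ ?_ ?_ ?_ ?_
  · exact g_cont'
  · intro u _ s hs y v hv
    exact B.g_ne s hs y v hv
  · intro t ht y y' hy u _ s hs v
    exact B.g_eqv t ht y y' hy s hs v
  · exact continuousOn_const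
  · intro _ _
    exact ⟨le_rfl, zero_le_one⟩
  · intro _ _ _ _ _
    rfl
  · exact zc_cont (continuousOn_const.sub continuousOn_fst)
  · intro x hx
    exact zc_mem hx.1 (Or.inl (SL_pos hx))
  · intro t ht u x _
    exact zc_inv t u x rfl
  · exact continuousOn_fst.mul sv_cont
  · intro x hx
    have h1 := sv_mem hx
    have h2 := hx.1.1
    exact ⟨mul_nonneg h2.1 h1.1, mul_le_one₀ h2.2 h1.1 h1.2⟩
  · intro t ht u x _
    simp only [sv_inv t ht]
  · intro x hx
    exact hx.1.1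
  · intro x hx
    by_cases h0 : xi a p x.2 = 0
    · refine Or.inr fun y y' v => ?_
      simp only [sv_zero h0, mul_zero, B.g_zero]
    · exact Or.inl h0

theorem H1R_piece (hD0 : Fam p (a + p) q b (fun _ => D0)) :
    PieceOn p q (b + 1) (SR a p) (H1R a b B D0) := by
  refine piece hD0 (w := q) (w' := q) ?_ ?_ ?_ ?_ ?_ ?_ ?_ ?_ ?_ ?_ ?_ ?_ ?_ ?_
  · exact g_cont'
  · intro u _ s hs y v hv
    exact B.g_ne s hs y v hv
  · intro t ht y y' hy u _ s hs v
    exact B.g_eqv t ht y y' hy s hs v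
  · exact continuousOn_const
  · intro _ _
    exact ⟨le_rfl, zero_le_one⟩
  · intro _ _ _ _ _
    rfl
  · exact zc_cont (continuousOn_const.sub (continuousOn_fst.mul sw_cont))
  · intro x hx
    refine zc_mem hx.1 ?_
    rcases (n1_nonneg a x.2).lt_or_eq with h1 | h1
    · exact Or.inl h1
    · right
      simp [sw, ← h1]
  · intro t ht u x _
    exact zc_inv t u x (by simp only [sw_inv t ht])
  · exact continuousOn_fst
  · intro x hx
    exact hx.1.1
  · intro t ht u x _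
    rfl
  · intro x hx
    exact hx.1.1
  · intro x hx
    exact Or.inl (xi_ne (SR_pos hx))

theorem H1_fam (hD0 : Fam p (a + p) q b (fun _ => D0)) :
    Fam p (a + p) q (b + 1) (H1 a b B D0) := by
  refine PieceOn.glue (c := c1 a p) continuous_c1.continuousOn (fun t ht u x _ => c1_inv t ht u x)
    SS_inv (H1L_piece (B := B) hD0) (H1R_piece (B := B) hD0) ?_ ?_
  · intro u x _ hc v
    rw [H1, if_pos hc]
  · intro u x hx hc v
    rw [H1]
    split_ifs with hc'
    · have hL : (u, x) ∈ SL a p := ⟨hx, hc'⟩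
      have hR : (u, x) ∈ SR a p := ⟨hx, hc⟩
      obtain ⟨hs, hw, _⟩ := mid hL hR
      show TT b (D0 (zc a (fun x => 1 - x.1) (u, x))) (B.g (u * sv a p (u, x)) (nrm (xi a p x)) v) =
        TT b (D0 (zc a (fun x => 1 - x.1 * sw a p x) (u, x))) (B.g u (nrm (xi a p x)) v)
      have e : zc a (fun x => 1 - x.1) (u, x) = zc a (fun x => 1 - x.1 * sw a p x) (u, x) := by
        simp only [zc, hw, mul_one]
      rw [e, hs, mul_one]
    · rfl

theorem H1_zero {x : ℕ → ℂ} (v : V × ℂ) : H1 a b B D0 0 x v = D0 x v := by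
  rw [H1]
  split_ifs with hc
  · show TT b (D0 (zc a (fun x => 1 - x.1) (0, x))) (B.g (0 * sv a p (0, x)) (nrm (xi a p x)) v) = _
    rw [zero_mul, B.g_zero, TT_iota, zc_one (c := fun x => 1 - x.1) (q := (0, x)) (sub_zero 1)]
  · show TT b (D0 (zc a (fun x => 1 - x.1 * sw a p x) (0, x))) (B.g 0 (nrm (xi a p x)) v) = _
    rw [B.g_zero, TT_iota, zc_one (c := fun x => 1 - x.1 * sw a p x) (q := (0, x))
      (by simp)]

omit [NeZero p] in
theorem min_mem {s : ℝ} (hs : s ∈ Icc (0 : ℝ) 1) : min 1 (2 - 2 * s) ∈ Icc (0 : ℝ) 1 :=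
  ⟨le_min zero_le_one (by linarith [hs.2]), min_le_left _ _⟩

omit [NeZero p] in
theorem min_mem' {s : ℝ} (hs : s ∈ Icc (0 : ℝ) 1) : min 1 (2 * s) ∈ Icc (0 : ℝ) 1 :=
  ⟨le_min zero_le_one (by linarith [hs.1]), min_le_left _ _⟩

theorem H2L_piece (hh : Fam p a q b h) :
    PieceOn p q (b + 1) (SL a p) (H2L a b B h) := by
  refine piece hh (w := q) (w' := q) ?_ ?_ ?_ ?_ ?_ ?_ ?_ ?_ ?_ ?_ ?_ ?_ ?_ ?_
  · exact g_cont'
  · intro u _ s hs y v hv
    exact B.g_ne s hs y v hv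
  · intro t ht y y' hy u _ s hs v
    exact B.g_eqv t ht y y' hy s hs v
  · exact continuousOn_fst.mul (ContinuousOn.inf continuousOn_const (continuousOn_const.sub
      (continuousOn_const.mul sv_cont)))
  · intro x hx
    have h1 := min_mem (sv_mem hx)
    have h2 := hx.1.1
    exact ⟨mul_nonneg h2.1 h1.1, mul_le_one₀ h2.2 h1.1 h1.2⟩
  · intro t ht u x _
    simp only [sv_inv t ht]
  · exact ((continuous_tr a).comp continuous_snd).continuousOn
  · intro x hx
    exact tr_mem (SL_pos hx)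
  · intro t _ u x _
    exact tr_smul a t x
  · exact ((continuousOn_const.sub continuousOn_fst).mul sv_cont).add
      (continuousOn_fst.mul (ContinuousOn.inf continuousOn_const (continuousOn_const.mul sv_cont)))
  · intro x hx
    have h1 := min_mem' (sv_mem hx)
    have h2 := hx.1.1
    have h3 := sv_mem hx
    refine ⟨add_nonneg (mul_nonneg (by linarith [h2.2]) h3.1) (mul_nonneg h2.1 h1.1), ?_⟩
    calc (1 - x.1) * sv a p x + x.1 * min 1 (2 * sv a p x) ≤ (1 - x.1) * 1 + x.1 * 1 :=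
          add_le_add (mul_le_mul_of_nonneg_left h3.2 (by linarith [h2.2]))
            (mul_le_mul_of_nonneg_left h1.2 h2.1)
      _ = 1 := by ring
  · intro t ht u x _
    simp only [sv_inv t ht]
  · intro x hx
    exact hx.1.1
  · intro x hx
    by_cases h0 : xi a p x.2 = 0
    · refine Or.inr fun y y' v => ?_
      have e : (1 - x.1) * sv a p x + x.1 * min 1 (2 * sv a p x) = 0 := by
        rw [sv_zero h0, mul_zero, mul_zero, min_eq_right zero_le_one, mul_zero, add_zero]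
      simp only [e, B.g_zero]
    · exact Or.inl h0

theorem H2R_piece (hD0 : Fam p (a + p) q b (fun _ => D0)) :
    PieceOn p q (b + 1) (SR a p) (H2R a b B D0) := by
  refine piece hD0 (w := q) (w' := q) ?_ ?_ ?_ ?_ ?_ ?_ ?_ ?_ ?_ ?_ ?_ ?_ ?_ ?_
  · exact g_cont'
  · intro u _ s hs y v hv
    exact B.g_ne s hs y v hv
  · intro t ht y y' hy u _ s hs v
    exact B.g_eqv t ht y y' hy s hs v
  · exact continuousOn_const
  · intro _ _
    exact ⟨le_rfl, zero_le_one⟩
  · intro _ _ _ _ _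
    rfl
  · exact zc_cont (continuousOn_const.sub sw_cont)
  · intro x hx
    exact zC_mem hx
  · intro t ht u x _
    exact zc_inv t u x (by simp only [sw_inv t ht])
  · exact continuousOn_const
  · intro _ _
    exact ⟨zero_le_one, le_rfl⟩
  · intro _ _ _ _ _
    rfl
  · intro x hx
    exact hx.1.1
  · intro x hx
    exact Or.inl (xi_ne (SR_pos hx))

theorem H2_fam (hD0 : Fam p (a + p) q b (fun _ => D0)) (hh : Fam p a q b h)
    (e0 : ∀ x ∈ XX a, ∀ v, h 0 x v = D0 x v) :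
    Fam p (a + p) q (b + 1) (H2 a b B D0 h) := by
  refine PieceOn.glue (c := c1 a p) continuous_c1.continuousOn (fun t ht u x _ => c1_inv t ht u x)
    SS_inv (H2L_piece (B := B) hh) (H2R_piece (B := B) hD0) ?_ ?_
  · intro u x _ hc v
    rw [H2, if_pos hc]
  · intro u x hx hc v
    rw [H2]
    split_ifs with hc'
    · have hL : (u, x) ∈ SL a p := ⟨hx, hc'⟩
      have hR : (u, x) ∈ SR a p := ⟨hx, hc⟩
      obtain ⟨hs, hw, _⟩ := mid hL hR
      show TT b (h (u * min 1 (2 - 2 * sv a p (u, x))) (tr a x))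
          (B.g ((1 - u) * sv a p (u, x) + u * min 1 (2 * sv a p (u, x))) (nrm (xi a p x)) v) =
        TT b (D0 (zc a (fun x => 1 - sw a p x) (u, x))) (B.g 1 (nrm (xi a p x)) v)
      have e2 : u * min 1 (2 - 2 * (1 : ℝ)) = 0 := by norm_num
      have e3 : (1 - u) * 1 + u * min 1 (2 * (1 : ℝ)) = 1 := by norm_num
      rw [zc_zero (c := fun x => 1 - sw a p x) (q := (u, x)) (by rw [hw, sub_self]), hs, e2, e3]
      show ((h 0 (tr a x) _).1, (h 0 (tr a x) _).2 + _) =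
        ((D0 (tr a x) _).1, (D0 (tr a x) _).2 + _)
      rw [e0 _ (tr_mem (SL_pos (q := (u, x)) hL))]
    · rfl

theorem H12 {x : ℕ → ℂ} (hx : x ∈ XX (a + p)) (e0 : ∀ x ∈ XX a, ∀ v, h 0 x v = D0 x v)
    (v : V × ℂ) : H1 a b B D0 1 x v = H2 a b B D0 h 0 x v := by
  have e : c1 a p (1, x) = c1 a p (0, x) := rfl
  rw [H1, H2, e]
  split_ifs with hc
  · have hL : ((0 : ℝ), x) ∈ SL a p := ⟨⟨⟨le_rfl, zero_le_one⟩, hx⟩, hc⟩
    show TT b (D0 (zc a (fun x => 1 - x.1) (1, x))) (B.g (1 * sv a p (1, x)) (nrm (xi a p x)) v) =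
      TT b (h (0 * min 1 (2 - 2 * sv a p (0, x))) (tr a x))
          (B.g ((1 - 0) * sv a p (0, x) + 0 * min 1 (2 * sv a p (0, x))) (nrm (xi a p x)) v)
    have e3 : sv a p (1, x) = sv a p (0, x) := rfl
    rw [zc_zero (c := fun x => 1 - x.1) (q := (1, x)) (sub_self 1), e3, one_mul, zero_mul, zero_mul,
      add_zero, sub_zero, one_mul]
    show ((D0 (tr a x) _).1, (D0 (tr a x) _).2 + _) = ((h 0 (tr a x) _).1, (h 0 (tr a x) _).2 + _)
    rw [e0 _ (tr_mem (SL_pos (q := (0, x)) hL))]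
  · show TT b (D0 (zc a (fun x => 1 - x.1 * sw a p x) (1, x))) (B.g 1 (nrm (xi a p x)) v) =
      TT b (D0 (zc a (fun x => 1 - sw a p x) (0, x))) (B.g 1 (nrm (xi a p x)) v)
    have e4 : zc a (fun x => 1 - x.1 * sw a p x) (1, x) = zc a (fun x => 1 - sw a p x) (0, x) := by
      have e5 : sw a p (1, x) = sw a p (0, x) := rfl
      simp only [zc, e5, one_mul]
    rw [e4]

theorem H3A_piece (hD1 : Fam p a (p * q) b (fun _ => D1)) :
    PieceOn p q (b + 1) (SL a p ∩ {x | c2 a p x ≤ 0}) (H3A a b B D1) := by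
  refine piece hD1 (w := q) (w' := p * q) ?_ ?_ ?_ ?_ ?_ ?_ ?_ ?_ ?_ ?_ ?_ ?_ ?_ ?_
  · exact B.kap_cont
  · intro u hu s hs y v hv
    exact B.kap_ne u hu s hs y v hv
  · intro t ht y y' hy u hu s hs v
    exact B.kap_eqv t ht y y' hy u hu s hs v
  · exact continuousOn_const
  · intro _ _
    exact ⟨le_rfl, zero_le_one⟩
  · intro _ _ _ _ _
    rfl
  · exact ((continuous_tr a).comp continuous_snd).continuousOn
  · intro x hx
    exact tr_mem (SL_pos hx.1)
  · intro t _ u x _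
    exact tr_smul a t x
  · exact (continuousOn_const.mul sv_cont).mono inter_subset_left
  · intro x hx
    exact ⟨by linarith [(sv_mem hx.1).1], sv_half hx.1 hx.2⟩
  · intro t ht u x _
    simp only [sv_inv t ht]
  · intro x hx
    exact hx.1.1.1
  · intro x hx
    by_cases h0 : xi a p x.2 = 0
    · refine Or.inr fun y y' v => ?_
      simp only [sv_zero h0, mul_zero]
      rw [B.kap_left _ hx.1.1.1, B.kap_left _ hx.1.1.1]
    · exact Or.inl h0

theorem H3B_piece (hh : Fam p a q b h) :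
    PieceOn p q (b + 1) (SL a p ∩ {x | 0 ≤ c2 a p x}) (H3B a b B h) := by
  refine piece hh (w := q) (w' := q) ?_ ?_ ?_ ?_ ?_ ?_ ?_ ?_ ?_ ?_ ?_ ?_ ?_ ?_
  · exact g_cont'
  · intro u _ s hs y v hv
    exact B.g_ne s hs y v hv
  · intro t ht y y' hy u _ s hs v
    exact B.g_eqv t ht y y' hy s hs v
  · exact (continuousOn_const.sub (continuousOn_const.mul sv_cont)).mono inter_subset_left
  · intro x hx
    exact ⟨by linarith [(sv_mem hx.1).2], by linarith [sv_half' hx.1 hx.2]⟩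
  · intro t ht u x _
    simp only [sv_inv t ht]
  · exact ((continuous_tr a).comp continuous_snd).continuousOn
  · intro x hx
    exact tr_mem (SL_pos hx.1)
  · intro t _ u x _
    exact tr_smul a t x
  · exact continuousOn_const
  · intro _ _
    exact ⟨zero_le_one, le_rfl⟩
  · intro _ _ _ _ _
    rfl
  · intro x hx
    exact hx.1.1.1
  · intro x hx
    exact Or.inl (xi_ne (n2_pos_of_c2 hx.1 hx.2))

theorem H3L_piece (hD1 : Fam p a (p * q) b (fun _ => D1)) (hh : Fam p a q b h)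
    (e1 : ∀ x ∈ XX a, ∀ v, h 1 x v = D1 x (PP p v)) :
    PieceOn p q (b + 1) (SL a p) (H3L a b B D1 h) := by
  refine PieceOn.glue (c := c2 a p) continuous_c2.continuousOn (fun t ht u x _ => c2_inv t ht u x)
    SL_inv (H3A_piece (B := B) hD1) (H3B_piece (B := B) hh) ?_ ?_
  · intro u x _ hc v
    rw [H3L, if_pos hc]
  · intro u x hx hc v
    rw [H3L]
    split_ifs with hc'
    · have hs : 2 * sv a p (u, x) = 1 := le_antisymm (sv_half hx hc') (sv_half' hx hc)
      have hs2 : 2 - 2 * sv a p (u, x) = 1 := by rw [hs]; norm_num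
      show TT b (D1 (tr a x)) (B.kap u (2 * sv a p (u, x)) (nrm (xi a p x)) v) =
        TT b (h (2 - 2 * sv a p (u, x)) (tr a x)) (B.g 1 (nrm (xi a p x)) v)
      rw [hs2, hs, B.kap_right _ hx.1.1, B.g_one]
      show ((D1 (tr a x) (PP p _)).1, (D1 (tr a x) (PP p _)).2 + _) =
        ((h 1 (tr a x) _).1, (h 1 (tr a x) _).2 + _)
      rw [e1 _ (tr_mem (SL_pos (q := (u, x)) hx))]
    · rfl

theorem H3_fam (hD0 : Fam p (a + p) q b (fun _ => D0)) (hD1 : Fam p a (p * q) b (fun _ => D1))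
    (hh : Fam p a q b h) (e0 : ∀ x ∈ XX a, ∀ v, h 0 x v = D0 x v)
    (e1 : ∀ x ∈ XX a, ∀ v, h 1 x v = D1 x (PP p v)) :
    Fam p (a + p) q (b + 1) (H3 a b B D0 D1 h) := by
  refine PieceOn.glue (c := c1 a p) continuous_c1.continuousOn (fun t ht u x _ => c1_inv t ht u x)
    SS_inv (H3L_piece (B := B) hD1 hh e1) (H2R_piece (B := B) hD0) ?_ ?_
  · intro u x _ hc v
    rw [H3, if_pos hc]
  · intro u x hx hc v
    rw [H3]
    split_ifs with hc'
    · have hL : (u, x) ∈ SL a p := ⟨hx, hc'⟩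
      have hR : (u, x) ∈ SR a p := ⟨hx, hc⟩
      obtain ⟨hs, hw, h2⟩ := mid hL hR
      rw [H3L, if_neg h2]
      show TT b (h (2 - 2 * sv a p (u, x)) (tr a x)) (B.g 1 (nrm (xi a p x)) v) =
        TT b (D0 (zc a (fun x => 1 - sw a p x) (u, x))) (B.g 1 (nrm (xi a p x)) v)
      have e2 : 2 - 2 * (1 : ℝ) = 0 := by norm_num
      rw [zc_zero (c := fun x => 1 - sw a p x) (q := (u, x)) (by rw [hw, sub_self]), hs, e2]
      show ((h 0 (tr a x) _).1, (h 0 (tr a x) _).2 + _) =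
        ((D0 (tr a x) _).1, (D0 (tr a x) _).2 + _)
      rw [e0 _ (tr_mem (SL_pos (q := (u, x)) hL))]
    · rfl

theorem H23 {x : ℕ → ℂ} (hx : x ∈ XX (a + p)) (e1 : ∀ x ∈ XX a, ∀ v, h 1 x v = D1 x (PP p v))
    (v : V × ℂ) : H2 a b B D0 h 1 x v = H3 a b B D0 D1 h 0 x v := by
  have e : c1 a p (1, x) = c1 a p (0, x) := rfl
  have e' : sv a p (1, x) = sv a p (0, x) := rfl
  rw [H2, H3, e]
  split_ifs with hc
  · have hL : ((0 : ℝ), x) ∈ SL a p := ⟨⟨⟨le_rfl, zero_le_one⟩, hx⟩, hc⟩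
    rw [H3L]
    split_ifs with h2
    · have hs := sv_half hL h2
      have hs0 := (sv_mem hL).1
      show TT b (h (1 * min 1 (2 - 2 * sv a p (1, x))) (tr a x))
          (B.g ((1 - 1) * sv a p (1, x) + 1 * min 1 (2 * sv a p (1, x))) (nrm (xi a p x)) v) =
        TT b (D1 (tr a x)) (B.kap 0 (2 * sv a p (0, x)) (nrm (xi a p x)) v)
      rw [e', min_eq_left (by linarith), min_eq_right (by linarith), sub_self, zero_mul, zero_add,
        one_mul, one_mul, B.kap_zero _ ⟨by linarith, hs⟩]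
      show ((h 1 (tr a x) _).1, (h 1 (tr a x) _).2 + _) =
        ((D1 (tr a x) (PP p _)).1, (D1 (tr a x) (PP p _)).2 + _)
      rw [e1 _ (tr_mem (SL_pos (q := (0, x)) hL))]
    · have hs := sv_half' hL (not_le.1 h2).le
      show TT b (h (1 * min 1 (2 - 2 * sv a p (1, x))) (tr a x))
          (B.g ((1 - 1) * sv a p (1, x) + 1 * min 1 (2 * sv a p (1, x))) (nrm (xi a p x)) v) =
        TT b (h (2 - 2 * sv a p (0, x)) (tr a x)) (B.g 1 (nrm (xi a p x)) v)
      rw [e', min_eq_right (by linarith), min_eq_left (by linarith), sub_self, zero_mul, zero_add,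
        one_mul, one_mul]
  · rfl

theorem H3_one {x : ℕ → ℂ} (hx : x ∈ XX (a + p)) (v : V × ℂ) :
    H3 a b B D0 D1 h 1 x v = Dn a b B D0 D1 h 0 x (PP p v) := by
  have e : c1 a p (1, x) = c1 a p (0, x) := rfl
  have ec : c2 a p (1, x) = c2 a p (0, x) := rfl
  have e' : sv a p (1, x) = sv a p (0, x) := rfl
  rw [H3, Dn, e]
  split_ifs with hc
  · have hL : ((0 : ℝ), x) ∈ SL a p := ⟨⟨⟨le_rfl, zero_le_one⟩, hx⟩, hc⟩
    rw [H3L, DAB, ec]
    split_ifs with h2
    · have hs := sv_half hL h2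
      have hs0 := (sv_mem hL).1
      show TT b (D1 (tr a x)) (B.kap 1 (2 * sv a p (1, x)) (nrm (xi a p x)) v) =
        TT b (D1 (tr a x)) (B.g' (2 * sv a p (0, x)) (nrm (xi a p x)) (PP p v))
      rw [e', B.kap_one _ ⟨by linarith, hs⟩]
    · show TT b (h (2 - 2 * sv a p (1, x)) (tr a x)) (B.g 1 (nrm (xi a p x)) v) =
        TT b (h (2 - 2 * sv a p (0, x)) (tr a x)) (B.W (nrm (xi a p x)) (PP p v))
      rw [e', B.g_one]
  · show TT b (D0 (zc a (fun x => 1 - sw a p x) (1, x))) (B.g 1 (nrm (xi a p x)) v) =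
      TT b (D0 (zc a (fun x => 1 - sw a p x) (0, x))) (B.W (nrm (xi a p x)) (PP p v))
    rw [B.g_one]
    rfl

/-- **The recursion step.** -/
theorem core (B : Block p q V) (hD0 : Fam p (a + p) q b (fun _ => D0))
    (hD1 : Fam p a (p * q) b (fun _ => D1)) (hh : Fam p a q b h)
    (e0 : ∀ x ∈ XX a, ∀ v, h 0 x v = D0 x v)
    (e1 : ∀ x ∈ XX a, ∀ v, h 1 x v = D1 x (PP p v)) :
    ∃ (D' : (ℕ → ℂ) → V × ℂ → V × (ℕ → ℂ)) (h' : ℝ → (ℕ → ℂ) → V × ℂ → V × (ℕ → ℂ)),
      Fam p (a + p) (p * q) (b + 1) (fun _ => D') ∧ (∀ x ∈ XX a, ∀ v, D' x v = D1 x v) ∧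
      Fam p (a + p) q (b + 1) h' ∧ (∀ x ∈ XX (a + p), ∀ v, h' 0 x v = D0 x v) ∧
      ∀ x ∈ XX (a + p), ∀ v, h' 1 x v = D' x (PP p v) := by
  have hn := Dn_fam (B := B) hD0 hD1 hh e0 e1
  have h01 : (0 : ℝ) ∈ Icc (0 : ℝ) 1 := ⟨le_rfl, zero_le_one⟩
  have f12 := (H1_fam (B := B) hD0).trans (H2_fam (B := B) hD0 hh e0)
    (fun x hx v => H12 hx e0 v)
  have f123 := f12.trans (H3_fam (B := B) hD0 hD1 hh e0 e1) (fun x hx v => by
    have : ¬ (1 : ℝ) ≤ 1 / 2 := by norm_num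
    simp only [if_neg this]
    have e : 2 * (1 : ℝ) - 1 = 1 := by norm_num
    rw [e]
    exact H23 hx e1 v)
  refine ⟨fun x v => Dn a b B D0 D1 h 0 x v, _, ?_, ?_, f123, ?_, ?_⟩
  · exact hn.repar (r := fun _ => 0) continuous_const fun u x hx => ⟨h01, hx.2⟩
  · intro x hx v
    exact Dn_old h01 hx v
  · intro x hx v
    have e2 : 2 * (0 : ℝ) = 0 := mul_zero 2
    have h0 : (0 : ℝ) ≤ 1 / 2 := by norm_num
    simp only [if_pos h0, e2]
    exact H1_zero v
  · intro x hx v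
    have : ¬ (1 : ℝ) ≤ 1 / 2 := by norm_num
    simp only [if_neg this]
    have e : 2 * (1 : ℝ) - 1 = 1 := by norm_num
    rw [e]
    exact H3_one hx v

end Pool.Agent.H.MP_5f9601_gt.U
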