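import Pool.Agent.H.MP_5f9601_gt.U.R4
import Pool.Agent.H.MP_5f9601_gt.Fin.ThmS

/-!
# S13261 (R), part 5: the recursion and Theorem S
-/

set_option autoImplicit false

open Set Filter Topology Metric

namespace Pool.Agent.H.MP_5f9601_gt.U

variable {p : ℕ} {V : Type} [NormedAddCommGroup V] [NormedSpace ℂ V]

theorem Fam_empty (w b : ℕ) (F : ℝ → (ℕ → ℂ) → V × ℂ → V × (ℕ → ℂ)) : Fam p 0 w b F where
  cont := by
    have e : {q : ℝ × (ℕ → ℂ) × (V × ℂ) | (q.1, q.2.1) ∈ Icc (0 : ℝ) 1 ×ˢ XX 0} = ∅ := by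
      ext q
      simp [XX_zero]
    rw [e]
    exact continuousOn_empty _
  ne u x hx := by
    have h2 := hx.2
    rw [XX_zero] at h2
    exact h2.elim
  supp u x hx := by
    have h2 := hx.2
    rw [XX_zero] at h2
    exact h2.elim
  eqv t ht u x hx := by
    have h2 := hx.2
    rw [XX_zero] at h2
    exact h2.elim

/-- the initial map -/
def Dini (_ : ℕ → ℂ) (v : V × ℂ) : V × (ℕ → ℂ) := (v.1, Pi.single 0 v.2)

theorem Dini_fam (a b : ℕ) : Fam (V := V) p a (p ^ (0 + 1)) b (fun _ => Dini) where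
  cont := by
    refine Continuous.continuousOn ?_
    have hsing : Continuous fun c : ℂ => (Pi.single 0 c : ℕ → ℂ) :=
      continuous_single (A := fun _ : ℕ => ℂ) 0
    exact (continuous_fst.comp (continuous_snd.comp continuous_snd)).prodMk
      (hsing.comp (continuous_snd.comp (continuous_snd.comp continuous_snd)))
  ne u x _ v hv h := by
    apply hv
    have e1 : v.1 = 0 := congrArg Prod.fst h
    have e2 : (Pi.single 0 v.2 : ℕ → ℂ) = 0 := congrArg Prod.snd h
    have e3 := congrFun e2 0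
    rw [Pi.single_eq_same] at e3
    exact Prod.ext e1 e3
  supp u x _ v i hi := by
    show (Pi.single 0 v.2 : ℕ → ℂ) i = 0
    rw [Pi.single_eq_of_ne (by omega)]
  eqv t _ u x _ v := by
    show (t ^ p • v.1, (Pi.single 0 (t ^ (p ^ (0 + 1)) * v.2) : ℕ → ℂ)) =
      t ^ p • (v.1, (Pi.single 0 v.2 : ℕ → ℂ))
    refine Prod.ext rfl ?_
    show (Pi.single 0 (t ^ (p ^ (0 + 1)) * v.2) : ℕ → ℂ) = t ^ p • (Pi.single 0 v.2 : ℕ → ℂ)
    funext i
    by_cases hi : i = 0
    · subst hi
      simp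
    · simp [Pi.single_eq_of_ne hi]

variable [NeZero p]

theorem claim (hB : ∀ k : ℕ, 1 ≤ k → Nonempty (Block p (p ^ k) V)) (b : ℕ) :
    ∃ (D : ℕ → (ℕ → ℂ) → V × ℂ → V × (ℕ → ℂ))
      (h : ℕ → ℝ → (ℕ → ℂ) → V × ℂ → V × (ℕ → ℂ)),
      D 0 = Dini ∧
      (∀ j, Fam p (p * (b + 1 - j)) (p ^ (j + 1)) b (fun _ => D j)) ∧
      (∀ j, Fam p (p * (b - j)) (p ^ (j + 1)) b (h j)) ∧
      (∀ j, ∀ x ∈ XX (p * (b - j)), ∀ v, h j 0 x v = D j x v) ∧
      ∀ j, ∀ x ∈ XX (p * (b - j)), ∀ v, h j 1 x v = D (j + 1) x (PP p v) := by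
  induction b with
  | zero =>
    refine ⟨fun _ => Dini, fun _ _ => Dini, rfl, ?_, ?_, ?_, ?_⟩
    · intro j
      rcases Nat.eq_zero_or_pos j with hj | hj
      · subst hj
        exact Dini_fam _ _
      · have e : p * (0 + 1 - j) = 0 := by
          rw [show 0 + 1 - j = 0 by omega, mul_zero]
        rw [e]
        exact Fam_empty _ _ _
    · intro j
      have e : p * (0 - j) = 0 := by
        rw [show 0 - j = 0 by omega, mul_zero]
      rw [e]
      exact Fam_empty _ _ _
    · intro j x hx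
      have e : p * (0 - j) = 0 := by
        rw [show 0 - j = 0 by omega, mul_zero]
      rw [e, XX_zero] at hx
      exact hx.elim
    · intro j x hx
      have e : p * (0 - j) = 0 := by
        rw [show 0 - j = 0 by omega, mul_zero]
      rw [e, XX_zero] at hx
      exact hx.elim
  | succ b ih =>
    obtain ⟨D, h, hD0, hD, hh, h0, h1⟩ := ih
    have key : ∀ j : ℕ, ∃ (D' : (ℕ → ℂ) → V × ℂ → V × (ℕ → ℂ))
        (h' : ℝ → (ℕ → ℂ) → V × ℂ → V × (ℕ → ℂ)),
        Fam p (p * (b + 1 - j)) (p ^ (j + 1 + 1)) (b + 1) (fun _ => D') ∧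
        (∀ x ∈ XX (p * (b - j)), ∀ v, D' x v = D (j + 1) x v) ∧
        Fam p (p * (b + 1 - j)) (p ^ (j + 1)) (b + 1) h' ∧
        (∀ x ∈ XX (p * (b + 1 - j)), ∀ v, h' 0 x v = D j x v) ∧
        ∀ x ∈ XX (p * (b + 1 - j)), ∀ v, h' 1 x v = D' x (PP p v) := by
      intro j
      by_cases hj : j ≤ b
      · obtain ⟨B⟩ := hB (j + 1) (by omega)
        have ea : p * (b + 1 - j) = p * (b - j) + p := by
          rw [show b + 1 - j = (b - j) + 1 by omega, Nat.mul_succ]
        have ew : p ^ (j + 1 + 1) = p * p ^ (j + 1) := pow_succ' p (j + 1)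
        have f0 := hD j
        have f1 := hD (j + 1)
        rw [ea] at f0
        rw [show b + 1 - (j + 1) = b - j by omega, ew] at f1
        obtain ⟨D', h', g1, g2, g3, g4, g5⟩ := core B f0 f1 (hh j) (h0 j) (h1 j)
        rw [ea, ew]
        exact ⟨D', h', g1, g2, g3, g4, g5⟩
      · have e1 : p * (b + 1 - j) = 0 := by
          rw [show b + 1 - j = 0 by omega, mul_zero]
        have e2 : p * (b - j) = 0 := by
          rw [show b - j = 0 by omega, mul_zero]
        rw [e1, e2]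
        refine ⟨Dini, fun _ => Dini, Fam_empty _ _ _, ?_, Fam_empty _ _ _, ?_, ?_⟩ <;>
          · intro x hx
            rw [XX_zero] at hx
            exact hx.elim
    choose D' h' g1 g2 g3 g4 g5 using key
    have e0 : ∀ j, ∀ x ∈ XX (p * (b + 1 - j)), ∀ v,
        (match j with | 0 => Dini | j + 1 => D' j : (ℕ → ℂ) → V × ℂ → V × (ℕ → ℂ)) x v =
          D j x v := by
      intro j x hx v
      rcases j with _ | j
      · rw [hD0]
      · have e : b + 1 - (j + 1) = b - j := by omega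
        rw [e] at hx
        exact g2 j x hx v
    refine ⟨fun j => match j with | 0 => Dini | j + 1 => D' j, h', rfl, ?_, ?_, ?_, ?_⟩
    · intro j
      rcases j with _ | j
      · exact Dini_fam _ _
      · have e : b + 1 + 1 - (j + 1) = b + 1 - j := by omega
        rw [e]
        exact g1 j
    · exact g3
    · intro j x hx v
      rw [g4 j x hx v]
      exact (e0 j x hx v).symm
    · exact g5

end Pool.Agent.H.MP_5f9601_gt.U
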