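import Pool.Agent.H.MP_5f9601_gt.U.R5

/-!
# S13261 (R), part 6: Theorem S from the blocks
-/

set_option autoImplicit false

open Set Filter Topology Metric

namespace Pool.Agent.H.MP_5f9601_gt.U

/-- extension by zero of the coordinates -/
noncomputable def ext0 (a : ℕ) (x : EuclideanSpace ℂ (Fin a)) : ℕ → ℂ :=
  fun i => if h : i < a then x ⟨i, h⟩ else 0

theorem continuous_ext0 (a : ℕ) : Continuous (ext0 a) := by
  refine continuous_pi fun i => ?_
  by_cases h : i < a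
  · simp only [ext0, dif_pos h]
    exact (PiLp.continuous_apply 2 _ _)
  · simp only [ext0, dif_neg h]
    exact continuous_const

theorem ext0_smul (a : ℕ) (t : ℂ) (x : EuclideanSpace ℂ (Fin a)) :
    ext0 a (t • x) = t • ext0 a x := by
  funext i
  show (if h : i < a then (t • x) ⟨i, h⟩ else 0) = t * (if h : i < a then x ⟨i, h⟩ else 0)
  split_ifs
  · rfl
  · rw [mul_zero]

theorem ext0_mem {a : ℕ} {x : EuclideanSpace ℂ (Fin a)} (hx : x ≠ 0) : ext0 a x ∈ XX a := by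
  refine ⟨fun h => hx ?_, fun i hi => ?_⟩
  · ext i
    have h1 := congrFun h i
    have h2 : (if h : (i : ℕ) < a then x ⟨i, h⟩ else 0) = 0 := h1
    rw [dif_pos i.2] at h2
    exact h2
  · show (if h : i < a then x ⟨i, h⟩ else 0) = 0
    rw [dif_neg (by omega)]

/-- collecting the coordinates -/
noncomputable def coll (n b : ℕ) (w : EuclideanSpace ℂ (Fin n) × (ℕ → ℂ)) :
    EuclideanSpace ℂ (Fin (n + b + 1)) :=
  WithLp.toLp 2 fun i => if h : (i : ℕ) < n then w.1 ⟨i, h⟩ else w.2 (i - n)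

theorem coll_apply (n b : ℕ) (w : EuclideanSpace ℂ (Fin n) × (ℕ → ℂ)) (i : Fin (n + b + 1)) :
    coll n b w i = if h : (i : ℕ) < n then w.1 ⟨i, h⟩ else w.2 (i - n) := rfl

theorem continuous_coll (n b : ℕ) : Continuous (coll n b) := by
  refine (PiLp.continuous_toLp 2 _).comp (continuous_pi fun i => ?_)
  by_cases h : (i : ℕ) < n
  · simp only [dif_pos h]
    exact (PiLp.continuous_apply 2 _ _).comp continuous_fst
  · simp only [dif_neg h]
    exact (continuous_apply (A := fun _ : ℕ => ℂ) _).comp continuous_snd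

theorem coll_smul (n b : ℕ) (t : ℂ) (w : EuclideanSpace ℂ (Fin n) × (ℕ → ℂ)) :
    coll n b (t • w) = t • coll n b w := by
  ext i
  rw [coll_apply]
  show _ = t * coll n b w i
  rw [coll_apply]
  split_ifs <;> rfl

theorem coll_ne {n b : ℕ} {w : EuclideanSpace ℂ (Fin n) × (ℕ → ℂ)} (hw : w ≠ 0)
    (hs : ∀ i, b < i → w.2 i = 0) : coll n b w ≠ 0 := by
  intro h
  apply hw
  refine Prod.ext ?_ ?_
  · ext i
    have h1 : coll n b w ⟨i, by omega⟩ = 0 := by rw [h]; rfl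
    rw [coll_apply, dif_pos i.2] at h1
    exact h1
  · funext i
    by_cases hi : i ≤ b
    · have h1 : coll n b w ⟨n + i, by omega⟩ = 0 := by rw [h]; rfl
      rw [coll_apply, dif_neg (by simp)] at h1
      simpa using h1
    · exact hs i (by omega)

/-- **Theorem S from the blocks** (helper47's recursion). -/
theorem thmS_of_blocks {p n : ℕ} (hp : p ≠ 0)
    (hB : ∀ k : ℕ, 1 ≤ k → Nonempty (Block p (p ^ k) (EuclideanSpace ℂ (Fin n)))) : ThmS p := by
  have : NeZero p := ⟨hp⟩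
  refine ⟨n, fun k b _ => ?_⟩
  obtain ⟨D, h, _, hD, _⟩ := claim hB b
  have hDk := hD k
  set a := p * (b + 1 - k) with ha
  have h0 : (0 : ℝ) ∈ Icc (0 : ℝ) 1 := ⟨le_rfl, zero_le_one⟩
  have hne : ((0 : EuclideanSpace ℂ (Fin n)), (1 : ℂ)) ≠ 0 := by
    intro h
    exact one_ne_zero (congrArg Prod.snd h)
  have hx0 : ∀ x : Sp a, (x : EuclideanSpace ℂ (Fin a)) ≠ 0 := by
    intro x h
    have := mem_sphere_zero_iff_norm.1 x.2
    rw [h, norm_zero] at this
    exact zero_ne_one this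
  refine ⟨fun x => coll n b (D k (ext0 a x) (0, 1)), ?_, ?_, ?_⟩
  · refine (continuous_coll n b).comp ?_
    have hm : Continuous fun x : Sp a => ((0 : ℝ), ext0 a (x : EuclideanSpace ℂ (Fin a)),
        (((0 : EuclideanSpace ℂ (Fin n)), (1 : ℂ)) : EuclideanSpace ℂ (Fin n) × ℂ)) :=
      continuous_const.prodMk (((continuous_ext0 a).comp continuous_subtype_val).prodMk
        continuous_const)
    exact hDk.cont.comp_continuous hm fun x => ⟨h0, ext0_mem (hx0 x)⟩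
  · intro x
    exact coll_ne (hDk.ne 0 _ ⟨h0, ext0_mem (hx0 x)⟩ _ hne)
      (fun i hi => hDk.supp 0 _ ⟨h0, ext0_mem (hx0 x)⟩ _ i hi)
  · intro x y hy
    have hm : p ^ (k + 1) ≠ 0 := pow_ne_zero _ hp
    have hz1 : ‖zet (p ^ (k + 1))‖ = 1 := (zet_prim hm).norm'_eq_one hm
    have hz2 : zet (p ^ (k + 1)) ^ (p ^ (k + 1)) = 1 := (zet_prim hm).pow_eq_one
    have e := hDk.eqv _ hz1 0 (ext0 a x) ⟨h0, ext0_mem (hx0 x)⟩ ((0 : EuclideanSpace ℂ (Fin n)), (1 : ℂ))
    have e2 : act p (p ^ (k + 1)) (zet (p ^ (k + 1))) ((0 : EuclideanSpace ℂ (Fin n)), (1 : ℂ)) =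
        (0, 1) := by
      rw [act, hz2]
      simp
    rw [e2] at e
    show coll n b (D k (ext0 a y) (0, 1)) = _ • coll n b (D k (ext0 a x) (0, 1))
    rw [hy, ext0_smul, e, coll_smul]

/-- the frozen statement from the blocks -/
theorem main_of_blocks (H : ∀ p : ℕ, p.Prime → p ≠ 2 → ∃ n : ℕ, ∀ k : ℕ, 1 ≤ k →
    Nonempty (Block p (p ^ k) (EuclideanSpace ℂ (Fin n)))) :
  ∀ p : ℕ, p.Prime → p ≠ 2 →
  ∃ (n k : ℕ → ℕ)
    (f : ∀ i : ℕ, C(↥(Metric.sphere (0 : EuclideanSpace ℂ (Fin (n (i+1)))) 1),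
                     ↥(Metric.sphere (0 : EuclideanSpace ℂ (Fin (n i))) 1)))
    (q : ∀ i : ℕ,
      C(Quot (fun x y : ↥(Metric.sphere (0 : EuclideanSpace ℂ (Fin (n (i+1)))) 1) =>
            ∃ j : ℕ, (y : EuclideanSpace ℂ (Fin (n (i+1)))) =
              Complex.exp (2 * (Real.pi : ℂ) * Complex.I / ((p ^ k (i+1) : ℕ) : ℂ)) ^ j •
                (x : EuclideanSpace ℂ (Fin (n (i+1))))),
        Quot (fun x y : ↥(Metric.sphere (0 : EuclideanSpace ℂ (Fin (n i))) 1) =>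
            ∃ j : ℕ, (y : EuclideanSpace ℂ (Fin (n i))) =
              Complex.exp (2 * (Real.pi : ℂ) * Complex.I / ((p ^ k i : ℕ) : ℂ)) ^ j •
                (x : EuclideanSpace ℂ (Fin (n i))))))
    (g : ∀ i j : ℕ, C(↥(Metric.sphere (0 : EuclideanSpace ℂ (Fin (n (i+j)))) 1),
                       ↥(Metric.sphere (0 : EuclideanSpace ℂ (Fin (n i))) 1))),
    Filter.Tendsto k Filter.atTop Filter.atTop ∧
    (∀ i, p ^ (k i - k 0) < n i) ∧
    (∀ i x, q i (Quot.mk _ x) = Quot.mk _ (f i x)) ∧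
    (∀ i x (δ : Path (q i x) (q i x)), ∃ γ : Path x x,
        (γ.map (q i).continuous).Homotopic δ) ∧
    (∀ i, g i 0 = ContinuousMap.id _) ∧
    (∀ i j, g i (j+1) = (g i j).comp (f (i+j))) ∧
    (∀ i, ∃ j, ∃ y, (g i j).Homotopic (ContinuousMap.const _ y)) :=
  main_of_thmS fun p hp hp2 => by
    obtain ⟨n, hn⟩ := H p hp hp2
    exact thmS_of_blocks hp.ne_zero hn

end Pool.Agent.H.MP_5f9601_gt.U
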