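import Mathlib

/-!
# S13261, helper47's proof: definitions for the recursion (sections 1 and 2)

* `psi l z = |z| (z/|z|)^l`, the norm preserving power map;
* `V × ℂ` with the action `act p w t (v,z) = (t^p v, t^w z)` models `V + L^w`, `V = n L^p`;
* `Block p q V`: the block of section 1 over `Y p = S(p L)`.
-/

set_option autoImplicit false

open Set Filter Topology Metric

namespace Pool.Agent.H.MP_5f9601_gt.U

/-- the norm preserving power map -/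
noncomputable def psi (l : ℤ) (z : ℂ) : ℂ := (‖z‖ : ℂ) * (z / (‖z‖ : ℂ)) ^ l

/-- the base `S(p L)` of the block -/
abbrev Y (p : ℕ) := Metric.sphere (0 : EuclideanSpace ℂ (Fin p)) 1

section

variable (p : ℕ) {V : Type} [NormedAddCommGroup V] [NormedSpace ℂ V]

/-- the action of the circle on `V + L^w` -/
def act (w : ℕ) (t : ℂ) (v : V × ℂ) : V × ℂ := (t ^ p • v.1, t ^ w * v.2)

/-- `P = 1 + psi_p` -/
noncomputable def PP (v : V × ℂ) : V × ℂ := (v.1, psi p v.2)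

end

/-- The block of section 1 (`q = p^k`): over `Y p = S(pL)`,
`W : V + L^{pq} → V + L^q + L^p`, `g : V + L^q → V + L^q + L^p` from the inclusion to `W P`,
`g' : V + L^{pq} → V + L^{pq} + L^p` from the inclusion to `(P+1) W` and
`kap : V + L^q → V + L^{pq} + L^p` from `(P+1) g` to `g' P`. -/
structure Block (p q : ℕ) (V : Type) [NormedAddCommGroup V] [NormedSpace ℂ V] where
  W : Y p → V × ℂ → (V × ℂ) × ℂ
  g : ℝ → Y p → V × ℂ → (V × ℂ) × ℂ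
  g' : ℝ → Y p → V × ℂ → (V × ℂ) × ℂ
  kap : ℝ → ℝ → Y p → V × ℂ → (V × ℂ) × ℂ
  W_cont : Continuous fun x : Y p × (V × ℂ) => W x.1 x.2
  g_cont : Continuous fun x : ℝ × Y p × (V × ℂ) => g x.1 x.2.1 x.2.2
  g'_cont : Continuous fun x : ℝ × Y p × (V × ℂ) => g' x.1 x.2.1 x.2.2
  kap_cont : Continuous fun x : ℝ × ℝ × Y p × (V × ℂ) => kap x.1 x.2.1 x.2.2.1 x.2.2.2
  W_ne : ∀ y v, v ≠ 0 → W y v ≠ 0
  g_ne : ∀ s ∈ Icc (0 : ℝ) 1, ∀ y v, v ≠ 0 → g s y v ≠ 0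
  g'_ne : ∀ s ∈ Icc (0 : ℝ) 1, ∀ y v, v ≠ 0 → g' s y v ≠ 0
  kap_ne : ∀ u ∈ Icc (0 : ℝ) 1, ∀ s ∈ Icc (0 : ℝ) 1, ∀ y v, v ≠ 0 → kap u s y v ≠ 0
  W_eqv : ∀ t : ℂ, ‖t‖ = 1 → ∀ y y' : Y p,
    (y' : EuclideanSpace ℂ (Fin p)) = t • (y : EuclideanSpace ℂ (Fin p)) → ∀ v,
      W y' (act p (p * q) t v) = (act p q t (W y v).1, t ^ p * (W y v).2)
  g_eqv : ∀ t : ℂ, ‖t‖ = 1 → ∀ y y' : Y p,
    (y' : EuclideanSpace ℂ (Fin p)) = t • (y : EuclideanSpace ℂ (Fin p)) →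
      ∀ s ∈ Icc (0 : ℝ) 1, ∀ v,
        g s y' (act p q t v) = (act p q t (g s y v).1, t ^ p * (g s y v).2)
  g'_eqv : ∀ t : ℂ, ‖t‖ = 1 → ∀ y y' : Y p,
    (y' : EuclideanSpace ℂ (Fin p)) = t • (y : EuclideanSpace ℂ (Fin p)) →
      ∀ s ∈ Icc (0 : ℝ) 1, ∀ v,
        g' s y' (act p (p * q) t v) = (act p (p * q) t (g' s y v).1, t ^ p * (g' s y v).2)
  kap_eqv : ∀ t : ℂ, ‖t‖ = 1 → ∀ y y' : Y p,
    (y' : EuclideanSpace ℂ (Fin p)) = t • (y : EuclideanSpace ℂ (Fin p)) →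
      ∀ u ∈ Icc (0 : ℝ) 1, ∀ s ∈ Icc (0 : ℝ) 1, ∀ v,
        kap u s y' (act p q t v) = (act p (p * q) t (kap u s y v).1, t ^ p * (kap u s y v).2)
  g_zero : ∀ y v, g 0 y v = (v, 0)
  g'_zero : ∀ y v, g' 0 y v = (v, 0)
  g_one : ∀ y v, g 1 y v = W y (PP p v)
  g'_one : ∀ y v, g' 1 y v = (PP p (W y v).1, (W y v).2)
  kap_zero : ∀ s ∈ Icc (0 : ℝ) 1, ∀ y v, kap 0 s y v = (PP p (g s y v).1, (g s y v).2)
  kap_one : ∀ s ∈ Icc (0 : ℝ) 1, ∀ y v, kap 1 s y v = g' s y (PP p v)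
  kap_left : ∀ u ∈ Icc (0 : ℝ) 1, ∀ y v, kap u 0 y v = (PP p v, 0)
  kap_right : ∀ u ∈ Icc (0 : ℝ) 1, ∀ y v, kap u 1 y v = (PP p (W y (PP p v)).1, (W y (PP p v)).2)

end Pool.Agent.H.MP_5f9601_gt.U
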