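import Pool.Agent.H.MP_5f9601_gt.U.Asm
import Pool.Agent.H.MP_5f9601_gt.U.NClass

/-!
MP_5f9601, section 4 (helper25): the plain fillers.
-/

set_option autoImplicit false

open Set Topology

namespace Pool.Agent.H.MP_5f9601_gt.U

open MP5f.S4

/-- **Section 4**: the plain fillers. -/
theorem exists_fillers {p : ℕ} (hp : p.Prime) : ∃ M : ℕ, ∀ k : ℕ, 1 ≤ k →
    Nonempty (PlainFiller p M (p ^ k)) := by
  obtain ⟨l, hl, hlp, hli⟩ := LS.Alg.exists_root hp
  refine ⟨LS.Alg.cfin p 0 + 2, fun k _ => ?_⟩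
  obtain ⟨w, hw⟩ := section4 hp (p ^ k) hl hlp hli
  exact N.plainFiller_of_class (ap_eq p (p ^ k)) w hw

end Pool.Agent.H.MP_5f9601_gt.U
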